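import Pool.Agent.CRT.Defs

/-!
# [A0a] Weights and degrees
-/

set_option autoImplicit false

namespace Pool.Agent.CRT

open Finset MvPowerSeries

theorem A0a_mf_pos {d : ℕ} (α : MI d) : 0 < mf α :=
  Finset.prod_pos fun i _ => by positivity

theorem wD_pos {d : ℕ} (α : MI d) : 0 < wD α := by
  unfold wD
  have := A0a_mf_pos α
  positivity

theorem wH_pos {d : ℕ} (α : MI d) : 0 < wH α := by
  unfold wH
  have := A0a_mf_pos α
  positivity

theorem one_le_ck {d : ℕ} (k : ℕ) : 1 ≤ ck d k := by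
  unfold ck
  have h : 0 < Nat.choose (k + d - 1) (d - 1) := Nat.choose_pos (by omega)
  exact_mod_cast h

/-- `wD(α) = c_{|α|} wH(α)` -/
theorem wD_eq {d : ℕ} (hd : 1 ≤ d) (α : MI d) : wD α = ck d α.degree * wH α := by
  unfold wD wH ck
  have h := Nat.choose_mul_factorial_mul_factorial (n := α.degree + d - 1) (k := d - 1) (by omega)
  have h2 : α.degree + d - 1 - (d - 1) = α.degree := by omega
  rw [h2] at h
  have h3 : ((Nat.choose (α.degree + d - 1) (d - 1) : ℕ) : ℝ) * ((d - 1).factorial : ℝ) *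
      ((α.degree).factorial : ℝ) = ((α.degree + d - 1).factorial : ℝ) := by
    exact_mod_cast h
  have p1 : (0 : ℝ) < ((α.degree).factorial : ℝ) := by positivity
  have p2 : (0 : ℝ) < ((α.degree + d - 1).factorial : ℝ) := by positivity
  rw [div_eq_iff p1.ne', mul_div_assoc', div_mul_eq_mul_div, eq_div_iff p2.ne', ← h3]
  ring

theorem nk_nonneg {d : ℕ} {w : MI d → ℝ} (hw : ∀ α, 0 < w α) (f : PS d) (k : ℕ) :
    0 ≤ nk w f k :=
  Finset.sum_nonneg fun α _ => mul_nonneg (sq_nonneg _) (hw α).le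

theorem nkD_eq {d : ℕ} (hd : 1 ≤ d) (f : PS d) (k : ℕ) :
    nk wD f k = ck d k * nk wH f k := by
  unfold nk
  rw [Finset.mul_sum]
  refine Finset.sum_congr rfl fun α hα => ?_
  rw [wD_eq hd, mem_A.1 hα]
  ring

theorem A0a_tsum_fiber {d : ℕ} (g : MI d → ℝ) (k : ℕ) :
    HasSum (fun y : {α : MI d // α.degree = k} => g y) (∑ α ∈ A d k, g α) := by
  have h1 : HasSum (Set.indicator {α : MI d | α.degree = k} g) (∑ α ∈ A d k, g α) := by
    have h2 : ∑ α ∈ A d k, g α = ∑ α ∈ A d k, Set.indicator {α : MI d | α.degree = k} g α := by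
      refine Finset.sum_congr rfl fun α hα => ?_
      rw [Set.indicator_of_mem]
      exact mem_A.1 hα
    rw [h2]
    apply hasSum_sum_of_ne_finset_zero
    intro α hα
    rw [Set.indicator_of_notMem]
    intro h
    exact hα (mem_A.2 h)
  exact hasSum_subtype_iff_indicator.2 h1

theorem A0a_summable_iff {d : ℕ} {g : MI d → ℝ} (hg : ∀ α, 0 ≤ g α) :
    Summable g ↔ Summable fun k => ∑ α ∈ A d k, g α := by
  rw [← (Equiv.sigmaFiberEquiv fun α : MI d => α.degree).summable_iff,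
    summable_sigma_of_nonneg (f := g ∘ ⇑(Equiv.sigmaFiberEquiv fun α : MI d => α.degree))
      (fun x => hg _)]
  constructor
  · rintro ⟨_, h⟩
    refine h.congr fun k => ?_
    exact (A0a_tsum_fiber g k).tsum_eq
  · intro h
    refine ⟨fun k => (A0a_tsum_fiber g k).summable, h.congr fun k => ?_⟩
    exact (A0a_tsum_fiber g k).tsum_eq.symm

theorem A0a_tsum_eq {d : ℕ} {g : MI d → ℝ} (hs : Summable g) :
    ∑' α, g α = ∑' k, ∑ α ∈ A d k, g α := by
  have hs' := (Equiv.sigmaFiberEquiv fun α : MI d => α.degree).summable_iff.2 hs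
  have h1 := Summable.tsum_sigma' (f := g ∘ ⇑(Equiv.sigmaFiberEquiv fun α : MI d => α.degree))
    (fun k => (A0a_tsum_fiber g k).summable) hs'
  have h2 := (Equiv.sigmaFiberEquiv fun α : MI d => α.degree).tsum_eq g
  rw [← h2]
  refine Eq.trans h1 ?_
  exact tsum_congr fun k => (A0a_tsum_fiber g k).tsum_eq

/-- summing over the degrees: `f ∈ Sp w` iff `∑_k nk w f k < ∞` -/
theorem Sp_iff_nk {d : ℕ} {w : MI d → ℝ} (hw : ∀ α, 0 < w α) (f : PS d) :
    f ∈ Sp w ↔ Summable fun k => nk w f k :=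
  A0a_summable_iff fun α => mul_nonneg (sq_nonneg _) (hw α).le

/-- and `ns w f = ∑_k nk w f k` -/
theorem ns_eq_nk {d : ℕ} {w : MI d → ℝ} (hw : ∀ α, 0 < w α) {f : PS d} (hf : f ∈ Sp w) :
    ns w f = ∑' k, nk w f k :=
  A0a_tsum_eq hf

/-- `Sp wD ⊆ Sp wH`, `ns wH f ≤ ns wD f` (as `c_k ≥ 1`) -/
theorem SpD_SpH {d : ℕ} (hd : 1 ≤ d) {f : PS d} (hf : f ∈ Sp (wD (d := d))) :
    f ∈ Sp (wH (d := d)) ∧ ns wH f ≤ ns wD f := by
  have hle : ∀ α : MI d, ‖MvPowerSeries.coeff α f‖ ^ 2 * wH α ≤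
      ‖MvPowerSeries.coeff α f‖ ^ 2 * wD α := by
    intro α
    apply mul_le_mul_of_nonneg_left _ (sq_nonneg _)
    rw [wD_eq hd]
    have h1 := one_le_ck (d := d) α.degree
    have h2 := wH_pos α
    nlinarith
  have hs : f ∈ Sp (wH (d := d)) :=
    Summable.of_nonneg_of_le (fun α => mul_nonneg (sq_nonneg _) (wH_pos α).le) hle hf
  exact ⟨hs, Summable.tsum_le_tsum hle hs hf⟩

end Pool.Agent.CRT
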