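import Pool.Agent.CRT.Defs
import Pool.Agent.CRT.A0a

/-!
# [A0b] Linear structure, pairings, polynomials
-/

set_option autoImplicit false

namespace Pool.Agent.CRT

open Finset MvPowerSeries

theorem A0b_fin {d : ℕ} (K : ℕ) : {α : MI d | α.degree ≤ K}.Finite := by
  have h : {α : MI d | α.degree ≤ K} ⊆ ((range (K + 1)).biUnion fun k => A d k : Finset (MI d)) := by
    intro α hα
    have hα' : α.degree ≤ K := hα
    rw [Finset.mem_coe, Finset.mem_biUnion]
    exact ⟨α.degree, Finset.mem_range.2 (by omega), mem_A.2 rfl⟩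
  exact (Finset.finite_toSet _).subset h

theorem Sp_add {d : ℕ} {w : MI d → ℝ} (hw : ∀ α, 0 < w α) {f g : PS d} (hf : f ∈ Sp w)
    (hg : g ∈ Sp w) : f + g ∈ Sp w := by
  have hf' : Summable fun α => ‖coeff α f‖ ^ 2 * w α := hf
  have hg' : Summable fun α => ‖coeff α g‖ ^ 2 * w α := hg
  refine Summable.of_nonneg_of_le (fun α => mul_nonneg (sq_nonneg _) (hw α).le) (fun α => ?_)
    ((hf'.mul_left 2).add (hg'.mul_left 2))
  rw [map_add]
  have h1 := norm_add_le (coeff α f) (coeff α g)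
  have h0 := norm_nonneg (coeff α f + coeff α g)
  have h2 : ‖coeff α f + coeff α g‖ ^ 2 ≤ 2 * ‖coeff α f‖ ^ 2 + 2 * ‖coeff α g‖ ^ 2 := by
    nlinarith [sq_nonneg (‖coeff α f‖ - ‖coeff α g‖), norm_nonneg (coeff α f),
      norm_nonneg (coeff α g)]
  have h3 := hw α
  nlinarith

theorem Sp_smul {d : ℕ} {w : MI d → ℝ} (c : ℂ) {f : PS d} (hf : f ∈ Sp w) : c • f ∈ Sp w := by
  have hf' : Summable fun α => ‖coeff α f‖ ^ 2 * w α := hf
  show Summable fun α => ‖coeff α (c • f)‖ ^ 2 * w α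
  refine (hf'.mul_left (‖c‖ ^ 2)).congr fun α => ?_
  rw [map_smul, smul_eq_mul, norm_mul]
  ring

/-- the series defining `ip` converges absolutely (`|ab| ≤ |a|²+|b|²`) -/
theorem ip_summable {d : ℕ} {w : MI d → ℝ} (hw : ∀ α, 0 < w α) {f g : PS d} (hf : f ∈ Sp w)
    (hg : g ∈ Sp w) : Summable fun α =>
      ‖coeff α f * (starRingEnd ℂ) (coeff α g) * (w α : ℂ)‖ := by
  have hf' : Summable fun α => ‖coeff α f‖ ^ 2 * w α := hf
  have hg' : Summable fun α => ‖coeff α g‖ ^ 2 * w α := hg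
  refine Summable.of_nonneg_of_le (fun α => norm_nonneg _) (fun α => ?_) (hf'.add hg')
  have h3 := hw α
  rw [norm_mul, norm_mul, RCLike.norm_conj, Complex.norm_real, Real.norm_of_nonneg h3.le]
  have h4 : ‖coeff α f‖ * ‖coeff α g‖ ≤ ‖coeff α f‖ ^ 2 + ‖coeff α g‖ ^ 2 := by
    nlinarith [sq_nonneg (‖coeff α f‖ - ‖coeff α g‖), sq_nonneg (‖coeff α f‖),
      sq_nonneg (‖coeff α g‖)]
  nlinarith

theorem ip_add {d : ℕ} {w : MI d → ℝ} (hw : ∀ α, 0 < w α) {f g h : PS d} (hf : f ∈ Sp w)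
    (hg : g ∈ Sp w) (hh : h ∈ Sp w) : ip w (f + g) h = ip w f h + ip w g h := by
  unfold ip
  rw [← Summable.tsum_add (ip_summable hw hf hh).of_norm (ip_summable hw hg hh).of_norm]
  refine tsum_congr fun α => ?_
  rw [map_add]
  ring

theorem ip_smul {d : ℕ} {w : MI d → ℝ} (c : ℂ) (f g : PS d) : ip w (c • f) g = c * ip w f g := by
  unfold ip
  rw [← tsum_mul_left]
  refine tsum_congr fun α => ?_
  rw [map_smul, smul_eq_mul]
  ring

/-- Cauchy–Schwarz -/
theorem ip_le {d : ℕ} {w : MI d → ℝ} (hw : ∀ α, 0 < w α) {f g : PS d} (hf : f ∈ Sp w)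
    (hg : g ∈ Sp w) : ‖ip w f g‖ ≤ Real.sqrt (ns w f) * Real.sqrt (ns w g) := by
  have hf' : Summable fun α => ‖coeff α f‖ ^ 2 * w α := hf
  have hg' : Summable fun α => ‖coeff α g‖ ^ 2 * w α := hg
  have hsum := ip_summable hw hf hg
  have h1 : ‖ip w f g‖ ≤ ∑' α, ‖coeff α f * (starRingEnd ℂ) (coeff α g) * (w α : ℂ)‖ :=
    norm_tsum_le_tsum_norm hsum
  refine h1.trans ?_
  refine hsum.tsum_le_of_sum_le fun s => ?_
  have h2 : ∑ α ∈ s, ‖coeff α f * (starRingEnd ℂ) (coeff α g) * (w α : ℂ)‖ =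
      ∑ α ∈ s, (‖coeff α f‖ * Real.sqrt (w α)) * (‖coeff α g‖ * Real.sqrt (w α)) := by
    refine Finset.sum_congr rfl fun α _ => ?_
    have h3 := hw α
    rw [norm_mul, norm_mul, RCLike.norm_conj, Complex.norm_real, Real.norm_of_nonneg h3.le]
    have h4 := Real.mul_self_sqrt h3.le
    calc ‖coeff α f‖ * ‖coeff α g‖ * w α
        = ‖coeff α f‖ * ‖coeff α g‖ * (Real.sqrt (w α) * Real.sqrt (w α)) := by rw [h4]
      _ = _ := by ring
  rw [h2]
  refine (Real.sum_mul_le_sqrt_mul_sqrt s _ _).trans ?_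
  have e : ∀ (u : PS d) (α : MI d), (‖coeff α u‖ * Real.sqrt (w α)) ^ 2 = ‖coeff α u‖ ^ 2 * w α := by
    intro u α
    rw [mul_pow, Real.sq_sqrt (hw α).le]
  refine mul_le_mul (Real.sqrt_le_sqrt ?_) (Real.sqrt_le_sqrt ?_) (Real.sqrt_nonneg _)
    (Real.sqrt_nonneg _)
  · simp only [e]
    exact hf'.sum_le_tsum s fun α _ => mul_nonneg (sq_nonneg _) (hw α).le
  · simp only [e]
    exact hg'.sum_le_tsum s fun α _ => mul_nonneg (sq_nonneg _) (hw α).le

theorem poly_Sp {d : ℕ} (w : MI d → ℝ) {h : PS d} (hh : IsPoly h) : h ∈ Sp w := by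
  obtain ⟨K, hK⟩ := hh
  show Summable fun α => ‖coeff α h‖ ^ 2 * w α
  refine summable_of_hasFiniteSupport ((A0b_fin K).subset fun α hα => ?_)
  by_contra hc
  have hc' : K < α.degree := by
    have : ¬ α.degree ≤ K := hc
    omega
  exact hα (by simp [hK α hc'])

theorem poly_add {d : ℕ} {g h : PS d} (hg : IsPoly g) (hh : IsPoly h) : IsPoly (g + h) := by
  obtain ⟨K, hK⟩ := hg
  obtain ⟨L, hL⟩ := hh
  refine ⟨max K L, fun α hα => ?_⟩
  rw [map_add, hK α (lt_of_le_of_lt (le_max_left _ _) hα),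
    hL α (lt_of_le_of_lt (le_max_right _ _) hα), add_zero]

theorem poly_smul {d : ℕ} (c : ℂ) {h : PS d} (hh : IsPoly h) : IsPoly (c • h) := by
  obtain ⟨K, hK⟩ := hh
  refine ⟨K, fun α hα => ?_⟩
  rw [map_smul, hK α hα, smul_zero]

theorem poly_Lm {d : ℕ} {h : PS d} (hh : IsPoly h) : IsPoly (Lm h) := by
  obtain ⟨K, hK⟩ := hh
  refine ⟨K, fun α hα => ?_⟩
  unfold Lm
  rw [coeff_mkP, hK α hα, mul_zero]

/-- for a polynomial: `<h,f>_D = <h, Lm f>_H = <Lm h, f>_H`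
(`coeff h · conj(coeff f) · wD = coeff h · conj(coeff f) · c_k · wH`) -/
theorem ipD_eq {d : ℕ} (hd : 1 ≤ d) (h f : PS d) :
    ip wD h f = ip wH h (Lm f) ∧ ip wD h f = ip wH (Lm h) f := by
  unfold ip Lm
  constructor
  · refine tsum_congr fun α => ?_
    rw [coeff_mkP, wD_eq hd, map_mul, Complex.conj_ofReal]
    push_cast
    ring
  · refine tsum_congr fun α => ?_
    rw [coeff_mkP, wD_eq hd]
    push_cast
    ring

theorem Lm_Li {d : ℕ} (f : PS d) : Lm (Li f) = f := by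
  apply MvPowerSeries.ext
  intro α
  unfold Lm Li
  rw [coeff_mkP, coeff_mkP]
  have h := one_le_ck (d := d) α.degree
  have h1 : (ck d α.degree : ℂ) ≠ 0 := by
    have : (ck d α.degree : ℝ) ≠ 0 := by linarith
    exact_mod_cast this
  rw [← mul_assoc, mul_inv_cancel₀ h1, one_mul]

/-- for a polynomial the pairing is the finite sum over the degrees of
`∑_{|α|=k} h_α conj(f_α) w(α)` -/
theorem ip_poly {d : ℕ} (w : MI d → ℝ) {h : PS d} {K : ℕ}
    (hh : ∀ α : MI d, K < α.degree → coeff α h = 0) (f : PS d) :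
    ip w h f = ∑ k ∈ range (K + 1),
      ∑ α ∈ A d k, coeff α h * (starRingEnd ℂ) (coeff α f) * (w α : ℂ) := by
  unfold ip
  rw [← Finset.sum_biUnion]
  · apply tsum_eq_sum
    intro α hα
    have hα' : K < α.degree := by
      by_contra hc
      exact hα (Finset.mem_biUnion.2 ⟨α.degree, Finset.mem_range.2 (by omega), mem_A.2 rfl⟩)
    rw [hh α hα']
    simp
  · intro i _ j _ hij
    rw [Function.onFun, Finset.disjoint_left]
    intro α h1 h2
    exact hij ((mem_A.1 h1).symm.trans (mem_A.1 h2))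

end Pool.Agent.CRT
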