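import Pool.Agent.CRT.Defs

/-!
# [F1] Elementary facts about the coordinates `z₁ = <z,p>`, `z' = z - z₁p`, `T = |1-z₁|`, `t = 1-|z|²`

All are direct computations in an inner product space.
* `F1a`: `z = z₁ p + z'` with `z' ⊥ p` (Pythagoras), and `|z'|² = |z|²-|z₁|²`.
* `F1b`: `1-|z₁|² = (1-|z₁|)(1+|z₁|) ≤ 2(1-|z₁|) ≤ 2|1-z₁|`.
* `F2a`: for `w = (1+z₁)/(1-z₁)`: `Re w = (1-|z₁|²)/|1-z₁|²`.
* `F3a`: `|z-ζ|² = |z|²+|ζ|²-2Re<z,ζ>`, so `2 Re(1-<z,ζ>) = (1-|z|²)+(1-|ζ|²)+|z-ζ|²`.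
-/

set_option autoImplicit false

namespace Pool.Agent.CRT

theorem br_smul {d : ℕ} (c : ℂ) (z w : E d) : br (c • z) w = c * br z w := by
  unfold br
  rw [inner_smul_right]

theorem br_add {d : ℕ} (x y w : E d) : br (x + y) w = br x w + br y w := by
  unfold br
  rw [inner_add_right]

theorem br_conj {d : ℕ} (z w : E d) : (starRingEnd ℂ) (br z w) = br w z := by
  unfold br
  rw [inner_conj_symm]

theorem F1_br_self {d : ℕ} (z : E d) : br z z = ((‖z‖ ^ 2 : ℝ) : ℂ) := by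
  unfold br
  rw [inner_self_eq_norm_sq_to_K]
  push_cast
  rfl

theorem F1_br_pr_p {d : ℕ} {p : E d} (hp : ‖p‖ = 1) (z : E d) : br (pr p z) p = 0 := by
  have h : br p p = 1 := by rw [F1_br_self, hp]; norm_num
  have h2 : br (pr p z) p = br z p - br z p * br p p := by
    unfold pr
    rw [br, inner_sub_right, inner_smul_right]
    rfl
  rw [h2, h, mul_one, sub_self]

/-- `<z, pr p ζ> = <pr p z, pr p ζ>` -/
theorem br_pr {d : ℕ} {p : E d} (hp : ‖p‖ = 1) (z ζ : E d) :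
    br z (pr p ζ) = br (pr p z) (pr p ζ) := by
  have h0 : br p (pr p ζ) = 0 := by rw [← br_conj, F1_br_pr_p hp, map_zero]
  have h2 : ∀ v : E d, br (pr p z) v = br z v - br z p * br p v := by
    intro v
    rw [br, pr, inner_sub_right, inner_smul_right]
    rfl
  rw [h2, h0, mul_zero, sub_zero]

/-- `<z,ζ> = z₁ conj(ζ₁) + <z',ζ'>` -/
theorem br_split {d : ℕ} {p : E d} (hp : ‖p‖ = 1) (z ζ : E d) :
    br z ζ = br z p * (starRingEnd ℂ) (br ζ p) + br z (pr p ζ) := by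
  have h2 : br z (pr p ζ) = br z ζ - (starRingEnd ℂ) (br ζ p) * br z p := by
    rw [br, pr, inner_sub_left, inner_smul_left]
    rfl
  rw [h2]
  ring

/-- Cauchy–Schwarz for the components -/
theorem br_le {d : ℕ} (z ζ : E d) : ‖br z ζ‖ ≤ ‖z‖ * ‖ζ‖ := by
  unfold br
  rw [mul_comm]
  exact norm_inner_le_norm ζ z

/-- Pythagoras -/
theorem F1a {d : ℕ} {p z : E d} (hp : ‖p‖ = 1) : ‖z‖ ^ 2 = ‖br z p‖ ^ 2 + ‖pr p z‖ ^ 2 := by
  have h := br_split hp z z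
  rw [br_pr hp, F1_br_self, F1_br_self, Complex.mul_conj, Complex.normSq_eq_norm_sq] at h
  exact_mod_cast h

/-- the bounds for `z` in the open ball: `|z₁| < 1`, `|z'|² = (1-|z₁|²) - t`, `1-|z₁|² ≤ 2T`,
`0 < T ≤ 2`, `0 < t ≤ 1` -/
theorem F1b {d : ℕ} {p z : E d} (hp : ‖p‖ = 1) (hz : ‖z‖ < 1) :
    ‖br z p‖ < 1 ∧ tt z + ‖pr p z‖ ^ 2 = 1 - ‖br z p‖ ^ 2 ∧ 1 - ‖br z p‖ ^ 2 ≤ 2 * TT p z ∧
      0 < TT p z ∧ TT p z ≤ 2 ∧ 0 < tt z ∧ tt z ≤ 1 := by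
  have h1 : ‖br z p‖ ≤ ‖z‖ := by
    have := br_le z p
    rwa [hp, mul_one] at this
  have h2 : ‖br z p‖ < 1 := lt_of_le_of_lt h1 hz
  have h3 := F1a (z := z) hp
  have hn := norm_nonneg (br z p)
  have hzn := norm_nonneg z
  have h4 : 1 - ‖br z p‖ ≤ TT p z := by
    unfold TT lam
    have := norm_sub_norm_le (1 : ℂ) (br z p)
    rwa [norm_one] at this
  have h5 : TT p z ≤ 1 + ‖br z p‖ := by
    unfold TT lam
    have := norm_sub_le (1 : ℂ) (br z p)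
    rwa [norm_one] at this
  have h6 : ‖z‖ ^ 2 < 1 := by nlinarith
  refine ⟨h2, ?_, ?_, ?_, ?_, ?_, ?_⟩
  · unfold tt
    linarith
  · nlinarith
  · linarith
  · linarith
  · unfold tt
    linarith
  · unfold tt
    nlinarith

/-- consequences: `|z'|² ≤ 2T`, `t ≤ 2T` -/
theorem F1c {d : ℕ} {p z : E d} (hp : ‖p‖ = 1) (hz : ‖z‖ < 1) :
    ‖pr p z‖ ^ 2 ≤ 2 * TT p z ∧ tt z ≤ 2 * TT p z := by
  obtain ⟨h1, h2, h3, h4, h5, h6, h7⟩ := F1b hp hz
  have := sq_nonneg ‖pr p z‖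
  exact ⟨by linarith, by linarith⟩

/-- `Re w = (t+|z'|²)/T²`, `|w| ≤ 2/T`, `(2-T)/T ≤ |w|`, `1-z₁ = 2/(w+1)` -/
theorem F2a {d : ℕ} {p z : E d} (hp : ‖p‖ = 1) (hz : ‖z‖ < 1) :
    (ww p z).re = (tt z + ‖pr p z‖ ^ 2) / TT p z ^ 2 ∧ ‖ww p z‖ ≤ 2 / TT p z ∧
      (2 - TT p z) / TT p z ≤ ‖ww p z‖ ∧ 0 < (ww p z).re ∧ ww p z + 1 ≠ 0 ∧
      1 - br z p = 2 / (ww p z + 1) := by
  obtain ⟨h1, h2, h3, h4, h5, h6, h7⟩ := F1b hp hz
  have hne : (1 : ℂ) - br z p ≠ 0 := by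
    have : 0 < ‖(1 : ℂ) - br z p‖ := h4
    exact norm_pos_iff.mp this
  have hT2 : TT p z ^ 2 = Complex.normSq (1 - br z p) := by
    unfold TT lam
    rw [Complex.normSq_eq_norm_sq]
  have hb2 : ‖br z p‖ ^ 2 = Complex.normSq (br z p) := by
    rw [Complex.normSq_eq_norm_sq]
  have hre : (ww p z).re = (tt z + ‖pr p z‖ ^ 2) / TT p z ^ 2 := by
    rw [h2, hT2, hb2]
    have hw : ww p z = (1 + br z p) / (1 - br z p) := rfl
    rw [hw, Complex.div_re]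
    simp only [Complex.add_re, Complex.add_im, Complex.sub_re, Complex.sub_im, Complex.one_re,
      Complex.one_im]
    rw [← add_div]
    congr 1
    rw [Complex.normSq_apply (br z p)]
    ring
  have hw2 : ‖ww p z‖ = ‖1 + br z p‖ / TT p z := by
    unfold ww
    rw [norm_div]
    rfl
  have hpos : 0 < (ww p z).re := by
    rw [hre]
    have := sq_nonneg ‖pr p z‖
    positivity
  have hw1 : ww p z + 1 ≠ 0 := by
    intro h
    have := congrArg Complex.re h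
    simp only [Complex.add_re, Complex.one_re, Complex.zero_re] at this
    linarith
  refine ⟨hre, ?_, ?_, hpos, hw1, ?_⟩
  · rw [hw2]
    have : ‖1 + br z p‖ ≤ 2 := by
      have := norm_add_le (1 : ℂ) (br z p)
      rw [norm_one] at this
      linarith
    gcongr
  · rw [hw2]
    have : 2 - TT p z ≤ ‖1 + br z p‖ := by
      have h := norm_add_le (1 + br z p) (1 - br z p)
      have h' : (1 + br z p) + (1 - br z p) = 2 := by ring
      rw [h'] at h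
      have h2' : ‖(2 : ℂ)‖ = 2 := by norm_num
      rw [h2'] at h
      have : TT p z = ‖1 - br z p‖ := rfl
      linarith
    gcongr
  · have : ww p z + 1 = 2 / (1 - br z p) := by
      unfold ww
      field_simp
      ring
    rw [this]
    field_simp

/-- `2 Re λ_ζ(z) = t(z)+t(ζ)+|z-ζ|²` -/
theorem F3a {d : ℕ} (z ζ : E d) : 2 * (lam ζ z).re = tt z + tt ζ + ‖z - ζ‖ ^ 2 := by
  have h := norm_sub_sq (𝕜 := ℂ) z ζ
  have h2 : (br z ζ).re = RCLike.re (inner ℂ z ζ : ℂ) := by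
    rw [← br_conj]
    rfl
  unfold lam tt
  rw [Complex.sub_re, Complex.one_re, h2]
  rw [h]
  ring

/-- positivity -/
theorem F3b {d : ℕ} {z ζ : E d} (hz : ‖z‖ < 1) (hζ : ‖ζ‖ ≤ 1) :
    0 < (lam ζ z).re ∧ tt z ≤ 2 * (lam ζ z).re ∧ tt ζ ≤ 2 * (lam ζ z).re ∧
      ‖z - ζ‖ ^ 2 ≤ 2 * (lam ζ z).re ∧ (lam ζ z).re ≤ ‖lam ζ z‖ ∧ 0 < ‖lam ζ z‖ ∧
      ‖lam ζ z‖ ≤ 2 := by
  have h := F3a z ζ
  have h1 : 0 < tt z := by
    unfold tt
    nlinarith [norm_nonneg z]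
  have h2 : 0 ≤ tt ζ := by
    unfold tt
    nlinarith [norm_nonneg ζ]
  have h3 := sq_nonneg ‖z - ζ‖
  have h4 : (lam ζ z).re ≤ ‖lam ζ z‖ := Complex.re_le_norm _
  have h5 : ‖lam ζ z‖ ≤ 2 := by
    unfold lam
    have ha := norm_sub_le (1 : ℂ) (br z ζ)
    rw [norm_one] at ha
    have hb := br_le z ζ
    have hc : ‖z‖ * ‖ζ‖ ≤ 1 := by
      have := norm_nonneg z
      have := norm_nonneg ζ
      nlinarith
    linarith
  refine ⟨by linarith, by linarith, by linarith, by linarith, h4, by linarith, h5⟩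

theorem lam_symm {d : ℕ} (z ζ : E d) : ‖lam ζ z‖ = ‖lam z ζ‖ := by
  have : lam z ζ = (starRingEnd ℂ) (lam ζ z) := by
    unfold lam
    rw [map_sub, map_one, br_conj]
  rw [this, RCLike.norm_conj]

end Pool.Agent.CRT
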