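import Pool.Agent.CRT.A0
import Pool.Agent.CRT.F1

/-!
# [A1x] Kernels of the spaces of homogeneous polynomials
-/

set_option autoImplicit false

namespace Pool.Agent.CRT

open Finset MvPowerSeries

/-- the number of monomials of degree `k` is `c_k = binom(k+d-1,d-1)`
(`Finset.card_finsuppAntidiag`-type count: stars and bars) -/
theorem card_A {d : ℕ} (hd : 1 ≤ d) (k : ℕ) : ((A d k).card : ℝ) = ck d k := by
  unfold A ck
  rw [Finset.card_finsuppAntidiag_nat_eq_choose, Finset.card_univ, Fintype.card_fin,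
    add_comm d k, ← Nat.choose_symm (n := k + d - 1) (k := k) (by omega)]
  congr 2
  omega

theorem A1x_br {d : ℕ} (z ζ : E d) : br z ζ = ∑ i, z i * (starRingEnd ℂ) (ζ i) := by
  unfold br
  rw [PiLp.inner_apply]
  refine Finset.sum_congr rfl fun i _ => ?_
  simp [mul_comm]

/-- multinomial theorem: `∑_{|α|=k} (k!/α!) z^α conj(ζ^α) = (∑ z_i conj ζ_i)^k = <z,ζ>^k`
(`Finset.sum_pow`, `Finset.sum_pow_of_commute` or by `Finsupp.multinomial`) -/
theorem A1a {d : ℕ} (z ζ : E d) (k : ℕ) :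
    ∑ α ∈ A d k, mono z α * (starRingEnd ℂ) (mono ζ α) / (wD α : ℂ) = br z ζ ^ k := by
  rw [A1x_br, Finset.sum_pow_eq_sum_piAntidiag]
  refine Finset.sum_nbij' (fun α => (α : Fin d → ℕ)) (fun f => Finsupp.equivFunOnFinite.symm f)
    ?_ ?_ ?_ ?_ ?_
  · intro α hα
    rw [Finset.mem_piAntidiag]
    have h := mem_A.1 hα
    rw [Finsupp.degree_eq_sum] at h
    exact ⟨h, fun _ _ => Finset.mem_univ _⟩
  · intro f hf
    rw [Finset.mem_piAntidiag] at hf
    rw [mem_A, Finsupp.degree_eq_sum]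
    exact hf.1
  · intro α _
    ext i
    rfl
  · intro f _
    rfl
  · intro α hα
    have h := mem_A.1 hα
    have h1 := Nat.multinomial_spec (Finset.univ : Finset (Fin d)) (α : Fin d → ℕ)
    have h2 : ∑ i, α i = k := by
      rw [← h, Finsupp.degree_eq_sum]
    rw [h2] at h1
    have h3 : mf α * (Nat.multinomial Finset.univ (α : Fin d → ℕ) : ℝ) = (k.factorial : ℝ) := by
      unfold mf
      exact_mod_cast h1
    have hmf := A0a_mf_pos α
    have hwD : (wD α : ℂ) = (mf α : ℂ) / (k.factorial : ℂ) := by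
      unfold wD
      rw [h]
      push_cast
      rfl
    have h3' : (mf α : ℂ) * (Nat.multinomial Finset.univ (α : Fin d → ℕ) : ℂ) = (k.factorial : ℂ) := by
      exact_mod_cast congrArg (fun x : ℝ => (x : ℂ)) h3
    have hmf' : (mf α : ℂ) ≠ 0 := by exact_mod_cast hmf.ne'
    have hk' : (k.factorial : ℂ) ≠ 0 := by exact_mod_cast (Nat.factorial_pos k).ne'
    have h4 : mono z α * (starRingEnd ℂ) (mono ζ α) = ∏ i, (z i * (starRingEnd ℂ) (ζ i)) ^ α i := by
      unfold mono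
      rw [map_prod, ← Finset.prod_mul_distrib]
      refine Finset.prod_congr rfl fun i _ => ?_
      rw [map_pow, mul_pow]
    rw [h4, hwD, ← h3']
    field_simp

theorem A1b {d : ℕ} (z : E d) (k : ℕ) :
    ∑ α ∈ A d k, ‖mono z α‖ ^ 2 / wD α = ‖z‖ ^ (2 * k) := by
  have h := A1a z z k
  have h1 : br z z = ((‖z‖ ^ 2 : ℝ) : ℂ) := by
    unfold br
    rw [inner_self_eq_norm_sq_to_K]
    push_cast
    rfl
  rw [h1] at h
  have h2 : ∑ α ∈ A d k, mono z α * (starRingEnd ℂ) (mono z α) / (wD α : ℂ) =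
      ((∑ α ∈ A d k, ‖mono z α‖ ^ 2 / wD α : ℝ) : ℂ) := by
    push_cast
    refine Finset.sum_congr rfl fun α _ => ?_
    rw [Complex.mul_conj, Complex.normSq_eq_norm_sq]
    push_cast
    rfl
  rw [h2] at h
  have h3 : (((‖z‖ ^ 2 : ℝ) : ℂ)) ^ k = ((‖z‖ ^ (2 * k) : ℝ) : ℂ) := by
    push_cast
    rw [pow_mul]
  rw [h3] at h
  exact_mod_cast h

theorem A1c {d : ℕ} (hd : 1 ≤ d) (z : E d) (k : ℕ) :
    ∑ α ∈ A d k, ‖mono z α‖ ^ 2 / wH α = ck d k * ‖z‖ ^ (2 * k) := by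
  rw [← A1b, Finset.mul_sum]
  refine Finset.sum_congr rfl fun α hα => ?_
  rw [wD_eq hd, mem_A.1 hα]
  have h1 := one_le_ck (d := d) k
  have h2 : ck d k ≠ 0 := by linarith
  have h3 := (wH_pos α).ne'
  field_simp

/-- growth of `c_k`: `c_k ≤ (k+1)^{d-1}`: `binom(k+d-1,d-1) = ∏_{j=1}^{d-1} (k+j)/j ≤ (k+1)^{d-1}` -/
theorem ck_le {d : ℕ} (hd : 1 ≤ d) (k : ℕ) : ck d k ≤ ((k : ℝ) + 1) ^ (d - 1) := by
  unfold ck
  obtain ⟨m, rfl⟩ : ∃ m, d = m + 1 := ⟨d - 1, by omega⟩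
  have h0 : k + (m + 1) - 1 = k + m := by omega
  rw [h0, Nat.add_sub_cancel]
  have h : Nat.choose (k + m) m ≤ (k + 1) ^ m := by
    clear hd h0
    induction m with
    | zero => simp
    | succ m ih =>
      have h1 := Nat.add_one_mul_choose_eq (k + m) m
      have h2 : (k + m + 1) ≤ (k + 1) * (m + 1) := by nlinarith
      have h3 : Nat.choose (k + m + 1) (m + 1) * (m + 1) ≤ (k + 1) ^ (m + 1) * (m + 1) := by
        rw [← h1]
        calc (k + m + 1) * Nat.choose (k + m) m ≤ ((k + 1) * (m + 1)) * (k + 1) ^ m :=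
              Nat.mul_le_mul h2 ih
          _ = (k + 1) ^ (m + 1) * (m + 1) := by ring
      exact Nat.le_of_mul_le_mul_right h3 (Nat.succ_pos m)
  exact_mod_cast h

end Pool.Agent.CRT
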