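import Pool.Agent.CRT.A0
import Pool.Agent.CRT.F1
import Pool.Agent.CRT.A1x

/-!
# [A1y] Pointwise bounds
-/

set_option autoImplicit false

namespace Pool.Agent.CRT

open Finset MvPowerSeries

theorem A1y_cs {ι : Type} (s : Finset ι) (c m : ι → ℂ) (w : ι → ℝ) (hw : ∀ i, 0 < w i) :
    (∑ i ∈ s, ‖c i * m i‖) ^ 2 ≤ (∑ i ∈ s, ‖c i‖ ^ 2 * w i) * ∑ i ∈ s, ‖m i‖ ^ 2 / w i := by
  refine Finset.sum_sq_le_sum_mul_sum_of_sq_le_mul s (fun i _ => ?_) (fun i _ => ?_) fun i _ => ?_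
  · exact mul_nonneg (sq_nonneg _) (hw i).le
  · exact div_nonneg (sq_nonneg _) (hw i).le
  · rw [norm_mul]
    have := (hw i).ne'
    refine le_of_eq ?_
    field_simp

theorem A1y_hold (a n b : ℕ → ℝ) (ha : ∀ k, 0 ≤ a k) (hn : ∀ k, 0 ≤ n k) (hb : ∀ k, 0 ≤ b k)
    (h : ∀ k, a k ^ 2 ≤ n k * b k) (hns : Summable n) (hbs : Summable b) :
    Summable a ∧ ∑' k, a k ≤ Real.sqrt (∑' k, n k) * Real.sqrt (∑' k, b k) := by
  have e1 : ∀ k, Real.sqrt (n k) ^ (2 : ℝ) = n k := fun k => by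
    rw [Real.rpow_two, Real.sq_sqrt (hn k)]
  have e2 : ∀ k, Real.sqrt (b k) ^ (2 : ℝ) = b k := fun k => by
    rw [Real.rpow_two, Real.sq_sqrt (hb k)]
  obtain ⟨h1, h2⟩ := Real.summable_and_inner_le_Lp_mul_Lq_tsum_of_nonneg
    (p := 2) (q := 2) (f := fun k => Real.sqrt (n k)) (g := fun k => Real.sqrt (b k))
    Real.HolderConjugate.two_two (fun k => Real.sqrt_nonneg _) (fun k => Real.sqrt_nonneg _)
    (by simp only [e1]; exact hns) (by simp only [e2]; exact hbs)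
  simp only [e1, e2] at h2
  rw [← Real.sqrt_eq_rpow, ← Real.sqrt_eq_rpow] at h2
  have h3 : ∀ k, a k ≤ Real.sqrt (n k) * Real.sqrt (b k) := by
    intro k
    rw [← Real.sqrt_mul (hn k)]
    exact Real.le_sqrt_of_sq_le (h k)
  have h4 : Summable a := Summable.of_nonneg_of_le ha h3 h1
  exact ⟨h4, (h4.tsum_le_tsum h3 h1).trans h2⟩

/-- summing over the degrees -/
theorem A1y_sum {d : ℕ} (g : MI d → ℝ) (hg : ∀ α, 0 ≤ g α)
    (hs : Summable fun k => ∑ α ∈ A d k, g α) :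
    Summable g ∧ ∑' α, g α = ∑' k, ∑ α ∈ A d k, g α := by
  have e1 : ∀ α, ‖coeff α (mkP (fun α => ((Real.sqrt (g α) : ℝ) : ℂ)))‖ ^ 2 * (1 : ℝ) = g α := by
    intro α
    rw [coeff_mkP, Complex.norm_real, mul_one, Real.norm_eq_abs, sq_abs, Real.sq_sqrt (hg α)]
  have e2 : ∀ k, nk (fun _ => 1) (mkP (fun α => ((Real.sqrt (g α) : ℝ) : ℂ)) : PS d) k =
      ∑ α ∈ A d k, g α := by
    intro k
    unfold nk
    exact Finset.sum_congr rfl fun α _ => e1 α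
  have h1 : (mkP (fun α => ((Real.sqrt (g α) : ℝ) : ℂ)) : PS d) ∈ Sp (fun _ => (1 : ℝ)) := by
    rw [Sp_iff_nk (fun _ => one_pos)]
    simp only [e2]
    exact hs
  have h2 := ns_eq_nk (fun _ => one_pos) h1
  simp only [e2] at h2
  have h3 : ns (fun _ => (1 : ℝ)) (mkP (fun α => ((Real.sqrt (g α) : ℝ) : ℂ)) : PS d) =
      ∑' α, g α := by
    unfold ns
    exact tsum_congr e1
  rw [h3] at h2
  refine ⟨?_, h2⟩
  have h4 : Summable fun α => ‖coeff α (mkP (fun α => ((Real.sqrt (g α) : ℝ) : ℂ)) : PS d)‖ ^ 2 *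
    (1 : ℝ) := h1
  simp only [e1] at h4
  exact h4

theorem A1y_main {d : ℕ} (f : PS d) (z : E d) (n b : ℕ → ℝ) (hn : ∀ k, 0 ≤ n k) (hb : ∀ k, 0 ≤ b k)
    (h : ∀ k, (∑ α ∈ A d k, ‖coeff α f * mono z α‖) ^ 2 ≤ n k * b k) (hns : Summable n)
    (hbs : Summable b) : (Summable fun α => ‖coeff α f * mono z α‖) ∧
      ‖ev f z‖ ≤ Real.sqrt (∑' k, n k) * Real.sqrt (∑' k, b k) := by
  obtain ⟨h1, h2⟩ := A1y_hold (fun k => ∑ α ∈ A d k, ‖coeff α f * mono z α‖) n b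
    (fun k => Finset.sum_nonneg fun α _ => norm_nonneg _) hn hb h hns hbs
  obtain ⟨h3, h4⟩ := A1y_sum (fun α => ‖coeff α f * mono z α‖) (fun α => norm_nonneg _) h1
  refine ⟨h3, ?_⟩
  unfold ev
  refine (norm_tsum_le_tsum_norm h3).trans ?_
  rw [h4]
  exact h2

/-- Cauchy–Schwarz: `(∑_{|α|=k} |f_α z^α|)² ≤ (∑ |f_α|² wD) (∑ |z^α|²/wD)` -/
theorem A2a {d : ℕ} (f : PS d) (k : ℕ) (z : E d) :
    (∑ α ∈ A d k, ‖coeff α f * mono z α‖) ^ 2 ≤ nk wD f k * ‖z‖ ^ (2 * k) := by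
  rw [← A1b]
  exact A1y_cs _ _ _ _ fun α => wD_pos α

/-- the same for `wH` -/
theorem A2b {d : ℕ} (hd : 1 ≤ d) (f : PS d) (k : ℕ) (z : E d) :
    (∑ α ∈ A d k, ‖coeff α f * mono z α‖) ^ 2 ≤ ck d k * nk wH f k * ‖z‖ ^ (2 * k) := by
  have h1 := A1y_cs (A d k) (fun α => coeff α f) (mono z) wH fun α => wH_pos α
  rw [A1c hd] at h1
  have h2 : ck d k * nk wH f k * ‖z‖ ^ (2 * k) = nk wH f k * (ck d k * ‖z‖ ^ (2 * k)) := by ring
  rw [h2]
  exact h1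

/-- `|f_k(z)| ≤ (∑_{|α|=k} |f_α z^α|)` -/
theorem hp_le {d : ℕ} (f : PS d) (k : ℕ) (z : E d) :
    ‖hp f k z‖ ≤ ∑ α ∈ A d k, ‖coeff α f * mono z α‖ := by
  exact norm_sum_le _ _

/-- homogeneity -/
theorem hp_smul {d : ℕ} (f : PS d) (k : ℕ) (c : ℂ) (z : E d) :
    hp f k (c • z) = c ^ k * hp f k z := by
  unfold hp
  rw [Finset.mul_sum]
  refine Finset.sum_congr rfl fun α hα => ?_
  have h1 : mono (c • z) α = c ^ k * mono z α := by
    unfold mono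
    have h2 : ∀ i, (c • z) i ^ α i = c ^ α i * z i ^ α i := by
      intro i
      rw [← mul_pow]
      rfl
    rw [Finset.prod_congr rfl fun i _ => h2 i, Finset.prod_mul_distrib, Finset.prod_pow_eq_pow_sum]
    rw [mem_A, Finsupp.degree_eq_sum] at hα
    rw [hα]
  rw [h1]
  ring

theorem hp_cont {d : ℕ} (f : PS d) (k : ℕ) : Continuous (hp f k) := by
  unfold hp mono
  fun_prop

/-- if `f ∈ Sp wH` then the power series converges absolutely on the ball and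
`|f(z)| ≤ √(ns wH f) t(z)^{-d}`.

Proof.  By `A2b`, `∑_{|α|=k} |f_α z^α| ≤ √(nk wH f k) √c_k |z|^k`; Cauchy–Schwarz in `k`:
`≤ √(∑ nk) √(∑ c_k |z|^{2k}) = √(ns wH f) (1-|z|²)^{-d/2} ≤ √(ns wH f) (1-|z|²)^{-d}`
(`∑_k binom(k+d-1,d-1) x^k = (1-x)^{-d}`, `tsum_choose_mul_geometric_of_norm_lt_one`). -/
theorem A9 {d : ℕ} (hd : 1 ≤ d) {f : PS d} (hf : f ∈ Sp (wH (d := d))) {z : E d} (hz : ‖z‖ < 1) :
    (Summable fun α => ‖coeff α f * mono z α‖) ∧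
      ‖ev f z‖ ≤ Real.sqrt (ns wH f) * (1 / tt z) ^ d := by
  have hx0 : 0 ≤ ‖z‖ ^ 2 := sq_nonneg _
  have hx1 : ‖z‖ ^ 2 < 1 := by
    have := norm_nonneg z
    nlinarith
  have hgeo : HasSum (fun k => ck d k * ‖z‖ ^ (2 * k)) (1 / (tt z) ^ d) := by
    have h1 := hasSum_choose_mul_geometric_of_norm_lt_one (d - 1) (r := ‖z‖ ^ 2) (by
      rw [Real.norm_eq_abs, abs_of_nonneg hx0]; exact hx1)
    have h2 : d - 1 + 1 = d := by omega
    rw [h2] at h1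
    have h3 : (fun k => ck d k * ‖z‖ ^ (2 * k)) =
        fun k => ((k + (d - 1)).choose (d - 1) : ℝ) * (‖z‖ ^ 2) ^ k := by
      funext k
      unfold ck
      rw [show k + d - 1 = k + (d - 1) by omega, pow_mul]
    rw [h3]
    exact h1
  have htt : 0 < tt z := by unfold tt; linarith
  have htt1 : tt z ≤ 1 := by unfold tt; linarith
  obtain ⟨h1, h2⟩ := A1y_main f z (fun k => nk wH f k) (fun k => ck d k * ‖z‖ ^ (2 * k))
    (fun k => nk_nonneg wH_pos f k)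
    (fun k => mul_nonneg (zero_le_one.trans (one_le_ck k)) (by positivity))
    (fun k => by
      have := A2b hd f k z
      calc _ ≤ _ := this
        _ = _ := by ring) ((Sp_iff_nk wH_pos f).mp hf) hgeo.summable
  refine ⟨h1, h2.trans ?_⟩
  rw [← ns_eq_nk wH_pos hf, hgeo.tsum_eq]
  refine mul_le_mul_of_nonneg_left ?_ (Real.sqrt_nonneg _)
  have h3 : 1 ≤ (1 / tt z) ^ d := one_le_pow₀ (by rw [le_div_iff₀ htt]; linarith)
  rw [Real.sqrt_le_left (by positivity)]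
  have h4 : 1 / tt z ^ d = (1 / tt z) ^ d := by rw [div_pow, one_pow]
  rw [h4]
  nlinarith

/-- if `f ∈ Sp wD` then for `z` in the ball `|f(z)|² ≤ ns wD f / t(z)`
(same proof with `A2a`) -/
theorem A9D {d : ℕ} {f : PS d} (hf : f ∈ Sp (wD (d := d))) {z : E d} (hz : ‖z‖ < 1) :
    (Summable fun α => ‖coeff α f * mono z α‖) ∧ ‖ev f z‖ ^ 2 ≤ ns wD f / tt z := by
  have hx0 : 0 ≤ ‖z‖ ^ 2 := sq_nonneg _
  have hx1 : ‖z‖ ^ 2 < 1 := by
    have := norm_nonneg z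
    nlinarith
  have hgeo : HasSum (fun k => ‖z‖ ^ (2 * k)) (tt z)⁻¹ := by
    have h1 := hasSum_geometric_of_lt_one hx0 hx1
    simp only [← pow_mul] at h1
    exact h1
  have htt : 0 < tt z := by unfold tt; linarith
  obtain ⟨h1, h2⟩ := A1y_main f z (fun k => nk wD f k) (fun k => ‖z‖ ^ (2 * k))
    (fun k => nk_nonneg wD_pos f k) (fun k => by positivity)
    (fun k => A2a f k z) ((Sp_iff_nk wD_pos f).mp hf) hgeo.summable
  refine ⟨h1, ?_⟩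
  rw [← ns_eq_nk wD_pos hf, hgeo.tsum_eq] at h2
  have h3 : 0 ≤ ns wD f := tsum_nonneg fun α => mul_nonneg (sq_nonneg _) (wD_pos α).le
  calc ‖ev f z‖ ^ 2 ≤ (Real.sqrt (ns wD f) * Real.sqrt (tt z)⁻¹) ^ 2 :=
        pow_le_pow_left₀ (norm_nonneg _) h2 2
    _ = ns wD f / tt z := by
        rw [mul_pow, Real.sq_sqrt h3, Real.sq_sqrt (inv_nonneg.mpr htt.le), div_eq_mul_inv]

end Pool.Agent.CRT
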