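import Pool.Agent.CRT.A0

/-!
# [A3x] Bombieri inequality
-/

set_option autoImplicit false

namespace Pool.Agent.CRT

open Finset MvPowerSeries

theorem A3x_wD_pos {d : ℕ} (α : MI d) : 0 < wD α := wD_pos α

/-- `1 / wD α` is the multinomial coefficient -/
theorem A3x_mult {d : ℕ} (α : MI d) : ((α.multinomial : ℕ) : ℝ) = 1 / wD α := by
  have h1 : α.multinomial = Nat.multinomial Finset.univ α :=
    Finsupp.multinomial_eq_of_support_subset (Finset.subset_univ _)
  have h2 := Nat.multinomial_spec (s := Finset.univ) (f := α)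
  have h3 : mf α * ((Nat.multinomial Finset.univ α : ℕ) : ℝ) = (α.degree.factorial : ℝ) := by
    rw [Finsupp.degree_eq_sum, ← h2, Nat.cast_mul, Nat.cast_prod]
    rfl
  have h4 : mf α ≠ 0 := by
    unfold mf
    rw [Finset.prod_ne_zero_iff]
    intro i _
    exact_mod_cast Nat.factorial_ne_zero _
  have h5 : (α.degree.factorial : ℝ) ≠ 0 := by exact_mod_cast Nat.factorial_ne_zero _
  rw [h1]
  unfold wD
  rw [one_div_div, eq_div_iff h4, ← h3, mul_comm]

theorem A3x_filter {d : ℕ} {γ : MI d} {j k : ℕ} (hγ : γ.degree = j + k) :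
    (antidiagonal γ).filter (fun q => q.1.degree = j) =
      (A d j ×ˢ A d k).filter (fun q => q.1 + q.2 = γ) := by
  ext q
  rw [Finset.mem_filter, Finset.mem_filter, Finset.mem_product, mem_A, mem_A, Finset.HasAntidiagonal.mem_antidiagonal]
  constructor
  · rintro ⟨h1, h2⟩
    refine ⟨⟨h2, ?_⟩, h1⟩
    have h3 := congrArg Finsupp.degree h1
    rw [map_add, h2, hγ] at h3
    omega
  · rintro ⟨⟨h1, h2⟩, h3⟩
    exact ⟨h3, h1⟩

/-- the product of homogeneous parts -/
theorem A3x_sum {d : ℕ} {R : Type} [CommSemiring R] (γ : MI d) (j k : ℕ) (hγ : γ.degree = j + k)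
    (u v : MI d → R) :
    ∑ q ∈ antidiagonal γ, (if q.1.degree = j then u q.1 else 0) *
      (if q.2.degree = k then v q.2 else 0) =
    ∑ q ∈ (antidiagonal γ).filter (fun q => q.1.degree = j), u q.1 * v q.2 := by
  rw [Finset.sum_filter]
  refine Finset.sum_congr rfl fun q hq => ?_
  by_cases h : q.1.degree = j
  · have h3 := congrArg Finsupp.degree (Finset.HasAntidiagonal.mem_antidiagonal.1 hq)
    rw [map_add, h, hγ] at h3
    have h4 : q.2.degree = k := by omega
    rw [if_pos h, if_pos h, if_pos h4]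
  · rw [if_neg h, if_neg h, zero_mul]

/-- Vandermonde: for a multi-index `γ` with `|γ| = j+k`,
`∑_{α+β=γ, |α|=j, |β|=k} 1/(wD α · wD β) = 1/wD γ`.

Proof.  `1/wD α = |α|!/α!`.  Multiply by `γ!/(j! k!)`: the claim becomes
`∑_{α ≤ γ, |α|=j} ∏_i binom(γ_i, α_i) = binom(j+k, j)`, the coefficient of `X^j` in
`∏_i (1+X)^{γ_i} = (1+X)^{j+k}`.  (Alternatively: compare the coefficients of `z^γ` in the identity
`(z_1+…+z_d)^j (z_1+…+z_d)^k = (z_1+…+z_d)^{j+k}` for multivariate polynomials.) -/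
theorem A3v {d : ℕ} (γ : MI d) (j k : ℕ) (hγ : γ.degree = j + k) :
    ∑ q ∈ (antidiagonal γ).filter (fun q => q.1.degree = j), 1 / (wD q.1 * wD q.2) = 1 / wD γ := by
  have hS : ∀ (α : MI d) (n : ℕ), MvPolynomial.coeff α
      ((∑ i, MvPolynomial.X i : MvPolynomial (Fin d) ℝ) ^ n) =
      if α.degree = n then 1 / wD α else 0 := by
    intro α n
    rw [MvPolynomial.coeff_sum_X_pow_of_fintype]
    have h1 : α.sum (fun _ m => m) = α.degree := rfl
    rw [h1]
    by_cases h : α.degree = n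
    · rw [if_pos h, if_pos h, ← A3x_mult]
    · rw [if_neg h, if_neg h]
      exact Nat.cast_zero
  have h1 := hS γ (j + k)
  rw [if_pos hγ, pow_add, MvPolynomial.coeff_mul] at h1
  rw [← h1]
  simp only [hS]
  rw [A3x_sum γ j k hγ (fun α => 1 / wD α) (fun α => 1 / wD α)]
  refine Finset.sum_congr rfl fun q _ => ?_
  rw [one_div_mul_one_div]

/-- Bombieri's inequality `‖F G‖_D ≤ ‖F‖_D ‖G‖_D` for homogeneous `F`, `G`.

Proof.  `F = pt f j`, `G = pt g k`.  For `|γ| = j+k`:
`(FG)_γ = ∑_{α+β=γ, |α|=j} f_α g_β`, so by Cauchy–Schwarz and `A3v`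
`|(FG)_γ|² ≤ (∑ |f_α|² wD α |g_β|² wD β) (∑ 1/(wD α wD β)) = (∑_{α+β=γ} …)/wD γ`.
Multiply by `wD γ` and sum over `γ`. -/
theorem A3 {d : ℕ} (f g : PS d) (j k : ℕ) :
    nk wD (pt f j * pt g k) (j + k) ≤ nk wD f j * nk wD g k := by
  have hγ : ∀ γ ∈ A d (j + k), ‖coeff γ (pt f j * pt g k)‖ ^ 2 * wD γ ≤
      ∑ q ∈ (A d j ×ˢ A d k).filter (fun q => q.1 + q.2 = γ),
        (‖coeff q.1 f‖ ^ 2 * wD q.1) * (‖coeff q.2 g‖ ^ 2 * wD q.2) := by
    intro γ hγ
    rw [mem_A] at hγ
    have h1 : coeff γ (pt f j * pt g k) =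
        ∑ q ∈ (antidiagonal γ).filter (fun q => q.1.degree = j), coeff q.1 f * coeff q.2 g := by
      rw [MvPowerSeries.coeff_mul, ← A3x_sum γ j k hγ (fun α => coeff α f) (fun α => coeff α g)]
      rfl
    have h2 : ‖coeff γ (pt f j * pt g k)‖ ≤
        ∑ q ∈ (antidiagonal γ).filter (fun q => q.1.degree = j), ‖coeff q.1 f‖ * ‖coeff q.2 g‖ := by
      rw [h1]
      refine (norm_sum_le _ _).trans (le_of_eq ?_)
      exact Finset.sum_congr rfl fun q _ => norm_mul _ _
    have h3 : (∑ q ∈ (antidiagonal γ).filter (fun q => q.1.degree = j),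
        ‖coeff q.1 f‖ * ‖coeff q.2 g‖) ^ 2 ≤
        (∑ q ∈ (antidiagonal γ).filter (fun q => q.1.degree = j),
          (‖coeff q.1 f‖ ^ 2 * wD q.1) * (‖coeff q.2 g‖ ^ 2 * wD q.2)) *
        ∑ q ∈ (antidiagonal γ).filter (fun q => q.1.degree = j), 1 / (wD q.1 * wD q.2) := by
      apply Finset.sum_sq_le_sum_mul_sum_of_sq_le_mul
      · intro q _
        have := wD_pos q.1
        have := wD_pos q.2
        positivity
      · intro q _
        have := wD_pos q.1
        have := wD_pos q.2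
        positivity
      · intro q _
        have h4 := (wD_pos q.1).ne'
        have h5 := (wD_pos q.2).ne'
        refine le_of_eq ?_
        field_simp
    rw [A3v γ j k hγ] at h3
    have h4 : ‖coeff γ (pt f j * pt g k)‖ ^ 2 ≤
        (∑ q ∈ (antidiagonal γ).filter (fun q => q.1.degree = j),
          (‖coeff q.1 f‖ ^ 2 * wD q.1) * (‖coeff q.2 g‖ ^ 2 * wD q.2)) * (1 / wD γ) :=
      (pow_le_pow_left₀ (norm_nonneg _) h2 2).trans h3
    have h5 := wD_pos γ
    rw [← A3x_filter hγ]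
    calc ‖coeff γ (pt f j * pt g k)‖ ^ 2 * wD γ ≤
        (∑ q ∈ (antidiagonal γ).filter (fun q => q.1.degree = j),
          (‖coeff q.1 f‖ ^ 2 * wD q.1) * (‖coeff q.2 g‖ ^ 2 * wD q.2)) * (1 / wD γ) * wD γ :=
          mul_le_mul_of_nonneg_right h4 h5.le
      _ = _ := by
        rw [mul_assoc, one_div_mul_cancel h5.ne', mul_one]
  unfold nk
  refine (Finset.sum_le_sum hγ).trans (le_of_eq ?_)
  rw [Finset.sum_fiberwise_of_maps_to, Finset.sum_mul_sum, Finset.sum_product]
  intro q hq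
  rw [Finset.mem_product, mem_A, mem_A] at hq
  rw [mem_A, map_add, hq.1, hq.2]

end Pool.Agent.CRT
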