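import Pool.Agent.CRT.A0
import Pool.Agent.CRT.A3x

/-!
# [A3y] Multiplier criterion
-/

set_option autoImplicit false

namespace Pool.Agent.CRT

open Finset MvPowerSeries

/-- the weighted coefficients of degree `n` -/
noncomputable def A3y_v {d : ℕ} (n : ℕ) (f : PS d) : EuclideanSpace ℂ (A d n) :=
  WithLp.toLp 2 (fun α : A d n => ((Real.sqrt (wD (α : MI d)) : ℝ) : ℂ) * coeff (α : MI d) f)

theorem A3y_norm {d : ℕ} (n : ℕ) (f : PS d) : ‖A3y_v n f‖ = Real.sqrt (nk wD f n) := by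
  rw [EuclideanSpace.norm_eq]
  congr 1
  unfold nk
  rw [← Finset.sum_coe_sort (A d n) (fun α => ‖coeff α f‖ ^ 2 * wD α)]
  refine Finset.sum_congr rfl fun α _ => ?_
  show ‖((Real.sqrt (wD (α : MI d)) : ℝ) : ℂ) * coeff (α : MI d) f‖ ^ 2 = _
  rw [norm_mul, mul_pow, Complex.norm_real, Real.norm_eq_abs, sq_abs,
    Real.sq_sqrt (wD_pos _).le, mul_comm]

theorem A3y_coeff_pt {d : ℕ} (f : PS d) (k : ℕ) (α : MI d) :
    coeff α (pt f k) = if α.degree = k then coeff α f else 0 := rfl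

theorem A3y_coeff {d : ℕ} (f g : PS d) (n : ℕ) {γ : MI d} (hγ : γ.degree = n) :
    coeff γ (f * g) = ∑ q ∈ antidiagonal n, coeff γ (pt f q.1 * pt g q.2) := by
  simp only [coeff_mul, A3y_coeff_pt]
  rw [Finset.sum_comm]
  refine Finset.sum_congr rfl fun p hp => ?_
  have hp' : p.1 + p.2 = γ := Finset.HasAntidiagonal.mem_antidiagonal.mp hp
  have hd : p.1.degree + p.2.degree = n := by
    rw [← map_add, hp', hγ]
  rw [Finset.sum_eq_single (p.1.degree, p.2.degree)]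
  · simp
  · intro b _ hb
    by_cases h1 : p.1.degree = b.1
    · by_cases h2 : p.2.degree = b.2
      · exact absurd (Prod.ext h1.symm h2.symm) hb
      · rw [if_neg h2, mul_zero]
    · rw [if_neg h1, zero_mul]
  · intro h
    exact absurd (Finset.HasAntidiagonal.mem_antidiagonal.mpr hd) h

theorem A3y_vec {d : ℕ} (f g : PS d) (n : ℕ) :
    A3y_v n (f * g) = ∑ q ∈ antidiagonal n, A3y_v n (pt f q.1 * pt g q.2) := by
  ext α
  have h1 : (∑ q ∈ antidiagonal n, A3y_v n (pt f q.1 * pt g q.2)) α =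
      ∑ q ∈ antidiagonal n, (A3y_v n (pt f q.1 * pt g q.2)) α := by
    simp
  rw [h1]
  show ((Real.sqrt (wD (α : MI d)) : ℝ) : ℂ) * coeff (α : MI d) (f * g) =
    ∑ q ∈ antidiagonal n, ((Real.sqrt (wD (α : MI d)) : ℝ) : ℂ) *
      coeff (α : MI d) (pt f q.1 * pt g q.2)
  rw [A3y_coeff f g n (mem_A.mp α.2), Finset.mul_sum]

/-- `(f*g)_n = ∑_{j+k=n} f_j g_k`, so by the triangle inequality for the norm
`h ↦ √(nk wD h n)` and `A3`:
`√(nk wD (f*g) n) ≤ ∑_{(j,k) ∈ antidiagonal n} √(nk wD f j) √(nk wD g k)`. -/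
theorem A3s {d : ℕ} (f g : PS d) (n : ℕ) :
    Real.sqrt (nk wD (f * g) n) ≤
      ∑ q ∈ antidiagonal n, Real.sqrt (nk wD f q.1) * Real.sqrt (nk wD g q.2) := by
  rw [← A3y_norm, A3y_vec]
  refine (norm_sum_le _ _).trans (Finset.sum_le_sum fun q hq => ?_)
  have hq' : q.1 + q.2 = n := Finset.HasAntidiagonal.mem_antidiagonal.mp hq
  rw [A3y_norm, ← Real.sqrt_mul (nk_nonneg (fun α => wD_pos α) f q.1)]
  refine Real.sqrt_le_sqrt ?_
  have := A3 f g q.1 q.2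
  rwa [hq'] at this

/-- multiplier criterion: `∑_k ‖m_k‖_D < ∞` implies that `m` is a multiplier of `H²_d`.

Proof.  Let `a_k = √(nk wD m k)` (summable, `A = ∑ a_k`), `b_k = √(nk wD h k)` (square summable).
By `A3s` `√(nk wD (m*h) n) ≤ ∑_{j+k=n} a_j b_k`, and by Cauchy–Schwarz
`(∑_{j+k=n} a_j b_k)² ≤ (∑_j a_j)(∑_{j+k=n} a_j b_k²)`.  Summing over `n`:
`∑_n nk wD (m*h) n ≤ A · A · ∑ b_k² < ∞`. -/
theorem A4 {d : ℕ} {m : PS d} (hm : Summable fun k => Real.sqrt (nk wD m k)) : m ∈ MultD d := by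
  intro h hh
  have hw : ∀ α : MI d, 0 < wD α := fun α => wD_pos α
  rw [Sp_iff_nk hw] at hh ⊢
  set a : ℕ → ℝ := fun k => Real.sqrt (nk wD m k) with ha
  set b : ℕ → ℝ := fun k => Real.sqrt (nk wD h k) with hb
  have ha0 : ∀ k, 0 ≤ a k := fun k => Real.sqrt_nonneg _
  have hb0 : ∀ k, 0 ≤ b k := fun k => Real.sqrt_nonneg _
  have hb2 : ∀ k, b k ^ 2 = nk wD h k := fun k => Real.sq_sqrt (nk_nonneg hw h k)
  have hbs : Summable fun k => b k ^ 2 := by simpa only [hb2] using hh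
  have hconv : Summable fun n => ∑ q ∈ antidiagonal n, a q.1 * b q.2 ^ 2 := by
    have h1 := summable_norm_sum_mul_antidiagonal_of_summable_norm
      (f := a) (g := fun k => b k ^ 2) (by simpa using hm.norm) hbs.norm
    exact h1.of_norm
  refine Summable.of_nonneg_of_le (fun n => nk_nonneg hw _ n) (fun n => ?_)
    (hconv.mul_left (∑' k, a k))
  have h1 : Real.sqrt (nk wD (m * h) n) ≤ ∑ q ∈ antidiagonal n, a q.1 * b q.2 := A3s m h n
  have h2 : nk wD (m * h) n = Real.sqrt (nk wD (m * h) n) ^ 2 :=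
    (Real.sq_sqrt (nk_nonneg hw _ n)).symm
  have h3 : (∑ q ∈ antidiagonal n, a q.1 * b q.2) ^ 2 ≤
      (∑ q ∈ antidiagonal n, a q.1) * ∑ q ∈ antidiagonal n, a q.1 * b q.2 ^ 2 := by
    have h4 := Finset.sum_mul_sq_le_sq_mul_sq (antidiagonal n) (fun q => Real.sqrt (a q.1))
      (fun q => Real.sqrt (a q.1) * b q.2)
    have h5 : ∀ q : ℕ × ℕ, Real.sqrt (a q.1) * (Real.sqrt (a q.1) * b q.2) = a q.1 * b q.2 := by
      intro q
      rw [← mul_assoc, Real.mul_self_sqrt (ha0 _)]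
    have h6 : ∀ q : ℕ × ℕ, Real.sqrt (a q.1) ^ 2 = a q.1 := fun q => Real.sq_sqrt (ha0 _)
    have h7 : ∀ q : ℕ × ℕ, (Real.sqrt (a q.1) * b q.2) ^ 2 = a q.1 * b q.2 ^ 2 := by
      intro q
      rw [mul_pow, h6]
    simpa only [h5, h6, h7] using h4
  have h8 : ∑ q ∈ antidiagonal n, a q.1 ≤ ∑' k, a k := by
    rw [Finset.Nat.sum_antidiagonal_eq_sum_range_succ (fun i _ => a i) n]
    exact hm.sum_le_tsum _ fun i _ => ha0 i
  have h9 : 0 ≤ ∑ q ∈ antidiagonal n, a q.1 * b q.2 ^ 2 :=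
    Finset.sum_nonneg fun q _ => mul_nonneg (ha0 _) (sq_nonneg _)
  rw [h2]
  calc Real.sqrt (nk wD (m * h) n) ^ 2 ≤ (∑ q ∈ antidiagonal n, a q.1 * b q.2) ^ 2 :=
        pow_le_pow_left₀ (Real.sqrt_nonneg _) h1 2
    _ ≤ _ := h3
    _ ≤ _ := mul_le_mul_of_nonneg_right h8 h9

/-- if `∑_k ‖e_k‖_D < ∞` then `e ∈ H²_d` and `‖e‖_D ≤ ∑_k ‖e_k‖_D` -/
theorem A4b {d : ℕ} {e : PS d} (he : Summable fun k => Real.sqrt (nk wD e k)) :
    e ∈ Sp (wD (d := d)) ∧ Real.sqrt (ns wD e) ≤ ∑' k, Real.sqrt (nk wD e k) := by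
  have hw : ∀ α : MI d, 0 < wD α := fun α => wD_pos α
  set a : ℕ → ℝ := fun k => Real.sqrt (nk wD e k) with ha
  have ha0 : ∀ k, 0 ≤ a k := fun k => Real.sqrt_nonneg _
  have ha2 : ∀ k, a k ^ 2 = nk wD e k := fun k => Real.sq_sqrt (nk_nonneg hw e k)
  have hS : ∀ k, a k ≤ ∑' k, a k := fun k => he.le_tsum k fun j _ => ha0 j
  have hle : ∀ k, nk wD e k ≤ (∑' k, a k) * a k := by
    intro k
    rw [← ha2, sq]
    exact mul_le_mul_of_nonneg_right (hS k) (ha0 k)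
  have hsum : Summable fun k => nk wD e k :=
    Summable.of_nonneg_of_le (fun n => nk_nonneg hw _ n) hle (he.mul_left _)
  have hmem : e ∈ Sp (wD (d := d)) := (Sp_iff_nk hw e).mpr hsum
  refine ⟨hmem, ?_⟩
  rw [ns_eq_nk hw hmem]
  have h0 : 0 ≤ ∑' k, a k := tsum_nonneg ha0
  rw [show (∑' k, Real.sqrt (nk wD e k)) = ∑' k, a k from rfl]
  rw [Real.sqrt_le_left h0, sq, ← tsum_mul_left]
  exact hsum.tsum_le_tsum hle (he.mul_left _)

end Pool.Agent.CRT
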