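import Pool.Agent.CRT.A0

/-!
# [A5x] Multiplication operators are bounded (closed graph)
-/

set_option autoImplicit false

namespace Pool.Agent.CRT

open Finset MvPowerSeries

/-- the Hilbert space `ℓ²` on the multi-indices -/
noncomputable abbrev A5x_H (d : ℕ) := lp (fun _ : MI d => ℂ) 2

theorem A5x_two : (2 : ENNReal).toReal = 2 := by simp

theorem A5x_mem {d : ℕ} {w : MI d → ℝ} (hw : ∀ α, 0 < w α) {f : PS d} (hf : f ∈ Sp w) :
    Memℓp (fun α : MI d => ((Real.sqrt (w α) : ℝ) : ℂ) * coeff α f) 2 := by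
  apply memℓp_gen
  have hf' : Summable fun α => ‖coeff α f‖ ^ 2 * w α := hf
  refine hf'.congr fun α => ?_
  rw [A5x_two, Real.rpow_two, norm_mul, Complex.norm_real, Real.norm_of_nonneg (Real.sqrt_nonneg _),
    mul_pow, Real.sq_sqrt (hw α).le, mul_comm]

/-- the isometry `Sp w → ℓ²` -/
noncomputable def A5x_to {d : ℕ} {w : MI d → ℝ} (hw : ∀ α, 0 < w α) (f : PS d) (hf : f ∈ Sp w) :
    A5x_H d := ⟨_, A5x_mem hw hf⟩

theorem A5x_to_apply {d : ℕ} {w : MI d → ℝ} (hw : ∀ α, 0 < w α) (f : PS d) (hf : f ∈ Sp w)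
    (α : MI d) : A5x_to hw f hf α = ((Real.sqrt (w α) : ℝ) : ℂ) * coeff α f := rfl

/-- its inverse -/
noncomputable def A5x_of {d : ℕ} (w : MI d → ℝ) (x : A5x_H d) : PS d :=
  mkP fun α => (((Real.sqrt (w α) : ℝ) : ℂ))⁻¹ * x α

theorem A5x_ne {d : ℕ} {w : MI d → ℝ} (hw : ∀ α, 0 < w α) (α : MI d) :
    ((Real.sqrt (w α) : ℝ) : ℂ) ≠ 0 := by
  have := Real.sqrt_pos.2 (hw α)
  exact_mod_cast this.ne'

theorem A5x_of_mem {d : ℕ} {w : MI d → ℝ} (hw : ∀ α, 0 < w α) (x : A5x_H d) :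
    A5x_of w x ∈ Sp w := by
  have h := (lp.memℓp x).summable (by rw [A5x_two]; norm_num)
  show Summable fun α => ‖coeff α (A5x_of w x)‖ ^ 2 * w α
  refine h.congr fun α => ?_
  have h1 := Real.sqrt_pos.2 (hw α)
  have h2 := Real.sq_sqrt (hw α).le
  have h3 := (hw α).ne'
  unfold A5x_of
  rw [A5x_two, Real.rpow_two, coeff_mkP, norm_mul, norm_inv, Complex.norm_real,
    Real.norm_of_nonneg h1.le, mul_pow, inv_pow, h2]
  field_simp

theorem A5x_of_to {d : ℕ} {w : MI d → ℝ} (hw : ∀ α, 0 < w α) (f : PS d) (hf : f ∈ Sp w) :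
    A5x_of w (A5x_to hw f hf) = f := by
  apply MvPowerSeries.ext
  intro α
  unfold A5x_of
  rw [coeff_mkP, A5x_to_apply, ← mul_assoc, inv_mul_cancel₀ (A5x_ne hw α), one_mul]

theorem A5x_to_of {d : ℕ} {w : MI d → ℝ} (hw : ∀ α, 0 < w α) (x : A5x_H d) :
    A5x_to hw (A5x_of w x) (A5x_of_mem hw x) = x := by
  apply lp.ext
  funext α
  rw [A5x_to_apply]
  unfold A5x_of
  rw [coeff_mkP, ← mul_assoc, mul_inv_cancel₀ (A5x_ne hw α), one_mul]

theorem A5x_ns {d : ℕ} {w : MI d → ℝ} (hw : ∀ α, 0 < w α) (f : PS d) (hf : f ∈ Sp w) :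
    ns w f = ‖A5x_to hw f hf‖ ^ 2 := by
  have h := lp.norm_rpow_eq_tsum (p := 2) (by rw [A5x_two]; norm_num) (A5x_to hw f hf)
  rw [A5x_two, Real.rpow_two] at h
  rw [h]
  unfold ns
  refine tsum_congr fun α => ?_
  rw [A5x_to_apply, Real.rpow_two, norm_mul, Complex.norm_real,
    Real.norm_of_nonneg (Real.sqrt_nonneg _), mul_pow, Real.sq_sqrt (hw α).le, mul_comm]

theorem A5x_of_add {d : ℕ} (w : MI d → ℝ) (x y : A5x_H d) :
    A5x_of w (x + y) = A5x_of w x + A5x_of w y := by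
  apply MvPowerSeries.ext
  intro α
  unfold A5x_of
  rw [map_add, coeff_mkP, coeff_mkP, coeff_mkP, lp.coeFn_add, Pi.add_apply, mul_add]

theorem A5x_of_smul {d : ℕ} (w : MI d → ℝ) (c : ℂ) (x : A5x_H d) :
    A5x_of w (c • x) = c • A5x_of w x := by
  apply MvPowerSeries.ext
  intro α
  unfold A5x_of
  rw [map_smul, coeff_mkP, coeff_mkP, lp.coeFn_smul, Pi.smul_apply, smul_eq_mul, smul_eq_mul]
  ring

/-- the multiplication operator on `ℓ²` -/
noncomputable def A5x_T {d : ℕ} {w : MI d → ℝ} (hw : ∀ α, 0 < w α) {m : PS d}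
    (hm : ∀ h ∈ Sp w, m * h ∈ Sp w) : A5x_H d →ₗ[ℂ] A5x_H d where
  toFun x := A5x_to hw (m * A5x_of w x) (hm _ (A5x_of_mem hw x))
  map_add' x y := by
    apply lp.ext
    funext α
    rw [lp.coeFn_add, Pi.add_apply, A5x_to_apply, A5x_to_apply, A5x_to_apply, A5x_of_add, mul_add,
      map_add, mul_add]
  map_smul' c x := by
    apply lp.ext
    funext α
    rw [RingHom.id_apply, lp.coeFn_smul, Pi.smul_apply, A5x_to_apply, A5x_to_apply, A5x_of_smul,
      mul_smul_comm, map_smul, smul_eq_mul, smul_eq_mul]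
    ring

theorem A5x_T_apply {d : ℕ} {w : MI d → ℝ} (hw : ∀ α, 0 < w α) {m : PS d}
    (hm : ∀ h ∈ Sp w, m * h ∈ Sp w) (x : A5x_H d) :
    A5x_T hw hm x = A5x_to hw (m * A5x_of w x) (hm _ (A5x_of_mem hw x)) := rfl

theorem A5x_coord {d : ℕ} {u : ℕ → A5x_H d} {x : A5x_H d}
    (h : Filter.Tendsto u Filter.atTop (nhds x)) (α : MI d) :
    Filter.Tendsto (fun n => u n α) Filter.atTop (nhds (x α)) := by
  rw [tendsto_iff_norm_sub_tendsto_zero] at h ⊢
  refine squeeze_zero (fun n => norm_nonneg _) (fun n => ?_) h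
  have := lp.norm_apply_le_norm (p := 2) (by norm_num) (u n - x) α
  rwa [lp.coeFn_sub, Pi.sub_apply] at this

theorem A5x_cont {d : ℕ} {w : MI d → ℝ} (hw : ∀ α, 0 < w α) {m : PS d}
    (hm : ∀ h ∈ Sp w, m * h ∈ Sp w) : Continuous (A5x_T hw hm) := by
  apply LinearMap.continuous_of_seq_closed_graph
  intro u x y hu hy
  apply lp.ext
  funext γ
  have h1 := A5x_coord hy γ
  have h2 : Filter.Tendsto (fun n => (A5x_T hw hm ∘ u) n γ) Filter.atTop
      (nhds (A5x_T hw hm x γ)) := by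
    have e : ∀ z : A5x_H d, A5x_T hw hm z γ = ((Real.sqrt (w γ) : ℝ) : ℂ) *
        ∑ q ∈ antidiagonal γ, coeff q.1 m * ((((Real.sqrt (w q.2) : ℝ) : ℂ))⁻¹ * z q.2) := by
      intro z
      rw [A5x_T_apply, A5x_to_apply, MvPowerSeries.coeff_mul]
      rfl
    simp only [Function.comp_apply, e]
    refine Filter.Tendsto.const_mul _ (tendsto_finsetSum _ fun q _ => ?_)
    exact Filter.Tendsto.const_mul _ (Filter.Tendsto.const_mul _ (A5x_coord hu q.2))
  exact tendsto_nhds_unique h1 h2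

/-- closed graph theorem: if `m * h ∈ Sp w` for all `h ∈ Sp w` then `h ↦ m*h` is bounded.

Proof.  `Sp w` is isometric to `lp (fun _ : MI d => ℂ) 2` by `f ↦ (√(w α) f_α)_α`, a Hilbert space.
The operator `T : h ↦ m*h` is linear on it and its graph is closed: if `h_n → h` and
`m*h_n → g` in norm then coefficientwise `(m*h_n)_γ = ∑_{α+β=γ} m_α (h_n)_β → (m*h)_γ` (finite sums),
so `g = m*h`.  Use `LinearMap.continuous_of_isClosed_graph` or
`LinearMap.continuous_of_seq_closed_graph`. -/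
theorem A5 {d : ℕ} {w : MI d → ℝ} (hw : ∀ α, 0 < w α) {m : PS d}
    (hm : ∀ h ∈ Sp w, m * h ∈ Sp w) : ∃ C : ℝ, 0 ≤ C ∧ ∀ h ∈ Sp w, ns w (m * h) ≤ C ^ 2 * ns w h := by
  let T : A5x_H d →L[ℂ] A5x_H d := ⟨A5x_T hw hm, A5x_cont hw hm⟩
  refine ⟨‖T‖, norm_nonneg _, fun h hh => ?_⟩
  have h1 := T.le_opNorm (A5x_to hw h hh)
  have h2 : T (A5x_to hw h hh) = A5x_to hw (m * h) (hm h hh) := by
    apply lp.ext
    funext α
    have h3 : T (A5x_to hw h hh) = A5x_T hw hm (A5x_to hw h hh) := rfl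
    rw [h3, A5x_T_apply, A5x_to_apply, A5x_to_apply, A5x_of_to]
  rw [h2] at h1
  rw [A5x_ns hw _ (hm h hh), A5x_ns hw h hh, ← mul_pow]
  exact pow_le_pow_left₀ (norm_nonneg _) h1 2

end Pool.Agent.CRT
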