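import Pool.Agent.CRT.A0
import Pool.Agent.CRT.A5x

/-!
# [A5y] Riesz representation
-/

set_option autoImplicit false

namespace Pool.Agent.CRT

open Finset MvPowerSeries

theorem A5y_ip {d : ℕ} {w : MI d → ℝ} (hw : ∀ α, 0 < w α) {h f : PS d} (hh : h ∈ Sp w)
    (hf : f ∈ Sp w) : ip w h f = inner ℂ (A5x_to hw f hf) (A5x_to hw h hh) := by
  rw [lp.inner_eq_tsum]
  unfold ip
  refine tsum_congr fun α => ?_
  rw [A5x_to_apply, A5x_to_apply]
  have h1 := Real.mul_self_sqrt (hw α).le
  have h2 : ((Real.sqrt (w α) : ℝ) : ℂ) * ((Real.sqrt (w α) : ℝ) : ℂ) = (w α : ℂ) := by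
    exact_mod_cast congrArg (fun x : ℝ => (x : ℂ)) h1
  rw [RCLike.inner_apply, map_mul, Complex.conj_ofReal, ← h2]
  ring

/-- Riesz representation: if `m` is a (bounded) multiplier of `Sp w` and
`|<h,f>| ≤ C ‖m h‖` for all polynomials `h` then `f` is in the range of the adjoint.

Proof.  In the Hilbert space `Sp w ≅ lp 2`: (1) the inequality `|<h,f>| ≤ C ‖mh‖` extends to all
`h ∈ Sp w`, as polynomials are dense (truncate `h` to degrees `≤ K`), `h ↦ <h,f>` is continuous and
`h ↦ m h` is continuous.  (2) On the subspace `V = {m h : h ∈ Sp w}` the map `m h ↦ <h,f>` is well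
defined (if `m h = m h'` then `|<h-h',f>| ≤ 0`), linear and bounded by `C`; extend it to the Hilbert
space (`exists_extension_norm_eq`, or by continuity to the closure and by `0` on the orthogonal
complement) and represent it by a vector `g` (`InnerProductSpace.toDual`): `<m h, g> = <h,f>`.
Boundedness of `m` is given by `A5`. -/
theorem A8 {d : ℕ} {w : MI d → ℝ} (hw : ∀ α, 0 < w α) {m f : PS d} (hf : f ∈ Sp w)
    (hm : ∀ h ∈ Sp w, m * h ∈ Sp w) {C : ℝ}
    (hC : ∀ h : PS d, IsPoly h → ‖ip w h f‖ ≤ C * Real.sqrt (ns w (m * h))) :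
    f ∈ ranAdj w m := by
  classical
  set fh := A5x_to hw f hf with hfh
  have hTc := A5x_cont hw hm
  set T := A5x_T hw hm with hT
  have hTto : ∀ (h : PS d) (hh : h ∈ Sp w), T (A5x_to hw h hh) = A5x_to hw (m * h) (hm h hh) := by
    intro h hh
    apply lp.ext
    funext α
    rw [hT, A5x_T_apply, A5x_to_apply, A5x_to_apply, A5x_of_to]
  -- the inequality on the whole space
  have hfin : ∀ x : A5x_H d, IsPoly (A5x_of w x) → ‖inner ℂ fh x‖ ≤ C * ‖T x‖ := by
    intro x hx
    have h1 := hC _ hx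
    have hxm := A5x_of_mem hw x
    rw [A5y_ip hw hxm hf, A5x_ns hw _ (hm _ hxm), Real.sqrt_sq (norm_nonneg _), ← hTto _ hxm,
      A5x_to_of hw x] at h1
    exact h1
  have hclosed : IsClosed {x : A5x_H d | ‖inner ℂ fh x‖ ≤ C * ‖T x‖} :=
    isClosed_le (continuous_norm.comp (continuous_const.inner continuous_id))
      (continuous_const.mul (continuous_norm.comp hTc))
  have hall : ∀ x : A5x_H d, ‖inner ℂ fh x‖ ≤ C * ‖T x‖ := by
    intro x
    have hs := lp.hasSum_single (p := 2) (by norm_num) x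
    refine hclosed.mem_of_tendsto hs (Filter.Eventually.of_forall fun s => ?_)
    apply hfin
    refine ⟨s.sup fun α => α.degree, fun α hα => ?_⟩
    unfold A5x_of
    rw [coeff_mkP]
    have h0 : (∑ i ∈ s, lp.single 2 i (x i) : A5x_H d) α = 0 := by
      rw [lp.coeFn_sum, Finset.sum_apply]
      refine Finset.sum_eq_zero fun i hi => ?_
      have hne : α ≠ i := by
        rintro rfl
        exact absurd (Finset.le_sup (f := fun α : MI d => α.degree) hi) (not_le.2 hα)
      rw [lp.coeFn_single, Pi.single_eq_of_ne hne]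
    rw [h0, mul_zero]
  -- the functional on the range
  let ψ : A5x_H d →ₗ[ℂ] ℂ := (innerSL ℂ fh).toLinearMap
  have hψ : ∀ x, ψ x = inner ℂ fh x := fun x => rfl
  have hker : LinearMap.ker T ≤ LinearMap.ker ψ := by
    intro x hx
    rw [LinearMap.mem_ker] at hx ⊢
    have h1 := hall x
    rw [hx, norm_zero, mul_zero] at h1
    exact norm_le_zero_iff.1 h1
  let φ0 : LinearMap.range T →ₗ[ℂ] ℂ :=
    ((LinearMap.ker T).liftQ ψ hker).comp T.quotKerEquivRange.symm.toLinearMap
  have hφ0 : ∀ x, φ0 ⟨T x, LinearMap.mem_range_self T x⟩ = ψ x := by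
    intro x
    show (LinearMap.ker T).liftQ ψ hker (T.quotKerEquivRange.symm ⟨T x, _⟩) = ψ x
    rw [LinearMap.quotKerEquivRange_symm_apply_image]
    rfl
  have hbound : ∀ y : LinearMap.range T, ‖φ0 y‖ ≤ C * ‖y‖ := by
    rintro ⟨y, x, rfl⟩
    have h1 := hφ0 x
    rw [h1]
    exact hall x
  let φ : StrongDual ℂ (LinearMap.range T) := φ0.mkContinuous C hbound
  obtain ⟨G, hG, _⟩ := exists_extension_norm_eq (LinearMap.range T) φ
  let gh : A5x_H d := (InnerProductSpace.toDual ℂ (A5x_H d)).symm G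
  have hgh : ∀ y : A5x_H d, inner ℂ gh y = G y := fun y =>
    InnerProductSpace.toDual_symm_apply
  refine ⟨hf, A5x_of w gh, A5x_of_mem hw gh, fun h hh => ⟨hm h hh, ?_⟩⟩
  rw [A5y_ip hw (hm h hh) (A5x_of_mem hw gh), A5y_ip hw hh hf, A5x_to_of hw gh, hgh, ← hTto h hh]
  have h1 := hG ⟨T (A5x_to hw h hh), LinearMap.mem_range_self T _⟩
  have h2 : φ ⟨T (A5x_to hw h hh), LinearMap.mem_range_self T _⟩ = ψ (A5x_to hw h hh) :=
    hφ0 _
  rw [h2] at h1
  exact h1

end Pool.Agent.CRT
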