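import Pool.Agent.CRT.A0

/-!
# [S1x] Gaussian moments on `ℂ^d`
-/

set_option autoImplicit false

namespace Pool.Agent.CRT

open MeasureTheory

theorem S1x_bound (n : ℕ) (x : ℝ) (hx : 0 ≤ x) :
    x ^ n * Real.exp (-x ^ 2) ≤ (n.factorial : ℝ) * Real.exp 1 * Real.exp (-(1 / 2) * x ^ 2) := by
  have h1 : x ^ n / (n.factorial : ℝ) ≤ Real.exp x := Real.pow_div_factorial_le_exp x hx n
  have hn : (0 : ℝ) < (n.factorial : ℝ) := by exact_mod_cast n.factorial_pos
  rw [div_le_iff₀ hn] at h1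
  have h2 : Real.exp x * Real.exp (-x ^ 2) ≤ Real.exp 1 * Real.exp (-(1 / 2) * x ^ 2) := by
    rw [← Real.exp_add, ← Real.exp_add]
    refine Real.exp_le_exp.mpr ?_
    nlinarith [sq_nonneg (x - 1)]
  calc x ^ n * Real.exp (-x ^ 2) ≤ Real.exp x * (n.factorial : ℝ) * Real.exp (-x ^ 2) :=
        mul_le_mul_of_nonneg_right h1 (Real.exp_pos _).le
    _ = (n.factorial : ℝ) * (Real.exp x * Real.exp (-x ^ 2)) := by ring
    _ ≤ (n.factorial : ℝ) * (Real.exp 1 * Real.exp (-(1 / 2) * x ^ 2)) :=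
        mul_le_mul_of_nonneg_left h2 hn.le
    _ = (n.factorial : ℝ) * Real.exp 1 * Real.exp (-(1 / 2) * x ^ 2) := by ring

theorem S1x_integrable (a b : ℕ) :
    Integrable (fun z : ℂ => z ^ a * (starRingEnd ℂ) z ^ b * Real.exp (-‖z‖ ^ 2)) := by
  have h1 : Integrable (fun z : ℂ => Complex.exp (-((1 / 2 : ℝ) : ℂ) * ‖z‖ ^ 2
      + 0 * ((inner ℝ (0 : ℂ) z : ℝ) : ℂ))) :=
    GaussianFourier.integrable_cexp_neg_mul_sq_norm_add
      (b := ((1 / 2 : ℝ) : ℂ)) (by rw [Complex.ofReal_re]; norm_num) 0 (0 : ℂ)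
  have h2 : Integrable (fun z : ℂ => ((a + b).factorial : ℝ) * Real.exp 1
      * ‖Complex.exp (-((1 / 2 : ℝ) : ℂ) * ‖z‖ ^ 2 + 0 * ((inner ℝ (0 : ℂ) z : ℝ) : ℂ))‖) :=
    h1.norm.const_mul _
  refine h2.mono' ?_ ?_
  · refine Continuous.aestronglyMeasurable ?_
    refine ((continuous_pow a).mul ((Complex.continuous_conj).pow b)).mul ?_
    refine Complex.continuous_ofReal.comp ?_
    exact Real.continuous_exp.comp ((continuous_norm.pow 2).neg)
  · refine Filter.Eventually.of_forall fun z => ?_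
    rw [norm_mul, norm_mul, norm_pow, norm_pow, RCLike.norm_conj, ← pow_add, Complex.norm_real,
      Real.norm_of_nonneg (Real.exp_pos _).le, Complex.norm_exp]
    have e : (-((1 / 2 : ℝ) : ℂ) * (‖z‖ : ℂ) ^ 2 + 0 * ((inner ℝ (0 : ℂ) z : ℝ) : ℂ)).re
        = -(1 / 2) * ‖z‖ ^ 2 := by
      rw [zero_mul, add_zero]
      have : -((1 / 2 : ℝ) : ℂ) * (‖z‖ : ℂ) ^ 2 = ((-(1 / 2) * ‖z‖ ^ 2 : ℝ) : ℂ) := by
        push_cast
        ring
      rw [this, Complex.ofReal_re]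
    rw [e]
    exact S1x_bound (a + b) ‖z‖ (norm_nonneg z)

theorem S1x_angle (a b : ℕ) :
    ∫ θ in Set.Ioo (-Real.pi) Real.pi, Complex.exp (((a : ℂ) - b) * Complex.I * θ)
      = if a = b then ((2 * Real.pi : ℝ) : ℂ) else 0 := by
  have hpi := Real.pi_pos
  rw [← integral_Ioc_eq_integral_Ioo, ← intervalIntegral.integral_of_le (by linarith)]
  split_ifs with hab
  · subst hab
    simp only [sub_self, zero_mul, Complex.exp_zero]
    rw [intervalIntegral.integral_const]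
    simp
    ring
  · have hc : ((a : ℂ) - b) * Complex.I ≠ 0 := by
      refine mul_ne_zero ?_ Complex.I_ne_zero
      rw [sub_ne_zero]
      exact_mod_cast hab
    rw [integral_exp_mul_complex hc]
    have h1 : Complex.exp (((a : ℂ) - b) * Complex.I * (Real.pi : ℝ))
        = Complex.exp (((a : ℂ) - b) * Complex.I * ((-Real.pi : ℝ) : ℂ)) := by
      rw [Complex.exp_eq_exp_iff_exists_int]
      refine ⟨(a : ℤ) - b, ?_⟩
      push_cast
      ring
    rw [h1, sub_self, zero_div]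

theorem S1x_radial (a : ℕ) :
    ∫ r in Set.Ioi (0 : ℝ), r ^ (2 * a + 1) * Real.exp (-r ^ 2) = (a.factorial : ℝ) / 2 := by
  have h := integral_rpow_mul_exp_neg_rpow (p := 2) (q := 2 * (a : ℝ) + 1) (by norm_num)
    (by have : (0 : ℝ) ≤ a := Nat.cast_nonneg a
        linarith)
  have e : (2 * (a : ℝ) + 1 + 1) / 2 = (a : ℝ) + 1 := by ring
  rw [e, Real.Gamma_nat_eq_factorial] at h
  rw [show (a.factorial : ℝ) / 2 = 1 / 2 * (a.factorial : ℝ) by ring, ← h]
  refine setIntegral_congr_fun measurableSet_Ioi fun r hr => ?_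
  have hr0 : (0 : ℝ) < r := hr
  have e1 : r ^ (2 * (a : ℝ) + 1) = r ^ (2 * a + 1) := by
    rw [← Real.rpow_natCast]
    push_cast
    rfl
  have e2 : r ^ (2 : ℝ) = r ^ 2 := by
    rw [← Real.rpow_natCast]
    norm_num
  rw [e1, e2]

theorem S1x_int (a b : ℕ) :
    ∫ z : ℂ, z ^ a * (starRingEnd ℂ) z ^ b * Real.exp (-‖z‖ ^ 2) =
      if a = b then (Real.pi * (a.factorial : ℝ) : ℂ) else 0 := by
  rw [← Complex.integral_comp_polarCoord_symm]
  have htarget : polarCoord.target = Set.Ioi (0 : ℝ) ×ˢ Set.Ioo (-Real.pi) Real.pi := rfl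
  rw [htarget]
  have h1 : ∀ p ∈ Set.Ioi (0 : ℝ) ×ˢ Set.Ioo (-Real.pi) Real.pi,
      p.1 • ((Complex.polarCoord.symm p) ^ a * (starRingEnd ℂ) (Complex.polarCoord.symm p) ^ b
        * ((Real.exp (-‖Complex.polarCoord.symm p‖ ^ 2) : ℝ) : ℂ))
      = ((p.1 ^ (a + b + 1) * Real.exp (-p.1 ^ 2) : ℝ) : ℂ)
        * Complex.exp (((a : ℂ) - b) * Complex.I * p.2) := by
    intro p hp
    have hp0 : 0 < p.1 := hp.1
    have e1 : Complex.polarCoord.symm p = p.1 * Complex.exp (p.2 * Complex.I) := by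
      rw [Complex.polarCoord_symm_apply, Complex.exp_mul_I, Complex.ofReal_cos, Complex.ofReal_sin]
    have e2 : (starRingEnd ℂ) (Complex.polarCoord.symm p)
        = p.1 * Complex.exp (-(p.2 * Complex.I)) := by
      rw [e1, map_mul, Complex.conj_ofReal, ← Complex.exp_conj, map_mul, Complex.conj_ofReal,
        Complex.conj_I, mul_neg]
    have e3 : ‖Complex.polarCoord.symm p‖ = p.1 := by
      rw [Complex.norm_polarCoord_symm, abs_of_pos hp0]
    rw [e3, e2, e1, mul_pow, mul_pow, ← Complex.exp_nat_mul, ← Complex.exp_nat_mul,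
      Complex.real_smul]
    have e4 : Complex.exp (((a : ℂ) - b) * Complex.I * p.2)
        = Complex.exp (a * (p.2 * Complex.I)) * Complex.exp (b * (-(p.2 * Complex.I))) := by
      rw [← Complex.exp_add]
      congr 1
      ring
    rw [e4]
    push_cast
    ring
  rw [setIntegral_congr_fun (measurableSet_Ioi.prod measurableSet_Ioo) h1]
  have h2 := setIntegral_prod_mul (μ := (volume : Measure ℝ)) (ν := (volume : Measure ℝ))
    (fun r : ℝ => ((r ^ (a + b + 1) * Real.exp (-r ^ 2) : ℝ) : ℂ))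
    (fun θ : ℝ => Complex.exp (((a : ℂ) - b) * Complex.I * θ)) (Set.Ioi (0 : ℝ))
    (Set.Ioo (-Real.pi) Real.pi)
  refine h2.trans ?_
  rw [S1x_angle]
  split_ifs with hab
  · subst hab
    rw [integral_complex_ofReal]
    have e : a + a + 1 = 2 * a + 1 := by ring
    rw [e, S1x_radial]
    push_cast
    ring
  · rw [mul_zero]

/-- one-dimensional Gaussian moments: `∫_ℂ z^a conj(z)^b e^{-|z|²} = π a!` if `a = b`, else `0`.

Proof.  Polar coordinates (`Complex.integral_comp_polarCoord_symm`):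
`∫_0^∞ ∫_{-π}^{π} r^{a+b+1} e^{i(a-b)θ} e^{-r²} dθ dr`, `∫ e^{i(a-b)θ}dθ = 2π δ_{ab}`,
`∫_0^∞ r^{2a+1}e^{-r²}dr = a!/2` (`integral_rpow_mul_exp_neg_rpow` or `Real.Gamma`).
The function is integrable. -/
theorem S1a (a b : ℕ) :
    Integrable (fun z : ℂ => z ^ a * (starRingEnd ℂ) z ^ b * Real.exp (-‖z‖ ^ 2)) ∧
    ∫ z : ℂ, z ^ a * (starRingEnd ℂ) z ^ b * Real.exp (-‖z‖ ^ 2) =
      if a = b then (Real.pi * (a.factorial : ℝ) : ℂ) else 0 := by
  exact ⟨S1x_integrable a b, S1x_int a b⟩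

/-- the product version (`integral_fintype_prod_eq_prod`) -/
theorem S1b {d : ℕ} (α β : MI d) :
    Integrable (fun z : Fin d → ℂ => ∏ i, (z i ^ α i * (starRingEnd ℂ) (z i) ^ β i *
      Real.exp (-‖z i‖ ^ 2))) ∧
    ∫ z : Fin d → ℂ, ∏ i, (z i ^ α i * (starRingEnd ℂ) (z i) ^ β i * Real.exp (-‖z i‖ ^ 2)) =
      if α = β then ((Real.pi ^ d * mf α : ℝ) : ℂ) else 0 := by
  constructor
  · exact Integrable.fintype_prod (fun i => (S1a (α i) (β i)).1)
  · rw [integral_fintype_prod_volume_eq_prod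
      (fun i (z : ℂ) => z ^ α i * (starRingEnd ℂ) z ^ β i * ((Real.exp (-‖z‖ ^ 2) : ℝ) : ℂ))]
    have h1 : ∀ i : Fin d, ∫ z : ℂ, z ^ α i * (starRingEnd ℂ) z ^ β i
        * ((Real.exp (-‖z‖ ^ 2) : ℝ) : ℂ)
        = if α i = β i then (Real.pi * ((α i).factorial : ℝ) : ℂ) else 0 :=
      fun i => (S1a (α i) (β i)).2
    rw [Finset.prod_congr rfl fun i _ => h1 i]
    split_ifs with hab
    · subst hab
      simp only [if_true]
      rw [Finset.prod_mul_distrib]
      unfold mf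
      simp
    · have : ∃ i, α i ≠ β i := by
        by_contra hc
        push Not at hc
        exact hab (Finsupp.ext hc)
      obtain ⟨i, hi⟩ := this
      exact Finset.prod_eq_zero (Finset.mem_univ i) (if_neg hi)

end Pool.Agent.CRT
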