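import Pool.Agent.CRT.A0
import Pool.Agent.CRT.S1x

/-!
# [S1] Existence of the normalised surface measure, with its monomial integrals
-/

set_option autoImplicit false

namespace Pool.Agent.CRT

open MeasureTheory MvPowerSeries

/-- the Lebesgue measure on `ℂ^d` -/
noncomputable def S1_leb (d : ℕ) : Measure (E d) :=
  (volume : Measure (Fin d → ℂ)).map
    (PiLp.continuousLinearEquiv 2 ℝ (fun _ : Fin d => ℂ)).symm

instance S1_leb_haar (d : ℕ) : (S1_leb d).IsAddHaarMeasure := by
  unfold S1_leb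
  exact ContinuousLinearEquiv.isAddHaarMeasure_map _ _

theorem S1_leb_inv {d : ℕ} (U : E d ≃ₗᵢ[ℂ] E d) :
    MeasurePreserving (fun z => U z) (S1_leb d) (S1_leb d) := by
  refine ⟨U.continuous.measurable, ?_⟩
  have hh : ((S1_leb d).map (fun z => U z)).IsAddHaarMeasure := by
    exact ContinuousLinearEquiv.isAddHaarMeasure_map U.toContinuousLinearEquiv _
  set c := ((S1_leb d).map (fun z => U z)).addHaarScalarFactor (S1_leb d) with hcdef
  have hc : ((S1_leb d).map (fun z => U z)) = c • (S1_leb d) :=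
    Measure.isAddLeftInvariant_eq_smul _ _
  have h1 : ((S1_leb d).map (fun z => U z)) (Metric.ball 0 1) = S1_leb d (Metric.ball 0 1) := by
    rw [Measure.map_apply U.continuous.measurable Metric.isOpen_ball.measurableSet]
    congr 1
    ext z
    simp
  have h2 : c = 1 := by
    rw [hc, Measure.smul_apply, ENNReal.smul_def, smul_eq_mul] at h1
    have h3 : S1_leb d (Metric.ball 0 1) ≠ 0 :=
      (Metric.measure_ball_pos (S1_leb d) _ one_pos).ne'
    have h4 : S1_leb d (Metric.ball 0 1) ≠ ⊤ := measure_ball_lt_top.ne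
    have h5 : (c : ENNReal) * S1_leb d (Metric.ball 0 1) = 1 * S1_leb d (Metric.ball 0 1) := by
      rw [h1, one_mul]
    have h6 := (ENNReal.mul_left_inj h3 h4).1 h5
    exact_mod_cast h6
  rw [hc, h2, one_smul]

theorem S1_sph_inv {d : ℕ} (U : E d ≃ₗᵢ[ℂ] E d) :
    MeasurePreserving (fun z => U z) ((S1_leb d).toSphere.map (↑))
      ((S1_leb d).toSphere.map (↑)) := by
  refine ⟨U.continuous.measurable, ?_⟩
  ext s hs
  have hUs : MeasurableSet ((fun z => U z) ⁻¹' s) := U.continuous.measurable hs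
  rw [Measure.map_apply U.continuous.measurable hs,
    Measure.map_apply measurable_subtype_coe hUs, Measure.map_apply measurable_subtype_coe hs,
    Measure.toSphere_apply' _ (measurable_subtype_coe hUs),
    Measure.toSphere_apply' _ (measurable_subtype_coe hs)]
  congr 1
  refine Eq.trans ?_ ((S1_leb_inv U).measure_preimage_emb U.toHomeomorph.measurableEmbedding _)
  congr 1
  have hsm : ∀ (r : ℝ) (x : E d), U (r • x) = r • U x := by
    intro r x
    exact (U.toContinuousLinearEquiv.toLinearEquiv.toLinearMap.restrictScalars ℝ).map_smul r x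
  ext z
  simp only [Set.mem_smul, Set.mem_image, Set.mem_preimage]
  constructor
  · rintro ⟨r, hr, y, ⟨x, hx, rfl⟩, rfl⟩
    refine ⟨r, hr, U x, ⟨⟨U x, ?_⟩, hx, rfl⟩, ?_⟩
    · simp
    · exact (hsm r x).symm
  · rintro ⟨r, hr, y, ⟨x, hx, rfl⟩, hz⟩
    refine ⟨r, hr, U.symm x, ⟨⟨U.symm x, ?_⟩, ?_, rfl⟩, ?_⟩
    · simp
    · simpa using hx
    · apply U.injective
      rw [← hz, hsm]
      simp

theorem S1_mono_smul {d : ℕ} (z : E d) (r : ℝ) (α : MI d) :
    mono (r • z) α = (r : ℂ) ^ α.degree * mono z α := by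
  unfold mono
  rw [Finsupp.degree_eq_sum, ← Finset.prod_pow_eq_pow_sum, ← Finset.prod_mul_distrib]
  refine Finset.prod_congr rfl fun i _ => ?_
  rw [← mul_pow]
  simp

theorem S1_polar {d : ℕ} (hd : 1 ≤ d) (F : Metric.sphere (0 : E d) 1 → ℂ) (h : ℝ → ℂ) (G : E d → ℂ)
    (hG : ∀ (ζ : Metric.sphere (0 : E d) 1) (r : ℝ), 0 < r → G (r • (ζ : E d)) = F ζ * h r) :
    ∫ z, G z ∂(S1_leb d) = (∫ ζ, F ζ ∂(S1_leb d).toSphere) *
      ∫ r : Set.Ioi (0 : ℝ), h r ∂(Measure.volumeIoiPow (Module.finrank ℝ (E d) - 1)) := by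
  rw [← integral_prod_mul]
  have h1 : ∫ z, G z ∂(S1_leb d) =
      ∫ x : ({(0)}ᶜ : Set (E d)), G x.1 ∂((S1_leb d).comap (↑)) := by
    rw [integral_subtype_comap (measurableSet_singleton _).compl fun x ↦ G x]
    have : Nonempty (Fin d) := ⟨⟨0, hd⟩⟩
    rw [restrict_compl_singleton]
  rw [h1, ← ((S1_leb d).measurePreserving_homeomorphUnitSphereProd).integral_comp
    (Homeomorph.measurableEmbedding _) (fun q => F q.1 * h q.2)]
  refine integral_congr_ae (Filter.Eventually.of_forall fun x => ?_)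
  have h2 := hG (homeomorphUnitSphereProd (E d) x).1 (homeomorphUnitSphereProd (E d) x).2
    (homeomorphUnitSphereProd (E d) x).2.2
  have h3 : (homeomorphUnitSphereProd (E d) x).2.1 • ((homeomorphUnitSphereProd (E d) x).1 : E d)
      = x := by
    have := homeomorphUnitSphereProd_symm_apply_coe (E d) (homeomorphUnitSphereProd (E d) x)
    rw [Homeomorph.symm_apply_apply] at this
    exact this.symm
  rw [h3] at h2
  exact h2

theorem S1_rad (m n : ℕ) :
    ∫ r : Set.Ioi (0 : ℝ), ((((r : ℝ) ^ m * Real.exp (-(r : ℝ) ^ 2) : ℝ)) : ℂ)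
      ∂(Measure.volumeIoiPow n) =
      ((1 / 2 * Real.Gamma (((m + n : ℕ) + 1) / 2) : ℝ) : ℂ) := by
  rw [integral_complex_ofReal]
  congr 1
  have h1 : ∫ r : Set.Ioi (0 : ℝ), ((r : ℝ) ^ m * Real.exp (-(r : ℝ) ^ 2))
      ∂(Measure.volumeIoiPow n) =
      ∫ y in Set.Ioi (0 : ℝ), y ^ n • (y ^ m * Real.exp (-y ^ 2)) := by
    simp only [Measure.volumeIoiPow, ENNReal.ofReal]
    rw [integral_withDensity_eq_integral_smul,
      integral_subtype_comap measurableSet_Ioi fun a ↦ Real.toNNReal (a ^ n) •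
        (a ^ m * Real.exp (-a ^ 2)),
      setIntegral_congr_fun measurableSet_Ioi fun x hx ↦ ?_]
    · rw [NNReal.smul_def, Real.coe_toNNReal _ (pow_nonneg hx.out.le _)]
    · exact (measurable_subtype_coe.pow_const _).real_toNNReal
  rw [h1]
  have h2 := integral_rpow_mul_exp_neg_rpow (p := 2) (q := ((m + n : ℕ) : ℝ)) two_pos (by
    have : (0 : ℝ) ≤ ((m + n : ℕ) : ℝ) := Nat.cast_nonneg _
    linarith)
  rw [← h2]
  refine setIntegral_congr_fun measurableSet_Ioi fun x hx => ?_
  simp only [smul_eq_mul]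
  rw [Real.rpow_natCast, show (2 : ℝ) = ((2 : ℕ) : ℝ) by norm_num, Real.rpow_natCast, pow_add]
  ring

theorem S1_gauss {d : ℕ} (α β : MI d) :
    ∫ z, mono z α * (starRingEnd ℂ) (mono z β) * (Real.exp (-‖z‖ ^ 2) : ℂ) ∂(S1_leb d) =
      if α = β then ((Real.pi ^ d * mf α : ℝ) : ℂ) else 0 := by
  rw [← (S1b α β).2]
  unfold S1_leb
  refine Eq.trans (MeasurableEmbedding.integral_map
    (f := (PiLp.continuousLinearEquiv 2 ℝ (fun _ : Fin d => ℂ)).symm)
    (PiLp.continuousLinearEquiv 2 ℝ
      (fun _ : Fin d => ℂ)).symm.toHomeomorph.measurableEmbedding _) ?_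
  refine integral_congr_ae (Filter.Eventually.of_forall fun x => ?_)
  simp only [mono, map_prod, map_pow]
  rw [← Finset.prod_mul_distrib, EuclideanSpace.norm_sq_eq, ← Finset.sum_neg_distrib,
    Real.exp_sum]
  push_cast
  rw [← Finset.prod_mul_distrib]
  rfl

theorem S1_sph {d : ℕ} (hd : 1 ≤ d) (α β : MI d) :
    (∫ ζ : Metric.sphere (0 : E d) 1, mono (ζ : E d) α * (starRingEnd ℂ) (mono (ζ : E d) β)
      ∂(S1_leb d).toSphere) *
      ((1 / 2 * Real.Gamma (((α.degree + β.degree + (2 * d - 1) : ℕ) + 1) / 2) : ℝ) : ℂ) =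
      if α = β then ((Real.pi ^ d * mf α : ℝ) : ℂ) else 0 := by
  rw [← S1_gauss α β, ← S1_rad]
  have hfr : Module.finrank ℝ (E d) - 1 = 2 * d - 1 := by
    rw [finrank_real_of_complex, finrank_euclideanSpace_fin]
  rw [← hfr]
  refine (S1_polar hd _ (fun r : ℝ => ((r ^ (α.degree + β.degree) * Real.exp (-r ^ 2) : ℝ) : ℂ))
    _ ?_).symm
  intro ζ r hr
  rw [S1_mono_smul, S1_mono_smul, norm_smul, norm_eq_of_mem_sphere ζ]
  simp only [map_mul, map_pow, Complex.conj_ofReal, Real.norm_eq_abs, abs_of_pos hr, mul_one]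
  push_cast
  rw [pow_add]
  ring

theorem S1_Gam (d k : ℕ) (hd : 1 ≤ d) :
    Real.Gamma (((k + k + (2 * d - 1) : ℕ) + 1) / 2) = ((k + d - 1).factorial : ℝ) := by
  have h1 : (((k + k + (2 * d - 1) : ℕ) : ℝ) + 1) / 2 = ((k + d - 1 : ℕ) : ℝ) + 1 := by
    obtain ⟨e, rfl⟩ : ∃ e, d = e + 1 := ⟨d - 1, by omega⟩
    have h2 : k + k + (2 * (e + 1) - 1) = 2 * k + 2 * e + 1 := by omega
    have h3 : k + (e + 1) - 1 = k + e := by omega
    rw [h2, h3]
    push_cast
    ring
  rw [h1, Real.Gamma_nat_eq_factorial]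

theorem S1_int {d : ℕ} (f : E d → ℂ) (c : ENNReal) :
    ∫ z, f z ∂(c • ((S1_leb d).toSphere.map (↑) : Measure (E d))) =
      c.toReal • ∫ ζ : Metric.sphere (0 : E d) 1, f ζ ∂(S1_leb d).toSphere := by
  rw [integral_smul_measure]
  congr 1
  exact (MeasurableEmbedding.subtype_coe
    Metric.isClosed_sphere.measurableSet).integral_map _

/-- The normalised surface measure.

Proof.  Mathlib: `E d` is a finite dimensional real inner product space (`InnerProductSpace.complexToReal`)
of real dimension `2d`, with the Lebesgue (additive Haar) measure `μ = volume`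
(or the push-forward of the volume of `Fin d → ℂ`; any Haar measure invariant under linear isometries will do).
`μ.toSphere` is a finite measure on `Metric.sphere (0 : E d) 1`, nonzero for `d ≥ 1`, and
`Measure.measurePreserving_homeomorphUnitSphereProd` gives polar coordinates: for integrable `g`
`∫_E g dμ = ∫_{sphere} ∫_0^∞ g(rζ) r^{2d-1} dr d(toSphere)`.
Let `σ` = push-forward of `μ.toSphere` to `E d` under the coercion, divided by the total mass.
* `prob`, `supp`: clear.
* `inv`: `μ` is invariant under the linear isometry `U` (`LinearIsometryEquiv.measurePreserving`) and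
  `toSphere s = (2d) μ((0,1)·s)` (`Measure.toSphere_apply'`), so `toSphere` is invariant as well.
* `mon`: put `g(z) = z^α conj(z^β) e^{-|z|²}`.  On the one hand `∫_E g = ∏_i ∫_ℂ z^{α_i} conj(z)^{β_i} e^{-|z|²}`
  `= ∏_i (π α_i! if α_i = β_i, else 0)` (up to the constant comparing `μ` with the product measure;
  one-dimensional integrals by polar coordinates `Complex.integral_comp_polarCoord_symm`:
  `∫_0^∞ r^{2a+1} e^{-r²} dr = a!/2`, `∫_{-π}^{π} e^{i(a-b)θ} dθ = 2π δ_{ab}`).
  On the other hand, by polar coordinates on `E`, `∫_E g = (∫_0^∞ r^{|α|+|β|+2d-1} e^{-r²} dr) · ∫ ζ^α conj(ζ^β)`,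
  where the first factor is positive and equals `(k+d-1)!/2` if `|α| = |β| = k`.  Dividing by the case
  `α = β = 0` gives `∫ |ζ^α|² dσ = α! (d-1)!/(k+d-1)! = wH α`, and `0` for `α ≠ β`.
(For the vanishing with `α ≠ β` one can also use the invariance under `z_i ↦ e^{iθ} z_i`.) -/
theorem S1 {d : ℕ} (hd : 1 ≤ d) : ∃ σ : Measure (E d), IsSig σ := by
  have hne : Nonempty (Fin d) := ⟨⟨0, hd⟩⟩
  set N := (S1_leb d).toSphere Set.univ with hN
  have hN0 : N ≠ 0 := by
    rw [hN, Ne, Measure.measure_univ_eq_zero]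
    exact (S1_leb d).toSphere_ne_zero
  have hNt : N ≠ ⊤ := measure_ne_top _ _
  have hNr : N.toReal ≠ 0 := ENNReal.toReal_ne_zero.2 ⟨hN0, hNt⟩
  -- the value of the total mass
  have h00 := S1_sph hd (0 : MI d) 0
  have hG0 := S1_Gam d 0 hd
  have hdeg : (0 : MI d).degree = 0 := by simp
  rw [if_pos rfl, hdeg, hG0] at h00
  have hS0 : (∫ ζ : Metric.sphere (0 : E d) 1, mono (ζ : E d) 0 *
      (starRingEnd ℂ) (mono (ζ : E d) 0) ∂(S1_leb d).toSphere) = (N.toReal : ℂ) := by
    simp [mono, hN, Measure.real]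
  rw [hS0] at h00
  have hmf0 : mf (0 : MI d) = 1 := by simp [mf]
  rw [hmf0] at h00
  have h00' : N.toReal * (1 / 2 * ((0 + d - 1).factorial : ℝ)) = Real.pi ^ d * 1 := by
    exact_mod_cast h00
  refine ⟨N⁻¹ • ((S1_leb d).toSphere.map (↑) : Measure (E d)), ?_, ?_, ?_, ?_⟩
  · constructor
    rw [Measure.smul_apply, Measure.map_apply measurable_subtype_coe MeasurableSet.univ,
      Set.preimage_univ, smul_eq_mul]
    exact ENNReal.inv_mul_cancel hN0 hNt
  · refine Measure.ae_smul_measure ?_ _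
    rw [ae_map_iff measurable_subtype_coe.aemeasurable
      (measurableSet_eq_fun measurable_norm measurable_const)]
    filter_upwards with ζ
    exact norm_eq_of_mem_sphere ζ
  · intro U
    exact (S1_sph_inv U).smul_measure _
  · intro α β
    rw [S1_int, ENNReal.toReal_inv]
    have hS := S1_sph hd α β
    set I := ∫ ζ : Metric.sphere (0 : E d) 1, mono (ζ : E d) α *
      (starRingEnd ℂ) (mono (ζ : E d) β) ∂(S1_leb d).toSphere with hI
    by_cases hab : α = β
    · subst hab
      simp only [if_true] at hS ⊢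
      rw [S1_Gam d _ hd] at hS
      have hf1 : ((α.degree + d - 1).factorial : ℝ) ≠ 0 := by positivity
      have hf2 : ((d - 1).factorial : ℝ) ≠ 0 := by positivity
      have hpi : Real.pi ^ d ≠ 0 := by positivity
      rw [zero_add] at h00'
      have hf1' : ((α.degree + d - 1).factorial : ℂ) ≠ 0 := by exact_mod_cast hf1
      have hI' : I = ((Real.pi ^ d * mf α * 2 / ((α.degree + d - 1).factorial : ℝ) : ℝ) : ℂ) := by
        push_cast at hS ⊢
        field_simp
        linear_combination 2 * hS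
      rw [hI', Complex.real_smul]
      norm_cast
      unfold wH
      have hpi' : Real.pi ^ d = N.toReal * (1 / 2 * ((d - 1).factorial : ℝ)) := by
        rw [h00', mul_one]
      rw [hpi']
      field_simp
    · simp only [if_neg hab] at hS ⊢
      have hG : ((1 / 2 * Real.Gamma (((α.degree + β.degree + (2 * d - 1) : ℕ) + 1) / 2) : ℝ) : ℂ)
          ≠ 0 := by
        rw [Ne, Complex.ofReal_eq_zero]
        have := Real.Gamma_pos_of_pos
          (s := (((α.degree + β.degree + (2 * d - 1) : ℕ) : ℝ) + 1) / 2) (by positivity)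
        positivity
      rw [(mul_eq_zero.1 hS).resolve_right hG, smul_zero]

end Pool.Agent.CRT
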