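import Pool.Agent.CRT.A1

/-!
# [S2] Integrals of homogeneous polynomials over the sphere
-/

set_option autoImplicit false

namespace Pool.Agent.CRT

open Finset MvPowerSeries MeasureTheory

/-- continuous functions are `σ`-integrable: they are bounded on the compact unit sphere, which
carries the finite measure `σ` -/
theorem S2i {d : ℕ} {σ : Measure (E d)} (hσ : IsSig σ) {g : E d → ℂ}
    (hg : ContinuousOn g (Metric.sphere 0 1)) : Integrable g σ := by
  have := hσ.prob
  have h1 : IntegrableOn g (Metric.sphere 0 1) σ :=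
    hg.integrableOn_compact (isCompact_sphere _ _)
  have h2 : σ.restrict (Metric.sphere 0 1) = σ := by
    apply Measure.restrict_eq_self_of_ae_mem
    filter_upwards [hσ.supp] with z hz
    simpa using hz
  unfold IntegrableOn at h1
  rwa [h2] at h1

/-- `|∫ g dσ| ≤ sup_S |g|` -/
theorem S2b {d : ℕ} {σ : Measure (E d)} (hσ : IsSig σ) {g : E d → ℂ} {C : ℝ} (hC0 : 0 ≤ C)
    (hC : ∀ z : E d, ‖z‖ = 1 → ‖g z‖ ≤ C) : ‖∫ z, g z ∂σ‖ ≤ C := by
  have := hσ.prob
  have h1 : ∀ᵐ z ∂σ, ‖g z‖ ≤ C := by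
    filter_upwards [hσ.supp] with z hz
    exact hC z hz
  have h2 := norm_integral_le_of_norm_le_const h1
  simpa using h2

theorem S2_mono_cont {d : ℕ} (α : MI d) : Continuous fun z : E d => mono z α := by
  unfold mono
  refine continuous_finset_prod _ fun i _ => ?_
  exact (EuclideanSpace.proj (𝕜 := ℂ) i).continuous.pow _

theorem S2_int {d : ℕ} {σ : Measure (E d)} (hσ : IsSig σ) (c : ℂ) (α β : MI d) :
    Integrable (fun z => c * (mono z α * (starRingEnd ℂ) (mono z β))) σ := by
  apply S2i hσ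
  apply Continuous.continuousOn
  exact continuous_const.mul ((S2_mono_cont α).mul (Complex.continuous_conj.comp (S2_mono_cont β)))

/-- `∫ f_k conj(g_j) dσ = δ_{kj} ∑_{|α|=k} f_α conj(g_α) wH(α)`: expand and use `hσ.mon` -/
theorem S2a {d : ℕ} {σ : Measure (E d)} (hσ : IsSig σ) (f g : PS d) (k j : ℕ) :
    ∫ z, hp f k z * (starRingEnd ℂ) (hp g j z) ∂σ = if k = j then
      ∑ α ∈ A d k, coeff α f * (starRingEnd ℂ) (coeff α g) * (wH α : ℂ) else 0 := by
  have h1 : ∀ z : E d, hp f k z * (starRingEnd ℂ) (hp g j z) = ∑ α ∈ A d k, ∑ β ∈ A d j,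
      (coeff α f * (starRingEnd ℂ) (coeff β g)) * (mono z α * (starRingEnd ℂ) (mono z β)) := by
    intro z
    unfold hp
    rw [map_sum, Finset.sum_mul_sum]
    refine Finset.sum_congr rfl fun α _ => Finset.sum_congr rfl fun β _ => ?_
    rw [map_mul]
    ring
  simp only [h1]
  rw [integral_finset_sum _ fun α _ => integrable_finset_sum _ fun β _ => S2_int hσ _ α β]
  have h2 : ∀ α ∈ A d k, ∫ z, ∑ β ∈ A d j, (coeff α f * (starRingEnd ℂ) (coeff β g)) *
      (mono z α * (starRingEnd ℂ) (mono z β)) ∂σ =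
      if k = j then coeff α f * (starRingEnd ℂ) (coeff α g) * (wH α : ℂ) else 0 := by
    intro α hα
    rw [integral_finset_sum _ fun β _ => S2_int hσ _ α β]
    simp only [integral_const_mul, hσ.mon]
    by_cases hkj : k = j
    · subst hkj
      rw [if_pos rfl, Finset.sum_eq_single α]
      · rw [if_pos rfl]
      · intro β _ hne
        rw [if_neg (Ne.symm hne), mul_zero]
      · intro h
        exact absurd hα h
    · rw [if_neg hkj]
      refine Finset.sum_eq_zero fun β hβ => ?_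
      rw [if_neg, mul_zero]
      intro h
      rw [← h] at hβ
      exact hkj ((mem_A.1 hα).symm.trans (mem_A.1 hβ))
  rw [Finset.sum_congr rfl h2]
  by_cases hkj : k = j
  · simp [hkj]
  · simp [hkj]

/-- `‖f_k‖_H ≤ sup_S |f_k|` (take `g = f`, `j = k` in `S2a`) -/
theorem S2c {d : ℕ} {σ : Measure (E d)} (hσ : IsSig σ) (f : PS d) (k : ℕ) {C : ℝ}
    (hC : ∀ z : E d, ‖z‖ = 1 → ‖hp f k z‖ ≤ C) : nk wH f k ≤ C ^ 2 := by
  have h1 : ‖∫ z, hp f k z * (starRingEnd ℂ) (hp f k z) ∂σ‖ ≤ C ^ 2 := by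
    apply S2b hσ (sq_nonneg C)
    intro z hz
    rw [norm_mul, RCLike.norm_conj, ← sq]
    exact pow_le_pow_left₀ (norm_nonneg _) (hC z hz) 2
  rw [S2a hσ, if_pos rfl] at h1
  have h2 : ∑ α ∈ A d k, coeff α f * (starRingEnd ℂ) (coeff α f) * (wH α : ℂ) =
      ((nk wH f k : ℝ) : ℂ) := by
    unfold nk
    rw [Complex.ofReal_sum]
    refine Finset.sum_congr rfl fun α _ => ?_
    rw [Complex.mul_conj, Complex.normSq_eq_norm_sq]
    push_cast
    ring
  rw [h2, Complex.norm_real, Real.norm_of_nonneg (nk_nonneg wH_pos f k)] at h1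
  exact h1

theorem S2_hp_single {d : ℕ} (α : MI d) (z : E d) :
    hp (mkP fun β => if β = α then 1 else 0) α.degree z = mono z α := by
  unfold hp
  rw [Finset.sum_eq_single α]
  · rw [coeff_mkP, if_pos rfl, one_mul]
  · intro β _ hne
    rw [coeff_mkP, if_neg hne, zero_mul]
  · intro h
    exact absurd (mem_A.2 rfl) h

/-- the coefficient formula: `∫ f_k(z) conj(z^α) dσ = f_α wH(α)` if `k = |α|`, else `0` -/
theorem S2d {d : ℕ} {σ : Measure (E d)} (hσ : IsSig σ) (f : PS d) (k : ℕ) (α : MI d) :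
    ∫ z, hp f k z * (starRingEnd ℂ) (mono z α) ∂σ =
      if k = α.degree then coeff α f * (wH α : ℂ) else 0 := by
  have h1 := S2a hσ f (mkP fun β => if β = α then 1 else 0) k α.degree
  simp only [S2_hp_single] at h1
  rw [h1]
  by_cases hk : k = α.degree
  · rw [if_pos hk, if_pos hk, Finset.sum_eq_single α]
    · rw [coeff_mkP, if_pos rfl, map_one, mul_one]
    · intro β _ hne
      rw [coeff_mkP, if_neg hne, map_zero, mul_zero, zero_mul]
    · intro h
      exact absurd (mem_A.2 hk.symm) h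
  · rw [if_neg hk, if_neg hk]

end Pool.Agent.CRT
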