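import Pool.Agent.CRT.P2
import Pool.Agent.CRT.S2
import Pool.Agent.CRT.S1
import Pool.Agent.CRT.A3

/-!
# [P3] Functions with `|F|, |N^{d+1}F| ≤ K` on the ball are multipliers of norm `≤ C_d K`
-/

set_option autoImplicit false

namespace Pool.Agent.CRT

open Finset MvPowerSeries MeasureTheory

/-- `bb d k = √c_k / k^{d+1}` for `k ≥ 1`, and `bb d 0 = 1` -/
noncomputable def bb (d k : ℕ) : ℝ := if k = 0 then 1 else Real.sqrt (ck d k) / (k : ℝ) ^ (d + 1)

/-- `∑ bb d k < ∞`: `√c_k ≤ c_k ≤ (k+1)^{d-1} ≤ (2k)^{d-1}`, so `bb d k ≤ 2^{d-1}/k²`. -/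
theorem bb_summable {d : ℕ} (hd : 1 ≤ d) : Summable (bb d) := by
  rw [← summable_nat_add_iff 1]
  have hs : Summable fun k : ℕ => (2 : ℝ) ^ (d - 1) * (1 / ((k + 1 : ℕ) : ℝ) ^ 2) :=
    ((summable_nat_add_iff 1).2 (Real.summable_one_div_nat_pow.2 one_lt_two)).mul_left _
  refine Summable.of_nonneg_of_le (fun k => ?_) (fun k => ?_) hs
  · unfold bb
    rw [if_neg (Nat.succ_ne_zero k)]
    positivity
  · unfold bb
    rw [if_neg (Nat.succ_ne_zero k)]
    set x : ℝ := ((k + 1 : ℕ) : ℝ) with hx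
    have hx1 : 1 ≤ x := by
      rw [hx]
      push_cast
      linarith [Nat.cast_nonneg (α := ℝ) k]
    have hc1 : 1 ≤ ck d (k + 1) := one_le_ck (k + 1)
    have h1 : Real.sqrt (ck d (k + 1)) ≤ ck d (k + 1) := by
      rw [Real.sqrt_le_left (by linarith)]
      nlinarith
    have h2 : ck d (k + 1) ≤ (x + 1) ^ (d - 1) := ck_le hd (k + 1)
    have h3 : (x + 1) ^ (d - 1) ≤ (2 * x) ^ (d - 1) :=
      pow_le_pow_left₀ (by linarith) (by linarith) _
    have hxp : 0 < x := by linarith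
    have e : d + 1 = (d - 1) + 2 := by omega
    rw [div_le_iff₀ (by positivity), e, pow_add]
    have e2 : (2 : ℝ) ^ (d - 1) * (1 / x ^ 2) * (x ^ (d - 1) * x ^ 2) = (2 * x) ^ (d - 1) := by
      rw [mul_pow]
      field_simp
    rw [e2]
    exact h1.trans (h2.trans h3)

theorem bb_nonneg (d k : ℕ) : 0 ≤ bb d k := by
  unfold bb
  split_ifs
  · exact zero_le_one
  · positivity

/-- Cauchy's estimate for a power series bounded on the unit disc -/
theorem P3_cauchy {a : ℕ → ℂ} {g : ℂ → ℂ} {K : ℝ}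
    (h : ∀ μ : ℂ, ‖μ‖ < 1 → HasSum (fun k => a k * μ ^ k) (g μ))
    (hg : ∀ μ : ℂ, ‖μ‖ < 1 → ‖g μ‖ ≤ K) (k : ℕ) : ‖a k‖ ≤ K := by
  have hK : 0 ≤ K := (norm_nonneg _).trans (hg 0 (by simp))
  -- the power series
  have hfp : HasFPowerSeriesOnBall g (FormalMultilinearSeries.ofScalars ℂ a) 0 1 := by
    refine ⟨?_, one_pos, ?_⟩
    · apply ENNReal.le_of_forall_nnreal_lt
      intro r hr
      have hr' : (r : ℝ) < 1 := by exact_mod_cast hr
      apply FormalMultilinearSeries.le_radius_of_summable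
      have h1 := (h (r : ℂ) (by simpa using hr')).summable.norm
      refine h1.congr fun n => ?_
      rw [FormalMultilinearSeries.ofScalars_norm, norm_mul, norm_pow]
      simp
    · intro y hy
      have hy' : ‖y‖ < 1 := by
        rw [Metric.mem_eball, edist_zero_right] at hy
        rw [← toReal_enorm]
        have := (ENNReal.toReal_lt_toReal (by simp) (by simp)).2 hy
        simpa using this
      have h1 := h y hy'
      rw [zero_add]
      refine h1.congr_fun ?_
      intro n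
      rw [FormalMultilinearSeries.ofScalars_apply_eq, smul_eq_mul]
  have hd : DifferentiableOn ℂ g (Metric.ball 0 1) := by
    have := hfp.differentiableOn
    refine this.mono ?_
    intro x hx
    rw [Metric.mem_ball, dist_zero_right] at hx
    rw [Metric.mem_eball, edist_zero_right]
    rw [← ofReal_norm, ← ENNReal.ofReal_one]
    exact (ENNReal.ofReal_lt_ofReal_iff one_pos).2 hx
  have hder : iteratedDeriv k g 0 = (k.factorial : ℂ) * a k := by
    have := hfp.factorial_smul (1 : ℂ) k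
    rw [FormalMultilinearSeries.ofScalars_apply_eq] at this
    rw [iteratedDeriv_eq_iteratedFDeriv, ← this]
    simp
  have key : ∀ r : ℝ, 0 < r → r < 1 → ‖a k‖ * r ^ k ≤ K := by
    intro r hr0 hr1
    have h1 := Complex.norm_iteratedDeriv_le_of_forall_mem_sphere_norm_le (c := (0:ℂ)) (R := r)
      (C := K) (f := g) k hr0 ((hd.diffContOnCl_ball (U := Metric.ball 0 1)
        (Metric.closedBall_subset_ball hr1))) (by
        intro z hz
        rw [mem_sphere_zero_iff_norm] at hz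
        exact hg z (by rw [hz]; exact hr1))
    rw [hder, norm_mul, Complex.norm_natCast, le_div_iff₀ (by positivity)] at h1
    have hk : (0 : ℝ) < k.factorial := by exact_mod_cast Nat.factorial_pos k
    apply le_of_mul_le_mul_left _ hk
    linarith
  have hlim : Filter.Tendsto (fun r : ℝ => ‖a k‖ * r ^ k) (nhdsWithin 1 (Set.Iio 1))
      (nhds (‖a k‖ * 1 ^ k)) := by
    apply Filter.Tendsto.mono_left _ nhdsWithin_le_nhds
    exact ((continuous_const.mul (continuous_pow k)).tendsto 1)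
  rw [one_pow, mul_one] at hlim
  refine le_of_tendsto hlim ?_
  have hpos : ∀ᶠ r in nhdsWithin (1:ℝ) (Set.Iio 1), (0 : ℝ) < r :=
    nhdsWithin_le_nhds (Ioi_mem_nhds one_pos)
  filter_upwards [hpos, self_mem_nhdsWithin] with r h0 h1
  exact key r h0 h1

/-- Proof.  For `ζ ∈ S`, `0<r<1`: `N^{d+1}F(rζ) = ∑ k^{d+1} f_k(ζ) r^k` (`P2n`), the function
`μ ↦ N^{d+1}F(μζ)` (`|μ|<1`) is given by the power series `∑ k^{d+1} f_k(ζ) μ^k` and bounded by `K`, so by
Cauchy's estimate `k^{d+1}|f_k(ζ)| r^k ≤ K` for all `r<1`, hence `k^{d+1}|f_k(ζ)| ≤ K`.  By `S2c`,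
`nk wH f k ≤ (K/k^{d+1})²`, and `nk wD f k = c_k nk wH f k` (`nkD_eq`).  For `k = 0`: `f_0 = F(0)`,
`c_0 = 1`. -/
theorem P3 {d : ℕ} (hd : 1 ≤ d) {F : E d → ℂ} {f : PS d} (h : IsTS F f) {K : ℝ}
    (h1 : ∀ z : E d, ‖z‖ < 1 → ‖F z‖ ≤ K) (h2 : ∀ z : E d, ‖z‖ < 1 → ‖Nd (d + 1) F z‖ ≤ K)
    (k : ℕ) : Real.sqrt (nk wD f k) ≤ K * bb d k := by
  obtain ⟨σ, hσ⟩ := S1 hd
  have hK : 0 ≤ K := (norm_nonneg _).trans (h1 0 (by simp))
  by_cases hk : k = 0
  · subst hk
    have hb : bb d 0 = 1 := by unfold bb; rw [if_pos rfl]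
    have hc0 : ck d 0 = 1 := by
      unfold ck
      rw [zero_add, Nat.choose_self, Nat.cast_one]
    have h3 : nk wH f 0 ≤ K ^ 2 := by
      apply S2c hσ
      intro z hz
      have := P2h h (r := 1 / 2) (C := K) (by norm_num) (by norm_num) (fun x hx => h1 x (by
        rw [hx]; norm_num)) 0 hz
      simpa using this
    rw [nkD_eq hd, hc0, one_mul, hb, mul_one]
    rw [Real.sqrt_le_left hK]
    exact h3
  · have hkp : (0 : ℝ) < (k : ℝ) ^ (d + 1) := by
      have : (0 : ℝ) < k := by exact_mod_cast Nat.pos_of_ne_zero hk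
      positivity
    have hb : bb d k = Real.sqrt (ck d k) / (k : ℝ) ^ (d + 1) := by unfold bb; rw [if_neg hk]
    have hhp : ∀ z : E d, ‖z‖ = 1 → ‖hp f k z‖ ≤ K / (k : ℝ) ^ (d + 1) := by
      intro z hz
      have hsum : ∀ μ : ℂ, ‖μ‖ < 1 → HasSum (fun j : ℕ => ((j : ℂ) ^ (d + 1) * hp f j z) * μ ^ j)
          (Nd (d + 1) F (μ • z)) := by
        intro μ hμ
        have hμz : ‖μ • z‖ < 1 := by rw [norm_smul, hz, mul_one]; exact hμ
        have h3 := P2n h (d + 1) hμz
        refine h3.congr_fun fun j => ?_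
        rw [hp_smul]
        ring
      have h4 := P3_cauchy hsum (K := K) (fun μ hμ => h2 _ (by
        rw [norm_smul, hz, mul_one]; exact hμ)) k
      rw [norm_mul, norm_pow, Complex.norm_natCast] at h4
      rw [le_div_iff₀ hkp]
      linarith
    have h5 := S2c hσ f k hhp
    rw [nkD_eq hd, hb]
    have hc0 : 0 ≤ ck d k := zero_le_one.trans (one_le_ck k)
    rw [Real.sqrt_mul hc0]
    have h6 : Real.sqrt (nk wH f k) ≤ K / (k : ℝ) ^ (d + 1) := by
      rw [Real.sqrt_le_left (by positivity)]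
      exact h5
    calc Real.sqrt (ck d k) * Real.sqrt (nk wH f k) ≤
          Real.sqrt (ck d k) * (K / (k : ℝ) ^ (d + 1)) :=
          mul_le_mul_of_nonneg_left h6 (Real.sqrt_nonneg _)
      _ = K * (Real.sqrt (ck d k) / (k : ℝ) ^ (d + 1)) := by ring

end Pool.Agent.CRT
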