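import Pool.Agent.CRT.P4
import Pool.Agent.CRT.A5
import Pool.Agent.CRT.P3

/-!
# [A6x] Multipliers of H^2_d are bounded functions
-/

set_option autoImplicit false

namespace Pool.Agent.CRT

open Finset MvPowerSeries MeasureTheory

theorem A6x_one {d : ℕ} : (1 : PS d) ∈ Sp (wD (d := d)) := by
  apply poly_Sp
  refine ⟨0, fun α hα => ?_⟩
  rw [coeff_one, if_neg]
  rintro rfl
  simp at hα

theorem A6x_ip_self {d : ℕ} (e : PS d) : ip wD e e = ((ns wD e : ℝ) : ℂ) := by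
  unfold ip ns
  rw [Complex.ofReal_tsum]
  refine tsum_congr fun α => ?_
  rw [Complex.mul_conj, Complex.normSq_eq_norm_sq]
  push_cast
  rfl

theorem A6x_br_self {d : ℕ} (z : E d) : br z z = ((‖z‖ ^ 2 : ℝ) : ℂ) := by
  unfold br
  rw [inner_self_eq_norm_sq_to_K]
  push_cast
  rfl

/-- the kernel function -/
theorem A6x_ker {d : ℕ} {z : E d} (hz : ‖z‖ < 1) : ∃ e : PS d, e ∈ Sp (wD (d := d)) ∧
    IsTS (fun y => 1 / (1 - br y z)) e ∧ ns wD e = 1 / tt z := by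
  have hg : ∀ x : ℂ, ‖x‖ < 1 → HasSum (fun k : ℕ => (fun _ : ℕ => (1 : ℂ)) k * x ^ k)
      ((fun x : ℂ => 1 / (1 - x)) x) := by
    intro x hx
    simp only [one_mul, one_div]
    exact hasSum_geometric_of_norm_lt_one hx
  obtain ⟨e, he, hT, -⟩ := P4 hg hz (A6x_one (d := d))
  obtain ⟨e', he', hT', hs⟩ := P4 hg hz he
  have hee : e' = e := P2a hT' hT
  rw [hee] at hs
  have h1 : HasSum (fun k => hp e k z) ((starRingEnd ℂ) (ip wD e e)) := by
    have h2 := Complex.hasSum_conj'.2 hs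
    have e1 : (fun k : ℕ => (starRingEnd ℂ) ((1 : ℂ) * (starRingEnd ℂ) (hp e k z))) =
        fun k => hp e k z := by
      funext k
      rw [one_mul, Complex.conj_conj]
    rw [e1] at h2
    exact h2
  have h2 : HasSum (fun k => hp e k z) (1 / (1 - br z z)) := (P2c hT hz).1
  have h3 := h1.unique h2
  rw [A6x_ip_self, Complex.conj_ofReal, A6x_br_self] at h3
  refine ⟨e, he, hT, ?_⟩
  have h4 : ((ns wD e : ℝ) : ℂ) = ((1 / tt z : ℝ) : ℂ) := by
    rw [h3]
    unfold tt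
    push_cast
    rfl
  exact Complex.ofReal_injective h4

/-- `MultD d ⊆ Hinf d`.

Proof.  `m = m*1 ∈ Sp wD`, so the series of `m` converges absolutely on the ball (`A9D`).
By `A5` there is `C` with `ns wD (m*h) ≤ C² ns wD h`.  Let `|z| < 1` and let `e` be the Taylor series of
`x ↦ 1/(1-<x,z>)` (`P4w` or `P4` with `φ_k = 1`, `ζ = z`), `ns wD e = ∑_k |z|^{2k} = 1/t(z)`
(`nk wD e k = |z|^{2k}`: one can read this off from `ip wD e e = ev e z` conjugated, i.e. apply `P4` with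
`f = e`, or recompute with `e_α = conj(z^α)/wD α` and `A1b`), and `ev e z = 1/t(z)`.
`m*e` is in `Sp wD` with `|ev (m*e) z|² ≤ ns wD (m*e)/t(z) ≤ C² /t(z)²` (`A9D`) and
`ev (m*e) z = ev m z · ev e z = ev m z / t(z)` (`P2b`).  So `|ev m z| ≤ C`. -/
theorem A6 {d : ℕ} {m : PS d} (hm : m ∈ MultD d) : m ∈ Hinf d := by
  have hm1 : m ∈ Sp (wD (d := d)) := by
    have := hm 1 A6x_one
    rwa [mul_one] at this
  obtain ⟨C, hC0, hC⟩ := A5 wD_pos hm
  refine ⟨fun z hz => (A9D hm1 hz).1, C, fun z hz => ?_⟩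
  obtain ⟨e, he, hT, hns⟩ := A6x_ker hz
  have hmT : IsTS (ev m) m := P2e fun z hz => (A9D hm1 hz).1
  have hme : ev m z * (1 / (1 - br z z)) = ev (m * e) z := P2f (P2b hmT hT) hz
  have ht : 0 < tt z := by
    unfold tt
    have : ‖z‖ ^ 2 < 1 := by
      have h0 := norm_nonneg z
      nlinarith
    linarith
  have h1 := (A9D (hm e he) hz).2
  have h2 := hC e he
  rw [hns] at h2
  have hbr : (1 / (1 - br z z) : ℂ) = ((1 / tt z : ℝ) : ℂ) := by
    rw [A6x_br_self]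
    unfold tt
    push_cast
    rfl
  rw [← hme, hbr, norm_mul, Complex.norm_real, Real.norm_eq_abs, abs_of_pos (by positivity)] at h1
  have h3 : (‖ev m z‖ * (1 / tt z)) ^ 2 ≤ C ^ 2 * (1 / tt z) / tt z :=
    h1.trans (div_le_div_of_nonneg_right h2 ht.le)
  have h4 : ‖ev m z‖ ^ 2 ≤ C ^ 2 := by
    have h5 := mul_le_mul_of_nonneg_right h3 (by positivity : 0 ≤ tt z ^ 2)
    have e1 : (‖ev m z‖ * (1 / tt z)) ^ 2 * tt z ^ 2 = ‖ev m z‖ ^ 2 := by
      field_simp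
    have e2 : C ^ 2 * (1 / tt z) / tt z * tt z ^ 2 = C ^ 2 := by
      field_simp
    rwa [e1, e2] at h5
  exact (pow_le_pow_iff_left₀ (norm_nonneg _) hC0 two_ne_zero).1 h4

end Pool.Agent.CRT
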