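import Pool.Agent.CRT.P4
import Pool.Agent.CRT.A5
import Pool.Agent.CRT.P3
import Pool.Agent.CRT.A6x

/-!
# [A6y] The trivial inclusion of Lambda^{-1} R_H in R_DA
-/

set_option autoImplicit false

namespace Pool.Agent.CRT

open Finset MvPowerSeries MeasureTheory

theorem A6y_Li {d : ℕ} (hd : 1 ≤ d) {f : PS d} (hf : f ∈ Sp (wH (d := d))) :
    Li f ∈ Sp (wD (d := d)) := by
  change Summable fun α => ‖MvPowerSeries.coeff α (Li f)‖ ^ 2 * wD α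
  have h1 : Summable fun α : MI d => ‖MvPowerSeries.coeff α f‖ ^ 2 * wH α := hf
  refine Summable.of_nonneg_of_le (fun α => ?_) (fun α => ?_) h1
  · exact mul_nonneg (by positivity) (wD_pos α).le
  · have hc : (1 : ℝ) ≤ ck d α.degree := one_le_ck _
    have hc0 : (0 : ℝ) < ck d α.degree := by linarith
    have e1 : ‖MvPowerSeries.coeff α (Li f)‖ = (ck d α.degree)⁻¹ * ‖MvPowerSeries.coeff α f‖ := by
      unfold Li
      rw [coeff_mkP, norm_mul, norm_inv, Complex.norm_real, Real.norm_of_nonneg hc0.le]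
    rw [e1, wD_eq hd α]
    have e2 : ((ck d α.degree)⁻¹ * ‖MvPowerSeries.coeff α f‖) ^ 2 * (ck d α.degree * wH α) =
        (ck d α.degree)⁻¹ * (‖MvPowerSeries.coeff α f‖ ^ 2 * wH α) := by
      field_simp
    rw [e2]
    have e3 : 0 ≤ ‖MvPowerSeries.coeff α f‖ ^ 2 * wH α :=
      mul_nonneg (by positivity) (wH_pos α).le
    exact mul_le_of_le_one_left e3 (inv_le_one_of_one_le₀ hc)

/-- If `f ∈ R_H` then `Λ^{-1} f ∈ R_DA`.

Proof.  Let `m ∈ MultD d`, `m ≠ 0`.  By `A6` `m ∈ Hinf d`, so there is `g ∈ Sp wH` with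
`<m h, g>_H = <h, f>_H` for all `h ∈ Sp wH`.  Put `g' = Li g`.
`∑ |g_α|²/c² wD = ∑ |g_α|² wH/c ≤ ns wH g`, so `g' ∈ Sp wD`, same for `Li f`.  For `h ∈ Sp wD ⊆ Sp wH`
(`SpD_SpH`): `m*h ∈ Sp wD` and `<m h, g'>_D = ∑ (mh)_α conj(g_α) c^{-1} wD = <m h, g>_H = <h,f>_H
= <h, Li f>_D`. -/
theorem A10 {d : ℕ} (hd : 1 ≤ d) {f : PS d} (hf : f ∈ RH d) : Li f ∈ RD d := by
  intro m hm hm0
  obtain ⟨hfH, g, hg, hgip⟩ := hf m (A6 hm) hm0
  refine ⟨A6y_Li hd hfH, Li g, A6y_Li hd hg, fun h hh => ⟨hm h hh, ?_⟩⟩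
  rw [(ipD_eq hd (m * h) (Li g)).1, (ipD_eq hd h (Li f)).1, Lm_Li, Lm_Li]
  exact (hgip h (SpD_SpH hd hh).1).2

end Pool.Agent.CRT
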