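import Pool.Agent.CRT.P4
import Pool.Agent.CRT.A5
import Pool.Agent.CRT.P3

/-!
# [A6z] Bounded functions act boundedly on the Hardy space
-/

set_option autoImplicit false

namespace Pool.Agent.CRT

open Finset MvPowerSeries MeasureTheory

/-- the constant of the comparison with a geometric series -/
theorem A6z_sum {B r ρ : ℝ} (hr0 : 0 < r) (hrρ : r < ρ) :
    Summable fun k : ℕ => B * (r / ρ) ^ k := by
  have hρ : 0 < ρ := hr0.trans hrρ
  refine Summable.mul_left _ (summable_geometric_of_lt_one (by positivity) ?_)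
  rw [div_lt_one hρ]
  exact hrρ

/-- uniform bounds for the homogeneous parts -/
theorem A6z_hp {d : ℕ} {G : E d → ℂ} {g : PS d} (h : IsTS G g) {B r ρ : ℝ} (hr0 : 0 < r)
    (hrρ : r < ρ) (hρ : ρ < 1) (hB : ∀ z : E d, ‖z‖ = ρ → ‖G z‖ ≤ B) (k : ℕ) {ζ : E d}
    (hζ : ‖ζ‖ = 1) : ‖(r : ℂ) ^ k * hp g k ζ‖ ≤ B * (r / ρ) ^ k := by
  have hρ0 : 0 < ρ := hr0.trans hrρ
  have h1 := P2h h hρ0 hρ hB k hζ
  rw [norm_mul, norm_pow, Complex.norm_real, Real.norm_of_nonneg hr0.le]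
  calc r ^ k * ‖hp g k ζ‖ ≤ r ^ k * (B / ρ ^ k) := mul_le_mul_of_nonneg_left h1 (by positivity)
    _ = B * (r / ρ) ^ k := by
        rw [div_pow]
        ring

theorem A6z_hasSum {d : ℕ} {G : E d → ℂ} {g : PS d} (h : IsTS G g) {r : ℝ} (hr0 : 0 < r)
    (hr : r < 1) {ζ : E d} (hζ : ‖ζ‖ = 1) :
    HasSum (fun k => (r : ℂ) ^ k * hp g k ζ) (G ((r : ℂ) • ζ)) := by
  have h1 : ‖(r : ℂ) • ζ‖ < 1 := by
    rw [norm_smul, hζ, mul_one, Complex.norm_real, Real.norm_of_nonneg hr0.le]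
    exact hr
  have h2 := P2s h h1
  exact h2.congr_fun fun k => mul_comm _ _

theorem A6z_cont {d : ℕ} {G : E d → ℂ} {g : PS d} (h : IsTS G g) {B r ρ : ℝ} (hr0 : 0 < r)
    (hrρ : r < ρ) (hρ : ρ < 1) (hB : ∀ z : E d, ‖z‖ = ρ → ‖G z‖ ≤ B) :
    ContinuousOn (fun ζ : E d => G ((r : ℂ) • ζ)) (Metric.sphere 0 1) := by
  have h1 : ContinuousOn (fun ζ : E d => ∑' k, (r : ℂ) ^ k * hp g k ζ) (Metric.sphere 0 1) := by
    refine continuousOn_tsum (fun k => ?_) (A6z_sum (B := B) hr0 hrρ) ?_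
    · exact ((hp_cont g k).const_mul _).continuousOn
    · intro k x hx
      exact A6z_hp h hr0 hrρ hρ hB k (by simpa using hx)
  refine h1.congr ?_
  intro ζ hζ
  exact (A6z_hasSum h hr0 (hrρ.trans hρ) (by simpa using hζ)).tsum_eq.symm

/-- the inner integral -/
theorem A6z_inner {d : ℕ} {σ : Measure (E d)} (hσ : IsSig σ) {G : E d → ℂ} {g : PS d}
    (h : IsTS G g) {B r ρ : ℝ} (hr0 : 0 < r)
    (hrρ : r < ρ) (hρ : ρ < 1) (hB : ∀ z : E d, ‖z‖ = ρ → ‖G z‖ ≤ B) (k : ℕ) :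
    ∫ ζ, hp g k ζ * (starRingEnd ℂ) (G ((r : ℂ) • ζ)) ∂σ = ((r ^ k * nk wH g k : ℝ) : ℂ) := by
  have := hσ.prob
  -- a bound for `hp g k` on the sphere
  have hcomp : IsCompact (Metric.sphere (0 : E d) 1) := isCompact_sphere _ _
  obtain ⟨D, hD⟩ := hcomp.exists_bound_of_continuousOn (hp_cont g k).continuousOn
  have hcont : ∀ j, ContinuousOn (fun ζ : E d => hp g k ζ
      * (starRingEnd ℂ) ((r : ℂ) ^ j * hp g j ζ)) (Metric.sphere 0 1) := by
    intro j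
    refine ((hp_cont g k).mul ?_).continuousOn
    exact Complex.continuous_conj.comp ((hp_cont g j).const_mul _)
  have key : HasSum (fun j => ∫ ζ, hp g k ζ * (starRingEnd ℂ) ((r : ℂ) ^ j * hp g j ζ) ∂σ)
      (∫ ζ, hp g k ζ * (starRingEnd ℂ) (G ((r : ℂ) • ζ)) ∂σ) := by
    refine hasSum_integral_of_dominated_convergence (fun j _ => D * (B * (r / ρ) ^ j))
      (fun j => (S2i hσ (hcont j)).aestronglyMeasurable) (fun j => ?_) ?_ ?_ ?_
    · filter_upwards [hσ.supp] with ζ hζ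
      rw [norm_mul, RCLike.norm_conj]
      have hDζ := hD ζ (by simpa using hζ)
      exact mul_le_mul hDζ (A6z_hp h hr0 hrρ hρ hB j hζ) (norm_nonneg _)
        ((norm_nonneg _).trans hDζ)
    · exact Filter.Eventually.of_forall fun _ => (A6z_sum hr0 hrρ).mul_left D
    · exact integrable_const _
    · filter_upwards [hσ.supp] with ζ hζ
      have h1 := A6z_hasSum h hr0 (hrρ.trans hρ) hζ
      have h2 : HasSum (fun j => (starRingEnd ℂ) ((r : ℂ) ^ j * hp g j ζ))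
          ((starRingEnd ℂ) (G ((r : ℂ) • ζ))) :=
        h1.map (starRingEnd ℂ) Complex.continuous_conj
      exact h2.mul_left _
  have hval : ∀ j, ∫ ζ, hp g k ζ * (starRingEnd ℂ) ((r : ℂ) ^ j * hp g j ζ) ∂σ
      = if j = k then ((r ^ k * nk wH g k : ℝ) : ℂ) else 0 := by
    intro j
    have e1 : (fun ζ : E d => hp g k ζ * (starRingEnd ℂ) ((r : ℂ) ^ j * hp g j ζ))
        = fun ζ => (r : ℂ) ^ j * (hp g k ζ * (starRingEnd ℂ) (hp g j ζ)) := by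
      funext ζ
      rw [map_mul, map_pow, Complex.conj_ofReal]
      ring
    rw [e1, integral_const_mul, S2a hσ g g k j]
    by_cases hkj : k = j
    · subst hkj
      rw [if_pos rfl, if_pos rfl]
      unfold nk
      push_cast
      congr 1
      refine Finset.sum_congr rfl fun α _ => ?_
      rw [Complex.mul_conj, Complex.normSq_eq_norm_sq]
      push_cast
      rfl
    · rw [if_neg hkj, if_neg (Ne.symm hkj), mul_zero]
  rw [funext hval] at key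
  exact key.unique (hasSum_ite_eq k _)

/-- Parseval -/
theorem A6z_pars {d : ℕ} {σ : Measure (E d)} (hσ : IsSig σ) {G : E d → ℂ} {g : PS d}
    (h : IsTS G g) {B r ρ : ℝ} (hr0 : 0 < r)
    (hrρ : r < ρ) (hρ : ρ < 1) (hB : ∀ z : E d, ‖z‖ = ρ → ‖G z‖ ≤ B) :
    HasSum (fun k => r ^ (2 * k) * nk wH g k) (∫ ζ, ‖G ((r : ℂ) • ζ)‖ ^ 2 ∂σ) := by
  have := hσ.prob
  have hGc := A6z_cont h hr0 hrρ hρ hB
  have hcomp : IsCompact (Metric.sphere (0 : E d) 1) := isCompact_sphere _ _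
  obtain ⟨D, hD⟩ := hcomp.exists_bound_of_continuousOn hGc
  have hcont : ∀ j, ContinuousOn (fun ζ : E d => ((r : ℂ) ^ j * hp g j ζ)
      * (starRingEnd ℂ) (G ((r : ℂ) • ζ))) (Metric.sphere 0 1) := by
    intro j
    refine ((hp_cont g j).const_mul _).continuousOn.mul ?_
    exact Complex.continuous_conj.comp_continuousOn hGc
  have key : HasSum (fun j => ∫ ζ, ((r : ℂ) ^ j * hp g j ζ) * (starRingEnd ℂ) (G ((r : ℂ) • ζ)) ∂σ)
      (∫ ζ, G ((r : ℂ) • ζ) * (starRingEnd ℂ) (G ((r : ℂ) • ζ)) ∂σ) := by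
    refine hasSum_integral_of_dominated_convergence (fun j _ => (B * (r / ρ) ^ j) * D)
      (fun j => (S2i hσ (hcont j)).aestronglyMeasurable) (fun j => ?_) ?_ ?_ ?_
    · filter_upwards [hσ.supp] with ζ hζ
      rw [norm_mul, RCLike.norm_conj]
      have hDζ := hD ζ (by simpa using hζ)
      have h1 := A6z_hp h hr0 hrρ hρ hB j hζ
      exact mul_le_mul h1 hDζ (norm_nonneg _) ((norm_nonneg _).trans h1)
    · exact Filter.Eventually.of_forall fun _ => (A6z_sum hr0 hrρ).mul_right D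
    · exact integrable_const _
    · filter_upwards [hσ.supp] with ζ hζ
      exact (A6z_hasSum h hr0 (hrρ.trans hρ) hζ).mul_right _
  have hval : ∀ j, ∫ ζ, ((r : ℂ) ^ j * hp g j ζ) * (starRingEnd ℂ) (G ((r : ℂ) • ζ)) ∂σ
      = ((r ^ (2 * j) * nk wH g j : ℝ) : ℂ) := by
    intro j
    have e1 : (fun ζ : E d => ((r : ℂ) ^ j * hp g j ζ) * (starRingEnd ℂ) (G ((r : ℂ) • ζ)))
        = fun ζ => (r : ℂ) ^ j * (hp g j ζ * (starRingEnd ℂ) (G ((r : ℂ) • ζ))) := by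
      funext ζ
      ring
    rw [e1, integral_const_mul, A6z_inner hσ h hr0 hrρ hρ hB j]
    push_cast
    ring
  have hint : ∫ ζ, G ((r : ℂ) • ζ) * (starRingEnd ℂ) (G ((r : ℂ) • ζ)) ∂σ
      = ((∫ ζ, ‖G ((r : ℂ) • ζ)‖ ^ 2 ∂σ : ℝ) : ℂ) := by
    rw [← integral_complex_ofReal]
    congr 1
    funext ζ
    rw [Complex.mul_conj, Complex.normSq_eq_norm_sq]
  rw [funext hval, hint] at key
  exact_mod_cast key

theorem A6z_fin {d : ℕ} (hd : 1 ≤ d) {m : PS d} (hm : m ∈ Hinf d) {C : ℝ}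
    (hC : ∀ z : E d, ‖z‖ < 1 → ‖ev m z‖ ≤ C) {h : PS d} (hh : h ∈ Sp (wH (d := d)))
    {r : ℝ} (hr0 : 0 < r) (hr : r < 1) (s : Finset ℕ) :
    ∑ k ∈ s, r ^ (2 * k) * nk wH (m * h) k ≤ C ^ 2 * ns wH h := by
  obtain ⟨σ, hσ⟩ := S1 hd
  have := hσ.prob
  obtain ⟨ρ, hrρ, hρ⟩ := exists_between hr
  have hρ0 : 0 < ρ := hr0.trans hrρ
  have hnn : ∀ (g : PS d) (k : ℕ), 0 ≤ nk wH g k := fun g k => nk_nonneg wH_pos g k
  have hTh : IsTS (ev h) h := P2e fun z hz => (A9 hd hh hz).1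
  have hTm : IsTS (ev m) m := P2e hm.1
  have hT : IsTS (fun z => ev m z * ev h z) (m * h) := P2b hTm hTh
  have hC0 : 0 ≤ C := (norm_nonneg _).trans (hC 0 (by rw [norm_zero]; exact one_pos))
  have htt : ∀ z : E d, ‖z‖ = ρ → tt z = 1 - ρ ^ 2 := by
    intro z hz
    unfold tt
    rw [hz]
  have hBh : ∀ z : E d, ‖z‖ = ρ → ‖ev h z‖ ≤ Real.sqrt (ns wH h) * (1 / (1 - ρ ^ 2)) ^ d := by
    intro z hz
    have := (A9 hd hh (z := z) (by rw [hz]; exact hρ)).2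
    rw [htt z hz] at this
    exact this
  have hBm : ∀ z : E d, ‖z‖ = ρ → ‖ev m z * ev h z‖
      ≤ C * (Real.sqrt (ns wH h) * (1 / (1 - ρ ^ 2)) ^ d) := by
    intro z hz
    rw [norm_mul]
    exact mul_le_mul (hC z (by rw [hz]; exact hρ)) (hBh z hz) (norm_nonneg _) hC0
  have p1 := A6z_pars hσ hT hr0 hrρ hρ hBm
  have p2 := A6z_pars hσ hTh hr0 hrρ hρ hBh
  have hle : ∫ ζ, ‖ev m ((r : ℂ) • ζ) * ev h ((r : ℂ) • ζ)‖ ^ 2 ∂σ
      ≤ ∫ ζ, C ^ 2 * ‖ev h ((r : ℂ) • ζ)‖ ^ 2 ∂σ := by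
    have i1 : Integrable (fun ζ : E d => ‖ev m ((r : ℂ) • ζ) * ev h ((r : ℂ) • ζ)‖ ^ 2) σ := by
      have hc := A6z_cont hT hr0 hrρ hρ hBm
      have hc2 : ContinuousOn (fun ζ : E d =>
          (((‖ev m ((r : ℂ) • ζ) * ev h ((r : ℂ) • ζ)‖ ^ 2 : ℝ)) : ℂ)) (Metric.sphere 0 1) :=
        Complex.continuous_ofReal.comp_continuousOn (hc.norm.pow 2)
      have := (S2i hσ hc2).re
      exact this
    have i2 : Integrable (fun ζ : E d => C ^ 2 * ‖ev h ((r : ℂ) • ζ)‖ ^ 2) σ := by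
      have hc := A6z_cont hTh hr0 hrρ hρ hBh
      have hc2 : ContinuousOn (fun ζ : E d =>
          (((‖ev h ((r : ℂ) • ζ)‖ ^ 2 : ℝ)) : ℂ)) (Metric.sphere 0 1) :=
        Complex.continuous_ofReal.comp_continuousOn (hc.norm.pow 2)
      have := (S2i hσ hc2).re
      exact this.const_mul _
    refine integral_mono_ae i1 i2 ?_
    filter_upwards [hσ.supp] with ζ hζ
    have h1 : ‖(r : ℂ) • ζ‖ < 1 := by
      rw [norm_smul, hζ, mul_one, Complex.norm_real, Real.norm_of_nonneg hr0.le]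
      exact hr
    rw [norm_mul, mul_pow]
    refine mul_le_mul_of_nonneg_right ?_ (by positivity)
    exact pow_le_pow_left₀ (norm_nonneg _) (hC _ h1) 2
  rw [integral_const_mul] at hle
  have h3 : ∑ k ∈ s, r ^ (2 * k) * nk wH (m * h) k
      ≤ ∫ ζ, ‖ev m ((r : ℂ) • ζ) * ev h ((r : ℂ) • ζ)‖ ^ 2 ∂σ :=
    sum_le_hasSum s (fun k _ => mul_nonneg (by positivity) (hnn _ k)) p1
  have h4 : ∫ ζ, ‖ev h ((r : ℂ) • ζ)‖ ^ 2 ∂σ ≤ ns wH h := by
    rw [← p2.tsum_eq, ns_eq_nk wH_pos hh]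
    refine Summable.tsum_le_tsum (fun k => ?_) p2.summable ((Sp_iff_nk wH_pos h).mp hh)
    have : r ^ (2 * k) ≤ 1 := pow_le_one₀ hr0.le hr.le
    exact mul_le_of_le_one_left (hnn _ k) this
  exact h3.trans (hle.trans (mul_le_mul_of_nonneg_left h4 (by positivity)))

/-- `Hinf` acts boundedly on `Sp wH`.

Proof.  Let `|ev m| ≤ C` on the ball.  For `F = ev m · ev h`, with Taylor series `m*h` (`P2b`, `P2e`,
`A9`), and `0<r<1`: `∫_S |F(rζ)|² dσ = ∑_k r^{2k} nk wH (m*h) k` and the same for `h`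
(`S2a` and the uniform convergence of `∑ r^k f_k(ζ)` on `S`; it is enough to have the inequality
`∑_{k≤K} r^{2k} nk wH (m*h) k ≤ ∫|F(rζ)|²` and the equality, or `≤`, for `h`).  So
`∑_{k ≤ K} r^{2k} nk wH (m*h) k ≤ C² ∑_k r^{2k} nk wH h k ≤ C² ns wH h`; let `r → 1`, then `K → ∞`. -/
theorem A7 {d : ℕ} (hd : 1 ≤ d) {m : PS d} (hm : m ∈ Hinf d) {C : ℝ}
    (hC : ∀ z : E d, ‖z‖ < 1 → ‖ev m z‖ ≤ C) {h : PS d} (hh : h ∈ Sp (wH (d := d))) :
    m * h ∈ Sp (wH (d := d)) ∧ ns wH (m * h) ≤ C ^ 2 * ns wH h := by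
  have hnn : ∀ (g : PS d) (k : ℕ), 0 ≤ nk wH g k := fun g k => nk_nonneg wH_pos g k
  have key : ∀ s : Finset ℕ, ∑ k ∈ s, nk wH (m * h) k ≤ C ^ 2 * ns wH h := by
    intro s
    have hlim : Filter.Tendsto (fun r : ℝ => ∑ k ∈ s, r ^ (2 * k) * nk wH (m * h) k)
        (nhdsWithin 1 (Set.Iio 1)) (nhds (∑ k ∈ s, (1 : ℝ) ^ (2 * k) * nk wH (m * h) k)) := by
      refine Filter.Tendsto.mono_left ?_ nhdsWithin_le_nhds
      have hc : Continuous (fun r : ℝ => ∑ k ∈ s, r ^ (2 * k) * nk wH (m * h) k) := by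
        fun_prop
      exact hc.tendsto 1
    have hev : ∀ᶠ r : ℝ in nhdsWithin 1 (Set.Iio 1),
        ∑ k ∈ s, r ^ (2 * k) * nk wH (m * h) k ≤ C ^ 2 * ns wH h := by
      have h1 : ∀ᶠ r : ℝ in nhdsWithin 1 (Set.Iio 1), r ∈ Set.Ioo (0 : ℝ) 1 :=
        Ioo_mem_nhdsLT one_pos
      filter_upwards [h1] with r hr
      exact A6z_fin hd hm hC hh hr.1 hr.2 s
    have := le_of_tendsto hlim hev
    simpa using this
  have hsum : Summable fun k => nk wH (m * h) k := summable_of_sum_le (hnn _) key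
  have hmem : m * h ∈ Sp (wH (d := d)) := (Sp_iff_nk wH_pos _).mpr hsum
  refine ⟨hmem, ?_⟩
  rw [ns_eq_nk wH_pos hmem]
  exact hsum.tsum_le_of_sum_le key

end Pool.Agent.CRT
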