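import Pool.Agent.CRT.F1
import Pool.Agent.CRT.S2

/-!
# [B1x] The rotations Rt
-/

set_option autoImplicit false

namespace Pool.Agent.CRT

open Finset MeasureTheory

theorem B1x_pp {d : ℕ} {p : E d} (hp : ‖p‖ = 1) : br p p = 1 := by
  unfold br
  rw [inner_self_eq_norm_sq_to_K, hp]
  simp

theorem B1x_pr_smul {d : ℕ} (p : E d) (c : ℂ) (z : E d) : pr p (c • z) = c • pr p z := by
  unfold pr
  rw [br_smul, smul_sub, smul_smul]

theorem B1x_pr_add {d : ℕ} (p : E d) (z w : E d) : pr p (z + w) = pr p z + pr p w := by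
  unfold pr
  rw [br_add, add_smul]
  abel

theorem B1x_br_pr {d : ℕ} {p : E d} (hp : ‖p‖ = 1) (z : E d) : br (pr p z) p = 0 := by
  have h : pr p z = z + (- br z p) • p := by
    unfold pr
    rw [neg_smul, sub_eq_add_neg]
  rw [h, br_add, br_smul, B1x_pp hp]
  ring

theorem B1x_br_Rt {d : ℕ} {p : E d} (hp : ‖p‖ = 1) (μ : ℂ) (z : E d) :
    br (Rt p μ z) p = br z p := by
  unfold Rt
  rw [br_add, br_smul, br_smul, B1x_pp hp, B1x_br_pr hp]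
  ring

theorem B1x_pr_Rt {d : ℕ} {p : E d} (hp : ‖p‖ = 1) (μ : ℂ) (z : E d) :
    pr p (Rt p μ z) = μ • pr p z := by
  have h : pr p (Rt p μ z) = Rt p μ z - br (Rt p μ z) p • p := rfl
  rw [h, B1x_br_Rt hp]
  unfold Rt
  abel

theorem B1x_Rt_smul {d : ℕ} (p : E d) (μ c : ℂ) (z : E d) :
    Rt p μ (c • z) = c • Rt p μ z := by
  unfold Rt
  rw [br_smul, B1x_pr_smul, smul_add, smul_smul, smul_smul, smul_smul, mul_comm μ c]

theorem B1x_Rt_add {d : ℕ} (p : E d) (μ : ℂ) (z w : E d) :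
    Rt p μ (z + w) = Rt p μ z + Rt p μ w := by
  unfold Rt
  rw [br_add, B1x_pr_add, add_smul, smul_add]
  abel

theorem B1x_norm {d : ℕ} {p : E d} (hp : ‖p‖ = 1) (μ : ℂ) (z : E d) :
    ‖Rt p μ z‖ ^ 2 = ‖br z p‖ ^ 2 + ‖μ‖ ^ 2 * ‖pr p z‖ ^ 2 := by
  rw [F1a hp (z := Rt p μ z), B1x_br_Rt hp, B1x_pr_Rt hp, norm_smul, mul_pow]

/-- elementary facts on `Rt p μ z = z₁p + μz'`: `<Rt p μ z, p> = z₁`, `pr p (Rt p μ z) = μ z'`,
`|Rt p μ z|² = |z₁|² + |μ|²|z'|²`, `Rt p 1 z = z`, `Rt p μ (c z) = c Rt p μ z` -/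
theorem Rt_facts {d : ℕ} {p : E d} (hp : ‖p‖ = 1) (μ c : ℂ) (z : E d) :
    br (Rt p μ z) p = br z p ∧ pr p (Rt p μ z) = μ • pr p z ∧
    ‖Rt p μ z‖ ^ 2 = ‖br z p‖ ^ 2 + ‖μ‖ ^ 2 * ‖pr p z‖ ^ 2 ∧ Rt p 1 z = z ∧
    Rt p μ (c • z) = c • Rt p μ z := by
  refine ⟨B1x_br_Rt hp μ z, B1x_pr_Rt hp μ z, B1x_norm hp μ z, ?_, B1x_Rt_smul p μ c z⟩
  unfold Rt pr
  rw [one_smul]
  abel

/-- for `|μ| = 1`, `Rt p μ` is a linear isometry equivalence -/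
theorem Rt_iso {d : ℕ} {p : E d} (hp : ‖p‖ = 1) {μ : ℂ} (hμ : ‖μ‖ = 1) :
    ∃ U : E d ≃ₗᵢ[ℂ] E d, ∀ z, U z = Rt p μ z := by
  let f : E d →ₗ[ℂ] E d :=
    { toFun := Rt p μ
      map_add' := fun z w => B1x_Rt_add p μ z w
      map_smul' := fun c z => B1x_Rt_smul p μ c z }
  let g : E d →ₗᵢ[ℂ] E d :=
    { toLinearMap := f
      norm_map' := by
        intro z
        show ‖Rt p μ z‖ = ‖z‖
        have h1 := B1x_norm hp μ z
        rw [hμ, one_pow, one_mul, ← F1a hp (z := z)] at h1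
        exact (pow_left_inj₀ (norm_nonneg _) (norm_nonneg _) two_ne_zero).1 h1 }
  exact ⟨g.toLinearIsometryEquiv rfl, fun z => rfl⟩

end Pool.Agent.CRT
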