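import Pool.Agent.CRT.F1
import Pool.Agent.CRT.S2
import Pool.Agent.CRT.B1x

/-!
# [B1y] Averaging over the rotations
-/

set_option autoImplicit false

namespace Pool.Agent.CRT

open Finset MeasureTheory

theorem B1y_cont {d : ℕ} (p : E d) (r : ℝ) : Continuous fun x : ℝ × E d =>
    Rt p (Complex.exp (x.1 * Complex.I)) ((r : ℂ) • x.2) := by
  unfold Rt pr br
  fun_prop

theorem B1y_exp (θ : ℝ) : ‖Complex.exp (θ * Complex.I)‖ = 1 := by
  rw [Complex.norm_exp_ofReal_mul_I]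

/-- invariance under the rotations -/
theorem B1y_inv {d : ℕ} {σ : Measure (E d)} (hσ : IsSig σ) {p : E d} (hp : ‖p‖ = 1)
    (G : E d → ℂ) (r : ℝ) (W : Set ℂ) (θ : ℝ) :
    ∫ ζ in {ζ : E d | br ζ p ∈ W}, G (Rt p (Complex.exp (θ * Complex.I)) ((r : ℂ) • ζ)) ∂σ =
      ∫ ζ in {ζ : E d | br ζ p ∈ W}, G ((r : ℂ) • ζ) ∂σ := by
  obtain ⟨U, hU⟩ := Rt_iso hp (B1y_exp θ)
  have h1 := (hσ.inv U).setIntegral_preimage_emb U.toHomeomorph.measurableEmbedding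
    (fun ζ => G ((r : ℂ) • ζ)) {ζ : E d | br ζ p ∈ W}
  have h2 : (fun z => U z) ⁻¹' {ζ : E d | br ζ p ∈ W} = {ζ : E d | br ζ p ∈ W} := by
    ext ζ
    simp only [Set.mem_preimage, Set.mem_ofPred_eq, hU, (Rt_facts hp _ 0 ζ).1]
  rw [h2] at h1
  rw [← h1]
  refine integral_congr_ae (Filter.Eventually.of_forall fun ζ => ?_)
  show G (Rt p (Complex.exp (θ * Complex.I)) ((r : ℂ) • ζ)) = G ((r : ℂ) • U ζ)
  rw [hU, (Rt_facts hp (Complex.exp (θ * Complex.I)) (r : ℂ) ζ).2.2.2.2]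

theorem B1y_norm {d : ℕ} {p : E d} (hp : ‖p‖ = 1) {r : ℝ} (hr0 : 0 < r) {ζ : E d} (hζ : ‖ζ‖ = 1)
    (θ : ℝ) : ‖Rt p (Complex.exp (θ * Complex.I)) ((r : ℂ) • ζ)‖ = r := by
  obtain ⟨U, hU⟩ := Rt_iso hp (B1y_exp θ)
  rw [← hU, U.norm_map, norm_smul, hζ, mul_one, Complex.norm_real, Real.norm_eq_abs, abs_of_pos hr0]

/-- Averaging.  Proof.  The set `A = {ζ : <ζ,p> ∈ W}` is invariant under `Rt p e^{iθ}`, and so is `σ`
(`hσ.inv`), so `∫_A G(rζ)dσ = ∫_A G(Rt p e^{iθ} (rζ)) dσ` for each `θ`.  Average over `θ ∈ [0,2π]` and use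
Fubini (`G` is continuous on the closed ball of radius `r`, hence bounded and jointly measurable;
`σ` is carried by `S`); then `|∫_A (avg) dσ| ≤ B₀ σ(A) ≤ B₀`. -/
theorem B1 {d : ℕ} {σ : Measure (E d)} (hσ : IsSig σ) {p : E d} (hp : ‖p‖ = 1) {G : E d → ℂ}
    (hG : ContinuousOn G (Metric.ball 0 1)) {r : ℝ} (hr0 : 0 < r) (hr : r < 1) {W : Set ℂ}
    (hW : MeasurableSet W) {B₀ : ℝ} (hB₀ : 0 ≤ B₀)
    (hb : ∀ ζ : E d, ‖ζ‖ = 1 → br ζ p ∈ W →
      ‖∫ θ in (0:ℝ)..(2 * Real.pi), G (Rt p (Complex.exp (θ * Complex.I)) ((r : ℂ) • ζ))‖ ≤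
        2 * Real.pi * B₀) :
    ‖∫ ζ in {ζ : E d | br ζ p ∈ W}, G ((r : ℂ) • ζ) ∂σ‖ ≤ B₀ := by
  classical
  have := hσ.prob
  have hA : MeasurableSet {ζ : E d | br ζ p ∈ W} := by
    have : Continuous fun ζ : E d => br ζ p := by
      unfold br
      fun_prop
    exact this.measurable hW
  -- the extension by `0`
  let G' : E d → ℂ := (Metric.ball (0 : E d) 1).piecewise G 0
  have hG'm : Measurable G' := hG.measurable_piecewise continuousOn_const Metric.isOpen_ball.measurableSet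
  have hG' : ∀ z : E d, ‖z‖ < 1 → G' z = G z := fun z hz =>
    Set.piecewise_eq_of_mem _ _ _ (by simpa using hz)
  -- the bound
  obtain ⟨C, hC⟩ : ∃ C : ℝ, ∀ z : E d, ‖z‖ ≤ r → ‖G z‖ ≤ C := by
    have hc : IsCompact (Metric.closedBall (0 : E d) r) := isCompact_closedBall 0 r
    obtain ⟨C, hC⟩ := hc.exists_bound_of_continuousOn
      (hG.mono (Metric.closedBall_subset_ball hr))
    exact ⟨C, fun z hz => hC z (by simpa using hz)⟩
  have hae : ∀ᵐ ζ ∂(σ.restrict {ζ : E d | br ζ p ∈ W}), ‖ζ‖ = 1 ∧ br ζ p ∈ W := by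
    rw [ae_restrict_iff' hA]
    filter_upwards [hσ.supp] with ζ h1 h2
    exact ⟨h1, h2⟩
  have hrζ : ∀ ζ : E d, ‖ζ‖ = 1 → ‖(r : ℂ) • ζ‖ = r := by
    intro ζ hζ
    rw [norm_smul, hζ, mul_one, Complex.norm_real, Real.norm_eq_abs, abs_of_pos hr0]
  have e1 : ∫ ζ in {ζ : E d | br ζ p ∈ W}, G ((r : ℂ) • ζ) ∂σ =
      ∫ ζ in {ζ : E d | br ζ p ∈ W}, G' ((r : ℂ) • ζ) ∂σ := by
    refine integral_congr_ae ?_
    filter_upwards [hae] with ζ hζ
    rw [hG' _ (by rw [hrζ ζ hζ.1]; exact hr)]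
  -- Fubini
  set ν := σ.restrict {ζ : E d | br ζ p ∈ W} with hν
  let F : ℝ → E d → ℂ := fun θ ζ => G' (Rt p (Complex.exp (θ * Complex.I)) ((r : ℂ) • ζ))
  have hFm : Measurable (Function.uncurry F) := hG'm.comp (B1y_cont p r).measurable
  have hFint : Integrable (Function.uncurry F) ((volume.restrict (Set.Ioc 0 (2 * Real.pi))).prod ν) := by
    refine Integrable.of_bound hFm.aestronglyMeasurable C ?_
    have h1 : ∀ᵐ x ∂((volume.restrict (Set.Ioc 0 (2 * Real.pi))).prod ν), ‖x.2‖ = 1 := by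
      have := (Measure.quasiMeasurePreserving_snd (μ := volume.restrict (Set.Ioc 0 (2 * Real.pi)))
        (ν := ν)).ae (p := fun ζ => ‖ζ‖ = 1) (hae.mono fun ζ h => h.1)
      exact this
    filter_upwards [h1] with x hx
    have h2 := B1y_norm hp hr0 hx x.1
    show ‖G' (Rt p (Complex.exp (x.1 * Complex.I)) ((r : ℂ) • x.2))‖ ≤ C
    rw [hG' _ (by rw [h2]; exact hr)]
    exact hC _ h2.le
  have hswap := integral_integral_swap hFint
  have hpi : 0 < 2 * Real.pi := by positivity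
  have e2 : ∫ θ in Set.Ioc 0 (2 * Real.pi), ∫ ζ, F θ ζ ∂ν =
      (2 * Real.pi : ℝ) • ∫ ζ in {ζ : E d | br ζ p ∈ W}, G' ((r : ℂ) • ζ) ∂σ := by
    have h1 : ∀ θ : ℝ, ∫ ζ, F θ ζ ∂ν = ∫ ζ in {ζ : E d | br ζ p ∈ W}, G' ((r : ℂ) • ζ) ∂σ :=
      fun θ => B1y_inv hσ hp G' r W θ
    simp only [h1]
    rw [integral_const]
    congr 1
    simp [Measure.real, Real.pi_pos.le]
  rw [e2] at hswap
  have e3 : ‖∫ ζ, (∫ θ in Set.Ioc 0 (2 * Real.pi), F θ ζ) ∂ν‖ ≤ 2 * Real.pi * B₀ * ν.real Set.univ := by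
    apply norm_integral_le_of_norm_le_const
    filter_upwards [hae] with ζ hζ
    have h1 := hb ζ hζ.1 hζ.2
    rw [intervalIntegral.integral_of_le hpi.le] at h1
    have h2 : ∫ θ in Set.Ioc 0 (2 * Real.pi), F θ ζ =
        ∫ θ in Set.Ioc 0 (2 * Real.pi), G (Rt p (Complex.exp (θ * Complex.I)) ((r : ℂ) • ζ)) := by
      refine integral_congr_ae (Filter.Eventually.of_forall fun θ => ?_)
      exact hG' _ (by rw [B1y_norm hp hr0 hζ.1]; exact hr)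
    rw [h2]
    exact h1
  have hν1 : ν.real Set.univ ≤ 1 := by
    rw [hν, Measure.real, Measure.restrict_apply MeasurableSet.univ, Set.univ_inter]
    exact measureReal_le_one
  rw [← hswap, norm_smul, Real.norm_eq_abs, abs_of_pos hpi] at e3
  rw [e1]
  have h4 : 2 * Real.pi * B₀ * ν.real Set.univ ≤ 2 * Real.pi * B₀ := by
    have : 2 * Real.pi * B₀ * ν.real Set.univ ≤ 2 * Real.pi * B₀ * 1 := by gcongr
    linarith
  exact le_of_mul_le_mul_left (e3.trans h4) hpi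

end Pool.Agent.CRT
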