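import Pool.Agent.CRT.M2

/-!
# [M3] Lemma N: the functions `G_N e^{-U} F` and their radial derivatives
-/

set_option autoImplicit false

namespace Pool.Agent.CRT

open Finset

/-- the radius and the numerical inequality -/
theorem M3_num {ρ r CU : ℝ} (hρ : 0 < ρ) (hρ1 : ρ ≤ 1) (hr : 0 < r) (hr2 : r ≤ 2) (hCU : 0 ≤ CU) :
    ∃ σ : ℝ, 0 < σ ∧ σ < ρ ∧ σ < r / 32 ∧ CU * σ / r ^ 2 ≤ 1 ∧
      r ^ 2 / σ ≤ 128 * (1 + CU) * (1 / ρ) := by
  have h1 : 0 < 1 + CU := by linarith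
  refine ⟨min (ρ / 2) (min (r / 64) (r ^ 2 / (64 * (1 + CU)))), ?_, ?_, ?_, ?_, ?_⟩
  · refine lt_min (by positivity) (lt_min (by positivity) (by positivity))
  · exact (min_le_left _ _).trans_lt (by linarith)
  · exact ((min_le_right _ _).trans (min_le_left _ _)).trans_lt (by linarith)
  · have h2 : min (ρ / 2) (min (r / 64) (r ^ 2 / (64 * (1 + CU)))) ≤ r ^ 2 / (64 * (1 + CU)) :=
      (min_le_right _ _).trans (min_le_right _ _)
    have h3 : CU * min (ρ / 2) (min (r / 64) (r ^ 2 / (64 * (1 + CU))))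
        ≤ CU * (r ^ 2 / (64 * (1 + CU))) := mul_le_mul_of_nonneg_left h2 hCU
    rw [div_le_one (by positivity)]
    refine h3.trans ?_
    rw [mul_div_assoc', div_le_iff₀ (by positivity)]
    have : 0 < r ^ 2 := by positivity
    nlinarith
  · have hσ : 0 < min (ρ / 2) (min (r / 64) (r ^ 2 / (64 * (1 + CU)))) :=
      lt_min (by positivity) (lt_min (by positivity) (by positivity))
    rw [div_le_iff₀ hσ]
    have h4 : r ^ 2 ≤ 4 := by nlinarith
    have hr0 : 0 < r ^ 2 := by positivity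
    have e : 128 * (1 + CU) * (1 / ρ) * min (ρ / 2) (min (r / 64) (r ^ 2 / (64 * (1 + CU))))
        = min (128 * (1 + CU) * (1 / ρ) * (ρ / 2)) (min (128 * (1 + CU) * (1 / ρ) * (r / 64))
          (128 * (1 + CU) * (1 / ρ) * (r ^ 2 / (64 * (1 + CU))))) := by
      rw [mul_min_of_nonneg _ _ (by positivity), mul_min_of_nonneg _ _ (by positivity)]
    have hρi : 1 ≤ 1 / ρ := by rw [le_div_iff₀ hρ]; linarith
    rw [e]
    refine le_min ?_ (le_min ?_ ?_)
    · have : 128 * (1 + CU) * (1 / ρ) * (ρ / 2) = 64 * (1 + CU) := by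
        field_simp
        norm_num
      rw [this]
      nlinarith
    · have h5 : 128 * (1 + CU) * 1 * (r / 64) ≤ 128 * (1 + CU) * (1 / ρ) * (r / 64) := by
        refine mul_le_mul_of_nonneg_right ?_ (by positivity)
        exact mul_le_mul_of_nonneg_left hρi (by positivity)
      refine le_trans ?_ h5
      nlinarith
    · have h5 : 128 * (1 + CU) * 1 * (r ^ 2 / (64 * (1 + CU)))
          ≤ 128 * (1 + CU) * (1 / ρ) * (r ^ 2 / (64 * (1 + CU))) := by
        refine mul_le_mul_of_nonneg_right ?_ (by positivity)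
        exact mul_le_mul_of_nonneg_left hρi (by positivity)
      refine le_trans ?_ h5
      have : 128 * (1 + CU) * 1 * (r ^ 2 / (64 * (1 + CU))) = 2 * r ^ 2 := by
        field_simp
        norm_num
      rw [this]
      linarith

/-- Lemma N.

Proof.  Put `r = r_N(z)`, `σ = min(ρ/2, r/64, r²/(64(1+CU)))`.  For `|τ| ≤ σ`, `z̃ = e^τ z`:
`|G_N(z̃)| ≤ C₁ r^{2s}` (`M2`), `|e^{-U(z̃)}| = e^{-Re U(z̃)} ≤ e^{-Re U(z)} e^{|U(z̃)-U(z)|} ≤ e · e^{-Re U(z)}`,
`|F(z̃)| ≤ e |F(z)|`.  So `φ(τ) = G_N(z̃)e^{-U(z̃)}F(z̃)` is differentiable on the disc of radius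
`min(ρ, r/32) > σ` about `0` and
`|φ| ≤ e² C₁ r^{2s} e^{-Re U(z)}|F(z)|` for `|τ| ≤ σ`.  Cauchy's estimate
(`Complex.norm_iteratedDeriv_le_of_forall_mem_sphere_norm_le`):
`|N^sφ(0)| ≤ s! σ^{-s} e² C₁ r^{2s} e^{-Re U}|F(z)|`, and
`σ^{-s} r^{2s} ≤ ((2/ρ)^s + (64/r)^s + (64(1+CU)/r²)^s) r^{2s} ≤ C₂(1+ρ^{-s})` since `r ≤ T ≤ 2`.
The first bound is the case `τ = 0`. -/
theorem M3 {d : ℕ} (s : ℕ) {CU : ℝ} (hCU : 0 ≤ CU) : ∃ C : ℝ, 0 < C ∧
    ∀ (p : E d) (ζ : ℕ → E d), Seq8 p ζ → ∀ (N : ℕ) (U F : E d → ℂ) (z : E d), ‖z‖ < 1 →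
    ∀ ρ : ℝ, 0 < ρ → ρ ≤ 1 →
    (∀ τ : ℂ, ‖τ‖ ≤ rN p ζ N z / 32 →
      ‖U (Complex.exp τ • z) - U z‖ ≤ CU * ‖τ‖ / (rN p ζ N z) ^ 2) →
    (∀ τ : ℂ, ‖τ‖ ≤ ρ → ‖τ‖ ≤ rN p ζ N z / 32 →
      ‖F (Complex.exp τ • z)‖ ≤ Real.exp 1 * ‖F z‖) →
    DifferentiableOn ℂ (fun τ : ℂ => U (Complex.exp τ • z)) (Metric.ball 0 (rN p ζ N z / 32)) →
    DifferentiableOn ℂ (fun τ : ℂ => F (Complex.exp τ • z))
      (Metric.ball 0 (min ρ (rN p ζ N z / 32))) →
    ‖Gf p ζ s N z * Complex.exp (-U z) * F z‖ ≤ C * Real.exp (-(U z).re) * ‖F z‖ ∧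
    ‖Nd s (fun x => Gf p ζ s N x * Complex.exp (-U x) * F x) z‖ ≤
      C * (1 + (1 / ρ) ^ s) * Real.exp (-(U z).re) * ‖F z‖ := by
  obtain ⟨C₁, hC₁, hM⟩ := M2 (d := d) s
  refine ⟨C₁ * (4 ^ s + (s.factorial : ℝ) * Real.exp 2 * (128 * (1 + CU)) ^ s), by positivity, ?_⟩
  intro p ζ h N U F z hz ρ hρ hρ1 hU hF hUd hFd
  obtain ⟨hr0, hrT, hrl, hr⟩ := M1r h hz N
  obtain ⟨-, -, -, hT0, hT2, -, -⟩ := F1b h.hp hz
  set r := rN p ζ N z with hrdef
  have hr2 : r ≤ 2 := hrT.trans hT2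
  have hE : ∀ x : E d, ‖Complex.exp (-U x)‖ = Real.exp (-(U x).re) := by
    intro x
    rw [Complex.norm_exp, Complex.neg_re]
  have hpos : 0 < Real.exp (-(U z).re) := Real.exp_pos _
  have hFn : 0 ≤ ‖F z‖ := norm_nonneg _
  have hfac : (0 : ℝ) < (s.factorial : ℝ) := by exact_mod_cast s.factorial_pos
  constructor
  · have hG : ‖Gf p ζ s N z‖ ≤ C₁ * 4 ^ s := by
      have := hM p ζ h N z hz 0 (by rw [norm_zero]; positivity)
      rw [Complex.exp_zero, one_smul] at this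
      refine this.trans (mul_le_mul_of_nonneg_left ?_ hC₁.le)
      rw [pow_mul]
      exact pow_le_pow_left₀ (by positivity) (by nlinarith) s
    rw [norm_mul, norm_mul, hE]
    refine mul_le_mul_of_nonneg_right ?_ hFn
    refine mul_le_mul_of_nonneg_right (hG.trans ?_) hpos.le
    refine mul_le_mul_of_nonneg_left ?_ hC₁.le
    have : 0 ≤ (s.factorial : ℝ) * Real.exp 2 * (128 * (1 + CU)) ^ s := by positivity
    linarith
  · obtain ⟨σ, hσ0, hσρ, hσr, hσU, hσ⟩ := M3_num hρ hρ1 hr0 hr2 hCU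
    have hlt : σ < min ρ (r / 32) := lt_min hσρ hσr
    have hsub : Metric.closedBall (0 : ℂ) σ ⊆ Metric.ball 0 (min ρ (r / 32)) :=
      Metric.closedBall_subset_ball hlt
    have hd : DifferentiableOn ℂ (fun τ : ℂ => Gf p ζ s N (Complex.exp τ • z)
        * Complex.exp (-U (Complex.exp τ • z)) * F (Complex.exp τ • z))
        (Metric.ball 0 (min ρ (r / 32))) := by
      refine DifferentiableOn.mul (DifferentiableOn.mul ?_ ?_) hFd
      · refine (M2d h s N hz).mono (Metric.ball_subset_ball ?_)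
        refine (min_le_right _ _).trans ?_
        linarith
      · refine DifferentiableOn.cexp ?_
        refine DifferentiableOn.neg ?_
        exact hUd.mono (Metric.ball_subset_ball (min_le_right _ _))
    have hdc : DiffContOnCl ℂ (fun τ : ℂ => Gf p ζ s N (Complex.exp τ • z)
        * Complex.exp (-U (Complex.exp τ • z)) * F (Complex.exp τ • z)) (Metric.ball 0 σ) := by
      refine DifferentiableOn.diffContOnCl ?_
      rw [closure_ball _ hσ0.ne']
      exact hd.mono hsub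
    have hb : ∀ τ ∈ Metric.sphere (0 : ℂ) σ, ‖Gf p ζ s N (Complex.exp τ • z)
        * Complex.exp (-U (Complex.exp τ • z)) * F (Complex.exp τ • z)‖
        ≤ C₁ * r ^ (2 * s) * (Real.exp 1 * Real.exp (-(U z).re)) * (Real.exp 1 * ‖F z‖) := by
      intro τ hτ
      have hτn : ‖τ‖ = σ := by simpa using hτ
      have h1 := hM p ζ h N z hz τ (by rw [hτn]; linarith)
      have h2 := hF τ (by rw [hτn]; exact hσρ.le) (by rw [hτn]; exact hσr.le)
      have h3 := hU τ (by rw [hτn]; exact hσr.le)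
      rw [hτn] at h3
      have h4 : ‖U (Complex.exp τ • z) - U z‖ ≤ 1 := h3.trans hσU
      have h5 : (U z).re - (U (Complex.exp τ • z)).re ≤ 1 := by
        have := (Complex.abs_re_le_norm (U (Complex.exp τ • z) - U z)).trans h4
        rw [Complex.sub_re] at this
        have := (abs_le.mp this).1
        linarith
      have h6 : ‖Complex.exp (-U (Complex.exp τ • z))‖
          ≤ Real.exp 1 * Real.exp (-(U z).re) := by
        rw [hE, ← Real.exp_add]
        exact Real.exp_le_exp.mpr (by linarith)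
      rw [norm_mul, norm_mul]
      refine mul_le_mul (mul_le_mul h1 h6 (norm_nonneg _) (by positivity)) h2 (norm_nonneg _)
        (by positivity)
    have hc := Complex.norm_iteratedDeriv_le_of_forall_mem_sphere_norm_le s hσ0 hdc hb
    unfold Nd
    refine hc.trans ?_
    have hpow : (r ^ 2 / σ) ^ s ≤ (128 * (1 + CU)) ^ s * (1 / ρ) ^ s := by
      rw [← mul_pow]
      exact pow_le_pow_left₀ (by positivity) hσ s
    have e1 : (s.factorial : ℝ) * (C₁ * r ^ (2 * s) * (Real.exp 1 * Real.exp (-(U z).re))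
        * (Real.exp 1 * ‖F z‖)) / σ ^ s
        = (s.factorial : ℝ) * C₁ * Real.exp 2 * Real.exp (-(U z).re) * ‖F z‖
          * (r ^ 2 / σ) ^ s := by
      rw [div_pow, pow_mul]
      have : Real.exp 2 = Real.exp 1 * Real.exp 1 := by
        rw [← Real.exp_add]
        norm_num
      rw [this]
      ring
    rw [e1]
    have hq : 0 ≤ (s.factorial : ℝ) * C₁ * Real.exp 2 * Real.exp (-(U z).re) * ‖F z‖ := by
      positivity
    refine (mul_le_mul_of_nonneg_left hpow hq).trans ?_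
    have hρs : 0 ≤ (1 / ρ) ^ s := by positivity
    have e2 : (s.factorial : ℝ) * C₁ * Real.exp 2 * Real.exp (-(U z).re) * ‖F z‖
        * ((128 * (1 + CU)) ^ s * (1 / ρ) ^ s)
        = (C₁ * ((s.factorial : ℝ) * Real.exp 2 * (128 * (1 + CU)) ^ s)) * (1 / ρ) ^ s
          * Real.exp (-(U z).re) * ‖F z‖ := by ring
    rw [e2]
    refine mul_le_mul_of_nonneg_right ?_ hFn
    refine mul_le_mul_of_nonneg_right ?_ hpos.le
    refine mul_le_mul ?_ (by linarith) hρs (by positivity)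
    refine mul_le_mul_of_nonneg_left ?_ hC₁.le
    have : (0 : ℝ) ≤ 4 ^ s := by positivity
    linarith

end Pool.Agent.CRT
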