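import Pool.Agent.CRT.M1

/-!
# [M4a] Extraction of sequences `Seq8`
-/

set_option autoImplicit false

namespace Pool.Agent.CRT

open Finset

/-- `T_p(z) ≤ |z-p|` -/
theorem M4a_TT {d : ℕ} {p : E d} (hp : ‖p‖ = 1) (z : E d) : TT p z ≤ ‖z - p‖ := by
  have h1 : lam p z = br (p - z) p := by
    unfold lam br
    rw [inner_sub_right, inner_self_eq_norm_sq_to_K, hp]
    simp
  unfold TT
  rw [h1]
  have h2 := br_le (p - z) p
  rw [hp, mul_one, norm_sub_rev] at h2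
  exact h2

/-- If for every `i` and `δ > 0` there is a point `z` of the ball with `T_p(z) < δ` and the property
`W i z`, then there is a `Seq8` sequence with `W i (ζ i)`. -/
theorem M4a2_aux {d : ℕ} {p : E d} (hp : ‖p‖ = 1) {W : ℕ → E d → Prop}
    (h : ∀ i, ∀ δ : ℝ, 0 < δ → ∃ z : E d, ‖z‖ < 1 ∧ TT p z < δ ∧ W i z) :
    ∃ ζ : ℕ → E d, Seq8 p ζ ∧ ∀ i, W i (ζ i) := by
  have hstep : ∀ (i : ℕ) (x : {z : E d // ‖z‖ < 1}), ∃ y : {z : E d // ‖z‖ < 1},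
      TT p y.1 ≤ TT p x.1 / 8 ∧ W i y.1 := by
    intro i x
    have h0 := (F1b (p := p) hp x.2).2.2.2.1
    obtain ⟨z, hz, h1, h2⟩ := h i (TT p x.1 / 8) (by positivity)
    exact ⟨⟨z, hz⟩, h1.le, h2⟩
  choose g hg1 hg2 using hstep
  obtain ⟨z0, hz0, h01, h02⟩ := h 0 (1 / 8) (by norm_num)
  let F : ℕ → {z : E d // ‖z‖ < 1} := fun n => Nat.rec ⟨z0, hz0⟩ (fun n x => g (n + 1) x) n
  refine ⟨fun n => (F n).1, ⟨hp, fun i => (F i).2, h01.le, fun i => hg1 (i + 1) (F i)⟩, ?_⟩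
  intro i
  cases i with
  | zero => exact h02
  | succ n => exact hg2 (n + 1) (F n)

/-- the accumulation point on the sphere -/
theorem M4a1_aux {d : ℕ} {Q : E d → ℝ} (h1 : ∀ R : ℝ, ∃ z : E d, ‖z‖ < 1 ∧ R ≤ Q z)
    (h2 : ∀ r : ℝ, r < 1 → ∃ R : ℝ, ∀ z : E d, ‖z‖ ≤ r → Q z ≤ R) :
    ∃ p : E d, ‖p‖ = 1 ∧ ∀ (ε : ℝ), 0 < ε → ∀ R : ℝ, ∃ z : E d, ‖z‖ < 1 ∧ ‖z - p‖ < ε ∧ R ≤ Q z := by
  have h3 : ∀ n : ℕ, ∃ z : E d, ‖z‖ < 1 ∧ (n : ℝ) ≤ Q z := fun n => h1 n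
  choose x hx1 hx2 using h3
  have hc : IsCompact (Metric.closedBall (0 : E d) 1) := isCompact_closedBall 0 1
  obtain ⟨a, ha, φ, hφ, hlim⟩ := hc.tendsto_subseq (x := x) (fun n => by
    rw [Metric.mem_closedBall, dist_zero_right]
    exact (hx1 n).le)
  rw [Metric.mem_closedBall, dist_zero_right] at ha
  have hφge : ∀ n : ℕ, (n : ℝ) ≤ Q (x (φ n)) := by
    intro n
    have h4 : n ≤ φ n := hφ.le_apply
    have h5 : (n : ℝ) ≤ (φ n : ℝ) := by exact_mod_cast h4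
    exact h5.trans (hx2 (φ n))
  have hnorm : Filter.Tendsto (fun n => ‖x (φ n)‖) Filter.atTop (nhds ‖a‖) := hlim.norm
  refine ⟨a, ?_, ?_⟩
  · by_contra hne
    have hlt : ‖a‖ < 1 := lt_of_le_of_ne ha hne
    obtain ⟨R, hR⟩ := h2 ((‖a‖ + 1) / 2) (by linarith)
    have h4 : ∀ᶠ n in Filter.atTop, ‖x (φ n)‖ < (‖a‖ + 1) / 2 :=
      hnorm.eventually (gt_mem_nhds (by linarith))
    obtain ⟨n0, hn0⟩ := Filter.eventually_atTop.1 h4
    obtain ⟨m, hm⟩ := exists_nat_gt R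
    have h5 := hR _ (hn0 (max n0 m) (le_max_left _ _)).le
    have h6 := hφge (max n0 m)
    have h7 : (m : ℝ) ≤ ((max n0 m : ℕ) : ℝ) := by exact_mod_cast le_max_right n0 m
    linarith
  · intro ε hε R
    have h4 : ∀ᶠ n in Filter.atTop, dist (x (φ n)) a < ε :=
      hlim.eventually (Metric.ball_mem_nhds a hε)
    obtain ⟨n0, hn0⟩ := Filter.eventually_atTop.1 h4
    obtain ⟨m, hm⟩ := exists_nat_gt R
    refine ⟨x (φ (max n0 m)), hx1 _, ?_, ?_⟩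
    · have := hn0 (max n0 m) (le_max_left _ _)
      rwa [dist_eq_norm] at this
    · have h6 := hφge (max n0 m)
      have h7 : (m : ℝ) ≤ ((max n0 m : ℕ) : ℝ) := by exact_mod_cast le_max_right n0 m
      linarith

/-- If each `Q i` is unbounded on the ball but bounded on every smaller ball, then there are a point
`p ∈ S`, indices `n_i ≥ i` and a `Seq8` sequence `ζ_i` with `i ≤ Q (n_i) (ζ_i)`.

Proof.  For each `i` there are `x_j` in the ball with `Q i x_j → ∞`; `|x_j| → 1` because `Q i` is bounded on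
smaller balls; by compactness of the closed ball a subsequence converges to a point `p_i ∈ S`.  So:
(*) for all `ε > 0` and `R` there is `x` in the ball with `|x-p_i| < ε`, `Q i x ≥ R`.
By compactness of `S` there are `i_0 < i_1 < …` with `p_{i_j} → p ∈ S`.  Choose `ζ_j` inductively: let
`ε_j = min(1/8, T_p(ζ_{j-1})/8)` (`> 0` since `|ζ_{j-1}| < 1`, and `ε_0 = 1/8`); choose `n = i_l` with `l ≥ j`
so large that `|p_n - p| < ε_j/2` and then `ζ_j` in the ball with `|ζ_j - p_n| < ε_j/2`,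
`Q n ζ_j ≥ j`.  Then
`T_p(ζ_j) = |<p - ζ_j, p>| ≤ |p-ζ_j| < ε_j`. -/
theorem M4a1 {d : ℕ} {Q : ℕ → E d → ℝ} (h1 : ∀ i, ∀ R : ℝ, ∃ z : E d, ‖z‖ < 1 ∧ R ≤ Q i z)
    (h2 : ∀ i, ∀ r : ℝ, r < 1 → ∃ R : ℝ, ∀ z : E d, ‖z‖ ≤ r → Q i z ≤ R) :
    ∃ (p : E d) (ζ : ℕ → E d) (n : ℕ → ℕ), Seq8 p ζ ∧ (∀ i, i ≤ n i) ∧
      ∀ i : ℕ, (i : ℝ) ≤ Q (n i) (ζ i) := by
  have h3 : ∀ i, ∃ p : E d, ‖p‖ = 1 ∧ ∀ (ε : ℝ), 0 < ε → ∀ R : ℝ,
      ∃ z : E d, ‖z‖ < 1 ∧ ‖z - p‖ < ε ∧ R ≤ Q i z := fun i => M4a1_aux (h1 i) (h2 i)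
  choose P hP1 hP2 using h3
  have hc : IsCompact (Metric.sphere (0 : E d) 1) := isCompact_sphere 0 1
  obtain ⟨p, hp, φ, hφ, hlim⟩ := hc.tendsto_subseq (x := P) (fun n => by
    rw [mem_sphere_iff_norm, sub_zero]
    exact hP1 n)
  rw [mem_sphere_iff_norm, sub_zero] at hp
  obtain ⟨ζ, hζ, hW⟩ := M4a2_aux hp (W := fun i z => ∃ n : ℕ, i ≤ n ∧ (i : ℝ) ≤ Q n z) (by
    intro i δ hδ
    have h4 : ∀ᶠ n in Filter.atTop, dist (P (φ n)) p < δ / 2 :=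
      hlim.eventually (Metric.ball_mem_nhds p (by positivity))
    obtain ⟨n0, hn0⟩ := Filter.eventually_atTop.1 h4
    obtain ⟨z, hz1, hz2, hz3⟩ := hP2 (φ (max n0 i)) (δ / 2) (by positivity) i
    refine ⟨z, hz1, ?_, φ (max n0 i), (le_max_right n0 i).trans hφ.le_apply, hz3⟩
    have h5 := hn0 (max n0 i) (le_max_left _ _)
    rw [dist_eq_norm] at h5
    calc TT p z ≤ ‖z - p‖ := M4a_TT hp z
      _ = ‖(z - P (φ (max n0 i))) + (P (φ (max n0 i)) - p)‖ := by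
          congr 1
          abel
      _ ≤ ‖z - P (φ (max n0 i))‖ + ‖P (φ (max n0 i)) - p‖ := norm_add_le _ _
      _ < δ := by linarith)
  choose n hn1 hn2 using hW
  exact ⟨p, ζ, n, hζ, hn1, hn2⟩

/-- If for every `i` and `δ > 0` there is a point `z` of the ball with `T_p(z) < δ` and the property
`W i z`, then there is a `Seq8` sequence with `W i (ζ i)`. -/
theorem M4a2 {d : ℕ} {p : E d} (hp : ‖p‖ = 1) {W : ℕ → E d → Prop}
    (h : ∀ i, ∀ δ : ℝ, 0 < δ → ∃ z : E d, ‖z‖ < 1 ∧ TT p z < δ ∧ W i z) :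
    ∃ ζ : ℕ → E d, Seq8 p ζ ∧ ∀ i, W i (ζ i) :=
  M4a2_aux hp h

end Pool.Agent.CRT
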