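import Pool.Agent.CRT.P2

/-!
# [P4x] Test functions g(<z,zeta>)
-/

set_option autoImplicit false

namespace Pool.Agent.CRT

open Finset MvPowerSeries

theorem P4x_summable {φ : ℕ → ℂ} {g : ℂ → ℂ}
    (hg : ∀ x : ℂ, ‖x‖ < 1 → HasSum (fun k => φ k * x ^ k) (g x)) {r : ℝ} (h0 : 0 ≤ r) (h1 : r < 1) :
    Summable fun k => ‖φ k‖ * r ^ k := by
  have h2 := (hg (r : ℂ) (by rwa [Complex.norm_real, Real.norm_of_nonneg h0])).summable.norm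
  refine h2.congr fun k => ?_
  rw [norm_mul, norm_pow, Complex.norm_real, Real.norm_of_nonneg h0]

theorem P4x_sq {a : ℕ → ℝ} (h0 : ∀ k, 0 ≤ a k) (h : Summable a) : Summable fun k => a k ^ 2 := by
  refine Summable.of_nonneg_of_le (fun k => sq_nonneg _) (fun k => ?_) (h.mul_left (∑' k, a k))
  have h1 : a k ≤ ∑' k, a k := h.le_tsum k fun j _ => h0 j
  have h2 := mul_le_mul_of_nonneg_right h1 (h0 k)
  rw [sq]
  exact h2

/-- the Taylor coefficients of `g(<z,ζ>)` -/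
noncomputable def P4x_e {d : ℕ} (φ : ℕ → ℂ) (ζ : E d) : PS d :=
  mkP fun α => φ α.degree * (starRingEnd ℂ) (mono ζ α) / (wD α : ℂ)

theorem P4x_coeff {d : ℕ} (φ : ℕ → ℂ) (ζ : E d) (α : MI d) :
    coeff α (P4x_e φ ζ) = φ α.degree * (starRingEnd ℂ) (mono ζ α) / (wD α : ℂ) := rfl

theorem P4x_nk {d : ℕ} (φ : ℕ → ℂ) (ζ : E d) (k : ℕ) :
    nk wD (P4x_e φ ζ) k = (‖φ k‖ * ‖ζ‖ ^ k) ^ 2 := by
  unfold nk
  have h1 : (‖φ k‖ * ‖ζ‖ ^ k) ^ 2 = ‖φ k‖ ^ 2 * ‖ζ‖ ^ (2 * k) := by ring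
  rw [h1, ← A1b, Finset.mul_sum]
  refine Finset.sum_congr rfl fun α hα => ?_
  have hw : 0 < wD α := wD_pos α
  rw [P4x_coeff, mem_A.1 hα, norm_div, norm_mul, RCLike.norm_conj, Complex.norm_real,
    Real.norm_of_nonneg hw.le]
  field_simp

theorem P4x_hp {d : ℕ} (φ : ℕ → ℂ) (ζ z : E d) (k : ℕ) :
    ∑ α ∈ A d k, coeff α (P4x_e φ ζ) * mono z α = φ k * br z ζ ^ k := by
  rw [← A1a, Finset.mul_sum]
  refine Finset.sum_congr rfl fun α hα => ?_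
  rw [P4x_coeff, mem_A.1 hα]
  ring

theorem P4x_ip {d : ℕ} (φ : ℕ → ℂ) (ζ : E d) (f : PS d) (k : ℕ) :
    ∑ α ∈ A d k, coeff α (P4x_e φ ζ) * (starRingEnd ℂ) (coeff α f) * (wD α : ℂ) =
      φ k * (starRingEnd ℂ) (hp f k ζ) := by
  unfold hp
  rw [map_sum, Finset.mul_sum]
  refine Finset.sum_congr rfl fun α hα => ?_
  have hw : (wD α : ℂ) ≠ 0 := by
    have := wD_pos α
    exact_mod_cast this.ne'
  rw [P4x_coeff, mem_A.1 hα, map_mul]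
  field_simp

/-- Let `g(x) = ∑ φ_k x^k` for `|x| < 1` and `|ζ| < 1`.  Then `z ↦ g(<z,ζ>)` has the Taylor series
`e = ∑_k φ_k <z,ζ>^k`, i.e. (by `A1a`) `e_α = φ_{|α|} conj(ζ^α)/wD(α)`, it is in `H²_d`, and
`<e,f>_D = ∑_k φ_k conj(f_k(ζ))`.

Proof.  `nk wD e k = |φ_k|² ∑ |ζ^α|²/wD α = |φ_k|²|ζ|^{2k}` (`A1b`); `∑_k |φ_k| |ζ|^k < ∞`.
For `IsTS`: `∑_{|α|=k} |e_α z^α| ≤ |φ_k| ∑ |ζ^α||z^α|/wD α ≤ |φ_k||ζ|^k|z|^k` by Cauchy–Schwarz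
(`A2a`), and `∑_{|α|=k} e_α z^α = φ_k <z,ζ>^k` (`A1a`).
For the pairing: `∑_{|α|=k} e_α conj(f_α) wD α = φ_k ∑ conj(f_α ζ^α) = φ_k conj(f_k(ζ))`, and the sum
over `α` converges absolutely (`ip_summable`), so it can be summed by degrees. -/
theorem P4 {d : ℕ} {φ : ℕ → ℂ} {g : ℂ → ℂ}
    (hg : ∀ x : ℂ, ‖x‖ < 1 → HasSum (fun k => φ k * x ^ k) (g x)) {ζ : E d} (hζ : ‖ζ‖ < 1)
    {f : PS d} (hf : f ∈ Sp (wD (d := d))) :
    ∃ e : PS d, e ∈ Sp (wD (d := d)) ∧ IsTS (fun z => g (br z ζ)) e ∧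
      HasSum (fun k => φ k * (starRingEnd ℂ) (hp f k ζ)) (ip wD e f) := by
  have hSp : P4x_e φ ζ ∈ Sp (wD (d := d)) := by
    rw [Sp_iff_nk wD_pos]
    refine (P4x_sq (fun k => ?_) (P4x_summable hg (norm_nonneg ζ) hζ)).congr fun k => ?_
    · positivity
    · exact (P4x_nk φ ζ k).symm
  refine ⟨P4x_e φ ζ, hSp, ?_, ?_⟩
  · intro z hz
    have hs : Summable fun α => ‖coeff α (P4x_e φ ζ) * mono z α‖ := by
      rw [A0a_summable_iff fun α => norm_nonneg _]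
      have hr : ‖ζ‖ * ‖z‖ < 1 := by
        have h1 : ‖ζ‖ * ‖z‖ ≤ 1 * ‖z‖ := mul_le_mul_of_nonneg_right hζ.le (norm_nonneg _)
        linarith
      refine Summable.of_nonneg_of_le (fun k => Finset.sum_nonneg fun α _ => norm_nonneg _)
        (fun k => ?_) (P4x_summable hg (by positivity) hr)
      have h2 := A2a (P4x_e φ ζ) k z
      rw [P4x_nk] at h2
      have h3 : (‖φ k‖ * ‖ζ‖ ^ k) ^ 2 * ‖z‖ ^ (2 * k) = (‖φ k‖ * (‖ζ‖ * ‖z‖) ^ k) ^ 2 := by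
        rw [mul_pow (‖ζ‖) (‖z‖) k]
        ring
      rw [h3] at h2
      exact le_of_sq_le_sq h2 (by positivity)
    have h1 := hs.of_norm.hasSum
    have h2 := P2x_group h1
    simp only [P4x_hp] at h2
    have hb : ‖br z ζ‖ < 1 := by
      have h3 : ‖br z ζ‖ ≤ ‖ζ‖ * ‖z‖ := norm_inner_le_norm _ _
      have h4 : ‖ζ‖ * ‖z‖ ≤ 1 * ‖z‖ := mul_le_mul_of_nonneg_right hζ.le (norm_nonneg _)
      linarith
    rw [h2.unique (hg _ hb)] at h1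
    exact h1
  · have h1 : HasSum (fun α => coeff α (P4x_e φ ζ) * (starRingEnd ℂ) (coeff α f) * (wD α : ℂ))
        (ip wD (P4x_e φ ζ) f) := (ip_summable wD_pos hSp hf).of_norm.hasSum
    have h2 := P2x_group h1
    simp only [P4x_ip] at h2
    exact h2

end Pool.Agent.CRT
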