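import Pool.Agent.CRT.P2
import Pool.Agent.CRT.P4x

/-!
# [P4y] The binomial series and wave packets
-/

set_option autoImplicit false

namespace Pool.Agent.CRT

open Finset MvPowerSeries

/-- the binomial series `(1-x)^{-M} = ∑ binom(M+k-1,k) x^k`, `M ≥ 1`
(`tsum_choose_mul_geometric_of_norm_lt_one`, with `binom(M+k-1,k) = binom(k+(M-1), M-1)`) -/
theorem cf_hasSum {M : ℕ} (hM : 1 ≤ M) {x : ℂ} (hx : ‖x‖ < 1) :
    HasSum (fun k => (cf M k : ℂ) * x ^ k) (1 / (1 - x) ^ M) := by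
  obtain ⟨m, rfl⟩ : ∃ m, M = m + 1 := ⟨M - 1, by omega⟩
  have h := hasSum_choose_mul_geometric_of_norm_lt_one m hx
  refine h.congr_fun fun k => ?_
  have h1 : cf (m + 1) k = (((k + m).choose m : ℕ) : ℝ) := by
    unfold cf
    have h2 : m + 1 + k - 1 = k + m := by omega
    rw [h2, Nat.choose_symm_add]
  rw [h1]
  push_cast
  rfl

/-- the wave packets: `<λ_ζ^{-M}, f>_D = conj(Φ_M(ζ))` -/
theorem P4w {d : ℕ} {M : ℕ} (hM : 1 ≤ M) {ζ : E d} (hζ : ‖ζ‖ < 1) {f : PS d}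
    (hf : f ∈ Sp (wD (d := d))) :
    ∃ e : PS d, e ∈ Sp (wD (d := d)) ∧ IsTS (fun z => 1 / lam ζ z ^ M) e ∧
      ip wD e f = (starRingEnd ℂ) (Ph f M ζ) := by
  obtain ⟨e, he, hts, hsum⟩ := P4 (φ := fun k => (cf M k : ℂ)) (g := fun x => 1 / (1 - x) ^ M)
    (fun x hx => cf_hasSum hM hx) hζ hf
  refine ⟨e, he, hts, ?_⟩
  unfold Ph
  rw [← hsum.tsum_eq, Complex.conj_tsum]
  refine tsum_congr fun k => ?_
  rw [map_mul, Complex.conj_ofReal]

end Pool.Agent.CRT
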