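import Pool.Agent.CRT.F4
import Pool.Agent.CRT.P4
import Pool.Agent.CRT.A3

/-!
# [M7b] The pairing `<E_y^{(j)}, f>_D = conj(Φ_M^{(j)}(y))`
-/

set_option autoImplicit false

namespace Pool.Agent.CRT

open Finset MvPowerSeries MeasureTheory

/-- the power series of `<z,w>^k` -/
noncomputable def M7b_K {d : ℕ} (k : ℕ) (w : E d) : PS d :=
  mkP fun α => if α.degree = k then (starRingEnd ℂ) (mono w α) / (wD α : ℂ) else 0

/-- the pairing in degree `k` -/
noncomputable def M7b_l {d : ℕ} (f g : PS d) (k : ℕ) : ℂ :=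
  ∑ α ∈ A d k, coeff α g * (starRingEnd ℂ) (coeff α f) * (wD α : ℂ)

theorem M7b_coeffK {d : ℕ} (k : ℕ) (w : E d) (α : MI d) :
    coeff α (M7b_K k w) = if α.degree = k then (starRingEnd ℂ) (mono w α) / (wD α : ℂ) else 0 :=
  rfl

theorem M7b_hom {d : ℕ} (i l : ℕ) (a b : E d) (α : MI d) (h : α.degree ≠ i + l) :
    coeff α (M7b_K i a * M7b_K l b) = 0 := by
  classical
  rw [MvPowerSeries.coeff_mul]
  apply Finset.sum_eq_zero
  intro q hq
  rw [Finset.HasAntidiagonal.mem_antidiagonal] at hq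
  rw [M7b_coeffK, M7b_coeffK]
  by_cases h1 : q.1.degree = i
  · have h2 : q.2.degree ≠ l := by
      intro h2
      apply h
      rw [← hq, map_add, h1, h2]
    rw [if_neg h2, mul_zero]
  · rw [if_neg h1, zero_mul]

theorem M7b_TS {d : ℕ} (k : ℕ) (w : E d) : IsTS (fun z => br z w ^ k) (M7b_K k w) := by
  intro z _
  have h1 : ∀ α ∉ A d k, coeff α (M7b_K k w) * mono z α = 0 := by
    intro α hα
    rw [mem_A] at hα
    rw [M7b_coeffK, if_neg hα, zero_mul]
  have h2 : HasSum (fun α => coeff α (M7b_K k w) * mono z α)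
      (∑ α ∈ A d k, coeff α (M7b_K k w) * mono z α) := hasSum_sum_of_ne_finset_zero h1
  have h3 : ∑ α ∈ A d k, coeff α (M7b_K k w) * mono z α = br z w ^ k := by
    rw [← A1a z w k]
    apply Finset.sum_congr rfl
    intro α hα
    rw [mem_A] at hα
    rw [M7b_coeffK, if_pos hα]
    ring
  rw [h3] at h2
  exact h2

theorem M7b_hpmul {d : ℕ} (i l : ℕ) (a b : E d) {z : E d} (hz : ‖z‖ < 1) :
    hp (M7b_K i a * M7b_K l b) (i + l) z = br z a ^ i * br z b ^ l := by
  have h1 := P2b (M7b_TS i a) (M7b_TS l b) z hz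
  have h2 : ∀ α ∉ A d (i + l), coeff α (M7b_K i a * M7b_K l b) * mono z α = 0 := by
    intro α hα
    rw [mem_A] at hα
    rw [M7b_hom i l a b α hα, zero_mul]
  exact (hasSum_sum_of_ne_finset_zero h2).unique h1

theorem M7b_binom {d : ℕ} (k : ℕ) (a b : E d) (μ : ℂ) :
    M7b_K k (b + μ • a) = ∑ i ∈ range (k + 1),
      ((k.choose i : ℂ) * (starRingEnd ℂ) μ ^ i) • (M7b_K i a * M7b_K (k - i) b) := by
  refine P2a (M7b_TS k (b + μ • a)) ?_
  intro z hz
  have hb : br z (b + μ • a) = (starRingEnd ℂ) μ * br z a + br z b := by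
    unfold br
    rw [inner_add_left, inner_smul_left]
    ring
  have h1 : ∀ i ∈ range (k + 1), HasSum (fun α =>
      (k.choose i : ℂ) * (starRingEnd ℂ) μ ^ i * (coeff α (M7b_K i a * M7b_K (k - i) b) * mono z α))
      ((k.choose i : ℂ) * (starRingEnd ℂ) μ ^ i * (br z a ^ i * br z b ^ (k - i))) := by
    intro i _
    exact (P2b (M7b_TS i a) (M7b_TS (k - i) b) z hz).mul_left _
  have h2 := hasSum_sum h1
  have h3 : br z (b + μ • a) ^ k = ∑ i ∈ range (k + 1),
      (k.choose i : ℂ) * (starRingEnd ℂ) μ ^ i * (br z a ^ i * br z b ^ (k - i)) := by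
    rw [hb, add_pow]
    apply Finset.sum_congr rfl
    intro i _
    rw [mul_pow]
    ring
  show HasSum _ (br z (b + μ • a) ^ k)
  rw [h3]
  refine h2.congr_fun ?_
  intro α
  rw [map_sum, Finset.sum_mul]
  apply Finset.sum_congr rfl
  intro i _
  rw [MvPowerSeries.coeff_smul]
  ring

theorem M7b_nk {d : ℕ} (k : ℕ) (w : E d) : nk wD (M7b_K k w) k = ‖w‖ ^ (2 * k) := by
  rw [← A1b w k]
  unfold nk
  apply Finset.sum_congr rfl
  intro α hα
  rw [mem_A] at hα
  have hw := wD_pos α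
  rw [M7b_coeffK, if_pos hα, norm_div, RCLike.norm_conj, Complex.norm_real, Real.norm_of_nonneg hw.le]
  field_simp

theorem M7b_pt {d : ℕ} (k : ℕ) (w : E d) : pt (M7b_K k w) k = M7b_K k w := by
  ext α
  unfold pt
  rw [coeff_mkP, M7b_coeffK]
  split_ifs <;> rfl

theorem M7b_nkmul {d : ℕ} (i l : ℕ) (a b : E d) :
    Real.sqrt (nk wD (M7b_K i a * M7b_K l b) (i + l)) ≤ ‖a‖ ^ i * ‖b‖ ^ l := by
  have h1 := A3 (M7b_K i a) (M7b_K l b) i l
  rw [M7b_pt, M7b_pt, M7b_nk, M7b_nk] at h1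
  calc Real.sqrt (nk wD (M7b_K i a * M7b_K l b) (i + l))
      ≤ Real.sqrt (‖a‖ ^ (2 * i) * ‖b‖ ^ (2 * l)) := Real.sqrt_le_sqrt h1
    _ = Real.sqrt ((‖a‖ ^ i * ‖b‖ ^ l) ^ 2) := by
        congr 1
        ring
    _ = ‖a‖ ^ i * ‖b‖ ^ l := Real.sqrt_sq (by positivity)

theorem M7b_l_le {d : ℕ} (f g : PS d) (k : ℕ) :
    ‖M7b_l f g k‖ ≤ Real.sqrt (nk wD g k) * Real.sqrt (nk wD f k) := by
  unfold M7b_l nk
  have h1 : ∀ α ∈ A d k, ‖coeff α g * (starRingEnd ℂ) (coeff α f) * (wD α : ℂ)‖ =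
      (‖coeff α g‖ * Real.sqrt (wD α)) * (‖coeff α f‖ * Real.sqrt (wD α)) := by
    intro α _
    have hw := wD_pos α
    rw [norm_mul, norm_mul, RCLike.norm_conj, Complex.norm_real, Real.norm_of_nonneg hw.le]
    have := Real.mul_self_sqrt hw.le
    calc ‖coeff α g‖ * ‖coeff α f‖ * wD α = ‖coeff α g‖ * ‖coeff α f‖ *
        (Real.sqrt (wD α) * Real.sqrt (wD α)) := by rw [this]
      _ = _ := by ring
  calc ‖∑ α ∈ A d k, coeff α g * (starRingEnd ℂ) (coeff α f) * (wD α : ℂ)‖
      ≤ ∑ α ∈ A d k, ‖coeff α g * (starRingEnd ℂ) (coeff α f) * (wD α : ℂ)‖ := norm_sum_le _ _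
    _ = ∑ α ∈ A d k, (‖coeff α g‖ * Real.sqrt (wD α)) * (‖coeff α f‖ * Real.sqrt (wD α)) :=
        Finset.sum_congr rfl h1
    _ ≤ Real.sqrt (∑ α ∈ A d k, (‖coeff α g‖ * Real.sqrt (wD α)) ^ 2) *
        Real.sqrt (∑ α ∈ A d k, (‖coeff α f‖ * Real.sqrt (wD α)) ^ 2) :=
        Real.sum_mul_le_sqrt_mul_sqrt _ _ _
    _ = _ := by
        congr 2 <;>
        · apply Finset.sum_congr rfl
          intro α _
          rw [mul_pow, Real.sq_sqrt (wD_pos α).le]

theorem M7b_l_K {d : ℕ} (f : PS d) (k : ℕ) (w : E d) :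
    M7b_l f (M7b_K k w) k = (starRingEnd ℂ) (hp f k w) := by
  unfold M7b_l hp
  rw [map_sum]
  apply Finset.sum_congr rfl
  intro α hα
  rw [mem_A] at hα
  have hw : (wD α : ℂ) ≠ 0 := by
    exact_mod_cast (wD_pos α).ne'
  rw [M7b_coeffK, if_pos hα, map_mul]
  field_simp

theorem M7b_hp_add {d : ℕ} (f : PS d) (k : ℕ) (a b : E d) (μ : ℂ) :
    hp f k (b + μ • a) = ∑ i ∈ range (k + 1), (k.choose i : ℂ) * μ ^ i *
      (starRingEnd ℂ) (M7b_l f (M7b_K i a * M7b_K (k - i) b) k) := by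
  have h1 : (starRingEnd ℂ) (hp f k (b + μ • a)) = ∑ i ∈ range (k + 1),
      ((k.choose i : ℂ) * (starRingEnd ℂ) μ ^ i) * M7b_l f (M7b_K i a * M7b_K (k - i) b) k := by
    rw [← M7b_l_K, M7b_binom]
    unfold M7b_l
    simp only [Finset.mul_sum]
    rw [Finset.sum_comm]
    apply Finset.sum_congr rfl
    intro α _
    rw [map_sum, Finset.sum_mul, Finset.sum_mul]
    apply Finset.sum_congr rfl
    intro i _
    rw [MvPowerSeries.coeff_smul]
    ring
  have h2 := congrArg (starRingEnd ℂ) h1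
  rw [Complex.conj_conj, map_sum] at h2
  rw [h2]
  apply Finset.sum_congr rfl
  intro i _
  rw [map_mul, map_mul, map_pow, Complex.conj_conj, map_natCast]

theorem M7b_cf (M k j : ℕ) (hM : 1 ≤ M) (hj : j ≤ k) :
    cf M k * (k.choose j : ℝ) = cf M j * cf (M + j) (k - j) := by
  unfold cf
  have h1 := Nat.choose_mul (n := M + k - 1) (k := k) (s := k - j) (by omega)
  rw [Nat.choose_symm hj] at h1
  have h2 : M + k - 1 - (k - j) = M + j - 1 := by omega
  have h3 : k - (k - j) = j := by omega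
  have h4 : M + j + (k - j) - 1 = M + k - 1 := by omega
  rw [h2, h3] at h1
  rw [h4]
  have h5 : ((M + k - 1).choose k : ℝ) * (k.choose j : ℝ)
      = ((M + k - 1).choose (k - j) : ℝ) * ((M + j - 1).choose j : ℝ) := by
    exact_mod_cast h1
  rw [h5]
  ring

theorem M7b_cf_nonneg (M k : ℕ) : 0 ≤ cf M k := by
  unfold cf
  positivity

theorem M7b_cf_hasSum {M : ℕ} (hM : 1 ≤ M) {x : ℝ} (hx0 : 0 ≤ x) (hx : x < 1) :
    Summable fun k => cf M k * x ^ k := by
  have h1 := (cf_hasSum hM (x := (x : ℂ)) (by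
    rw [Complex.norm_real, Real.norm_of_nonneg hx0]
    exact hx)).summable
  have h2 : (fun k => (cf M k : ℂ) * (x : ℂ) ^ k) = fun k => ((cf M k * x ^ k : ℝ) : ℂ) := by
    funext k
    push_cast
    ring
  rw [h2] at h1
  exact_mod_cast h1

/-- regrouping by degrees -/
theorem M7b_group {d : ℕ} {g : MI d → ℂ} {S : ℂ} (hg : HasSum g S) :
    HasSum (fun k => ∑ α ∈ A d k, g α) S := by
  have h1 : HasSum (fun x : (k : ℕ) × {α : MI d // α ∈ A d k} => g x.2.1) S := by
    let e : MI d ≃ (k : ℕ) × {α : MI d // α ∈ A d k} :=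
      { toFun := fun α => ⟨α.degree, α, mem_A.2 rfl⟩
        invFun := fun x => x.2.1
        left_inv := fun α => rfl
        right_inv := by
          rintro ⟨k, α, hα⟩
          have := mem_A.1 hα
          subst this
          rfl }
    have := (e.symm.hasSum_iff (f := g) (a := S)).2 hg
    exact this
  have h2 := h1.sigma (fun k => hasSum_fintype (fun x : {α : MI d // α ∈ A d k} => g x.1))
  refine h2.congr_fun ?_
  intro k
  exact (Finset.sum_coe_sort (A d k) g).symm

/-- a function given by a power series near `0` -/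
theorem M7b_deriv {Φ : ℂ → ℂ} {c : ℕ → ℂ} {r : ℝ} (hr : 0 < r)
    (hc : Summable fun i => ‖c i‖ * r ^ i)
    (h : ∀ μ : ℂ, ‖μ‖ < r → HasSum (fun i => c i * μ ^ i) (Φ μ)) (j : ℕ) :
    iteratedDeriv j Φ 0 / (j.factorial : ℂ) = c j := by
  have h1 : HasFPowerSeriesOnBall Φ (FormalMultilinearSeries.ofScalars ℂ c) 0
      (ENNReal.ofReal r) := by
    refine ⟨?_, by simpa using hr, ?_⟩
    · have h2 : Summable fun n => ‖FormalMultilinearSeries.ofScalars ℂ c n‖ *
          ((Real.toNNReal r : NNReal) : ℝ) ^ n := by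
        rw [Real.coe_toNNReal r hr.le]
        refine hc.congr ?_
        intro n
        rw [FormalMultilinearSeries.ofScalars_norm]
      exact FormalMultilinearSeries.le_radius_of_summable_norm _ h2
    · intro y hy
      have hy' : ‖y‖ < r := by
        rw [Metric.mem_eball, edist_zero_right, ← ofReal_norm,
          ENNReal.ofReal_lt_ofReal_iff hr] at hy
        exact hy
      rw [zero_add]
      refine (h y hy').congr_fun ?_
      intro n
      rw [FormalMultilinearSeries.ofScalars_apply_eq]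
      simp
  have h2 := h1.hasFPowerSeriesAt.eq_formalMultilinearSeries
    (h1.analyticAt.hasFPowerSeriesAt)
  have h3 := congrArg (fun p : FormalMultilinearSeries ℂ ℂ ℂ => p.coeff j) h2
  simp only [FormalMultilinearSeries.coeff_ofScalars] at h3
  exact h3.symm

/-- `E_y^{(j)} ∈ H²_d` and `<E_y^{(j)}, f>_D = conj(cj (Ph f M) p j y)`.

Proof.  Let `y_θ = y₁p + e^{iθ}y' = Rt p e^{iθ} y`; `|y_θ| = |y|`.  The kernel `E_θ(z) = (1-<z,y_θ>)^{-M}` has the
Taylor coefficients `e_α(θ) = cf M |α| conj(y_θ^α)/wD α` (`P4`, `P4w`, or directly `A1a`).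
`<z,y_θ> = z₁ȳ₁ + e^{-iθ}<z,y'>`, so by the binomial series (`|<z,y'>| < |1-z₁ȳ₁|`)
`E_θ(z) = ∑_j e^{-ijθ} E_y^{(j)}(z)`.  Put `e^{(j)}_α = (2π)^{-1}∫_0^{2π} e_α(θ) e^{ijθ} dθ`.
* `|e^{(j)}_α|² ≤ (2π)^{-1} ∫ |e_α(θ)|² dθ`, and `∑_α |e_α(θ)|² wD α = ∑_k (cf M k)² |y|^{2k} < ∞` does not depend on
  `θ` (`A1b`), so `e^{(j)} ∈ Sp wD`.
* `IsTS`: for `z` in the ball `∑_α |e_α(θ) z^α| ≤ ∑_k cf M k |y|^k|z|^k`, uniformly in `θ`; integrate
  `E_θ(z) = ∑_α e_α(θ)z^α` against `e^{ijθ}`.
* `<E_θ,f>_D = conj(Φ_M(y_θ))` (`P4w`).  Integrate against `e^{ijθ}/(2π)`: the left side gives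
  `<e^{(j)},f>_D` (dominated convergence: `∑_α |e_α(θ) f_α| wD α ≤ √(…)√(ns wD f)` uniformly), the
  right side `conj((2π)^{-1}∫ Φ_M(y_θ)e^{-ijθ}dθ) = conj(cj (Ph f M) p j y)`, because
  `μ ↦ Φ_M(y₁p+μy') = ∑_k cf M k f_k(y₁p+μy')` is analytic in a neighbourhood of `|μ| ≤ 1`
  (`|f_k(x)| ≤ √(ns wD f)|x|^k`) and the `j`-th Taylor coefficient is given by Cauchy's formula
  (`Complex.cderiv`/`iteratedDeriv` circle integral formula, or expand in powers of `μ`). -/
theorem M7b {d : ℕ} {p y : E d} (hp : ‖p‖ = 1) (hy : ‖y‖ < 1) {M j : ℕ} (hM : 1 ≤ M) {f : PS d}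
    (hf : f ∈ Sp (wD (d := d))) :
    ∃ e : PS d, e ∈ Sp (wD (d := d)) ∧ IsTS (Ej p M j y) e ∧
      ip wD e f = (starRingEnd ℂ) (cj (Ph f M) p j y) := by
  set a : E d := pr p y with ha
  set b : E d := br y p • p with hb
  have hbn : ‖b‖ < 1 := by
    rw [hb, norm_smul, hp, mul_one]
    exact (F1b hp hy).1
  have hbz : ∀ z : E d, br z b = br z p * (starRingEnd ℂ) (br y p) := by
    intro z
    rw [hb]
    unfold br
    rw [inner_smul_left]
    ring
  -- the homogeneous pieces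
  let G : ℕ → ℕ → PS d := fun k i => M7b_K i a * M7b_K (k - i) b
  have hGnk : ∀ k i, i ≤ k → Real.sqrt (nk wD (G k i) k) ≤ ‖a‖ ^ i * ‖b‖ ^ (k - i) := by
    intro k i hik
    have h1 := M7b_nkmul i (k - i) a b
    rw [show i + (k - i) = k by omega] at h1
    exact h1
  have hGhp : ∀ k i, i ≤ k → ∀ z : E d, ‖z‖ < 1 →
      Pool.Agent.CRT.hp (G k i) k z = br z a ^ i * br z b ^ (k - i) := by
    intro k i hik z hz
    have h1 := M7b_hpmul i (k - i) a b hz
    rw [show i + (k - i) = k by omega] at h1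
    exact h1
  -- the series
  let e : PS d := mkP fun α => ((cf M α.degree * (α.degree.choose j : ℝ) : ℝ) : ℂ) *
    coeff α (G α.degree j)
  have hecoeff : ∀ k, ∀ α ∈ A d k, coeff α e = ((cf M k * (k.choose j : ℝ) : ℝ) : ℂ) *
      coeff α (G k j) := by
    intro k α hα
    rw [mem_A] at hα
    subst hα
    rfl
  have henk : ∀ k, nk wD e k = (cf M k * (k.choose j : ℝ)) ^ 2 * nk wD (G k j) k := by
    intro k
    unfold nk
    rw [Finset.mul_sum]
    apply Finset.sum_congr rfl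
    intro α hα
    rw [hecoeff k α hα, norm_mul, Complex.norm_real, Real.norm_of_nonneg
      (mul_nonneg (M7b_cf_nonneg M k) (Nat.cast_nonneg _))]
    ring
  have henk' : ∀ k, Real.sqrt (nk wD e k) = cf M k * (k.choose j : ℝ) *
      Real.sqrt (nk wD (G k j) k) := by
    intro k
    rw [henk, Real.sqrt_mul (sq_nonneg _), Real.sqrt_sq
      (mul_nonneg (M7b_cf_nonneg M k) (Nat.cast_nonneg _))]
  have hMj : 1 ≤ M + j := by omega
  have hsumb := M7b_cf_hasSum hMj (norm_nonneg b) hbn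
  have hesum : Summable fun k => Real.sqrt (nk wD e k) := by
    rw [← summable_nat_add_iff j]
    refine Summable.of_nonneg_of_le (fun k => Real.sqrt_nonneg _) ?_
      (hsumb.mul_left (cf M j * ‖a‖ ^ j))
    intro k
    rw [henk']
    have h1 := hGnk (k + j) j (by omega)
    rw [show k + j - j = k by omega] at h1
    have h2 := M7b_cf M (k + j) j hM (by omega)
    rw [show k + j - j = k by omega] at h2
    rw [h2]
    calc cf M j * cf (M + j) k * Real.sqrt (nk wD (G (k + j) j) (k + j))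
        ≤ cf M j * cf (M + j) k * (‖a‖ ^ j * ‖b‖ ^ k) := by
          apply mul_le_mul_of_nonneg_left h1
          exact mul_nonneg (M7b_cf_nonneg _ _) (M7b_cf_nonneg _ _)
      _ = _ := by ring
  have heS : e ∈ Sp (wD (d := d)) := (A4b hesum).1
  have hehp : ∀ k, ∀ z : E d, ‖z‖ < 1 → Pool.Agent.CRT.hp e k z =
      ((cf M k * (k.choose j : ℝ) : ℝ) : ℂ) * Pool.Agent.CRT.hp (G k j) k z := by
    intro k z _
    unfold Pool.Agent.CRT.hp
    rw [Finset.mul_sum]
    apply Finset.sum_congr rfl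
    intro α hα
    rw [hecoeff k α hα]
    ring
  refine ⟨e, heS, ?_, ?_⟩
  · -- the Taylor series
    intro z hz
    have h1 : IsTS (ev e) e := P2e (fun x hx => (A9D heS hx).1)
    have h2 := (P2c h1 hz).1
    have h3 : HasSum (fun k => Pool.Agent.CRT.hp e k z) (Ej p M j y z) := by
      rw [← hasSum_nat_add_iff' j]
      have h4 : ∑ i ∈ range j, Pool.Agent.CRT.hp e i z = 0 := by
        apply Finset.sum_eq_zero
        intro i hi
        rw [Finset.mem_range] at hi
        rw [hehp i z hz, Nat.choose_eq_zero_of_lt hi]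
        simp
      rw [h4, sub_zero]
      have hbz1 : ‖br z b‖ < 1 := by
        have := br_le z b
        nlinarith [norm_nonneg z, norm_nonneg b]
      have h5 := (cf_hasSum hMj hbz1).mul_left ((cf M j : ℂ) * br z a ^ j)
      have h6 : (cf M j : ℂ) * br z a ^ j * (1 / (1 - br z b) ^ (M + j)) = Ej p M j y z := by
        unfold Ej
        rw [hbz z]
        ring
      rw [h6] at h5
      refine h5.congr_fun ?_
      intro k
      rw [hehp (k + j) z hz, hGhp (k + j) j (by omega) z hz, show k + j - j = k by omega]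
      have h7 := M7b_cf M (k + j) j hM (by omega)
      rw [show k + j - j = k by omega] at h7
      rw [h7]
      push_cast
      ring
    have h4 : ev e z = Ej p M j y z := h2.unique h3
    rw [← h4]
    exact h1 z hz
  · -- the pairing
    let c : ℕ → ℕ → ℂ := fun k i => ((cf M k * (k.choose i : ℝ) : ℝ) : ℂ) *
      (starRingEnd ℂ) (M7b_l f (G k i) k)
    set Cf : ℝ := Real.sqrt (ns wD f) with hCf
    have hCf0 : 0 ≤ Cf := Real.sqrt_nonneg _
    have hnkf : ∀ k, Real.sqrt (nk wD f k) ≤ Cf := by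
      intro k
      apply Real.sqrt_le_sqrt
      rw [ns_eq_nk wD_pos hf]
      exact ((Sp_iff_nk wD_pos f).1 hf).le_tsum k (fun i _ => nk_nonneg wD_pos f i)
    have hc0 : ∀ k i, k < i → c k i = 0 := by
      intro k i hki
      simp only [c]
      rw [Nat.choose_eq_zero_of_lt hki]
      simp
    have hcle : ∀ k i, i ≤ k → ‖c k i‖ ≤ Cf * (cf M k * ((k.choose i : ℝ) *
        (‖a‖ ^ i * ‖b‖ ^ (k - i)))) := by
      intro k i hik
      simp only [c]
      rw [norm_mul, RCLike.norm_conj, Complex.norm_real, Real.norm_of_nonneg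
        (mul_nonneg (M7b_cf_nonneg M k) (Nat.cast_nonneg _))]
      have h1 : ‖M7b_l f (G k i) k‖ ≤ (‖a‖ ^ i * ‖b‖ ^ (k - i)) * Cf := by
        refine (M7b_l_le f (G k i) k).trans ?_
        exact mul_le_mul (hGnk k i hik) (hnkf k) (Real.sqrt_nonneg _) (by positivity)
      calc cf M k * (k.choose i : ℝ) * ‖M7b_l f (G k i) k‖
          ≤ cf M k * (k.choose i : ℝ) * ((‖a‖ ^ i * ‖b‖ ^ (k - i)) * Cf) := by
            apply mul_le_mul_of_nonneg_left h1
            exact mul_nonneg (M7b_cf_nonneg M k) (Nat.cast_nonneg _)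
        _ = _ := by ring
    -- a small radius
    obtain ⟨r, hr0, hr1⟩ : ∃ r : ℝ, 0 < r ∧ ‖b‖ + r * ‖a‖ < 1 := by
      refine ⟨(1 - ‖b‖) / (2 * (‖a‖ + 1)), by
        have := norm_nonneg a
        apply div_pos <;> linarith, ?_⟩
      have h1 : (1 - ‖b‖) / (2 * (‖a‖ + 1)) * ‖a‖ ≤ (1 - ‖b‖) / 2 := by
        rw [div_mul_eq_mul_div, div_le_div_iff₀ (by positivity) (by norm_num)]
        nlinarith [norm_nonneg a]
      linarith
    have hra0 : 0 ≤ ‖b‖ + r * ‖a‖ := by positivity
    have hrow : ∀ k, ∑ i ∈ range (k + 1), ‖c k i‖ * r ^ i ≤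
        Cf * (cf M k * (‖b‖ + r * ‖a‖) ^ k) := by
      intro k
      have h1 : (‖b‖ + r * ‖a‖) ^ k = ∑ i ∈ range (k + 1), (k.choose i : ℝ) *
          (‖a‖ ^ i * ‖b‖ ^ (k - i)) * r ^ i := by
        rw [add_comm, add_pow]
        apply Finset.sum_congr rfl
        intro i _
        rw [mul_pow]
        ring
      rw [h1, Finset.mul_sum, Finset.mul_sum]
      apply Finset.sum_le_sum
      intro i hi
      rw [Finset.mem_range] at hi
      calc ‖c k i‖ * r ^ i ≤ Cf * (cf M k * ((k.choose i : ℝ) *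
            (‖a‖ ^ i * ‖b‖ ^ (k - i)))) * r ^ i := by
            apply mul_le_mul_of_nonneg_right (hcle k i (by omega))
            positivity
        _ = _ := by ring
    have hprod : Summable fun x : ℕ × ℕ => ‖c x.1 x.2‖ * r ^ x.2 := by
      rw [summable_prod_of_nonneg (fun x => by positivity)]
      have hfin : ∀ k, HasSum (fun i => ‖c k i‖ * r ^ i)
          (∑ i ∈ range (k + 1), ‖c k i‖ * r ^ i) := by
        intro k
        apply hasSum_sum_of_ne_finset_zero
        intro i hi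
        rw [Finset.mem_range] at hi
        rw [hc0 k i (by omega), norm_zero, zero_mul]
      refine ⟨fun k => (hfin k).summable, ?_⟩
      refine Summable.of_nonneg_of_le (fun k => tsum_nonneg (fun i => by positivity)) ?_
        ((M7b_cf_hasSum hM hra0 hr1).mul_left Cf)
      intro k
      simp only
      rw [(hfin k).tsum_eq]
      exact hrow k
    have hcol : ∀ i, Summable fun k => c k i := by
      intro i
      have h1 := hprod.comp_injective (i := fun k : ℕ => (k, i)) (fun k k' h => by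
        simpa using h)
      have h2 : Summable fun k => ‖c k i‖ * r ^ i := h1
      have h3 : Summable fun k => ‖c k i‖ := by
        rwa [summable_mul_right_iff (by positivity)] at h2
      exact h3.of_norm
    have hPh : ∀ μ : ℂ, ‖μ‖ < r →
        HasSum (fun i => (∑' k, c k i) * μ ^ i) (Ph f M (Rt p μ y)) := by
      intro μ hμ
      have h1 : Summable fun x : ℕ × ℕ => c x.1 x.2 * μ ^ x.2 := by
        refine Summable.of_norm (Summable.of_nonneg_of_le (fun _ => norm_nonneg _) ?_ hprod)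
        intro x
        rw [norm_mul, norm_pow]
        gcongr
      have h2 : Ph f M (Rt p μ y) = ∑' x : ℕ × ℕ, c x.1 x.2 * μ ^ x.2 := by
        rw [h1.tsum_prod]
        unfold Ph
        congr 1
        funext k
        have h3 : Rt p μ y = b + μ • a := rfl
        rw [h3, M7b_hp_add, Finset.mul_sum]
        symm
        have h4 : HasSum (fun i => c k i * μ ^ i) (∑ i ∈ range (k + 1), c k i * μ ^ i) := by
          apply hasSum_sum_of_ne_finset_zero
          intro i hi
          rw [Finset.mem_range] at hi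
          rw [hc0 k i (by omega), zero_mul]
        simp only
        rw [h4.tsum_eq]
        apply Finset.sum_congr rfl
        intro i _
        simp only [c, G]
        push_cast
        ring
      have h3 : Summable fun x : ℕ × ℕ => c x.2 x.1 * μ ^ x.1 :=
        h1.prod_symm
      have h4 : ∑' x : ℕ × ℕ, c x.1 x.2 * μ ^ x.2 = ∑' x : ℕ × ℕ, c x.2 x.1 * μ ^ x.1 :=
        ((Equiv.prodComm ℕ ℕ).tsum_eq (fun x : ℕ × ℕ => c x.1 x.2 * μ ^ x.2)).symm
      rw [h2, h4]
      have h5 := h3.hasSum.prod_fiberwise (fun i => (h3.prod_factor i).hasSum)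
      refine h5.congr_fun ?_
      intro i
      simp only
      rw [tsum_mul_right]
    have hcs : Summable fun i => ‖∑' k, c k i‖ * r ^ i := by
      have h3 : Summable fun x : ℕ × ℕ => ‖c x.2 x.1‖ * r ^ x.1 := hprod.prod_symm
      have h4 := h3.prod
      refine Summable.of_nonneg_of_le (fun i => by positivity) ?_ h4
      intro i
      simp only
      rw [tsum_mul_right]
      apply mul_le_mul_of_nonneg_right _ (by positivity)
      exact norm_tsum_le_tsum_norm (hcol i).norm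
    have hcj : cj (Ph f M) p j y = ∑' k, c k j :=
      M7b_deriv hr0 hcs hPh j
    rw [hcj]
    have h1 := M7b_group (ip_summable wD_pos heS hf).of_norm.hasSum
    have h2 : ip wD e f = ∑' k, ∑ α ∈ A d k, coeff α e * (starRingEnd ℂ) (coeff α f) *
        (wD α : ℂ) := h1.tsum_eq.symm
    rw [h2, Complex.conj_tsum]
    congr 1
    funext k
    simp only [c, map_mul, Complex.conj_conj, Complex.conj_ofReal]
    unfold M7b_l
    rw [Finset.mul_sum]
    apply Finset.sum_congr rfl
    intro α hα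
    rw [hecoeff k α hα]
    ring

end Pool.Agent.CRT
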