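import Pool.Agent.CRT.P1
import Pool.Agent.CRT.P3
import Pool.Agent.CRT.A3

/-!
# [PR] The compactness lemma (Lemma R)
-/

set_option autoImplicit false

namespace Pool.Agent.CRT

open Finset MvPowerSeries Filter

theorem PR_coeff_zero {d : ℕ} {F : E d → ℂ} {f : PS d} (h : IsTS F f) : coeff 0 f = F 0 := by
  have h0 := h 0 (by simp)
  have h1 : HasSum (fun α => coeff α f * mono (0 : E d) α) (coeff 0 f * mono (0 : E d) 0) := by
    apply hasSum_single
    intro α hα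
    have : ∃ i, α i ≠ 0 := by
      by_contra hcon
      push Not at hcon
      exact hα (Finsupp.ext hcon)
    obtain ⟨i, hi⟩ := this
    have : mono (0 : E d) α = 0 := by
      unfold mono
      apply Finset.prod_eq_zero (Finset.mem_univ i)
      simp [hi]
    rw [this, mul_zero]
  have h2 := h0.unique h1
  rw [h2]
  simp [mono]

theorem PR_coeff_le {d : ℕ} (f : PS d) (α : MI d) :
    ‖coeff α f‖ ^ 2 * wD α ≤ nk wD f α.degree := by
  unfold nk
  exact Finset.single_le_sum (f := fun α => ‖coeff α f‖ ^ 2 * wD α)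
    (fun β _ => mul_nonneg (sq_nonneg _) (wD_pos β).le) (mem_A.2 rfl)

/-- Lemma R.  Let `f ∈ R_DA`, `m_N` analytic on the ball with `|m_N|, |N^{d+1} m_N| ≤ K` and
`|m_N(0)| ≥ κ > 0`.  Then there is `C` such that for every test function `F` with Taylor series
`e ∈ H²_d`: if `|m_N F|, |N^{d+1}(m_N F)| ≤ K'` on the ball for all large `N`, then
`|<e,f>_D| ≤ C K'`.

Proof.  Let `μ_N` be the Taylor series of `m_N` (`P1`).  By `P3`, `√(nk wD μ_N k) ≤ K bb d k`, in
particular each coefficient `(μ_N)_α` is bounded in `N`.  Let `𝒰` be an ultrafilter on `ℕ` finer than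
`atTop` (`Filter.hyperfilter ℕ`) and `μ_α = lim_𝒰 (μ_N)_α` (bounded sets in `ℂ` are relatively compact:
`Ultrafilter`/`IsCompact.ultrafilter_le_nhds`), `μ = mkP (μ_α)`.
* `|μ_0| = lim |m_N(0)| ≥ κ > 0`, so `μ ≠ 0`.
* `√(nk wD μ k) = lim √(nk wD μ_N k) ≤ K bb d k` (finite sums), summable (`bb_summable`): `μ ∈ MultD d`
  (`A4`).
So `f ∈ ranAdj wD μ`: there is `g ∈ Sp wD` with `<μ h, g> = <h,f>` for all `h ∈ Sp wD`.
Let `F, e, K'` be given.  `m_N F` has the Taylor series `μ_N * e` (`P2b`).  By `P3`,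
`√(nk wD (μ_N*e) k) ≤ K' bb d k` for large `N`; `(μ_N * e)_γ → (μ*e)_γ` along `𝒰` (finite sums), so
`√(nk wD (μ*e) k) ≤ K' bb d k` and by `A4b` `‖μ*e‖_D ≤ K' ∑ bb d k`.  Hence (`ip_le`)
`|<e,f>| = |<μ*e,g>| ≤ ‖μ*e‖_D ‖g‖_D ≤ K' (∑ bb d k) ‖g‖_D`.  Take `C = (∑ bb d k) ‖g‖_D`, which does not
depend on `F, e, K'`. -/
theorem PR {d : ℕ} (hd : 1 ≤ d) {f : PS d} (hf : f ∈ RD d) {m : ℕ → E d → ℂ} {K κ : ℝ}
    (hκ : 0 < κ) (han : ∀ N, AnalyticOnNhd ℂ (m N) (Metric.ball 0 1))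
    (hb : ∀ N, ∀ z : E d, ‖z‖ < 1 → ‖m N z‖ ≤ K)
    (hb' : ∀ N, ∀ z : E d, ‖z‖ < 1 → ‖Nd (d + 1) (m N) z‖ ≤ K) (h0 : ∀ N, κ ≤ ‖m N 0‖) :
    ∃ C : ℝ, 0 ≤ C ∧ ∀ (F : E d → ℂ) (e : PS d) (K' : ℝ), IsTS F e → e ∈ Sp (wD (d := d)) →
      (∀ᶠ N in atTop, ∀ z : E d, ‖z‖ < 1 →
        ‖m N z * F z‖ ≤ K' ∧ ‖Nd (d + 1) (fun x => m N x * F x) z‖ ≤ K') →
      ‖ip wD e f‖ ≤ C * K' := by
  classical
  choose μ hμ using fun N => P1 hd (han N)
  have hK : 0 ≤ K := (norm_nonneg _).trans (hb 0 0 (by simp))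
  have hP : ∀ N k, Real.sqrt (nk wD (μ N) k) ≤ K * bb d k :=
    fun N k => P3 hd (hμ N) (hb N) (hb' N) k
  set U : Ultrafilter ℕ := Filter.hyperfilter ℕ with hU
  have hUle : (U : Filter ℕ) ≤ atTop := Nat.hyperfilter_le_atTop
  have hcb : ∀ N α, ‖coeff α (μ N)‖ ≤ K * bb d α.degree / Real.sqrt (wD α) := by
    intro N α
    have hw := wD_pos α
    rw [le_div_iff₀ (Real.sqrt_pos.2 hw)]
    refine le_trans ?_ (hP N α.degree)
    apply Real.le_sqrt_of_sq_le
    rw [mul_pow, Real.sq_sqrt hw.le]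
    exact PR_coeff_le (μ N) α
  have hlim : ∀ α : MI d, ∃ c : ℂ, Tendsto (fun N => coeff α (μ N)) (U : Filter ℕ) (nhds c) := by
    intro α
    have hc := isCompact_closedBall (0 : ℂ) (K * bb d α.degree / Real.sqrt (wD α))
    obtain ⟨c, -, hc'⟩ := hc.ultrafilter_le_nhds (U.map (fun N => coeff α (μ N))) (by
      rw [Filter.le_principal_iff]
      change _ ∈ Filter.map _ _
      rw [Filter.mem_map]
      filter_upwards with N
      simpa using hcb N α)
    exact ⟨c, hc'⟩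
  choose a ha using hlim
  have hnk : ∀ k, Tendsto (fun N => nk wD (μ N) k) (U : Filter ℕ) (nhds (nk wD (mkP a) k)) := by
    intro k
    unfold nk
    apply tendsto_finsetSum
    intro α _
    exact (((ha α).norm).pow 2).mul_const _
  have hnk' : ∀ k, Real.sqrt (nk wD (mkP a) k) ≤ K * bb d k := by
    intro k
    refine le_of_tendsto ((Real.continuous_sqrt.tendsto _).comp (hnk k)) ?_
    filter_upwards with N
    exact hP N k
  have hsum : Summable fun k => Real.sqrt (nk wD (mkP a) k) :=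
    Summable.of_nonneg_of_le (fun k => Real.sqrt_nonneg _) hnk' ((bb_summable hd).mul_left K)
  have hmul : mkP a ∈ MultD d := A4 hsum
  have hne : mkP a ≠ 0 := by
    intro h
    have h1 : a 0 = 0 := by
      have := congrArg (coeff (0 : MI d)) h
      simpa using this
    have h2 : κ ≤ ‖a 0‖ := by
      refine ge_of_tendsto (ha 0).norm ?_
      filter_upwards with N
      rw [PR_coeff_zero (hμ N)]
      exact h0 N
    rw [h1, norm_zero] at h2
    linarith
  obtain ⟨hfS, g, hgS, hg⟩ := hf _ hmul hne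
  refine ⟨(∑' k, bb d k) * Real.sqrt (ns wD g), mul_nonneg (tsum_nonneg fun k => bb_nonneg d k)
    (Real.sqrt_nonneg _), ?_⟩
  intro F e K' he heS hev
  have hevU : ∀ᶠ N in (U : Filter ℕ), ∀ z : E d, ‖z‖ < 1 →
        ‖m N z * F z‖ ≤ K' ∧ ‖Nd (d + 1) (fun x => m N x * F x) z‖ ≤ K' := hUle hev
  have hcoef : ∀ γ : MI d, Tendsto (fun N => coeff γ (μ N * e)) (U : Filter ℕ)
      (nhds (coeff γ (mkP a * e))) := by
    intro γ
    simp only [MvPowerSeries.coeff_mul]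
    apply tendsto_finsetSum
    intro q _
    exact (ha q.1).mul_const _
  have hnk2 : ∀ k, Real.sqrt (nk wD (mkP a * e) k) ≤ K' * bb d k := by
    intro k
    have ht : Tendsto (fun N => nk wD (μ N * e) k) (U : Filter ℕ)
        (nhds (nk wD (mkP a * e) k)) := by
      unfold nk
      apply tendsto_finsetSum
      intro α _
      exact (((hcoef α).norm).pow 2).mul_const _
    refine le_of_tendsto ((Real.continuous_sqrt.tendsto _).comp ht) ?_
    filter_upwards [hevU] with N hN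
    exact P3 hd (P2b (hμ N) he) (fun z hz => (hN z hz).1) (fun z hz => (hN z hz).2) k
  have hK' : 0 ≤ K' := by
    obtain ⟨N, hN⟩ := hevU.exists
    exact (norm_nonneg _).trans (hN 0 (by simp)).1
  have hs2 : Summable fun k => Real.sqrt (nk wD (mkP a * e) k) :=
    Summable.of_nonneg_of_le (fun k => Real.sqrt_nonneg _) hnk2 ((bb_summable hd).mul_left K')
  obtain ⟨hS2, hle⟩ := A4b hs2
  have hle2 : Real.sqrt (ns wD (mkP a * e)) ≤ K' * ∑' k, bb d k := by
    refine hle.trans ?_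
    rw [← tsum_mul_left]
    exact hs2.tsum_le_tsum hnk2 ((bb_summable hd).mul_left K')
  rw [← (hg e heS).2]
  calc ‖ip wD (mkP a * e) g‖ ≤ Real.sqrt (ns wD (mkP a * e)) * Real.sqrt (ns wD g) :=
        ip_le wD_pos hS2 hgS
    _ ≤ (K' * ∑' k, bb d k) * Real.sqrt (ns wD g) :=
        mul_le_mul_of_nonneg_right hle2 (Real.sqrt_nonneg _)
    _ = (∑' k, bb d k) * Real.sqrt (ns wD g) * K' := by ring

/-- `f ∈ R_DA` implies `f ∈ H²_d` (take the multiplier `m = 1`) -/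
theorem RD_Sp {d : ℕ} {f : PS d} (hf : f ∈ RD d) : f ∈ Sp (wD (d := d)) := by
  have h1 : (1 : PS d) ∈ MultD d := by
    intro h hh
    rwa [one_mul]
  exact (hf 1 h1 one_ne_zero).1

end Pool.Agent.CRT
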