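import Pool.Agent.CRT.M7a
import Pool.Agent.CRT.M7b
import Pool.Agent.CRT.M3
import Pool.Agent.CRT.M4a
import Pool.Agent.CRT.PR

/-!
# [M7] Super-decay of the components `Φ_M^{(j)}`, `j ≥ γ/t`, near the direction `p`
-/

set_option autoImplicit false

namespace Pool.Agent.CRT

open Finset

theorem M7_ww {d : ℕ} {p z : E d} (h : lam p z ≠ 0) : ww p z = 2 / lam p z - 1 := by
  unfold ww
  unfold lam at h ⊢
  field_simp
  ring

theorem M7_dw {d : ℕ} {p z : E d} (hp : ‖p‖ = 1) (hz : ‖z‖ < 1) {τ : ℂ}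
    (hτ : ‖τ‖ ≤ TT p z / 32) :
    ‖ww p (Complex.exp τ • z) - ww p z‖ ≤ 4 * ‖τ‖ / TT p z ^ 2 := by
  have hT : 0 < ‖lam p z‖ := (F3b hz hp.le).2.2.2.2.2.1
  have hτ' : ‖τ‖ ≤ ‖lam p z‖ / 8 := by
    have h0 : TT p z = ‖lam p z‖ := rfl
    rw [h0] at hτ
    linarith
  obtain ⟨h1, h2, h3, h4⟩ := F7b hz hp.le hτ'
  have hT' : 0 < ‖lam p (Complex.exp τ • z)‖ := lt_of_lt_of_le (by positivity) h3
  have hn : lam p z ≠ 0 := norm_pos_iff.1 hT
  have hn' : lam p (Complex.exp τ • z) ≠ 0 := norm_pos_iff.1 hT'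
  rw [M7_ww hn, M7_ww hn']
  show _ ≤ 4 * ‖τ‖ / ‖lam p z‖ ^ 2
  generalize lam p (Complex.exp τ • z) = b at *
  generalize lam p z = a at *
  have e : 2 / b - 1 - (2 / a - 1) = -(2 * (b - a)) / (b * a) := by
    field_simp
    ring
  rw [e, norm_div, norm_neg, norm_mul, norm_mul, div_le_div_iff₀ (by positivity) (by positivity)]
  have e2 : ‖(2 : ℂ)‖ = 2 := by simp
  rw [e2]
  have h5 : ‖b - a‖ * ‖a‖ ^ 2 ≤ 13 / 10 * ‖τ‖ * ‖a‖ ^ 2 :=
    mul_le_mul_of_nonneg_right h1 (by positivity)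
  have h6 : ‖τ‖ * ‖a‖ * (4 / 5 * ‖a‖) ≤ ‖τ‖ * ‖a‖ * ‖b‖ :=
    mul_le_mul_of_nonneg_left h3 (by positivity)
  have h7 : 0 ≤ ‖τ‖ * ‖a‖ ^ 2 := by positivity
  nlinarith [h5, h6, h7]

theorem M7_diffw {d : ℕ} {p z : E d} (hp : ‖p‖ = 1) (hz : ‖z‖ < 1) :
    DifferentiableOn ℂ (fun τ : ℂ => ww p (Complex.exp τ • z))
      (Metric.ball 0 (TT p z / 32)) := by
  intro τ hτ
  have hτ0 : ‖τ‖ < TT p z / 32 := by simpa using hτ
  have hT : 0 < ‖lam p z‖ := (F3b hz hp.le).2.2.2.2.2.1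
  have hτ' : ‖τ‖ ≤ ‖lam p z‖ / 8 := by
    have h0 : TT p z = ‖lam p z‖ := rfl
    rw [h0] at hτ0
    linarith
  obtain ⟨h1, h2, h3, h4⟩ := F7b hz hp.le hτ'
  have hT' : 0 < ‖lam p (Complex.exp τ • z)‖ := lt_of_lt_of_le (by positivity) h3
  have hn' : lam p (Complex.exp τ • z) ≠ 0 := norm_pos_iff.1 hT'
  have hn : (1 : ℂ) - Complex.exp τ * br z p ≠ 0 := by
    unfold lam at hn'
    rwa [br_smul] at hn'
  have e : (fun τ : ℂ => ww p (Complex.exp τ • z)) =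
      fun τ => (1 + Complex.exp τ * br z p) / (1 - Complex.exp τ * br z p) := by
    funext τ
    unfold ww
    rw [br_smul]
  rw [e]
  have d1 : DifferentiableAt ℂ (fun τ : ℂ => Complex.exp τ * br z p) τ :=
    (Complex.differentiableAt_exp).mul_const (br z p)
  have d2 : DifferentiableAt ℂ (fun τ : ℂ => 1 + Complex.exp τ * br z p) τ :=
    d1.const_add 1
  have d3 : DifferentiableAt ℂ (fun τ : ℂ => 1 - Complex.exp τ * br z p) τ :=
    d1.const_sub 1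
  exact (DifferentiableAt.div d2 d3 hn).differentiableWithinAt

theorem M7_anw {d : ℕ} {p : E d} (hp : ‖p‖ = 1) :
    AnalyticOnNhd ℂ (ww p) (Metric.ball 0 1) := by
  intro z hz
  have hz' : ‖z‖ < 1 := by simpa using hz
  have hb : AnalyticAt ℂ (fun z : E d => br z p) z := (innerSL ℂ p).analyticAt z
  have hn : (1 : ℂ) - br z p ≠ 0 := norm_pos_iff.1 (F3b hz' hp.le).2.2.2.2.2.1
  exact (analyticAt_const.add hb).div (analyticAt_const.sub hb) hn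

theorem M7_seq {d : ℕ} {p : E d} (hp : ‖p‖ = 1) : ∃ ζ : ℕ → E d, Seq8 p ζ := by
  have hbr : br p p = 1 := by
    unfold br
    rw [inner_self_eq_norm_sq_to_K, hp]
    norm_num
  obtain ⟨ζ, h, _⟩ := M4a2 hp (W := fun _ _ => True) (fun i δ hδ => by
    obtain ⟨ε, h0, h1, h2⟩ : ∃ ε : ℝ, 0 < ε ∧ ε < 1 ∧ ε < δ :=
      ⟨min (1 / 2) (δ / 2), lt_min (by norm_num) (by linarith),
        lt_of_le_of_lt (min_le_left _ _) (by norm_num),
        lt_of_le_of_lt (min_le_right _ _) (by linarith)⟩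
    refine ⟨((1 - ε : ℝ) : ℂ) • p, ?_, ?_, trivial⟩
    · rw [norm_smul, hp, mul_one, Complex.norm_real, Real.norm_eq_abs, abs_lt]
      constructor <;> linarith
    · show ‖lam p (((1 - ε : ℝ) : ℂ) • p)‖ < δ
      unfold lam
      rw [br_smul, hbr, mul_one]
      have e : (1 : ℂ) - ((1 - ε : ℝ) : ℂ) = ((ε : ℝ) : ℂ) := by
        push_cast
        ring
      rw [e, Complex.norm_real, Real.norm_eq_abs, abs_of_pos h0]
      exact h2)
  exact ⟨ζ, h⟩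

/-- polynomial growth against exponential decay -/
theorem M7_poly (s : ℕ) {ϑ : ℝ} (h0 : 0 < ϑ) (h1 : ϑ < 1) : ∃ B : ℝ, 0 < B ∧
    ∀ j : ℕ, (1 + (j : ℝ)) ^ s * ϑ ^ j ≤ B := by
  have h := (tendsto_pow_const_mul_const_pow_of_abs_lt_one s
    (show |ϑ| < 1 by rw [abs_of_pos h0]; exact h1)).bddAbove_range
  obtain ⟨B, hB⟩ := h
  refine ⟨max B 1 / ϑ, by positivity, fun j => ?_⟩
  have h2 : ((j + 1 : ℕ) : ℝ) ^ s * ϑ ^ (j + 1) ≤ B := hB ⟨j + 1, rfl⟩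
  rw [le_div_iff₀ h0]
  calc (1 + (j : ℝ)) ^ s * ϑ ^ j * ϑ = ((j + 1 : ℕ) : ℝ) ^ s * ϑ ^ (j + 1) := by
        push_cast
        ring
    _ ≤ B := h2
    _ ≤ max B 1 := le_max_left _ _

/-- the final numerical estimate -/
theorem M7_num (s : ℕ) {L ϑ : ℝ} (hL : 0 < L) (h0 : 0 < ϑ) (h1 : ϑ < 1) : ∃ B : ℝ, 0 < B ∧
    ∀ (M j : ℕ) (t : ℝ), 0 < t → t ≤ 1 → (M : ℝ) ≤ L / t + 1 →
      (1 + (1 / (t / (16 * (M + j)))) ^ s) * (Real.exp (-(1 / t)) * ϑ ^ j) ≤ B := by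
  obtain ⟨B, hB, hB2⟩ := M7_poly s h0 h1
  refine ⟨(1 + (16 * (L + 1)) ^ s) * ((2 * s).factorial : ℝ) * B, by positivity,
    fun M j t ht ht1 hM => ?_⟩
  obtain ⟨x, hx, hx1⟩ : ∃ x : ℝ, x = 1 / t ∧ 1 ≤ x := ⟨1 / t, rfl, by
    rw [le_div_iff₀ ht]
    linarith⟩
  have hLx : L / t = L * x := by rw [hx]; ring
  rw [hLx] at hM
  rw [← hx]
  have hj : (0 : ℝ) ≤ j := Nat.cast_nonneg j
  have h2 : (1 : ℝ) / (t / (16 * (M + j))) = 16 * (M + j) * x := by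
    rw [hx, one_div_div]
    ring
  rw [h2]
  have h3 : (16 : ℝ) * (M + j) * x ≤ 16 * (L + 1) * (x ^ 2 * (1 + j)) := by
    have h4 : ((M : ℝ) + j) ≤ (L + 1) * x * (1 + j) := by
      have h5 : (j : ℝ) ≤ (L + 1) * x * j := by
        have : 1 ≤ (L + 1) * x := by nlinarith
        nlinarith
      nlinarith
    have h6 : ((M : ℝ) + j) * x ≤ (L + 1) * x * (1 + j) * x :=
      mul_le_mul_of_nonneg_right h4 (by linarith)
    nlinarith
  have hy : (1 : ℝ) ≤ x ^ 2 * (1 + j) := by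
    have h7 : 1 ≤ x ^ 2 := by nlinarith
    nlinarith
  have h8 : (16 * ((M : ℝ) + j) * x) ^ s ≤ (16 * (L + 1)) ^ s * (x ^ 2 * (1 + j)) ^ s := by
    rw [← mul_pow]
    exact pow_le_pow_left₀ (by positivity) h3 s
  have h9 : 1 + (16 * ((M : ℝ) + j) * x) ^ s ≤
      (1 + (16 * (L + 1)) ^ s) * (x ^ (2 * s) * (1 + j) ^ s) := by
    have h10 : (1 : ℝ) ≤ (x ^ 2 * (1 + j)) ^ s := one_le_pow₀ hy
    have h11 : (x ^ 2 * (1 + (j : ℝ))) ^ s = x ^ (2 * s) * (1 + j) ^ s := by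
      rw [mul_pow, pow_mul]
    rw [h11] at h8 h10
    nlinarith
  have h12 : x ^ (2 * s) * Real.exp (-x) ≤ ((2 * s).factorial : ℝ) := by
    have h13 := Real.pow_div_factorial_le_exp x (by linarith) (2 * s)
    rw [div_le_iff₀ (by positivity)] at h13
    rw [Real.exp_neg]
    calc x ^ (2 * s) * (Real.exp x)⁻¹ ≤ Real.exp x * ((2 * s).factorial : ℝ) * (Real.exp x)⁻¹ :=
          mul_le_mul_of_nonneg_right h13 (by positivity)
      _ = ((2 * s).factorial : ℝ) := by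
          field_simp
  calc (1 + (16 * ((M : ℝ) + j) * x) ^ s) * (Real.exp (-x) * ϑ ^ j)
      ≤ (1 + (16 * (L + 1)) ^ s) * (x ^ (2 * s) * (1 + j) ^ s) * (Real.exp (-x) * ϑ ^ j) :=
        mul_le_mul_of_nonneg_right h9 (by positivity)
    _ = (1 + (16 * (L + 1)) ^ s) * ((x ^ (2 * s) * Real.exp (-x)) * ((1 + j) ^ s * ϑ ^ j)) := by
        ring
    _ ≤ (1 + (16 * (L + 1)) ^ s) * (((2 * s).factorial : ℝ) * B) := by
        refine mul_le_mul_of_nonneg_left ?_ (by positivity)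
        exact mul_le_mul h12 (hB2 j) (by positivity) (by positivity)
    _ = (1 + (16 * (L + 1)) ^ s) * ((2 * s).factorial : ℝ) * B := by ring

/-- Proof.  Apply `M7a2` with `K+1` in place of `K`: constants `A', C₁, ϑ₁`.  Let `s = d+1` and
`m = (1-z₁)^{6s} e^{-A'w}`, the case `N = 0` of `G_N e^{-U}` with `U = A'w` (for the `Seq8` sequence take any,
e.g. from `M4a2` with the trivial property, using the points `(1-ε)p`).  `Re U = A' Re w ≥ 0`; for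
`|τ| ≤ T/32` (`T = T_p(z) = r_0(z)`): `|w(e^τz)-w(z)| = 2|z₁-e^τz₁|/(|1-e^τz₁||1-z₁|) ≤ 2(13/10)|τ|/((4/5)T²) ≤ 4|τ|/T²`
(`F7b` with `ζ = p`).
By `M3` (`F = 1`, `ρ = 1`): `|m|, |N^{d+1}m| ≤ 2C`; `|m(0)| = e^{-A'}`; `m` is analytic.  Let `C'` be the constant
of `PR` for the constant sequence `m_N = m`.
Test function `F = Ej p M j y` (`M7b`; `M ≥ 1`).  By `M3` with `ρ = t/(16(M+j))` (`t = t(y)`; `M7t`) and `M7a2`:
`|mF|, |N^{d+1}(mF)| ≤ C(1+(16(M+j)/t)^{d+1}) C₁ t^{-M} e^{-(K+1)/t}ϑ₁^j`.  So by `PR`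
`t^M |cj (Ph f M) p j y| ≤ C' C C₁ (1+(16(M+j)/t)^{d+1}) e^{-(K+1)/t}ϑ₁^j`.  With `ϑ = √ϑ₁`,
`M ≤ L/t+1`: `(1+(16(L/t+1+j)/t)^{d+1}) e^{-1/t} ϑ^j` is bounded by a constant (a polynomial in
`1/t ≥ 1` and `j` times decaying exponentials). -/
theorem M7 {d : ℕ} (hd : 1 ≤ d) {f : PS d} (hf : f ∈ RD d) {p : E d} (hp : ‖p‖ = 1)
    {Sg K L γ : ℝ} (hS : 1 ≤ Sg) (hK : 0 < K) (hL : 0 < L) (hγ : 0 < γ) :
    ∃ C ϑ : ℝ, 0 < C ∧ 0 < ϑ ∧ ϑ < 1 ∧ ∀ (M j : ℕ) (y : E d), ‖y‖ < 1 → L / tt y ≤ M →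
      (M : ℝ) ≤ L / tt y + 1 → TT p y ≤ Sg * tt y → γ / tt y ≤ j →
      tt y ^ M * ‖cj (Ph f M) p j y‖ ≤ C * Real.exp (-(K / tt y)) * ϑ ^ j := by
  obtain ⟨A', C₁, ϑ₁, hA', hC₁, hϑ0, hϑ1, hM7⟩ := M7a2 hS (show 0 < K + 1 by linarith) hL hγ
  obtain ⟨ζ, hζ⟩ := M7_seq hp
  obtain ⟨C, hC, hM3⟩ := M3 (d := d) (d + 1) (show 0 ≤ 4 * A' by positivity)
  -- the multiplier
  have hU1 : ∀ z : E d, ‖z‖ < 1 → ∀ τ : ℂ, ‖τ‖ ≤ rN p ζ 0 z / 32 →
      ‖(A' : ℂ) * ww p (Complex.exp τ • z) - (A' : ℂ) * ww p z‖ ≤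
        4 * A' * ‖τ‖ / (rN p ζ 0 z) ^ 2 := by
    intro z hz τ hτ
    have h1 := M7_dw hp hz (τ := τ) hτ
    rw [← mul_sub, norm_mul, Complex.norm_real, Real.norm_eq_abs, abs_of_nonneg hA']
    have h2 := mul_le_mul_of_nonneg_left h1 hA'
    calc A' * ‖ww p (Complex.exp τ • z) - ww p z‖ ≤ A' * (4 * ‖τ‖ / TT p z ^ 2) := h2
      _ = 4 * A' * ‖τ‖ / (rN p ζ 0 z) ^ 2 := by
          show _ = 4 * A' * ‖τ‖ / (TT p z) ^ 2
          ring
  have hU2 : ∀ z : E d, ‖z‖ < 1 → DifferentiableOn ℂ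
      (fun τ : ℂ => (A' : ℂ) * ww p (Complex.exp τ • z)) (Metric.ball 0 (rN p ζ 0 z / 32)) :=
    fun z hz => (M7_diffw hp hz).const_mul _
  have hre : ∀ z : E d, ((A' : ℂ) * ww p z).re = A' * (ww p z).re := fun z =>
    Complex.re_ofReal_mul _ _
  have hm : ∀ z : E d, ‖z‖ < 1 →
      ‖Gf p ζ (d + 1) 0 z * Complex.exp (-((A' : ℂ) * ww p z))‖ ≤ 2 * C ∧
      ‖Nd (d + 1) (fun x => Gf p ζ (d + 1) 0 x * Complex.exp (-((A' : ℂ) * ww p x))) z‖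
        ≤ 2 * C := by
    intro z hz
    obtain ⟨h1, h2⟩ := hM3 p ζ hζ 0 (fun x => (A' : ℂ) * ww p x) (fun _ => 1) z hz 1 one_pos le_rfl
      (hU1 z hz) (fun τ _ _ => by
        simp only [norm_one, mul_one]
        exact Real.one_le_exp (by norm_num)) (hU2 z hz) (differentiableOn_const _)
    simp only [mul_one, norm_one, one_div, inv_one, one_pow] at h1 h2
    have h3 : Real.exp (-((A' : ℂ) * ww p z).re) ≤ 1 := by
      rw [Real.exp_le_one_iff, hre]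
      have := mul_nonneg hA' (F2a hp hz).2.2.2.1.le
      linarith
    constructor
    · refine h1.trans ?_
      nlinarith
    · refine h2.trans ?_
      nlinarith
  have hκ : 0 < Real.exp (-(2 * ((d + 1 : ℕ) : ℝ))) * Real.exp (-A') := by positivity
  obtain ⟨C', hC', hPR⟩ := PR hd hf (m := fun _ z =>
      Gf p ζ (d + 1) 0 z * Complex.exp (-((A' : ℂ) * ww p z))) (K := 2 * C) hκ
    (fun _ => (M2a hζ (d + 1) 0).mul
      ((analyticOnNhd_const.mul (M7_anw hp)).neg.cexp))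
    (fun _ z hz => (hm z hz).1) (fun _ z hz => (hm z hz).2) (fun _ => by
      show _ ≤ ‖Gf p ζ (d + 1) 0 0 * Complex.exp (-((A' : ℂ) * ww p 0))‖
      rw [norm_mul, Complex.norm_exp, Complex.neg_re, hre]
      have h1 : ww p (0 : E d) = 1 := by
        unfold ww br
        rw [inner_zero_right]
        norm_num
      rw [h1, Complex.one_re, mul_one]
      exact mul_le_mul_of_nonneg_right (M2z hζ (d + 1) 0) (Real.exp_pos _).le)
  obtain ⟨B, hB, hB2⟩ := M7_num (d + 1) hL (Real.sqrt_pos.2 hϑ0)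
    (show Real.sqrt ϑ₁ < 1 by
      rw [Real.sqrt_lt' one_pos]
      linarith)
  refine ⟨C' * C * C₁ * B + 1, Real.sqrt ϑ₁, by positivity, Real.sqrt_pos.2 hϑ0, by
    rw [Real.sqrt_lt' one_pos]
    linarith, fun M j y hy hML hMU hTy hj => ?_⟩
  obtain ⟨_, _, _, _, _, ht0, ht1⟩ := F1b hp hy
  have hM1 : 1 ≤ M := by
    have h1 : 0 < L / tt y := by positivity
    have h2 : (0 : ℝ) < M := lt_of_lt_of_le h1 hML
    have h3 : 0 < M := by exact_mod_cast h2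
    exact h3
  have hM1' : (1 : ℝ) ≤ M := by exact_mod_cast hM1
  have hj0 : (0 : ℝ) ≤ j := Nat.cast_nonneg j
  obtain ⟨e, he, hTS, hip⟩ := M7b hp hy (j := j) hM1 (RD_Sp hf)
  set ρ : ℝ := tt y / (16 * (M + j)) with hρ
  have hρ0 : 0 < ρ := by positivity
  have hρ1 : ρ ≤ 1 := by
    rw [hρ, div_le_one (by positivity)]
    nlinarith
  have hmain := hPR (Ej p M j y) e
    (C * (1 + (1 / ρ) ^ (d + 1)) * (C₁ * Real.exp (-((K + 1) / tt y)) * ϑ₁ ^ j) / tt y ^ M)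
    hTS he (Filter.Eventually.of_forall fun N z hz => by
      obtain ⟨h1, h2⟩ := hM3 p ζ hζ 0 (fun x => (A' : ℂ) * ww p x) (Ej p M j y) z hz ρ hρ0 hρ1
        (hU1 z hz) (fun τ hτ _ => (M7t hp hy hz hM1).1 τ hτ) (hU2 z hz)
        ((M7t hp hy hz hM1).2.mono (Metric.ball_subset_ball (min_le_left _ _)))
      have h3 := hM7 d p hp M j y z hy hz hML hMU hTy hj
      have htM : 0 < tt y ^ M := by positivity
      have h4 : Real.exp (-((A' : ℂ) * ww p z).re) * ‖Ej p M j y z‖ ≤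
          C₁ * Real.exp (-((K + 1) / tt y)) * ϑ₁ ^ j / tt y ^ M := by
        rw [le_div_iff₀ htM, hre, mul_comm]
        exact h3
      have h5 : C * (1 + (1 / ρ) ^ (d + 1)) * (C₁ * Real.exp (-((K + 1) / tt y)) * ϑ₁ ^ j) /
          tt y ^ M = C * (1 + (1 / ρ) ^ (d + 1)) *
            (C₁ * Real.exp (-((K + 1) / tt y)) * ϑ₁ ^ j / tt y ^ M) := by ring
      rw [h5]
      have h6 : 0 ≤ (1 / ρ) ^ (d + 1) := by positivity
      constructor
      · calc _ ≤ C * Real.exp (-((A' : ℂ) * ww p z).re) * ‖Ej p M j y z‖ := h1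
          _ = C * 1 * (Real.exp (-((A' : ℂ) * ww p z).re) * ‖Ej p M j y z‖) := by ring
          _ ≤ C * (1 + (1 / ρ) ^ (d + 1)) *
              (Real.exp (-((A' : ℂ) * ww p z).re) * ‖Ej p M j y z‖) := by
              refine mul_le_mul_of_nonneg_right ?_ (by positivity)
              exact mul_le_mul_of_nonneg_left (by linarith) hC.le
          _ ≤ _ := mul_le_mul_of_nonneg_left h4 (by positivity)
      · calc _ ≤ C * (1 + (1 / ρ) ^ (d + 1)) * Real.exp (-((A' : ℂ) * ww p z).re) *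
              ‖Ej p M j y z‖ := h2
          _ = C * (1 + (1 / ρ) ^ (d + 1)) *
              (Real.exp (-((A' : ℂ) * ww p z).re) * ‖Ej p M j y z‖) := by ring
          _ ≤ _ := mul_le_mul_of_nonneg_left h4 (by positivity))
  rw [hip, RCLike.norm_conj] at hmain
  have htM : 0 < tt y ^ M := by positivity
  have h7 := mul_le_mul_of_nonneg_left hmain htM.le
  refine h7.trans ?_
  have h8 : Real.exp (-((K + 1) / tt y)) = Real.exp (-(K / tt y)) * Real.exp (-(1 / tt y)) := by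
    rw [← Real.exp_add]
    congr 1
    ring
  have h9 : ϑ₁ ^ j = Real.sqrt ϑ₁ ^ j * Real.sqrt ϑ₁ ^ j := by
    rw [← mul_pow, Real.mul_self_sqrt hϑ0.le]
  have h10 := hB2 M j (tt y) ht0 ht1 hMU
  rw [← hρ] at h10
  calc tt y ^ M * (C' * (C * (1 + (1 / ρ) ^ (d + 1)) *
        (C₁ * Real.exp (-((K + 1) / tt y)) * ϑ₁ ^ j) / tt y ^ M))
      = C' * C * C₁ * ((1 + (1 / ρ) ^ (d + 1)) * (Real.exp (-(1 / tt y)) * Real.sqrt ϑ₁ ^ j)) *
          (Real.exp (-(K / tt y)) * Real.sqrt ϑ₁ ^ j) := by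
        rw [h8, h9]
        field_simp
    _ ≤ C' * C * C₁ * B * (Real.exp (-(K / tt y)) * Real.sqrt ϑ₁ ^ j) := by
        refine mul_le_mul_of_nonneg_right ?_ (by positivity)
        exact mul_le_mul_of_nonneg_left h10 (by positivity)
    _ ≤ (C' * C * C₁ * B + 1) * Real.exp (-(K / tt y)) * Real.sqrt ϑ₁ ^ j := by
        have h11 : 0 ≤ Real.exp (-(K / tt y)) * Real.sqrt ϑ₁ ^ j := by positivity
        nlinarith

end Pool.Agent.CRT
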