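import Pool.Agent.CRT.A1

/-!
# [P2x] Power series on the ball: sums by degree, uniqueness, products
-/

set_option autoImplicit false

namespace Pool.Agent.CRT

open Finset MvPowerSeries

theorem P2x_fiber {d : ℕ} (g : MI d → ℂ) (k : ℕ) :
    HasSum (fun y : {α : MI d // α.degree = k} => g y) (∑ α ∈ A d k, g α) := by
  have h1 : HasSum (Set.indicator {α : MI d | α.degree = k} g) (∑ α ∈ A d k, g α) := by
    have h2 : ∑ α ∈ A d k, g α = ∑ α ∈ A d k, Set.indicator {α : MI d | α.degree = k} g α := by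
      refine Finset.sum_congr rfl fun α hα => ?_
      rw [Set.indicator_of_mem]
      exact mem_A.1 hα
    rw [h2]
    apply hasSum_sum_of_ne_finset_zero
    intro α hα
    rw [Set.indicator_of_notMem]
    intro h
    exact hα (mem_A.2 h)
  exact hasSum_subtype_iff_indicator.2 h1

theorem P2x_group {d : ℕ} {g : MI d → ℂ} {a : ℂ} (h : HasSum g a) :
    HasSum (fun k => ∑ α ∈ A d k, g α) a := by
  have h1 := (Equiv.sigmaFiberEquiv fun α : MI d => α.degree).hasSum_iff.2 h
  exact HasSum.sigma (f := g ∘ ⇑(Equiv.sigmaFiberEquiv fun α : MI d => α.degree)) h1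
    fun k => P2x_fiber g k

/-- summing by degree: `F(z) = ∑_k f_k(z)`, with `∑_k ∑_{|α|=k} |f_α z^α| < ∞` -/
theorem P2c {d : ℕ} {F : E d → ℂ} {f : PS d} (h : IsTS F f) {z : E d} (hz : ‖z‖ < 1) :
    HasSum (fun k => hp f k z) (F z) ∧ Summable (fun α => ‖coeff α f * mono z α‖) ∧
      Summable fun k => ‖hp f k z‖ := by
  have h1 := h z hz
  have h2 : Summable (fun α => ‖coeff α f * mono z α‖) := h1.summable.norm
  refine ⟨P2x_group h1, h2, ?_⟩
  have h3 := (A0a_summable_iff (g := fun α => ‖coeff α f * mono z α‖)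
    fun α => norm_nonneg _).1 h2
  refine Summable.of_nonneg_of_le (fun k => norm_nonneg _) (fun k => ?_) h3
  exact norm_sum_le _ _

/-- conversely, `IsTS` from the absolute convergence: `ev f` has the Taylor series `f` -/
theorem P2e {d : ℕ} {f : PS d}
    (h : ∀ z : E d, ‖z‖ < 1 → Summable fun α => ‖coeff α f * mono z α‖) : IsTS (ev f) f :=
  fun z hz => (h z hz).of_norm.hasSum

/-- `IsTS F f` gives `F = ev f` on the ball -/
theorem P2f {d : ℕ} {F : E d → ℂ} {f : PS d} (h : IsTS F f) {z : E d} (hz : ‖z‖ < 1) :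
    F z = ev f z := (h z hz).tsum_eq.symm

theorem P2x_smul {d : ℕ} (f : PS d) (k : ℕ) (c : ℂ) (z : E d) :
    hp f k (c • z) = c ^ k * hp f k z := by
  unfold hp
  rw [Finset.mul_sum]
  refine Finset.sum_congr rfl fun α hα => ?_
  have h1 : mono (c • z) α = c ^ k * mono z α := by
    unfold mono
    rw [← mem_A.1 hα, Finsupp.degree_eq_sum, ← Finset.prod_pow_eq_pow_sum, ← Finset.prod_mul_distrib]
    refine Finset.prod_congr rfl fun i _ => ?_
    rw [← mul_pow]
    rfl
  rw [h1]
  ring

theorem P2x_zero {c : ℕ → ℂ} {r : ℝ} (hr : 0 < r)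
    (h : ∀ μ : ℂ, ‖μ‖ < r → HasSum (fun k => μ ^ k * c k) 0) (k : ℕ) : c k = 0 := by
  have h1 : HasFPowerSeriesAt (0 : ℂ → ℂ) (FormalMultilinearSeries.ofScalars ℂ c) 0 := by
    rw [hasFPowerSeriesAt_iff]
    filter_upwards [Metric.ball_mem_nhds (0 : ℂ) hr] with μ hμ
    have h2 := h μ (by simpa using hμ)
    have h3 : ∀ n, μ ^ n • (FormalMultilinearSeries.ofScalars ℂ c).coeff n = μ ^ n * c n := by
      intro n
      rw [FormalMultilinearSeries.coeff_ofScalars, smul_eq_mul]
    simp only [h3]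
    exact h2
  have h2 := h1.eq_zero
  rw [FormalMultilinearSeries.ofScalars_series_eq_zero] at h2
  rw [h2]
  rfl

/-- uniqueness of the Taylor series.

Proof.  With `h = f - g`: `0 = ∑_k h_k(z)` on the ball, so for fixed `z ∈ S`, `∑_k h_k(z) μ^k = 0`
for all `|μ| < 1`, hence `h_k(z) = 0` for all `k` and `z` (one-variable uniqueness of power series,
`HasFPowerSeriesOnBall`/`hasSum` identity theorem).  A polynomial `∑_{|α|=k} h_α z^α` vanishing for all
`z ∈ ℂ^d` has zero coefficients (`MvPolynomial.funext`). -/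
theorem P2a {d : ℕ} {F : E d → ℂ} {f g : PS d} (hf : IsTS F f) (hg : IsTS F g) : f = g := by
  have key : ∀ (k : ℕ) (z : E d), hp (f - g) k z = 0 := by
    intro k z
    have hr : (0 : ℝ) < 1 / (‖z‖ + 1) := by positivity
    refine P2x_zero (c := fun k => hp (f - g) k z) hr (fun μ hμ => ?_) k
    have hz : ‖μ • z‖ < 1 := by
      rw [norm_smul]
      have h1 : ‖μ‖ * ‖z‖ ≤ (1 / (‖z‖ + 1)) * ‖z‖ :=
        mul_le_mul_of_nonneg_right hμ.le (norm_nonneg _)
      have h2 : (1 / (‖z‖ + 1)) * ‖z‖ < 1 := by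
        rw [div_mul_eq_mul_div, one_mul, div_lt_one (by positivity)]
        linarith
      linarith
    have h1 := (hf (μ • z) hz).sub (hg (μ • z) hz)
    rw [sub_self] at h1
    have h2 : HasSum (fun α => coeff α (f - g) * mono (μ • z) α) 0 := by
      refine h1.congr_fun ?_ 
      intro α
      rw [map_sub, sub_mul]
    have h3 := P2x_group h2
    have h4 : ∀ k, ∑ α ∈ A d k, coeff α (f - g) * mono (μ • z) α = μ ^ k * hp (f - g) k z :=
      fun k => P2x_smul (f - g) k μ z
    simp only [h4] at h3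
    exact h3
  apply MvPowerSeries.ext
  intro β
  let p : MvPolynomial (Fin d) ℂ := ∑ α ∈ A d β.degree, MvPolynomial.monomial α (coeff α (f - g))
  have hp0 : p = 0 := by
    apply MvPolynomial.funext
    intro x
    have h1 := key β.degree (WithLp.toLp 2 x)
    rw [map_zero, map_sum, ← h1]
    unfold hp mono
    refine Finset.sum_congr rfl fun α _ => ?_
    rw [MvPolynomial.eval_monomial, Finsupp.prod_fintype _ _ fun i => pow_zero _]
  have h2 : MvPolynomial.coeff β p = coeff β (f - g) := by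
    show MvPolynomial.coeff β (∑ α ∈ A d β.degree, MvPolynomial.monomial α (coeff α (f - g))) = _
    rw [MvPolynomial.coeff_sum, Finset.sum_eq_single β]
    · rw [MvPolynomial.coeff_monomial, if_pos rfl]
    · intro α _ hne
      rw [MvPolynomial.coeff_monomial, if_neg hne]
    · intro h
      exact absurd (mem_A.2 rfl) h
  rw [hp0, MvPolynomial.coeff_zero, map_sub] at h2
  exact (sub_eq_zero.1 h2.symm)

theorem P2x_mulHasSum {d : ℕ} {a b : MI d → ℂ} {A₁ B₁ : ℂ} (ha : HasSum a A₁) (hb : HasSum b B₁) :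
    HasSum (fun γ => ∑ kl ∈ antidiagonal γ, a kl.1 * b kl.2) (A₁ * B₁) := by
  have h3 := summable_mul_of_summable_norm ha.summable.norm hb.summable.norm
  have h4 := summable_sum_mul_antidiagonal_of_summable_mul h3
  have h5 := ha.summable.tsum_mul_tsum_eq_tsum_sum_antidiagonal hb.summable h3
  rw [ha.tsum_eq, hb.tsum_eq] at h5
  exact h5 ▸ h4.hasSum

theorem P2x_mono_add {d : ℕ} (z : E d) {γ : MI d} {q : MI d × MI d} (hq : q.1 + q.2 = γ) :
    mono z γ = mono z q.1 * mono z q.2 := by
  subst hq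
  unfold mono
  rw [← Finset.prod_mul_distrib]
  refine Finset.prod_congr rfl fun i _ => ?_
  rw [← pow_add, ← Finsupp.add_apply]

theorem P2x_coeff {d : ℕ} (f g : PS d) (z : E d) (γ : MI d) : coeff γ (f * g) * mono z γ =
      ∑ kl ∈ antidiagonal γ, (coeff kl.1 f * mono z kl.1) * (coeff kl.2 g * mono z kl.2) := by
  rw [MvPowerSeries.coeff_mul, Finset.sum_mul]
  refine Finset.sum_congr rfl fun q hq => ?_
  rw [P2x_mono_add z (Finset.HasAntidiagonal.mem_antidiagonal.1 hq)]
  ring

/-- products (absolutely convergent families, `mono z (α+β) = mono z α * mono z β`,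
`MvPowerSeries.coeff_mul`) -/
theorem P2b {d : ℕ} {F G : E d → ℂ} {f g : PS d} (hf : IsTS F f) (hg : IsTS G g) :
    IsTS (fun z => F z * G z) (f * g) := by
  intro z hz
  have h := P2x_mulHasSum (hf z hz) (hg z hz)
  exact h.congr_fun fun γ => P2x_coeff f g z γ

end Pool.Agent.CRT
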