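import Pool.Agent.CRT.A1
import Pool.Agent.CRT.P2x

/-!
# [P2y] Power series on the ball: polynomials, slices, Cauchy estimates, radial derivatives
-/

set_option autoImplicit false

namespace Pool.Agent.CRT

open Finset MvPowerSeries

theorem P2y_mono_diff {d : ℕ} (α : MI d) : Differentiable ℂ (fun z : E d => mono z α) := by
  have h1 : ∀ i : Fin d, Differentiable ℂ (fun z : E d => z i ^ α i) := by
    intro i
    have h2 : Differentiable ℂ (fun z : E d => z i) :=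
      (EuclideanSpace.proj i : E d →L[ℂ] ℂ).differentiable
    exact h2.fun_pow _
  have h3 : ∀ s : Finset (Fin d), Differentiable ℂ (fun z : E d => ∏ i ∈ s, z i ^ α i) := by
    intro s
    induction s using Finset.induction_on with
    | empty =>
      simp only [Finset.prod_empty]
      exact differentiable_const _
    | insert i s hi ih =>
      simp only [Finset.prod_insert hi]
      exact (h1 i).fun_mul ih
  exact h3 Finset.univ

theorem P2y_hp_diff {d : ℕ} (f : PS d) (k : ℕ) : Differentiable ℂ (hp f k) := by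
  unfold hp
  refine Differentiable.fun_sum fun α _ => ?_
  exact (P2y_mono_diff α).const_mul _

theorem P2y_hasSum_poly {d : ℕ} {h : PS d} {K : ℕ} (hh : ∀ α : MI d, K < α.degree → coeff α h = 0)
    (z : E d) : HasSum (fun α => coeff α h * mono z α) (∑ k ∈ range (K + 1), hp h k z) := by
  have hdis : Set.PairwiseDisjoint (↑(range (K + 1)) : Set ℕ) (A d) := by
    intro i _ j _ hij
    rw [Function.onFun, Finset.disjoint_left]
    intro α h1 h2
    exact hij ((mem_A.1 h1).symm.trans (mem_A.1 h2))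
  have h1 : ∑ k ∈ range (K + 1), hp h k z =
      ∑ α ∈ (range (K + 1)).biUnion (A d), coeff α h * mono z α := by
    rw [Finset.sum_biUnion hdis]
    rfl
  rw [h1]
  refine hasSum_sum_of_ne_finset_zero fun α hα => ?_
  rw [hh α ?_, zero_mul]
  by_contra hc
  refine hα (Finset.mem_biUnion.2 ⟨α.degree, ?_, mem_A.2 rfl⟩)
  rw [Finset.mem_range]
  omega

/-- polynomials: `ev h` is the finite sum `∑_{k ≤ K} h_k(z)` for every `z`, `IsTS (ev h) h`,
and `ev h` is continuous and analytic on the whole space -/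
theorem P2p {d : ℕ} {h : PS d} {K : ℕ} (hh : ∀ α : MI d, K < α.degree → coeff α h = 0) :
    (∀ z : E d, ev h z = ∑ k ∈ range (K + 1), hp h k z) ∧ IsTS (ev h) h ∧ Continuous (ev h) ∧
      Differentiable ℂ (ev h) := by
  have h1 : ∀ z : E d, ev h z = ∑ k ∈ range (K + 1), hp h k z := fun z =>
    (P2y_hasSum_poly hh z).tsum_eq
  have h2 : ev h = fun z => ∑ k ∈ range (K + 1), hp h k z := funext h1
  have h3 : Differentiable ℂ (ev h) := by
    rw [h2]
    exact Differentiable.fun_sum fun k _ => P2y_hp_diff h k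
  refine ⟨h1, ?_, h3.continuous, h3⟩
  intro z _
  rw [h1]
  exact P2y_hasSum_poly hh z

/-- the slice function: for `z` in the ball (or `‖z‖ ≤ 1` and `|μ| < 1`),
`F(μz) = ∑_k f_k(z) μ^k` whenever `‖μ z‖ < 1` -/
theorem P2s {d : ℕ} {F : E d → ℂ} {f : PS d} (h : IsTS F f) {z : E d} {μ : ℂ}
    (hz : ‖μ • z‖ < 1) : HasSum (fun k => hp f k z * μ ^ k) (F (μ • z)) := by
  have h1 := (P2c h hz).1
  refine h1.congr_fun ?_
  intro k
  rw [hp_smul, mul_comm]

theorem P2y_deriv {a : ℕ → ℂ} {g : ℂ → ℂ} {ρ : ℝ}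
    (H : ∀ μ : ℂ, ‖μ‖ < ρ → HasSum (fun k => a k * μ ^ k) (g μ)) {μ : ℂ} (hμ : ‖μ‖ < ρ) :
    DifferentiableAt ℂ g μ ∧ HasSum (fun k : ℕ => (k : ℂ) * a k * μ ^ (k - 1)) (deriv g μ) := by
  obtain ⟨r, hr1, hr2⟩ := exists_between hμ
  have hr0 : 0 ≤ r := (norm_nonneg μ).trans hr1.le
  have hu : Summable (fun k => ‖a k‖ * r ^ k) := by
    have h1 := (H (r : ℂ) (by rwa [Complex.norm_real, Real.norm_of_nonneg hr0])).summable.norm
    refine h1.congr fun k => ?_
    rw [norm_mul, norm_pow, Complex.norm_real, Real.norm_of_nonneg hr0]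
  have hd : ∀ i : ℕ, DifferentiableOn ℂ (fun w : ℂ => a i * w ^ i) (Metric.ball 0 r) := by
    intro i
    exact ((differentiable_id.pow i).const_mul (a i)).differentiableOn
  have hle : ∀ (i : ℕ) (w : ℂ), w ∈ Metric.ball (0 : ℂ) r → ‖a i * w ^ i‖ ≤ ‖a i‖ * r ^ i := by
    intro i w hw
    rw [mem_ball_zero_iff] at hw
    rw [norm_mul, norm_pow]
    exact mul_le_mul_of_nonneg_left (pow_le_pow_left₀ (norm_nonneg w) hw.le i) (norm_nonneg _)
  have hmem : μ ∈ Metric.ball (0 : ℂ) r := mem_ball_zero_iff.2 hr1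
  have hev : (fun w : ℂ => ∑' i : ℕ, a i * w ^ i) =ᶠ[nhds μ] g := by
    filter_upwards [Metric.isOpen_ball.mem_nhds hmem] with w hw
    rw [mem_ball_zero_iff] at hw
    exact (H w (hw.trans hr2)).tsum_eq
  have h1 := Complex.hasSum_deriv_of_summable_norm hu hd Metric.isOpen_ball hle hmem
  have h2 := Complex.differentiableOn_tsum_of_summable_norm hu hd Metric.isOpen_ball hle
  refine ⟨((h2.differentiableAt (Metric.isOpen_ball.mem_nhds hmem)).congr_of_eventuallyEq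
    hev.symm), ?_⟩
  rw [hev.deriv_eq] at h1
  refine h1.congr_fun ?_
  intro k
  rw [deriv_const_mul _ (differentiableAt_pow k), deriv_pow_field]
  ring

theorem P2y_iter {ρ : ℝ} (hρ : 0 < ρ) (n : ℕ) : ∀ {a : ℕ → ℂ} {g : ℂ → ℂ}
    (_ : ∀ μ : ℂ, ‖μ‖ < ρ → HasSum (fun k => a k * μ ^ k) (g μ)),
    iteratedDeriv n g 0 = (n.factorial : ℂ) * a n := by
  induction n with
  | zero =>
    intro a g H
    rw [iteratedDeriv_zero, Nat.factorial_zero, Nat.cast_one, one_mul]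
    have h1 := H 0 (by rwa [norm_zero])
    have h2 : HasSum (fun k => a k * (0 : ℂ) ^ k) (a 0) := by
      have h3 := hasSum_single (f := fun k => a k * (0 : ℂ) ^ k) 0
        (fun k hk => by simp [hk])
      simpa using h3
    exact h1.unique h2
  | succ n ih =>
    intro a g H
    have H' : ∀ μ : ℂ, ‖μ‖ < ρ →
        HasSum (fun k : ℕ => ((k + 1 : ℕ) : ℂ) * a (k + 1) * μ ^ k) (deriv g μ) := by
      intro μ hμ
      have h1 := (P2y_deriv H hμ).2
      have h2 := (hasSum_nat_add_iff' 1).2 h1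
      simpa using h2
    rw [iteratedDeriv_succ', ih H', Nat.factorial_succ]
    push_cast
    ring

/-- Cauchy's estimate for the homogeneous parts: if `|F| ≤ C` on `{‖z‖ = r}`, `0 < r < 1`, then
`|f_k(ζ)| ≤ C r^{-k}` for `ζ ∈ S`: the function `μ ↦ F(μζ)` is analytic on `|μ| < 1` with Taylor
coefficients `f_k(ζ)`. -/
theorem P2h {d : ℕ} {F : E d → ℂ} {f : PS d} (h : IsTS F f) {r C : ℝ} (hr0 : 0 < r) (hr : r < 1)
    (hC : ∀ z : E d, ‖z‖ = r → ‖F z‖ ≤ C) (k : ℕ) {ζ : E d} (hζ : ‖ζ‖ = 1) :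
    ‖hp f k ζ‖ ≤ C / r ^ k := by
  have H : ∀ μ : ℂ, ‖μ‖ < 1 → HasSum (fun k => hp f k ζ * μ ^ k) (F (μ • ζ)) := by
    intro μ hμ
    exact P2s h (by rwa [norm_smul, hζ, mul_one])
  have h1 : iteratedDeriv k (fun μ : ℂ => F (μ • ζ)) 0 = (k.factorial : ℂ) * hp f k ζ :=
    P2y_iter one_pos k H
  have hd : DiffContOnCl ℂ (fun μ : ℂ => F (μ • ζ)) (Metric.ball 0 r) := by
    refine DifferentiableOn.diffContOnCl fun μ hμ => ?_
    have h2 := Metric.closure_ball_subset_closedBall hμ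
    rw [mem_closedBall_zero_iff] at h2
    exact (P2y_deriv H (h2.trans_lt hr)).1.differentiableWithinAt
  have h3 := Complex.norm_iteratedDeriv_le_of_forall_mem_sphere_norm_le k hr0 hd
    (C := C) (fun μ hμ => hC _ (by
      rw [mem_sphere_zero_iff_norm] at hμ
      rw [norm_smul, hζ, mul_one, hμ]))
  rw [h1, norm_mul, Complex.norm_natCast, mul_div_assoc] at h3
  exact le_of_mul_le_mul_left h3 (by exact_mod_cast Nat.factorial_pos k)

theorem P2y_exp {a : ℕ → ℂ} {g : ℂ → ℂ} {ρ : ℝ}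
    (H : ∀ μ : ℂ, ‖μ‖ < ρ → HasSum (fun k => a k * μ ^ k) (g μ)) (s : ℕ) :
    ∃ gs : ℂ → ℂ, (∀ μ : ℂ, ‖μ‖ < ρ → HasSum (fun k : ℕ => (k : ℂ) ^ s * a k * μ ^ k) (gs μ)) ∧
      ∀ τ : ℂ, ‖Complex.exp τ‖ < ρ →
        iteratedDeriv s (fun τ : ℂ => g (Complex.exp τ)) τ = gs (Complex.exp τ) := by
  induction s with
  | zero =>
    refine ⟨g, fun μ hμ => ?_, fun τ _ => by rw [iteratedDeriv_zero]⟩
    simpa using H μ hμ
  | succ s ih =>
    obtain ⟨gs, h1, h2⟩ := ih
    refine ⟨fun μ => μ * deriv gs μ, fun μ hμ => ?_, fun τ hτ => ?_⟩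
    · have h3 := ((P2y_deriv h1 hμ).2).mul_left μ
      refine h3.congr_fun ?_
      intro k
      rcases Nat.eq_zero_or_pos k with rfl | hk
      · simp
      · obtain ⟨j, rfl⟩ : ∃ j, k = j + 1 := ⟨k - 1, by omega⟩
        rw [Nat.add_sub_cancel, pow_succ μ, pow_succ (((j + 1 : ℕ) : ℂ))]
        ring
    · rw [iteratedDeriv_succ]
      have hopen : IsOpen {τ : ℂ | ‖Complex.exp τ‖ < ρ} :=
        isOpen_lt (Complex.continuous_exp.norm) continuous_const
      have hev : iteratedDeriv s (fun τ : ℂ => g (Complex.exp τ)) =ᶠ[nhds τ]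
          fun τ => gs (Complex.exp τ) := by
        filter_upwards [hopen.mem_nhds hτ] with σ hσ
        exact h2 σ hσ
      rw [hev.deriv_eq]
      have h3 : HasDerivAt gs (deriv gs (Complex.exp τ)) (Complex.exp τ) :=
        (P2y_deriv h1 hτ).1.hasDerivAt
      have h4 := (h3.comp τ (Complex.hasDerivAt_exp τ)).deriv
      show deriv (fun τ => gs (Complex.exp τ)) τ = Complex.exp τ * deriv gs (Complex.exp τ)
      rw [mul_comm]
      exact h4

/-- `N^s F(z) = ∑_k k^s f_k(z)`.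

Proof.  Put `F_s(z) = ∑_k k^s f_k(z)` (converges absolutely on the ball: for `‖z‖ < 1` pick `r > 1`
with `‖r z‖ < 1`, then `|f_k(z)| ≤ C r^{-k}`).  For `g(μ) = ∑_k a_k μ^k` with `a_k = f_k(z)`,
`|μ| < 1/|z|`, one has `d/dτ g(e^τ) = ∑ k a_k e^{kτ}`.  By induction
`(d/dτ)^s F(e^τ z) = ∑_k k^s f_k(z) e^{kτ}` for `τ` near `0`; put `τ = 0`. -/
theorem P2n {d : ℕ} {F : E d → ℂ} {f : PS d} (h : IsTS F f) (s : ℕ) {z : E d} (hz : ‖z‖ < 1) :
    HasSum (fun k : ℕ => (k : ℂ) ^ s * hp f k z) (Nd s F z) := by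
  have hz0 : 0 ≤ ‖z‖ := norm_nonneg z
  have hρ1 : (1 : ℝ) < 2 / (1 + ‖z‖) := by
    rw [lt_div_iff₀ (by positivity)]
    linarith
  have H : ∀ μ : ℂ, ‖μ‖ < 2 / (1 + ‖z‖) → HasSum (fun k => hp f k z * μ ^ k) (F (μ • z)) := by
    intro μ hμ
    refine P2s h ?_
    rw [norm_smul]
    have h1 : ‖μ‖ * (1 + ‖z‖) < 2 := (lt_div_iff₀ (by positivity)).1 hμ
    by_contra hc
    push Not at hc
    nlinarith [norm_nonneg μ, mul_nonneg (norm_nonneg μ) hz0]
  obtain ⟨gs, h1, h2⟩ := P2y_exp H s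
  have h3 : Nd s F z = gs 1 := by
    unfold Nd
    rw [h2 0 (by rwa [Complex.exp_zero, norm_one]), Complex.exp_zero]
  rw [h3]
  have h4 := h1 1 (by rwa [norm_one])
  simpa using h4

end Pool.Agent.CRT
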