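import Pool.Agent.CRT.P4

/-!
# [R4] Decay of the wave packets at admissible scales
-/

set_option autoImplicit false

namespace Pool.Agent.CRT

open Finset

/-- the real binomial series -/
theorem R4_real {M : ℕ} (hM : 1 ≤ M) {r : ℝ} (h0 : 0 ≤ r) (h1 : r < 1) :
    HasSum (fun k => cf M k * r ^ k) (1 / (1 - r) ^ M) := by
  have h := cf_hasSum (M := M) hM (x := (r : ℂ)) (by
    rw [Complex.norm_real, Real.norm_of_nonneg h0]; exact h1)
  have e : (1 / (1 - (r : ℂ)) ^ M) = ((1 / (1 - r) ^ M : ℝ) : ℂ) := by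
    push_cast
    rfl
  rw [e] at h
  have e2 : (fun k => (cf M k : ℂ) * (r : ℂ) ^ k) = fun k => ((cf M k * r ^ k : ℝ) : ℂ) := by
    ext k
    push_cast
    rfl
  rw [e2] at h
  exact Complex.hasSum_ofReal.1 h

theorem R4_cf_nonneg (M k : ℕ) : 0 ≤ cf M k := by
  unfold cf
  positivity

/-- a point of the ball is a multiple of a point of the sphere -/
theorem R4_polar {d : ℕ} (hd : 1 ≤ d) (z : E d) : ∃ ζ : E d, ‖ζ‖ = 1 ∧ z = ((‖z‖ : ℝ) : ℂ) • ζ := by
  by_cases hz : z = 0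
  · refine ⟨EuclideanSpace.single (⟨0, hd⟩ : Fin d) (1 : ℂ), by simp, by simp [hz]⟩
  · have hn : ‖z‖ ≠ 0 := norm_ne_zero_iff.2 hz
    have hn' : ((‖z‖ : ℝ) : ℂ) ≠ 0 := by exact_mod_cast hn
    refine ⟨((‖z‖ : ℝ) : ℂ)⁻¹ • z, ?_, ?_⟩
    · rw [norm_smul, norm_inv, Complex.norm_real, norm_norm, inv_mul_cancel₀ hn]
    · rw [smul_smul, mul_inv_cancel₀ hn', one_smul]

/-- the elementary estimate `1 - x e^{-t} ≥ (5/4) t` -/
theorem R4_elem {x t : ℝ} (hx0 : 0 ≤ x) (hx : x ^ 2 = 1 - t) (ht0 : 0 < t) (ht : t ≤ 2 / 9) :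
    5 / 4 * t ≤ 1 - x * Real.exp (-t) := by
  have h1 : x ≤ Real.exp (-(t / 2)) := by
    have : x ^ 2 ≤ Real.exp (-(t / 2)) ^ 2 := by
      rw [hx, ← Real.exp_nat_mul]
      have := Real.one_sub_le_exp_neg t
      have e : ((2 : ℕ) : ℝ) * -(t / 2) = -t := by push_cast; ring
      rw [e]
      exact this
    exact le_of_sq_le_sq this (Real.exp_pos _).le
  have h2 : x * Real.exp (-t) ≤ Real.exp (-(3 * t / 2)) := by
    calc x * Real.exp (-t) ≤ Real.exp (-(t / 2)) * Real.exp (-t) :=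
          mul_le_mul_of_nonneg_right h1 (Real.exp_pos _).le
      _ = Real.exp (-(3 * t / 2)) := by
          rw [← Real.exp_add]
          congr 1
          ring
  set u : ℝ := 3 * t / 2 with hu
  have hu0 : 0 < u := by positivity
  have hu1 : u ≤ 1 / 3 := by rw [hu]; linarith
  have h3 := Real.quadratic_le_exp_of_nonneg hu0.le
  have h4 : Real.exp (-u) ≤ 1 / (1 + u + u ^ 2 / 2) := by
    rw [Real.exp_neg, ← one_div]
    exact one_div_le_one_div_of_le (by positivity) h3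
  have h5 : 1 / (1 + u + u ^ 2 / 2) ≤ 1 - 5 / 6 * u := by
    rw [div_le_iff₀ (by positivity)]
    nlinarith [mul_nonneg hu0.le (sub_nonneg.2 hu1), mul_nonneg (mul_nonneg hu0.le hu0.le) (sub_nonneg.2 hu1)]
  have h6 : 5 / 4 * t = 5 / 6 * u := by rw [hu]; ring
  linarith

/-- Let `|f_k| ≤ C₀ e^{-c√k}` on `S` and `L = c²`.  Then `t^M |Φ_M(z)| ≤ C' e^{-(L/5)/t}` for all
admissible `(M,z)`.

Proof.  `t = t(z)`, `x = |z| = √(1-t) ≤ 1-t/2`.  `|f_k(z)| ≤ C₀ x^k e^{-c√k}` (`hp_smul`).  If `√k ≤ c/t` then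
`c√k ≥ tk` and `e^{-c√k} ≤ e^{-tk}`; otherwise `e^{-c√k} ≤ e^{-c²/t}`.  So
`|Φ_M(z)| ≤ C₀ ∑ cf M k x^k (e^{-tk} + e^{-c²/t}) = C₀ (1-xe^{-t})^{-M} + C₀ e^{-c²/t}(1-x)^{-M}`.
Let `t ≤ 2/9`.  `1 - xe^{-t} ≥ 1-e^{-3t/2} ≥ 3t/2 - 9t²/8 ≥ (5/4)t`, so `t^M(1-xe^{-t})^{-M} ≤ (4/5)^M ≤ e^{-M/5}
≤ e^{-L/(5t)}`.  `t^M (1-x)^{-M} e^{-c²/t} ≤ 2^M e^{-L/t} ≤ 2 e^{(log 2)L/t - L/t} ≤ 2e^{-L/(5t)}`.
Let `t > 2/9`: `t^M|Φ_M(z)| ≤ C₀ t^M (1-x)^{-M} ≤ C₀ 2^M ≤ C₀ 2^{L/t+1} ≤ C₀ 2^{9L/2+1}`, while `e^{-L/(5t)} ≥ e^{-L}`.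
So `C' = C₀(3 + 2^{9L/2+1}e^L)` (plus something positive). -/
theorem R4 {d : ℕ} (hd : 1 ≤ d) {f : PS d} {C₀ c : ℝ} (hC₀ : 0 < C₀) (hc : 0 < c)
    (hf : ∀ (k : ℕ) (ζ : E d), ‖ζ‖ = 1 → ‖hp f k ζ‖ ≤ C₀ * Real.exp (-(c * Real.sqrt k))) :
    ∃ C' : ℝ, 0 < C' ∧ ∀ (M : ℕ) (z : E d), ‖z‖ < 1 → c ^ 2 / tt z ≤ M →
      (M : ℝ) ≤ c ^ 2 / tt z + 1 →
      tt z ^ M * ‖Ph f M z‖ ≤ C' * Real.exp (-(c ^ 2 / 5 / tt z)) := by
  set L : ℝ := c ^ 2 with hL
  have hL0 : 0 < L := by positivity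
  refine ⟨C₀ * (3 + 2 * Real.exp (11 / 2 * L)), by positivity, ?_⟩
  intro M z hz hM1 hM2
  set t : ℝ := tt z with ht
  set x : ℝ := ‖z‖ with hx
  have hx0 : 0 ≤ x := norm_nonneg _
  have hxt : x ^ 2 = 1 - t := by rw [ht]; unfold tt; ring
  have ht0 : 0 < t := by nlinarith
  have ht1 : t ≤ 1 := by nlinarith [sq_nonneg x]
  have hM : 1 ≤ M := by
    have h1 : 0 < L / t := by positivity
    have h2 : (0 : ℝ) < M := lt_of_lt_of_le h1 hM1
    exact_mod_cast h2
  obtain ⟨ζ, hζ, hzζ⟩ := R4_polar hd z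
  -- the bound of the homogeneous parts
  have hhp : ∀ k : ℕ, ‖hp f k z‖ ≤ x ^ k * (C₀ * Real.exp (-(c * Real.sqrt k))) := by
    intro k
    rw [hzζ, hp_smul, norm_mul, norm_pow, Complex.norm_real, norm_norm]
    exact mul_le_mul_of_nonneg_left (hf k ζ hζ) (pow_nonneg hx0 k)
  have hexp : ∀ k : ℕ, Real.exp (-(c * Real.sqrt k)) ≤ Real.exp (-t) ^ k + Real.exp (-(L / t)) := by
    intro k
    have hs0 : 0 ≤ Real.sqrt k := Real.sqrt_nonneg _
    have hs2 : Real.sqrt k * Real.sqrt k = k := Real.mul_self_sqrt (Nat.cast_nonneg k)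
    rw [← Real.exp_nat_mul]
    rcases le_total (Real.sqrt k) (c / t) with h | h
    · have h1 : Real.sqrt k * t ≤ c := by rwa [le_div_iff₀ ht0] at h
      have h2 : (k : ℝ) * t ≤ c * Real.sqrt k := by
        calc (k : ℝ) * t = Real.sqrt k * (Real.sqrt k * t) := by rw [← mul_assoc, hs2]
          _ ≤ Real.sqrt k * c := mul_le_mul_of_nonneg_left h1 hs0
          _ = _ := mul_comm _ _
      have h3 : Real.exp (-(c * Real.sqrt k)) ≤ Real.exp (k * -t) := by
        apply Real.exp_le_exp.2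
        linarith
      linarith [Real.exp_pos (-(L / t))]
    · have h2 : L / t ≤ c * Real.sqrt k := by
        calc L / t = c * (c / t) := by rw [hL]; ring
          _ ≤ _ := mul_le_mul_of_nonneg_left h hc.le
      have h3 : Real.exp (-(c * Real.sqrt k)) ≤ Real.exp (-(L / t)) := by
        apply Real.exp_le_exp.2
        linarith
      linarith [Real.exp_pos (k * -t)]
  have he1 : Real.exp (-t) ≤ 1 := by
    rw [Real.exp_le_one_iff]
    linarith
  have hxe : x * Real.exp (-t) ≤ x := mul_le_of_le_one_right hx0 he1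
  have hxe0 : 0 ≤ x * Real.exp (-t) := by positivity
  have hsum1 := R4_real hM hxe0 (lt_of_le_of_lt hxe hz)
  have hsum2 := R4_real hM hx0 hz
  have hsum := (hsum1.add (hsum2.mul_left (Real.exp (-(L / t))))).mul_left C₀
  have hPh : ‖Ph f M z‖ ≤ C₀ * (1 / (1 - x * Real.exp (-t)) ^ M +
      Real.exp (-(L / t)) * (1 / (1 - x) ^ M)) := by
    unfold Ph
    refine tsum_of_norm_bounded hsum ?_
    intro k
    have hcf := R4_cf_nonneg M k
    rw [norm_mul, Complex.norm_real, Real.norm_of_nonneg hcf]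
    calc cf M k * ‖hp f k z‖ ≤ cf M k * (x ^ k * (C₀ * (Real.exp (-t) ^ k + Real.exp (-(L / t))))) := by
          apply mul_le_mul_of_nonneg_left _ hcf
          refine (hhp k).trans ?_
          apply mul_le_mul_of_nonneg_left _ (pow_nonneg hx0 k)
          exact mul_le_mul_of_nonneg_left (hexp k) hC₀.le
      _ = _ := by
          rw [mul_pow]
          ring
  have h1x : 0 < 1 - x := by linarith
  have h1xe : 0 < 1 - x * Real.exp (-t) := by linarith
  have ht2 : t ≤ 2 * (1 - x) := by nlinarith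
  -- `2^M ≤ 2 e^{(4/5) L/t}`
  have h2M : (2 : ℝ) ^ M ≤ 2 * Real.exp (4 / 5 * (L / t)) := by
    have hlog := Real.log_two_lt_d9
    have e1 : (2 : ℝ) ^ M = Real.exp (M * Real.log 2) := by
      rw [Real.exp_nat_mul, Real.exp_log (by norm_num)]
    have e2 : 2 * Real.exp (4 / 5 * (L / t)) = Real.exp (Real.log 2 + 4 / 5 * (L / t)) := by
      rw [Real.exp_add, Real.exp_log (by norm_num)]
    rw [e1, e2]
    apply Real.exp_le_exp.2
    have hl0 : 0 < Real.log 2 := Real.log_pos (by norm_num)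
    have h3 : (M : ℝ) * Real.log 2 ≤ (L / t + 1) * Real.log 2 :=
      mul_le_mul_of_nonneg_right hM2 hl0.le
    have h4 : (L / t) * Real.log 2 ≤ (L / t) * (4 / 5) := by
      apply mul_le_mul_of_nonneg_left _ (by positivity)
      norm_num at hlog ⊢
      linarith
    linarith
  have hq2 : t ^ M * (1 / (1 - x) ^ M) ≤ 2 ^ M := by
    have : t ^ M * (1 / (1 - x) ^ M) = (t / (1 - x)) ^ M := by
      rw [div_pow]
      ring
    rw [this]
    apply pow_le_pow_left₀ (by positivity)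
    rw [div_le_iff₀ h1x]
    exact ht2
  set W : ℝ := Real.exp (-(L / 5 / t)) with hW
  have hW0 : 0 < W := Real.exp_pos _
  have hterm2 : t ^ M * (Real.exp (-(L / t)) * (1 / (1 - x) ^ M)) ≤ 2 * W := by
    calc t ^ M * (Real.exp (-(L / t)) * (1 / (1 - x) ^ M)) =
          Real.exp (-(L / t)) * (t ^ M * (1 / (1 - x) ^ M)) := by ring
      _ ≤ Real.exp (-(L / t)) * (2 * Real.exp (4 / 5 * (L / t))) :=
          mul_le_mul_of_nonneg_left (hq2.trans h2M) (Real.exp_pos _).le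
      _ = 2 * (Real.exp (-(L / t)) * Real.exp (4 / 5 * (L / t))) := by ring
      _ = 2 * W := by
          rw [← Real.exp_add, hW]
          congr 2
          ring
  have hterm1 : t ^ M * (1 / (1 - x * Real.exp (-t)) ^ M) ≤
      (1 + 2 * Real.exp (11 / 2 * L)) * W := by
    have e1 : t ^ M * (1 / (1 - x * Real.exp (-t)) ^ M) = (t / (1 - x * Real.exp (-t))) ^ M := by
      rw [div_pow]
      ring
    have hq0 : 0 ≤ t / (1 - x * Real.exp (-t)) := by positivity
    rcases le_total t (2 / 9) with h | h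
    · have h1 := R4_elem hx0 hxt ht0 h
      have h2 : t / (1 - x * Real.exp (-t)) ≤ 4 / 5 := by
        rw [div_le_iff₀ h1xe]
        linarith
      have h3 : (t / (1 - x * Real.exp (-t))) ^ M ≤ W := by
        calc (t / (1 - x * Real.exp (-t))) ^ M ≤ (4 / 5) ^ M := pow_le_pow_left₀ hq0 h2 M
          _ ≤ Real.exp (-(1 / 5)) ^ M := by
              apply pow_le_pow_left₀ (by norm_num)
              have := Real.one_sub_le_exp_neg (1 / 5)
              linarith
          _ = Real.exp (M * -(1 / 5)) := by rw [← Real.exp_nat_mul]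
          _ ≤ W := by
              rw [hW]
              apply Real.exp_le_exp.2
              have : L / 5 / t = L / t / 5 := by ring
              rw [this]
              linarith
      rw [e1]
      have h4 : 0 ≤ 2 * Real.exp (11 / 2 * L) * W := by positivity
      linarith
    · have h1 : t ^ M * (1 / (1 - x * Real.exp (-t)) ^ M) ≤ t ^ M * (1 / (1 - x) ^ M) := by
        apply mul_le_mul_of_nonneg_left _ (by positivity)
        apply one_div_le_one_div_of_le (by positivity)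
        exact pow_le_pow_left₀ h1x.le (by linarith) M
      have hLt : L / t ≤ 9 / 2 * L := by
        rw [div_le_iff₀ ht0]
        nlinarith
      have h2 : 2 * Real.exp (4 / 5 * (L / t)) ≤ 2 * Real.exp (11 / 2 * L) * W := by
        rw [hW, mul_assoc, ← Real.exp_add]
        apply mul_le_mul_of_nonneg_left _ (by norm_num)
        apply Real.exp_le_exp.2
        have : L / 5 / t = L / t / 5 := by ring
        rw [this]
        linarith
      have h3 := h1.trans (hq2.trans (h2M.trans h2))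
      linarith
  calc t ^ M * ‖Ph f M z‖ ≤ t ^ M * (C₀ * (1 / (1 - x * Real.exp (-t)) ^ M +
      Real.exp (-(L / t)) * (1 / (1 - x) ^ M))) :=
        mul_le_mul_of_nonneg_left hPh (by positivity)
    _ = C₀ * (t ^ M * (1 / (1 - x * Real.exp (-t)) ^ M) +
          t ^ M * (Real.exp (-(L / t)) * (1 / (1 - x) ^ M))) := by ring
    _ ≤ C₀ * ((1 + 2 * Real.exp (11 / 2 * L)) * W + 2 * W) := by
        apply mul_le_mul_of_nonneg_left _ hC₀.le
        linarith
    _ = C₀ * (3 + 2 * Real.exp (11 / 2 * L)) * W := by ring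

end Pool.Agent.CRT
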