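import Pool.Agent.CRT.P2
import Pool.Agent.CRT.S2
import Pool.Agent.CRT.P3

/-!
# [S4x] Convergence of the wave packet transform
-/

set_option autoImplicit false

namespace Pool.Agent.CRT

open Finset MvPowerSeries MeasureTheory

/-- `<h_k, f_k>_H` -/
noncomputable def ak {d : ℕ} (h f : PS d) (k : ℕ) : ℂ :=
  ∑ α ∈ A d k, coeff α h * (starRingEnd ℂ) (coeff α f) * (wH α : ℂ)

theorem S4x_unit {d : ℕ} (hd : 1 ≤ d) (z : E d) :
    ∃ u : E d, ‖u‖ = 1 ∧ z = ((‖z‖ : ℝ) : ℂ) • u := by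
  by_cases hz : z = 0
  · refine ⟨EuclideanSpace.single (⟨0, hd⟩ : Fin d) (1 : ℂ), ?_, ?_⟩
    · rw [PiLp.norm_single, norm_one]
    · rw [hz, norm_zero, Complex.ofReal_zero, zero_smul]
  · have hn : (‖z‖ : ℝ) ≠ 0 := norm_ne_zero_iff.mpr hz
    have hnc : ((‖z‖ : ℝ) : ℂ) ≠ 0 := by exact_mod_cast hn
    refine ⟨(((‖z‖ : ℝ) : ℂ))⁻¹ • z, ?_, ?_⟩
    · rw [norm_smul, norm_inv, Complex.norm_real, norm_norm, inv_mul_cancel₀ hn]
    · rw [smul_smul, mul_inv_cancel₀ hnc, one_smul]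

theorem S4x_C0 {d : ℕ} (hd : 1 ≤ d) {f : PS d} {C₀ : ℝ}
    (hf : ∀ k, ∀ z : E d, ‖z‖ = 1 → ‖hp f k z‖ ≤ C₀) : 0 ≤ C₀ := by
  obtain ⟨u, hu, -⟩ := S4x_unit hd (0 : E d)
  exact (norm_nonneg _).trans (hf 0 u hu)

theorem S4x_hp {d : ℕ} (hd : 1 ≤ d) {f : PS d} {C₀ : ℝ}
    (hf : ∀ k, ∀ z : E d, ‖z‖ = 1 → ‖hp f k z‖ ≤ C₀) (k : ℕ) (z : E d) :
    ‖hp f k z‖ ≤ C₀ * ‖z‖ ^ k := by
  obtain ⟨u, hu, hz⟩ := S4x_unit hd z
  have h1 : hp f k z = ((‖z‖ : ℝ) : ℂ) ^ k * hp f k u := by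
    conv_lhs => rw [hz]
    exact hp_smul f k _ u
  rw [h1, norm_mul, norm_pow, Complex.norm_real, norm_norm, mul_comm]
  exact mul_le_mul_of_nonneg_right (hf k u hu) (by positivity)

theorem S4x_cf {M : ℕ} (hM : 1 ≤ M) {r : ℝ} (hr0 : 0 ≤ r) (hr : r < 1) :
    HasSum (fun k => cf M k * r ^ k) (1 / (1 - r) ^ M) := by
  obtain ⟨m, rfl⟩ : ∃ m, M = m + 1 := ⟨M - 1, by omega⟩
  have h := hasSum_choose_mul_geometric_of_norm_lt_one (𝕜 := ℝ) m (r := r)
    (by rw [Real.norm_of_nonneg hr0]; exact hr)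
  have e : (fun k => cf (m + 1) k * r ^ k) = fun n : ℕ => (((n + m).choose m : ℕ) : ℝ) * r ^ n := by
    funext k
    unfold cf
    have e1 : m + 1 + k - 1 = k + m := by omega
    have e2 : (k + m).choose k = (k + m).choose m := Nat.choose_symm_add
    rw [e1, e2]
  rw [e]
  exact h

theorem S4x_term {d : ℕ} (hd : 1 ≤ d) {f : PS d} {C₀ : ℝ}
    (hf : ∀ k, ∀ z : E d, ‖z‖ = 1 → ‖hp f k z‖ ≤ C₀) (M k : ℕ) {z : E d} {r : ℝ} (hz : ‖z‖ ≤ r) :
    ‖(cf M k : ℂ) * hp f k z‖ ≤ C₀ * (cf M k * r ^ k) := by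
  have hcf : 0 ≤ cf M k := by
    unfold cf
    positivity
  have hC := S4x_C0 hd hf
  rw [norm_mul, Complex.norm_real, Real.norm_of_nonneg hcf]
  have h1 : ‖hp f k z‖ ≤ C₀ * r ^ k :=
    (S4x_hp hd hf k z).trans
      (mul_le_mul_of_nonneg_left (pow_le_pow_left₀ (norm_nonneg _) hz k) hC)
  calc cf M k * ‖hp f k z‖ ≤ cf M k * (C₀ * r ^ k) := mul_le_mul_of_nonneg_left h1 hcf
    _ = C₀ * (cf M k * r ^ k) := by ring

theorem S4x_mono_diff {d : ℕ} (p z : E d) (α : MI d) :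
    Differentiable ℂ (fun μ : ℂ => mono (Rt p μ z) α) := by
  unfold mono
  refine Differentiable.fun_finsetProd ?_
  intro i _
  refine Differentiable.pow ?_ _
  have e : (fun μ : ℂ => (Rt p μ z) i) = fun μ : ℂ => (br z p • p) i + μ * (pr p z) i := by
    funext μ
    unfold Rt
    rfl
  rw [e]
  exact (differentiable_const _).add (differentiable_id.mul_const _)

theorem S4x_hp_diff {d : ℕ} (f : PS d) (k : ℕ) (p z : E d) :
    Differentiable ℂ (fun μ : ℂ => hp f k (Rt p μ z)) := by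
  unfold hp
  refine Differentiable.fun_sum ?_
  intro α _
  exact (S4x_mono_diff p z α).const_mul _

theorem S4x_Rt_cont {d : ℕ} (p z : E d) : Continuous (fun μ : ℂ => Rt p μ z) := by
  unfold Rt
  exact continuous_const.add (continuous_id.smul continuous_const)

/-- if `|f_k| ≤ C₀` on `S` for all `k` and `M ≥ 1` then the series `Ph f M z` converges absolutely on the
ball, `‖z‖ ≤ r < 1`: `|cf M k · hp f k z| ≤ C₀ cf M k r^k`; so `Ph f M` is continuous on the ball, its slices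
are analytic, and `|Ph f M z| ≤ C₀/(1-r)^M`. -/
theorem Ph_summable {d : ℕ} (hd : 1 ≤ d) {f : PS d} {C₀ : ℝ} (hf : ∀ k, ∀ z : E d, ‖z‖ = 1 → ‖hp f k z‖ ≤ C₀)
    {M : ℕ} (hM : 1 ≤ M) :
    (∀ z : E d, ‖z‖ < 1 → HasSum (fun k => (cf M k : ℂ) * hp f k z) (Ph f M z)) ∧
    ContinuousOn (Ph f M) (Metric.ball 0 1) ∧
    (∀ (z : E d) (r : ℝ), ‖z‖ ≤ r → r < 1 → ‖Ph f M z‖ ≤ C₀ / (1 - r) ^ M) := by
  have hC := S4x_C0 hd hf
  refine ⟨?_, ?_, ?_⟩
  · intro z hz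
    have hs : Summable fun k => (cf M k : ℂ) * hp f k z := by
      refine Summable.of_norm_bounded ((S4x_cf hM (norm_nonneg z) hz).summable.mul_left C₀) ?_
      intro k
      exact S4x_term hd hf M k le_rfl
    exact hs.hasSum
  · intro z hz
    have hz1 : ‖z‖ < 1 := by simpa using hz
    obtain ⟨r, hr1, hr2⟩ := exists_between hz1
    have hr0 : 0 ≤ r := (norm_nonneg z).trans hr1.le
    have h1 : ContinuousOn (fun x => ∑' k, (cf M k : ℂ) * hp f k x) (Metric.ball (0 : E d) r) := by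
      refine continuousOn_tsum (fun k => ?_) ((S4x_cf hM hr0 hr2).summable.mul_left C₀) ?_
      · exact ((hp_cont f k).const_mul _).continuousOn
      · intro k x hx
        have hx1 : ‖x‖ ≤ r := by
          have : ‖x‖ < r := by simpa using hx
          exact this.le
        exact S4x_term hd hf M k hx1
    have h2 : ContinuousAt (fun x => ∑' k, (cf M k : ℂ) * hp f k x) z :=
      h1.continuousAt (Metric.isOpen_ball.mem_nhds (by simpa using hr1))
    exact h2.continuousWithinAt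
  · intro z r hz hr
    have hr0 : 0 ≤ r := (norm_nonneg z).trans hz
    have h1 : HasSum (fun k => C₀ * (cf M k * r ^ k)) (C₀ * (1 / (1 - r) ^ M)) :=
      (S4x_cf hM hr0 hr).mul_left C₀
    have h2 := tsum_of_norm_bounded h1 (fun k => S4x_term hd hf M k hz)
    unfold Ph
    rw [div_eq_mul_one_div]
    exact h2

/-- the analyticity of the slices of `Φ_M`: for `p ∈ S`, `z` in the ball, `μ ↦ Φ_M(z₁p + μz')` is
differentiable on the open set of all `μ` with `‖z₁p + μz'‖ < 1` (a locally uniform limit of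
polynomials in `μ`) -/
theorem Ph_diff {d : ℕ} (hd : 1 ≤ d) {f : PS d} {C₀ : ℝ} (hf : ∀ k, ∀ z : E d, ‖z‖ = 1 → ‖hp f k z‖ ≤ C₀)
    {M : ℕ} (hM : 1 ≤ M) (p z : E d) :
    DifferentiableOn ℂ (fun μ : ℂ => Ph f M (Rt p μ z)) {μ : ℂ | ‖Rt p μ z‖ < 1} := by
  intro μ hμ
  have hμ1 : ‖Rt p μ z‖ < 1 := hμ
  obtain ⟨r, hr1, hr2⟩ := exists_between hμ1
  have hr0 : 0 ≤ r := (norm_nonneg _).trans hr1.le
  have hopen : IsOpen {ν : ℂ | ‖Rt p ν z‖ < r} :=
    isOpen_lt (continuous_norm.comp (S4x_Rt_cont p z)) continuous_const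
  have h1 : DifferentiableOn ℂ (fun ν : ℂ => ∑' k, (cf M k : ℂ) * hp f k (Rt p ν z))
      {ν : ℂ | ‖Rt p ν z‖ < r} := by
    refine Complex.differentiableOn_tsum_of_summable_norm
      ((S4x_cf hM hr0 hr2).summable.mul_left C₀) (fun k => ?_) hopen ?_
    · exact ((S4x_hp_diff f k p z).const_mul _).differentiableOn
    · intro k ν hν
      have hν1 : ‖Rt p ν z‖ < r := hν
      exact S4x_term hd hf M k hν1.le
  have h2 : DifferentiableAt ℂ (fun ν : ℂ => ∑' k, (cf M k : ℂ) * hp f k (Rt p ν z)) μ :=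
    h1.differentiableAt (hopen.mem_nhds hr1)
  exact h2.differentiableWithinAt

end Pool.Agent.CRT
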