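import Pool.Agent.CRT.P2
import Pool.Agent.CRT.S2
import Pool.Agent.CRT.P3
import Pool.Agent.CRT.S4x

/-!
# [S4y] The integral representation
-/

set_option autoImplicit false

namespace Pool.Agent.CRT

open Finset MvPowerSeries MeasureTheory

theorem S4y_cf {M : ℕ} (hM : 1 ≤ M) {r : ℝ} (hr0 : 0 < r) (hr : r < 1) :
    Summable fun k => cf M k * r ^ k := by
  obtain ⟨m, rfl⟩ : ∃ m, M = m + 1 := ⟨M - 1, by omega⟩
  have h1 := summable_choose_mul_geometric_of_norm_lt_one m (r := r)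
    (by rw [Real.norm_eq_abs, abs_of_pos hr0]; exact hr)
  refine h1.congr fun k => ?_
  unfold cf
  have h2 : m + 1 + k - 1 = k + m := by omega
  rw [h2, Nat.choose_symm_add]

/-- For a polynomial `h` (degree `≤ K`), `0 < r < 1`:
`∫_S h(rζ) conj(Φ_M(rζ)) dσ = ∑_{k ≤ K} r^{2k} cf M k <h_k,f_k>_H`.

Proof.  `h(rζ) = ∑_{j ≤ K} r^j h_j(ζ)` (`P2p`), `Φ_M(rζ) = ∑_k cf M k r^k f_k(ζ)` uniformly convergent on
`S`; integrate termwise, `S2a`. -/
theorem S4 {d : ℕ} (hd : 1 ≤ d) {σ : Measure (E d)} (hσ : IsSig σ) {h f : PS d} {K : ℕ}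
    (hh : ∀ α : MI d, K < α.degree → coeff α h = 0) {C₀ : ℝ}
    (hf : ∀ k, ∀ z : E d, ‖z‖ = 1 → ‖hp f k z‖ ≤ C₀) {M : ℕ} (hM : 1 ≤ M) {r : ℝ} (hr0 : 0 < r)
    (hr : r < 1) :
    ∫ ζ, ev h ((r : ℂ) • ζ) * (starRingEnd ℂ) (Ph f M ((r : ℂ) • ζ)) ∂σ =
      ∑ k ∈ range (K + 1), ((r ^ (2 * k) * cf M k : ℝ) : ℂ) * ak h f k := by
  have hprob := hσ.prob
  have hsupp := hσ.supp
  obtain ⟨hev, -, hcont, -⟩ := P2p hh
  have hcf0 : ∀ k, 0 ≤ cf M k := fun k => Nat.cast_nonneg _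
  obtain ⟨F, hF⟩ : ∃ F : ℕ → E d → ℂ, F = fun k ζ => ev h ((r : ℂ) • ζ) *
      (starRingEnd ℂ) ((cf M k : ℂ) * hp f k ((r : ℂ) • ζ)) := ⟨_, rfl⟩
  have hFc : ∀ k, Continuous (F k) := by
    intro k
    rw [hF]
    exact (hcont.comp (continuous_const_smul _)).mul (Complex.continuous_conj.comp
      (continuous_const.mul ((hp_cont f k).comp (continuous_const_smul _))))
  have hFint : ∀ k, Integrable (F k) σ := fun k => S2i hσ (hFc k).continuousOn
  obtain ⟨B, hB⟩ := (isCompact_sphere (0 : E d) 1).exists_bound_of_continuousOn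
    (f := fun ζ => ev h ((r : ℂ) • ζ)) (hcont.comp (continuous_const_smul _)).continuousOn
  have hFb : ∀ k (ζ : E d), ‖ζ‖ = 1 → ‖F k ζ‖ ≤ |B| * |C₀| * (cf M k * r ^ k) := by
    intro k ζ hζ
    rw [hF]
    show ‖ev h ((r : ℂ) • ζ) * (starRingEnd ℂ) ((cf M k : ℂ) * hp f k ((r : ℂ) • ζ))‖ ≤ _
    rw [norm_mul, RCLike.norm_conj, norm_mul, hp_smul, norm_mul, norm_pow, Complex.norm_real,
      Complex.norm_real, Real.norm_eq_abs, Real.norm_eq_abs, abs_of_nonneg (hcf0 k),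
      abs_of_pos hr0]
    have h1 : ‖ev h ((r : ℂ) • ζ)‖ ≤ |B| := (hB ζ (mem_sphere_zero_iff_norm.2 hζ)).trans (le_abs_self B)
    have h2 : ‖hp f k ζ‖ ≤ |C₀| := (hf k ζ hζ).trans (le_abs_self _)
    calc ‖ev h ((r : ℂ) • ζ)‖ * (cf M k * (r ^ k * ‖hp f k ζ‖)) ≤
          |B| * (cf M k * (r ^ k * |C₀|)) := by
          have := hcf0 k
          gcongr
      _ = |B| * |C₀| * (cf M k * r ^ k) := by ring
  have hsum : Summable fun k => ∫ ζ, ‖F k ζ‖ ∂σ := by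
    refine Summable.of_nonneg_of_le (fun k => integral_nonneg fun ζ => norm_nonneg _) ?_
      ((S4y_cf hM hr0 hr).mul_left (|B| * |C₀|))
    intro k
    have h1 : ∫ ζ, ‖F k ζ‖ ∂σ ≤ ∫ _ζ, |B| * |C₀| * (cf M k * r ^ k) ∂σ :=
      integral_mono_ae (hFint k).norm (integrable_const _)
        (hsupp.mono fun ζ hζ => hFb k ζ hζ)
    rwa [integral_const, probReal_univ, one_smul] at h1
  have hmain := hasSum_integral_of_summable_integral_norm hFint hsum
  have hcongr : ∫ ζ, (∑' k, F k ζ) ∂σ =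
      ∫ ζ, ev h ((r : ℂ) • ζ) * (starRingEnd ℂ) (Ph f M ((r : ℂ) • ζ)) ∂σ := by
    refine integral_congr_ae (hsupp.mono fun ζ hζ => ?_)
    have hζ1 : ‖(r : ℂ) • ζ‖ < 1 := by
      rw [norm_smul, hζ, mul_one, Complex.norm_real, Real.norm_eq_abs, abs_of_pos hr0]
      exact hr
    have h1 := (Ph_summable hd hf hM).1 _ hζ1
    have h2 : HasSum (fun k => (starRingEnd ℂ) ((cf M k : ℂ) * hp f k ((r : ℂ) • ζ)))
        ((starRingEnd ℂ) (Ph f M ((r : ℂ) • ζ))) :=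
      h1.map (starRingEnd ℂ) Complex.continuous_conj
    rw [hF]
    exact (h2.mul_left (ev h ((r : ℂ) • ζ))).tsum_eq
  rw [hcongr] at hmain
  have hint : ∀ k, ∫ ζ, F k ζ ∂σ = if k ∈ range (K + 1) then
      ((r ^ (2 * k) * cf M k : ℝ) : ℂ) * ak h f k else 0 := by
    intro k
    have h1 : ∀ ζ, F k ζ = ∑ j ∈ range (K + 1), ((r : ℂ) ^ j * ((cf M k : ℂ) * (r : ℂ) ^ k)) *
        (hp h j ζ * (starRingEnd ℂ) (hp f k ζ)) := by
      intro ζ
      rw [hF]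
      show ev h ((r : ℂ) • ζ) * (starRingEnd ℂ) ((cf M k : ℂ) * hp f k ((r : ℂ) • ζ)) = _
      rw [hev, hp_smul, map_mul, map_mul, map_pow, Complex.conj_ofReal, Complex.conj_ofReal,
        Finset.sum_mul]
      refine Finset.sum_congr rfl fun j _ => ?_
      rw [hp_smul]
      ring
    have h2 : ∀ j, Integrable (fun ζ => ((r : ℂ) ^ j * ((cf M k : ℂ) * (r : ℂ) ^ k)) *
        (hp h j ζ * (starRingEnd ℂ) (hp f k ζ))) σ := by
      intro j
      refine S2i hσ (Continuous.continuousOn ?_)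
      exact continuous_const.mul ((hp_cont h j).mul (Complex.continuous_conj.comp (hp_cont f k)))
    simp only [h1]
    rw [integral_finsetSum _ fun j _ => h2 j]
    have h3 : ∀ j ∈ range (K + 1), ∫ ζ, ((r : ℂ) ^ j * ((cf M k : ℂ) * (r : ℂ) ^ k)) *
        (hp h j ζ * (starRingEnd ℂ) (hp f k ζ)) ∂σ =
        if k = j then ((r : ℂ) ^ j * ((cf M k : ℂ) * (r : ℂ) ^ k)) * ak h f k else 0 := by
      intro j _
      rw [integral_const_mul, S2a hσ]
      by_cases hjk : j = k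
      · rw [if_pos hjk, if_pos hjk.symm, hjk]
        rfl
      · rw [if_neg hjk, if_neg (fun h => hjk h.symm), mul_zero]
    rw [Finset.sum_congr rfl h3, Finset.sum_ite_eq (range (K + 1)) k]
    by_cases hk : k ∈ range (K + 1)
    · rw [if_pos hk, if_pos hk]
      push_cast
      ring
    · rw [if_neg hk, if_neg hk]
  have hfin : HasSum (fun k => ∫ ζ, F k ζ ∂σ) (∑ k ∈ range (K + 1), ∫ ζ, F k ζ ∂σ) :=
    hasSum_sum_of_ne_finset_zero fun k hk => by rw [hint, if_neg hk]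
  rw [hmain.unique hfin]
  refine Finset.sum_congr rfl fun k hk => ?_
  rw [hint, if_pos hk]

end Pool.Agent.CRT
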