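import Pool.Agent.CRT.B1
import Pool.Agent.CRT.P2
import Pool.Agent.CRT.S4
import Pool.Agent.CRT.R4
import Pool.Agent.CRT.M7

/-!
# [B2x] Parseval and Cauchy for the components in z prime
-/

set_option autoImplicit false

namespace Pool.Agent.CRT

open Finset MeasureTheory

theorem B2x_iter (P : Polynomial ℂ) (j : ℕ) :
    iteratedDeriv j (fun μ : ℂ => P.eval μ) = fun μ => ((Polynomial.derivative^[j]) P).eval μ := by
  induction j with
  | zero => simp
  | succ j ih =>
    rw [iteratedDeriv_succ, ih, Function.iterate_succ_apply']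
    funext μ
    exact Polynomial.deriv _

theorem B2x_coeff (P : Polynomial ℂ) (j : ℕ) :
    iteratedDeriv j (fun μ : ℂ => P.eval μ) 0 / (j.factorial : ℂ) = P.coeff j := by
  rw [B2x_iter]
  change Polynomial.eval 0 _ / _ = _
  rw [← Polynomial.coeff_zero_eq_eval_zero, Polynomial.coeff_iterate_derivative, zero_add,
    Nat.descFactorial_self, nsmul_eq_mul]
  have : (j.factorial : ℂ) ≠ 0 := by exact_mod_cast j.factorial_ne_zero
  field_simp

theorem B2x_poly {d : ℕ} (p z : E d) {h : PS d} {K : ℕ}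
    (hh : ∀ α : MI d, K < α.degree → MvPowerSeries.coeff α h = 0) :
    ∃ P : Polynomial ℂ, P.natDegree ≤ K ∧ ∀ μ : ℂ, ev h (Rt p μ z) = P.eval μ := by
  set S : Finset (MI d) := (range (K + 1)).biUnion fun k => A d k with hS
  refine ⟨∑ α ∈ S, Polynomial.C (MvPowerSeries.coeff α h) *
    ∏ i, (Polynomial.C ((pr p z) i) * Polynomial.X + Polynomial.C ((br z p • p) i)) ^ (α i), ?_, ?_⟩
  · refine Polynomial.natDegree_sum_le_of_forall_le _ _ fun α hα => ?_
    have hdeg : α.degree ≤ K := by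
      rw [hS, mem_biUnion] at hα
      obtain ⟨k, hk, hk'⟩ := hα
      rw [mem_range] at hk
      rw [mem_A] at hk'
      omega
    refine (Polynomial.natDegree_C_mul_le _ _).trans ?_
    refine (Polynomial.natDegree_prod_le _ _).trans ?_
    rw [Finsupp.degree_eq_sum] at hdeg
    refine le_trans (sum_le_sum fun i _ => ?_) hdeg
    refine Polynomial.natDegree_pow_le.trans ?_
    calc α i * _ ≤ α i * 1 := Nat.mul_le_mul_left _ Polynomial.natDegree_linear_le
      _ = α i := mul_one _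
  · intro μ
    unfold ev
    rw [tsum_eq_sum (s := S)]
    · rw [Polynomial.eval_finset_sum]
      refine sum_congr rfl fun α _ => ?_
      rw [Polynomial.eval_mul, Polynomial.eval_C, Polynomial.eval_prod]
      unfold mono
      congr 1
      refine prod_congr rfl fun i _ => ?_
      simp only [Polynomial.eval_pow, Polynomial.eval_add, Polynomial.eval_mul, Polynomial.eval_C,
        Polynomial.eval_X]
      congr 1
      unfold Rt
      simp only [PiLp.add_apply, PiLp.smul_apply, smul_eq_mul]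
      ring
    · intro α hα
      have hdeg : K < α.degree := by
        by_contra hc
        apply hα
        rw [hS, mem_biUnion]
        exact ⟨α.degree, mem_range.2 (by omega), mem_A.2 rfl⟩
      rw [hh α hdeg, zero_mul]

theorem B2x_ball {d : ℕ} {p z : E d} (hp : ‖p‖ = 1) (hz : ‖z‖ < 1) {μ : ℂ} (hμ : ‖μ‖ ≤ 1) :
    ‖Rt p μ z‖ < 1 := by
  have h1 := (Rt_facts hp μ 1 z).2.2.1
  have h2 := F1a (z := z) hp
  have h3 : ‖μ‖ ^ 2 * ‖pr p z‖ ^ 2 ≤ 1 * ‖pr p z‖ ^ 2 := by
    refine mul_le_mul_of_nonneg_right ?_ (by positivity)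
    nlinarith [norm_nonneg μ]
  have h4 : ‖z‖ ^ 2 < 1 := by nlinarith [norm_nonneg z]
  have h5 : ‖Rt p μ z‖ ^ 2 < 1 := by linarith
  nlinarith [norm_nonneg (Rt p μ z)]

theorem B2x_cauchy {F : ℂ → ℂ} (hF : DifferentiableOn ℂ F (Metric.closedBall 0 1)) (j : ℕ) :
    ∫ θ in (0:ℝ)..(2 * Real.pi), F (Complex.exp (θ * Complex.I)) *
      (Complex.exp (θ * Complex.I) ^ j)⁻¹ = 2 * Real.pi * (iteratedDeriv j F 0 / (j.factorial : ℂ)) := by
  have h1 := DifferentiableOn.circleIntegral_one_div_sub_center_pow_smul (one_pos) j hF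
  unfold circleIntegral at h1
  have e1 : ∀ θ : ℝ, deriv (circleMap 0 1) θ • ((1 / (circleMap 0 1 θ - 0) ^ (j + 1)) •
      F (circleMap 0 1 θ)) = Complex.I * (F (Complex.exp (θ * Complex.I)) *
      (Complex.exp (θ * Complex.I) ^ j)⁻¹) := by
    intro θ
    have hne : Complex.exp (θ * Complex.I) ≠ 0 := Complex.exp_ne_zero _
    rw [deriv_circleMap]
    simp only [circleMap, Complex.ofReal_one, one_mul, zero_add, sub_zero, smul_eq_mul]
    rw [pow_succ]
    field_simp
  rw [intervalIntegral.integral_congr (fun θ _ => e1 θ), intervalIntegral.integral_const_mul,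
    smul_eq_mul] at h1
  have hI : Complex.I ≠ 0 := Complex.I_ne_zero
  apply mul_left_cancel₀ hI
  rw [h1]
  ring

/-- Parseval on the circle.

Proof.  `h` is a polynomial of degree `≤ K`, so `h(Rt p μ z) = ∑_{j ≤ K} (cj (ev h) p j z) μ^j` is a polynomial
in `μ`.  Hence `∫_0^{2π} h(Rt p e^{iθ} z) conj Φ(Rt p e^{iθ} z) dθ = ∑_{j≤K} cj h · conj(∫ Φ(Rt p e^{iθ}z) e^{-ijθ}dθ)
= 2π ∑_{j≤K} cj h · conj(cj Φ)` by Cauchy's formula for the Taylor coefficients of
`μ ↦ Φ(Rt p μ z)`, differentiable on the open set `{μ : ‖Rt p μ z‖ < 1}` which contains the closed unit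
disc (`‖z‖ < 1`; it is the disc `|μ|²|z'|² < 1-|z₁|²`). -/
theorem B2a {d : ℕ} {p z : E d} (hp : ‖p‖ = 1) (hz : ‖z‖ < 1) {h : PS d} {K : ℕ}
    (hh : ∀ α : MI d, K < α.degree → MvPowerSeries.coeff α h = 0) {Φ : E d → ℂ}
    (hΦ : DifferentiableOn ℂ (fun μ : ℂ => Φ (Rt p μ z)) {μ : ℂ | ‖Rt p μ z‖ < 1}) :
    ‖∫ θ in (0:ℝ)..(2 * Real.pi), ev h (Rt p (Complex.exp (θ * Complex.I)) z) *
      (starRingEnd ℂ) (Φ (Rt p (Complex.exp (θ * Complex.I)) z))‖ ≤
      2 * Real.pi * ∑ j ∈ range (K + 1), ‖cj (ev h) p j z‖ * ‖cj Φ p j z‖ := by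
  obtain ⟨P, hP, hPe⟩ := B2x_poly p z hh
  set F : ℂ → ℂ := fun μ => Φ (Rt p μ z) with hFdef
  have hF1 : DifferentiableOn ℂ F (Metric.closedBall 0 1) := by
    refine hΦ.mono fun μ hμ => ?_
    exact B2x_ball hp hz (by simpa using hμ)
  have hc : ∀ j, cj (ev h) p j z = P.coeff j := by
    intro j
    unfold cj
    rw [show (fun μ : ℂ => ev h (Rt p μ z)) = fun μ => P.eval μ from funext hPe]
    exact B2x_coeff P j
  have hcont : Continuous fun θ : ℝ => F (Complex.exp (θ * Complex.I)) := by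
    refine hF1.continuousOn.comp_continuous (by fun_prop) fun θ => ?_
    simp [Complex.norm_exp_ofReal_mul_I]
  have e1 : ∀ θ : ℝ, ev h (Rt p (Complex.exp (θ * Complex.I)) z) *
      (starRingEnd ℂ) (Φ (Rt p (Complex.exp (θ * Complex.I)) z)) =
      ∑ j ∈ range (K + 1), cj (ev h) p j z * (starRingEnd ℂ) (F (Complex.exp (θ * Complex.I)) *
      (Complex.exp (θ * Complex.I) ^ j)⁻¹) := by
    intro θ
    rw [hPe, Polynomial.eval_eq_sum_range' (Nat.lt_succ_of_le hP), sum_mul]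
    refine sum_congr rfl fun j _ => ?_
    have hcj : (starRingEnd ℂ) (Complex.exp (θ * Complex.I)) = (Complex.exp (θ * Complex.I))⁻¹ := by
      rw [← Complex.exp_conj, ← Complex.exp_neg]
      congr 1
      rw [map_mul, Complex.conj_I, Complex.conj_ofReal]
      ring
    rw [hc, map_mul, map_inv₀, map_pow, hcj, inv_pow, inv_inv]
    ring
  rw [intervalIntegral.integral_congr (fun θ _ => e1 θ), intervalIntegral.integral_finset_sum]
  · have e2 : ∀ j ∈ range (K + 1), ∫ θ in (0:ℝ)..(2 * Real.pi), cj (ev h) p j z *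
        (starRingEnd ℂ) (F (Complex.exp (θ * Complex.I)) * (Complex.exp (θ * Complex.I) ^ j)⁻¹) =
        cj (ev h) p j z * (starRingEnd ℂ) (2 * Real.pi * cj Φ p j z) := by
      intro j _
      rw [intervalIntegral.integral_const_mul]
      congr 1
      rw [intervalIntegral.integral_of_le (by positivity), integral_conj,
        ← intervalIntegral.integral_of_le (by positivity), B2x_cauchy hF1 j]
      rfl
    rw [sum_congr rfl e2]
    refine (norm_sum_le _ _).trans ?_
    rw [mul_sum]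
    refine sum_le_sum fun j _ => le_of_eq ?_
    rw [norm_mul, RCLike.norm_conj, norm_mul]
    have : ‖(2 * Real.pi : ℂ)‖ = 2 * Real.pi := by
      rw [show (2 * Real.pi : ℂ) = ((2 * Real.pi : ℝ) : ℂ) by push_cast; ring, Complex.norm_real,
        Real.norm_of_nonneg (by positivity)]
    rw [this]
    ring
  · intro j _
    apply Continuous.intervalIntegrable
    have : Continuous fun θ : ℝ => (Complex.exp (θ * Complex.I) ^ j)⁻¹ := by
      refine Continuous.inv₀ (by fun_prop) fun θ => pow_ne_zero _ (Complex.exp_ne_zero _)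
    exact continuous_const.mul (Complex.continuous_conj.comp (hcont.mul this))

/-- Cauchy's estimate for the components: if `ρ > 0`, `‖Rt p μ z‖ < 1` for `|μ| ≤ ρ` and
`|Φ(Rt p μ z)| ≤ B` for `|μ| = ρ` then `|cj Φ p j z| ≤ B/ρ^j` -/
theorem B2b {d : ℕ} {p z : E d} (hp : ‖p‖ = 1) (hz : ‖z‖ < 1) {Φ : E d → ℂ}
    (hΦ : DifferentiableOn ℂ (fun μ : ℂ => Φ (Rt p μ z)) {μ : ℂ | ‖Rt p μ z‖ < 1})
    {ρ B : ℝ} (hρ : 0 < ρ) (hρ1 : ∀ μ : ℂ, ‖μ‖ ≤ ρ → ‖Rt p μ z‖ < 1)
    (hB : ∀ μ : ℂ, ‖μ‖ = ρ → ‖Φ (Rt p μ z)‖ ≤ B) (j : ℕ) : ‖cj Φ p j z‖ ≤ B / ρ ^ j := by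
  have h1 : DiffContOnCl ℂ (fun μ : ℂ => Φ (Rt p μ z)) (Metric.ball 0 ρ) := by
    apply DifferentiableOn.diffContOnCl
    rw [closure_ball _ hρ.ne']
    exact hΦ.mono fun μ hμ => hρ1 μ (by simpa using hμ)
  have h2 := Complex.norm_iteratedDeriv_le_of_forall_mem_sphere_norm_le j hρ h1
    (C := B) fun μ hμ => hB μ (by simpa using hμ)
  unfold cj
  rw [norm_div, Complex.norm_natCast]
  have hj : (0 : ℝ) < (j.factorial : ℝ) := by exact_mod_cast j.factorial_pos
  rw [div_le_iff₀ hj]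
  calc _ ≤ _ := h2
    _ = B / ρ ^ j * j.factorial := by ring

end Pool.Agent.CRT
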