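import Pool.Agent.CRT.B1
import Pool.Agent.CRT.P2
import Pool.Agent.CRT.S4
import Pool.Agent.CRT.R4
import Pool.Agent.CRT.M7
import Pool.Agent.CRT.B2x

/-!
# [B2y] The estimate on the caps
-/

set_option autoImplicit false

namespace Pool.Agent.CRT

open Finset MeasureTheory

theorem B2y_rt {d : ℕ} {p z : E d} (hp : ‖p‖ = 1) (hz : ‖z‖ < 1) {μ : ℂ} (hμ : ‖μ‖ ≤ 1) :
    ‖Rt p μ z‖ < 1 ∧ tt z ≤ tt (Rt p μ z) ∧ TT p (Rt p μ z) = TT p z ∧
      ‖pr p (Rt p μ z)‖ = ‖μ‖ * ‖pr p z‖ := by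
  obtain ⟨h1, h2, h3, -, -⟩ := Rt_facts hp μ 0 z
  have h4 := F1a (z := z) hp
  have h5 : ‖μ‖ ^ 2 ≤ 1 := pow_le_one₀ (norm_nonneg _) hμ
  have h6 : ‖Rt p μ z‖ ^ 2 ≤ ‖z‖ ^ 2 := by
    rw [h3, h4]
    have : ‖μ‖ ^ 2 * ‖pr p z‖ ^ 2 ≤ 1 * ‖pr p z‖ ^ 2 := by gcongr
    linarith
  have h7 : ‖Rt p μ z‖ ≤ ‖z‖ := by
    exact (sq_le_sq₀ (norm_nonneg _) (norm_nonneg _)).1 h6
  refine ⟨lt_of_le_of_lt h7 hz, ?_, ?_, ?_⟩
  · unfold tt
    linarith
  · unfold TT lam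
    rw [h1]
  · rw [h2, norm_smul]

theorem B2y_tt {d : ℕ} {p z : E d} (hp : ‖p‖ = 1) {μ : ℂ} (hμ : ‖μ‖ = 1) :
    tt (Rt p μ z) = tt z := by
  obtain ⟨-, -, h3, -, -⟩ := Rt_facts hp μ 0 z
  have h4 := F1a (z := z) hp
  unfold tt
  rw [h3, h4, hμ, one_pow, one_mul]

theorem B2y_geom {q : ℝ} (h0 : 0 ≤ q) (h1 : q < 1) (n : ℕ) : ∑ j ∈ range n, q ^ j ≤ 1 / (1 - q) := by
  have h2 := (summable_geometric_of_lt_one h0 h1).sum_le_tsum (range n) (fun j _ => pow_nonneg h0 j)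
  rw [tsum_geometric_of_lt_one h0 h1] at h2
  rw [one_div]
  exact h2

/-- the number `1/ρ^j` for `ρ = √(δ/2)` -/
theorem B2y_rho {δ γ t c' : ℝ} {j : ℕ} (hδ : 0 < δ) (ht : 0 < t)
    (hγ : γ / 2 * Real.log (2 / δ) ≤ c') (hlog : 0 < Real.log (2 / δ)) (hj : (j : ℝ) ≤ γ / t) :
    1 / Real.sqrt (δ / 2) ^ j ≤ Real.exp (c' / t) := by
  have h1 : 0 < δ / 2 := by positivity
  have h2 : 0 < Real.sqrt (δ / 2) := Real.sqrt_pos.2 h1
  have h3 : Real.log (Real.sqrt (δ / 2)) = -(Real.log (2 / δ) / 2) := by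
    rw [Real.log_sqrt h1.le]
    have : δ / 2 = (2 / δ)⁻¹ := by rw [inv_div]
    rw [this, Real.log_inv]
    ring
  have h4 : 1 / Real.sqrt (δ / 2) ^ j = Real.exp ((j : ℝ) * (Real.log (2 / δ) / 2)) := by
    rw [one_div, ← Real.exp_log (pow_pos h2 j), ← Real.exp_neg, Real.log_pow, h3]
    congr 1
    ring
  rw [h4]
  apply Real.exp_le_exp.2
  calc (j : ℝ) * (Real.log (2 / δ) / 2) ≤ (γ / t) * (Real.log (2 / δ) / 2) := by gcongr
    _ = (γ / 2 * Real.log (2 / δ)) / t := by ring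
    _ ≤ c' / t := by gcongr

/-- The estimate near `p`: there are `t₀, C, c₁ > 0` such that for all `h ∈ H` and admissible `(M,z)` with
`t(z) < t₀`, `T_p(z) ≤ Σ t(z)`:
`t^M |∫_0^{2π} h(Rt p e^{iθ}z) conj Φ_M(Rt p e^{iθ}z) dθ| ≤ 2π C e^{-c₁/t}`,  `c₁ = c²/20`.

Proof.  Let `L = c²`, `c' = L/5`, `C'` from `R4`, `C_α` from `hH.al`.  Let `ε = c'/4` and `δ` from `hH.be p ε`,
wlog `δ ≤ 1`.  Let `γ > 0` with `(γ/2) log(2/δ) ≤ c'/4`.  Let `t₀ = δ/Σ` (so that `T_p(z) ≤ Σt < δ`), `t₀ ≤ 1`.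
All points `z_μ = Rt p μ z`, `|μ| ≤ 1`, have `T_p(z_μ) = T_p(z)`, `z_μ' = μz'`, `t(z_μ) ≥ t(z)` with equality for `|μ|=1`.
By `B2a` it is enough to bound `∑_j t^M|cj h||cj Φ_M|`.
* `j ≤ γ/t`: `B2b` with `ρ = √(δ/2)`: for `|μ| = ρ`, `|z_μ'|² = (δ/2)|z'|² ≤ δ T_p(z)` (`F1c`), so `|h(z_μ)| ≤ e^{ε/t(z_μ)} ≤ e^{ε/t}`,
  `|cj h| ≤ (2/δ)^{j/2} e^{ε/t} ≤ e^{(γ/2)log(2/δ)/t+ε/t} ≤ e^{c'/(2t)}`; and with `ρ = 1`, `t^M|cj Φ_M| ≤ C'e^{-c'/t}` (`R4` at
  the points `z_μ`, `|μ| = 1`, for which `(M,z_μ)` is admissible).  There are at most `γ/t+1` such `j`: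
  the sum is `≤ (γ/t+1)C'e^{-c'/(2t)} ≤ C e^{-c'/(4t)}`.
* `j > γ/t`: `|cj h| ≤ e^{C_α/t}` (`ρ=1`), and `t^M|cj Φ_M| ≤ C₇ e^{-K/t}ϑ^j` by `M7` with `K = |C_α|+c'`:
  the sum is `≤ C₇ e^{-c'/t}/(1-ϑ)`.
The differentiability of the slices of `Φ_M` is `Ph_diff`. -/
theorem B2 {d : ℕ} (hd : 1 ≤ d) {f : PS d} (hf : f ∈ RD d) {C₀ c : ℝ} (hC₀ : 0 < C₀)
    (hc : 0 < c)
    (hfk : ∀ (k : ℕ) (ζ : E d), ‖ζ‖ = 1 → ‖hp f k ζ‖ ≤ C₀ * Real.exp (-(c * Real.sqrt k)))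
    {H : Set (PS d)} (hH : Tame H) {p : E d} (hp : ‖p‖ = 1) {Sg : ℝ} (hS : 1 ≤ Sg) :
    ∃ t₀ C : ℝ, 0 < t₀ ∧ 0 < C ∧ ∀ h ∈ H, ∀ (M : ℕ) (z : E d), ‖z‖ < 1 → c ^ 2 / tt z ≤ M →
      (M : ℝ) ≤ c ^ 2 / tt z + 1 → tt z < t₀ → TT p z ≤ Sg * tt z →
      tt z ^ M * ‖∫ θ in (0:ℝ)..(2 * Real.pi), ev h (Rt p (Complex.exp (θ * Complex.I)) z) *
        (starRingEnd ℂ) (Ph f M (Rt p (Complex.exp (θ * Complex.I)) z))‖ ≤
        2 * Real.pi * (C * Real.exp (-(c ^ 2 / 20 / tt z))) := by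
  have hL : 0 < c ^ 2 := by positivity
  set c' : ℝ := c ^ 2 / 5 with hc'
  have hc'0 : 0 < c' := by positivity
  obtain ⟨C', hC', hR⟩ := R4 hd hC₀ hc hfk
  obtain ⟨Cα, hα⟩ := hH.al
  obtain ⟨δ₀, hδ₀, hbe⟩ := hH.be p hp (c' / 4) (by positivity)
  -- the number δ ≤ 1
  set δ : ℝ := min δ₀ 1 with hδdef
  have hδ : 0 < δ := lt_min hδ₀ one_pos
  have hδ1 : δ ≤ 1 := min_le_right _ _
  have hδδ : δ ≤ δ₀ := min_le_left _ _
  have hlog : 0 < Real.log (2 / δ) := by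
    apply Real.log_pos
    rw [lt_div_iff₀ hδ]
    linarith
  set γ : ℝ := c' / (2 * Real.log (2 / δ)) with hγdef
  have hγ : 0 < γ := by positivity
  have hγ2 : γ / 2 * Real.log (2 / δ) ≤ c' / 4 := by
    rw [hγdef]
    apply le_of_eq
    field_simp
    norm_num
  obtain ⟨C₇, ϑ, hC₇, hϑ0, hϑ1, h7⟩ := M7 hd hf hp (Sg := Sg) (K := |Cα| + c') (L := c ^ 2) (γ := γ)
    hS (by positivity) hL hγ
  set q : ℝ := Real.exp (-(c' / (4 * γ))) with hq
  have hq0 : 0 < q := Real.exp_pos _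
  have hq1 : q < 1 := by
    rw [hq, Real.exp_lt_one_iff]
    have : 0 < c' / (4 * γ) := by positivity
    linarith
  have hS0 : 0 < Sg := by linarith
  refine ⟨min (δ / Sg) 1, C' / (1 - q) + C₇ / (1 - ϑ), lt_min (by positivity) one_pos, ?_, ?_⟩
  · have h1 : 0 < 1 - q := by linarith
    have h2 : 0 < 1 - ϑ := by linarith
    positivity
  intro h hh M z hz hM1 hM2 ht hT
  obtain ⟨K, hK⟩ := hH.poly h hh
  obtain ⟨-, -, -, -, -, ht0, ht1⟩ := F1b (p := p) hp hz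
  have htδ : tt z < δ / Sg := lt_of_lt_of_le ht (min_le_left _ _)
  have hTδ : TT p z < δ := by
    have : Sg * tt z < δ := by
      rw [lt_div_iff₀ hS0] at htδ
      linarith
    linarith
  have hM : 1 ≤ M := by
    rcases Nat.eq_zero_or_pos M with h0 | h0
    · exfalso
      rw [h0] at hM1
      have : 0 < c ^ 2 / tt z := by positivity
      simp only [Nat.cast_zero] at hM1
      linarith
    · exact h0
  have hfb : ∀ k, ∀ z : E d, ‖z‖ = 1 → ‖CRT.hp f k z‖ ≤ C₀ := by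
    intro k z hz
    refine (hfk k z hz).trans ?_
    have : Real.exp (-(c * Real.sqrt k)) ≤ 1 := by
      rw [Real.exp_le_one_iff]
      have := Real.sqrt_nonneg (k : ℝ)
      have : 0 ≤ c * Real.sqrt k := by positivity
      linarith
    calc C₀ * Real.exp (-(c * Real.sqrt k)) ≤ C₀ * 1 := by gcongr
      _ = C₀ := mul_one _
  have hΦd := Ph_diff hd hfb hM p z
  have hhd : DifferentiableOn ℂ (fun μ : ℂ => ev h (Rt p μ z)) {μ : ℂ | ‖Rt p μ z‖ < 1} := by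
    have h1 := (P2p hK).2.2.2
    have h2 : Differentiable ℂ (fun μ : ℂ => Rt p μ z) := by
      unfold Rt
      exact (differentiable_const _).add (differentiable_id.smul_const _)
    exact (h1.comp h2).differentiableOn
  have hI := B2a hp hz hK hΦd
  -- the general bounds for `cj`
  have hball : ∀ μ : ℂ, ‖μ‖ ≤ 1 → ‖Rt p μ z‖ < 1 := fun μ hμ => (B2y_rt hp hz hμ).1
  have htM : 0 < tt z ^ M := pow_pos ht0 M
  have hΦ1 : ∀ j, tt z ^ M * ‖cj (Ph f M) p j z‖ ≤ C' * Real.exp (-(c' / tt z)) := by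
    intro j
    have h1 := B2b (B := C' * Real.exp (-(c' / tt z)) / tt z ^ M) hp hz hΦd one_pos hball
      (fun μ hμ => by
        rw [le_div_iff₀ htM, mul_comm]
        have h2 := B2y_tt (z := z) hp hμ
        have h3 := hR M (Rt p μ z) (hball μ hμ.le) (by rw [h2]; exact hM1) (by rw [h2]; exact hM2)
        rw [h2] at h3
        exact h3) j
    rw [one_pow, div_one, le_div_iff₀ htM, mul_comm] at h1
    exact h1
  have hh1 : ∀ j, ‖cj (ev h) p j z‖ ≤ Real.exp (|Cα| / tt z) := by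
    intro j
    have h1 := B2b (B := Real.exp (|Cα| / tt z)) hp hz hhd one_pos hball
      (fun μ hμ => by
        have h2 := B2y_tt (z := z) hp hμ
        have h3 := hα h hh (Rt p μ z) (hball μ hμ.le)
        rw [h2] at h3
        refine h3.trans (Real.exp_le_exp.2 ?_)
        gcongr
        exact le_abs_self _) j
    rwa [one_pow, div_one] at h1
  have hh2 : ∀ j : ℕ, (j : ℝ) ≤ γ / tt z → ‖cj (ev h) p j z‖ ≤ Real.exp (c' / 2 / tt z) := by
    intro j hj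
    have hρ0 : 0 < Real.sqrt (δ / 2) := Real.sqrt_pos.2 (by positivity)
    have hρ1 : Real.sqrt (δ / 2) ≤ 1 := by
      rw [← Real.sqrt_one]
      apply Real.sqrt_le_sqrt
      linarith
    have h1 := B2b (B := Real.exp (c' / 4 / tt z)) hp hz hhd hρ0
      (fun μ hμ => hball μ (hμ.trans hρ1))
      (fun μ hμ => by
        obtain ⟨k1, k2, k3, k4⟩ := B2y_rt hp hz (hμ.le.trans hρ1)
        have k5 := (F1c (p := p) hp hz).1
        have h3 := hbe h hh (Rt p μ z) k1 (by rw [k3]; linarith) (by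
          rw [k4, k3, mul_pow, hμ, Real.sq_sqrt (by positivity)]
          have k6 : 0 ≤ TT p z := norm_nonneg _
          calc δ / 2 * ‖pr p z‖ ^ 2 ≤ δ / 2 * (2 * TT p z) := by gcongr
            _ = δ * TT p z := by ring
            _ ≤ δ₀ * TT p z := by gcongr)
        refine h3.trans (Real.exp_le_exp.2 ?_)
        gcongr) j
    refine h1.trans ?_
    have h2 := B2y_rho (j := j) hδ ht0 hγ2 hlog hj
    calc Real.exp (c' / 4 / tt z) / Real.sqrt (δ / 2) ^ j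
        = Real.exp (c' / 4 / tt z) * (1 / Real.sqrt (δ / 2) ^ j) := by ring
      _ ≤ Real.exp (c' / 4 / tt z) * Real.exp (c' / 4 / tt z) := by gcongr
      _ = Real.exp (c' / 2 / tt z) := by
        rw [← Real.exp_add]
        congr 1
        ring
  have hterm : ∀ j : ℕ, tt z ^ M * (‖cj (ev h) p j z‖ * ‖cj (Ph f M) p j z‖) ≤
      Real.exp (-(c' / 4 / tt z)) * (C' * q ^ j + C₇ * ϑ ^ j) := by
    intro j
    have e1 : tt z ^ M * (‖cj (ev h) p j z‖ * ‖cj (Ph f M) p j z‖) =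
        ‖cj (ev h) p j z‖ * (tt z ^ M * ‖cj (Ph f M) p j z‖) := by ring
    rw [e1]
    have hn1 : 0 ≤ tt z ^ M * ‖cj (Ph f M) p j z‖ := by positivity
    rcases le_or_gt ((j : ℝ)) (γ / tt z) with hj | hj
    · have k1 : Real.exp (-(c' / 4 / tt z)) ≤ q ^ j := by
        rw [hq, ← Real.exp_nat_mul]
        apply Real.exp_le_exp.2
        have : (j : ℝ) * (c' / (4 * γ)) ≤ γ / tt z * (c' / (4 * γ)) := by gcongr
        have e : γ / tt z * (c' / (4 * γ)) = c' / 4 / tt z := by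
          field_simp
        rw [e] at this
        linarith
      calc ‖cj (ev h) p j z‖ * (tt z ^ M * ‖cj (Ph f M) p j z‖)
          ≤ Real.exp (c' / 2 / tt z) * (C' * Real.exp (-(c' / tt z))) :=
            mul_le_mul (hh2 j hj) (hΦ1 j) hn1 (Real.exp_pos _).le
        _ = Real.exp (-(c' / 4 / tt z)) * (C' * Real.exp (-(c' / 4 / tt z))) := by
            have e2 : Real.exp (-(c' / 4 / tt z)) * Real.exp (-(c' / 4 / tt z)) =
                Real.exp (c' / 2 / tt z) * Real.exp (-(c' / tt z)) := by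
              rw [← Real.exp_add, ← Real.exp_add]
              congr 1
              ring
            linear_combination -C' * e2
        _ ≤ Real.exp (-(c' / 4 / tt z)) * (C' * q ^ j + C₇ * ϑ ^ j) := by
            have : 0 ≤ C₇ * ϑ ^ j := by positivity
            gcongr
            nlinarith
    · have k1 := h7 M j z hz hM1 hM2 hT hj.le
      calc ‖cj (ev h) p j z‖ * (tt z ^ M * ‖cj (Ph f M) p j z‖)
          ≤ Real.exp (|Cα| / tt z) * (C₇ * Real.exp (-((|Cα| + c') / tt z)) * ϑ ^ j) :=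
            mul_le_mul (hh1 j) k1 hn1 (Real.exp_pos _).le
        _ = Real.exp (-(c' / tt z)) * (C₇ * ϑ ^ j) := by
            have e2 : Real.exp (|Cα| / tt z) * Real.exp (-((|Cα| + c') / tt z)) =
                Real.exp (-(c' / tt z)) := by
              rw [← Real.exp_add]
              congr 1
              ring
            rw [← e2]
            ring
        _ ≤ Real.exp (-(c' / 4 / tt z)) * (C' * q ^ j + C₇ * ϑ ^ j) := by
            have k2 : 0 ≤ C' * q ^ j := by positivity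
            have k3 : 0 ≤ C₇ * ϑ ^ j := by positivity
            refine mul_le_mul (Real.exp_le_exp.2 ?_) (by linarith) k3 (Real.exp_pos _).le
            have k4 : c' / 4 / tt z ≤ c' / tt z := by
              gcongr
              linarith
            linarith
  calc tt z ^ M * ‖∫ θ in (0:ℝ)..(2 * Real.pi), ev h (Rt p (Complex.exp (θ * Complex.I)) z) *
        (starRingEnd ℂ) (Ph f M (Rt p (Complex.exp (θ * Complex.I)) z))‖
      ≤ tt z ^ M * (2 * Real.pi * ∑ j ∈ range (K + 1), ‖cj (ev h) p j z‖ * ‖cj (Ph f M) p j z‖) := by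
        gcongr
    _ = 2 * Real.pi * ∑ j ∈ range (K + 1),
          tt z ^ M * (‖cj (ev h) p j z‖ * ‖cj (Ph f M) p j z‖) := by
        rw [← Finset.mul_sum]
        ring
    _ ≤ 2 * Real.pi * ∑ j ∈ range (K + 1),
          Real.exp (-(c' / 4 / tt z)) * (C' * q ^ j + C₇ * ϑ ^ j) := by
        have := Real.pi_pos
        refine mul_le_mul_of_nonneg_left (Finset.sum_le_sum fun j _ => hterm j) (by positivity)
    _ = 2 * Real.pi * (Real.exp (-(c' / 4 / tt z)) * (C' * ∑ j ∈ range (K + 1), q ^ j +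
          C₇ * ∑ j ∈ range (K + 1), ϑ ^ j)) := by
        rw [← Finset.mul_sum, Finset.sum_add_distrib, ← Finset.mul_sum, ← Finset.mul_sum]
    _ ≤ 2 * Real.pi * (Real.exp (-(c' / 4 / tt z)) * (C' * (1 / (1 - q)) +
          C₇ * (1 / (1 - ϑ)))) := by
        have := Real.pi_pos
        have g1 := B2y_geom hq0.le hq1 (K + 1)
        have g2 := B2y_geom hϑ0.le hϑ1 (K + 1)
        gcongr
    _ = 2 * Real.pi * ((C' / (1 - q) + C₇ / (1 - ϑ)) * Real.exp (-(c ^ 2 / 20 / tt z))) := by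
        have e3 : c ^ 2 / 20 = c' / 4 := by rw [hc']; ring
        rw [e3]
        ring

end Pool.Agent.CRT
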