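import Pool.Agent.CRT.C2
import Pool.Agent.CRT.P4

/-!
# [C2f] Super-decay of the wave packets: conclusion
-/

set_option autoImplicit false

namespace Pool.Agent.CRT

open Finset

/-- the elementary limit -/
theorem C2f_lim (B L : ℝ) (s : ℕ) : ∃ X : ℝ, ∀ x : ℝ, X ≤ x →
    B * (1 + (16 * (L * x + 1) * x) ^ s) * Real.exp (-x) < 1 := by
  have h0 : Filter.Tendsto (fun x : ℝ => B * (1 + (16 * (L * x + 1) * x) ^ s) * Real.exp (-x))
      Filter.atTop (nhds 0) := by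
    have hP : ∀ x : ℝ, B * (1 + (16 * (L * x + 1) * x) ^ s)
        = (Polynomial.C B * (1 + (Polynomial.C 16 * (Polynomial.C L * Polynomial.X + 1) *
          Polynomial.X) ^ s)).eval x := by
      intro x
      simp
    have := Polynomial.tendsto_div_exp_atTop (Polynomial.C B * (1 + (Polynomial.C 16 *
      (Polynomial.C L * Polynomial.X + 1) * Polynomial.X) ^ s))
    refine this.congr ?_
    intro x
    rw [hP, Real.exp_neg, div_eq_mul_inv]
  have h1 := h0.eventually (gt_mem_nhds (show (0 : ℝ) < 1 by norm_num))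
  rw [Filter.eventually_atTop] at h1
  obtain ⟨X, hX⟩ := h1
  exact ⟨X, fun x hx => hX x hx⟩

/-- Let `f ∈ R_DA`, `p ∈ S`, `K, L > 0`, `0 < κ ≤ 1`, `Σ₀ = 400 κ^{-4} e^{(K+1)/L} + 1`.  There is `δ > 0` such
that for all admissible `(M,z)` with `T_p(z) < δ`, `|z'|² ≥ κ² T_p(z)`, `T_p(z) ≥ Σ₀ t(z)`:
`t^M |Φ_M(z)| ≤ e^{-K/t}`.

Proof.  Suppose not: for each `δ > 0` there is a bad pair with `T_p(z) < δ`.  By `M4a2` (with
`W i z`: exists `M` such that `(M,z)` is a bad pair with, in addition, `t(z) ≤ L/4`, `t(z) ≤ 1/(i+1)`;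
as `t ≤ 2T_p < 2δ` this can be arranged) there are a `Seq8` sequence `ζ_i` and `M_i` with
`(M_i,ζ_i)` bad, `t_i = t(ζ_i) → 0`.  Let `A = 4 e^{2(K+1)/L}(K+1+L)`, `a₀ = 1+50000κ^{-6}`, `U_N = UU A a₀ p ζ N`,
`m_N = G_N e^{-U_N}`, `s = d+1`.
* By `M3` with `F = 1`, `ρ = 1` and `CU` from `M6v`: `|m_N|, |N^{d+1}m_N| ≤ 2C` (`Re U_N ≥ 0`, `M6a`); analytic on
  the ball (`M2a`, `M6z`), `|m_N(0)| ≥ e^{-2(d+1)} e^{-A a₀}` (`M2z`, `M6z`).  Let `C'` be the constant of `PR`.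
* Test function `F_i = 1/λ_i^{M_i}` (`P4w`; `M_i ≥ 1` since `M_i ≥ L/t_i > 0`).  For `N > i` and `z` in the ball, `M3` with
  `ρ = t_i/(16 M_i) ≤ |λ_i(z)|/(8M_i)` (`C2t`, `F3b`) and `C2e` give
  `|m_N F_i|, |N^{d+1}(m_N F_i)| ≤ C(1+(16M_i/t_i)^{d+1}) t_i^{-M_i} e^{-(K+1)/t_i} =: K'_i`.
* So by `PR`: `|Φ_{M_i}(ζ_i)| ≤ C' K'_i`, and badness gives
  `e^{-K/t_i} < t_i^{M_i}|Φ_{M_i}(ζ_i)| ≤ C' C (1+(16M_i/t_i)^{d+1}) e^{-(K+1)/t_i}`, i.e.
  `1 < C'C(1+(16(L/t_i+1)/t_i)^{d+1}) e^{-1/t_i} → 0` as `t_i → 0`.  Contradiction. -/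
theorem C2f {d : ℕ} (hd : 1 ≤ d) {f : PS d} (hf : f ∈ RD d) {p : E d} (hp : ‖p‖ = 1)
    {κ K L : ℝ} (hκ : 0 < κ) (hκ1 : κ ≤ 1) (hK : 0 < K) (hL : 0 < L) :
    ∃ δ : ℝ, 0 < δ ∧ ∀ (M : ℕ) (z : E d), ‖z‖ < 1 → L / tt z ≤ M → (M : ℝ) ≤ L / tt z + 1 →
      TT p z < δ → κ ^ 2 * TT p z ≤ ‖pr p z‖ ^ 2 →
      (400 * (1 / κ) ^ 4 * Real.exp ((K + 1) / L) + 1) * tt z ≤ TT p z →
      tt z ^ M * ‖Ph f M z‖ ≤ Real.exp (-(K / tt z)) := by
  by_contra hcon
  push Not at hcon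
  -- extraction
  obtain ⟨ζ, hζ, hW⟩ := M4a2 (p := p) hp
    (W := fun i z => ∃ M : ℕ, L / tt z ≤ M ∧ (M : ℝ) ≤ L / tt z + 1 ∧
      κ ^ 2 * TT p z ≤ ‖pr p z‖ ^ 2 ∧
      (400 * (1 / κ) ^ 4 * Real.exp ((K + 1) / L) + 1) * tt z ≤ TT p z ∧
      Real.exp (-(K / tt z)) < tt z ^ M * ‖Ph f M z‖ ∧ tt z ≤ L / 4 ∧ tt z ≤ 1 / ((i : ℝ) + 1))
    (by
      intro i δ hδ
      have hi : (0 : ℝ) < 1 / ((i : ℝ) + 1) := by positivity
      obtain ⟨M, z, hz, h1, h2, h3, h4, h5, h6⟩ := hcon (min δ (min (L / 8) (1 / ((i : ℝ) + 1) / 2)))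
        (lt_min hδ (lt_min (by positivity) (by positivity)))
      have h31 : TT p z < δ := lt_of_lt_of_le h3 (min_le_left _ _)
      have h32 : TT p z < L / 8 := lt_of_lt_of_le h3 ((min_le_right _ _).trans (min_le_left _ _))
      have h33 : TT p z < 1 / ((i : ℝ) + 1) / 2 :=
        lt_of_lt_of_le h3 ((min_le_right _ _).trans (min_le_right _ _))
      have h7 := (F1c (p := p) hp hz).2
      exact ⟨z, hz, h31, M, h1, h2, h4, h5, h6, by linarith, by linarith⟩)
  choose Mi hM1 hM2 hκζ hS hbad ht4 hti using hW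
  set A : ℝ := 4 * Real.exp (2 * ((K + 1) / L)) * (K + 1 + L) with hA
  set a₀ : ℝ := 1 + 50000 * (1 / κ) ^ 6 with ha₀
  have hA0 : 0 ≤ A := by positivity
  obtain ⟨CU, hCU, hUv⟩ := M6v (d := d) A a₀ κ hκ
  obtain ⟨C, hC, hM3⟩ := M3 (d := d) (d + 1) hCU
  have hUpos : ∀ N (z : E d), ‖z‖ < 1 → 0 ≤ (UU A a₀ p ζ N z).re := fun N z hz =>
    (M6a hζ hκ hκ1 hκζ hA0 N hz).1
  -- the functions `m_N`
  let m : ℕ → E d → ℂ := fun N z => Gf p ζ (d + 1) N z * Complex.exp (-UU A a₀ p ζ N z)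
  have hexp1 : ∀ N (z : E d), ‖z‖ < 1 → Real.exp (-(UU A a₀ p ζ N z).re) ≤ 1 := by
    intro N z hz
    rw [Real.exp_le_one_iff]
    linarith [hUpos N z hz]
  have hF1 : ∀ N (z : E d), ‖z‖ < 1 → ‖m N z‖ ≤ 2 * C ∧ ‖Nd (d + 1) (m N) z‖ ≤ 2 * C := by
    intro N z hz
    obtain ⟨h1, h2⟩ := hM3 p ζ hζ N (UU A a₀ p ζ N) (fun _ => 1) z hz 1 one_pos le_rfl
      ((hUv p ζ hζ hκζ N z hz).1)
      (by
        intro τ _ _
        have : (1 : ℝ) ≤ Real.exp 1 := by
          have := Real.add_one_le_exp (1 : ℝ)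
          linarith
        simp)
      ((hUv p ζ hζ hκζ N z hz).2)
      (differentiableOn_const _)
    have e1 : (fun x => Gf p ζ (d + 1) N x * Complex.exp (-UU A a₀ p ζ N x) * (1 : ℂ)) = m N := by
      funext x
      simp [m]
    rw [e1] at h2
    have h3 := hexp1 N z hz
    have h4 : 0 ≤ Real.exp (-(UU A a₀ p ζ N z).re) := (Real.exp_pos _).le
    constructor
    · simp only [mul_one, norm_one] at h1
      calc ‖m N z‖ ≤ C * Real.exp (-(UU A a₀ p ζ N z).re) := h1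
        _ ≤ C * 1 := by gcongr
        _ ≤ 2 * C := by linarith
    · simp only [norm_one, mul_one, one_pow, div_one] at h2
      calc ‖Nd (d + 1) (m N) z‖ ≤ C * (1 + 1) * Real.exp (-(UU A a₀ p ζ N z).re) := h2
        _ ≤ C * (1 + 1) * 1 := by gcongr
        _ = 2 * C := by ring
  have han : ∀ N, AnalyticOnNhd ℂ (m N) (Metric.ball 0 1) := by
    intro N
    have h1 := M2a hζ (d + 1) N
    have h2 := (M6z hζ A a₀ N).1
    exact h1.mul (h2.neg.cexp)
  have hm0 : ∀ N, Real.exp (-(2 * ((d + 1 : ℕ) : ℝ))) * Real.exp (-(A * a₀)) ≤ ‖m N 0‖ := by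
    intro N
    have h1 := M2z hζ (d + 1) N
    have h2 := (M6z hζ A a₀ N).2
    have h3 : ‖m N 0‖ = ‖Gf p ζ (d + 1) N 0‖ * Real.exp (-(A * a₀)) := by
      simp only [m]
      rw [norm_mul, h2, ← Complex.ofReal_neg, Complex.norm_exp_ofReal]
    rw [h3]
    gcongr
  obtain ⟨C', hC', hPR⟩ := PR hd hf (m := m) (K := 2 * C)
    (κ := Real.exp (-(2 * ((d + 1 : ℕ) : ℝ))) * Real.exp (-(A * a₀))) (by positivity) han
    (fun N z hz => (hF1 N z hz).1) (fun N z hz => (hF1 N z hz).2) hm0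
  -- the key inequality
  have hkey : ∀ i : ℕ, 1 < C' * C * (1 + (16 * (L * (1 / tt (ζ i)) + 1) * (1 / tt (ζ i))) ^ (d + 1))
      * Real.exp (-(1 / tt (ζ i))) := by
    intro i
    have hzi := hζ.hB i
    obtain ⟨-, -, -, -, -, ht0, ht1⟩ := F1b (p := p) hp hzi
    have hMpos : 0 < (Mi i : ℝ) := lt_of_lt_of_le (by positivity) (hM1 i)
    have hMi1 : 1 ≤ Mi i := by
      have : 0 < Mi i := by exact_mod_cast hMpos
      omega
    have hMi1' : (1 : ℝ) ≤ Mi i := by exact_mod_cast hMi1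
    obtain ⟨e, heS, heT, heip⟩ := P4w hMi1 hzi (RD_Sp hf)
    set t := tt (ζ i) with htdef
    set M := Mi i with hMdef
    have hρ0 : 0 < t / (16 * M) := by positivity
    have hρ1 : t / (16 * M) ≤ 1 := by
      rw [div_le_one (by positivity)]
      linarith
    have hmain : ∀ᶠ N in Filter.atTop, ∀ z : E d, ‖z‖ < 1 →
        ‖m N z * (1 / lam (ζ i) z ^ M)‖ ≤ C * (1 + (1 / (t / (16 * M))) ^ (d + 1)) *
          ((1 / t) ^ M * Real.exp (-((K + 1) / t))) ∧
        ‖Nd (d + 1) (fun x => m N x * (1 / lam (ζ i) x ^ M)) z‖ ≤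
          C * (1 + (1 / (t / (16 * M))) ^ (d + 1)) *
          ((1 / t) ^ M * Real.exp (-((K + 1) / t))) := by
      filter_upwards [Filter.eventually_gt_atTop i] with N hN z hz
      obtain ⟨hl1, hl2, hl3, hl4, hl5, hl6, hl7⟩ := F3b (ζ := ζ i) hz hzi.le
      have hr := (M1r hζ hz N).2.2.1 i hN
      have hr0 := (M1r hζ hz N).1
      have hρl : t / (16 * M) ≤ ‖lam (ζ i) z‖ / (8 * M) := by
        rw [div_le_div_iff₀ (by positivity) (by positivity)]
        have h2 : t ≤ 2 * ‖lam (ζ i) z‖ := by linarith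
        nlinarith
      obtain ⟨h1, h2⟩ := hM3 p ζ hζ N (UU A a₀ p ζ N) (fun x => 1 / lam (ζ i) x ^ M) z hz
        (t / (16 * M)) hρ0 hρ1
        ((hUv p ζ hζ hκζ N z hz).1)
        (fun τ hτ _ => C2t hz hzi hMi1 (hτ.trans hρl))
        ((hUv p ζ hζ hκζ N z hz).2)
        (by
          have hd1 : DifferentiableOn ℂ (fun τ : ℂ => lam (ζ i) (Complex.exp τ • z) ^ M)
              (Metric.ball 0 (min (t / (16 * M)) (rN p ζ N z / 32))) := by
            have : (fun τ : ℂ => lam (ζ i) (Complex.exp τ • z) ^ M)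
                = fun τ : ℂ => (1 - Complex.exp τ * br z (ζ i)) ^ M := by
              funext τ
              simp only [lam, br_smul]
            rw [this]
            exact (((differentiable_const _).sub
              (Complex.differentiable_exp.mul (differentiable_const _))).pow _).differentiableOn
          refine DifferentiableOn.div (differentiableOn_const _) hd1 ?_
          intro τ hτ
          rw [Metric.mem_ball, dist_zero_right] at hτ
          have hτ2 : ‖τ‖ ≤ ‖lam (ζ i) z‖ / 8 := by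
            have := lt_of_lt_of_le hτ (min_le_right _ _)
            linarith
          have h8 := (F7b hz hzi.le hτ2).2.2.1
          apply pow_ne_zero
          intro h0
          rw [h0, norm_zero] at h8
          linarith)
      have hFn : ‖(1 : ℂ) / lam (ζ i) z ^ M‖ = (1 / ‖lam (ζ i) z‖) ^ M := by
        rw [norm_div, norm_one, norm_pow, div_pow, one_pow]
      have h3 := C2e hζ hκ hκ1 hK hL hκζ hN (hM1 i) (hM2 i) (hS i) (ht4 i) hz
      rw [hFn] at h1 h2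
      have hρs : 0 ≤ (1 / (t / (16 * M))) ^ (d + 1) := by positivity
      have hX0 : 0 ≤ (1 / t) ^ M * Real.exp (-((K + 1) / t)) := by positivity
      constructor
      · calc ‖m N z * (1 / lam (ζ i) z ^ M)‖
            ≤ C * Real.exp (-(UU A a₀ p ζ N z).re) * (1 / ‖lam (ζ i) z‖) ^ M := h1
          _ = C * (Real.exp (-(UU A a₀ p ζ N z).re) * (1 / ‖lam (ζ i) z‖) ^ M) := by ring
          _ ≤ C * ((1 / t) ^ M * Real.exp (-((K + 1) / t))) := by
              exact mul_le_mul_of_nonneg_left h3 hC.le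
          _ ≤ C * (1 + (1 / (t / (16 * M))) ^ (d + 1)) *
              ((1 / t) ^ M * Real.exp (-((K + 1) / t))) := by
              apply mul_le_mul_of_nonneg_right _ hX0
              nlinarith
      · calc ‖Nd (d + 1) (fun x => m N x * (1 / lam (ζ i) x ^ M)) z‖
            ≤ C * (1 + (1 / (t / (16 * M))) ^ (d + 1)) * Real.exp (-(UU A a₀ p ζ N z).re) *
              (1 / ‖lam (ζ i) z‖) ^ M := h2
          _ = C * (1 + (1 / (t / (16 * M))) ^ (d + 1)) * (Real.exp (-(UU A a₀ p ζ N z).re) *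
              (1 / ‖lam (ζ i) z‖) ^ M) := by ring
          _ ≤ C * (1 + (1 / (t / (16 * M))) ^ (d + 1)) *
              ((1 / t) ^ M * Real.exp (-((K + 1) / t))) := by
              apply mul_le_mul_of_nonneg_left h3
              positivity
    have h5 := hPR _ e _ heT heS hmain
    rw [heip, RCLike.norm_conj] at h5
    -- conclusion
    have hb := hbad i
    have ht1' : t ^ M * (1 / t) ^ M = 1 := by
      rw [← mul_pow, mul_one_div_cancel ht0.ne', one_pow]
    have h6 : Real.exp (-(K / t)) < C' * C * (1 + (1 / (t / (16 * M))) ^ (d + 1)) *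
        Real.exp (-((K + 1) / t)) := by
      calc Real.exp (-(K / t)) < t ^ M * ‖Ph f M (ζ i)‖ := hb
        _ ≤ t ^ M * (C' * (C * (1 + (1 / (t / (16 * M))) ^ (d + 1)) *
          ((1 / t) ^ M * Real.exp (-((K + 1) / t))))) := by
            apply mul_le_mul_of_nonneg_left h5
            positivity
        _ = (t ^ M * (1 / t) ^ M) * (C' * C * (1 + (1 / (t / (16 * M))) ^ (d + 1)) *
          Real.exp (-((K + 1) / t))) := by ring
        _ = _ := by rw [ht1', one_mul]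
    have h7 : Real.exp (-((K + 1) / t)) = Real.exp (-(K / t)) * Real.exp (-(1 / t)) := by
      rw [← Real.exp_add]
      congr 1
      ring
    rw [h7] at h6
    have h8 : 1 < C' * C * (1 + (1 / (t / (16 * M))) ^ (d + 1)) * Real.exp (-(1 / t)) := by
      have hpos := Real.exp_pos (-(K / t))
      have : Real.exp (-(K / t)) * 1 < Real.exp (-(K / t)) *
          (C' * C * (1 + (1 / (t / (16 * M))) ^ (d + 1)) * Real.exp (-(1 / t))) := by
        rw [mul_one]
        calc Real.exp (-(K / t)) < _ := h6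
          _ = _ := by ring
      exact lt_of_mul_lt_mul_left this hpos.le
    refine lt_of_lt_of_le h8 ?_
    have h9 : 1 / (t / (16 * M)) ≤ 16 * (L * (1 / t) + 1) * (1 / t) := by
      have : 1 / (t / (16 * (M : ℝ))) = 16 * M * (1 / t) := by
        field_simp
      rw [this]
      have h10 : (M : ℝ) ≤ L * (1 / t) + 1 := by
        have := hM2 i
        rw [div_eq_mul_one_div] at this
        exact this
      have : 0 ≤ 1 / t := by positivity
      gcongr
    gcongr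
  obtain ⟨X, hX⟩ := C2f_lim (C' * C) L (d + 1)
  obtain ⟨i, hi⟩ := exists_nat_ge X
  have hzi := hζ.hB i
  obtain ⟨-, -, -, -, -, ht0, ht1⟩ := F1b (p := p) hp hzi
  have h1 : X ≤ 1 / tt (ζ i) := by
    have h2 := hti i
    have h3 : (i : ℝ) + 1 ≤ 1 / tt (ζ i) := by
      rw [le_div_iff₀ ht0]
      rw [le_div_iff₀ (by positivity)] at h2
      linarith
    linarith
  have h2 := hX _ h1
  have h3 := hkey i
  linarith

end Pool.Agent.CRT
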