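import Pool.Agent.CRT.R4
import Pool.Agent.CRT.C2f

/-!
# [B3] The estimate at the points with `Σ t(z) ≤ T_p(z) < δ`
-/

set_option autoImplicit false

namespace Pool.Agent.CRT

open Finset

/-- For every `p ∈ S` there are `δ > 0`, `Σ ≥ 1`, `C > 0` such that for all `h ∈ H` and admissible `(M,z)` with
`T_p(z) < δ`, `Σ t(z) ≤ T_p(z)`:  `t^M |h(z)| |Φ_M(z)| ≤ C e^{-c₁/t}`, `c₁ = c²/20`.

Proof.  `L = c²`, `c' = L/5`, `C'` from `R4`, `C_α` from `hH.al`.  Let `δ₁` be given by `hH.be p (c'/4)`, wlog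
`δ₁ ≤ 1`, and `κ = √δ₁`.  Let `K = |C_α| + c'` and `δ₂` from `C2f` for `(κ, K, L)`, and
`Σ = 400κ^{-4}e^{(K+1)/L}+1`, `δ = min(δ₁,δ₂)`.
If `|z'|² ≤ δ₁ T_p(z)`: `|h(z)| ≤ e^{(c'/4)/t}` and `t^M|Φ_M(z)| ≤ C'e^{-c'/t}`, product `≤ C'e^{-(3/4)c'/t}`.
Otherwise `|z'|² ≥ κ²T_p(z)`: `t^M|Φ_M(z)| ≤ e^{-K/t}`, `|h(z)| ≤ e^{C_α/t}`, product `≤ e^{-c'/t}`. -/
theorem B3 {d : ℕ} (hd : 1 ≤ d) {f : PS d} (hf : f ∈ RD d) {C₀ c : ℝ} (hC₀ : 0 < C₀)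
    (hc : 0 < c)
    (hfk : ∀ (k : ℕ) (ζ : E d), ‖ζ‖ = 1 → ‖hp f k ζ‖ ≤ C₀ * Real.exp (-(c * Real.sqrt k)))
    {H : Set (PS d)} (hH : Tame H) {p : E d} (hp : ‖p‖ = 1) :
    ∃ δ Sg C : ℝ, 0 < δ ∧ 1 ≤ Sg ∧ 0 < C ∧ ∀ h ∈ H, ∀ (M : ℕ) (z : E d), ‖z‖ < 1 →
      c ^ 2 / tt z ≤ M → (M : ℝ) ≤ c ^ 2 / tt z + 1 → TT p z < δ → Sg * tt z ≤ TT p z →
      tt z ^ M * (‖ev h z‖ * ‖Ph f M z‖) ≤ C * Real.exp (-(c ^ 2 / 20 / tt z)) := by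
  have hc2 : 0 < c ^ 2 := by positivity
  obtain ⟨C', hC', hR4⟩ := R4 hd hC₀ hc hfk
  obtain ⟨Ca, hCa⟩ := hH.al
  obtain ⟨δ₁, hδ₁, hbe⟩ := hH.be p hp (c ^ 2 / 20) (by positivity)
  set δ' : ℝ := min δ₁ 1 with hδ'
  have hδ'0 : 0 < δ' := lt_min hδ₁ one_pos
  have hδ'1 : δ' ≤ 1 := min_le_right _ _
  have hδ'2 : δ' ≤ δ₁ := min_le_left _ _
  set κ : ℝ := Real.sqrt δ' with hκ
  have hκ0 : 0 < κ := Real.sqrt_pos.2 hδ'0
  have hκ1 : κ ≤ 1 := by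
    rw [hκ]
    exact Real.sqrt_le_one.2 hδ'1
  have hκ2 : κ ^ 2 = δ' := Real.sq_sqrt hδ'0.le
  set K : ℝ := |Ca| + c ^ 2 / 5 with hK
  have hK0 : 0 < K := by
    rw [hK]
    positivity
  obtain ⟨δ₂, hδ₂, hC2⟩ := C2f hd hf hp hκ0 hκ1 hK0 hc2
  refine ⟨min δ' δ₂, 400 * (1 / κ) ^ 4 * Real.exp ((K + 1) / c ^ 2) + 1, C' + 1,
    lt_min hδ'0 hδ₂, ?_, by positivity, ?_⟩
  · have : 0 ≤ 400 * (1 / κ) ^ 4 * Real.exp ((K + 1) / c ^ 2) := by positivity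
    linarith
  intro h hh M z hz hM1 hM2 hT hS
  have ht : 0 < tt z := (F1b hp hz).2.2.2.2.2.1
  have hT0 : 0 < TT p z := (F1b hp hz).2.2.2.1
  have hev0 : 0 ≤ ‖ev h z‖ := norm_nonneg _
  have hPh0 : 0 ≤ ‖Ph f M z‖ := norm_nonneg _
  have htM : 0 ≤ tt z ^ M := pow_nonneg ht.le M
  have hre : tt z ^ M * (‖ev h z‖ * ‖Ph f M z‖) = ‖ev h z‖ * (tt z ^ M * ‖Ph f M z‖) := by ring
  rw [hre]
  rcases le_total (‖pr p z‖ ^ 2) (δ' * TT p z) with hcase | hcase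
  · have h1 : ‖ev h z‖ ≤ Real.exp (c ^ 2 / 20 / tt z) := by
      apply hbe h hh z hz (lt_of_lt_of_le hT ((min_le_left _ _).trans hδ'2))
      exact hcase.trans (mul_le_mul_of_nonneg_right hδ'2 hT0.le)
    have h2 := hR4 M z hz hM1 hM2
    calc ‖ev h z‖ * (tt z ^ M * ‖Ph f M z‖)
        ≤ Real.exp (c ^ 2 / 20 / tt z) * (C' * Real.exp (-(c ^ 2 / 5 / tt z))) :=
          mul_le_mul h1 h2 (mul_nonneg htM hPh0) (Real.exp_pos _).le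
      _ = C' * Real.exp (c ^ 2 / 20 / tt z + -(c ^ 2 / 5 / tt z)) := by
          rw [Real.exp_add]
          ring
      _ ≤ (C' + 1) * Real.exp (-(c ^ 2 / 20 / tt z)) := by
          apply mul_le_mul (by linarith) _ (Real.exp_pos _).le (by linarith)
          apply Real.exp_le_exp.2
          have e1 : c ^ 2 / 20 / tt z + -(c ^ 2 / 5 / tt z) = -(3 * (c ^ 2 / 20 / tt z)) := by ring
          rw [e1]
          have e2 : 0 ≤ c ^ 2 / 20 / tt z := by positivity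
          linarith
  · have h1 : ‖ev h z‖ ≤ Real.exp (Ca / tt z) := hCa h hh z hz
    have h2 := hC2 M z hz hM1 hM2 (lt_of_lt_of_le hT (min_le_right _ _)) (by rw [hκ2]; exact hcase) hS
    calc ‖ev h z‖ * (tt z ^ M * ‖Ph f M z‖)
        ≤ Real.exp (Ca / tt z) * Real.exp (-(K / tt z)) :=
          mul_le_mul h1 h2 (mul_nonneg htM hPh0) (Real.exp_pos _).le
      _ = Real.exp (Ca / tt z + -(K / tt z)) := (Real.exp_add _ _).symm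
      _ ≤ Real.exp (-(c ^ 2 / 20 / tt z)) := by
          apply Real.exp_le_exp.2
          have e1 : Ca / tt z + -(K / tt z) = (Ca - K) / tt z := by ring
          have e2 : -(c ^ 2 / 20 / tt z) = (-(c ^ 2 / 20)) / tt z := by ring
          rw [e1, e2]
          apply div_le_div_of_nonneg_right _ ht.le
          have e3 : Ca ≤ |Ca| := le_abs_self Ca
          rw [hK]
          linarith
      _ ≤ (C' + 1) * Real.exp (-(c ^ 2 / 20 / tt z)) := by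
          have e1 := (Real.exp_pos (-(c ^ 2 / 20 / tt z))).le
          nlinarith

end Pool.Agent.CRT
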