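import Pool.Agent.CRT.B2
import Pool.Agent.CRT.B3

/-!
# [B4] The bound for the integral over the whole sphere
-/

set_option autoImplicit false

namespace Pool.Agent.CRT

open Finset MeasureTheory

theorem B4_pos {ι : Type*} (P : Finset ι) (g : ι → ℝ) (hg : ∀ p ∈ P, 0 < g p) :
    ∃ ε : ℝ, 0 < ε ∧ ∀ p ∈ P, ε ≤ g p := by
  classical
  induction P using Finset.induction_on with
  | empty => exact ⟨1, one_pos, by simp⟩
  | insert a s _ ih =>
    obtain ⟨ε, hε, h⟩ := ih (fun p hp => hg p (Finset.mem_insert_of_mem hp))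
    refine ⟨min ε (g a), lt_min hε (hg a (Finset.mem_insert_self _ _)), ?_⟩
    intro p hp
    rcases Finset.mem_insert.1 hp with rfl | hp
    · exact min_le_right _ _
    · exact (min_le_left _ _).trans (h p hp)

theorem B4_cover {d : ℕ} (δ : E d → ℝ) (hδ : ∀ p : E d, ‖p‖ = 1 → 0 < δ p) :
    ∃ P : Finset (E d), (∀ p ∈ P, ‖p‖ = 1) ∧
      ∀ ζ : E d, ‖ζ‖ = 1 → ∃ p ∈ P, TT p ζ < δ p / 2 := by
  have hc : IsCompact (Metric.sphere (0 : E d) 1) := isCompact_sphere _ _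
  obtain ⟨P, hP, hcov⟩ := hc.elim_nhds_subcover (fun p => {ζ : E d | TT p ζ < δ p / 2}) (by
    intro p hp
    have hp1 : ‖p‖ = 1 := by simpa using hp
    have hcont : Continuous (fun ζ : E d => TT p ζ) := by
      unfold TT lam br
      fun_prop
    refine (isOpen_lt hcont continuous_const).mem_nhds ?_
    have h0 : TT p p = 0 := by
      unfold TT lam br
      rw [inner_self_eq_norm_sq_to_K, hp1]
      simp
    simp only [Set.mem_ofPred_eq, h0]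
    have := hδ p hp1
    linarith)
  refine ⟨P, fun p hp => by simpa using hP p hp, ?_⟩
  intro ζ hζ
  have := hcov (by simpa using hζ : ζ ∈ Metric.sphere (0 : E d) 1)
  simpa using this

theorem B4_TT {d : ℕ} {p ζ : E d} (hp : ‖p‖ = 1) (hζ : ‖ζ‖ = 1) {r : ℝ} (hr0 : 0 < r)
    (hr : r < 1) : TT p ((r : ℂ) • ζ) ≤ TT p ζ + (1 - r ^ 2) := by
  unfold TT lam
  rw [br_smul]
  have h1 : (1 : ℂ) - (r : ℂ) * br ζ p = (1 - br ζ p) + ((1 - r : ℝ) : ℂ) * br ζ p := by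
    push_cast
    ring
  rw [h1]
  refine (norm_add_le _ _).trans ?_
  rw [norm_mul, Complex.norm_real, Real.norm_eq_abs, abs_of_pos (by linarith : 0 < 1 - r)]
  have h2 := br_le ζ p
  rw [hζ, hp] at h2
  have h3 : (1 - r) * ‖br ζ p‖ ≤ (1 - r) * 1 :=
    mul_le_mul_of_nonneg_left (by linarith) (by linarith)
  nlinarith

theorem B4_tt {d : ℕ} {ζ : E d} (hζ : ‖ζ‖ = 1) {r : ℝ} (hr0 : 0 < r) :
    tt ((r : ℂ) • ζ) = 1 - r ^ 2 ∧ ‖(r : ℂ) • ζ‖ = r := by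
  have h1 : ‖(r : ℂ) • ζ‖ = r := by
    rw [norm_smul, hζ, Complex.norm_real, Real.norm_eq_abs, abs_of_pos hr0, mul_one]
  refine ⟨?_, h1⟩
  unfold tt
  rw [h1]

theorem B4_disj {d : ℕ} {p q z : E d} (hp : ‖p‖ = 1) (hq : ‖q‖ = 1) (hz : ‖z‖ < 1) {s : ℝ}
    (h1 : TT p z < s) (h2 : TT q z < s) : ‖p - q‖ ^ 2 < 8 * s := by
  obtain ⟨-, -, -, a1, a2, -, -⟩ := F3b (ζ := p) hz hp.le
  obtain ⟨-, -, -, b1, b2, -, -⟩ := F3b (ζ := q) hz hq.le
  have e1 : ‖lam p z‖ < s := h1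
  have e2 : ‖lam q z‖ < s := h2
  have h3 : ‖p - q‖ ≤ ‖z - p‖ + ‖z - q‖ := by
    have : p - q = (z - q) - (z - p) := by abel
    rw [this]
    refine (norm_sub_le _ _).trans ?_
    linarith
  have h4 : ‖p - q‖ ^ 2 ≤ (‖z - p‖ + ‖z - q‖) ^ 2 := by
    exact pow_le_pow_left₀ (norm_nonneg _) h3 2
  nlinarith [sq_nonneg (‖z - p‖ - ‖z - q‖)]

/-- There are `t₀, C > 0` such that for all `h ∈ H`, `0<r<1` with `t = 1-r² < t₀` and `M` with
`L/t ≤ M ≤ L/t+1` (`L = c²`):  `t^M |∫_S h(rζ) conj Φ_M(rζ) dσ| ≤ C e^{-c₁/t}`, `c₁ = c²/20`.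

Proof.  For `p ∈ S` let `δ_p, Σ_p, C_p` be given by `B3`.  The sets `{ζ ∈ S : T_p(ζ) < δ_p/2}` (`p ∈ S`) are
relatively open and cover the compact `S` (`T_p(p) = 0`); let `P` be a finite set of `p`'s for which they
cover `S`, and `Σ = max Σ_p`, over `P`.  Let `z = rζ`, `ζ ∈ S`: `t(z) = t`, `|T_p(z) - T_p(ζ)| ≤ |z-ζ| = 1-r ≤ t`,
so if `t < min_P δ_p/2` every such `z` has `T_p(z) < δ_p` for some `p ∈ P`.
Let `A_p = {ζ : T_p(rζ) < Σt} = {ζ : <ζ,p> ∈ W}`, `W = {x ∈ ℂ : |1-rx| < Σt}` open.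
The `A_p ∩ S`, `p ∈ P`, are pairwise disjoint for small `t`: `T_p(z) < Σt` gives (`F3a`, `|p| = 1`)
`|z-p|² ≤ 2 Re λ_p(z) ≤ 2Σt`, so `|p-p'| ≤ 2√(2Σt)` if `ζ ∈ A_p ∩ A_{p'}`; exclude this by
`8Σt < min_{p≠p'} |p-p'|²`.
`∫_S G = ∑_{p∈P} ∫_{A_p} G + ∫_{S∖∪A_p} G`, `G(ζ) = h(rζ) conj Φ_M(rζ)` (continuous: `P2p`, `Ph_summable`).
* On `S∖∪A_p`: choose `p ∈ P` with `T_p(z) < δ_p`; as `T_p(z) ≥ Σt ≥ Σ_p t`, `B3` gives `t^M|G| ≤ C_p e^{-c₁/t}`.
* On `A_p`: `B1` with `B₀ = t^{-M} C e^{-c₁/t}`, whose hypothesis is given by `B2` (for `z = rζ`, `T_p(z) ≤ Σt`;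
  `t < t₀(p)`).
(If two of these sets differ only by a null set nothing changes; `σ` is carried by `S`.) -/
theorem B4 {d : ℕ} (hd : 1 ≤ d) {σ : Measure (E d)} (hσ : IsSig σ) {f : PS d} (hf : f ∈ RD d)
    {C₀ c : ℝ} (hC₀ : 0 < C₀) (hc : 0 < c)
    (hfk : ∀ (k : ℕ) (ζ : E d), ‖ζ‖ = 1 → ‖hp f k ζ‖ ≤ C₀ * Real.exp (-(c * Real.sqrt k)))
    {H : Set (PS d)} (hH : Tame H) :
    ∃ t₀ C : ℝ, 0 < t₀ ∧ 0 < C ∧ ∀ h ∈ H, ∀ (M : ℕ) (r : ℝ), 0 < r → r < 1 →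
      1 - r ^ 2 < t₀ → c ^ 2 / (1 - r ^ 2) ≤ M → (M : ℝ) ≤ c ^ 2 / (1 - r ^ 2) + 1 →
      (1 - r ^ 2) ^ M * ‖∫ ζ, ev h ((r : ℂ) • ζ) * (starRingEnd ℂ) (Ph f M ((r : ℂ) • ζ)) ∂σ‖ ≤
        C * Real.exp (-(c ^ 2 / 20 / (1 - r ^ 2))) := by
  classical
  choose! δ S C h3a h3b h3c h3 using fun (p : E d) (hp : ‖p‖ = 1) => B3 hd hf hC₀ hc hfk hH hp
  obtain ⟨P, hP1, hcov⟩ := B4_cover δ h3a
  -- the constants
  set Sg : ℝ := 1 + ∑ p ∈ P, S p with hSg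
  have hSnn : ∀ p ∈ P, 0 ≤ S p := fun p hp => zero_le_one.trans (h3b p (hP1 p hp))
  have hSg1 : 1 ≤ Sg := by
    have := Finset.sum_nonneg hSnn
    linarith
  have hSgp : ∀ p ∈ P, S p ≤ Sg := by
    intro p hp
    have := Finset.single_le_sum hSnn hp
    linarith
  have hB2 : ∀ p : E d, ‖p‖ = 1 → ∃ t₀ C : ℝ, 0 < t₀ ∧ 0 < C ∧ ∀ h ∈ H, ∀ (M : ℕ) (z : E d),
      ‖z‖ < 1 → c ^ 2 / tt z ≤ M → (M : ℝ) ≤ c ^ 2 / tt z + 1 → tt z < t₀ →
      TT p z ≤ Sg * tt z →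
      tt z ^ M * ‖∫ θ in (0:ℝ)..(2 * Real.pi), ev h (Rt p (Complex.exp (θ * Complex.I)) z) *
        (starRingEnd ℂ) (Ph f M (Rt p (Complex.exp (θ * Complex.I)) z))‖ ≤
        2 * Real.pi * (C * Real.exp (-(c ^ 2 / 20 / tt z))) :=
    fun p hp => B2 hd hf hC₀ hc hfk hH hp hSg1
  choose! T D h2a h2b h2 using hB2
  obtain ⟨ε₁, hε₁, hε₁'⟩ := B4_pos P (fun p => δ p / 2) (fun p hp => by
    have := h3a p (hP1 p hp)
    linarith)
  obtain ⟨ε₂, hε₂, hε₂'⟩ := B4_pos P T (fun p hp => h2a p (hP1 p hp))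
  obtain ⟨ε₃, hε₃, hε₃'⟩ := B4_pos ((P ×ˢ P).filter (fun q => q.1 ≠ q.2))
    (fun q => ‖q.1 - q.2‖ ^ 2 / (8 * Sg)) (fun q hq => by
      have hne := (Finset.mem_filter.1 hq).2
      have : 0 < ‖q.1 - q.2‖ := norm_pos_iff.2 (sub_ne_zero.2 hne)
      positivity)
  have hCnn : ∀ p ∈ P, 0 ≤ C p := fun p hp => (h3c p (hP1 p hp)).le
  have hDnn : ∀ p ∈ P, 0 ≤ D p := fun p hp => (h2b p (hP1 p hp)).le
  refine ⟨min ε₁ (min ε₂ ε₃), 1 + ∑ p ∈ P, C p + ∑ p ∈ P, D p, lt_min hε₁ (lt_min hε₂ hε₃), by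
    have h1 := Finset.sum_nonneg hCnn
    have h2 := Finset.sum_nonneg hDnn
    linarith, ?_⟩
  intro h hh M r hr0 hr ht hM1 hM2
  have ht1 : 1 - r ^ 2 < ε₁ := ht.trans_le (min_le_left _ _)
  have ht2 : 1 - r ^ 2 < ε₂ := ht.trans_le ((min_le_right _ _).trans (min_le_left _ _))
  have ht3 : 1 - r ^ 2 < ε₃ := ht.trans_le ((min_le_right _ _).trans (min_le_right _ _))
  have ht0 : 0 < 1 - r ^ 2 := by nlinarith
  set t : ℝ := 1 - r ^ 2 with htdef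
  have hMpos : 1 ≤ M := by
    have : (0 : ℝ) < M := lt_of_lt_of_le (by positivity) hM1
    exact_mod_cast this
  have hfb : ∀ k, ∀ z : E d, ‖z‖ = 1 → ‖hp f k z‖ ≤ C₀ := by
    intro k z hz
    refine (hfk k z hz).trans ?_
    have : Real.exp (-(c * Real.sqrt k)) ≤ 1 := by
      rw [Real.exp_le_one_iff]
      have : 0 ≤ c * Real.sqrt k := by positivity
      linarith
    nlinarith
  obtain ⟨-, hPhc, -⟩ := Ph_summable hd hfb hMpos
  obtain ⟨K, hK⟩ := hH.poly h hh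
  obtain ⟨-, -, hevc, -⟩ := P2p hK
  set G : E d → ℂ := fun z => ev h z * (starRingEnd ℂ) (Ph f M z) with hGdef
  have hGc : ContinuousOn G (Metric.ball 0 1) := by
    apply ContinuousOn.mul hevc.continuousOn
    exact Complex.continuous_conj.comp_continuousOn hPhc
  have hgc : ContinuousOn (fun ζ : E d => G ((r : ℂ) • ζ)) (Metric.sphere 0 1) := by
    refine hGc.comp (by fun_prop) ?_
    intro ζ hζ
    have hζ1 : ‖ζ‖ = 1 := by simpa using hζ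
    simp only [Metric.mem_ball, dist_zero_right]
    rw [(B4_tt hζ1 hr0).2]
    exact hr
  have hgi : Integrable (fun ζ : E d => G ((r : ℂ) • ζ)) σ := S2i hσ hgc
  set W : Set ℂ := {x : ℂ | ‖1 - (r : ℂ) * x‖ < Sg * t} with hW
  have hWo : IsOpen W := isOpen_lt (by fun_prop) continuous_const
  set AA : E d → Set (E d) := fun p => {ζ : E d | br ζ p ∈ W} with hAA
  have hbrc : ∀ p : E d, Continuous (fun ζ : E d => br ζ p) := by
    intro p
    unfold br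
    fun_prop
  have hAm : ∀ p, MeasurableSet (AA p) := fun p =>
    (hWo.preimage (hbrc p)).measurableSet
  have hAmem : ∀ p ζ : E d, ζ ∈ AA p ↔ TT p ((r : ℂ) • ζ) < Sg * t := by
    intro p ζ
    simp only [hAA, hW, Set.mem_ofPred_eq, TT, lam, br_smul]
  have hRm : MeasurableSet (⋃ p ∈ P, AA p)ᶜ :=
    (Finset.measurableSet_biUnion P fun p _ => hAm p).compl
  -- decomposition
  have hdec : ∫ ζ, G ((r : ℂ) • ζ) ∂σ = ∑ p ∈ P, (∫ ζ in AA p, G ((r : ℂ) • ζ) ∂σ) +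
      ∫ ζ, (⋃ p ∈ P, AA p)ᶜ.indicator (fun ζ : E d => G ((r : ℂ) • ζ)) ζ ∂σ := by
    have e1 : ∀ p ∈ P, (∫ ζ in AA p, G ((r : ℂ) • ζ) ∂σ) =
        ∫ ζ, (AA p).indicator (fun ζ : E d => G ((r : ℂ) • ζ)) ζ ∂σ :=
      fun p _ => (integral_indicator (hAm p)).symm
    rw [Finset.sum_congr rfl e1, ← integral_finsetSum P (fun p _ => hgi.indicator (hAm p)),
      ← integral_add (integrable_finsetSum P fun p _ => hgi.indicator (hAm p))
        (hgi.indicator hRm)]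
    refine integral_congr_ae ?_
    filter_upwards [hσ.supp] with ζ hζ
    obtain ⟨htz, hnz⟩ := B4_tt hζ hr0
    by_cases hex : ∃ p ∈ P, ζ ∈ AA p
    · obtain ⟨p, hpP, hpA⟩ := hex
      have hnot : ζ ∉ (⋃ p ∈ P, AA p)ᶜ := by
        simp only [Set.mem_compl_iff, not_not, Set.mem_iUnion]
        exact ⟨p, hpP, hpA⟩
      rw [Set.indicator_of_notMem hnot, add_zero, Finset.sum_eq_single p,
        Set.indicator_of_mem hpA]
      · intro q hqP hqp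
        apply Set.indicator_of_notMem
        intro hqA
        have h1 := (hAmem p ζ).1 hpA
        have h2 := (hAmem q ζ).1 hqA
        have h3 := B4_disj (hP1 p hpP) (hP1 q hqP) (by rw [hnz]; exact hr) h1 h2
        have h4 := hε₃' (p, q) (Finset.mem_filter.2
          ⟨Finset.mem_product.2 ⟨hpP, hqP⟩, Ne.symm hqp⟩)
        simp only at h4
        rw [le_div_iff₀ (by positivity)] at h4
        have h5 : t * (8 * Sg) < ε₃ * (8 * Sg) :=
          mul_lt_mul_of_pos_right ht3 (by positivity)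
        linarith
      · intro hcon
        exact absurd hpP hcon
    · push Not at hex
      have hin : ζ ∈ (⋃ p ∈ P, AA p)ᶜ := by
        simp only [Set.mem_compl_iff, Set.mem_iUnion, not_exists]
        exact hex
      rw [Set.indicator_of_mem hin, Finset.sum_eq_zero, zero_add]
      intro p hp
      exact Set.indicator_of_notMem (hex p hp) _
  set X : ℝ := Real.exp (-(c ^ 2 / 20 / t)) with hX
  have hX0 : 0 < X := Real.exp_pos _
  have htM : 0 < t ^ M := pow_pos ht0 M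
  -- the caps
  have hcap : ∀ p ∈ P, ‖∫ ζ in AA p, G ((r : ℂ) • ζ) ∂σ‖ ≤ D p * X / t ^ M := by
    intro p hp
    have hp1 := hP1 p hp
    refine B1 hσ hp1 hGc hr0 hr hWo.measurableSet
      (div_nonneg (mul_nonneg (hDnn p hp) hX0.le) htM.le) ?_
    intro ζ hζ hζW
    obtain ⟨htz, hnz⟩ := B4_tt hζ hr0
    have hz1 : ‖(r : ℂ) • ζ‖ < 1 := by rw [hnz]; exact hr
    have hT : TT p ((r : ℂ) • ζ) < Sg * t := (hAmem p ζ).1 hζW
    have := h2 p hp1 h hh M ((r : ℂ) • ζ) hz1 (by rw [htz]; exact hM1) (by rw [htz]; exact hM2)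
      (by rw [htz]; exact ht2.trans_le (hε₂' p hp)) (by rw [htz]; exact hT.le)
    rw [htz] at this
    have e : 2 * Real.pi * (D p * X / t ^ M) = (2 * Real.pi * (D p * X)) / t ^ M := by ring
    rw [e, le_div_iff₀ htM, mul_comm]
    exact this
  -- the rest
  have hrest : ‖∫ ζ, (⋃ p ∈ P, AA p)ᶜ.indicator (fun ζ : E d => G ((r : ℂ) • ζ)) ζ ∂σ‖ ≤
      (∑ p ∈ P, C p) * X / t ^ M := by
    refine S2b hσ (div_nonneg (mul_nonneg (Finset.sum_nonneg hCnn) hX0.le) htM.le) ?_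
    intro ζ hζ
    obtain ⟨htz, hnz⟩ := B4_tt hζ hr0
    have hz1 : ‖(r : ℂ) • ζ‖ < 1 := by rw [hnz]; exact hr
    by_cases hin : ζ ∈ (⋃ p ∈ P, AA p)ᶜ
    · rw [Set.indicator_of_mem hin]
      obtain ⟨p, hpP, hpT⟩ := hcov ζ hζ
      have hp1 := hP1 p hpP
      have h1 : TT p ((r : ℂ) • ζ) < δ p := by
        have e1 := B4_TT hp1 hζ hr0 hr
        have e2 := hε₁' p hpP
        linarith
      have h2' : ζ ∉ AA p := by
        intro hcon
        apply hin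
        simp only [Set.mem_iUnion]
        exact ⟨p, hpP, hcon⟩
      have h3' : Sg * t ≤ TT p ((r : ℂ) • ζ) := by
        by_contra hcon
        exact h2' ((hAmem p ζ).2 (not_le.1 hcon))
      have h4 : S p * tt ((r : ℂ) • ζ) ≤ TT p ((r : ℂ) • ζ) := by
        rw [htz]
        exact (mul_le_mul_of_nonneg_right (hSgp p hpP) ht0.le).trans h3'
      have h5 := h3 p hp1 h hh M ((r : ℂ) • ζ) hz1 (by rw [htz]; exact hM1)
        (by rw [htz]; exact hM2) h1 h4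
      rw [htz] at h5
      have h6 : ‖G ((r : ℂ) • ζ)‖ = ‖ev h ((r : ℂ) • ζ)‖ * ‖Ph f M ((r : ℂ) • ζ)‖ := by
        simp only [hGdef, norm_mul, RCLike.norm_conj]
      rw [h6, le_div_iff₀ htM, mul_comm]
      refine h5.trans ?_
      exact mul_le_mul_of_nonneg_right (Finset.single_le_sum hCnn hpP) hX0.le
    · rw [Set.indicator_of_notMem hin, norm_zero]
      exact div_nonneg (mul_nonneg (Finset.sum_nonneg hCnn) hX0.le) htM.le
  have hfin : ‖∫ ζ, G ((r : ℂ) • ζ) ∂σ‖ ≤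
      (∑ p ∈ P, D p * X / t ^ M) + (∑ p ∈ P, C p) * X / t ^ M := by
    rw [hdec]
    refine (norm_add_le _ _).trans (add_le_add ?_ hrest)
    exact (norm_sum_le _ _).trans (Finset.sum_le_sum hcap)
  calc t ^ M * ‖∫ ζ, ev h ((r : ℂ) • ζ) * (starRingEnd ℂ) (Ph f M ((r : ℂ) • ζ)) ∂σ‖
      ≤ t ^ M * ((∑ p ∈ P, D p * X / t ^ M) + (∑ p ∈ P, C p) * X / t ^ M) :=
        mul_le_mul_of_nonneg_left hfin htM.le
    _ = (∑ p ∈ P, C p + ∑ p ∈ P, D p) * X := by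
        rw [← Finset.sum_div, ← Finset.sum_mul]
        field_simp
        ring
    _ ≤ (1 + ∑ p ∈ P, C p + ∑ p ∈ P, D p) * X := by
        apply mul_le_mul_of_nonneg_right _ hX0.le
        linarith

end Pool.Agent.CRT
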