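import Pool.Agent.CRT.P4

/-!
# [M4cx] The expansion of exp(c/(1-x)) and the test functions
-/

set_option autoImplicit false

namespace Pool.Agent.CRT

open Finset

theorem M4cx_cf (M : ℕ) {x : ℂ} (hx : ‖x‖ < 1) :
    HasSum (fun k => (cf M k : ℂ) * x ^ k) (1 / (1 - x) ^ M) := by
  rcases Nat.eq_zero_or_pos M with rfl | hM
  · have h0 : ∀ k : ℕ, k ≠ 0 → (cf 0 k : ℂ) * x ^ k = 0 := by
      intro k hk
      have h1 : cf 0 k = 0 := by
        unfold cf
        rw [Nat.choose_eq_zero_of_lt (by omega)]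
        simp
      rw [h1]
      simp
    have h2 := hasSum_single (f := fun k : ℕ => (cf 0 k : ℂ) * x ^ k) 0 (fun k hk => h0 k hk)
    have h3 : (cf 0 0 : ℂ) * x ^ 0 = 1 / (1 - x) ^ 0 := by
      unfold cf
      simp
    rw [h3] at h2
    exact h2
  · exact cf_hasSum hM hx

theorem M4cx_cfR (M : ℕ) {r : ℝ} (h0 : 0 ≤ r) (hr : r < 1) :
    HasSum (fun k => cf M k * r ^ k) (1 / (1 - r) ^ M) := by
  have h := M4cx_cf M (x := (r : ℂ)) (by rw [Complex.norm_real, Real.norm_eq_abs, abs_of_nonneg h0]; exact hr)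
  rw [← Complex.hasSum_ofReal]
  convert h using 1
  · funext k
    push_cast
    rfl
  · push_cast
    rfl

theorem M4cx_cf_nonneg (M k : ℕ) : 0 ≤ cf M k := by
  unfold cf
  positivity

theorem M4cx_sumR {c : ℝ} (hc : 0 < c) {r : ℝ} (h0 : 0 ≤ r) (hr : r < 1) :
    Summable fun p : ℕ × ℕ => c ^ p.1 / (p.1.factorial : ℝ) * (cf p.1 p.2 * r ^ p.2) := by
  rw [summable_prod_of_nonneg]
  · refine ⟨fun j => ((M4cx_cfR j h0 hr).summable).mul_left (c ^ j / (j.factorial : ℝ)), ?_⟩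
    have h1 : ∀ j : ℕ, ∑' k : ℕ, c ^ j / (j.factorial : ℝ) * (cf j k * r ^ k) =
        (c / (1 - r)) ^ j / (j.factorial : ℝ) := by
      intro j
      rw [tsum_mul_left, (M4cx_cfR j h0 hr).tsum_eq, div_pow]
      ring
    have h2 : (fun j : ℕ => ∑' k : ℕ, c ^ j / (j.factorial : ℝ) * (cf j k * r ^ k)) =
        fun j : ℕ => (c / (1 - r)) ^ j / (j.factorial : ℝ) := funext h1
    show Summable (fun j : ℕ => ∑' k : ℕ, c ^ j / (j.factorial : ℝ) * (cf j k * r ^ k))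
    rw [h2]
    exact Real.summable_pow_div_factorial _
  · intro p
    show 0 ≤ c ^ p.1 / (p.1.factorial : ℝ) * (cf p.1 p.2 * r ^ p.2)
    have := M4cx_cf_nonneg p.1 p.2
    positivity

theorem M4cx_sum {c : ℝ} (hc : 0 < c) (k : ℕ) :
    Summable fun j : ℕ => c ^ j / (j.factorial : ℝ) * cf j k := by
  have h1 := M4cx_sumR hc (r := 1 / 2) (by norm_num) (by norm_num)
  have h2 := h1.prod_symm.prod_factor k
  have h3 := h2.mul_right ((2 : ℝ) ^ k)
  refine h3.congr fun j => ?_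
  show c ^ j / (j.factorial : ℝ) * (cf j k * (1 / 2) ^ k) * 2 ^ k = c ^ j / (j.factorial : ℝ) * cf j k
  have h4 : ((1 : ℝ) / 2) ^ k * 2 ^ k = 1 := by
    rw [← mul_pow]
    norm_num
  calc c ^ j / (j.factorial : ℝ) * (cf j k * (1 / 2) ^ k) * 2 ^ k
      = c ^ j / (j.factorial : ℝ) * cf j k * ((1 / 2) ^ k * 2 ^ k) := by ring
    _ = _ := by rw [h4, mul_one]

/-- `exp(c/(1-x)) = ∑_k ph c k x^k`, `|x| < 1`.

Proof.  `exp(c/(1-x)) = ∑_j (c^j/j!) (1-x)^{-j} = ∑_j (c^j/j!) ∑_k cf j k x^k` (`cf_hasSum` for `j ≥ 1`; for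
`j = 0`: `cf 0 0 = 1` and `cf 0 k = binom(k-1,k) = 0` for `k ≥ 1`).  The double series converges
absolutely (`∑_j (c^j/j!)(1-|x|)^{-j} < ∞`), so the order of summation can be exchanged. -/
theorem M4c1 {c : ℝ} (hc : 0 < c) {x : ℂ} (hx : ‖x‖ < 1) :
    HasSum (fun k => (ph c k : ℂ) * x ^ k) (Complex.exp ((c : ℂ) / (1 - x))) := by
  set F : ℕ × ℕ → ℂ := fun p => ((c ^ p.1 / (p.1.factorial : ℝ) * cf p.1 p.2 : ℝ) : ℂ) * x ^ p.2
    with hF
  have hsum : Summable F := by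
    refine Summable.of_norm ?_
    refine (M4cx_sumR hc (norm_nonneg x) hx).congr fun p => ?_
    rw [hF]
    show _ = ‖((c ^ p.1 / (p.1.factorial : ℝ) * cf p.1 p.2 : ℝ) : ℂ) * x ^ p.2‖
    rw [norm_mul, norm_pow, Complex.norm_real, Real.norm_eq_abs, abs_of_nonneg]
    · ring
    · have := M4cx_cf_nonneg p.1 p.2
      positivity
  have hfib : ∀ j : ℕ, HasSum (fun k => F (j, k)) (((c : ℂ) / (1 - x)) ^ j / (j.factorial : ℂ)) := by
    intro j
    have h1 := (M4cx_cf j hx).mul_left ((c : ℂ) ^ j / (j.factorial : ℂ))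
    have e1 : (fun k => F (j, k)) = fun k => (c : ℂ) ^ j / (j.factorial : ℂ) * ((cf j k : ℂ) * x ^ k) := by
      funext k
      show ((c ^ j / (j.factorial : ℝ) * cf j k : ℝ) : ℂ) * x ^ k = _
      push_cast
      ring
    have e2 : ((c : ℂ) / (1 - x)) ^ j / (j.factorial : ℂ) =
        (c : ℂ) ^ j / (j.factorial : ℂ) * (1 / (1 - x) ^ j) := by
      rw [div_pow]
      ring
    rw [e1, e2]
    exact h1
  have h2 := hsum.hasSum.prod_fiberwise hfib
  have h3 : HasSum (fun j : ℕ => ((c : ℂ) / (1 - x)) ^ j / (j.factorial : ℂ))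
      (Complex.exp ((c : ℂ) / (1 - x))) := by
    rw [Complex.exp_eq_exp_ℂ]
    exact NormedSpace.expSeries_div_hasSum_exp _
  have h4 : ∑' p, F p = Complex.exp ((c : ℂ) / (1 - x)) := h2.unique h3
  have h5 : HasSum (fun p : ℕ × ℕ => F p.swap) (Complex.exp ((c : ℂ) / (1 - x))) := by
    rw [← h4]
    exact (Equiv.prodComm ℕ ℕ).hasSum_iff.2 hsum.hasSum
  refine h5.prod_fiberwise fun k => ?_
  show HasSum (fun j : ℕ => ((c ^ j / (j.factorial : ℝ) * cf j k : ℝ) : ℂ) * x ^ k) _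
  refine HasSum.mul_right _ ?_
  rw [Complex.hasSum_ofReal]
  exact (M4cx_sum hc k).hasSum

theorem ph_nonneg {c : ℝ} (hc : 0 < c) (k : ℕ) : 0 ≤ ph c k := by
  unfold ph
  refine tsum_nonneg fun j => ?_
  have := M4cx_cf_nonneg j k
  positivity

/-- the test functions: `<exp(c/λ_ζ), f>_D = conj(∑ ph c k f_k(ζ))` -/
theorem M4t {d : ℕ} {c : ℝ} (hc : 0 < c) {ζ : E d} (hζ : ‖ζ‖ < 1) {f : PS d}
    (hf : f ∈ Sp (wD (d := d))) :
    ∃ e : PS d, e ∈ Sp (wD (d := d)) ∧ IsTS (fun z => Complex.exp ((c : ℂ) / lam ζ z)) e ∧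
      ip wD e f = (starRingEnd ℂ) (∑' k, (ph c k : ℂ) * hp f k ζ) ∧
      Summable (fun k => (ph c k : ℂ) * hp f k ζ) := by
  obtain ⟨e, he, hT, hs⟩ := P4 (φ := fun k => (ph c k : ℂ))
    (g := fun x => Complex.exp ((c : ℂ) / (1 - x))) (fun x hx => M4c1 hc hx) hζ hf
  have h1 : HasSum (fun k => (ph c k : ℂ) * hp f k ζ) ((starRingEnd ℂ) (ip wD e f)) := by
    have h2 := Complex.hasSum_conj'.2 hs
    have e1 : (fun k => (starRingEnd ℂ) ((ph c k : ℂ) * (starRingEnd ℂ) (hp f k ζ))) =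
        fun k => (ph c k : ℂ) * hp f k ζ := by
      funext k
      rw [map_mul, Complex.conj_ofReal, Complex.conj_conj]
    rw [e1] at h2
    exact h2
  refine ⟨e, he, hT, ?_, h1.summable⟩
  rw [h1.tsum_eq, Complex.conj_conj]

end Pool.Agent.CRT
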