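import Pool.Agent.CRT.P4
import Pool.Agent.CRT.M4cx

/-!
# [M4cy] Lower bound for the coefficients
-/

set_option autoImplicit false

namespace Pool.Agent.CRT

open Finset

theorem M4cy_nn {c : ℝ} (hc : 0 < c) (j k : ℕ) : 0 ≤ c ^ j / (j.factorial : ℝ) * cf j k := by
  unfold cf
  positivity

theorem M4cy_summable {c : ℝ} (hc : 0 < c) (k : ℕ) :
    Summable fun j : ℕ => c ^ j / (j.factorial : ℝ) * cf j k := by
  have h1 : Summable fun j : ℕ => 2 ^ k * ((2 * c) ^ j / (j.factorial : ℝ)) :=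
    (Real.summable_pow_div_factorial (2 * c)).mul_left _
  refine Summable.of_nonneg_of_le (fun j => M4cy_nn hc j k) (fun j => ?_) h1
  have h2 : cf j k ≤ 2 ^ (j + k) := by
    unfold cf
    have h3 : (j + k - 1).choose k ≤ 2 ^ (j + k) :=
      (Nat.choose_le_two_pow _ _).trans (Nat.pow_le_pow_right (by norm_num) (by omega))
    exact_mod_cast h3
  calc c ^ j / (j.factorial : ℝ) * cf j k ≤ c ^ j / (j.factorial : ℝ) * 2 ^ (j + k) :=
        mul_le_mul_of_nonneg_left h2 (by positivity)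
    _ = 2 ^ k * ((2 * c) ^ j / (j.factorial : ℝ)) := by
        rw [pow_add, mul_pow]
        ring

theorem M4cy_ge {c : ℝ} (hc : 0 < c) (j k : ℕ) : c ^ j / (j.factorial : ℝ) * cf j k ≤ ph c k :=
  (M4cy_summable hc k).le_tsum j (fun i _ => M4cy_nn hc i k)

theorem M4cy_main {c : ℝ} (hc : 0 < c) {j k : ℕ} (hk : 1 ≤ k) :
    1 / (k : ℝ) * (c * k / (j + 1) ^ 2) ^ (j + 1) ≤ ph c k := by
  refine le_trans ?_ (M4cy_ge hc (j + 1) k)
  have hk0 : (0 : ℝ) < k := by exact_mod_cast hk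
  have h1 : (k : ℝ) ^ j / (j.factorial : ℝ) ≤ cf (j + 1) k := by
    unfold cf
    have h2 := Nat.pow_le_choose (α := ℝ) j (j + k)
    have e1 : j + k + 1 - j = k + 1 := by omega
    have e2 : j + 1 + k - 1 = j + k := by omega
    have e3 : (j + k).choose j = (j + k).choose k := by
      rw [← Nat.choose_symm_add]
    rw [e1] at h2
    rw [e2, ← e3]
    refine le_trans ?_ h2
    refine div_le_div_of_nonneg_right ?_ (by positivity)
    refine pow_le_pow_left₀ hk0.le ?_ _
    push_cast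
    linarith
  have h4 : c ^ (j + 1) / ((j + 1).factorial : ℝ) * ((k : ℝ) ^ j / (j.factorial : ℝ))
      ≤ c ^ (j + 1) / ((j + 1).factorial : ℝ) * cf (j + 1) k :=
    mul_le_mul_of_nonneg_left h1 (by positivity)
  refine le_trans ?_ h4
  have h5 : ((j + 1).factorial : ℝ) ≤ ((j : ℝ) + 1) ^ (j + 1) := by
    have := Nat.factorial_le_pow (j + 1)
    exact_mod_cast this
  have h6 : (j.factorial : ℝ) ≤ ((j : ℝ) + 1) ^ (j + 1) := by
    have h7 : j.factorial ≤ (j + 1).factorial := Nat.factorial_le (Nat.le_succ j)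
    have h8 : (j.factorial : ℝ) ≤ ((j + 1).factorial : ℝ) := by exact_mod_cast h7
    exact h8.trans h5
  have hj1 : (0 : ℝ) < ((j + 1).factorial : ℝ) := by exact_mod_cast Nat.factorial_pos _
  have hj0 : (0 : ℝ) < (j.factorial : ℝ) := by exact_mod_cast Nat.factorial_pos _
  have e : c ^ (j + 1) / ((j + 1).factorial : ℝ) * ((k : ℝ) ^ j / (j.factorial : ℝ))
      = 1 / (k : ℝ) * ((c * k) ^ (j + 1) / (((j + 1).factorial : ℝ) * (j.factorial : ℝ))) := by
    rw [mul_pow, pow_succ (k : ℝ) j]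
    field_simp
  rw [e, div_pow]
  refine mul_le_mul_of_nonneg_left ?_ (by positivity)
  refine div_le_div_of_nonneg_left (by positivity) (by positivity) ?_
  have e2 : (((j : ℝ) + 1) ^ 2) ^ (j + 1) = ((j : ℝ) + 1) ^ (j + 1) * ((j : ℝ) + 1) ^ (j + 1) := by
    rw [← mul_pow]
    ring
  rw [e2]
  exact mul_le_mul h5 h6 hj0.le (by positivity)

theorem M4cy_large {c : ℝ} (hc : 0 < c) {k : ℕ} (hk : 1 ≤ k) (h4 : 4 ≤ c * k) :
    c / 32 * Real.exp (-1) * Real.exp (Real.sqrt c / 4 * Real.sqrt k) ≤ ph c k := by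
  have hk0 : (0 : ℝ) < k := by exact_mod_cast hk
  have hck : 0 < c * k := by positivity
  set y := Real.sqrt (c * k) with hy
  have hy2 : 2 ≤ y := by
    rw [hy]
    refine Real.le_sqrt_of_sq_le ?_
    linarith
  have hysq : y ^ 2 = c * k := Real.sq_sqrt hck.le
  have hyc : Real.sqrt c * Real.sqrt k = y := by
    rw [hy, Real.sqrt_mul hc.le]
  -- j + 1 = ⌊y / 2⌋
  obtain ⟨j, hj⟩ : ∃ j, ⌊y / 2⌋₊ = j + 1 := by
    have : 1 ≤ ⌊y / 2⌋₊ := by
      rw [Nat.le_floor_iff (by positivity)]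
      push_cast
      linarith
    exact ⟨⌊y / 2⌋₊ - 1, by omega⟩
  have hj1 : ((j : ℝ) + 1) ≤ y / 2 := by
    have := Nat.floor_le (show 0 ≤ y / 2 by positivity)
    rw [hj] at this
    push_cast at this
    exact this
  have hj2 : y / 2 < (j : ℝ) + 1 + 1 := by
    have := Nat.lt_floor_add_one (y / 2)
    rw [hj] at this
    push_cast at this
    exact this
  have hbase : 4 ≤ c * k / ((j : ℝ) + 1) ^ 2 := by
    rw [le_div_iff₀ (by positivity), ← hysq]
    nlinarith
  have h5 : Real.exp (y / 2 - 1) ≤ (c * k / ((j : ℝ) + 1) ^ 2) ^ (j + 1) := by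
    have h6 : (4 : ℝ) ^ (j + 1) ≤ (c * k / ((j : ℝ) + 1) ^ 2) ^ (j + 1) :=
      pow_le_pow_left₀ (by norm_num) hbase _
    refine le_trans ?_ h6
    have h7 : Real.exp 1 ≤ 4 := by
      have := Real.exp_one_lt_d9
      linarith
    have h8 : Real.exp 1 ^ (j + 1) ≤ (4 : ℝ) ^ (j + 1) :=
      pow_le_pow_left₀ (Real.exp_pos _).le h7 _
    refine le_trans ?_ h8
    rw [← Real.exp_nat_mul]
    refine Real.exp_le_exp.mpr ?_
    push_cast
    linarith
  refine le_trans ?_ (M4cy_main hc (j := j) hk)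
  have h9 : 1 / (k : ℝ) * Real.exp (y / 2 - 1) ≤ 1 / (k : ℝ) * (c * k / ((j : ℝ) + 1) ^ 2) ^ (j + 1) :=
    mul_le_mul_of_nonneg_left h5 (by positivity)
  refine le_trans ?_ h9
  have e1 : Real.sqrt c / 4 * Real.sqrt k = y / 4 := by
    rw [← hyc]
    ring
  have e2 : Real.exp (y / 2 - 1) = Real.exp (-1) * (Real.exp (y / 4) * Real.exp (y / 4)) := by
    rw [← Real.exp_add, ← Real.exp_add]
    congr 1
    ring
  rw [e1, e2]
  have h10 : y ^ 2 / 32 ≤ Real.exp (y / 4) := by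
    have := Real.quadratic_le_exp_of_nonneg (show 0 ≤ y / 4 by positivity)
    nlinarith
  have hE : 0 < Real.exp (-1) := Real.exp_pos _
  have hE4 : 0 < Real.exp (y / 4) := Real.exp_pos _
  rw [one_div, ← div_eq_inv_mul, le_div_iff₀ hk0]
  calc c / 32 * Real.exp (-1) * Real.exp (y / 4) * k
      = y ^ 2 / 32 * (Real.exp (-1) * Real.exp (y / 4)) := by
        rw [hysq]
        ring
    _ ≤ Real.exp (y / 4) * (Real.exp (-1) * Real.exp (y / 4)) :=
        mul_le_mul_of_nonneg_right h10 (by positivity)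
    _ = Real.exp (-1) * (Real.exp (y / 4) * Real.exp (y / 4)) := by ring

/-- `ph c k ≥ A e^{b√k}` with `A, b > 0` depending on `c`.

Proof.  All terms of the series of `ph c k` are `≥ 0` (and it converges).  For `j ≥ 1`, `k ≥ 1`:
`ph c k ≥ c^j/j! · binom(k+j-1,j-1) ≥ c^j/j! · k^{j-1}/(j-1)! ≥ (1/k)(ck)^j/(j!)² ≥ (1/k) (ck/j²)^j`.
Take `j = ⌊√(ck)/2⌋` if this is `≥ 1`: then `ck/j² ≥ 4` and `j ≥ √(ck)/2 - 1`, so
`ph c k ≥ (1/k) 4^{√(ck)/2-1} = (1/(4k)) e^{(log 2)√(ck)}`, and `(1/k) e^{(log 2)√(ck)} ≥ A' e^{b√k}` with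
`b = (log 2)√c/2`, because `y² e^{-b y}` (`y = √k`) is bounded.  For the finitely many remaining `k`
(`ck < 4`) use `ph c k > 0`: for `k ≥ 1` the term `j = 1` gives `ph c k ≥ c · binom(k,k) = c`;
`ph c 0 ≥ 1` (`j=0`). -/
theorem M4c2 {c : ℝ} (hc : 0 < c) : ∃ A b : ℝ, 0 < A ∧ 0 < b ∧ ∀ k : ℕ,
    A * Real.exp (b * Real.sqrt k) ≤ ph c k := by
  have hE1 : Real.exp (-1) < 1 := by
    rw [Real.exp_lt_one_iff]
    norm_num
  have hE : 0 < Real.exp (-1) := Real.exp_pos _
  have hsc : 0 < Real.sqrt c := Real.sqrt_pos.mpr hc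
  refine ⟨min 1 (c / 32 * Real.exp (-1)), Real.sqrt c / 4, lt_min one_pos (by positivity),
    by positivity, ?_⟩
  intro k
  rcases Nat.eq_zero_or_pos k with hk | hk
  · subst hk
    have h1 := M4cy_ge hc 0 0
    have e : cf 0 0 = 1 := by
      unfold cf
      simp
    rw [e] at h1
    simp only [pow_zero, Nat.factorial_zero, Nat.cast_one, div_one, mul_one] at h1
    simp only [Nat.cast_zero, Real.sqrt_zero, mul_zero, Real.exp_zero, mul_one]
    exact (min_le_left _ _).trans h1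
  · have hk0 : (0 : ℝ) < k := by exact_mod_cast hk
    have hmin : min 1 (c / 32 * Real.exp (-1)) * Real.exp (Real.sqrt c / 4 * Real.sqrt k)
        ≤ c / 32 * Real.exp (-1) * Real.exp (Real.sqrt c / 4 * Real.sqrt k) :=
      mul_le_mul_of_nonneg_right (min_le_right _ _) (Real.exp_pos _).le
    refine hmin.trans ?_
    rcases le_or_gt 4 (c * k) with h4 | h4
    · exact M4cy_large hc hk h4
    · have h1 := M4cy_ge hc 1 k
      have e : cf 1 k = 1 := by
        unfold cf
        have : 1 + k - 1 = k := by omega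
        rw [this, Nat.choose_self, Nat.cast_one]
      rw [e] at h1
      simp only [pow_one, Nat.factorial_one, Nat.cast_one, div_one, mul_one] at h1
      refine le_trans ?_ h1
      have h2 : Real.sqrt c / 4 * Real.sqrt k ≤ 1 := by
        have h3 : Real.sqrt c * Real.sqrt k ≤ 2 := by
          rw [← Real.sqrt_mul hc.le]
          rw [Real.sqrt_le_left (by norm_num)]
          linarith
        linarith
      have h5 : Real.exp (Real.sqrt c / 4 * Real.sqrt k) ≤ Real.exp 1 := Real.exp_le_exp.mpr h2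
      have h6 : Real.exp (-1) * Real.exp 1 = 1 := by
        rw [← Real.exp_add]
        simp
      calc c / 32 * Real.exp (-1) * Real.exp (Real.sqrt c / 4 * Real.sqrt k)
          ≤ c / 32 * Real.exp (-1) * Real.exp 1 := mul_le_mul_of_nonneg_left h5 (by positivity)
        _ = c / 32 := by rw [mul_assoc, h6, mul_one]
        _ ≤ c := by linarith

end Pool.Agent.CRT
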