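import Pool.Agent.CRT.M3
import Pool.Agent.CRT.M4c
import Pool.Agent.CRT.PR

/-!
# [M4bx] The exponents sum c_j/lambda_j
-/

set_option autoImplicit false

namespace Pool.Agent.CRT

open Finset

theorem M4bx_rN_le {d : ℕ} (p : E d) (ζ : ℕ → E d) (z : E d) {N j : ℕ} (hj : j < N) :
    rN p ζ N z ≤ ‖lam (ζ j) z‖ := by
  induction N with
  | zero => exact absurd hj (Nat.not_lt_zero j)
  | succ N ih =>
    rw [rN]
    rcases Nat.lt_succ_iff_lt_or_eq.1 hj with h | h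
    · exact (min_le_left _ _).trans (ih h)
    · rw [h]
      exact min_le_right _ _

theorem M4bx_rN_pos {d : ℕ} {p : E d} {ζ : ℕ → E d} (h : Seq8 p ζ) {z : E d} (hz : ‖z‖ < 1)
    (N : ℕ) : 0 < rN p ζ N z := by
  induction N with
  | zero =>
    rw [rN]
    exact (F1b h.hp hz).2.2.2.1
  | succ N ih =>
    rw [rN]
    exact lt_min ih (F3b hz (h.hB N).le).2.2.2.2.2.1

theorem M4bx_sum {c : ℕ → ℝ} (hc : ∀ i, c i ≤ (1 / 2) ^ i) (S : Finset ℕ) :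
    ∑ j ∈ S, c j ≤ 2 := by
  have hs : Summable fun i : ℕ => ((1 : ℝ) / 2) ^ i := summable_geometric_two
  calc ∑ j ∈ S, c j ≤ ∑ j ∈ S, ((1 : ℝ) / 2) ^ j := Finset.sum_le_sum fun i _ => hc i
    _ ≤ ∑' j : ℕ, ((1 : ℝ) / 2) ^ j :=
        hs.sum_le_tsum S (fun i _ => by positivity)
    _ = 2 := tsum_geometric_two

/-- `U_S(z) = ∑_{j ∈ S} c_j/λ_j(z)` for a finite set `S` of indices `< N`: `Re U_S ≥ 0`, and
`|U_S(e^τz) - U_S(z)| ≤ 4|τ|/r_N(z)²` for `|τ| ≤ r_N(z)/32`; differentiability.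

Proof.  `Re(c_j/λ_j) = c_j Re λ_j/|λ_j|² ≥ 0`.  `|c_j/λ_j(z̃) - c_j/λ_j(z)| = c_j|λ_j(z̃)-λ_j(z)|/(|λ_j(z̃)||λ_j(z)|)
≤ c_j (13/10)|τ|/((4/5) r²)` (`F7b`), and `∑ c_j ≤ 2`: `2·(13/8) = 3.25 ≤ 4`. -/
theorem M4u {d : ℕ} {p : E d} {ζ : ℕ → E d} (h : Seq8 p ζ) {c : ℕ → ℝ} (hc0 : ∀ i, 0 < c i)
    (hc : ∀ i, c i ≤ (1 / 2) ^ i) {N : ℕ} {S : Finset ℕ} (hS : S ⊆ range N) {z : E d}
    (hz : ‖z‖ < 1) :
    0 ≤ (∑ j ∈ S, (c j : ℂ) / lam (ζ j) z).re ∧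
    (∀ τ : ℂ, ‖τ‖ ≤ rN p ζ N z / 32 →
      ‖(∑ j ∈ S, (c j : ℂ) / lam (ζ j) (Complex.exp τ • z)) - ∑ j ∈ S, (c j : ℂ) / lam (ζ j) z‖ ≤
        4 * ‖τ‖ / (rN p ζ N z) ^ 2) ∧
    DifferentiableOn ℂ (fun τ : ℂ => ∑ j ∈ S, (c j : ℂ) / lam (ζ j) (Complex.exp τ • z))
      (Metric.ball 0 (rN p ζ N z / 32)) := by
  have hr := M4bx_rN_pos h hz N
  obtain ⟨r, hrd⟩ : ∃ r, r = rN p ζ N z := ⟨_, rfl⟩
  rw [← hrd] at hr ⊢
  have hrl : ∀ j ∈ S, r ≤ ‖lam (ζ j) z‖ := fun j hj => by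
    rw [hrd]
    exact M4bx_rN_le p ζ z (mem_range.1 (hS hj))
  have hl0 : ∀ j, lam (ζ j) z ≠ 0 := fun j =>
    norm_pos_iff.1 (F3b hz (h.hB j).le).2.2.2.2.2.1
  have hpert : ∀ j ∈ S, ∀ τ : ℂ, ‖τ‖ ≤ r / 32 →
      ‖lam (ζ j) (Complex.exp τ • z) - lam (ζ j) z‖ ≤ 13 / 10 * ‖τ‖ ∧
      4 / 5 * r ≤ ‖lam (ζ j) (Complex.exp τ • z)‖ := by
    intro j hj τ hτ
    have h1 := hrl j hj
    have h2 := F7b hz (h.hB j).le (τ := τ) (by linarith)
    exact ⟨h2.1, by linarith [h2.2.2.1]⟩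
  refine ⟨?_, ?_, ?_⟩
  · rw [Complex.re_sum]
    refine Finset.sum_nonneg fun j _ => ?_
    rw [Complex.div_re, Complex.ofReal_re, Complex.ofReal_im, zero_mul, zero_div, add_zero]
    have h1 := (F3b hz (h.hB j).le).1
    exact div_nonneg (mul_nonneg (hc0 j).le h1.le) (Complex.normSq_nonneg _)
  · intro τ hτ
    rw [← Finset.sum_sub_distrib]
    refine (norm_sum_le _ _).trans ?_
    have h2 : ∀ j ∈ S, ‖(c j : ℂ) / lam (ζ j) (Complex.exp τ • z) - (c j : ℂ) / lam (ζ j) z‖ ≤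
        c j * (2 * ‖τ‖ / r ^ 2) := by
      intro j hj
      obtain ⟨h3, h4⟩ := hpert j hj τ hτ
      have h5 := hrl j hj
      have hA : 0 < ‖lam (ζ j) (Complex.exp τ • z)‖ := by linarith
      have hB : 0 < ‖lam (ζ j) z‖ := by linarith
      have hA0 : lam (ζ j) (Complex.exp τ • z) ≠ 0 := norm_pos_iff.1 hA
      have h6 : (c j : ℂ) / lam (ζ j) (Complex.exp τ • z) - (c j : ℂ) / lam (ζ j) z =
          -((c j : ℂ) * (lam (ζ j) (Complex.exp τ • z) - lam (ζ j) z)) /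
            (lam (ζ j) (Complex.exp τ • z) * lam (ζ j) z) := by
        rw [div_sub_div _ _ hA0 (hl0 j)]
        congr 1
        ring
      rw [h6, norm_div, norm_neg, norm_mul, norm_mul, Complex.norm_real, Real.norm_eq_abs,
        abs_of_pos (hc0 j), div_le_iff₀ (mul_pos hA hB)]
      have h7 : 4 / 5 * r ^ 2 ≤ ‖lam (ζ j) (Complex.exp τ • z)‖ * ‖lam (ζ j) z‖ := by
        calc 4 / 5 * r ^ 2 = (4 / 5 * r) * r := by ring
          _ ≤ _ := mul_le_mul h4 h5 hr.le hA.le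
      calc c j * ‖lam (ζ j) (Complex.exp τ • z) - lam (ζ j) z‖ ≤ c j * (13 / 10 * ‖τ‖) :=
            mul_le_mul_of_nonneg_left h3 (hc0 j).le
        _ ≤ c j * (2 * ‖τ‖ / r ^ 2 * (4 / 5 * r ^ 2)) := by
            refine mul_le_mul_of_nonneg_left ?_ (hc0 j).le
            have h8 : 2 * ‖τ‖ / r ^ 2 * (4 / 5 * r ^ 2) = 8 / 5 * ‖τ‖ := by
              field_simp
              ring
            rw [h8]
            have := norm_nonneg τ
            linarith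
        _ ≤ c j * (2 * ‖τ‖ / r ^ 2) *
            (‖lam (ζ j) (Complex.exp τ • z)‖ * ‖lam (ζ j) z‖) := by
            rw [← mul_assoc]
            refine mul_le_mul_of_nonneg_left h7 ?_
            have := (hc0 j).le
            positivity
    refine (Finset.sum_le_sum h2).trans ?_
    rw [← Finset.sum_mul]
    have h9 := M4bx_sum hc S
    calc (∑ j ∈ S, c j) * (2 * ‖τ‖ / r ^ 2) ≤ 2 * (2 * ‖τ‖ / r ^ 2) :=
          mul_le_mul_of_nonneg_right h9 (by positivity)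
      _ = 4 * ‖τ‖ / r ^ 2 := by ring
  · refine DifferentiableOn.fun_sum fun j hj => ?_
    refine DifferentiableOn.div (differentiableOn_const _) ?_ ?_
    · have h3 : (fun τ : ℂ => lam (ζ j) (Complex.exp τ • z)) =
          fun τ : ℂ => 1 - Complex.exp τ * br z (ζ j) := by
        funext τ
        rw [lam, br_smul]
      rw [h3]
      exact ((Complex.differentiable_exp.mul_const _).const_sub 1).differentiableOn
    · intro τ hτ
      rw [Metric.mem_ball, dist_zero_right] at hτ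
      have h4 := (hpert j hj τ hτ.le).2
      exact norm_pos_iff.1 (by linarith)

end Pool.Agent.CRT
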