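import Pool.Agent.CRT.M3
import Pool.Agent.CRT.M4c
import Pool.Agent.CRT.PR
import Pool.Agent.CRT.M4bx

/-!
# [M4by] Boundedness along a sequence
-/

set_option autoImplicit false

namespace Pool.Agent.CRT

open Finset

/-- the exponent -/
noncomputable def M4by_U {d : ℕ} (ζ : ℕ → E d) (c : ℕ → ℝ) (S : Finset ℕ) (z : E d) : ℂ :=
  ∑ j ∈ S, (c j : ℂ) / lam (ζ j) z

theorem M4by_lam_an {d : ℕ} (ζ z : E d) : AnalyticAt ℂ (fun x : E d => lam ζ x) z := by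
  unfold lam br
  exact analyticAt_const.sub ((innerSL ℂ ζ).analyticAt z)

theorem M4by_lam_zero {d : ℕ} (ζ : E d) : lam ζ 0 = 1 := by
  unfold lam br
  rw [inner_zero_right, sub_zero]

theorem M4by_an {d : ℕ} {p : E d} {ζ : ℕ → E d} (h : Seq8 p ζ) (c : ℕ → ℝ) (s N : ℕ)
    (S : Finset ℕ) :
    AnalyticOnNhd ℂ (fun z => Gf p ζ s N z * Complex.exp (-M4by_U ζ c S z)) (Metric.ball 0 1) := by
  intro z hz
  have hz1 : ‖z‖ < 1 := by simpa using hz
  refine (M2a h s N z hz).mul ?_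
  refine AnalyticAt.cexp ?_
  refine AnalyticAt.neg ?_
  unfold M4by_U
  refine Finset.analyticAt_fun_sum _ ?_
  intro j _
  refine analyticAt_const.div (M4by_lam_an _ _) ?_
  exact norm_pos_iff.mp (F3b hz1 (h.hB j).le).2.2.2.2.2.1

/-- the bounds by Lemma N -/
theorem M4by_bd {d : ℕ} (s : ℕ) : ∃ C : ℝ, 0 < C ∧ ∀ (p : E d) (ζ : ℕ → E d), Seq8 p ζ →
    ∀ c : ℕ → ℝ, (∀ i, 0 < c i) → (∀ i, c i ≤ (1 / 2) ^ i) → ∀ (N : ℕ) (S : Finset ℕ),
    S ⊆ range N → ∀ z : E d, ‖z‖ < 1 →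
    ‖Gf p ζ s N z * Complex.exp (-M4by_U ζ c S z)‖ ≤ C ∧
    ‖Nd s (fun x => Gf p ζ s N x * Complex.exp (-M4by_U ζ c S x)) z‖ ≤ C := by
  obtain ⟨C, hC, hM⟩ := M3 (d := d) s (CU := 4) (by norm_num)
  refine ⟨2 * C, by positivity, ?_⟩
  intro p ζ h c hc0 hc N S hS z hz
  obtain ⟨h1, h2, h3⟩ := M4u h hc0 hc hS hz
  have key := hM p ζ h N (M4by_U ζ c S) (fun _ => 1) z hz 1 one_pos le_rfl
    (fun τ hτ => h2 τ hτ)
    (fun τ _ _ => by
      rw [norm_one, mul_one]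
      have := Real.add_one_le_exp (1 : ℝ)
      linarith) h3 (differentiableOn_const _)
  obtain ⟨k1, k2⟩ := key
  have hexp : Real.exp (-(M4by_U ζ c S z).re) ≤ 1 := by
    rw [Real.exp_le_one_iff]
    have : 0 ≤ (M4by_U ζ c S z).re := h1
    linarith
  have e : (fun x => Gf p ζ s N x * Complex.exp (-M4by_U ζ c S x) * (1 : ℂ))
      = fun x => Gf p ζ s N x * Complex.exp (-M4by_U ζ c S x) := by
    funext x
    rw [mul_one]
  rw [e, norm_one, mul_one, div_one, one_pow] at k2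
  rw [mul_one, norm_one, mul_one] at k1
  constructor
  · refine k1.trans ?_
    nlinarith
  · refine k2.trans ?_
    nlinarith

theorem M4by_zero {d : ℕ} {p : E d} {ζ : ℕ → E d} (h : Seq8 p ζ) {c : ℕ → ℝ}
    (hc : ∀ i, c i ≤ (1 / 2) ^ i) (s N : ℕ) :
    Real.exp (-(2 * s : ℝ)) * Real.exp (-2)
      ≤ ‖Gf p ζ s N 0 * Complex.exp (-M4by_U ζ c (range N) 0)‖ := by
  rw [norm_mul, Complex.norm_exp]
  refine mul_le_mul (M2z h s N) ?_ (Real.exp_pos _).le (norm_nonneg _)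
  refine Real.exp_le_exp.mpr ?_
  have e : M4by_U ζ c (range N) 0 = ((∑ j ∈ range N, c j : ℝ) : ℂ) := by
    unfold M4by_U
    rw [Complex.ofReal_sum]
    refine Finset.sum_congr rfl fun j _ => ?_
    rw [M4by_lam_zero, div_one]
  rw [e, Complex.neg_re, Complex.ofReal_re, neg_le_neg_iff]
  calc ∑ j ∈ range N, c j ≤ ∑ j ∈ range N, (1 / 2 : ℝ) ^ j := Finset.sum_le_sum fun j _ => hc j
    _ ≤ 2 := by
      have h2 : HasSum (fun i : ℕ => (1 / 2 : ℝ) ^ i) (1 - 1 / 2)⁻¹ :=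
        hasSum_geometric_of_lt_one (by norm_num) (by norm_num)
      have h3 := sum_le_hasSum (range N) (fun i _ => by positivity) h2
      refine h3.trans ?_
      norm_num

/-- Conclusion: for `f ∈ R_DA`, `Seq8 p ζ`, `0 < c_i ≤ 2^{-i}` the numbers
`Ψ_i = ∑_k ph(c_i) k · f_k(ζ_i)` are bounded.

Proof.  `m_N = G_N e^{-U_N}`, `U_N = ∑_{j<N} c_j/λ_j`, `s = d+1`.  By `M3` (with `F = 1`, `ρ = 1`, `CU = 4`)
and `M4u`: `|m_N|, |N^{d+1}m_N| ≤ 2C`.  `m_N` is analytic on the ball (`M2a`; `λ_j ≠ 0` there), and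
`|m_N(0)| ≥ e^{-2(d+1)} e^{-∑ c_j} ≥ e^{-2(d+1)-2}` (`M2z`, `λ_j(0) = 1`).
Let `C'` be the constant of `PR`.  Fix `i` and let `F_i = exp(c_i/λ_i)`, with Taylor series `e` (`M4t`).
For `N > i`, `m_N F_i = G_N e^{-U}` with `U = ∑_{j<N, j≠i} c_j/λ_j`, so again by `M3`, `M4u`
`|m_N F_i|, |N^{d+1}(m_N F_i)| ≤ 2C =: K'`.  So `|Ψ_i| = |<e,f>_D| ≤ C' K'` by `PR`, independent of `i`. -/
theorem M4b {d : ℕ} (hd : 1 ≤ d) {p : E d} {ζ : ℕ → E d} (h : Seq8 p ζ) {c : ℕ → ℝ}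
    (hc0 : ∀ i, 0 < c i) (hc : ∀ i, c i ≤ (1 / 2) ^ i) {f : PS d} (hf : f ∈ RD d) :
    ∃ C : ℝ, ∀ i, ‖∑' k, (ph (c i) k : ℂ) * hp f k (ζ i)‖ ≤ C := by
  obtain ⟨C, hC, hM⟩ := M4by_bd (d := d) (d + 1)
  have hκ : 0 < Real.exp (-(2 * ((d + 1 : ℕ) : ℝ))) * Real.exp (-2) := by positivity
  obtain ⟨C', hC', hP⟩ := PR hd hf
    (m := fun N z => Gf p ζ (d + 1) N z * Complex.exp (-M4by_U ζ c (range N) z)) (K := C) hκ
    (fun N => M4by_an h c (d + 1) N (range N))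
    (fun N z hz => (hM p ζ h c hc0 hc N (range N) (Finset.Subset.refl _) z hz).1)
    (fun N z hz => (hM p ζ h c hc0 hc N (range N) (Finset.Subset.refl _) z hz).2)
    (fun N => M4by_zero h hc (d + 1) N)
  refine ⟨C' * C, fun i => ?_⟩
  obtain ⟨e, he, hTS, hip, -⟩ := M4t (hc0 i) (h.hB i) (RD_Sp hf)
  have key := hP _ e C hTS he ?_
  · rw [hip, RCLike.norm_conj] at key
    exact key
  · filter_upwards [Filter.eventually_gt_atTop i] with N hN z hz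
    have hfun : (fun x => Gf p ζ (d + 1) N x * Complex.exp (-M4by_U ζ c (range N) x)
        * Complex.exp ((c i : ℂ) / lam (ζ i) x))
        = fun x => Gf p ζ (d + 1) N x * Complex.exp (-M4by_U ζ c ((range N).erase i) x) := by
      funext x
      rw [mul_assoc, ← Complex.exp_add]
      congr 2
      unfold M4by_U
      rw [← Finset.add_sum_erase (range N) _ (Finset.mem_range.mpr hN)]
      ring
    have hb := hM p ζ h c hc0 hc N ((range N).erase i) (Finset.erase_subset _ _) z hz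
    constructor
    · have h5 := congrFun hfun z
      refine le_of_eq_of_le (congrArg norm h5) hb.1
    · rw [hfun]
      exact hb.2

end Pool.Agent.CRT
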