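import Pool.Agent.CRT.M4a
import Pool.Agent.CRT.M4b

/-!
# [M4] Exponential decay: `|f_k| ≤ C e^{-c√k}` on the sphere for `f ∈ R_DA`
-/

set_option autoImplicit false

namespace Pool.Agent.CRT

open Finset

/-- summability by degrees -/
theorem M4_sum {d : ℕ} {a : MI d → ℝ} (ha : ∀ α, 0 ≤ a α) {b : ℕ → ℝ} (hb : Summable b)
    (h : ∀ k, ∑ α ∈ A d k, a α ≤ b k) : Summable a := by
  classical
  have hb0 : ∀ k, 0 ≤ b k := fun k => (Finset.sum_nonneg fun α _ => ha α).trans (h k)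
  refine summable_of_sum_le ha (c := ∑' k, b k) fun u => ?_
  calc ∑ α ∈ u, a α ≤ ∑ k ∈ u.image (fun α => α.degree), ∑ α ∈ A d k, a α := by
        rw [← Finset.sum_fiberwise_of_maps_to (g := fun α : MI d => α.degree)
          (t := u.image (fun α => α.degree)) (fun α hα => Finset.mem_image_of_mem _ hα)]
        refine Finset.sum_le_sum fun k _ => Finset.sum_le_sum_of_subset_of_nonneg
          (fun α hα => mem_A.2 (Finset.mem_filter.1 hα).2) (fun _ _ _ => ha _)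
    _ ≤ ∑ k ∈ u.image (fun α => α.degree), b k := Finset.sum_le_sum fun k _ => h k
    _ ≤ ∑' k, b k := hb.sum_le_tsum _ (fun k _ => hb0 k)

/-- the power series of `Ψ_c` -/
noncomputable def M4g {d : ℕ} (c : ℝ) (f : PS d) : PS d :=
  mkP fun α => (ph c α.degree : ℂ) * MvPowerSeries.coeff α f

theorem M4_hp {d : ℕ} (c : ℝ) (f : PS d) (k : ℕ) (z : E d) :
    hp (M4g c f) k z = (ph c k : ℂ) * hp f k z := by
  unfold hp M4g
  rw [Finset.mul_sum]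
  refine Finset.sum_congr rfl fun α hα => ?_
  rw [coeff_mkP, mem_A.1 hα, mul_assoc]

theorem M4_bound {d : ℕ} {f : PS d} (hf : f ∈ Sp (wD (d := d))) :
    ∃ B : ℝ, 0 < B ∧ ∀ (k : ℕ) (z : E d), ∑ α ∈ A d k, ‖MvPowerSeries.coeff α f * mono z α‖ ≤
      B * ‖z‖ ^ k := by
  refine ⟨Real.sqrt (ns wD f) + 1, by positivity, fun k z => ?_⟩
  have h0 : ∀ j, 0 ≤ nk wD f j := fun j => nk_nonneg wD_pos f j
  have h1 : nk wD f k ≤ ns wD f := by
    rw [ns_eq_nk wD_pos hf]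
    exact ((Sp_iff_nk wD_pos f).1 hf).le_tsum k (fun j _ => h0 j)
  have h2 := A2a f k z
  have h3 : 0 ≤ ns wD f := (h0 k).trans h1
  have h4 : (∑ α ∈ A d k, ‖MvPowerSeries.coeff α f * mono z α‖) ^ 2 ≤
      (Real.sqrt (ns wD f) * ‖z‖ ^ k) ^ 2 := by
    rw [mul_pow, Real.sq_sqrt h3, ← pow_mul, mul_comm k 2]
    refine h2.trans ?_
    gcongr
  have h5 : ∑ α ∈ A d k, ‖MvPowerSeries.coeff α f * mono z α‖ ≤ Real.sqrt (ns wD f) * ‖z‖ ^ k :=
    (sq_le_sq₀ (Finset.sum_nonneg fun _ _ => norm_nonneg _) (by positivity)).1 h4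
  refine h5.trans ?_
  gcongr
  linarith

theorem M4_ph_sum {c : ℝ} (hc : 0 < c) {x : ℝ} (h0 : 0 ≤ x) (h1 : x < 1) :
    Summable fun k => ph c k * x ^ k := by
  have h2 : ‖(x : ℂ)‖ < 1 := by
    rw [Complex.norm_real, Real.norm_eq_abs, abs_of_nonneg h0]
    exact h1
  have h3 := (M4c1 hc h2).summable.norm
  refine h3.congr fun k => ?_
  rw [norm_mul, norm_pow, Complex.norm_real, Complex.norm_real, Real.norm_eq_abs, Real.norm_eq_abs,
    abs_of_nonneg h0, abs_of_nonneg (ph_nonneg hc k)]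

theorem M4_ts {d : ℕ} {c : ℝ} (hc : 0 < c) {f : PS d} (hf : f ∈ Sp (wD (d := d))) :
    IsTS (ev (M4g c f)) (M4g c f) := by
  obtain ⟨B, hB, hb⟩ := M4_bound hf
  refine P2e fun z hz => ?_
  refine M4_sum (fun α => norm_nonneg _) (b := fun k => B * (ph c k * ‖z‖ ^ k))
    ((M4_ph_sum hc (norm_nonneg z) hz).mul_left B) fun k => ?_
  have h1 : ∑ α ∈ A d k, ‖MvPowerSeries.coeff α (M4g c f) * mono z α‖ =
      ph c k * ∑ α ∈ A d k, ‖MvPowerSeries.coeff α f * mono z α‖ := by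
    rw [Finset.mul_sum]
    refine Finset.sum_congr rfl fun α hα => ?_
    unfold M4g
    rw [coeff_mkP, mem_A.1 hα, mul_assoc, norm_mul, Complex.norm_real, Real.norm_eq_abs,
      abs_of_nonneg (ph_nonneg hc k)]
  rw [h1]
  calc ph c k * ∑ α ∈ A d k, ‖MvPowerSeries.coeff α f * mono z α‖ ≤ ph c k * (B * ‖z‖ ^ k) :=
        mul_le_mul_of_nonneg_left (hb k z) (ph_nonneg hc k)
    _ = B * (ph c k * ‖z‖ ^ k) := by ring

theorem M4_ev {d : ℕ} {c : ℝ} (hc : 0 < c) {f : PS d} (hf : f ∈ Sp (wD (d := d))) {z : E d}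
    (hz : ‖z‖ < 1) : ev (M4g c f) z = ∑' k, (ph c k : ℂ) * hp f k z := by
  have h1 := (P2c (M4_ts hc hf) hz).1.tsum_eq
  rw [← h1]
  exact tsum_congr fun k => M4_hp c f k z

/-- Proof.  For `c > 0` put `Ψ_c(z) = ∑_k ph c k · f_k(z)`, an absolutely convergent series on the
ball, bounded on smaller balls: `|f_k(z)| ≤ √(nk wD f k)|z|^k ≤ √(ns wD f) |z|^k` (`A2a`, `RD_Sp`) and
`∑ ph c k |z|^k = exp(c/(1-|z|)) < ∞` (`M4c1`).
Step 1: there is `c > 0` with `Ψ_c` bounded on the ball.  Otherwise `Q i z = |Ψ_{2^{-i}}(z)|` satisfies the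
hypotheses of `M4a1`; we get `p, ζ, n` with `Seq8 p ζ`, `n_i ≥ i`, `i ≤ |Ψ_{2^{-n_i}}(ζ_i)|`.  With
`c_i = 2^{-n_i} ≤ 2^{-i}`, `M4b` says that `|Ψ_{c_i}(ζ_i)|` is bounded: contradiction.
Step 2: let `|Ψ_c| ≤ B₀` on the ball, `ζ ∈ S`.  For `|μ| < 1`, `Ψ_c(μζ) = ∑_k ph c k f_k(ζ) μ^k`, so by
Cauchy's estimate on circles `|μ| = r → 1`: `ph c k |f_k(ζ)| ≤ B₀`, and by `M4c2`
`|f_k(ζ)| ≤ (B₀/A) e^{-b√k}`. -/
theorem M4 {d : ℕ} (hd : 1 ≤ d) {f : PS d} (hf : f ∈ RD d) :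
    ∃ C c : ℝ, 0 < C ∧ 0 < c ∧ ∀ (k : ℕ) (ζ : E d), ‖ζ‖ = 1 →
      ‖hp f k ζ‖ ≤ C * Real.exp (-(c * Real.sqrt k)) := by
  have hfS := RD_Sp hf
  -- Step 1
  have hstep : ∃ c : ℝ, 0 < c ∧ ∃ B₀ : ℝ, ∀ z : E d, ‖z‖ < 1 → ‖ev (M4g c f) z‖ ≤ B₀ := by
    by_contra hcon
    push Not at hcon
    obtain ⟨B, hB, hb⟩ := M4_bound hfS
    have hpos : ∀ i : ℕ, (0 : ℝ) < (1 / 2) ^ i := fun i => by positivity
    obtain ⟨p, ζ, n, hS, hn, hi⟩ := M4a1 (Q := fun i z => ‖ev (M4g ((1 / 2) ^ i) f) z‖)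
      (fun i R => by
        obtain ⟨z, hz, hR⟩ := hcon _ (hpos i) R
        exact ⟨z, hz, hR.le⟩)
      (fun i r hr => by
        have hr0 : 0 ≤ max r 0 := le_max_right _ _
        have hr1 : max r 0 < 1 := max_lt hr one_pos
        have hs := (M4_ph_sum (hpos i) hr0 hr1).mul_left B
        refine ⟨∑' k, B * (ph ((1 / 2) ^ i) k * (max r 0) ^ k), fun z hz => ?_⟩
        have hz0 : ‖z‖ ≤ max r 0 := hz.trans (le_max_left _ _)
        have hz1 : ‖z‖ < 1 := lt_of_le_of_lt hz0 hr1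
        show ‖ev (M4g ((1 / 2) ^ i) f) z‖ ≤ _
        rw [M4_ev (hpos i) hfS hz1]
        refine tsum_of_norm_bounded hs.hasSum fun k => ?_
        rw [norm_mul, Complex.norm_real, Real.norm_eq_abs, abs_of_nonneg (ph_nonneg (hpos i) k)]
        calc ph ((1 / 2) ^ i) k * ‖hp f k z‖ ≤ ph ((1 / 2) ^ i) k * (B * (max r 0) ^ k) := by
              refine mul_le_mul_of_nonneg_left ?_ (ph_nonneg (hpos i) k)
              refine ((hp_le f k z).trans (hb k z)).trans ?_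
              gcongr
          _ = B * (ph ((1 / 2) ^ i) k * (max r 0) ^ k) := by ring)
    obtain ⟨C, hC⟩ := M4b hd hS (c := fun i => (1 / 2) ^ (n i)) (fun i => hpos (n i))
      (fun i => pow_le_pow_of_le_one (by norm_num) (by norm_num) (hn i)) hf
    obtain ⟨i, hiC⟩ := exists_nat_gt C
    have h1 := hi i
    have h2 := hC i
    have h3 := M4_ev (hpos (n i)) hfS (hS.hB i)
    have h4 : (i : ℝ) ≤ ‖ev (M4g ((1 / 2) ^ (n i)) f) (ζ i)‖ := h1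
    rw [h3] at h4
    have h5 : ‖∑' k, (ph ((1 / 2) ^ (n i)) k : ℂ) * hp f k (ζ i)‖ ≤ C := h2
    linarith
  -- Step 2
  obtain ⟨c, hc, B₀, hB₀⟩ := hstep
  obtain ⟨a, b, ha, hb, hab⟩ := M4c2 hc
  have hB0 : 0 ≤ B₀ := (norm_nonneg _).trans (hB₀ 0 (by simp))
  refine ⟨(B₀ + 1) / a, b, by positivity, hb, fun k ζ hζ => ?_⟩
  have h1 : ‖hp (M4g c f) k ζ‖ ≤ B₀ := by
    have h2 : ∀ r : ℝ, 0 < r → r < 1 → ‖hp (M4g c f) k ζ‖ * r ^ k ≤ B₀ := by
      intro r hr0 hr1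
      have h3 := P2h (M4_ts hc hfS) hr0 hr1 (C := B₀) (fun z hz => hB₀ z (by rw [hz]; exact hr1)) k hζ
      rwa [le_div_iff₀ (by positivity)] at h3
    have h4 : Filter.Tendsto (fun r : ℝ => ‖hp (M4g c f) k ζ‖ * r ^ k) (nhdsWithin 1 (Set.Iio 1))
        (nhds (‖hp (M4g c f) k ζ‖ * 1 ^ k)) := by
      have : Continuous fun r : ℝ => ‖hp (M4g c f) k ζ‖ * r ^ k := by fun_prop
      exact (this.tendsto 1).mono_left nhdsWithin_le_nhds
    rw [one_pow, mul_one] at h4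
    refine le_of_tendsto h4 ?_
    have h5 : ∀ᶠ r : ℝ in nhdsWithin 1 (Set.Iio 1), r ∈ Set.Ioo (0 : ℝ) 1 :=
      Ioo_mem_nhdsLT one_pos
    filter_upwards [h5] with r hr
    exact h2 r hr.1 hr.2
  rw [M4_hp, norm_mul, Complex.norm_real, Real.norm_eq_abs, abs_of_nonneg (ph_nonneg hc k)] at h1
  have h6 : a * Real.exp (b * Real.sqrt k) * ‖hp f k ζ‖ ≤ B₀ + 1 := by
    have := mul_le_mul_of_nonneg_right (hab k) (norm_nonneg (hp f k ζ))
    linarith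
  rw [Real.exp_neg]
  have h7 : 0 < Real.exp (b * Real.sqrt k) := Real.exp_pos _
  rw [div_mul_eq_mul_div, le_div_iff₀ ha, ← div_eq_mul_inv, le_div_iff₀ h7]
  linarith

end Pool.Agent.CRT
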