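import Pool.Agent.CRT.Defs

/-!
# [R1x] The Beta integral identities
-/

set_option autoImplicit false

namespace Pool.Agent.CRT

open Finset

theorem R1x_cf (m k : ℕ) : ((m : ℝ) + 2) * cf (m + 3) k = ((m : ℝ) + 2 + k) * cf (m + 2) k := by
  unfold cf
  have h := Nat.choose_mul_succ_eq (m + 2 + k - 1) k
  have e1 : m + 2 + k - 1 + 1 = m + 2 + k := by omega
  have e2 : m + 2 + k - k = m + 2 := by omega
  have e3 : m + 3 + k - 1 = m + 2 + k := by omega
  rw [e1, e2] at h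
  rw [e3]
  have h' : (((m + 2 + k - 1).choose k : ℕ) : ℝ) * ((m + 2 + k : ℕ) : ℝ)
      = (((m + 2 + k).choose k : ℕ) : ℝ) * ((m + 2 : ℕ) : ℝ) := by exact_mod_cast h
  push_cast at h'
  linarith

theorem R1x_deriv (m k : ℕ) (y : ℝ) : HasDerivAt (fun x : ℝ => x ^ (k + 1) * (1 - x) ^ (m + 1)
      * cf (m + 2) k)
    (((m : ℝ) + 2) * cf (m + 3) k * ((1 - y) ^ (m + 1) * y ^ k)
      - ((m : ℝ) + 1) * cf (m + 2) k * ((1 - y) ^ m * y ^ k)) y := by
  have h1 : HasDerivAt (fun x : ℝ => x ^ (k + 1)) (((k + 1 : ℕ) : ℝ) * y ^ k) y := by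
    simpa using hasDerivAt_pow (k + 1) y
  have h2 : HasDerivAt (fun x : ℝ => (1 - x) ^ (m + 1)) (((m + 1 : ℕ) : ℝ) * (1 - y) ^ m * (-1)) y := by
    have h3 : HasDerivAt (fun x : ℝ => 1 - x) (-1) y := by
      simpa using (hasDerivAt_id y).const_sub 1
    simpa using h3.fun_pow (m + 1)
  have h4 := (h1.mul h2).mul_const (cf (m + 2) k)
  refine h4.congr_deriv ?_
  rw [R1x_cf]
  push_cast
  rw [pow_succ (1 - y) m, pow_succ y k]
  ring

theorem R1x_second (m k : ℕ) (x : ℝ) :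
    ((m : ℝ) + 2) * cf (m + 3) k * (∫ y in (0:ℝ)..x, (1 - y) ^ (m + 1) * y ^ k) -
      ((m : ℝ) + 1) * cf (m + 2) k * (∫ y in (0:ℝ)..x, (1 - y) ^ m * y ^ k) =
      x ^ (k + 1) * (1 - x) ^ (m + 1) * cf (m + 2) k := by
  have hc : ∀ n : ℕ, Continuous fun y : ℝ => (1 - y) ^ n * y ^ k := fun n => by fun_prop
  have h := intervalIntegral.integral_eq_sub_of_hasDerivAt (a := (0 : ℝ)) (b := x)
    (fun y _ => R1x_deriv m k y) (by
      refine Continuous.intervalIntegrable ?_ _ _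
      fun_prop)
  rw [intervalIntegral.integral_sub, intervalIntegral.integral_const_mul,
    intervalIntegral.integral_const_mul] at h
  · rw [h]
    simp
  · exact ((hc _).const_mul _ |>.intervalIntegrable _ _)
  · exact ((hc _).const_mul _ |>.intervalIntegrable _ _)

theorem R1x_first (m k : ℕ) :
    ((m : ℝ) + 1) * cf (m + 2) k * (∫ y in (0:ℝ)..1, (1 - y) ^ m * y ^ k) = 1 := by
  induction m with
  | zero =>
    have e : (fun y : ℝ => (1 - y) ^ 0 * y ^ k) = fun y : ℝ => y ^ k := by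
      funext y
      rw [pow_zero, one_mul]
    have h1 : (∫ y in (0:ℝ)..1, (1 - y) ^ 0 * y ^ k) = 1 / ((k : ℝ) + 1) := by
      simp only [pow_zero, one_mul]
      rw [integral_pow]
      simp
    rw [h1]
    have h2 : cf (0 + 2) k = (k : ℝ) + 1 := by
      unfold cf
      have : 0 + 2 + k - 1 = k + 1 := by omega
      rw [this, Nat.choose_succ_self_right]
      push_cast
      ring
    rw [h2]
    have : (k : ℝ) + 1 ≠ 0 := by positivity
    field_simp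
    simp
  | succ m ih =>
    have h := R1x_second m k 1
    rw [ih] at h
    have e : (m : ℝ) + 2 = ((m + 1 : ℕ) : ℝ) + 1 := by
      push_cast
      ring
    rw [e] at h
    simp only [sub_self, one_pow] at h
    rw [zero_pow (Nat.succ_ne_zero m)] at h
    linarith

/-- `β_k(M,x) = (M-1) binom(M+k-1,k) ∫_0^x (1-y)^{M-2} y^k dy`, for `M ≥ 2`:
* `β_k(M,1) = 1` (Beta integral, `k!(M-2)!/(M+k-1)!`);
* `β_k(M+1,x) - β_k(M,x) = x^{k+1}(1-x)^{M-1} binom(M+k-1,k)`.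

Proof of the second: both sides vanish at `x = 0`; the derivative of the right side is
`binom(M+k-1,k) ((k+1)x^k(1-x)^{M-1} - (M-1)x^{k+1}(1-x)^{M-2})
 = binom(M+k-1,k) x^k (1-x)^{M-2} ((k+1)(1-x) - (M-1)x)`, and that of the left side is
`x^k(1-x)^{M-2} (M binom(M+k,k) (1-x) - (M-1) binom(M+k-1,k))` with `M binom(M+k,k) = (M+k) binom(M+k-1,k)`:
`(M+k)(1-x) - (M-1) = (k+1) - (M+k)x = (k+1)(1-x) - (M-1)x`.  The first follows from the second and
`β_k(2,1) = (k+1)∫_0^1 y^k dy = 1`. -/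
theorem R1b (M k : ℕ) (hM : 2 ≤ M) :
    ((M : ℝ) - 1) * cf M k * (∫ y in (0:ℝ)..1, (1 - y) ^ (M - 2) * y ^ k) = 1 ∧
    ∀ x : ℝ, (M : ℝ) * cf (M + 1) k * (∫ y in (0:ℝ)..x, (1 - y) ^ (M - 1) * y ^ k) -
      ((M : ℝ) - 1) * cf M k * (∫ y in (0:ℝ)..x, (1 - y) ^ (M - 2) * y ^ k) =
      x ^ (k + 1) * (1 - x) ^ (M - 1) * cf M k := by
  obtain ⟨m, rfl⟩ : ∃ m, M = m + 2 := ⟨M - 2, by omega⟩
  have e1 : m + 2 - 2 = m := by omega
  have e2 : m + 2 - 1 = m + 1 := by omega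
  have e3 : (((m + 2 : ℕ) : ℝ)) - 1 = (m : ℝ) + 1 := by
    push_cast
    ring
  have e4 : (((m + 2 : ℕ) : ℝ)) = (m : ℝ) + 2 := by
    push_cast
    ring
  rw [e1, e2, e3]
  refine ⟨R1x_first m k, fun x => ?_⟩
  rw [e4]
  exact R1x_second m k x

end Pool.Agent.CRT
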