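import Pool.Agent.CRT.Defs
import Pool.Agent.CRT.R1x

/-!
# [R1y] The telescoping bound
-/

set_option autoImplicit false

namespace Pool.Agent.CRT

open Finset

/-- `J(M,x) = (1-x)^M ∑_{k ≤ K} binom(M+k-1,k) x^k a_k` -/
noncomputable def JJ (a : ℕ → ℂ) (K M : ℕ) (x : ℝ) : ℂ :=
  ((1 - x : ℝ) : ℂ) ^ M * ∑ k ∈ range (K + 1), ((x ^ k * cf M k : ℝ) : ℂ) * a k

/-- the integrand -/
noncomputable def R1y_I (a : ℕ → ℂ) (K M : ℕ) (y : ℝ) : ℂ :=
  ∑ k ∈ range (K + 1), ((((M : ℝ) - 1) * cf M k * ((1 - y) ^ (M - 2) * y ^ k) : ℝ) : ℂ) * a k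

noncomputable def R1y_B (a : ℕ → ℂ) (K M : ℕ) (x : ℝ) : ℂ := ∫ y in (0:ℝ)..x, R1y_I a K M y

theorem R1y_cont (a : ℕ → ℂ) (K M : ℕ) : Continuous (R1y_I a K M) := by
  unfold R1y_I
  fun_prop

theorem R1y_Beq (a : ℕ → ℂ) (K M : ℕ) (x : ℝ) : R1y_B a K M x =
    ∑ k ∈ range (K + 1),
      ((((M : ℝ) - 1) * cf M k * (∫ y in (0:ℝ)..x, (1 - y) ^ (M - 2) * y ^ k) : ℝ) : ℂ) * a k := by
  unfold R1y_B R1y_I
  rw [intervalIntegral.integral_finsetSum]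
  · refine Finset.sum_congr rfl fun k _ => ?_
    rw [intervalIntegral.integral_mul_const, intervalIntegral.integral_ofReal,
      intervalIntegral.integral_const_mul]
  · intro k _
    apply Continuous.intervalIntegrable
    fun_prop

theorem R1y_IJ (a : ℕ → ℂ) (K : ℕ) {M : ℕ} (hM : 2 ≤ M) {y : ℝ} (hy : y < 1) :
    R1y_I a K M y = ((((M : ℝ) - 1) / (1 - y) ^ 2 : ℝ) : ℂ) * JJ a K M y := by
  unfold R1y_I JJ
  rw [Finset.mul_sum, Finset.mul_sum]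
  refine Finset.sum_congr rfl fun k _ => ?_
  obtain ⟨m, rfl⟩ : ∃ m, M = m + 2 := ⟨M - 2, by omega⟩
  have h1 : (1 - y) ≠ 0 := by linarith
  have h2 : m + 2 - 2 = m := by omega
  rw [h2, ← Complex.ofReal_pow]
  simp only [← mul_assoc]
  rw [← Complex.ofReal_mul, ← Complex.ofReal_mul]
  congr 2
  field_simp
  ring

theorem R1y_norm (a : ℕ → ℂ) (K : ℕ) {M : ℕ} (hM : 2 ≤ M) {y : ℝ} (hy : y < 1) :
    ‖R1y_I a K M y‖ = ((M : ℝ) - 1) / (1 - y) ^ 2 * ‖JJ a K M y‖ := by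
  rw [R1y_IJ a K hM hy, norm_mul, Complex.norm_real, Real.norm_eq_abs, abs_of_nonneg]
  have : (2 : ℝ) ≤ M := by exact_mod_cast hM
  have : 0 ≤ (M : ℝ) - 1 := by linarith
  positivity

theorem R1y_step (a : ℕ → ℂ) (K : ℕ) {M : ℕ} (hM : 2 ≤ M) {x : ℝ} (hx : x < 1) :
    R1y_B a K (M + 1) x - R1y_B a K M x = ((x / (1 - x) : ℝ) : ℂ) * JJ a K M x := by
  rw [R1y_Beq, R1y_Beq, ← Finset.sum_sub_distrib]
  unfold JJ
  rw [Finset.mul_sum, Finset.mul_sum]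
  refine Finset.sum_congr rfl fun k _ => ?_
  have h1 : (1 - x) ≠ 0 := by linarith
  have h3 := (R1b M k hM).2 x
  have h4 : ((M + 1 : ℕ) : ℝ) - 1 = M := by push_cast; ring
  have h5 : M + 1 - 2 = M - 1 := by omega
  rw [h4, h5, ← sub_mul, ← Complex.ofReal_sub, h3, ← Complex.ofReal_pow]
  simp only [← mul_assoc]
  rw [← Complex.ofReal_mul, ← Complex.ofReal_mul]
  congr 2
  obtain ⟨m, rfl⟩ : ∃ m, M = m + 1 := ⟨M - 1, by omega⟩
  have h2 : m + 1 - 1 = m := by omega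
  rw [h2]
  field_simp
  ring

/-- the numbers `x_M` -/
theorem R1y_x {L : ℝ} (hL : 0 < L) {M₀ M : ℕ} (hM₀L : L < M₀) (hM : M₀ ≤ M) :
    0 < 1 - L / M ∧ 1 - L / M < 1 ∧ 1 - L / M ≤ 1 - L / ((M + 1 : ℕ) : ℝ) := by
  have h0 : (0 : ℝ) < M₀ := hL.trans hM₀L
  have h1 : (M₀ : ℝ) ≤ M := by exact_mod_cast hM
  have h2 : (0 : ℝ) < M := h0.trans_le h1
  refine ⟨?_, ?_, ?_⟩
  · rw [sub_pos, div_lt_one h2]
    linarith
  · have : 0 < L / M := by positivity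
    linarith
  · have : L / ((M + 1 : ℕ) : ℝ) ≤ L / M := by
      gcongr
      linarith
    linarith

/-- the increment -/
theorem R1y_incr {L c K₀ : ℝ} (hL : 0 < L) (hc : 0 < c) (hK₀ : 0 ≤ K₀) {M₀ : ℕ} (hM₀ : 2 ≤ M₀)
    (hM₀L : L < M₀) {a : ℕ → ℂ} {K : ℕ}
    (h : ∀ (M : ℕ) (x : ℝ), 0 < x → x < 1 → M₀ ≤ M → L / (1 - x) ≤ M → (M : ℝ) ≤ L / (1 - x) + 1 →
        ‖JJ a K M x‖ ≤ K₀ * Real.exp (-(c / (1 - x)))) {M : ℕ} (hM : M₀ ≤ M) :
    ‖R1y_B a K (M + 1) (1 - L / ((M + 1 : ℕ) : ℝ)) - R1y_B a K M (1 - L / M)‖ ≤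
      (2 * (M : ℝ) + 1) / L * K₀ * Real.exp (-(c / L * M)) := by
  obtain ⟨x0, x1, x2⟩ := R1y_x hL hM₀L hM
  have hMr0 : (0 : ℝ) < M₀ := hL.trans hM₀L
  have hMr1 : (M₀ : ℝ) ≤ M := by exact_mod_cast hM
  have hMr : (0 : ℝ) < M := hMr0.trans_le hMr1
  have hcast : ((M + 1 : ℕ) : ℝ) = (M : ℝ) + 1 := by push_cast; ring
  have e1 : R1y_B a K (M + 1) (1 - L / ((M + 1 : ℕ) : ℝ)) - R1y_B a K M (1 - L / M) =
      (∫ y in (1 - L / (M : ℝ))..(1 - L / ((M + 1 : ℕ) : ℝ)), R1y_I a K (M + 1) y) +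
      (R1y_B a K (M + 1) (1 - L / M) - R1y_B a K M (1 - L / M)) := by
    have : (∫ y in (1 - L / (M : ℝ))..(1 - L / ((M + 1 : ℕ) : ℝ)), R1y_I a K (M + 1) y) =
        R1y_B a K (M + 1) (1 - L / ((M + 1 : ℕ) : ℝ)) - R1y_B a K (M + 1) (1 - L / M) := by
      unfold R1y_B
      exact (intervalIntegral.integral_interval_sub_left
        ((R1y_cont a K (M + 1)).intervalIntegrable _ _)
        ((R1y_cont a K (M + 1)).intervalIntegrable _ _)).symm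
    rw [this]
    ring
  have k1 : ‖∫ y in (1 - L / (M : ℝ))..(1 - L / ((M + 1 : ℕ) : ℝ)), R1y_I a K (M + 1) y‖ ≤
      ((M : ℝ) + 1) / L * K₀ * Real.exp (-(c / L * M)) := by
    have k2 : ∀ y ∈ Set.uIoc (1 - L / (M : ℝ)) (1 - L / ((M + 1 : ℕ) : ℝ)),
        ‖R1y_I a K (M + 1) y‖ ≤ (M : ℝ) * (((M : ℝ) + 1) / L) ^ 2 * (K₀ * Real.exp (-(c / L * M))) := by
      intro y hy
      rw [Set.uIoc_of_le x2] at hy
      obtain ⟨hy1, hy2⟩ := hy
      have hLM1 : 0 < L / ((M : ℝ) + 1) := by positivity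
      rw [hcast] at hy2
      have hy3 : L / ((M : ℝ) + 1) ≤ 1 - y := by linarith
      have hy4 : 1 - y ≤ L / M := by linarith
      have hy5 : 0 < 1 - y := lt_of_lt_of_le hLM1 hy3
      have hy6 : 1 / (1 - y) ≤ ((M : ℝ) + 1) / L := by
        rw [div_le_div_iff₀ hy5 hL, one_mul]
        rw [div_le_iff₀ (by positivity)] at hy3
        linarith
      have hy7 : (M : ℝ) / L ≤ 1 / (1 - y) := by
        rw [div_le_div_iff₀ hL hy5, one_mul]
        rw [le_div_iff₀ hMr] at hy4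
        linarith
      have hJ : ‖JJ a K (M + 1) y‖ ≤ K₀ * Real.exp (-(c / L * M)) := by
        have := h (M + 1) y (by linarith) (by linarith) (by omega) (by
          rw [hcast]
          calc L / (1 - y) = L * (1 / (1 - y)) := by ring
            _ ≤ L * (((M : ℝ) + 1) / L) := by gcongr
            _ = (M : ℝ) + 1 := by field_simp) (by
          rw [hcast]
          have : (M : ℝ) ≤ L / (1 - y) := by
            calc (M : ℝ) = L * ((M : ℝ) / L) := by field_simp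
              _ ≤ L * (1 / (1 - y)) := by gcongr
              _ = L / (1 - y) := by ring
          linarith)
        refine this.trans ?_
        have h9 : c / L * M ≤ c / (1 - y) := by
          calc c / L * M = c * ((M : ℝ) / L) := by ring
            _ ≤ c * (1 / (1 - y)) := by gcongr
            _ = c / (1 - y) := by ring
        gcongr
      rw [R1y_norm a K (by omega) (by linarith), hcast]
      have e2 : ((M : ℝ) + 1 - 1) / (1 - y) ^ 2 = (M : ℝ) * (1 / (1 - y)) ^ 2 := by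
        rw [div_pow, one_pow]
        ring
      rw [e2]
      have : 0 ≤ 1 / (1 - y) := by positivity
      gcongr
    have k3 := intervalIntegral.norm_integral_le_of_norm_le_const k2
    refine k3.trans ?_
    rw [abs_of_nonneg (by linarith), hcast]
    apply le_of_eq
    have : (M : ℝ) + 1 ≠ 0 := by positivity
    field_simp
    ring
  have k4 : ‖R1y_B a K (M + 1) (1 - L / M) - R1y_B a K M (1 - L / M)‖ ≤
      (M : ℝ) / L * K₀ * Real.exp (-(c / L * M)) := by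
    rw [R1y_step a K (by omega) x1, norm_mul, Complex.norm_real, Real.norm_eq_abs]
    have e3 : 1 - (1 - L / (M : ℝ)) = L / M := by ring
    have hJ := h M (1 - L / M) x0 x1 hM (by rw [e3]; apply le_of_eq; field_simp) (by
      rw [e3]
      have : L / (L / (M : ℝ)) = M := by field_simp
      rw [this]
      linarith)
    rw [e3] at hJ ⊢
    have e4 : c / (L / (M : ℝ)) = c / L * M := by field_simp
    rw [e4] at hJ
    have e5 : |(1 - L / (M : ℝ)) / (L / M)| ≤ M / L := by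
      rw [abs_of_nonneg (by positivity)]
      rw [div_le_iff₀ (by positivity)]
      have : (M : ℝ) / L * (L / M) = 1 := by field_simp
      linarith
    calc |(1 - L / (M : ℝ)) / (L / M)| * ‖JJ a K M (1 - L / M)‖
        ≤ (M : ℝ) / L * (K₀ * Real.exp (-(c / L * M))) := by gcongr
      _ = (M : ℝ) / L * K₀ * Real.exp (-(c / L * M)) := by ring
  rw [e1]
  refine (norm_add_le _ _).trans ((add_le_add k1 k4).trans (le_of_eq ?_))
  ring

/-- the initial value -/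
theorem R1y_init {L K₀ : ℝ} (hL : 0 < L) (hK₀ : 0 ≤ K₀) {M₀ : ℕ} (hM₀ : 2 ≤ M₀)
    (hM₀L : L < M₀) {a : ℕ → ℂ} {K : ℕ}
    (h : ∀ x : ℝ, 0 < x → x ≤ 1 - L / M₀ → ‖JJ a K M₀ x‖ ≤ K₀) :
    ‖R1y_B a K M₀ (1 - L / M₀)‖ ≤ (M₀ : ℝ) * ((M₀ : ℝ) / L) ^ 2 * K₀ := by
  obtain ⟨x0, x1, -⟩ := R1y_x hL hM₀L le_rfl
  have hMr : (0 : ℝ) < M₀ := hL.trans hM₀L
  have k2 : ∀ y ∈ Set.uIoc (0 : ℝ) (1 - L / M₀),
      ‖R1y_I a K M₀ y‖ ≤ (M₀ : ℝ) * ((M₀ : ℝ) / L) ^ 2 * K₀ := by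
    intro y hy
    rw [Set.uIoc_of_le x0.le] at hy
    obtain ⟨hy1, hy2⟩ := hy
    have hy3 : L / (M₀ : ℝ) ≤ 1 - y := by linarith
    have hy5 : 0 < 1 - y := by linarith
    have hy6 : 1 / (1 - y) ≤ (M₀ : ℝ) / L := by
      rw [div_le_div_iff₀ hy5 hL, one_mul]
      rw [div_le_iff₀ (by positivity)] at hy3
      linarith
    rw [R1y_norm a K hM₀ (by linarith)]
    have e2 : ((M₀ : ℝ) - 1) / (1 - y) ^ 2 = ((M₀ : ℝ) - 1) * (1 / (1 - y)) ^ 2 := by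
      rw [div_pow, one_pow]
      ring
    rw [e2]
    have h3 := h y hy1 hy2
    have : 0 ≤ 1 / (1 - y) := by positivity
    have h2 : (2 : ℝ) ≤ M₀ := by exact_mod_cast hM₀
    have : (M₀ : ℝ) - 1 ≤ M₀ := by linarith
    gcongr
  have k3 := intervalIntegral.norm_integral_le_of_norm_le_const k2
  unfold R1y_B
  refine k3.trans ?_
  have : |1 - L / (M₀ : ℝ) - 0| ≤ 1 := by
    rw [sub_zero, abs_of_nonneg x0.le]
    exact x1.le
  calc (M₀ : ℝ) * ((M₀ : ℝ) / L) ^ 2 * K₀ * |1 - L / (M₀ : ℝ) - 0|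
      ≤ (M₀ : ℝ) * ((M₀ : ℝ) / L) ^ 2 * K₀ * 1 := by gcongr
    _ = _ := mul_one _

/-- the weights tend to `1` -/
theorem R1y_lim {L : ℝ} (hL : 0 < L) (k : ℕ) :
    Filter.Tendsto (fun M : ℕ => ((M : ℝ) - 1) * cf M k *
      (∫ y in (0:ℝ)..(1 - L / M), (1 - y) ^ (M - 2) * y ^ k)) Filter.atTop (nhds 1) := by
  have hb : ∀ M : ℕ, 2 ≤ M → k ≤ M → 2 * L ≤ M →
      |((M : ℝ) - 1) * cf M k * (∫ y in (0:ℝ)..(1 - L / M), (1 - y) ^ (M - 2) * y ^ k) - 1| ≤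
        2 * 2 ^ k * ((M : ℝ) ^ (k + 1) * (1 / 2) ^ M) := by
    intro M hM hkM hLM
    have hMr : (0 : ℝ) < M := by positivity
    have hM2 : (2 : ℝ) ≤ M := by exact_mod_cast hM
    have hLM1 : L / M ≤ 1 / 2 := by
      rw [div_le_div_iff₀ hMr two_pos]
      linarith
    have hcont : Continuous fun y : ℝ => (1 - y) ^ (M - 2) * y ^ k := by fun_prop
    have hsplit : (∫ y in (0:ℝ)..(1 - L / M), (1 - y) ^ (M - 2) * y ^ k) =
        (∫ y in (0:ℝ)..1, (1 - y) ^ (M - 2) * y ^ k) -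
          ∫ y in (1 - L / M)..1, (1 - y) ^ (M - 2) * y ^ k := by
      rw [← intervalIntegral.integral_add_adjacent_intervals
        (hcont.intervalIntegrable 0 (1 - L / M)) (hcont.intervalIntegrable (1 - L / M) 1)]
      ring
    have h1 := (R1b M k hM).1
    have e1 : ((M : ℝ) - 1) * cf M k * (∫ y in (0:ℝ)..(1 - L / M), (1 - y) ^ (M - 2) * y ^ k) - 1 =
        -(((M : ℝ) - 1) * cf M k * ∫ y in (1 - L / M)..1, (1 - y) ^ (M - 2) * y ^ k) := by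
      rw [hsplit, mul_sub, h1]
      ring
    rw [e1, abs_neg]
    have hcf0 : 0 ≤ cf M k := by unfold cf; positivity
    have hL0 : 0 < L / M := by positivity
    have k1 : ‖∫ y in (1 - L / M)..1, (1 - y) ^ (M - 2) * y ^ k‖ ≤
        (L / M) ^ (M - 2) * |1 - (1 - L / M)| := by
      apply intervalIntegral.norm_integral_le_of_norm_le_const
      intro y hy
      rw [Set.uIoc_of_le (by linarith)] at hy
      obtain ⟨hy1, hy2⟩ := hy
      have hy3 : 0 ≤ y := by linarith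
      have hy4 : 0 ≤ 1 - y := by linarith
      rw [Real.norm_eq_abs, abs_of_nonneg (by positivity)]
      calc (1 - y) ^ (M - 2) * y ^ k ≤ (L / M) ^ (M - 2) * 1 := by
            have : y ^ k ≤ 1 := pow_le_one₀ hy3 hy2
            have : 1 - y ≤ L / M := by linarith
            gcongr
        _ = (L / M) ^ (M - 2) := mul_one _
    have e2 : |1 - (1 - L / (M : ℝ))| = L / M := by
      rw [abs_of_nonneg (by linarith)]
      ring
    rw [e2, Real.norm_eq_abs] at k1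
    have hcf : cf M k ≤ (2 * M) ^ k := by
      unfold cf
      have h3 : Nat.choose (M + k - 1) k ≤ (M + k - 1) ^ k := Nat.choose_le_pow _ _
      have h4 : (M + k - 1) ^ k ≤ (2 * M) ^ k := Nat.pow_le_pow_left (by omega) k
      exact_mod_cast h3.trans h4
    rw [abs_mul, abs_of_nonneg (by
      have : 0 ≤ (M : ℝ) - 1 := by linarith
      positivity)]
    obtain ⟨m, rfl⟩ : ∃ m, M = m + 2 := ⟨M - 2, by omega⟩
    have e3 : m + 2 - 2 = m := by omega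
    rw [e3] at k1 ⊢
    generalize hX : ((m + 2 : ℕ) : ℝ) = X at *
    have k5 : (L / X) ^ m * (L / X) ≤ (1 / 2) ^ m * (L / X) := by gcongr
    have k6 : (X - 1) * (L / X) ≤ X / 2 * 1 := by
      have a1 : (X - 1) * (L / X) = L - L / X := by field_simp
      rw [a1]
      linarith
    calc (X - 1) * cf (m + 2) k * |∫ y in (1 - L / X)..1, (1 - y) ^ m * y ^ k|
        ≤ (X - 1) * (2 * X) ^ k * ((1 / 2) ^ m * (L / X)) := by
          have : 0 ≤ X - 1 := by linarith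
          gcongr
          exact k1.trans k5
      _ = ((X - 1) * (L / X)) * ((2 * X) ^ k * (1 / 2) ^ m) := by ring
      _ ≤ (X / 2 * 1) * ((2 * X) ^ k * (1 / 2) ^ m) := by gcongr
      _ = 2 * 2 ^ k * (X ^ (k + 1) * (1 / 2) ^ (m + 2)) := by
        rw [mul_pow]
        ring
  have hlim : Filter.Tendsto (fun M : ℕ => 2 * 2 ^ k * ((M : ℝ) ^ (k + 1) * (1 / 2) ^ M))
      Filter.atTop (nhds 0) := by
    have := (tendsto_pow_const_mul_const_pow_of_abs_lt_one (k + 1) (r := (1 / 2 : ℝ))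
      (by rw [abs_of_pos (by norm_num)]; norm_num)).const_mul (2 * 2 ^ k)
    rwa [mul_zero] at this
  rw [tendsto_iff_norm_sub_tendsto_zero]
  refine squeeze_zero' (Filter.Eventually.of_forall fun M => norm_nonneg _) ?_ hlim
  filter_upwards [Filter.eventually_ge_atTop 2, Filter.eventually_ge_atTop k,
    Filter.eventually_ge_atTop ⌈2 * L⌉₊] with M h2 h3 h4
  exact hb M h2 h3 ((Nat.le_ceil _).trans (by exact_mod_cast h4))

theorem R1y_limB {L : ℝ} (hL : 0 < L) (a : ℕ → ℂ) (K : ℕ) :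
    Filter.Tendsto (fun M : ℕ => R1y_B a K M (1 - L / M)) Filter.atTop
      (nhds (∑ k ∈ range (K + 1), a k)) := by
  simp only [R1y_Beq]
  refine tendsto_finsetSum _ fun k _ => ?_
  have h1 := (Complex.continuous_ofReal.tendsto 1).comp (R1y_lim hL k)
  have h2 := h1.mul_const (a k)
  simpa using h2

/-- The bound for `∑ a_k`.

Proof.  Let `B(M,x) = ∑_{k ≤ K} β_k(M,x) a_k`.  By `R1b`:
(1) `(d/dx) B(M,x) = (M-1)(1-x)^{-2} J(M,x)`, `B(M,0) = 0`;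
(2) `B(M+1,x) - B(M,x) = x (1-x)^{-1} J(M,x)`.
Let `x_M = 1 - L/M` for `M ≥ M₀`.
* `|B(M₀,x_{M₀})| ≤ ∫_0^{x_{M₀}} (M₀-1)(1-y)^{-2} K₀ dy ≤ K₀ M₀³/L²`.
* `B(M+1,x_{M+1}) - B(M,x_M) = (B(M+1,x_{M+1}) - B(M+1,x_M)) + (B(M+1,x_M)-B(M,x_M))`.  For
  `y ∈ [x_M,x_{M+1}]`, `L/(1-y) ∈ [M,M+1]`, so `(M+1,y)` is admissible and `|J(M+1,y)| ≤ K₀e^{-cM/L}`,
  `(1-y)^{-2} ≤ (M+1)²/L²`, `x_{M+1}-x_M = L/(M(M+1))`: the first bracket is `≤ ((M+1)/L) K₀ e^{-cM/L}`.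
  `(M,x_M)` is admissible: the second is `≤ (M/L) K₀e^{-cM/L}`.
* `∑_M (2M+1)/L K₀ e^{-cM/L} < ∞`, so `|B(M,x_M)| ≤ C` for all `M ≥ M₀`.
* For fixed `k`: `0 ≤ 1 - β_k(M,x_M) = (M-1) cf M k ∫_{x_M}^1 (1-y)^{M-2}y^k dy ≤ cf M k (L/M)^{M-1} → 0`
  (`cf M k ≤ (M+k)^k`), so `B(M,x_M) → ∑_{k≤K} a_k`. -/
theorem R1 {L c K₀ : ℝ} (hL : 0 < L) (hc : 0 < c) (hK₀ : 0 ≤ K₀) {M₀ : ℕ} (hM₀ : 2 ≤ M₀)
    (hM₀L : L < M₀) : ∃ C : ℝ, ∀ (a : ℕ → ℂ) (K : ℕ),
      (∀ (M : ℕ) (x : ℝ), 0 < x → x < 1 → M₀ ≤ M → L / (1 - x) ≤ M → (M : ℝ) ≤ L / (1 - x) + 1 →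
        ‖JJ a K M x‖ ≤ K₀ * Real.exp (-(c / (1 - x)))) →
      (∀ x : ℝ, 0 < x → x ≤ 1 - L / M₀ → ‖JJ a K M₀ x‖ ≤ K₀) →
      ‖∑ k ∈ range (K + 1), a k‖ ≤ C := by
  have hS : Summable fun M : ℕ => (2 * (M : ℝ) + 1) / L * K₀ * Real.exp (-(c / L * M)) := by
    have hr : ‖Real.exp (-(c / L))‖ < 1 := by
      rw [Real.norm_eq_abs, abs_of_pos (Real.exp_pos _), Real.exp_lt_one_iff]
      have : 0 < c / L := by positivity
      linarith
    have h1 := summable_pow_mul_geometric_of_norm_lt_one 1 hr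
    have h2 := summable_pow_mul_geometric_of_norm_lt_one 0 hr
    have h3 := ((h1.mul_left (2 / L * K₀)).add (h2.mul_left (1 / L * K₀)))
    refine h3.congr fun M => ?_
    rw [← Real.exp_nat_mul]
    have : (M : ℝ) * -(c / L) = -(c / L * M) := by ring
    rw [this]
    ring
  have h0 : ∀ M : ℕ, 0 ≤ (2 * (M : ℝ) + 1) / L * K₀ * Real.exp (-(c / L * M)) := fun M => by
    positivity
  refine ⟨(M₀ : ℝ) * ((M₀ : ℝ) / L) ^ 2 * K₀ +
    ∑' M : ℕ, (2 * (M : ℝ) + 1) / L * K₀ * Real.exp (-(c / L * M)), fun a K h1 h2 => ?_⟩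
  have hind : ∀ n : ℕ, ‖R1y_B a K (M₀ + n) (1 - L / ((M₀ + n : ℕ) : ℝ))‖ ≤
      (M₀ : ℝ) * ((M₀ : ℝ) / L) ^ 2 * K₀ + ∑ M ∈ Finset.Ico M₀ (M₀ + n),
        (2 * (M : ℝ) + 1) / L * K₀ * Real.exp (-(c / L * M)) := by
    intro n
    induction n with
    | zero => simpa using R1y_init hL hK₀ hM₀ hM₀L h2
    | succ n ih =>
      have h3 := R1y_incr hL hc hK₀ hM₀ hM₀L h1 (M := M₀ + n) (by omega)
      have e1 : M₀ + (n + 1) = M₀ + n + 1 := by ring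
      rw [e1, Finset.sum_Ico_succ_top (by omega)]
      have h4 := norm_add_le (R1y_B a K (M₀ + n) (1 - L / ((M₀ + n : ℕ) : ℝ)))
        (R1y_B a K (M₀ + n + 1) (1 - L / ((M₀ + n + 1 : ℕ) : ℝ)) -
          R1y_B a K (M₀ + n) (1 - L / ((M₀ + n : ℕ) : ℝ)))
      rw [add_sub_cancel] at h4
      linarith
  have hall : ∀ n : ℕ, ‖R1y_B a K (M₀ + n) (1 - L / ((M₀ + n : ℕ) : ℝ))‖ ≤
      (M₀ : ℝ) * ((M₀ : ℝ) / L) ^ 2 * K₀ +
        ∑' M : ℕ, (2 * (M : ℝ) + 1) / L * K₀ * Real.exp (-(c / L * M)) := fun n =>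
    (hind n).trans (by
      have := hS.sum_le_tsum (Finset.Ico M₀ (M₀ + n)) (fun M _ => h0 M)
      linarith)
  refine le_of_tendsto (R1y_limB hL a K).norm ?_
  filter_upwards [Filter.eventually_ge_atTop M₀] with M hM
  obtain ⟨n, rfl⟩ := Nat.exists_eq_add_of_le hM
  exact hall n

end Pool.Agent.CRT
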