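import Pool.Agent.CRT.B4
import Pool.Agent.CRT.R1
import Pool.Agent.CRT.M4

/-!
# [B5] Theorem B: `f ∈ R_DA` is bounded on tame families
-/

set_option autoImplicit false

namespace Pool.Agent.CRT

open Finset MeasureTheory

/-- the sums `JJ` are integrals over the sphere -/
theorem B5_JJ {d : ℕ} (hd : 1 ≤ d) {σ : Measure (E d)} (hσ : IsSig σ) {h f : PS d} {K : ℕ}
    (hh : ∀ α : MI d, K < α.degree → MvPowerSeries.coeff α h = 0) {C₀ : ℝ}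
    (hf : ∀ k, ∀ z : E d, ‖z‖ = 1 → ‖hp f k z‖ ≤ C₀) {M : ℕ} (hM : 1 ≤ M) {x : ℝ} (hx0 : 0 < x)
    (hx1 : x < 1) :
    0 < Real.sqrt x ∧ Real.sqrt x < 1 ∧ Real.sqrt x ^ 2 = x ∧
    ‖JJ (ak h f) K M x‖ = (1 - x) ^ M *
      ‖∫ ζ, ev h ((Real.sqrt x : ℂ) • ζ) *
        (starRingEnd ℂ) (Ph f M ((Real.sqrt x : ℂ) • ζ)) ∂σ‖ := by
  have hr0 : 0 < Real.sqrt x := Real.sqrt_pos.2 hx0
  have hr1 : Real.sqrt x < 1 := by
    rw [Real.sqrt_lt' one_pos, one_pow]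
    exact hx1
  have hr2 : Real.sqrt x ^ 2 = x := Real.sq_sqrt hx0.le
  refine ⟨hr0, hr1, hr2, ?_⟩
  rw [S4 hd hσ hh hf hM hr0 hr1]
  have h1 : ∀ k, Real.sqrt x ^ (2 * k) = x ^ k := fun k => by rw [pow_mul, hr2]
  unfold JJ
  rw [norm_mul, norm_pow, Complex.norm_real, Real.norm_of_nonneg (by linarith)]
  simp only [h1]

/-- the bound for small `x` -/
theorem B5_small {d : ℕ} (hd : 1 ≤ d) {σ : Measure (E d)} (hσ : IsSig σ) {h f : PS d}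
    {C₀ : ℝ} (hC₀ : 0 < C₀)
    (hf : ∀ k, ∀ z : E d, ‖z‖ = 1 → ‖hp f k z‖ ≤ C₀) {M : ℕ} (hM : 1 ≤ M)
    {Cα : ℝ} (hCα : 0 ≤ Cα) (hal : ∀ z : E d, ‖z‖ < 1 → ‖ev h z‖ ≤ Real.exp (Cα / tt z))
    {δ r : ℝ} (hδ : 0 < δ) (hr0 : 0 < r) (hr1 : r < 1) (hr : δ ≤ 1 - r ^ 2) :
    (1 - r ^ 2) ^ M *
      ‖∫ ζ, ev h ((r : ℂ) • ζ) * (starRingEnd ℂ) (Ph f M ((r : ℂ) • ζ)) ∂σ‖ ≤
      Real.exp (Cα / δ) * (C₀ / (δ / 2) ^ M) := by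
  have hB : 0 ≤ Real.exp (Cα / δ) * (C₀ / (δ / 2) ^ M) := by positivity
  have h1 : ‖∫ ζ, ev h ((r : ℂ) • ζ) * (starRingEnd ℂ) (Ph f M ((r : ℂ) • ζ)) ∂σ‖ ≤
      Real.exp (Cα / δ) * (C₀ / (δ / 2) ^ M) := by
    refine S2b hσ hB ?_
    intro ζ hζ
    have hn : ‖(r : ℂ) • ζ‖ = r := by
      rw [norm_smul, Complex.norm_real, Real.norm_of_nonneg hr0.le, hζ, mul_one]
    have hn1 : ‖(r : ℂ) • ζ‖ < 1 := by rw [hn]; exact hr1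
    have htt : tt ((r : ℂ) • ζ) = 1 - r ^ 2 := by
      unfold tt
      rw [hn]
    rw [norm_mul, RCLike.norm_conj]
    refine mul_le_mul ?_ ?_ (norm_nonneg _) (Real.exp_pos _).le
    · refine (hal _ hn1).trans (Real.exp_le_exp.2 ?_)
      rw [htt]
      exact div_le_div_of_nonneg_left hCα hδ hr
    · refine ((Ph_summable hd hf hM).2.2 _ r hn.le hr1).trans ?_
      have h2 : δ / 2 ≤ 1 - r := by nlinarith
      have h3 : (δ / 2) ^ M ≤ (1 - r) ^ M := pow_le_pow_left₀ (by positivity) h2 M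
      exact div_le_div_of_nonneg_left hC₀.le (by positivity) h3
  have h2 : 0 ≤ 1 - r ^ 2 := by linarith
  have h3 : (1 - r ^ 2) ^ M ≤ 1 := pow_le_one₀ h2 (by nlinarith)
  calc (1 - r ^ 2) ^ M *
      ‖∫ ζ, ev h ((r : ℂ) • ζ) * (starRingEnd ℂ) (Ph f M ((r : ℂ) • ζ)) ∂σ‖
      ≤ 1 * (Real.exp (Cα / δ) * (C₀ / (δ / 2) ^ M)) :=
        mul_le_mul h3 h1 (norm_nonneg _) zero_le_one
    _ = _ := one_mul _

/-- Theorem B.

Proof.  `M4` gives `C₀, c`; `S1` gives `σ`; `B4` gives `t₀, C`.  Put `L = c²`, `c₁ = L/20`.  Choose `M₀ ≥ 2` with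
`L < M₀` and `L/(M₀-1) < t₀`.  Let `h ∈ H`, of degree `≤ K`, `a_k = ak h f k`.  For `0<x<1`, `r = √x`, `S4` gives
`JJ a K M x = (1-x)^M ∫_S h(rζ)conj Φ_M(rζ)dσ`.
* For admissible `(M,x)`, `M ≥ M₀`: `t = 1-x ≤ L/(M-1) < t₀`, so `|JJ| ≤ C e^{-c₁/(1-x)}` by `B4`.
* For `0 < x ≤ 1-L/M₀`: `|JJ a K M₀ x| ≤ sup_{|z|=r}|h| · sup_{|z|=r}|Φ_{M₀}| ≤ e^{|C_α|M₀/L} C₀ (1-√x)^{-M₀}`
  (`hH.al`, `Ph_summable`), bounded independently of `h` (`1-√x ≥ (1-x)/2 ≥ L/(2M₀)`).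
`R1` bounds `|∑_k a_k|`, and `∑_k a_k = <h,f>_H` (`ip_poly`). -/
theorem B5 {d : ℕ} (hd : 1 ≤ d) {f : PS d} (hf : f ∈ RD d) {H : Set (PS d)} (hH : Tame H) :
    ∃ C : ℝ, ∀ h ∈ H, ‖ip wH h f‖ ≤ C := by
  obtain ⟨C₀, c, hC₀, hc, hfk⟩ := M4 hd hf
  obtain ⟨σ, hσ⟩ := S1 hd
  obtain ⟨t₀, C, ht₀, hC, hB4⟩ := B4 hd hσ hf hC₀ hc hfk hH
  have hfk' : ∀ k, ∀ z : E d, ‖z‖ = 1 → ‖hp f k z‖ ≤ C₀ := by
    intro k z hz
    refine (hfk k z hz).trans ?_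
    have h1 : Real.exp (-(c * Real.sqrt k)) ≤ 1 := by
      rw [Real.exp_le_one_iff]
      have : 0 ≤ c * Real.sqrt k := by positivity
      linarith
    calc C₀ * Real.exp (-(c * Real.sqrt k)) ≤ C₀ * 1 := mul_le_mul_of_nonneg_left h1 hC₀.le
      _ = C₀ := mul_one _
  have hL : 0 < c ^ 2 := by positivity
  obtain ⟨M₀, hM₀⟩ := exists_nat_gt (c ^ 2 + c ^ 2 / t₀ + 2)
  have hLt : 0 < c ^ 2 / t₀ := by positivity
  have hM₀2 : 2 ≤ M₀ := by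
    have : (2 : ℝ) < (M₀ : ℝ) := by linarith
    exact_mod_cast this.le
  have hM₀L : c ^ 2 < (M₀ : ℝ) := by linarith
  have hM₀t : c ^ 2 / t₀ < (M₀ : ℝ) - 1 := by linarith
  have hM₀p : (0 : ℝ) < (M₀ : ℝ) := by linarith
  obtain ⟨Cα, hal⟩ := hH.al
  have hal' : ∀ h ∈ H, ∀ z : E d, ‖z‖ < 1 → ‖ev h z‖ ≤ Real.exp (|Cα| / tt z) := by
    intro h hh z hz
    refine (hal h hh z hz).trans (Real.exp_le_exp.2 ?_)
    have htt : 0 < tt z := by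
      unfold tt
      have := norm_nonneg z
      nlinarith
    exact div_le_div_of_nonneg_right (le_abs_self _) htt.le
  have hδ : 0 < c ^ 2 / (M₀ : ℝ) := by positivity
  obtain ⟨C', hC'⟩ := R1 (L := c ^ 2) (c := c ^ 2 / 20)
    (K₀ := max C (Real.exp (|Cα| / (c ^ 2 / M₀)) * (C₀ / (c ^ 2 / M₀ / 2) ^ M₀)))
    hL (by positivity) (le_trans hC.le (le_max_left _ _)) hM₀2 hM₀L
  refine ⟨C', ?_⟩
  intro h hh
  obtain ⟨K, hK⟩ := hH.poly h hh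
  have hip : ip wH h f = ∑ k ∈ range (K + 1), ak h f k := ip_poly wH hK f
  rw [hip]
  refine hC' (ak h f) K ?_ ?_
  · intro M x hx0 hx1 hM hM1 hM2
    have hMpos : 1 ≤ M := by omega
    obtain ⟨hr0, hr1, hr2, hJ⟩ := B5_JJ hd hσ hK hfk' hMpos hx0 hx1
    rw [hJ]
    have hx : 0 < 1 - x := by linarith
    have hMM : (M₀ : ℝ) ≤ (M : ℝ) := by exact_mod_cast hM
    have ht : 1 - Real.sqrt x ^ 2 < t₀ := by
      rw [hr2]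
      have h1 : c ^ 2 / t₀ < c ^ 2 / (1 - x) := by linarith
      by_contra hcon
      have h2 : c ^ 2 / (1 - x) ≤ c ^ 2 / t₀ :=
        div_le_div_of_nonneg_left hL.le ht₀ (not_lt.1 hcon)
      linarith
    have h1 := hB4 h hh M (Real.sqrt x) hr0 hr1 ht (by rw [hr2]; exact hM1)
      (by rw [hr2]; exact hM2)
    rw [hr2] at h1
    refine h1.trans ?_
    exact mul_le_mul_of_nonneg_right (le_max_left _ _) (Real.exp_pos _).le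
  · intro x hx0 hx
    have hx1 : x < 1 := by linarith
    have hM₀1 : 1 ≤ M₀ := by omega
    obtain ⟨hr0, hr1, hr2, hJ⟩ := B5_JJ hd hσ hK hfk' hM₀1 hx0 hx1
    rw [hJ]
    have h1 := B5_small hd hσ hC₀ hfk' hM₀1 (abs_nonneg Cα) (hal' h hh) hδ hr0 hr1
      (by rw [hr2]; linarith)
    rw [hr2] at h1
    exact h1.trans (le_max_right _ _)

end Pool.Agent.CRT
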