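import Pool.Agent.CRT.M6
import Pool.Agent.CRT.M3
import Pool.Agent.CRT.M4a
import Pool.Agent.CRT.PR

/-!
# [C2] Super-decay of the wave packets `t^M |Φ_M|` in directions `|z'|² ≥ κ² T_p(z)`
-/

set_option autoImplicit false

namespace Pool.Agent.CRT

open Finset

/-- the exponent for a sequence (the numbers needed for `C2`): for a `Seq8` sequence `ζ_i` with
`|ζ_i'|² ≥ κ²T_i`, admissible `M_i` (`L/t_i ≤ M_i ≤ L/t_i+1`, `t_i = t(ζ_i)`), `T_i ≥ Σ₀ t_i` with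
`Σ₀ = 400 κ^{-4} e^{(K+1)/L} + 1`, and `t_i ≤ L/4`:  with `A = 4 e^{2(K+1)/L}(K+1+L)`, `N > i`,
`e^{-Re U_N(z)} |λ_i(z)|^{-M_i} ≤ t_i^{-M_i} e^{-(K+1)/t_i}` for all `z` in the ball.

Proof.  Let `q = e^{(K+1)/L} > 1`.  If `|λ_i(z)| ≥ q t_i`: `Re U_N ≥ 0` (`M6a`) and
`|λ_i|^{-M_i} ≤ t_i^{-M_i} q^{-M_i} ≤ t_i^{-M_i} e^{-(K+1)/t_i}` as `M_i ≥ L/t_i`.
If `|λ_i(z)| < q t_i ≤ q T_i/Σ₀ < (κ⁴/400) T_i`: by `M6a`
`Re U_N ≥ A (1/2) Re λ_i/|λ_i|² ≥ A t_i/(4 q² t_i²) = A/(4q²t_i) = (K+1+L)/t_i`  (`Re λ_i ≥ t_i/2` by `F3b`), and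
`|λ_i| ≥ Re λ_i ≥ t_i/2` gives `|λ_i|^{-M_i} ≤ t_i^{-M_i} 2^{M_i} ≤ t_i^{-M_i} e^{(log 2)(L/t_i+1)}
≤ t_i^{-M_i} e^{L/t_i}`, because `(log 2)(L+t_i) ≤ L` for `t_i ≤ L/4` (`log 2 · 5/4 < 1`). -/
theorem C2e {d : ℕ} {p : E d} {ζ : ℕ → E d} (h : Seq8 p ζ) {κ K L : ℝ} (hκ : 0 < κ) (hκ1 : κ ≤ 1)
    (hK : 0 < K) (hL : 0 < L) (hκζ : ∀ i, κ ^ 2 * TT p (ζ i) ≤ ‖pr p (ζ i)‖ ^ 2)
    {i M N : ℕ} (hN : i < N) (hM1 : L / tt (ζ i) ≤ M) (hM2 : (M : ℝ) ≤ L / tt (ζ i) + 1)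
    (hS : (400 * (1 / κ) ^ 4 * Real.exp ((K + 1) / L) + 1) * tt (ζ i) ≤ TT p (ζ i))
    (ht : tt (ζ i) ≤ L / 4) {z : E d} (hz : ‖z‖ < 1) :
    Real.exp (-(UU (4 * Real.exp (2 * ((K + 1) / L)) * (K + 1 + L)) (1 + 50000 * (1 / κ) ^ 6)
      p ζ N z).re) * (1 / ‖lam (ζ i) z‖) ^ M ≤
      (1 / tt (ζ i)) ^ M * Real.exp (-((K + 1) / tt (ζ i))) := by
  have hzi := h.hB i
  obtain ⟨-, -, -, hT0, -, ht0, ht1⟩ := F1b (p := p) h.hp hzi
  obtain ⟨hl1, hl2, hl3, hl4, hl5, hl6, hl7⟩ := F3b (ζ := ζ i) hz hzi.le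
  set t := tt (ζ i) with htdef
  set q := Real.exp ((K + 1) / L) with hq
  have hq0 : 0 < q := Real.exp_pos _
  have hq2 : Real.exp (2 * ((K + 1) / L)) = q ^ 2 := by
    rw [hq, ← Real.exp_nat_mul]
    norm_num
  rw [hq2]
  have hA0 : 0 ≤ 4 * q ^ 2 * (K + 1 + L) := by positivity
  obtain ⟨hU0, hU1⟩ := M6a h hκ hκ1 hκζ hA0 N hz
  set U := (UU (4 * q ^ 2 * (K + 1 + L)) (1 + 50000 * (1 / κ) ^ 6) p ζ N z).re with hU
  by_cases hc : q * t ≤ ‖lam (ζ i) z‖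
  · have h1 : Real.exp (-U) ≤ 1 := by
      rw [Real.exp_le_one_iff]
      linarith
    have h2 : (1 / ‖lam (ζ i) z‖) ^ M ≤ (1 / (q * t)) ^ M := by
      apply pow_le_pow_left₀ (by positivity)
      exact one_div_le_one_div_of_le (by positivity) hc
    have h3 : (1 / (q * t)) ^ M = (1 / t) ^ M * Real.exp (-((K + 1) / L * M)) := by
      have : (1 : ℝ) / (q * t) = (1 / t) * Real.exp (-((K + 1) / L)) := by
        rw [Real.exp_neg, ← hq]
        field_simp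
      rw [this, mul_pow, ← Real.exp_nat_mul]
      congr 2
      ring
    have h4 : Real.exp (-((K + 1) / L * M)) ≤ Real.exp (-((K + 1) / t)) := by
      apply Real.exp_le_exp.2
      have h5 : (K + 1) / t = (K + 1) / L * (L / t) := by
        field_simp
      rw [h5]
      have h6 : (K + 1) / L * (L / t) ≤ (K + 1) / L * M := by
        apply mul_le_mul_of_nonneg_left hM1
        positivity
      linarith
    calc Real.exp (-U) * (1 / ‖lam (ζ i) z‖) ^ M ≤ 1 * (1 / (q * t)) ^ M := by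
          apply mul_le_mul h1 h2 (by positivity) (by norm_num)
      _ = (1 / t) ^ M * Real.exp (-((K + 1) / L * M)) := by rw [one_mul, h3]
      _ ≤ (1 / t) ^ M * Real.exp (-((K + 1) / t)) := by
          apply mul_le_mul_of_nonneg_left h4
          positivity
  · push Not at hc
    have h1 : ‖lam (ζ i) z‖ < κ ^ 4 / 400 * TT p (ζ i) := by
      have h2 : κ ^ 4 / 400 * ((400 * (1 / κ) ^ 4 * q + 1) * t) ≤ κ ^ 4 / 400 * TT p (ζ i) :=
        mul_le_mul_of_nonneg_left hS (by positivity)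
      have h3 : κ ^ 4 / 400 * ((400 * (1 / κ) ^ 4 * q + 1) * t) = q * t + κ ^ 4 / 400 * t := by
        field_simp
      have h4 : 0 < κ ^ 4 / 400 * t := by positivity
      linarith
    have h5 := hU1 i hN h1
    have h6 : (K + 1 + L) / t ≤ U := by
      refine le_trans ?_ h5
      have h7 : 1 / (2 * q ^ 2 * t) ≤ (lam (ζ i) z).re / ‖lam (ζ i) z‖ ^ 2 := by
        rw [div_le_div_iff₀ (by positivity) (by positivity)]
        have h8 : ‖lam (ζ i) z‖ ^ 2 ≤ (q * t) ^ 2 := by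
          apply pow_le_pow_left₀ hl6.le hc.le
        have h9 : t / 2 * (2 * q ^ 2 * t) ≤ (lam (ζ i) z).re * (2 * q ^ 2 * t) := by
          apply mul_le_mul_of_nonneg_right _ (by positivity)
          linarith
        nlinarith
      calc (K + 1 + L) / t = 4 * q ^ 2 * (K + 1 + L) * (1 / 2 * (1 / (2 * q ^ 2 * t))) := by
            field_simp
            norm_num
        _ ≤ _ := by
            apply mul_le_mul_of_nonneg_left _ hA0
            linarith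
    have h7 : Real.exp (-U) ≤ Real.exp (-((K + 1) / t)) * Real.exp (-(L / t)) := by
      rw [← Real.exp_add]
      apply Real.exp_le_exp.2
      have : (K + 1 + L) / t = (K + 1) / t + L / t := by ring
      linarith
    have h8 : (1 / ‖lam (ζ i) z‖) ^ M ≤ (1 / t) ^ M * Real.exp (L / t) := by
      have h9 : (1 / ‖lam (ζ i) z‖) ^ M ≤ (2 / t) ^ M := by
        apply pow_le_pow_left₀ (by positivity)
        rw [div_le_div_iff₀ hl6 ht0]
        linarith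
      have h10 : (2 / t) ^ M = (1 / t) ^ M * Real.exp (M * Real.log 2) := by
        have : (2 : ℝ) / t = (1 / t) * 2 := by ring
        rw [this, mul_pow]
        congr 1
        rw [Real.exp_nat_mul, Real.exp_log (by norm_num)]
      have h11 : (M : ℝ) * Real.log 2 ≤ L / t := by
        have hlog := Real.log_two_lt_d9
        have hlog0 : 0 < Real.log 2 := Real.log_pos (by norm_num)
        have h12 : (M : ℝ) * Real.log 2 ≤ (L / t + 1) * Real.log 2 :=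
          mul_le_mul_of_nonneg_right hM2 hlog0.le
        have h13 : 4 ≤ L / t := by
          rw [le_div_iff₀ ht0]
          linarith
        nlinarith
      calc (1 / ‖lam (ζ i) z‖) ^ M ≤ (2 / t) ^ M := h9
        _ = (1 / t) ^ M * Real.exp (M * Real.log 2) := h10
        _ ≤ (1 / t) ^ M * Real.exp (L / t) := by
            apply mul_le_mul_of_nonneg_left _ (by positivity)
            exact Real.exp_le_exp.2 h11
    calc Real.exp (-U) * (1 / ‖lam (ζ i) z‖) ^ M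
        ≤ (Real.exp (-((K + 1) / t)) * Real.exp (-(L / t))) * ((1 / t) ^ M * Real.exp (L / t)) := by
          apply mul_le_mul h7 h8 (by positivity) (by positivity)
      _ = (1 / t) ^ M * Real.exp (-((K + 1) / t)) * (Real.exp (-(L / t)) * Real.exp (L / t)) := by
          ring
      _ = (1 / t) ^ M * Real.exp (-((K + 1) / t)) := by
          rw [← Real.exp_add, neg_add_cancel, Real.exp_zero, mul_one]

/-- the test function `F = 1/λ_ζ^M`: `|F(e^τz)| ≤ e|F(z)|` for `|τ| ≤ |λ_ζ(z)|/(8M)`, `M ≥ 1`.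

Proof.  `|λ(e^τz)/λ(z) - 1| ≤ (13/10)|τ|/|λ(z)| =: x ≤ 1/(6M) ≤ 1/2` (`F7b`), so
`|F(e^τz)| ≤ |F(z)|(1-x)^{-M} ≤ |F(z)| e^{2Mx} ≤ e|F(z)|`. -/
theorem C2t {d : ℕ} {z ζ : E d} (hz : ‖z‖ < 1) (hζ : ‖ζ‖ < 1) {M : ℕ} (hM : 1 ≤ M) {τ : ℂ}
    (hτ : ‖τ‖ ≤ ‖lam ζ z‖ / (8 * M)) :
    ‖1 / lam ζ (Complex.exp τ • z) ^ M‖ ≤ Real.exp 1 * ‖1 / lam ζ z ^ M‖ := by
  obtain ⟨hl1, hl2, hl3, hl4, hl5, hl6, hl7⟩ := F3b (ζ := ζ) hz hζ.le
  have hM' : (1 : ℝ) ≤ M := by exact_mod_cast hM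
  have hM0 : (0 : ℝ) < M := by linarith
  have hτ8 : ‖τ‖ ≤ ‖lam ζ z‖ / 8 := by
    refine hτ.trans ?_
    rw [div_le_div_iff₀ (by positivity) (by norm_num)]
    nlinarith
  obtain ⟨h1, h2, h3, h4⟩ := F7b hz hζ.le hτ8
  set ℓ := ‖lam ζ z‖ with hℓ
  set ρ := ‖lam ζ (Complex.exp τ • z)‖ with hρ
  have hρ0 : 0 < ρ := by linarith
  have h5 : ℓ * (1 + -(1 / (6 * M))) ≤ ρ := by
    have h6 : ℓ - ρ ≤ ‖lam ζ (Complex.exp τ • z) - lam ζ z‖ := by
      have := norm_sub_norm_le (lam ζ z) (lam ζ (Complex.exp τ • z))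
      rw [norm_sub_rev] at this
      exact this
    have h7 : 13 / 10 * ‖τ‖ ≤ ℓ * (1 / (6 * M)) := by
      have h8 : 13 / 10 * ‖τ‖ ≤ 13 / 10 * (ℓ / (8 * M)) := by linarith
      have h9 : 13 / 10 * (ℓ / (8 * M)) = (39 / 40) * (ℓ * (1 / (6 * M))) := by
        field_simp
        norm_num
      have h10 : 0 ≤ ℓ * (1 / (6 * M)) := by positivity
      linarith
    linarith
  have h6 : 5 / 6 ≤ (1 + -(1 / (6 * (M : ℝ)))) ^ M := by
    have h7 : (-2 : ℝ) ≤ -(1 / (6 * (M : ℝ))) := by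
      have : 1 / (6 * (M : ℝ)) ≤ 2 := by
        rw [div_le_iff₀ (by positivity)]
        linarith
      linarith
    have h8 := one_add_mul_le_pow h7 M
    have h9 : (M : ℝ) * -(1 / (6 * M)) = -(1 / 6) := by
      field_simp
    rw [h9] at h8
    linarith
  have h7 : 0 ≤ 1 + -(1 / (6 * (M : ℝ))) := by
    have : 1 / (6 * (M : ℝ)) ≤ 1 := by
      rw [div_le_iff₀ (by positivity)]
      linarith
    linarith
  have h8 : ℓ ^ M * (5 / 6) ≤ ρ ^ M := by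
    calc ℓ ^ M * (5 / 6) ≤ ℓ ^ M * (1 + -(1 / (6 * (M : ℝ)))) ^ M := by
          apply mul_le_mul_of_nonneg_left h6
          positivity
      _ = (ℓ * (1 + -(1 / (6 * (M : ℝ))))) ^ M := by rw [mul_pow]
      _ ≤ ρ ^ M := by
          apply pow_le_pow_left₀ (by positivity) h5
  have h9 : (2 : ℝ) ≤ Real.exp 1 := by
    have := Real.add_one_le_exp (1 : ℝ)
    linarith
  rw [norm_div, norm_div, norm_one, norm_pow, norm_pow, ← hℓ, ← hρ]
  have hℓM : 0 < ℓ ^ M := by positivity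
  have hρM : 0 < ρ ^ M := by positivity
  rw [mul_one_div, div_le_div_iff₀ hρM hℓM]
  nlinarith

end Pool.Agent.CRT
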