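import Mathlib

/-!
# Common ranges of co-analytic Toeplitz operators: definitions

Functions on the unit ball of `ℂ^d` are given by their power series.
-/

set_option autoImplicit false

namespace Pool.Agent.CRT

open Finset

/-- `ℂ^d` with the Euclidean norm. -/
abbrev E (d : ℕ) := EuclideanSpace ℂ (Fin d)

/-- multi-indices -/
abbrev MI (d : ℕ) := Fin d →₀ ℕ

/-- power series in `d` variables -/
abbrev PS (d : ℕ) := MvPowerSeries (Fin d) ℂ

/-- `α!` -/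
noncomputable def mf {d : ℕ} (α : MI d) : ℝ := ∏ i, ((α i).factorial : ℝ)

/-- the weight `‖z^α‖²` in the Drury–Arveson space: `α! / |α|!` -/
noncomputable def wD {d : ℕ} (α : MI d) : ℝ := mf α / (α.degree.factorial : ℝ)

/-- the weight `‖z^α‖²` in the Hardy space of the sphere: `α! (d-1)! / (|α|+d-1)!` -/
noncomputable def wH {d : ℕ} (α : MI d) : ℝ :=
  mf α * ((d - 1).factorial : ℝ) / ((α.degree + d - 1).factorial : ℝ)

/-- the Hilbert space of power series with weights `w` -/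
def Sp {d : ℕ} (w : MI d → ℝ) : Set (PS d) :=
  {f | Summable fun α => ‖MvPowerSeries.coeff α f‖ ^ 2 * w α}

/-- its inner product -/
noncomputable def ip {d : ℕ} (w : MI d → ℝ) (f g : PS d) : ℂ :=
  ∑' α, MvPowerSeries.coeff α f * (starRingEnd ℂ) (MvPowerSeries.coeff α g) * (w α : ℂ)

/-- the monomial `z^α` -/
noncomputable def mono {d : ℕ} (z : E d) (α : MI d) : ℂ := ∏ i, z i ^ α i

/-- the function given by a power series -/
noncomputable def ev {d : ℕ} (f : PS d) (z : E d) : ℂ := ∑' α, MvPowerSeries.coeff α f * mono z α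

/-- multipliers of the Drury–Arveson space -/
def MultD (d : ℕ) : Set (PS d) := {m | ∀ h ∈ Sp (wD (d := d)), m * h ∈ Sp (wD (d := d))}

/-- bounded holomorphic functions on the unit ball -/
def Hinf (d : ℕ) : Set (PS d) :=
  {m | (∀ z : E d, ‖z‖ < 1 → Summable fun α => ‖MvPowerSeries.coeff α m * mono z α‖) ∧
    ∃ C : ℝ, ∀ z : E d, ‖z‖ < 1 → ‖ev m z‖ ≤ C}

/-- the range of the adjoint of the multiplication by `m` on the space with weights `w` -/
def ranAdj {d : ℕ} (w : MI d → ℝ) (m : PS d) : Set (PS d) :=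
  {f | f ∈ Sp w ∧ ∃ g ∈ Sp w, ∀ h ∈ Sp w, m * h ∈ Sp w ∧ ip w (m * h) g = ip w h f}

/-- the common range for the Drury–Arveson space -/
def RD (d : ℕ) : Set (PS d) := {f | ∀ m ∈ MultD d, m ≠ 0 → f ∈ ranAdj wD m}

/-- the common range for the Hardy space of the sphere -/
def RH (d : ℕ) : Set (PS d) := {f | ∀ m ∈ Hinf d, m ≠ 0 → f ∈ ranAdj wH m}

/-! ### auxiliary notions -/

/-- the multi-indices of degree `k` -/
noncomputable def A (d k : ℕ) : Finset (MI d) := (Finset.univ : Finset (Fin d)).finsuppAntidiag k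

theorem mem_A {d k : ℕ} {α : MI d} : α ∈ A d k ↔ α.degree = k := by
  unfold A
  rw [Finset.mem_finsuppAntidiag]
  simp [Finsupp.degree_eq_sum]

/-- the homogeneous part of degree `k` as a function -/
noncomputable def hp {d : ℕ} (f : PS d) (k : ℕ) (z : E d) : ℂ :=
  ∑ α ∈ A d k, MvPowerSeries.coeff α f * mono z α

/-- the square of the norm of the homogeneous part of degree `k` -/
noncomputable def nk {d : ℕ} (w : MI d → ℝ) (f : PS d) (k : ℕ) : ℝ :=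
  ∑ α ∈ A d k, ‖MvPowerSeries.coeff α f‖ ^ 2 * w α

/-- `⟨z, w⟩`, linear in `z` -/
noncomputable def br {d : ℕ} (z w : E d) : ℂ := inner ℂ w z

/-- `1 - |z|²` -/
noncomputable def tt {d : ℕ} (z : E d) : ℝ := 1 - ‖z‖ ^ 2

/-- `1 - ⟨z, ζ⟩` -/
noncomputable def lam {d : ℕ} (ζ z : E d) : ℂ := 1 - br z ζ

/-- `|1 - ⟨z, p⟩|` -/
noncomputable def TT {d : ℕ} (p z : E d) : ℝ := ‖lam p z‖

/-- the component of `z` orthogonal to `p` -/
noncomputable def pr {d : ℕ} (p z : E d) : E d := z - br z p • p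

/-- `(1 + ⟨z,p⟩) / (1 - ⟨z,p⟩)` -/
noncomputable def ww {d : ℕ} (p z : E d) : ℂ := (1 + br z p) / (1 - br z p)

/-- `F` is given on the unit ball by the power series `f` -/
def IsTS {d : ℕ} (F : E d → ℂ) (f : PS d) : Prop :=
  ∀ z : E d, ‖z‖ < 1 → HasSum (fun α => MvPowerSeries.coeff α f * mono z α) (F z)

/-- the `s`-th power of the radial derivative `N = ∑ z_i ∂_i`, applied to `F`, at `z` -/
noncomputable def Nd {d : ℕ} (s : ℕ) (F : E d → ℂ) (z : E d) : ℂ :=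
  iteratedDeriv s (fun τ : ℂ => F (Complex.exp τ • z)) 0

/-- `binom(M+k-1, k)` -/
noncomputable def cf (M k : ℕ) : ℝ := (Nat.choose (M + k - 1) k : ℝ)

/-- the wave packet transform: `Φ_M(z) = ∑_k binom(M+k-1,k) f_k(z) = ⟨f, (1-⟨.,z⟩)^{-M}⟩` -/
noncomputable def Ph {d : ℕ} (f : PS d) (M : ℕ) (z : E d) : ℂ := ∑' k, (cf M k : ℂ) * hp f k z

/-! ### further auxiliary notions -/

/-- polynomials -/
def IsPoly {d : ℕ} (f : PS d) : Prop :=
  ∃ K : ℕ, ∀ α : MI d, K < α.degree → MvPowerSeries.coeff α f = 0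

/-- `c_k = binom(k+d-1, d-1)`, the number of monomials of degree `k` -/
noncomputable def ck (d k : ℕ) : ℝ := (Nat.choose (k + d - 1) (d - 1) : ℝ)

/-- the power series with given coefficients -/
noncomputable def mkP {d : ℕ} (a : MI d → ℂ) : PS d := a

@[simp] theorem coeff_mkP {d : ℕ} (a : MI d → ℂ) (α : MI d) :
    MvPowerSeries.coeff α (mkP a) = a α := rfl

/-- the operator `Λ`: multiplies the homogeneous part of degree `k` by `c_k` -/
noncomputable def Lm {d : ℕ} (f : PS d) : PS d :=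
  mkP fun α => (ck d α.degree : ℂ) * MvPowerSeries.coeff α f

/-- the inverse of `Λ` -/
noncomputable def Li {d : ℕ} (f : PS d) : PS d :=
  mkP fun α => ((ck d α.degree)⁻¹ : ℂ) * MvPowerSeries.coeff α f

/-- the homogeneous part of degree `k` as a power series -/
noncomputable def pt {d : ℕ} (f : PS d) (k : ℕ) : PS d :=
  mkP fun α => if α.degree = k then MvPowerSeries.coeff α f else 0

/-- `σ` is the normalised surface measure of the unit sphere of `ℂ^d`, as a measure on `ℂ^d` -/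
structure IsSig {d : ℕ} (σ : MeasureTheory.Measure (E d)) : Prop where
  prob : MeasureTheory.IsProbabilityMeasure σ
  supp : ∀ᵐ z ∂σ, ‖z‖ = 1
  inv : ∀ U : E d ≃ₗᵢ[ℂ] E d, MeasureTheory.MeasurePreserving (fun z => U z) σ σ
  mon : ∀ α β : MI d, ∫ z, mono z α * (starRingEnd ℂ) (mono z β) ∂σ
    = if α = β then (wH α : ℂ) else 0

/-- tame families of polynomials -/
structure Tame {d : ℕ} (H : Set (PS d)) : Prop where
  poly : ∀ h ∈ H, IsPoly h
  al : ∃ C : ℝ, ∀ h ∈ H, ∀ z : E d, ‖z‖ < 1 → ‖ev h z‖ ≤ Real.exp (C / tt z)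
  be : ∀ p : E d, ‖p‖ = 1 → ∀ ε : ℝ, 0 < ε → ∃ δ : ℝ, 0 < δ ∧ ∀ h ∈ H, ∀ z : E d, ‖z‖ < 1 →
    TT p z < δ → ‖pr p z‖ ^ 2 ≤ δ * TT p z → ‖ev h z‖ ≤ Real.exp (ε / tt z)

/-- a sequence of points of the ball with `T_p(ζ_0) ≤ 1/8`, `T_p(ζ_{i+1}) ≤ T_p(ζ_i)/8` -/
structure Seq8 {d : ℕ} (p : E d) (ζ : ℕ → E d) : Prop where
  hp : ‖p‖ = 1
  hB : ∀ i, ‖ζ i‖ < 1
  h0 : TT p (ζ 0) ≤ 1 / 8
  h8 : ∀ i, TT p (ζ (i + 1)) ≤ TT p (ζ i) / 8

/-- `G_N = (1-z₁)^{6s} ∏_{i<N} (λ_i/(λ_i + T_i³))^{2s}` -/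
noncomputable def Gf {d : ℕ} (p : E d) (ζ : ℕ → E d) (s N : ℕ) (z : E d) : ℂ :=
  lam p z ^ (6 * s) *
    ∏ i ∈ Finset.range N, (lam (ζ i) z / (lam (ζ i) z + ((TT p (ζ i)) ^ 3 : ℝ))) ^ (2 * s)

/-- `r_N(z) = min(T_p(z), min_{i<N} |λ_i(z)|)` -/
noncomputable def rN {d : ℕ} (p : E d) (ζ : ℕ → E d) : ℕ → E d → ℝ
  | 0, z => TT p z
  | (N + 1), z => min (rN p ζ N z) ‖lam (ζ N) z‖

/-- the coefficients of `exp(c/(1-x)) = ∑_k ph c k x^k` -/
noncomputable def ph (c : ℝ) (k : ℕ) : ℝ := ∑' j : ℕ, c ^ j / (j.factorial : ℝ) * cf j k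

/-- `u = a² b e / λ_ζ` -/
noncomputable def uu {d : ℕ} (p ζ z : E d) : ℂ :=
  (br z (pr p ζ) / ((‖pr p ζ‖ ^ 2 : ℝ) : ℂ)) ^ 2 * (lam p ζ / lam p z) *
    (((1 - ‖br ζ p‖ ^ 2 : ℝ) : ℂ) / (1 - br z p * (starRingEnd ℂ) (br ζ p))) / lam ζ z

/-- the point `z₁ p + μ z'` -/
noncomputable def Rt {d : ℕ} (p : E d) (μ : ℂ) (z : E d) : E d := br z p • p + μ • pr p z

/-- the component of degree `j` in `z'` of `F`: `F(z₁p + μz') = ∑_j (cj F p j z) μ^j` -/
noncomputable def cj {d : ℕ} (F : E d → ℂ) (p : E d) (j : ℕ) (z : E d) : ℂ :=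
  iteratedDeriv j (fun μ : ℂ => F (Rt p μ z)) 0 / (j.factorial : ℂ)

/-- `E_y^{(j)}(z) = binom(M+j-1,j) <z',y'>^j (1-z₁ȳ₁)^{-M-j}` -/
noncomputable def Ej {d : ℕ} (p : E d) (M j : ℕ) (y z : E d) : ℂ :=
  (cf M j : ℂ) * br z (pr p y) ^ j / (1 - br z p * (starRingEnd ℂ) (br y p)) ^ (M + j)

/-- the square of the norm of `f` in the space with weights `w` -/
noncomputable def ns {d : ℕ} (w : MI d → ℝ) (f : PS d) : ℝ :=
  ∑' α, ‖MvPowerSeries.coeff α f‖ ^ 2 * w α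

end Pool.Agent.CRT
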