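import Pool.Agent.CRT.F1

/-!
# [F4x] Comparison of lambda, T and first components
-/

set_option autoImplicit false

namespace Pool.Agent.CRT

theorem F4x_conj (b : ℂ) : ‖1 - (starRingEnd ℂ) b‖ = ‖1 - b‖ := by
  have h : (1 : ℂ) - (starRingEnd ℂ) b = (starRingEnd ℂ) (1 - b) := by
    rw [map_sub, map_one]
  rw [h, Complex.norm_conj]

/-- `T(z) ≤ 2|λ_ζ(z)| + 6 T(ζ)`.

Proof.  `1-<z,p> = (1-<z,ζ>) + <z, ζ-p>`, and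
`<z,ζ-p> = z₁ conj(ζ₁-1) + <z',ζ'>` (`br_split` for the vector `ζ-p`, whose first component is
`ζ₁-1` and whose orthogonal part is `ζ'`).  `|z₁ conj(ζ₁-1)| ≤ T(ζ)`,
`|<z',ζ'>| ≤ |z'||ζ'| ≤ √(2T(z)) √(2T(ζ)) = 2√(T(z)T(ζ)) ≤ T(z)/2 + 2T(ζ)`.
So `T(z) ≤ |λ| + T(ζ) + T(z)/2 + 2T(ζ)`, i.e. `T(z) ≤ 2|λ| + 6T(ζ)`. -/
theorem F4a {d : ℕ} {p z ζ : E d} (hp : ‖p‖ = 1) (hz : ‖z‖ < 1) (hζ : ‖ζ‖ < 1) :
    TT p z ≤ 2 * ‖lam ζ z‖ + 6 * TT p ζ := by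
  obtain ⟨ha, -⟩ := F1b hp hz
  have hz2 := (F1c hp hz).1
  have hζ2 := (F1c hp hζ).1
  have hc : ‖br z (pr p ζ)‖ ≤ ‖pr p z‖ * ‖pr p ζ‖ := by
    rw [br_pr hp]
    exact br_le _ _
  have hT : TT p z = ‖1 - br z p‖ := rfl
  have hT' : TT p ζ = ‖1 - br ζ p‖ := rfl
  have e : 1 - br z p = lam ζ z + -(br z p * (1 - (starRingEnd ℂ) (br ζ p))) + br z (pr p ζ) := by
    unfold lam
    rw [br_split hp z ζ]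
    ring
  have h1 : ‖-(br z p * (1 - (starRingEnd ℂ) (br ζ p)))‖ ≤ TT p ζ := by
    rw [norm_neg, norm_mul, F4x_conj, ← hT']
    have h2 : 0 ≤ TT p ζ := norm_nonneg _
    nlinarith [norm_nonneg (br z p)]
  have h3 : TT p z ≤ ‖lam ζ z‖ + TT p ζ + ‖pr p z‖ * ‖pr p ζ‖ := by
    rw [hT, e]
    refine (norm_add_le _ _).trans (add_le_add ((norm_add_le _ _).trans ?_) hc)
    exact add_le_add le_rfl h1
  have h4 : ‖pr p z‖ * ‖pr p ζ‖ ≤ ‖pr p z‖ ^ 2 / 4 + ‖pr p ζ‖ ^ 2 := by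
    nlinarith [sq_nonneg (‖pr p z‖ / 2 - ‖pr p ζ‖)]
  linarith

/-- the same with the roles exchanged (`lam_symm`) -/
theorem F4b {d : ℕ} {p z ζ : E d} (hp : ‖p‖ = 1) (hz : ‖z‖ < 1) (hζ : ‖ζ‖ < 1) :
    TT p ζ ≤ 2 * ‖lam ζ z‖ + 6 * TT p z := by
  rw [lam_symm z ζ]
  exact F4a hp hζ hz

/-- `|z₁-ζ₁| ≤ 2(3|λ| + 2√(Re λ · T(ζ)))` if `T(ζ) ≤ 1/2`.

Proof.  `λ = 1 - z₁ conj ζ₁ - <z',ζ'>` and `<z',ζ'> = |ζ'|² + <z'-ζ',ζ'>`,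
`1 = |ζ₁|² + |ζ'|² + t(ζ)`.  So
`λ = |ζ₁|² - z₁ conj ζ₁ + t(ζ) - <z'-ζ',ζ'> = (ζ₁-z₁) conj ζ₁ + t(ζ) - <z'-ζ',ζ'>`, hence
`|ζ₁| |z₁-ζ₁| ≤ |λ| + t(ζ) + |z'-ζ'||ζ'|`.  Here `t(ζ) ≤ 2 Re λ ≤ 2|λ|`,
`|z'-ζ'| ≤ |z-ζ| ≤ √(2 Re λ)` and `|ζ'| ≤ √(2T(ζ))`, so `|z'-ζ'||ζ'| ≤ 2√(Re λ · T(ζ))`.
Finally `|ζ₁| ≥ 1 - T(ζ) ≥ 1/2`. -/
theorem F5 {d : ℕ} {p z ζ : E d} (hp : ‖p‖ = 1) (hz : ‖z‖ < 1) (hζ : ‖ζ‖ < 1)
    (hT : TT p ζ ≤ 1 / 2) :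
    ‖br z p - br ζ p‖ ≤ 2 * (3 * ‖lam ζ z‖ + 2 * Real.sqrt ((lam ζ z).re * TT p ζ)) := by
  obtain ⟨hl1, -, hl3, hl4, hl5, -, -⟩ := F3b hz hζ.le
  have hζ2 := (F1c hp hζ).1
  have hT' : TT p ζ = ‖1 - br ζ p‖ := rfl
  have e0 : br ζ ζ = ((‖ζ‖ ^ 2 : ℝ) : ℂ) := by
    have h : br ζ ζ = inner ℂ ζ ζ := rfl
    rw [h, inner_self_eq_norm_sq_to_K]
    push_cast
    rfl
  have e1 : br (z - ζ) ζ = br z ζ - br ζ ζ := inner_sub_right _ _ _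
  have e1' : br (z - ζ) p = br z p - br ζ p := inner_sub_right _ _ _
  have e2 := br_split hp (z - ζ) ζ
  have e3 : (br z p - br ζ p) * (starRingEnd ℂ) (br ζ p) =
      ((tt ζ : ℝ) : ℂ) - lam ζ z - br (z - ζ) (pr p ζ) := by
    rw [e1, e0, e1'] at e2
    unfold lam tt
    push_cast
    push_cast at e2
    linear_combination -e2
  have h1 : ‖br z p - br ζ p‖ * ‖br ζ p‖ ≤ tt ζ + ‖lam ζ z‖ + ‖z - ζ‖ * ‖pr p ζ‖ := by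
    have h2 : ‖(br z p - br ζ p) * (starRingEnd ℂ) (br ζ p)‖ =
        ‖br z p - br ζ p‖ * ‖br ζ p‖ := by
      rw [norm_mul, Complex.norm_conj]
    rw [← h2, e3]
    have h3 : ‖((tt ζ : ℝ) : ℂ)‖ = tt ζ := by
      rw [Complex.norm_real, Real.norm_eq_abs, abs_of_pos (F1b hp hζ).2.2.2.2.2.1]
    refine (norm_sub_le _ _).trans (add_le_add ((norm_sub_le _ _).trans ?_) (br_le _ _))
    rw [h3]
  have h2 : ‖z - ζ‖ * ‖pr p ζ‖ ≤ 2 * Real.sqrt ((lam ζ z).re * TT p ζ) := by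
    have h3 : ‖z - ζ‖ * ‖pr p ζ‖ = Real.sqrt ((‖z - ζ‖ * ‖pr p ζ‖) ^ 2) :=
      (Real.sqrt_sq (by positivity)).symm
    have h4 : 2 * Real.sqrt ((lam ζ z).re * TT p ζ) =
        Real.sqrt (4 * ((lam ζ z).re * TT p ζ)) := by
      rw [show (4 : ℝ) = 2 ^ 2 by norm_num,
        Real.sqrt_mul (by norm_num : (0 : ℝ) ≤ 2 ^ 2) ((lam ζ z).re * TT p ζ),
        Real.sqrt_sq (by norm_num : (0 : ℝ) ≤ 2)]
    rw [h3, h4]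
    apply Real.sqrt_le_sqrt
    rw [mul_pow]
    have h5 : ‖z - ζ‖ ^ 2 * ‖pr p ζ‖ ^ 2 ≤ (2 * (lam ζ z).re) * (2 * TT p ζ) :=
      mul_le_mul hl4 hζ2 (sq_nonneg _) (by linarith)
    linarith
  have h3 : 1 / 2 ≤ ‖br ζ p‖ := by
    have h4 : (1 : ℝ) ≤ ‖1 - br ζ p‖ + ‖br ζ p‖ := by
      have h5 := norm_add_le (1 - br ζ p) (br ζ p)
      rwa [sub_add_cancel, norm_one] at h5
    rw [← hT'] at h4
    linarith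
  have h4 : ‖br z p - br ζ p‖ * (1 / 2) ≤ ‖br z p - br ζ p‖ * ‖br ζ p‖ :=
    mul_le_mul_of_nonneg_left h3 (norm_nonneg _)
  linarith

/-- `|1 - z₁ conj ζ₁|² = (1-|z₁|²)(1-|ζ₁|²) + |z₁-ζ₁|²` -/
theorem F6a (a b : ℂ) : ‖1 - a * (starRingEnd ℂ) b‖ ^ 2
    = (1 - ‖a‖ ^ 2) * (1 - ‖b‖ ^ 2) + ‖a - b‖ ^ 2 := by
  rw [Complex.sq_norm, Complex.sq_norm, Complex.sq_norm, Complex.sq_norm, Complex.normSq_apply,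
    Complex.normSq_apply, Complex.normSq_apply, Complex.normSq_apply]
  simp only [Complex.sub_re, Complex.sub_im, Complex.mul_re, Complex.mul_im, Complex.one_re,
    Complex.one_im, Complex.conj_re, Complex.conj_im]
  ring

/-- `|λ_ζ(z)| ≤ 2|1 - z₁ conj ζ₁|`: `|<z',ζ'>| ≤ |z'||ζ'| ≤ √((1-|z₁|²)(1-|ζ₁|²))
≤ |1 - z₁ conj ζ₁|` by `F6a`.  Also `(1-|ζ₁|²)/2 ≤ 1-|ζ₁| ≤ |1 - z₁ conj ζ₁|`,
`T(z) ≤ |1-z₁ conj ζ₁| + T(ζ)` (as `1-z₁ = (1-z₁ conj ζ₁) - z₁(1-conj ζ₁)`) and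
`T(ζ) ≤ |1-z₁ conj ζ₁| + T(z)`. -/
theorem F6b {d : ℕ} {p z ζ : E d} (hp : ‖p‖ = 1) (hz : ‖z‖ < 1) (hζ : ‖ζ‖ < 1) :
    ‖br z (pr p ζ)‖ ≤ ‖1 - br z p * (starRingEnd ℂ) (br ζ p)‖ ∧
    ‖lam ζ z‖ ≤ 2 * ‖1 - br z p * (starRingEnd ℂ) (br ζ p)‖ ∧
    (1 - ‖br ζ p‖ ^ 2) / 2 ≤ ‖1 - br z p * (starRingEnd ℂ) (br ζ p)‖ ∧
    TT p z ≤ ‖1 - br z p * (starRingEnd ℂ) (br ζ p)‖ + TT p ζ ∧
    TT p ζ ≤ ‖1 - br z p * (starRingEnd ℂ) (br ζ p)‖ + TT p z := by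
  obtain ⟨ha, ha2, -, -, -, ha3, -⟩ := F1b hp hz
  obtain ⟨hb, hb2, -, -, -, hb3, -⟩ := F1b hp hζ
  have hT : TT p z = ‖1 - br z p‖ := rfl
  have hT' : TT p ζ = ‖1 - br ζ p‖ := rfl
  have hm := F6a (br z p) (br ζ p)
  set m := ‖1 - br z p * (starRingEnd ℂ) (br ζ p)‖ with hmdef
  have hm0 : 0 ≤ m := norm_nonneg _
  have hc : ‖br z (pr p ζ)‖ ≤ ‖pr p z‖ * ‖pr p ζ‖ := by
    rw [br_pr hp]
    exact br_le _ _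
  have hcm : ‖br z (pr p ζ)‖ ≤ m := by
    refine hc.trans ?_
    have h1 : (‖pr p z‖ * ‖pr p ζ‖) ^ 2 ≤ m ^ 2 := by
      rw [hm, mul_pow]
      have h2 : ‖pr p z‖ ^ 2 * ‖pr p ζ‖ ^ 2 ≤ (1 - ‖br z p‖ ^ 2) * (1 - ‖br ζ p‖ ^ 2) :=
        mul_le_mul (by linarith) (by linarith) (sq_nonneg _) (by nlinarith [sq_nonneg ‖pr p z‖])
      nlinarith [sq_nonneg ‖br z p - br ζ p‖]
    exact (sq_le_sq₀ (by positivity) hm0).1 h1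
  refine ⟨hcm, ?_, ?_, ?_, ?_⟩
  · have e : lam ζ z = (1 - br z p * (starRingEnd ℂ) (br ζ p)) - br z (pr p ζ) := by
      unfold lam
      rw [br_split hp z ζ]
      ring
    rw [e]
    refine (norm_sub_le _ _).trans ?_
    linarith
  · have h1 : 1 - ‖br z p‖ * ‖br ζ p‖ ≤ m := by
      have h2 := norm_sub_norm_le (1 : ℂ) (br z p * (starRingEnd ℂ) (br ζ p))
      rwa [norm_one, norm_mul, Complex.norm_conj] at h2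
    nlinarith [norm_nonneg (br z p), norm_nonneg (br ζ p)]
  · have e : 1 - br z p = (1 - br z p * (starRingEnd ℂ) (br ζ p)) -
        br z p * (1 - (starRingEnd ℂ) (br ζ p)) := by ring
    rw [hT, e]
    refine (norm_sub_le _ _).trans (add_le_add le_rfl ?_)
    rw [norm_mul, F4x_conj, ← hT']
    have h2 : 0 ≤ TT p ζ := norm_nonneg _
    nlinarith [norm_nonneg (br z p)]
  · have e : 1 - (starRingEnd ℂ) (br ζ p) = (1 - br z p * (starRingEnd ℂ) (br ζ p)) -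
        (starRingEnd ℂ) (br ζ p) * (1 - br z p) := by ring
    rw [hT', ← F4x_conj, e]
    refine (norm_sub_le _ _).trans (add_le_add le_rfl ?_)
    rw [norm_mul, Complex.norm_conj, ← hT]
    have h2 : 0 ≤ TT p z := norm_nonneg _
    nlinarith [norm_nonneg (br ζ p)]

end Pool.Agent.CRT
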