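import Pool.Agent.CRT.F1
import Pool.Agent.CRT.F4x

/-!
# [F4y] Perturbation along the radial flow
-/

set_option autoImplicit false

namespace Pool.Agent.CRT

/-- `|e^τ-1| ≤ (13/10)|τ|` for `|τ| ≤ 1/4` -/
theorem F7a {τ : ℂ} (hτ : ‖τ‖ ≤ 1 / 4) : ‖Complex.exp τ - 1‖ ≤ 13 / 10 * ‖τ‖ ∧
    ‖Complex.exp τ‖ ≤ 13 / 10 := by
  constructor
  · have h1 := Complex.norm_exp_sub_one_sub_id_le (x := τ) (by linarith)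
    have h2 : Complex.exp τ - 1 = (Complex.exp τ - 1 - τ) + τ := by ring
    rw [h2]
    refine (norm_add_le _ _).trans ?_
    nlinarith [norm_nonneg τ]
  · rw [Complex.norm_exp]
    have h1 : τ.re ≤ 1 / 4 := (Complex.re_le_norm τ).trans hτ
    have h2 : Real.exp (1 / 4) ≤ 13 / 10 := by
      have h3 : Real.exp (1 / 4) ^ 4 ≤ (13 / 10 : ℝ) ^ 4 := by
        rw [← Real.exp_nat_mul]
        have h4 : ((4 : ℕ) : ℝ) * (1 / 4) = 1 := by norm_num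
        rw [h4]
        have h5 := Real.exp_one_lt_d9
        norm_num at h5 ⊢
        linarith
      exact le_of_pow_le_pow_left₀ (by norm_num) (by norm_num) h3
    exact (Real.exp_le_exp.2 h1).trans h2

/-- perturbation: if `|τ| ≤ |λ_ζ(z)|/8` then `|λ_ζ(e^τ z) - λ_ζ(z)| ≤ (13/10)|τ| ≤ |λ_ζ(z)|/5`.

Proof.  `λ_ζ(e^τz) - λ_ζ(z) = (1-e^τ)<z,ζ>`, `|<z,ζ>| ≤ 1`, `|τ| ≤ 2/8`, `F7a`,
`13/80 ≤ 1/5`.  -/
theorem F7b {d : ℕ} {z ζ : E d} (hz : ‖z‖ < 1) (hζ : ‖ζ‖ ≤ 1) {τ : ℂ}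
    (hτ : ‖τ‖ ≤ ‖lam ζ z‖ / 8) :
    ‖lam ζ (Complex.exp τ • z) - lam ζ z‖ ≤ 13 / 10 * ‖τ‖ ∧
    ‖lam ζ (Complex.exp τ • z) - lam ζ z‖ ≤ ‖lam ζ z‖ / 5 ∧
    4 / 5 * ‖lam ζ z‖ ≤ ‖lam ζ (Complex.exp τ • z)‖ ∧
    ‖lam ζ (Complex.exp τ • z)‖ ≤ 6 / 5 * ‖lam ζ z‖ := by
  obtain ⟨-, -, -, -, -, hl0, hl2⟩ := F3b hz hζ
  have e : lam ζ (Complex.exp τ • z) - lam ζ z = -((Complex.exp τ - 1) * br z ζ) := by
    unfold lam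
    rw [br_smul]
    ring
  have h1 : ‖br z ζ‖ ≤ 1 := by
    refine (br_le z ζ).trans ?_
    nlinarith [norm_nonneg z, norm_nonneg ζ]
  have h2 := (F7a (τ := τ) (by linarith)).1
  have h3 : ‖lam ζ (Complex.exp τ • z) - lam ζ z‖ ≤ 13 / 10 * ‖τ‖ := by
    rw [e, norm_neg, norm_mul]
    have h4 : ‖Complex.exp τ - 1‖ * ‖br z ζ‖ ≤ ‖Complex.exp τ - 1‖ * 1 :=
      mul_le_mul_of_nonneg_left h1 (norm_nonneg _)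
    linarith
  have h4 : ‖lam ζ (Complex.exp τ • z) - lam ζ z‖ ≤ ‖lam ζ z‖ / 5 := by linarith
  refine ⟨h3, h4, ?_, ?_⟩
  · have h5 := norm_sub_norm_le (lam ζ z) (lam ζ (Complex.exp τ • z))
    rw [norm_sub_rev] at h5
    linarith
  · have h5 := norm_sub_norm_le (lam ζ (Complex.exp τ • z)) (lam ζ z)
    linarith

/-- for a real `a ≥ 0` and `|τ| ≤ |λ_ζ(z)|/8`:
`|λ_ζ(e^τz) + a| ≥ (4/5) |λ_ζ(z)|` and `|λ_ζ(e^τz) + a| ≥ (4/5) a`.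

Proof.  `Re λ_ζ(z) > 0`, so `|λ_ζ(z)+a| ≥ max(|λ_ζ(z)|, a)`; and
`|λ_ζ(e^τz)+a| ≥ |λ_ζ(z)+a| - |λ_ζ(z)|/5 ≥ (4/5)|λ_ζ(z)+a|`. -/
theorem F7c {d : ℕ} {z ζ : E d} (hz : ‖z‖ < 1) (hζ : ‖ζ‖ ≤ 1) {τ : ℂ}
    (hτ : ‖τ‖ ≤ ‖lam ζ z‖ / 8) {a : ℝ} (ha : 0 ≤ a) :
    4 / 5 * ‖lam ζ z‖ ≤ ‖lam ζ (Complex.exp τ • z) + (a : ℂ)‖ ∧
    4 / 5 * a ≤ ‖lam ζ (Complex.exp τ • z) + (a : ℂ)‖ := by
  obtain ⟨hl1, -, -, -, -, hl0, hl2⟩ := F3b hz hζ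
  obtain ⟨-, h2, -, -⟩ := F7b hz hζ hτ
  have h3 : ‖lam ζ z‖ ≤ ‖lam ζ z + (a : ℂ)‖ := by
    refine (sq_le_sq₀ (norm_nonneg _) (norm_nonneg _)).1 ?_
    rw [Complex.sq_norm, Complex.sq_norm, Complex.normSq_apply, Complex.normSq_apply]
    simp only [Complex.add_re, Complex.add_im, Complex.ofReal_re, Complex.ofReal_im, add_zero]
    nlinarith
  have h4 : a ≤ ‖lam ζ z + (a : ℂ)‖ := by
    have h5 := Complex.re_le_norm (lam ζ z + (a : ℂ))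
    rw [Complex.add_re, Complex.ofReal_re] at h5
    linarith
  have h5 : ‖lam ζ z + (a : ℂ)‖ ≤
      ‖lam ζ (Complex.exp τ • z) + (a : ℂ)‖ + ‖lam ζ (Complex.exp τ • z) - lam ζ z‖ := by
    have h6 : lam ζ z + (a : ℂ) = (lam ζ (Complex.exp τ • z) + (a : ℂ)) -
        (lam ζ (Complex.exp τ • z) - lam ζ z) := by ring
    calc ‖lam ζ z + (a : ℂ)‖ = ‖(lam ζ (Complex.exp τ • z) + (a : ℂ)) -
        (lam ζ (Complex.exp τ • z) - lam ζ z)‖ := by rw [← h6]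
      _ ≤ _ := norm_sub_le _ _
  constructor
  · linarith
  · linarith

end Pool.Agent.CRT
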