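import Mathlib

/-!
# [KLb] Division by a zero
-/

set_option autoImplicit false

namespace Pool.Agent.CRT

open Metric

/-- `|1 - conj(a) z|² = (1-|a|²)(1-|z|²) + |a-z|²` -/
theorem KLb_id (a z : ℂ) : ‖1 - (starRingEnd ℂ) a * z‖ ^ 2 =
    (1 - ‖a‖ ^ 2) * (1 - ‖z‖ ^ 2) + ‖a - z‖ ^ 2 := by
  simp only [Complex.sq_norm, Complex.normSq_apply, Complex.sub_re, Complex.sub_im,
    Complex.one_re, Complex.one_im, Complex.mul_re, Complex.mul_im, Complex.conj_re,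
    Complex.conj_im]
  ring

/-- on the unit circle `|x - x₀| = |1 - conj(x₀) x|` -/
theorem KLb_circle {x₀ x : ℂ} (hx : ‖x‖ = 1) : ‖1 - (starRingEnd ℂ) x₀ * x‖ = ‖x - x₀‖ := by
  have h := KLb_id x₀ x
  rw [hx, norm_sub_rev x₀ x] at h
  have h2 : ‖1 - (starRingEnd ℂ) x₀ * x‖ ^ 2 = ‖x - x₀‖ ^ 2 := by rw [h]; ring
  exact (pow_left_inj₀ (norm_nonneg _) (norm_nonneg _) two_ne_zero).1 h2

/-- the maximum principle on the closed unit disc -/
theorem KLb_max {F : ℂ → ℂ} {R : ℝ} (hR : 1 < R) (hF : DifferentiableOn ℂ F (ball 0 R))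
    (h : ∀ x : ℂ, ‖x‖ = 1 → ‖F x‖ ≤ 1) {x : ℂ} (hx : ‖x‖ ≤ 1) : ‖F x‖ ≤ 1 := by
  have hd : DiffContOnCl ℂ F (ball 0 1) :=
    hF.diffContOnCl_ball (closedBall_subset_ball hR)
  refine Complex.norm_le_of_forall_mem_frontier_norm_le isBounded_ball hd ?_ ?_
  · intro z hz
    rw [frontier_ball (0:ℂ) one_ne_zero, mem_sphere_zero_iff_norm] at hz
    exact h z hz
  · rw [closure_ball (0:ℂ) one_ne_zero, mem_closedBall_zero_iff]
    exact hx

/-- Division by a zero.  Let `b`, `k` be holomorphic in a neighbourhood of the closed unit disc (here: on the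
ball of radius `R > 1`), `|b| ≤ 1`, `|k b| ≤ 1` on the closed unit disc, `b(x₀) = 0`, `|x₀| < 1`.  Then there is
`b₁` with the same properties, `b(x) = φ(x) b₁(x)` on the ball of radius `R' ≤ R` (some `R' > 1`), `φ(x) = (x-x₀)/(1-conj(x₀)x)`; in
particular `|b| ≤ |b₁|` on the closed unit disc.

Proof.  `b₁ = b/φ` (removable singularity at `x₀`, `φ` has a simple zero at `x₀` and no other zero;
the pole `1/conj(x₀)` of `φ` is outside the closed disc: let `R' < 1/|x₀|`).  On the circle `|φ| = 1`, so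
`|b₁| = |b| ≤ 1` there and by the maximum principle `|b₁| ≤ 1` on the disc.  Likewise `kb` vanishes at `x₀` and
`k b₁ = kb/φ` is bounded by `1` on the circle, hence on the disc. -/
theorem KL2 {b k : ℂ → ℂ} {R : ℝ} (hR : 1 < R) (hb : DifferentiableOn ℂ b (ball 0 R))
    (hk : DifferentiableOn ℂ k (ball 0 R)) (h1 : ∀ x : ℂ, ‖x‖ ≤ 1 → ‖b x‖ ≤ 1)
    (h2 : ∀ x : ℂ, ‖x‖ ≤ 1 → ‖k x * b x‖ ≤ 1) {x₀ : ℂ} (hx₀ : ‖x₀‖ < 1) (h0 : b x₀ = 0) :
    ∃ (b₁ : ℂ → ℂ) (R' : ℝ), 1 < R' ∧ R' ≤ R ∧ DifferentiableOn ℂ b₁ (ball 0 R') ∧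
      (∀ x ∈ ball (0:ℂ) R', b x = (x - x₀) / (1 - (starRingEnd ℂ) x₀ * x) * b₁ x) ∧
      (∀ x : ℂ, ‖x‖ ≤ 1 → ‖b₁ x‖ ≤ 1) ∧ (∀ x : ℂ, ‖x‖ ≤ 1 → ‖k x * b₁ x‖ ≤ 1) := by
  have hR0 : 0 < R := by linarith
  have hx₀R : x₀ ∈ ball (0:ℂ) R := by
    rw [mem_ball_zero_iff]
    linarith
  have hn0 : 0 ≤ ‖x₀‖ := norm_nonneg _
  have hds : DifferentiableOn ℂ (dslope b x₀) (ball 0 R) :=
    (Complex.differentiableOn_dslope (isOpen_ball.mem_nhds hx₀R)).2 hb
  set b₁ : ℂ → ℂ := fun x => dslope b x₀ x * (1 - (starRingEnd ℂ) x₀ * x) with hb₁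
  have hb₁d : DifferentiableOn ℂ b₁ (ball 0 R) := by
    apply hds.mul
    have : Differentiable ℂ (fun x : ℂ => 1 - (starRingEnd ℂ) x₀ * x) := by fun_prop
    exact this.differentiableOn
  have hfac : ∀ x : ℂ, b x = (x - x₀) * dslope b x₀ x := by
    intro x
    have := sub_smul_dslope b x₀ x
    rw [h0, sub_zero, smul_eq_mul] at this
    exact this.symm
  -- on the circle
  have hcirc : ∀ x : ℂ, ‖x‖ = 1 → ‖b₁ x‖ = ‖b x‖ := by
    intro x hx
    rw [hfac x, hb₁]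
    simp only
    rw [norm_mul, norm_mul, KLb_circle hx, mul_comm]
  refine ⟨b₁, min R (2 / (1 + ‖x₀‖)), ?_, min_le_left _ _, ?_, ?_, ?_, ?_⟩
  · apply lt_min hR
    rw [lt_div_iff₀ (by positivity)]
    linarith
  · exact hb₁d.mono (ball_subset_ball (min_le_left _ _))
  · intro x hx
    rw [mem_ball_zero_iff] at hx
    have hx2 : ‖x‖ < 2 / (1 + ‖x₀‖) := lt_of_lt_of_le hx (min_le_right _ _)
    have hne : 1 - (starRingEnd ℂ) x₀ * x ≠ 0 := by
      intro h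
      have h1 : (starRingEnd ℂ) x₀ * x = 1 := by linear_combination -h
      have h2 : ‖x₀‖ * ‖x‖ = 1 := by
        have := congrArg norm h1
        rwa [norm_mul, RCLike.norm_conj, norm_one] at this
      rw [lt_div_iff₀ (by positivity)] at hx2
      nlinarith [norm_nonneg x]
    rw [hfac x, hb₁]
    simp only
    rw [div_mul_eq_mul_div, eq_div_iff hne]
    ring
  · intro x hx
    exact KLb_max hR hb₁d (fun y hy => by
      rw [hcirc y hy]
      exact h1 y hy.le) hx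
  · intro x hx
    exact KLb_max (F := fun x => k x * b₁ x) hR (hk.mul hb₁d) (fun y hy => by
      rw [norm_mul, hcirc y hy, ← norm_mul]
      exact h2 y hy.le) hx

end Pool.Agent.CRT
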