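import Mathlib

/-!
# [KLa] Harnack inequality
-/

set_option autoImplicit false

namespace Pool.Agent.CRT

open Metric

/-- `|1 - conj(a) z|² = (1-|a|²)(1-|z|²) + |a-z|²` -/
theorem KLa_id (a z : ℂ) : ‖1 - (starRingEnd ℂ) a * z‖ ^ 2 =
    (1 - ‖a‖ ^ 2) * (1 - ‖z‖ ^ 2) + ‖a - z‖ ^ 2 := by
  simp only [Complex.sq_norm, Complex.normSq_apply, Complex.sub_re, Complex.sub_im,
    Complex.one_re, Complex.one_im, Complex.mul_re, Complex.mul_im, Complex.conj_re,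
    Complex.conj_im]
  ring

theorem KLa_sq_lt {a : ℂ} (ha : ‖a‖ < 1) : 0 < 1 - ‖a‖ ^ 2 := by
  nlinarith [norm_nonneg a]

theorem KLa_ne {a z : ℂ} (ha : ‖a‖ < 1) (hz : ‖z‖ < 1) : 1 - (starRingEnd ℂ) a * z ≠ 0 := by
  intro h
  have h1 := KLa_id a z
  rw [h, norm_zero] at h1
  have := mul_pos (KLa_sq_lt ha) (KLa_sq_lt hz)
  have := sq_nonneg ‖a - z‖
  norm_num at h1
  linarith

/-- the Möbius map `(x - a)/(1 - conj(a) x)` maps the disc to the disc -/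
theorem KLa_mob {a z : ℂ} (ha : ‖a‖ < 1) (hz : ‖z‖ < 1) :
    ‖(z - a) / (1 - (starRingEnd ℂ) a * z)‖ < 1 := by
  have hne := KLa_ne ha hz
  have hn : 0 < ‖1 - (starRingEnd ℂ) a * z‖ := norm_pos_iff.2 hne
  rw [norm_div, div_lt_one hn]
  apply lt_of_pow_lt_pow_left₀ 2 hn.le
  rw [KLa_id, norm_sub_rev]
  linarith [mul_pos (KLa_sq_lt ha) (KLa_sq_lt hz)]

/-- the strict version -/
theorem KLa_strict {v : ℂ → ℂ} (hv : DifferentiableOn ℂ v (ball 0 1))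
    (hre : ∀ z ∈ ball (0:ℂ) 1, 0 < (v z).re) {a z : ℂ} (ha : ‖a‖ < 1) (hz : ‖z‖ < 1) :
    (v z).re ≤ 4 * (1 + ‖a - z‖ ^ 2 / ((1 - ‖a‖ ^ 2) * (1 - ‖z‖ ^ 2))) * (v a).re := by
  have haB : a ∈ ball (0:ℂ) 1 := mem_ball_zero_iff.2 ha
  have hzB : z ∈ ball (0:ℂ) 1 := mem_ball_zero_iff.2 hz
  have hA := hre z hzB
  have hB := hre a haB
  have hna : ‖-a‖ < 1 := by rwa [norm_neg]
  set φ : ℂ → ℂ := fun x => (x - -a) / (1 - (starRingEnd ℂ) (-a) * x) with hφ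
  have hφmaps : Set.MapsTo φ (ball 0 1) (ball 0 1) := by
    intro x hx
    rw [mem_ball_zero_iff] at hx ⊢
    exact KLa_mob hna hx
  have hφd : DifferentiableOn ℂ φ (ball 0 1) := by
    intro x hx
    rw [mem_ball_zero_iff] at hx
    apply DifferentiableAt.differentiableWithinAt
    have hne := KLa_ne hna hx
    exact (differentiableAt_id.sub_const _).div
      ((differentiableAt_const _).sub (differentiableAt_id.const_mul _)) hne
  have hden : ∀ x ∈ ball (0:ℂ) 1, v x + (starRingEnd ℂ) (v a) ≠ 0 := by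
    intro x hx h
    have h1 := congrArg Complex.re h
    rw [Complex.add_re, Complex.conj_re, Complex.zero_re] at h1
    linarith [hre x hx]
  set G : ℂ → ℂ := fun x => (v x - v a) / (v x + (starRingEnd ℂ) (v a)) with hG
  have hGd : DifferentiableOn ℂ G (ball 0 1) := (hv.sub_const _).div (hv.add_const _) hden
  have hG1 : ∀ x ∈ ball (0:ℂ) 1, ‖G x‖ ≤ 1 := by
    intro x hx
    have hn : 0 < ‖v x + (starRingEnd ℂ) (v a)‖ := norm_pos_iff.2 (hden x hx)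
    rw [hG]
    simp only
    rw [norm_div, div_le_one hn]
    apply le_of_sq_le_sq _ hn.le
    have e : ‖v x + (starRingEnd ℂ) (v a)‖ ^ 2 = ‖v x - v a‖ ^ 2 + 4 * (v x).re * (v a).re := by
      simp only [Complex.sq_norm, Complex.normSq_apply, Complex.sub_re, Complex.sub_im,
        Complex.add_re, Complex.add_im, Complex.conj_re, Complex.conj_im]
      ring
    rw [e]
    have := mul_pos (hre x hx) hB
    nlinarith
  have hφ0 : φ 0 = a := by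
    rw [hφ]
    simp
  have hGa : G a = 0 := by
    rw [hG]
    simp
  set ζ : ℂ := (z - a) / (1 - (starRingEnd ℂ) a * z) with hζ
  have hζ1 : ‖ζ‖ < 1 := KLa_mob ha hz
  have hne := KLa_ne ha hz
  have hφζ : φ ζ = z := by
    rw [hφ]
    simp only
    have hne2 := KLa_ne hna hζ1
    have hD : z - a = ζ * (1 - (starRingEnd ℂ) a * z) := by
      rw [hζ, div_mul_cancel₀ _ hne]
    rw [div_eq_iff hne2, map_neg]
    linear_combination -hD
  have hS : ‖G z‖ ≤ ‖ζ‖ := by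
    have h1 : DifferentiableOn ℂ (G ∘ φ) (ball 0 1) := hGd.comp hφd hφmaps
    have h2 : Set.MapsTo (G ∘ φ) (ball 0 1) (closedBall 0 1) := by
      intro x hx
      rw [mem_closedBall_zero_iff]
      exact hG1 _ (hφmaps hx)
    have h3 := Complex.norm_le_norm_of_mapsTo_ball h1 h2 (by
      rw [Function.comp_apply, hφ0, hGa]) hζ1
    rwa [Function.comp_apply, hφζ] at h3
  -- conclusion
  set ρ : ℝ := ‖ζ‖ with hρ
  have hρ0 : 0 ≤ ρ := norm_nonneg _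
  have hn : 0 < ‖v z + (starRingEnd ℂ) (v a)‖ := norm_pos_iff.2 (hden z hzB)
  have h4 : ‖v z - v a‖ ≤ ρ * ‖v z + (starRingEnd ℂ) (v a)‖ := by
    rw [hG] at hS
    simp only at hS
    rwa [norm_div, div_le_iff₀ hn] at hS
  have h5 : ‖v z - v a‖ ^ 2 ≤ ρ ^ 2 * ‖v z + (starRingEnd ℂ) (v a)‖ ^ 2 := by
    rw [← mul_pow]
    exact pow_le_pow_left₀ (norm_nonneg _) h4 2
  have e1 : ‖v z - v a‖ ^ 2 = ((v z).re - (v a).re) ^ 2 + ((v z).im - (v a).im) ^ 2 := by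
    simp only [Complex.sq_norm, Complex.normSq_apply, Complex.sub_re, Complex.sub_im]
    ring
  have e2 : ‖v z + (starRingEnd ℂ) (v a)‖ ^ 2 =
      ((v z).re + (v a).re) ^ 2 + ((v z).im - (v a).im) ^ 2 := by
    simp only [Complex.sq_norm, Complex.normSq_apply, Complex.add_re, Complex.add_im,
      Complex.conj_re, Complex.conj_im]
    ring
  rw [e1, e2] at h5
  have hρ2 : 0 ≤ 1 - ρ ^ 2 := by nlinarith
  have h6 : ((v z).re - (v a).re) ^ 2 ≤ (ρ * ((v z).re + (v a).re)) ^ 2 := by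
    have := mul_nonneg hρ2 (sq_nonneg ((v z).im - (v a).im))
    nlinarith
  have h7 : (v z).re - (v a).re ≤ ρ * ((v z).re + (v a).re) :=
    (le_abs_self _).trans (abs_le_of_sq_le_sq h6 (by positivity))
  have h8 : (v z).re * (1 - ρ ^ 2) ≤ 4 * (v a).re := by
    have h9 : (v z).re * (1 - ρ) ≤ (v a).re * (1 + ρ) := by linarith
    have h10 : (v z).re * (1 - ρ) * (1 + ρ) ≤ (v a).re * (1 + ρ) * (1 + ρ) :=
      mul_le_mul_of_nonneg_right h9 (by linarith)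
    have h11 : (1 + ρ) * (1 + ρ) ≤ 4 := by nlinarith
    have h12 : (v a).re * ((1 + ρ) * (1 + ρ)) ≤ (v a).re * 4 :=
      mul_le_mul_of_nonneg_left h11 hB.le
    nlinarith
  have hP := mul_pos (KLa_sq_lt ha) (KLa_sq_lt hz)
  have hE : ρ ^ 2 = ‖a - z‖ ^ 2 / ((1 - ‖a‖ ^ 2) * (1 - ‖z‖ ^ 2) + ‖a - z‖ ^ 2) := by
    rw [hρ, hζ, norm_div, div_pow, KLa_id, norm_sub_rev]
  have hEp : 0 < (1 - ‖a‖ ^ 2) * (1 - ‖z‖ ^ 2) + ‖a - z‖ ^ 2 := by
    have := sq_nonneg ‖a - z‖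
    linarith
  have h9 : 1 - ρ ^ 2 = ((1 - ‖a‖ ^ 2) * (1 - ‖z‖ ^ 2)) /
      ((1 - ‖a‖ ^ 2) * (1 - ‖z‖ ^ 2) + ‖a - z‖ ^ 2) := by
    rw [hE]
    field_simp
    ring
  rw [h9, mul_div_assoc', div_le_iff₀ hEp] at h8
  have e3 : 4 * (1 + ‖a - z‖ ^ 2 / ((1 - ‖a‖ ^ 2) * (1 - ‖z‖ ^ 2))) * (v a).re =
      4 * (v a).re * ((1 - ‖a‖ ^ 2) * (1 - ‖z‖ ^ 2) + ‖a - z‖ ^ 2) /
        ((1 - ‖a‖ ^ 2) * (1 - ‖z‖ ^ 2)) := by
    have h1 := (KLa_sq_lt ha).ne'
    have h2 := (KLa_sq_lt hz).ne'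
    field_simp
  rw [e3, le_div_iff₀ hP]
  exact h8

/-- The Harnack inequality.

Let `v` be holomorphic on the unit disc with `Re v ≥ 0`.  Then for `|a|, |z| < 1`
`Re v(z) ≤ 4 (1 + |a-z|²/((1-|a|²)(1-|z|²))) Re v(a)`.

Proof.  If `Re v(a) = 0` then `v` is constant (open mapping, or apply the inequality to `v + ε` and let
`ε → 0`); so by adding `ε` we may assume `Re v > 0` everywhere.  Let
`φ_a(z) = (z-a)/(1-conj(a) z)`, `ρ = |φ_a(z)| < 1`.  The function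
`G = (v - v(a))/(v + conj(v(a)))` maps the disc to the disc (`Re v > 0`, `Re v(a) > 0`) and vanishes at `a`, so by
the Schwarz lemma `|G(z)| ≤ ρ` (`Complex.dist_le_dist_of_mapsTo_ball_self`-type results for
`G ∘ φ_a^{-1}`, or the maximum principle for `G/φ_a`).  From
`v(z) = (v(a) + conj(v(a)) G)/(1-G)`: `Re v(z) = Re v(a) · (1-|G|²)/|1-G|² ≤ Re v(a)(1+ρ)/(1-ρ)`.
Finally `(1+ρ)/(1-ρ) = (1+ρ)²/(1-ρ²) ≤ 4/(1-ρ²)` and
`1/(1-ρ²) = |1-conj(a) z|²/((1-|a|²)(1-|z|²)) = 1 + |a-z|²/((1-|a|²)(1-|z|²))`. -/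
theorem KL1 {v : ℂ → ℂ} (hv : DifferentiableOn ℂ v (ball 0 1))
    (hre : ∀ z ∈ ball (0:ℂ) 1, 0 ≤ (v z).re) {a z : ℂ} (ha : ‖a‖ < 1) (hz : ‖z‖ < 1) :
    (v z).re ≤ 4 * (1 + ‖a - z‖ ^ 2 / ((1 - ‖a‖ ^ 2) * (1 - ‖z‖ ^ 2))) * (v a).re := by
  set K : ℝ := 4 * (1 + ‖a - z‖ ^ 2 / ((1 - ‖a‖ ^ 2) * (1 - ‖z‖ ^ 2))) with hK
  have hK0 : 0 ≤ K := by
    have := mul_pos (KLa_sq_lt ha) (KLa_sq_lt hz)
    positivity
  have key : ∀ ε : ℝ, 0 < ε → (v z).re + ε ≤ K * ((v a).re + ε) := by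
    intro ε hε
    have h := KLa_strict (v := fun x => v x + (ε : ℂ)) (hv.add_const _) (by
      intro x hx
      have := hre x hx
      rw [Complex.add_re, Complex.ofReal_re]
      linarith) ha hz
    simpa using h
  by_contra hcon
  push Not at hcon
  set δ : ℝ := (v z).re - K * (v a).re with hδ
  have hδ0 : 0 < δ := by linarith
  have := key (δ / (K + 1)) (by positivity)
  have e : K * (δ / (K + 1)) ≤ δ := by
    rw [mul_div_assoc', div_le_iff₀ (by positivity)]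
    nlinarith
  have h2 : 0 < δ / (K + 1) := by positivity
  nlinarith

end Pool.Agent.CRT
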