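import Mathlib
import Pool.Agent.CRT.KLa
import Pool.Agent.CRT.KLb

/-!
# [KLc] The two-constants lemma
-/

set_option autoImplicit false

namespace Pool.Agent.CRT

open Metric

theorem KLc_mob {a x : ℂ} (ha : ‖a‖ < 1) (hx : ‖x‖ < 1) :
    ‖(a - x) / (1 - (starRingEnd ℂ) x * a)‖ < 1 := by
  have hne : 1 - (starRingEnd ℂ) x * a ≠ 0 := by
    intro h
    have h1 : (starRingEnd ℂ) x * a = 1 := (sub_eq_zero.1 h).symm
    have h2 : ‖(starRingEnd ℂ) x * a‖ = 1 := by rw [h1, norm_one]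
    rw [norm_mul, RCLike.norm_conj] at h2
    nlinarith [norm_nonneg x, norm_nonneg a]
  rw [norm_div, div_lt_one (norm_pos_iff.2 hne)]
  have h3 : ‖a - x‖ ^ 2 < ‖1 - (starRingEnd ℂ) x * a‖ ^ 2 := by
    have e1 : ‖a‖ ^ 2 = a.re ^ 2 + a.im ^ 2 := by
      rw [← Complex.normSq_eq_norm_sq, Complex.normSq_apply]; ring
    have e2 : ‖x‖ ^ 2 = x.re ^ 2 + x.im ^ 2 := by
      rw [← Complex.normSq_eq_norm_sq, Complex.normSq_apply]; ring
    have e3 : ‖a - x‖ ^ 2 = (a.re - x.re) ^ 2 + (a.im - x.im) ^ 2 := by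
      rw [← Complex.normSq_eq_norm_sq, Complex.normSq_apply]
      simp only [Complex.sub_re, Complex.sub_im]
      ring
    have e4 : ‖1 - (starRingEnd ℂ) x * a‖ ^ 2 =
        (1 - (x.re * a.re + x.im * a.im)) ^ 2 + (x.re * a.im - x.im * a.re) ^ 2 := by
      rw [← Complex.normSq_eq_norm_sq, Complex.normSq_apply]
      simp only [Complex.sub_re, Complex.sub_im, Complex.mul_re, Complex.mul_im, Complex.conj_re,
        Complex.conj_im, Complex.one_re, Complex.one_im]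
      ring
    have h4 : 0 < (1 - ‖a‖ ^ 2) * (1 - ‖x‖ ^ 2) := by
      apply mul_pos
      · nlinarith [norm_nonneg a]
      · nlinarith [norm_nonneg x]
    rw [e1, e2] at h4
    rw [e3, e4]
    nlinarith
  exact lt_of_pow_lt_pow_left₀ 2 (norm_nonneg _) h3

/-- a holomorphic logarithm of a zero free function on a disc -/
theorem KLc_log {b : ℂ → ℂ} (hb : DifferentiableOn ℂ b (ball 0 1))
    (h0 : ∀ x ∈ ball (0 : ℂ) 1, b x ≠ 0) :
    ∃ v : ℂ → ℂ, DifferentiableOn ℂ v (ball 0 1) ∧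
      ∀ x ∈ ball (0 : ℂ) 1, b x = Complex.exp (-v x) := by
  have hd : DifferentiableOn ℂ (fun x => deriv b x / b x) (ball 0 1) :=
    (hb.deriv isOpen_ball).div hb h0
  obtain ⟨g, hg0, hg⟩ := hd.isExactOn_ball.with_val_at 0 (Complex.log (b 0))
  have hbd : ∀ x ∈ ball (0 : ℂ) 1, HasDerivAt b (deriv b x) x := fun x hx =>
    (hb.differentiableAt (isOpen_ball.mem_nhds hx)).hasDerivAt
  have hF : ∀ x ∈ ball (0 : ℂ) 1, HasDerivAt (fun x => b x * Complex.exp (-g x)) 0 x := by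
    intro x hx
    have h1 : HasDerivAt (fun x => b x * Complex.exp (-g x))
        (deriv b x * Complex.exp (-g x) + b x * (Complex.exp (-g x) * -(deriv b x / b x))) x :=
      (hbd x hx).mul ((hg x hx).neg.cexp)
    have h2 := h0 x hx
    have e : deriv b x * Complex.exp (-g x) + b x * (Complex.exp (-g x) * -(deriv b x / b x))
        = 0 := by
      field_simp
      ring
    rw [e] at h1
    exact h1
  have hc : ∀ x ∈ ball (0 : ℂ) 1, b x * Complex.exp (-g x) = 1 := by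
    intro x hx
    have h1 := isOpen_ball.is_const_of_deriv_eq_zero (convex_ball (0 : ℂ) 1).isPreconnected
      (fun y hy => (hF y hy).differentiableAt.differentiableWithinAt)
      (fun y hy => (hF y hy).deriv) hx (mem_ball_self one_pos)
    rw [h1, hg0, Complex.exp_neg, Complex.exp_log (h0 0 (mem_ball_self one_pos))]
    exact mul_inv_cancel₀ (h0 0 (mem_ball_self one_pos))
  refine ⟨fun x => -g x, fun x hx => (hg x hx).neg.differentiableAt.differentiableWithinAt, ?_⟩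
  intro x hx
  rw [neg_neg]
  have h1 := hc x hx
  rw [Complex.exp_neg] at h1
  have h2 : b x = Complex.exp (g x) := by
    field_simp at h1
    exact h1
  exact h2

/-- the zero free case -/
theorem KLc_free {b k : ℂ → ℂ} (hb : DifferentiableOn ℂ b (ball 0 1))
    (h1 : ∀ x : ℂ, ‖x‖ ≤ 1 → ‖b x‖ ≤ 1)
    (h2 : ∀ x : ℂ, ‖x‖ ≤ 1 → ‖k x * b x‖ ≤ 1) {a z : ℂ} (ha : ‖a‖ < 1) (hz : ‖z‖ < 1)
    (h0 : ∀ x ∈ ball (0 : ℂ) 1, b x ≠ 0) :
    ‖k z‖ ≤ Real.exp (4 * (1 + ‖a - z‖ ^ 2 / ((1 - ‖a‖ ^ 2) * (1 - ‖z‖ ^ 2))) *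
      Real.log (1 / ‖b a‖)) := by
  obtain ⟨v, hv, hbv⟩ := KLc_log hb h0
  have hn : ∀ x ∈ ball (0 : ℂ) 1, ‖b x‖ = Real.exp (-(v x).re) := by
    intro x hx
    rw [hbv x hx, Complex.norm_exp, Complex.neg_re]
  have hre : ∀ x ∈ ball (0 : ℂ) 1, 0 ≤ (v x).re := by
    intro x hx
    have h3 := h1 x (by simpa using (mem_ball_zero_iff.1 hx).le)
    rw [hn x hx, Real.exp_le_one_iff] at h3
    linarith
  have hza : z ∈ ball (0 : ℂ) 1 := by simpa using hz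
  have haa : a ∈ ball (0 : ℂ) 1 := by simpa using ha
  have hK := KL1 hv hre ha hz
  have h4 := h2 z hz.le
  rw [norm_mul, hn z hza, Real.exp_neg] at h4
  have h5 : ‖k z‖ ≤ Real.exp (v z).re := by
    have h6 : 0 < Real.exp (v z).re := Real.exp_pos _
    rw [← div_eq_mul_inv, div_le_one h6] at h4
    exact h4
  refine h5.trans (Real.exp_le_exp.2 ?_)
  have h7 : Real.log (1 / ‖b a‖) = (v a).re := by
    rw [hn a haa, one_div, ← Real.exp_neg, neg_neg, Real.log_exp]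
  rw [h7]
  exact hK

theorem KLc_ind {k : ℂ → ℂ} {a z : ℂ} (ha : ‖a‖ < 1) (hz : ‖z‖ < 1) {Z : Set ℂ} {ρ : ℝ}
    (hρ0 : 0 < ρ) (hρ : ∀ x ∈ Z, ‖x‖ < 1 → ‖(a - x) / (1 - (starRingEnd ℂ) x * a)‖ ≤ ρ) (n : ℕ) :
    ∀ (b : ℂ → ℂ) (R : ℝ), 1 < R → DifferentiableOn ℂ b (ball 0 R) →
      DifferentiableOn ℂ k (ball 0 R) → (∀ x : ℂ, ‖x‖ ≤ 1 → ‖b x‖ ≤ 1) →
      (∀ x : ℂ, ‖x‖ ≤ 1 → ‖k x * b x‖ ≤ 1) → (∀ x ∈ ball (0 : ℂ) 1, b x = 0 → x ∈ Z) →
      ρ ^ n < ‖b a‖ →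
      ‖k z‖ ≤ Real.exp (4 * (1 + ‖a - z‖ ^ 2 / ((1 - ‖a‖ ^ 2) * (1 - ‖z‖ ^ 2))) *
        Real.log (1 / ‖b a‖)) := by
  induction n with
  | zero =>
    intro b R _ _ _ h1 _ _ hn
    have := h1 a ha.le
    rw [pow_zero] at hn
    linarith
  | succ n ih =>
    intro b R hR hb hk h1 h2 hZ hn
    by_cases h0 : ∀ x ∈ ball (0 : ℂ) 1, b x ≠ 0
    · exact KLc_free (hb.mono (ball_subset_ball hR.le)) h1 h2 ha hz h0
    push Not at h0
    obtain ⟨x₀, hx₀, hbx⟩ := h0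
    have hx₀' : ‖x₀‖ < 1 := by simpa using hx₀
    obtain ⟨b₁, R', hR', hR'R, hb₁, hfac, hb₁1, hkb₁⟩ := KL2 hR hb hk h1 h2 hx₀' hbx
    have haR' : a ∈ ball (0 : ℂ) R' := by
      rw [mem_ball_zero_iff]
      linarith
    have hfa := hfac a haR'
    have hna : ‖b a‖ = ‖(a - x₀) / (1 - (starRingEnd ℂ) x₀ * a)‖ * ‖b₁ a‖ := by
      rw [hfa, norm_mul]
    have hle1 := hρ x₀ (hZ x₀ hx₀ hbx) hx₀'
    have hlt1 := KLc_mob ha hx₀'
    have hbapos : 0 < ‖b a‖ := lt_trans (pow_pos hρ0 _) hn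
    have hn1 : ρ ^ n < ‖b₁ a‖ := by
      have h3 : ρ ^ (n + 1) < ρ * ‖b₁ a‖ := by
        refine hn.trans_le ?_
        rw [hna]
        exact mul_le_mul_of_nonneg_right hle1 (norm_nonneg _)
      rw [pow_succ, mul_comm] at h3
      exact lt_of_mul_lt_mul_left h3 hρ0.le
    have hb₁pos : 0 < ‖b₁ a‖ := lt_trans (pow_pos hρ0 _) hn1
    have hbb : ‖b a‖ ≤ ‖b₁ a‖ := by
      rw [hna]
      nlinarith
    have := ih b₁ R' hR' hb₁ (hk.mono (ball_subset_ball hR'R)) hb₁1 hkb₁ (by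
      intro x hx hbx'
      refine hZ x hx ?_
      have hxR' : x ∈ ball (0 : ℂ) R' := ball_subset_ball hR'.le hx
      rw [hfac x hxR', hbx', mul_zero]) hn1
    refine this.trans (Real.exp_le_exp.2 ?_)
    apply mul_le_mul_of_nonneg_left
    · apply Real.log_le_log (by positivity)
      exact one_div_le_one_div_of_le hbapos hbb
    · have h5 : 0 < 1 - ‖a‖ ^ 2 := by nlinarith [norm_nonneg a]
      have h6 : 0 < 1 - ‖z‖ ^ 2 := by nlinarith [norm_nonneg z]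
      positivity

theorem KLc_fin {b : ℂ → ℂ} {R : ℝ} (hR : 1 < R) (hb : DifferentiableOn ℂ b (ball 0 R))
    {a : ℂ} (ha : ‖a‖ < 1) (hba : b a ≠ 0) :
    {x : ℂ | ‖x‖ ≤ 1 ∧ b x = 0}.Finite := by
  by_contra hinf
  obtain ⟨x, hx, hacc⟩ := Set.Infinite.exists_accPt_of_subset_isCompact hinf
    (isCompact_closedBall (0 : ℂ) 1) (by
      intro y hy
      simpa using hy.1)
  rw [accPt_iff_frequently_nhdsNE] at hacc
  have hfr : ∃ᶠ y in nhdsWithin x {x}ᶜ, b y = 0 := hacc.mono fun y hy => hy.2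
  have hxR : x ∈ ball (0 : ℂ) R := by
    have : ‖x‖ ≤ 1 := by simpa using hx
    rw [mem_ball_zero_iff]
    linarith
  have haR : a ∈ ball (0 : ℂ) R := by
    rw [mem_ball_zero_iff]
    linarith
  have := (hb.analyticOnNhd isOpen_ball).eqOn_zero_of_preconnected_of_frequently_eq_zero
    (convex_ball (0 : ℂ) R).isPreconnected hxR hfr
  exact hba (this haR)

/-- The lemma on the unit disc, for functions holomorphic in a neighbourhood of the closed disc.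

Proof.  `b ≢ 0` (`b(a) ≠ 0`).  The number `n` of zeros of `b` in the OPEN unit disc, with multiplicities, is
finite (`b` has finitely many zeros in the closed disc, each of finite order).  Induction on `n`: if
`n = 0`, then `b` has no zeros on the open disc; choose a holomorphic logarithm `b = e^{-v}` on the disc (simply
connected; e.g. `DifferentiableOn` primitive of `b'/b` on a ball, or Mathlib's branch of the logarithm
`Mathlib/Analysis/Complex/BranchLogRoot.lean`), `Re v = -log|b| ≥ 0`, `|k| ≤ 1/|b| = e^{Re v}` and `KL1` gives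
`|k(z)| ≤ exp(Re v(z)) ≤ exp(H Re v(a)) = exp(H log(1/|b(a)|))`.
If `n > 0`, `KL2` gives `b₁` with `n-1` zeros, and `|b₁(a)| ≥ |b(a)|`, so the claim for `b₁` implies that for
`b`.  (Instead of counting zeros with multiplicities one may use: the number of factors
`(x-x₀)/(1-conj(x₀)x)` that can be split off is bounded, because by Jensen/`|b(a)| = ∏|φ_i(a)| |b_n(a)|` and
the finiteness of the zero set and of the orders; any formalisation is fine.) -/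
theorem KL3 {b k : ℂ → ℂ} {R : ℝ} (hR : 1 < R) (hb : DifferentiableOn ℂ b (ball 0 R))
    (hk : DifferentiableOn ℂ k (ball 0 R)) (h1 : ∀ x : ℂ, ‖x‖ ≤ 1 → ‖b x‖ ≤ 1)
    (h2 : ∀ x : ℂ, ‖x‖ ≤ 1 → ‖k x * b x‖ ≤ 1) {a z : ℂ} (ha : ‖a‖ < 1) (hz : ‖z‖ < 1)
    (hba : b a ≠ 0) :
    ‖k z‖ ≤ Real.exp (4 * (1 + ‖a - z‖ ^ 2 / ((1 - ‖a‖ ^ 2) * (1 - ‖z‖ ^ 2))) *
      Real.log (1 / ‖b a‖)) := by
  have hfin := KLc_fin hR hb ha hba
  set Z : Set ℂ := {x : ℂ | ‖x‖ ≤ 1 ∧ b x = 0} with hZ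
  obtain ⟨ρ, hρ0, hρ1, hρ⟩ : ∃ ρ : ℝ, 0 < ρ ∧ ρ < 1 ∧
      ∀ x ∈ Z, ‖x‖ < 1 → ‖(a - x) / (1 - (starRingEnd ℂ) x * a)‖ ≤ ρ := by
    have hgen : ∀ s : Finset ℂ, ∃ ρ : ℝ, 0 < ρ ∧ ρ < 1 ∧
        ∀ x ∈ s, ‖x‖ < 1 → ‖(a - x) / (1 - (starRingEnd ℂ) x * a)‖ ≤ ρ := by
      classical
      intro s
      induction s using Finset.induction_on with
      | empty => exact ⟨1 / 2, by norm_num, by norm_num, by simp⟩
      | insert y s _ ih =>
        obtain ⟨ρ, h0, h1', h2'⟩ := ih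
        by_cases hy : ‖y‖ < 1
        · refine ⟨max ρ ‖(a - y) / (1 - (starRingEnd ℂ) y * a)‖, lt_max_of_lt_left h0,
            max_lt h1' (KLc_mob ha hy), ?_⟩
          intro x hx hx1
          rcases Finset.mem_insert.1 hx with rfl | hx
          · exact le_max_right _ _
          · exact (h2' x hx hx1).trans (le_max_left _ _)
        · refine ⟨ρ, h0, h1', ?_⟩
          intro x hx hx1
          rcases Finset.mem_insert.1 hx with rfl | hx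
          · exact absurd hx1 hy
          · exact h2' x hx hx1
    obtain ⟨ρ, h0, h1', h2'⟩ := hgen hfin.toFinset
    exact ⟨ρ, h0, h1', fun x hx => h2' x (hfin.mem_toFinset.2 hx)⟩
  obtain ⟨n, hn⟩ := exists_pow_lt_of_lt_one (norm_pos_iff.2 hba) hρ1
  exact KLc_ind ha hz hρ0 hρ n b R hR hb hk h1 h2
    (fun x hx hx0 => ⟨(mem_ball_zero_iff.1 hx).le, hx0⟩) hn

/-- The lemma on an arbitrary open disc.

Proof.  Apply `KL3` to `x ↦ b(c + R'x)`, `R' < ϱ` (holomorphic on the ball of radius `ϱ/R' > 1`), and let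
`R' → ϱ`: the constant `4(1 + R'²|z₀-z₁|²/((R'²-|z₀-c|²)(R'²-|z₁-c|²)))` is continuous in `R'`. -/
theorem KL4 {b k : ℂ → ℂ} {c : ℂ} {ϱ : ℝ} (hϱ : 0 < ϱ) (hb : DifferentiableOn ℂ b (ball c ϱ))
    (hk : DifferentiableOn ℂ k (ball c ϱ)) (h1 : ∀ x ∈ ball c ϱ, ‖b x‖ ≤ 1)
    (h2 : ∀ x ∈ ball c ϱ, ‖k x * b x‖ ≤ 1) {z₀ z₁ : ℂ} (hz₀ : ‖z₀ - c‖ < ϱ)
    (hz₁ : ‖z₁ - c‖ < ϱ) (hb0 : b z₀ ≠ 0) :
    ‖k z₁‖ ≤ Real.exp (4 * (1 + ϱ ^ 2 * ‖z₀ - z₁‖ ^ 2 /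
      ((ϱ ^ 2 - ‖z₀ - c‖ ^ 2) * (ϱ ^ 2 - ‖z₁ - c‖ ^ 2))) * Real.log (1 / ‖b z₀‖)) := by
  set m : ℝ := max ‖z₀ - c‖ ‖z₁ - c‖ with hm
  have hmϱ : m < ϱ := max_lt hz₀ hz₁
  have hm0 : 0 ≤ m := (norm_nonneg _).trans (le_max_left _ _)
  have key : ∀ r : ℝ, m < r → r < ϱ → ‖k z₁‖ ≤ Real.exp (4 * (1 + r ^ 2 * ‖z₀ - z₁‖ ^ 2 /
      ((r ^ 2 - ‖z₀ - c‖ ^ 2) * (r ^ 2 - ‖z₁ - c‖ ^ 2))) * Real.log (1 / ‖b z₀‖)) := by
    intro r hr1 hr2
    have hr0 : 0 < r := lt_of_le_of_lt hm0 hr1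
    have hrC : (r : ℂ) ≠ 0 := by exact_mod_cast hr0.ne'
    have hmaps : Set.MapsTo (fun x : ℂ => c + (r : ℂ) * x) (ball 0 (ϱ / r)) (ball c ϱ) := by
      intro x hx
      rw [mem_ball_zero_iff, lt_div_iff₀ hr0] at hx
      simp only [mem_ball, dist_eq_norm, add_sub_cancel_left, norm_mul, Complex.norm_real,
        Real.norm_eq_abs, abs_of_pos hr0]
      rw [mul_comm]
      exact hx
    have hR : 1 < ϱ / r := by rwa [lt_div_iff₀ hr0, one_mul]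
    have hsub : ∀ x : ℂ, ‖x‖ ≤ 1 → c + (r : ℂ) * x ∈ ball c ϱ := by
      intro x hx
      apply hmaps
      rw [mem_ball_zero_iff]
      linarith
    have hdiff : DifferentiableOn ℂ (fun x : ℂ => c + (r : ℂ) * x) (ball 0 (ϱ / r)) := by
      fun_prop
    have hn0 : ‖(z₀ - c) / (r : ℂ)‖ = ‖z₀ - c‖ / r := by
      rw [norm_div, Complex.norm_real, Real.norm_eq_abs, abs_of_pos hr0]
    have hn1 : ‖(z₁ - c) / (r : ℂ)‖ = ‖z₁ - c‖ / r := by
      rw [norm_div, Complex.norm_real, Real.norm_eq_abs, abs_of_pos hr0]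
    have hz0r : ‖z₀ - c‖ < r := lt_of_le_of_lt (le_max_left _ _) hr1
    have hz1r : ‖z₁ - c‖ < r := lt_of_le_of_lt (le_max_right _ _) hr1
    have e0 : c + (r : ℂ) * ((z₀ - c) / (r : ℂ)) = z₀ := by field_simp; ring
    have e1 : c + (r : ℂ) * ((z₁ - c) / (r : ℂ)) = z₁ := by field_simp; ring
    have := KL3 (b := fun x => b (c + (r : ℂ) * x)) (k := fun x => k (c + (r : ℂ) * x)) hR
      (hb.comp hdiff hmaps) (hk.comp hdiff hmaps) (fun x hx => h1 _ (hsub x hx))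
      (fun x hx => h2 _ (hsub x hx)) (a := (z₀ - c) / (r : ℂ)) (z := (z₁ - c) / (r : ℂ))
      (by rw [hn0, div_lt_one hr0]; exact hz0r) (by rw [hn1, div_lt_one hr0]; exact hz1r)
      (by simp only [e0]; exact hb0)
    simp only [e0, e1] at this
    have e2 : ‖(z₀ - c) / (r : ℂ) - (z₁ - c) / (r : ℂ)‖ = ‖z₀ - z₁‖ / r := by
      rw [← sub_div, norm_div, Complex.norm_real, Real.norm_eq_abs, abs_of_pos hr0]
      congr 2
      ring
    rw [hn0, hn1, e2] at this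
    have e3 : (‖z₀ - z₁‖ / r) ^ 2 / ((1 - (‖z₀ - c‖ / r) ^ 2) * (1 - (‖z₁ - c‖ / r) ^ 2)) =
        r ^ 2 * ‖z₀ - z₁‖ ^ 2 / ((r ^ 2 - ‖z₀ - c‖ ^ 2) * (r ^ 2 - ‖z₁ - c‖ ^ 2)) := by
      have h5 : r ^ 2 - ‖z₀ - c‖ ^ 2 ≠ 0 := by
        have : ‖z₀ - c‖ ^ 2 < r ^ 2 := pow_lt_pow_left₀ hz0r (norm_nonneg _) two_ne_zero
        linarith
      have h6 : r ^ 2 - ‖z₁ - c‖ ^ 2 ≠ 0 := by
        have : ‖z₁ - c‖ ^ 2 < r ^ 2 := pow_lt_pow_left₀ hz1r (norm_nonneg _) two_ne_zero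
        linarith
      have h7 : 1 - (‖z₀ - c‖ / r) ^ 2 = (r ^ 2 - ‖z₀ - c‖ ^ 2) / r ^ 2 := by
        field_simp
      have h8 : 1 - (‖z₁ - c‖ / r) ^ 2 = (r ^ 2 - ‖z₁ - c‖ ^ 2) / r ^ 2 := by
        field_simp
      rw [h7, h8]
      field_simp
    rw [e3] at this
    exact this
  have hq0 : ϱ ^ 2 - ‖z₀ - c‖ ^ 2 ≠ 0 := by
    have : ‖z₀ - c‖ ^ 2 < ϱ ^ 2 := pow_lt_pow_left₀ hz₀ (norm_nonneg _) two_ne_zero
    linarith
  have hq1 : ϱ ^ 2 - ‖z₁ - c‖ ^ 2 ≠ 0 := by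
    have : ‖z₁ - c‖ ^ 2 < ϱ ^ 2 := pow_lt_pow_left₀ hz₁ (norm_nonneg _) two_ne_zero
    linarith
  have hcont : ContinuousAt (fun r : ℝ => Real.exp (4 * (1 + r ^ 2 * ‖z₀ - z₁‖ ^ 2 /
      ((r ^ 2 - ‖z₀ - c‖ ^ 2) * (r ^ 2 - ‖z₁ - c‖ ^ 2))) * Real.log (1 / ‖b z₀‖))) ϱ := by
    apply Real.continuous_exp.continuousAt.comp
    apply ContinuousAt.mul _ continuousAt_const
    apply ContinuousAt.mul continuousAt_const
    apply ContinuousAt.add continuousAt_const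
    apply ContinuousAt.div (by fun_prop) (by fun_prop)
    exact mul_ne_zero hq0 hq1
  have ht := hcont.tendsto.mono_left (nhdsWithin_le_nhds (s := Set.Iio ϱ))
  refine ge_of_tendsto ht ?_
  filter_upwards [Ioo_mem_nhdsLT hmϱ] with r hr
  exact key r hr.1 hr.2

end Pool.Agent.CRT
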