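import Pool.Agent.CRT.F1
import Pool.Agent.CRT.KL

/-!
# [G1] The crude growth bound `|h| ≤ e^{C/t}`
-/

set_option autoImplicit false

namespace Pool.Agent.CRT

open Metric

/-- Let `m` be holomorphic on the ball, `|m| ≤ 1`, `m ≢ 0`.  There is `C` such that every holomorphic `h` on the
ball with `|m h| ≤ t^{-n}` satisfies `|h| ≤ e^{C/t}`.

Proof.  Fix `a` in the ball with `m(a) ≠ 0`.  Let `z` be in the ball, `z ≠ a` (for `z = a` directly:
`|h(a)| ≤ t(a)^{-n}/|m(a)|`).  Let `θ = min(t(a),t(z))/2`, `r² = 1-θ`.  For `μ ∈ ℂ` put `ℓ(μ) = a + μ(z-a)`.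
`{μ : |ℓ(μ)| < r}` is an open disc `ball c ϱ`: `|ℓ(μ)|² = |a|² + 2Re(μ<z-a,a>) + |μ|²|z-a|²`, so
`r² - |ℓ(μ)|² = |z-a|²(ϱ² - |μ-c|²)` with `c = -<a,z-a>/|z-a|²` (`<a,z-a> = inner (z-a) a`), `ϱ² = (r²-|a|²)/|z-a|² + |c|²`, and
`|z-a|² ϱ² ≤ r²` (the maximum of `r²-|ℓ|²` is `≤ r²`) `≤ 1`.  On it `t ≥ θ`, `|m h| ≤ θ^{-n} =: Q`.
`KL4` with `b = m∘ℓ`, `k = h∘ℓ/Q`, `z₀ = 0`, `z₁ = 1`:
`|h(z)| ≤ Q exp(H log(1/|m(a)|))`, `H = 4(1 + ϱ²|z-a|⁴/((r²-|a|²)(r²-|z|²))) ≤ 4(1 + 4/((t(a)/2)(t(z)/2)))`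
because `|z-a|² ≤ 4`, `r²-|a|² = t(a)-θ ≥ t(a)/2`, `r²-|z|² ≥ t(z)/2`.
So `H ≤ 68/(t(a)t(z))`.  And `θ ≥ t(a)t(z)/2` gives `Q ≤ (2/(t(a)t(z)))^n ≤ exp(2n/(t(a)t(z)))`
(`x ≤ e^x`).  Hence `C = (68 log(1/|m(a)|) + 2n)/t(a)`, enlarged for `z = a`. -/
theorem G1 {d : ℕ} {m : E d → ℂ} (hm : DifferentiableOn ℂ m (ball 0 1))
    (hm1 : ∀ z : E d, ‖z‖ < 1 → ‖m z‖ ≤ 1) {a : E d} (ha : ‖a‖ < 1) (hma : m a ≠ 0) (n : ℕ) :
    ∃ C : ℝ, ∀ h : E d → ℂ, DifferentiableOn ℂ h (ball 0 1) →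
      (∀ z : E d, ‖z‖ < 1 → ‖m z * h z‖ ≤ (1 / tt z) ^ n) →
      ∀ z : E d, ‖z‖ < 1 → ‖h z‖ ≤ Real.exp (C / tt z) := by
  have htpos : ∀ z : E d, ‖z‖ < 1 → 0 < tt z ∧ tt z ≤ 1 := by
    intro z hz
    unfold tt
    constructor <;> nlinarith [norm_nonneg z]
  obtain ⟨hta0, hta1⟩ := htpos a ha
  set Lg : ℝ := Real.log (1 / ‖m a‖) with hLg
  have hma0 : 0 < ‖m a‖ := norm_pos_iff.2 hma
  have hLg0 : 0 ≤ Lg := by
    apply Real.log_nonneg
    rw [le_div_iff₀ hma0, one_mul]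
    exact hm1 a ha
  have hexpL : Real.exp Lg = 1 / ‖m a‖ := Real.exp_log (by positivity)
  refine ⟨(68 * Lg + 2 * n) / tt a, ?_⟩
  intro h hh hmh z hz
  obtain ⟨htz0, htz1⟩ := htpos z hz
  have hxn : ∀ x : ℝ, 0 ≤ x → x ^ n ≤ Real.exp (n * x) := by
    intro x hx
    rw [Real.exp_nat_mul]
    apply pow_le_pow_left₀ hx
    have := Real.add_one_le_exp x
    linarith
  by_cases hza : z = a
  · subst hza
    have h1 := hmh z hz
    rw [norm_mul] at h1
    have h2 : ‖h z‖ ≤ (1 / tt z) ^ n * Real.exp Lg := by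
      rw [hexpL, mul_one_div, le_div_iff₀ hma0]
      linarith
    refine h2.trans ?_
    have h3 := hxn (1 / tt z) (by positivity)
    calc (1 / tt z) ^ n * Real.exp Lg ≤ Real.exp (n * (1 / tt z)) * Real.exp Lg :=
          mul_le_mul_of_nonneg_right h3 (Real.exp_pos _).le
      _ = Real.exp (n * (1 / tt z) + Lg) := by rw [Real.exp_add]
      _ ≤ Real.exp ((68 * Lg + 2 * n) / tt z / tt z) := by
          apply Real.exp_le_exp.2
          have h4 : (1 : ℝ) ≤ 1 / tt z := by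
            rw [le_div_iff₀ htz0]
            linarith
          have h5 : (68 * Lg + 2 * n) / tt z / tt z = (68 * Lg + 2 * n) * (1 / tt z) * (1 / tt z) := by
            ring
          rw [h5]
          have h6 : 0 ≤ 68 * Lg + 2 * (n : ℝ) := by positivity
          have h7 : (68 * Lg + 2 * n) * (1 / tt z) ≤ (68 * Lg + 2 * n) * (1 / tt z) * (1 / tt z) :=
            le_mul_of_one_le_right (by positivity) h4
          have h8 : Lg ≤ Lg * (1 / tt z) := le_mul_of_one_le_right hLg0 h4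
          have h9 : 0 ≤ (n : ℝ) * (1 / tt z) := by positivity
          nlinarith
  · set u : E d := z - a with hu
    have hu0 : u ≠ 0 := sub_ne_zero.2 hza
    have hun : 0 < ‖u‖ := norm_pos_iff.2 hu0
    set θ : ℝ := min (tt a) (tt z) / 2 with hθ
    have hmin0 : 0 < min (tt a) (tt z) := lt_min hta0 htz0
    have hθ0 : 0 < θ := by positivity
    have hθa : θ ≤ tt a / 2 := by
      have := min_le_left (tt a) (tt z)
      linarith
    have hθz : θ ≤ tt z / 2 := by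
      have := min_le_right (tt a) (tt z)
      linarith
    have hna : ‖a‖ ^ 2 = 1 - tt a := by
      unfold tt
      ring
    have hnz : ‖z‖ ^ 2 = 1 - tt z := by
      unfold tt
      ring
    set c : ℂ := -(inner ℂ u a) / ((‖u‖ ^ 2 : ℝ) : ℂ) with hc
    have hu2 : ((‖u‖ ^ 2 : ℝ) : ℂ) ≠ 0 := by
      exact_mod_cast (by positivity : (‖u‖ ^ 2 : ℝ) ≠ 0)
    -- the square
    have hsq : ∀ μ : ℂ, ‖a + μ • u‖ ^ 2 = ‖u‖ ^ 2 * ‖μ - c‖ ^ 2 + (‖a‖ ^ 2 - ‖u‖ ^ 2 * ‖c‖ ^ 2) := by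
      intro μ
      rw [@norm_add_sq ℂ, inner_smul_right, norm_smul, mul_pow]
      have h1 : ‖μ - c‖ ^ 2 = ‖μ‖ ^ 2 - 2 * (μ * (starRingEnd ℂ) c).re + ‖c‖ ^ 2 := by
        have h2 := @norm_sub_sq ℂ ℂ _ _ _ c μ
        rw [norm_sub_rev] at h2
        rw [h2, RCLike.inner_apply]
        simp only [RCLike.re_to_complex]
        ring
      have h3 : (‖u‖ ^ 2 : ℝ) * (μ * (starRingEnd ℂ) c).re = -(μ * inner ℂ a u).re := by
        have h4 : ((‖u‖ ^ 2 : ℝ) : ℂ) * (μ * (starRingEnd ℂ) c) = -(μ * inner ℂ a u) := by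
          rw [hc, map_div₀, map_neg, inner_conj_symm, Complex.conj_ofReal]
          field_simp
        have h5 := congrArg Complex.re h4
        rw [Complex.re_ofReal_mul, Complex.neg_re] at h5
        exact h5
      rw [h1]
      simp only [RCLike.re_to_complex]
      linarith
    set P : ℝ := (1 - θ - ‖a‖ ^ 2) / ‖u‖ ^ 2 + ‖c‖ ^ 2 with hP
    have hA1 : tt a / 2 ≤ 1 - θ - ‖a‖ ^ 2 := by rw [hna]; linarith
    have hZ1 : tt z / 2 ≤ 1 - θ - ‖z‖ ^ 2 := by rw [hnz]; linarith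
    have hP0 : 0 < P := by
      have h1 : 0 < (1 - θ - ‖a‖ ^ 2) / ‖u‖ ^ 2 := by
        apply div_pos _ (by positivity)
        linarith
      have := sq_nonneg ‖c‖
      linarith
    have hkey : ∀ μ : ℂ, ‖u‖ ^ 2 * (P - ‖μ - c‖ ^ 2) = 1 - θ - ‖a + μ • u‖ ^ 2 := by
      intro μ
      rw [hsq μ, hP]
      field_simp
      ring
    set ϱ : ℝ := Real.sqrt P with hϱ
    have hϱ0 : 0 < ϱ := Real.sqrt_pos.2 hP0
    have hϱ2 : ϱ ^ 2 = P := Real.sq_sqrt hP0.le
    have hin : ∀ μ ∈ ball c ϱ, ‖a + μ • u‖ < 1 ∧ θ ≤ tt (a + μ • u) := by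
      intro μ hμ
      rw [mem_ball, dist_eq_norm] at hμ
      have h1 : ‖μ - c‖ ^ 2 < P := by
        rw [← hϱ2]
        exact pow_lt_pow_left₀ hμ (norm_nonneg _) two_ne_zero
      have h2 : 0 < 1 - θ - ‖a + μ • u‖ ^ 2 := by
        rw [← hkey]
        apply mul_pos (by positivity)
        linarith
      constructor
      · by_contra hcon
        push Not at hcon
        nlinarith
      · unfold tt
        linarith
    have hQ0 : 0 < (1 / θ) ^ n := by positivity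
    have hℓd : Differentiable ℂ (fun μ : ℂ => a + μ • u) :=
      (differentiable_const a).add (differentiable_id.smul_const u)
    have hmaps : Set.MapsTo (fun μ : ℂ => a + μ • u) (ball c ϱ) (ball 0 1) := by
      intro μ hμ
      rw [mem_ball, dist_zero_right]
      exact (hin μ hμ).1
    have hbd : DifferentiableOn ℂ (fun μ : ℂ => m (a + μ • u)) (ball c ϱ) :=
      hm.comp hℓd.differentiableOn hmaps
    have hkd : DifferentiableOn ℂ (fun μ : ℂ => h (a + μ • u) * (((θ ^ n : ℝ)) : ℂ)) (ball c ϱ) :=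
      (hh.comp hℓd.differentiableOn hmaps).mul (differentiableOn_const _)
    have hr0 : ‖(0 : ℂ) - c‖ ^ 2 < P := by
      have h1 := hkey 0
      rw [zero_smul, add_zero] at h1
      have h2 : 0 < ‖u‖ ^ 2 * (P - ‖(0 : ℂ) - c‖ ^ 2) := by rw [h1]; linarith
      have h3 := (mul_pos_iff_of_pos_left (by positivity : 0 < ‖u‖ ^ 2)).1 h2
      linarith
    have hr1 : ‖(1 : ℂ) - c‖ ^ 2 < P := by
      have h1 := hkey 1
      rw [one_smul, hu, add_sub_cancel, ← hu] at h1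
      have h2 : 0 < ‖u‖ ^ 2 * (P - ‖(1 : ℂ) - c‖ ^ 2) := by rw [h1]; linarith
      have h3 := (mul_pos_iff_of_pos_left (by positivity : 0 < ‖u‖ ^ 2)).1 h2
      linarith
    have hlt : ∀ x : ℂ, ‖x - c‖ ^ 2 < P → ‖x - c‖ < ϱ := by
      intro x hx
      rw [hϱ]
      exact Real.lt_sqrt_of_sq_lt hx
    have hKL := KL4 (b := fun μ : ℂ => m (a + μ • u)) (k := fun μ : ℂ => h (a + μ • u) *
      (((θ ^ n : ℝ)) : ℂ)) hϱ0 hbd hkd (fun x hx => hm1 _ (hin x hx).1)
      (by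
        intro x hx
        obtain ⟨hx1, hx2⟩ := hin x hx
        have h1 := hmh _ hx1
        have h2 : (1 / tt (a + x • u)) ^ n ≤ (1 / θ) ^ n :=
          pow_le_pow_left₀ (by
            have := (htpos _ hx1).1
            positivity) (one_div_le_one_div_of_le hθ0 hx2) n
        have h3 : h (a + x • u) * (((θ ^ n : ℝ)) : ℂ) * m (a + x • u)
            = (m (a + x • u) * h (a + x • u)) * (((θ ^ n : ℝ)) : ℂ) := by ring
        rw [h3, norm_mul, Complex.norm_real, Real.norm_of_nonneg (by positivity)]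
        calc ‖m (a + x • u) * h (a + x • u)‖ * θ ^ n ≤ (1 / θ) ^ n * θ ^ n :=
              mul_le_mul_of_nonneg_right (h1.trans h2) (by positivity)
          _ = 1 := by
              rw [← mul_pow, one_div_mul_cancel hθ0.ne', one_pow])
      (z₀ := 0) (z₁ := 1) (hlt 0 hr0) (hlt 1 hr1) (by simpa using hma)
    simp only [one_smul, zero_smul, add_zero] at hKL
    rw [show a + u = z by rw [hu]; abel] at hKL
    rw [← hLg, hϱ2] at hKL
    have hk0 := hkey 0
    have hk1 := hkey 1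
    rw [zero_smul, add_zero] at hk0
    rw [one_smul, show a + u = z by rw [hu]; abel] at hk1
    have hu4 : ‖u‖ ≤ 2 := by
      calc ‖u‖ ≤ ‖z‖ + ‖a‖ := norm_sub_le _ _
        _ ≤ 2 := by linarith
    have hPu : ‖u‖ ^ 2 * P ≤ 1 := by
      have h1 := hkey c
      rw [sub_self, norm_zero] at h1
      have h2 := sq_nonneg ‖a + c • u‖
      nlinarith
    have hratio : P * ‖(0 : ℂ) - 1‖ ^ 2 / ((P - ‖(0 : ℂ) - c‖ ^ 2) * (P - ‖(1 : ℂ) - c‖ ^ 2)) ≤
        16 / (tt a * tt z) := by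
      have e1 : ‖(0 : ℂ) - 1‖ = 1 := by simp
      rw [e1, one_pow, mul_one]
      set X := P - ‖(0 : ℂ) - c‖ ^ 2 with hX
      set Y := P - ‖(1 : ℂ) - c‖ ^ 2 with hY
      have hX0 : 0 < X := by linarith
      have hY0 : 0 < Y := by linarith
      rw [div_le_div_iff₀ (by positivity) (by positivity)]
      have h1 : tt a / 2 ≤ ‖u‖ ^ 2 * X := by linarith
      have h2 : tt z / 2 ≤ ‖u‖ ^ 2 * Y := by linarith
      have h3 : tt a / 2 * (tt z / 2) ≤ (‖u‖ ^ 2 * X) * (‖u‖ ^ 2 * Y) :=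
        mul_le_mul h1 h2 (by positivity) (by positivity)
      have h4 : P * (tt a * tt z) ≤ 4 * (P * ‖u‖ ^ 2) * (‖u‖ ^ 2 * (X * Y)) := by
        calc P * (tt a * tt z) = 4 * P * (tt a / 2 * (tt z / 2)) := by ring
          _ ≤ 4 * P * ((‖u‖ ^ 2 * X) * (‖u‖ ^ 2 * Y)) :=
              mul_le_mul_of_nonneg_left h3 (by positivity)
          _ = _ := by ring
      have h5 : ‖u‖ ^ 2 ≤ 4 := by nlinarith
      have h6 : 0 < X * Y := by positivity
      have h7 : 4 * (P * ‖u‖ ^ 2) * (‖u‖ ^ 2 * (X * Y)) ≤ 4 * 1 * (4 * (X * Y)) := by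
        apply mul_le_mul
        · rw [mul_comm P]
          linarith
        · exact mul_le_mul_of_nonneg_right h5 h6.le
        · positivity
        · norm_num
      linarith
    have hH : 4 * (1 + P * ‖(0 : ℂ) - 1‖ ^ 2 / ((P - ‖(0 : ℂ) - c‖ ^ 2) *
        (P - ‖(1 : ℂ) - c‖ ^ 2))) ≤ 68 / (tt a * tt z) := by
      have h1 : (1 : ℝ) ≤ 1 / (tt a * tt z) := by
        rw [le_div_iff₀ (by positivity)]
        nlinarith
      have h2 : 68 / (tt a * tt z) = 4 * (1 / (tt a * tt z) + 16 / (tt a * tt z)) := by ring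
      rw [h2]
      linarith
    have h1 : ‖h z‖ * θ ^ n ≤ Real.exp (68 / (tt a * tt z) * Lg) := by
      rw [norm_mul, Complex.norm_real, Real.norm_of_nonneg (by positivity)] at hKL
      refine hKL.trans ?_
      apply Real.exp_le_exp.2
      exact mul_le_mul_of_nonneg_right hH hLg0
    have h2 : ‖h z‖ ≤ (1 / θ) ^ n * Real.exp (68 / (tt a * tt z) * Lg) := by
      have h3 : ‖h z‖ = (1 / θ) ^ n * (‖h z‖ * θ ^ n) := by
        have h4 : (1 / θ) ^ n * θ ^ n = 1 := by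
          rw [← mul_pow, one_div_mul_cancel hθ0.ne', one_pow]
        calc ‖h z‖ = ‖h z‖ * 1 := by ring
          _ = ‖h z‖ * ((1 / θ) ^ n * θ ^ n) := by rw [h4]
          _ = _ := by ring
      rw [h3]
      exact mul_le_mul_of_nonneg_left h1 hQ0.le
    refine h2.trans ?_
    have h3 : 1 / θ ≤ 2 / (tt a * tt z) := by
      rw [div_le_div_iff₀ hθ0 (by positivity)]
      have h4 : tt a * tt z ≤ min (tt a) (tt z) := by
        apply le_min
        · nlinarith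
        · nlinarith
      rw [hθ]
      linarith
    have h4 : (1 / θ) ^ n ≤ Real.exp (n * (2 / (tt a * tt z))) :=
      (pow_le_pow_left₀ (by positivity) h3 n).trans (hxn _ (by positivity))
    calc (1 / θ) ^ n * Real.exp (68 / (tt a * tt z) * Lg)
        ≤ Real.exp (n * (2 / (tt a * tt z))) * Real.exp (68 / (tt a * tt z) * Lg) :=
          mul_le_mul_of_nonneg_right h4 (Real.exp_pos _).le
      _ = Real.exp ((68 * Lg + 2 * n) / tt a / tt z) := by
          rw [← Real.exp_add]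
          congr 1
          field_simp
          ring

end Pool.Agent.CRT
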