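import Pool.Agent.CRT.F1

/-!
# [G2x] Siegel coordinates
-/

set_option autoImplicit false

namespace Pool.Agent.CRT

open Metric

/-- the point with the coordinates `w` and `β ⊥ p`: `z₁ = (w-1)/(w+1)`, `z' = 2β/(w+1)` -/
noncomputable def Zm {d : ℕ} (p β : E d) (w : ℂ) : E d := p + (2 / (w + 1)) • (β - p)

theorem G2x_brpp {d : ℕ} {p : E d} (hp : ‖p‖ = 1) : br p p = 1 := by
  unfold br
  rw [inner_self_eq_norm_sq_to_K, hp]
  simp

theorem G2x_br {d : ℕ} {p β : E d} (hp : ‖p‖ = 1) (hβ : br β p = 0) (w : ℂ) :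
    br (Zm p β w) p = 1 - 2 / (w + 1) := by
  unfold Zm
  have e : β - p = β + (-1 : ℂ) • p := by rw [neg_one_smul, sub_eq_add_neg]
  rw [br_add, br_smul, e, br_add, br_smul, hβ, G2x_brpp hp]
  ring

/-- facts: `1-z₁ = 2/(w+1)`, `z' = (2/(w+1))β`, `T = 2/|w+1|`, `t = 4(Re w - |β|²)/|w+1|²`,
so `t/T² = Re w - |β|²`, and `ww p z = w` -/
theorem G2z {d : ℕ} {p β : E d} (hp : ‖p‖ = 1) (hβ : br β p = 0) {w : ℂ} (hw : w + 1 ≠ 0) :
    lam p (Zm p β w) = 2 / (w + 1) ∧ pr p (Zm p β w) = (2 / (w + 1)) • β ∧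
    TT p (Zm p β w) = 2 / ‖w + 1‖ ∧ tt (Zm p β w) = 4 * (w.re - ‖β‖ ^ 2) / ‖w + 1‖ ^ 2 ∧
    tt (Zm p β w) / TT p (Zm p β w) ^ 2 = w.re - ‖β‖ ^ 2 ∧ ww p (Zm p β w) = w := by
  have hbr := G2x_br hp hβ w
  have h1 : lam p (Zm p β w) = 2 / (w + 1) := by
    unfold lam
    rw [hbr]
    ring
  have h2 : pr p (Zm p β w) = (2 / (w + 1)) • β := by
    unfold pr
    rw [hbr]
    unfold Zm
    module
  have h3 : TT p (Zm p β w) = 2 / ‖w + 1‖ := by
    unfold TT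
    rw [h1, norm_div]
    simp
  have hn : ‖w + 1‖ ≠ 0 := norm_ne_zero_iff.2 hw
  have hns : ‖w + 1‖ ^ 2 = (w.re + 1) ^ 2 + w.im ^ 2 := by
    rw [Complex.sq_norm, Complex.normSq_apply]
    simp
    ring
  have h4 : tt (Zm p β w) = 4 * (w.re - ‖β‖ ^ 2) / ‖w + 1‖ ^ 2 := by
    unfold tt
    rw [F1a hp, h2, hbr, norm_smul, mul_pow]
    have e1 : ‖2 / (w + 1)‖ ^ 2 = 4 / ‖w + 1‖ ^ 2 := by
      rw [norm_div, div_pow]
      norm_num
    have e2 : ‖1 - 2 / (w + 1)‖ ^ 2 = ((w.re - 1) ^ 2 + w.im ^ 2) / ‖w + 1‖ ^ 2 := by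
      have : 1 - 2 / (w + 1) = (w - 1) / (w + 1) := by
        field_simp
        ring
      rw [this, norm_div, div_pow]
      congr 1
      rw [Complex.sq_norm, Complex.normSq_apply]
      simp
      ring
    rw [e1, e2]
    field_simp
    rw [hns]
    ring
  have h5 : tt (Zm p β w) / TT p (Zm p β w) ^ 2 = w.re - ‖β‖ ^ 2 := by
    rw [h3, h4]
    field_simp
    ring
  refine ⟨h1, h2, h3, h4, h5, ?_⟩
  unfold ww
  rw [hbr]
  field_simp
  ring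

/-- if `Re w > |β|²` the point is in the ball -/
theorem G2b {d : ℕ} {p β : E d} (hp : ‖p‖ = 1) (hβ : br β p = 0) {w : ℂ}
    (hw : ‖β‖ ^ 2 < w.re) : ‖Zm p β w‖ < 1 ∧ w + 1 ≠ 0 := by
  have h0 : 0 ≤ ‖β‖ ^ 2 := by positivity
  have h1 : w + 1 ≠ 0 := by
    intro h
    have := congrArg Complex.re h
    simp at this
    linarith
  refine ⟨?_, h1⟩
  obtain ⟨-, -, -, h4, -, -⟩ := G2z hp hβ h1
  have h2 : 0 < ‖w + 1‖ := norm_pos_iff.2 h1
  have h3 : 0 < tt (Zm p β w) := by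
    rw [h4]
    have : 0 < w.re - ‖β‖ ^ 2 := by linarith
    positivity
  unfold tt at h3
  have h5 : ‖Zm p β w‖ ^ 2 < 1 := by linarith
  exact (sq_lt_one_iff₀ (norm_nonneg _)).1 h5

/-- every point of the ball has such coordinates: `β = z'/(1-z₁)`, `w = ww p z`, `|β| = |z'|/T` -/
theorem G2c {d : ℕ} {p z : E d} (hp : ‖p‖ = 1) (hz : ‖z‖ < 1) :
    br ((1 / lam p z) • pr p z) p = 0 ∧ Zm p ((1 / lam p z) • pr p z) (ww p z) = z ∧
    ‖(1 / lam p z) • pr p z‖ = ‖pr p z‖ / TT p z ∧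
    (ww p z).re - ‖(1 / lam p z) • pr p z‖ ^ 2 = tt z / TT p z ^ 2 := by
  obtain ⟨-, -, -, -, h5, h6⟩ := F2a (p := p) hp hz
  obtain ⟨-, -, -, hT, -, -, -⟩ := F1b (p := p) hp hz
  have hl : lam p z ≠ 0 := norm_pos_iff.1 hT
  have hb : br (pr p z) p = 0 := by
    unfold pr
    have e : z - br z p • p = z + (-(br z p)) • p := by rw [neg_smul, sub_eq_add_neg]
    rw [e, br_add, br_smul, G2x_brpp hp]
    ring
  have h1 : br ((1 / lam p z) • pr p z) p = 0 := by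
    rw [br_smul, hb, mul_zero]
  have hw : 2 / (ww p z + 1) = lam p z := h6.symm
  have h2 : Zm p ((1 / lam p z) • pr p z) (ww p z) = z := by
    unfold Zm
    rw [hw, smul_sub, smul_smul, mul_one_div_cancel hl, one_smul]
    unfold pr lam
    module
  refine ⟨h1, h2, ?_, ?_⟩
  · rw [norm_smul, norm_div, norm_one]
    unfold TT
    ring
  · obtain ⟨-, -, -, -, h7, -⟩ := G2z hp h1 h5
    rw [h2] at h7
    exact h7.symm

end Pool.Agent.CRT
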