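import Pool.Agent.CRT.F1
import Pool.Agent.CRT.G2x

/-!
# [G2y] The Phragmen-Lindelof bound
-/

set_option autoImplicit false

namespace Pool.Agent.CRT

open Metric

/-- Phragmén–Lindelöf.

Let `|m| ≤ e^{-aP}` (`P = t/T²`), `|mh| ≤ t^{-n}`, `h` bounded on the ball.  Then
`|mh| ≤ e^{aη} (ηT²)^{-n} e^{-aP}` where `P ≥ η`.

Proof.  Let `β` be the second coordinate of the point.  On the half plane `Re w > |β|²` consider
`g(w) = (m h)(Zm p β w) · (2/(w+1))^{2n}`; `|g| = |mh| T^{2n} ≤ (T²/t)^n = P^{-n}`, `P = Re w - |β|²`.  Let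
`G(w) = g(w) e^{a(w-|β|²-η)}` on the closed half plane `P ≥ η`: for `P = η`: `|G| ≤ η^{-n}`.  Moreover
`|G| ≤ |m||h|T^{2n}e^{a(P-η)} ≤ sup|h| · 4^n` is bounded.  By the Phragmén–Lindelöf principle in a half
plane (`PhragmenLindelof.right_half_plane_of_bounded_on_real` after translation) `|G| ≤ η^{-n}` for `P ≥ η`, i.e.
`|mh| T^{2n} e^{a(P-η)} ≤ η^{-n}`. -/
theorem G2 {d : ℕ} {m h : E d → ℂ} {p : E d} (hp : ‖p‖ = 1)
    (hm : DifferentiableOn ℂ m (ball 0 1)) (hh : DifferentiableOn ℂ h (ball 0 1)) {a : ℝ}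
    (ha : 0 ≤ a) (hma : ∀ z : E d, ‖z‖ < 1 → ‖m z‖ ≤ Real.exp (-(a * (tt z / TT p z ^ 2))))
    {n : ℕ} (hmh : ∀ z : E d, ‖z‖ < 1 → ‖m z * h z‖ ≤ (1 / tt z) ^ n) {Bh : ℝ}
    (hB : ∀ z : E d, ‖z‖ < 1 → ‖h z‖ ≤ Bh) {η : ℝ} (hη : 0 < η) {z : E d} (hz : ‖z‖ < 1)
    (hPη : η ≤ tt z / TT p z ^ 2) :
    ‖m z * h z‖ ≤ Real.exp (a * η) * (1 / (η * TT p z ^ 2)) ^ n *
      Real.exp (-(a * (tt z / TT p z ^ 2))) := by
  obtain ⟨hβp, hZw, hβn, hP⟩ := G2c hp hz
  set β : E d := (1 / lam p z) • pr p z with hβdef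
  set w₀ : ℂ := ww p z with hw₀
  obtain ⟨-, -, -, hT0, -, ht0, -⟩ := F1b hp hz
  set N1 : ℝ := ‖β‖ ^ 2 with hN1
  have hN10 : 0 ≤ N1 := by positivity
  -- the points of the half plane
  have hpt : ∀ ω : ℂ, -η < ω.re → ‖Zm p β (ω + ((N1 + η : ℝ) : ℂ))‖ < 1 ∧
      ω + ((N1 + η : ℝ) : ℂ) + 1 ≠ 0 := by
    intro ω hω
    apply G2b hp hβp
    rw [Complex.add_re, Complex.ofReal_re]
    linarith
  set G : ℂ → ℂ := fun ω => m (Zm p β (ω + ((N1 + η : ℝ) : ℂ))) *
    h (Zm p β (ω + ((N1 + η : ℝ) : ℂ))) * (2 / (ω + ((N1 + η : ℝ) : ℂ) + 1)) ^ (2 * n) *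
    Complex.exp ((a : ℂ) * ω) with hG
  have hZd : DifferentiableOn ℂ (fun ω : ℂ => Zm p β (ω + ((N1 + η : ℝ) : ℂ)))
      {ω : ℂ | -η < ω.re} := by
    intro ω hω
    apply DifferentiableAt.differentiableWithinAt
    have h1 := (hpt ω hω).2
    have hd : DifferentiableAt ℂ (fun ω : ℂ => 2 / (ω + ((N1 + η : ℝ) : ℂ) + 1)) ω :=
      (differentiableAt_const _).div ((differentiableAt_id.add_const _).add_const _) h1
    exact (differentiableAt_const p).add (hd.smul (differentiableAt_const _))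
  have hmaps : Set.MapsTo (fun ω : ℂ => Zm p β (ω + ((N1 + η : ℝ) : ℂ))) {ω : ℂ | -η < ω.re}
      (ball 0 1) := by
    intro ω hω
    rw [mem_ball_zero_iff]
    exact (hpt ω hω).1
  have hGd : DifferentiableOn ℂ G {ω : ℂ | -η < ω.re} := by
    have h1 : DifferentiableOn ℂ (fun ω : ℂ => m (Zm p β (ω + ((N1 + η : ℝ) : ℂ))))
        {ω : ℂ | -η < ω.re} := hm.comp hZd hmaps
    have h2 : DifferentiableOn ℂ (fun ω : ℂ => h (Zm p β (ω + ((N1 + η : ℝ) : ℂ))))
        {ω : ℂ | -η < ω.re} := hh.comp hZd hmaps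
    have h3 : DifferentiableOn ℂ (fun ω : ℂ => (2 / (ω + ((N1 + η : ℝ) : ℂ) + 1)) ^ (2 * n))
        {ω : ℂ | -η < ω.re} := by
      intro ω hω
      apply DifferentiableAt.differentiableWithinAt
      have h1 := (hpt ω hω).2
      have hd : DifferentiableAt ℂ (fun ω : ℂ => 2 / (ω + ((N1 + η : ℝ) : ℂ) + 1)) ω :=
        (differentiableAt_const _).div ((differentiableAt_id.add_const _).add_const _) h1
      exact hd.pow _
    have h4 : Differentiable ℂ (fun ω : ℂ => Complex.exp ((a : ℂ) * ω)) := by fun_prop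
    exact ((h1.mul h2).mul h3).mul h4.differentiableOn
  -- the norm of `G`
  have hGn : ∀ ω : ℂ, -η < ω.re → ‖G ω‖ =
      ‖m (Zm p β (ω + ((N1 + η : ℝ) : ℂ))) * h (Zm p β (ω + ((N1 + η : ℝ) : ℂ)))‖ *
        (TT p (Zm p β (ω + ((N1 + η : ℝ) : ℂ))) ^ 2) ^ n * Real.exp (a * ω.re) := by
    intro ω hω
    have h1 := (G2z hp hβp (hpt ω hω).2).2.2.1
    rw [hG]
    simp only
    rw [norm_mul, norm_mul, norm_pow, Complex.norm_exp, ← pow_mul, h1, norm_div]
    congr 2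
    · simp
    · simp
  have hPω : ∀ ω : ℂ, -η < ω.re → tt (Zm p β (ω + ((N1 + η : ℝ) : ℂ))) /
      TT p (Zm p β (ω + ((N1 + η : ℝ) : ℂ))) ^ 2 = ω.re + η := by
    intro ω hω
    rw [(G2z hp hβp (hpt ω hω).2).2.2.2.2.1, Complex.add_re, Complex.ofReal_re]
    ring
  have hcl : closure {ω : ℂ | 0 < ω.re} ⊆ {ω : ℂ | -η < ω.re} := by
    rw [Complex.closure_setOfPred_lt_re]
    intro ω hω
    have : 0 ≤ ω.re := hω
    show -η < ω.re
    linarith
  -- boundedness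
  have hbd : ∀ ω : ℂ, 0 ≤ ω.re → ‖G ω‖ ≤ |Bh| * 4 ^ n := by
    intro ω hω
    have hω' : -η < ω.re := by linarith
    have hb := (hpt ω hω').1
    obtain ⟨-, -, -, hTp, hT2, -, -⟩ := F1b hp hb
    rw [hGn ω hω', norm_mul]
    have h1 := hma _ hb
    rw [hPω ω hω'] at h1
    have h2 : ‖h (Zm p β (ω + ((N1 + η : ℝ) : ℂ)))‖ ≤ |Bh| := (hB _ hb).trans (le_abs_self _)
    have h3 : (TT p (Zm p β (ω + ((N1 + η : ℝ) : ℂ))) ^ 2) ^ n ≤ 4 ^ n := by
      apply pow_le_pow_left₀ (by positivity)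
      nlinarith
    calc ‖m (Zm p β (ω + ((N1 + η : ℝ) : ℂ)))‖ * ‖h (Zm p β (ω + ((N1 + η : ℝ) : ℂ)))‖ *
          (TT p (Zm p β (ω + ((N1 + η : ℝ) : ℂ))) ^ 2) ^ n * Real.exp (a * ω.re) ≤
          Real.exp (-(a * (ω.re + η))) * |Bh| * 4 ^ n * Real.exp (a * ω.re) := by
          gcongr
      _ = |Bh| * 4 ^ n * Real.exp (-(a * η)) := by
          have : Real.exp (-(a * η)) = Real.exp (-(a * (ω.re + η))) * Real.exp (a * ω.re) := by
            rw [← Real.exp_add]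
            congr 1
            ring
          rw [this]
          ring
      _ ≤ |Bh| * 4 ^ n * 1 := by
          apply mul_le_mul_of_nonneg_left _ (by positivity)
          rw [Real.exp_le_one_iff]
          have := mul_nonneg ha hη.le
          linarith
      _ = _ := mul_one _
  -- the boundary
  have him : ∀ x : ℝ, ‖G (x * Complex.I)‖ ≤ (1 / η) ^ n := by
    intro x
    have hre : ((x : ℂ) * Complex.I).re = 0 := by simp
    have hω' : -η < ((x : ℂ) * Complex.I).re := by rw [hre]; linarith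
    have hb := (hpt _ hω').1
    obtain ⟨-, -, -, hTp, hT2, htp, -⟩ := F1b hp hb
    have h1 := hPω _ hω'
    rw [hre, zero_add] at h1
    rw [hGn _ hω', hre, mul_zero, Real.exp_zero, mul_one]
    have h2 := hmh _ hb
    calc _ ≤ (1 / tt (Zm p β (x * Complex.I + ((N1 + η : ℝ) : ℂ)))) ^ n *
          (TT p (Zm p β (x * Complex.I + ((N1 + η : ℝ) : ℂ))) ^ 2) ^ n :=
          mul_le_mul_of_nonneg_right h2 (by positivity)
      _ = (1 / η) ^ n := by
          rw [← mul_pow]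
          congr 1
          have h3 := (div_eq_iff (by positivity)).1 h1
          rw [eq_div_iff hη.ne', one_div, inv_mul_eq_div, div_mul_eq_mul_div,
            div_eq_one_iff_eq htp.ne', h3]
          ring
  have hPL : ∀ ω : ℂ, 0 ≤ ω.re → ‖G ω‖ ≤ (1 / η) ^ n := by
    intro ω hω
    refine PhragmenLindelof.right_half_plane_of_bounded_on_real
      (hGd.mono hcl).diffContOnCl ?_ ?_ him hω
    · refine ⟨1, by norm_num, 0, ?_⟩
      apply Asymptotics.IsBigO.of_bound (|Bh| * 4 ^ n)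
      rw [Filter.eventually_inf_principal]
      refine Filter.Eventually.of_forall fun ω hω => ?_
      have := hbd ω (le_of_lt hω)
      simpa using this
    · refine ⟨|Bh| * 4 ^ n, ?_⟩
      rw [Filter.eventually_map]
      filter_upwards [Filter.eventually_ge_atTop (0 : ℝ)] with x hx
      exact hbd x (by simpa using hx)
  -- evaluate
  have hev := hPL (w₀ - ((N1 + η : ℝ) : ℂ)) (by
    rw [Complex.sub_re, Complex.ofReal_re]
    linarith)
  have hω' : -η < (w₀ - ((N1 + η : ℝ) : ℂ)).re := by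
    rw [Complex.sub_re, Complex.ofReal_re]
    linarith
  rw [hGn _ hω', sub_add_cancel, hZw, Complex.sub_re, Complex.ofReal_re] at hev
  have hT2 : 0 < TT p z ^ 2 := by positivity
  have hP' : w₀.re - N1 = tt z / TT p z ^ 2 := hP
  have hT2n : 0 < (TT p z ^ 2) ^ n := by positivity
  set P : ℝ := tt z / TT p z ^ 2 with hPd
  have e1 : w₀.re - (N1 + η) = P - η := by linarith
  rw [e1] at hev
  have hE : 0 < Real.exp (a * (P - η)) := Real.exp_pos _
  have e2 : Real.exp (a * η) * (1 / (η * TT p z ^ 2)) ^ n * Real.exp (-(a * P)) =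
      (1 / η) ^ n / ((TT p z ^ 2) ^ n * Real.exp (a * (P - η))) := by
    rw [eq_div_iff (by positivity)]
    have e3 : Real.exp (a * η) * Real.exp (-(a * P)) * Real.exp (a * (P - η)) = 1 := by
      rw [← Real.exp_add, ← Real.exp_add, Real.exp_eq_one_iff]
      ring
    have e4 : (1 / (η * TT p z ^ 2)) ^ n * (TT p z ^ 2) ^ n = (1 / η) ^ n := by
      rw [← mul_pow]
      congr 1
      field_simp
    calc _ = (Real.exp (a * η) * Real.exp (-(a * P)) * Real.exp (a * (P - η))) *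
          ((1 / (η * TT p z ^ 2)) ^ n * (TT p z ^ 2) ^ n) := by ring
      _ = _ := by rw [e3, e4, one_mul]
  rw [e2, le_div_iff₀ (by positivity)]
  linarith

end Pool.Agent.CRT
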