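import Mathlib

/-!
# [G3] Large values of a bounded function in the right half plane
-/

set_option autoImplicit false

namespace Pool.Agent.CRT

/-- the exponent -/
noncomputable def G3g (ε X : ℝ) (ω : ℂ) : ℂ := 2 * (ε : ℂ) * ω + (ε : ℂ) / (X : ℂ) ^ 2 * ω ^ 3

theorem G3_re (ε X : ℝ) (ω : ℂ) :
    (G3g ε X ω).re = 2 * ε * ω.re + ε / X ^ 2 * (ω.re ^ 3 - 3 * ω.re * ω.im ^ 2) := by
  have e1 : (2 * (ε : ℂ) * ω).re = 2 * ε * ω.re := by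
    have : (2 * (ε : ℂ)) = ((2 * ε : ℝ) : ℂ) := by push_cast; ring
    rw [this, Complex.re_ofReal_mul]
  have e2 : ((ε : ℂ) / (X : ℂ) ^ 2 * ω ^ 3).re = ε / X ^ 2 * (ω ^ 3).re := by
    have : (ε : ℂ) / (X : ℂ) ^ 2 = ((ε / X ^ 2 : ℝ) : ℂ) := by push_cast; ring
    rw [this, Complex.re_ofReal_mul]
  have e3 : (ω ^ 3).re = ω.re ^ 3 - 3 * ω.re * ω.im ^ 2 := by
    simp only [pow_succ, pow_zero, one_mul, Complex.mul_re, Complex.mul_im]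
    ring
  unfold G3g
  rw [Complex.add_re, e1, e2, e3]

/-- on the arc -/
theorem G3_arc {ε X : ℝ} (hε : 0 < ε) (hX : 0 < X) {ω : ℂ} (h : ‖ω‖ = X) :
    (G3g ε X ω).re = -(ε * ω.re) + 4 * ε * ω.re ^ 3 / X ^ 2 := by
  have h1 : X ^ 2 = ω.re ^ 2 + ω.im ^ 2 := by
    rw [← h, Complex.sq_norm, Complex.normSq_apply]
    ring
  have h2 : ω.im ^ 2 = X ^ 2 - ω.re ^ 2 := by linarith
  rw [G3_re, h2]
  field_simp
  ring

theorem G3_arc1 {ε X : ℝ} (hε : 0 < ε) (hX : 0 < X) {ω : ℂ} (h : ‖ω‖ = X) (h0 : 0 ≤ ω.re) :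
    (G3g ε X ω).re ≤ 3 * X * ε := by
  rw [G3_arc hε hX h]
  have h1 : ω.re ≤ X := by
    rw [← h]
    exact Complex.re_le_norm ω
  have h2 : 4 * ε * ω.re ^ 3 / X ^ 2 ≤ 4 * ε * ω.re := by
    rw [div_le_iff₀ (by positivity)]
    have : ω.re ^ 2 ≤ X ^ 2 := by gcongr
    have h3 : 0 ≤ 4 * ε * ω.re := by positivity
    nlinarith
  nlinarith

theorem G3_arc2 {ε X : ℝ} (hε : 0 < ε) (hX : 0 < X) {ω : ℂ} (h : ‖ω‖ = X) (h0 : 0 ≤ ω.re)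
    (h2 : ω.re ≤ X / 2) : (G3g ε X ω).re ≤ 0 := by
  rw [G3_arc hε hX h]
  have h3 : 4 * ε * ω.re ^ 3 / X ^ 2 ≤ ε * ω.re := by
    rw [div_le_iff₀ (by positivity)]
    have : ω.re ^ 2 ≤ (X / 2) ^ 2 := by gcongr
    have h3 : 0 ≤ ε * ω.re := by positivity
    nlinarith
  linarith

theorem G3_line {ε X κ : ℝ} (hε : 0 < ε) (hX : 0 < X) {ω : ℂ} (h0 : 0 < κ) (h : ω.re = κ)
    (h2 : κ ≤ X) : (G3g ε X ω).re ≤ 3 * ε * κ := by
  rw [G3_re, h]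
  have h3 : ε / X ^ 2 * (κ ^ 3 - 3 * κ * ω.im ^ 2) ≤ ε / X ^ 2 * κ ^ 3 := by
    have : 0 ≤ 3 * κ * ω.im ^ 2 := by positivity
    have : κ ^ 3 - 3 * κ * ω.im ^ 2 ≤ κ ^ 3 := by linarith
    gcongr
  have h4 : ε / X ^ 2 * κ ^ 3 ≤ ε * κ := by
    rw [div_mul_eq_mul_div, div_le_iff₀ (by positivity)]
    have : κ ^ 2 ≤ X ^ 2 := by gcongr
    have h3 : 0 ≤ ε * κ := by positivity
    nlinarith
  linarith

theorem G3_low {ε X : ℝ} (hε : 0 < ε) (hX : 0 < X) {ω : ℂ} (h0 : 0 < ω.re)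
    (h : ‖ω‖ ^ 3 / ω.re ≤ X ^ 2) : ε * ω.re ≤ (G3g ε X ω).re := by
  have e3 : (ω ^ 3).re = ω.re ^ 3 - 3 * ω.re * ω.im ^ 2 := by
    simp only [pow_succ, pow_zero, one_mul, Complex.mul_re, Complex.mul_im]
    ring
  rw [G3_re, ← e3]
  have h1 : -(‖ω‖ ^ 3) ≤ (ω ^ 3).re := by
    have := Complex.abs_re_le_norm (ω ^ 3)
    rw [norm_pow] at this
    exact (abs_le.1 this).1
  rw [div_le_iff₀ h0] at h
  have h2 : -(ε * ω.re) ≤ ε / X ^ 2 * (ω ^ 3).re := by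
    rw [div_mul_eq_mul_div, le_div_iff₀ (by positivity)]
    nlinarith
  linarith

/-- Let `b` be holomorphic on the right half plane, `|b| ≤ 1`, `b(ω₀) ≠ 0`, `log(1/|b(ω₀)|) < ε Re ω₀`.
Then for all large `X` there is `ξ` with `|ξ| = X`, `Re ξ ≥ X/2`, `|b(ξ)| ≥ e^{-3Xε}`.

Proof.  Suppose not, for some `X > |ω₀|` with `X² ≥ |ω₀|³/Re ω₀`; put `V = 3Xε`.  On the half disc
`D = {|ω| < X, Re ω > 0}` let `F(ω) = b(ω) exp((2V/3)(ω/X + (1/2)(ω/X)³))`.  For `ω = Xe^{iθ}`: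
`Re(e^{iθ} + e^{3iθ}/2) = cos θ + cos(3θ)/2 = cos θ (2cos²θ - 1/2)`, which is `≤ 3/2`, and is `≤ 0` for
`π/3 ≤ |θ| ≤ π/2` (`0 ≤ cos θ ≤ 1/2`).  So on the arc `|θ| ≤ π/3` (i.e. `Re ω ≥ X/2`), where `|b| < e^{-V}`:
`|F| ≤ e^{-V}e^{V} = 1`; on the rest of the arc `|F| ≤ |b| ≤ 1`.  On the imaginary axis
`Re(ω/X+(ω/X)³/2) = 0`, and `b` is not defined there, so apply the maximum principle on
`D_κ = {|ω| < X, Re ω > κ}`, `κ → 0+`: for `Re ω = κ`, `|F| ≤ exp((2V/3) Re(ω/X+(ω/X)³/2)) ≤ exp((2V/3)·(5/2)κ/X)`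
(`|Re (ω/X)³| ≤ 3κ/X`), which tends to `1`.  Hence `|F(ω₀)| ≤ 1`, i.e.
`|b(ω₀)| ≤ exp(-(2V/3)Re(ω₀/X+(ω₀/X)³/2)) ≤ exp(-2ε(Re ω₀ - |ω₀|³/(2X²))) ≤ exp(-ε Re ω₀) < |b(ω₀)|`.
Contradiction.  (Maximum principle: `Complex.norm_le_of_forall_mem_frontier_norm_le` on the bounded set
`D_κ`.) -/
theorem G3 {b : ℂ → ℂ} (hb : DifferentiableOn ℂ b {ω : ℂ | 0 < ω.re})
    (hb1 : ∀ ω : ℂ, 0 < ω.re → ‖b ω‖ ≤ 1) {ω₀ : ℂ} (hω₀ : 0 < ω₀.re) (h0 : b ω₀ ≠ 0) {ε : ℝ}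
    (hε : 0 < ε) (hlog : Real.log (1 / ‖b ω₀‖) < ε * ω₀.re) :
    ∃ X₀ : ℝ, 0 < X₀ ∧ ∀ X : ℝ, X₀ ≤ X → ∃ ξ : ℂ, ‖ξ‖ = X ∧ X / 2 ≤ ξ.re ∧
      Real.exp (-(3 * X * ε)) ≤ ‖b ξ‖ := by
  refine ⟨max (‖ω₀‖ + 1) (‖ω₀‖ ^ 3 / ω₀.re + 1), ?_, fun X hX => ?_⟩
  · exact lt_of_lt_of_le (by positivity) (le_max_left _ _)
  have hX1 : ‖ω₀‖ + 1 ≤ X := (le_max_left _ _).trans hX
  have hX2 : ‖ω₀‖ ^ 3 / ω₀.re + 1 ≤ X := (le_max_right _ _).trans hX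
  have hXpos : 1 ≤ X := by linarith [norm_nonneg ω₀]
  have hX0 : 0 < X := by linarith
  have hX3 : ‖ω₀‖ ^ 3 / ω₀.re ≤ X ^ 2 := by nlinarith
  by_contra hcon
  push Not at hcon
  have hb0 : 0 < ‖b ω₀‖ := norm_pos_iff.2 h0
  rw [one_div, Real.log_inv] at hlog
  set η : ℝ := Real.log ‖b ω₀‖ + ε * ω₀.re with hη
  have hη0 : 0 < η := by linarith
  set κ : ℝ := min (ω₀.re / 2) (η / (6 * ε)) with hκ
  have hκ0 : 0 < κ := lt_min (by positivity) (by positivity)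
  have hκ1 : κ < ω₀.re := lt_of_le_of_lt (min_le_left _ _) (by linarith)
  have hκ2 : 3 * ε * κ ≤ η / 2 := by
    have h1 : κ ≤ η / (6 * ε) := min_le_right _ _
    rw [le_div_iff₀ (by positivity)] at h1
    linarith
  have hre : ω₀.re ≤ ‖ω₀‖ := Complex.re_le_norm ω₀
  have hκX : κ ≤ X := by linarith
  let U : Set ℂ := {ω : ℂ | ‖ω‖ < X ∧ κ < ω.re}
  have hUo : IsOpen U :=
    (isOpen_lt continuous_norm continuous_const).inter (isOpen_lt continuous_const Complex.continuous_re)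
  have hUb : Bornology.IsBounded U :=
    (Metric.isBounded_ball (x := (0 : ℂ)) (r := X)).subset fun ω hω => by
      rw [mem_ball_zero_iff]
      exact hω.1
  have hcl : closure U ⊆ {ω : ℂ | ‖ω‖ ≤ X ∧ κ ≤ ω.re} := by
    refine closure_minimal (fun ω hω => ⟨hω.1.le, hω.2.le⟩) ?_
    exact (isClosed_le continuous_norm continuous_const).inter
      (isClosed_le continuous_const Complex.continuous_re)
  have hFd : DifferentiableOn ℂ (fun ω => b ω * Complex.exp (G3g ε X ω)) {ω : ℂ | 0 < ω.re} := by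
    refine hb.mul (Differentiable.differentiableOn ?_)
    unfold G3g
    fun_prop
  have hFc : DiffContOnCl ℂ (fun ω => b ω * Complex.exp (G3g ε X ω)) U := by
    refine DifferentiableOn.diffContOnCl (hFd.mono fun ω hω => ?_)
    exact lt_of_lt_of_le hκ0 (hcl hω).2
  have hFn : ∀ ω : ℂ, ‖b ω * Complex.exp (G3g ε X ω)‖ = ‖b ω‖ * Real.exp (G3g ε X ω).re := by
    intro ω
    rw [norm_mul, Complex.norm_exp]
  have hfr : ∀ ω ∈ frontier U, ‖b ω * Complex.exp (G3g ε X ω)‖ ≤ Real.exp (3 * ε * κ) := by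
    intro ω hω
    rw [hUo.frontier_eq] at hω
    obtain ⟨h1, h2⟩ := hω
    obtain ⟨h3, h4⟩ := hcl h1
    have h5 : 0 < ω.re := lt_of_lt_of_le hκ0 h4
    have hbω := hb1 ω h5
    have hone : 1 ≤ Real.exp (3 * ε * κ) := Real.one_le_exp (by positivity)
    rw [hFn]
    rcases h3.lt_or_eq with h6 | h6
    · have h7 : ω.re = κ := by
        by_contra h8
        exact h2 ⟨h6, lt_of_le_of_ne h4 (Ne.symm h8)⟩
      have h9 := G3_line (ω := ω) hε hX0 hκ0 h7 hκX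
      calc ‖b ω‖ * Real.exp (G3g ε X ω).re ≤ 1 * Real.exp (3 * ε * κ) := by gcongr
        _ = _ := one_mul _
    · rcases le_or_gt (X / 2) ω.re with h7 | h7
      · have h8 := hcon ω h6 h7
        have h9 := G3_arc1 hε hX0 h6 h5.le
        calc ‖b ω‖ * Real.exp (G3g ε X ω).re ≤ Real.exp (-(3 * X * ε)) * Real.exp (3 * X * ε) := by
              gcongr
          _ = 1 := by rw [← Real.exp_add, neg_add_cancel, Real.exp_zero]
          _ ≤ _ := hone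
      · have h9 := G3_arc2 hε hX0 h6 h5.le h7.le
        have h10 : Real.exp (G3g ε X ω).re ≤ 1 := Real.exp_le_one_iff.2 h9
        calc ‖b ω‖ * Real.exp (G3g ε X ω).re ≤ 1 * 1 := by gcongr
          _ = 1 := one_mul _
          _ ≤ _ := hone
  have hmem : ω₀ ∈ closure U := subset_closure ⟨by linarith, hκ1⟩
  have hmax := Complex.norm_le_of_forall_mem_frontier_norm_le hUb hFc hfr hmem
  rw [hFn] at hmax
  have hlow := G3_low hε hX0 hω₀ hX3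
  have h1 : ‖b ω₀‖ * Real.exp (ε * ω₀.re) ≤ Real.exp (3 * ε * κ) := by
    refine le_trans ?_ hmax
    gcongr
  have h2 := Real.log_le_log (by positivity) h1
  rw [Real.log_mul hb0.ne' (Real.exp_pos _).ne', Real.log_exp, Real.log_exp] at h2
  linarith

end Pool.Agent.CRT
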