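import Pool.Agent.CRT.G2
import Pool.Agent.CRT.G3

/-!
# [G4] The exact decay rate of `m` at `p`
-/

set_option autoImplicit false

namespace Pool.Agent.CRT

open Metric

theorem G4_P {d : ℕ} {p z : E d} (hp : ‖p‖ = 1) (hz : ‖z‖ < 1) : 0 < tt z / TT p z ^ 2 := by
  obtain ⟨-, -, -, hT, -, ht, -⟩ := F1b (p := p) hp hz
  positivity

theorem G4_re (ω : ℂ) (x : ℝ) : (ω + ((x : ℝ) : ℂ)).re = ω.re + x := by simp

theorem G4_diff {d : ℕ} {p β : E d} (hp : ‖p‖ = 1) (hβ : br β p = 0) {m : E d → ℂ}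
    (hm : DifferentiableOn ℂ m (ball 0 1)) (a : ℝ) :
    DifferentiableOn ℂ (fun ω : ℂ => m (Zm p β (ω + ((‖β‖ ^ 2 : ℝ) : ℂ))) * Complex.exp (a * ω))
      {ω : ℂ | 0 < ω.re} := by
  intro ω hω
  have hω' : 0 < ω.re := hω
  have h1 : ‖β‖ ^ 2 < (ω + ((‖β‖ ^ 2 : ℝ) : ℂ)).re := by
    rw [G4_re]
    linarith
  obtain ⟨h2, h3⟩ := G2b hp hβ h1
  have h4 : DifferentiableAt ℂ m (Zm p β (ω + ((‖β‖ ^ 2 : ℝ) : ℂ))) :=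
    hm.differentiableAt (isOpen_ball.mem_nhds (by simpa using h2))
  have h5 : DifferentiableAt ℂ (fun ω : ℂ => Zm p β (ω + ((‖β‖ ^ 2 : ℝ) : ℂ))) ω := by
    unfold Zm
    refine (differentiableAt_const p).add (DifferentiableAt.smul_const ?_ (β - p))
    refine (differentiableAt_const _).div ?_ h3
    fun_prop
  have h6 : DifferentiableAt ℂ (fun ω : ℂ => m (Zm p β (ω + ((‖β‖ ^ 2 : ℝ) : ℂ)))) ω :=
    DifferentiableAt.comp ω h4 h5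
  exact (h6.mul (by fun_prop)).differentiableWithinAt

/-- Let `m` be holomorphic on the ball, `|m| ≤ 1`, `m ≢ 0`, `p ∈ S`.  There is `a ≥ 0` with `|m| ≤ e^{-aP}` on the
ball (`P = t/T²`) and: for every `ε > 0` there are `β₀ ⊥ p` and `X₀` such that for all `X ≥ X₀` there is `ξ` with
`|ξ-|β₀|²| = X`, `Re ξ - |β₀|² ≥ X/2` and `|m(Zm p β₀ ξ)| ≥ exp(-a(Re ξ-|β₀|²) - 3Xε)`.

Proof.  Let `𝒜 = {a ≥ 0 : |m(z)| ≤ e^{-aP(z)} for all z in the ball}`; `0 ∈ 𝒜`; if `m(z₀) ≠ 0` then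
`a ≤ log(1/|m(z₀)|)/P(z₀)` for `a ∈ 𝒜`.  Let `a = sup 𝒜`; by continuity `a ∈ 𝒜`.  Given `ε > 0`, `a + ε ∉ 𝒜`, so there is
`z` with `|m(z)| > e^{-(a+ε)P(z)}`.  Let `β₀`, `w₀` be its coordinates (`G2c`), `P(z) = Re w₀-|β₀|²`, and
`b(ω) = m(Zm p β₀ (ω+|β₀|²)) e^{aω}`, `Re ω > 0`: holomorphic, `|b| ≤ 1` as `P = Re ω` at this point.  With
`ω₀ = w₀-|β₀|²`, `|b(ω₀)| > e^{-ε Re ω₀}`.  Apply `G3` and put `ξ = ξ' + |β₀|²`. -/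
theorem G4 {d : ℕ} {m : E d → ℂ} {p : E d} (hp : ‖p‖ = 1)
    (hm : DifferentiableOn ℂ m (ball 0 1)) (hm1 : ∀ z : E d, ‖z‖ < 1 → ‖m z‖ ≤ 1)
    (hm0 : ∃ z : E d, ‖z‖ < 1 ∧ m z ≠ 0) :
    ∃ a : ℝ, 0 ≤ a ∧
      (∀ z : E d, ‖z‖ < 1 → ‖m z‖ ≤ Real.exp (-(a * (tt z / TT p z ^ 2)))) ∧
      ∀ ε : ℝ, 0 < ε → ∃ (β₀ : E d) (X₀ : ℝ), br β₀ p = 0 ∧ 0 < X₀ ∧ ∀ X : ℝ, X₀ ≤ X →
        ∃ ξ : ℂ, ‖ξ - ((‖β₀‖ ^ 2 : ℝ) : ℂ)‖ = X ∧ X / 2 ≤ ξ.re - ‖β₀‖ ^ 2 ∧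
          Real.exp (-(a * (ξ.re - ‖β₀‖ ^ 2)) - 3 * X * ε) ≤ ‖m (Zm p β₀ ξ)‖ := by
  classical
  set 𝒜 : Set ℝ := {a | 0 ≤ a ∧ ∀ z : E d, ‖z‖ < 1 → ‖m z‖ ≤ Real.exp (-(a * (tt z / TT p z ^ 2)))} with h𝒜
  have h0 : (0 : ℝ) ∈ 𝒜 := ⟨le_rfl, fun z hz => by
    rw [zero_mul, neg_zero, Real.exp_zero]
    exact hm1 z hz⟩
  -- the upper bounds
  have hub : ∀ z : E d, ‖z‖ < 1 → m z ≠ 0 → ∀ a ∈ 𝒜,
      a ≤ Real.log (1 / ‖m z‖) / (tt z / TT p z ^ 2) := by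
    intro z hz hmz a ha
    have hP := G4_P hp hz
    have hn : 0 < ‖m z‖ := norm_pos_iff.2 hmz
    rw [le_div_iff₀ hP, one_div, Real.log_inv]
    have h1 := Real.log_le_log hn (ha.2 z hz)
    rw [Real.log_exp] at h1
    linarith
  obtain ⟨z₀, hz₀, hmz₀⟩ := hm0
  have hbdd : BddAbove 𝒜 := ⟨_, fun a ha => hub z₀ hz₀ hmz₀ a ha⟩
  have hsup0 : 0 ≤ sSup 𝒜 := le_csSup hbdd h0
  have hsup : sSup 𝒜 ∈ 𝒜 := by
    refine ⟨hsup0, fun z hz => ?_⟩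
    by_cases hmz : m z = 0
    · rw [hmz, norm_zero]
      exact (Real.exp_pos _).le
    · have hP := G4_P hp hz
      have hn : 0 < ‖m z‖ := norm_pos_iff.2 hmz
      have h1 : sSup 𝒜 ≤ Real.log (1 / ‖m z‖) / (tt z / TT p z ^ 2) :=
        csSup_le ⟨0, h0⟩ (hub z hz hmz)
      rw [le_div_iff₀ hP, one_div, Real.log_inv] at h1
      rw [← Real.log_le_iff_le_exp hn]
      linarith
  refine ⟨sSup 𝒜, hsup0, hsup.2, fun ε hε => ?_⟩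
  have hne : sSup 𝒜 + ε ∉ 𝒜 := fun h => by
    have := le_csSup hbdd h
    linarith
  have hne' : ∃ z : E d, ‖z‖ < 1 ∧
      Real.exp (-((sSup 𝒜 + ε) * (tt z / TT p z ^ 2))) < ‖m z‖ := by
    by_contra hcon
    push Not at hcon
    exact hne ⟨by linarith, hcon⟩
  obtain ⟨z, hz, hmz⟩ := hne'
  have hle := hsup.2
  generalize sSup 𝒜 = a at hle hmz hsup0 ⊢
  have hP := G4_P hp hz
  obtain ⟨g1, g2, -, g4⟩ := G2c hp hz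
  set β : E d := (1 / lam p z) • pr p z with hβ
  have hbd : ∀ ω : ℂ, 0 < ω.re →
      ‖m (Zm p β (ω + ((‖β‖ ^ 2 : ℝ) : ℂ)))‖ ≤ Real.exp (-(a * ω.re)) := by
    intro ω hω
    have h1 : ‖β‖ ^ 2 < (ω + ((‖β‖ ^ 2 : ℝ) : ℂ)).re := by
      rw [G4_re]
      linarith
    obtain ⟨h2, h3⟩ := G2b hp g1 h1
    have h4 := hle _ h2
    rw [(G2z hp g1 h3).2.2.2.2.1, G4_re, add_sub_cancel_right] at h4
    exact h4
  have hbn : ∀ ω : ℂ, ‖m (Zm p β (ω + ((‖β‖ ^ 2 : ℝ) : ℂ))) * Complex.exp (a * ω)‖ =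
      ‖m (Zm p β (ω + ((‖β‖ ^ 2 : ℝ) : ℂ)))‖ * Real.exp (a * ω.re) := by
    intro ω
    rw [norm_mul, Complex.norm_exp]
    congr 2
    simp
  have hω₀ : 0 < (ww p z - ((‖β‖ ^ 2 : ℝ) : ℂ)).re := by
    rw [Complex.sub_re, Complex.ofReal_re, g4]
    exact hP
  have hω₀' : (ww p z - ((‖β‖ ^ 2 : ℝ) : ℂ)).re = tt z / TT p z ^ 2 := by
    rw [Complex.sub_re, Complex.ofReal_re, g4]
  have hb0 : ‖m (Zm p β ((ww p z - ((‖β‖ ^ 2 : ℝ) : ℂ)) + ((‖β‖ ^ 2 : ℝ) : ℂ))) *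
      Complex.exp (a * (ww p z - ((‖β‖ ^ 2 : ℝ) : ℂ)))‖ =
      ‖m z‖ * Real.exp (a * (tt z / TT p z ^ 2)) := by
    rw [hbn, hω₀', sub_add_cancel, g2]
  have hbpos : Real.exp (-(ε * (tt z / TT p z ^ 2))) < ‖m z‖ * Real.exp (a * (tt z / TT p z ^ 2)) := by
    have h1 := mul_lt_mul_of_pos_right hmz (Real.exp_pos (a * (tt z / TT p z ^ 2)))
    rw [← Real.exp_add] at h1
    have e : -((a + ε) * (tt z / TT p z ^ 2)) + a * (tt z / TT p z ^ 2) =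
        -(ε * (tt z / TT p z ^ 2)) := by ring
    rwa [e] at h1
  obtain ⟨X₀, hX₀, hX⟩ := G3 (b := fun ω : ℂ => m (Zm p β (ω + ((‖β‖ ^ 2 : ℝ) : ℂ))) * Complex.exp (a * ω))
    (G4_diff hp g1 hm a)
    (fun ω hω => by
      rw [hbn]
      have h1 := hbd ω hω
      calc ‖m (Zm p β (ω + ((‖β‖ ^ 2 : ℝ) : ℂ)))‖ * Real.exp (a * ω.re)
          ≤ Real.exp (-(a * ω.re)) * Real.exp (a * ω.re) := by gcongr
        _ = 1 := by rw [← Real.exp_add, neg_add_cancel, Real.exp_zero])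
    hω₀
    (by
      have h1 : 0 < ‖m z‖ * Real.exp (a * (tt z / TT p z ^ 2)) := (Real.exp_pos _).trans hbpos
      rw [← hb0] at h1
      exact norm_pos_iff.1 h1)
    hε
    (by
      rw [hb0, hω₀', one_div, Real.log_inv]
      have h1 := Real.log_lt_log (Real.exp_pos _) hbpos
      rw [Real.log_exp] at h1
      linarith)
  refine ⟨β, X₀, g1, hX₀, fun X hXX => ?_⟩
  obtain ⟨ξ, h1, h2, h3⟩ := hX X hXX
  have hξ0 : 0 < X := lt_of_lt_of_le hX₀ hXX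
  rw [hbn] at h3
  refine ⟨ξ + ((‖β‖ ^ 2 : ℝ) : ℂ), ?_, ?_, ?_⟩
  · rw [add_sub_cancel_right]
    exact h1
  · rw [G4_re, add_sub_cancel_right]
    exact h2
  · rw [G4_re, add_sub_cancel_right]
    have h4 := mul_le_mul_of_nonneg_right h3 (Real.exp_pos (-(a * ξ.re))).le
    have e5 : ‖m (Zm p β (ξ + ((‖β‖ ^ 2 : ℝ) : ℂ)))‖ * Real.exp (a * ξ.re) * Real.exp (-(a * ξ.re)) =
        ‖m (Zm p β (ξ + ((‖β‖ ^ 2 : ℝ) : ℂ)))‖ := by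
      rw [mul_assoc, ← Real.exp_add, add_neg_cancel, Real.exp_zero, mul_one]
    rw [e5, ← Real.exp_add] at h4
    have e : -(3 * X * ε) + -(a * ξ.re) = -(a * ξ.re) - 3 * X * ε := by ring
    rwa [e] at h4

end Pool.Agent.CRT
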