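import Pool.Agent.CRT.G2
import Pool.Agent.CRT.KL

/-!
# [G5x] The geometry of the disc

Notation: `w = ww p z`, `β = z'/(1-z₁)`, `x = |w|`, `y = t/T² = Re w - |β|²`.  Assumptions:
`x ≥ 10⁴(1+|β₀|²)`, `|β|² ≤ x/10⁴`, `|ξ-|β₀|²| = 3x`, `Re ξ-|β₀|² ≥ (3/2)x`.
-/

set_option autoImplicit false

namespace Pool.Agent.CRT

open Metric

/-- the square of the norm of `β + u B` -/
theorem G5x_norm {d : ℕ} (β B : E d) (u : ℂ) :
    ‖β + u • B‖ ^ 2 = ‖β‖ ^ 2 + 2 * (u * inner ℂ β B).re + ‖u‖ ^ 2 * ‖B‖ ^ 2 := by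
  rw [@norm_add_sq ℂ, inner_smul_right, norm_smul, mul_pow]
  rfl

/-- completing the square -/
theorem G5x_id {d : ℕ} (β B : E d) (w ω s v : ℂ) {κ y η l : ℝ} (hκ : 0 < κ)
    (hκe : κ = l + ‖B‖ ^ 2) (hy : y = w.re - ‖β‖ ^ 2) (hs : s = inner ℂ β B)
    (hv1 : v.re = 1 / 2 - s.re) (hv2 : v.im = s.im) :
    κ * (((y - η) / κ + ‖v‖ ^ 2 / κ ^ 2) - ‖ω - (w + v / (κ : ℂ))‖ ^ 2) =
      ω.re - ‖β + (ω - w) • B‖ ^ 2 - l * ‖ω - w‖ ^ 2 - η := by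
  rw [G5x_norm, ← hs]
  have hB : ‖B‖ ^ 2 = κ - l := by linarith
  have hβ : ‖β‖ ^ 2 = w.re - y := by linarith
  rw [hB, hβ]
  have e1 : ‖ω - (w + v / (κ : ℂ))‖ ^ 2 =
      (ω.re - w.re - v.re / κ) ^ 2 + (ω.im - w.im - v.im / κ) ^ 2 := by
    rw [Complex.sq_norm, Complex.normSq_apply]
    simp only [Complex.sub_re, Complex.add_re, Complex.sub_im, Complex.add_im,
      Complex.div_ofReal_re, Complex.div_ofReal_im]
    ring
  have e2 : ‖v‖ ^ 2 = v.re ^ 2 + v.im ^ 2 := by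
    rw [Complex.sq_norm, Complex.normSq_apply]
    ring
  have e3 : ‖ω - w‖ ^ 2 = (ω.re - w.re) ^ 2 + (ω.im - w.im) ^ 2 := by
    rw [Complex.sq_norm, Complex.normSq_apply]
    simp only [Complex.sub_re, Complex.sub_im]
    ring
  have e4 : ((ω - w) * s).re = (ω.re - w.re) * s.re - (ω.im - w.im) * s.im := by
    rw [Complex.mul_re]
    simp only [Complex.sub_re, Complex.sub_im]
  rw [e1, e2, e3, e4, hv1, hv2]
  field_simp
  ring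

/-- The geometry of the disc `q > 0`, `q(ω) = Re ω - |β(ω)|² - λ|ω-w|² - η`, `β(ω) = β + (ω-w)B`,
`B = (ξ-w)^{-1}(β₀-β)`, `λ = 1/(100x)`, `0 < η ≤ min(1,y/2)`.

There are `c, ϱ` with `{q > 0} = ball c ϱ`, `z₀ = ξ`, `z₁ = w` belong to it, and the constant
`4(1+ϱ²|ξ-w|²/((ϱ²-|ξ-c|²)(ϱ²-|w-c|²)))` is `≤ 30 x/y`; on the disc `|ω| ≤ 102x`,
`|β(ω)|² ≤ 3000(|β₀|+|β|)²`, `Re ω - |β(ω)|² > η`.

Proof.  `|β₀|+|β| ≤ √x/50`.  `|ξ-w| ≤ 3x+|β₀|²+x ≤ 4.01x`, `|ξ-w| ≥ 3x-|β₀|²-x ≥ 1.99x`, so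
`|B| ≤ (|β₀|+|β|)/(1.99x)`, `|B|² ≤ 0.00011/x`.
With `u = ω-w`: `|β+uB|² = |β|² + 2Re(u<B,β>) + |u|²|B|²`, so
`q = (y-η) + Re(u(1-2<B,β>)) - κ|u|²`, `κ = λ+|B|² > 0`.  With `v = conj(1-2<B,β>)/2`, `|v| ≤ 1/2+|B||β| ≤ 0.5002`:
`q = κ(ϱ²-|u-v/κ|²)`, `κ²ϱ² = κ(y-η)+|v|² ≤ κx + 0.2503 ≤ 0.2605` (`y ≤ Re w ≤ x`, `κx ≤ 0.01+0.00011`).  `c = w+v/κ`.
So for any `ω`: `ϱ²-|ω-c|² = q(ω)/κ`.
`q(w) = y-η ≥ y/2 > 0`.  `q(ξ) = Re ξ-|β₀|²-λ|ξ-w|²-η ≥ 1.5x - 0.161x - 1 ≥ 1.33x > 0` (`β(ξ) = β₀`).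
`ϱ²|ξ-w|²/((ϱ²-|ξ-c|²)(ϱ²-|w-c|²)) = κ²ϱ²|ξ-w|²/(q(ξ)q(w)) ≤ 0.2605·16.09x²/(1.33x·y/2) ≤ 6.4x/y`, and with
`1 ≤ x/y`: `4(1+6.4x/y) ≤ 29.6x/y`.
On `q > 0`: `|u|²/(100x) < Re ω ≤ x+|u|`, so `|u| < 101x`, `|ω| ≤ 102x`,
`|β(ω)| ≤ |β|+101x(|β₀|+|β|)/(1.99x) ≤ 52(|β₀|+|β|)`, `52² = 2704`. -/
theorem G5g {d : ℕ} {β β₀ : E d} {w ξ : ℂ} {x y η : ℝ} (hx : x = ‖w‖)
    (hy : y = w.re - ‖β‖ ^ 2) (hy0 : 0 < y) (hx1 : 10 ^ 4 * (1 + ‖β₀‖ ^ 2) ≤ x)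
    (hβ : ‖β‖ ^ 2 ≤ x / 10 ^ 4) (hξ : ‖ξ - ((‖β₀‖ ^ 2 : ℝ) : ℂ)‖ = 3 * x)
    (hξ2 : 3 / 2 * x ≤ ξ.re - ‖β₀‖ ^ 2) (hη : 0 < η) (hη1 : η ≤ 1) (hη2 : η ≤ y / 2) :
    ∃ (c : ℂ) (ϱ : ℝ), 0 < ϱ ∧ ξ ≠ w ∧ ‖ξ - c‖ < ϱ ∧ ‖w - c‖ < ϱ ∧
      4 * (1 + ϱ ^ 2 * ‖ξ - w‖ ^ 2 / ((ϱ ^ 2 - ‖ξ - c‖ ^ 2) * (ϱ ^ 2 - ‖w - c‖ ^ 2)))
        ≤ 30 * (x / y) ∧
      ∀ ω ∈ ball c ϱ, ‖ω‖ ≤ 102 * x ∧
        η < ω.re - ‖β + (ω - w) • ((ξ - w)⁻¹ • (β₀ - β))‖ ^ 2 ∧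
        ‖β + (ω - w) • ((ξ - w)⁻¹ • (β₀ - β))‖ ^ 2 ≤ 3000 * (‖β₀‖ + ‖β‖) ^ 2 := by
  set N0 : ℝ := ‖β₀‖ with hN0
  set N1 : ℝ := ‖β‖ with hN1
  have hN0' : 0 ≤ N0 := norm_nonneg _
  have hN1' : 0 ≤ N1 := norm_nonneg _
  have hx0 : (10 : ℝ) ^ 4 ≤ x := by nlinarith [sq_nonneg N0]
  have hxp : 0 < x := by linarith
  have hN0x : N0 ^ 2 ≤ x / 10 ^ 4 := by
    rw [le_div_iff₀ (by norm_num)]
    nlinarith
  have hsum : (N0 + N1) ^ 2 ≤ x / 2500 := by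
    have h1 : (N0 + N1) ^ 2 ≤ 2 * (N0 ^ 2 + N1 ^ 2) := by nlinarith [sq_nonneg (N0 - N1)]
    have h2 : (x / 10 ^ 4 : ℝ) = x / 2500 / 4 := by ring
    rw [h2] at hN0x hβ
    linarith
  -- the distance of `ξ` and `w`
  set D : ℝ := ‖ξ - w‖ with hD
  have hr : ‖((N0 ^ 2 : ℝ) : ℂ)‖ = N0 ^ 2 := by
    rw [Complex.norm_real, Real.norm_of_nonneg (sq_nonneg _)]
  have hD1 : D ≤ 4.001 * x := by
    have h1 : ξ - w = (ξ - ((N0 ^ 2 : ℝ) : ℂ)) + ((N0 ^ 2 : ℝ) : ℂ) - w := by ring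
    have h2 : D ≤ 3 * x + N0 ^ 2 + x := by
      rw [hD, h1]
      refine (norm_sub_le _ _).trans ?_
      have := norm_add_le (ξ - ((N0 ^ 2 : ℝ) : ℂ)) ((N0 ^ 2 : ℝ) : ℂ)
      rw [hξ, hr] at this
      linarith
    have h3 : (x / 10 ^ 4 : ℝ) ≤ x / 1000 := by
      apply div_le_div_of_nonneg_left hxp.le <;> norm_num
    linarith
  have hD2 : 1.99 * x ≤ D := by
    have h1 : ξ - ((N0 ^ 2 : ℝ) : ℂ) = (ξ - w) + (w - ((N0 ^ 2 : ℝ) : ℂ)) := by ring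
    have h2 : 3 * x ≤ D + (x + N0 ^ 2) := by
      rw [← hξ, h1]
      refine (norm_add_le _ _).trans ?_
      have := norm_sub_le w ((N0 ^ 2 : ℝ) : ℂ)
      rw [hr, ← hx] at this
      linarith
    have h3 : (x / 10 ^ 4 : ℝ) ≤ x / 1000 := by
      apply div_le_div_of_nonneg_left hxp.le <;> norm_num
    linarith
  have hDp : 0 < D := by linarith
  have hne : ξ ≠ w := by
    intro h
    rw [hD, h, sub_self, norm_zero] at hDp
    exact lt_irrefl _ hDp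
  have hne' : ξ - w ≠ 0 := sub_ne_zero.2 hne
  -- the vector `B`
  set B : E d := (ξ - w)⁻¹ • (β₀ - β) with hB
  set b : ℝ := ‖B‖ with hb
  have hb0 : 0 ≤ b := norm_nonneg _
  have hbD : b * D ≤ N0 + N1 := by
    have h1 : b = D⁻¹ * ‖β₀ - β‖ := by
      rw [hb, hB, norm_smul, norm_inv]
    rw [h1]
    have h2 := norm_sub_le β₀ β
    have h3 : D⁻¹ * ‖β₀ - β‖ * D = ‖β₀ - β‖ := by
      field_simp
    rw [h3]
    exact h2
  have hbx : b * (1.99 * x) ≤ N0 + N1 := (mul_le_mul_of_nonneg_left hD2 hb0).trans hbD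
  have hb2 : b ^ 2 * x ≤ 0.000102 := by
    have h1 : (b * (1.99 * x)) ^ 2 ≤ (N0 + N1) ^ 2 := by
      apply pow_le_pow_left₀ _ hbx
      positivity
    have h2 : (b ^ 2 * x) * (3.9601 * x) ≤ (1 / 2500) * x := by
      calc (b ^ 2 * x) * (3.9601 * x) = (b * (1.99 * x)) ^ 2 := by ring
        _ ≤ _ := h1
        _ ≤ _ := hsum
        _ = _ := by ring
    have h3 : (b ^ 2 * x) * 3.9601 ≤ 1 / 2500 := by
      have := le_of_mul_le_mul_right (by linarith : (b ^ 2 * x) * 3.9601 * x ≤ 1 / 2500 * x) hxp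
      exact this
    norm_num at h3 ⊢
    linarith
  -- `s`
  set s : ℂ := inner ℂ β B with hs
  have hs1 : ‖s‖ ^ 2 ≤ 0.00011 ^ 2 := by
    have h1 : ‖s‖ ≤ N1 * b := norm_inner_le_norm _ _
    have h2 : ‖s‖ ^ 2 ≤ (N1 * b) ^ 2 := pow_le_pow_left₀ (norm_nonneg _) h1 2
    have h3 : (N1 * b) ^ 2 ≤ (x / 10 ^ 4) * b ^ 2 := by
      rw [mul_pow]
      exact mul_le_mul_of_nonneg_right hβ (sq_nonneg _)
    have h4 : (x / 10 ^ 4) * b ^ 2 = (b ^ 2 * x) / 10 ^ 4 := by ring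
    rw [h4] at h3
    have h5 : (b ^ 2 * x) / 10 ^ 4 ≤ 0.000102 / 10 ^ 4 := by
      apply div_le_div_of_nonneg_right hb2
      norm_num
    refine h2.trans (h3.trans (h5.trans ?_))
    norm_num
  have hs2 : ‖s‖ ≤ 0.00011 := by
    apply le_of_sq_le_sq _ (by norm_num)
    exact hs1
  have hs3 : |s.re| ≤ 0.00011 := (Complex.abs_re_le_norm s).trans hs2
  set v : ℂ := ⟨1 / 2 - s.re, s.im⟩ with hv
  have hv1 : v.re = 1 / 2 - s.re := rfl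
  have hv2 : v.im = s.im := rfl
  have hvn : ‖v‖ ^ 2 ≤ 0.2503 := by
    have e1 : ‖v‖ ^ 2 = v.re ^ 2 + v.im ^ 2 := by
      rw [Complex.sq_norm, Complex.normSq_apply]
      ring
    have e2 : ‖s‖ ^ 2 = s.re ^ 2 + s.im ^ 2 := by
      rw [Complex.sq_norm, Complex.normSq_apply]
      ring
    rw [e1, hv1, hv2]
    have h1 := (abs_le.1 hs3).1
    rw [e2] at hs1
    norm_num at hs1 h1 ⊢
    nlinarith
  set κ : ℝ := 1 / (100 * x) + b ^ 2 with hκ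
  have hκ0 : 0 < κ := by positivity
  have hκx : κ * x ≤ 0.010102 := by
    have : κ * x = 0.01 + b ^ 2 * x := by
      rw [hκ]
      field_simp
      ring
    rw [this]
    linarith
  have hyx : y ≤ x := by
    have h1 : w.re ≤ x := by
      rw [hx]
      exact Complex.re_le_norm w
    have h2 : 0 ≤ N1 ^ 2 := sq_nonneg _
    linarith
  have hyη : y / 2 ≤ y - η := by linarith
  set R2 : ℝ := (y - η) / κ + ‖v‖ ^ 2 / κ ^ 2 with hR2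
  have hR2p : 0 < R2 := by
    have : 0 < (y - η) / κ := div_pos (by linarith) hκ0
    have : 0 ≤ ‖v‖ ^ 2 / κ ^ 2 := by positivity
    linarith
  have hκR : κ ^ 2 * R2 ≤ 0.2605 := by
    have h1 : κ ^ 2 * R2 = κ * (y - η) + ‖v‖ ^ 2 := by
      rw [hR2]
      field_simp
    rw [h1]
    have h2 : κ * (y - η) ≤ κ * x := mul_le_mul_of_nonneg_left (by linarith) hκ0.le
    norm_num at h2 hκx hvn ⊢
    linarith
  have hϱ : Real.sqrt R2 ^ 2 = R2 := Real.sq_sqrt hR2p.le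
  have key : ∀ ω : ℂ, κ * (Real.sqrt R2 ^ 2 - ‖ω - (w + v / (κ : ℂ))‖ ^ 2) =
      ω.re - ‖β + (ω - w) • B‖ ^ 2 - 1 / (100 * x) * ‖ω - w‖ ^ 2 - η := by
    intro ω
    rw [hϱ]
    exact G5x_id β B w ω s v hκ0 hκ hy hs hv1 hv2
  set c : ℂ := w + v / (κ : ℂ) with hc
  -- the values at `w` and `ξ`
  have kw := key w
  have kξ := key ξ
  have hβw : β + (w - w) • B = β := by rw [sub_self, zero_smul, add_zero]
  have hβξ : β + (ξ - w) • B = β₀ := by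
    rw [hB, smul_smul, mul_inv_cancel₀ hne', one_smul]
    abel
  rw [hβw, sub_self, norm_zero] at kw
  rw [hβξ] at kξ
  have qw : y / 2 ≤ κ * (Real.sqrt R2 ^ 2 - ‖w - c‖ ^ 2) := by
    rw [kw]
    have : w.re - ‖β‖ ^ 2 - 1 / (100 * x) * 0 ^ 2 - η = y - η := by
      rw [hy]
      ring
    rw [this]
    exact hyη
  have qξ : 1.33 * x ≤ κ * (Real.sqrt R2 ^ 2 - ‖ξ - c‖ ^ 2) := by
    rw [kξ]
    have h1 : 1 / (100 * x) * ‖ξ - w‖ ^ 2 ≤ 0.1601 * x := by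
      rw [← hD]
      have h2 : D ^ 2 ≤ (4.001 * x) ^ 2 := pow_le_pow_left₀ hDp.le hD1 2
      have h3 : 1 / (100 * x) * D ^ 2 ≤ 1 / (100 * x) * (4.001 * x) ^ 2 :=
        mul_le_mul_of_nonneg_left h2 (by positivity)
      have h4 : 1 / (100 * x) * (4.001 * x) ^ 2 = 0.16008001 * x := by
        field_simp
        norm_num
      rw [h4] at h3
      norm_num at h3 ⊢
      linarith
    have h5 : ξ.re - ‖β₀‖ ^ 2 = ξ.re - N0 ^ 2 := rfl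
    rw [h5]
    norm_num at h1 hξ2 hx0 ⊢
    linarith
  have pw : 0 < Real.sqrt R2 ^ 2 - ‖w - c‖ ^ 2 := by
    have : 0 < κ * (Real.sqrt R2 ^ 2 - ‖w - c‖ ^ 2) := by linarith
    exact (mul_pos_iff_of_pos_left hκ0).1 this
  have pξ : 0 < Real.sqrt R2 ^ 2 - ‖ξ - c‖ ^ 2 := by
    have : 0 < κ * (Real.sqrt R2 ^ 2 - ‖ξ - c‖ ^ 2) := by
      have : 0 < 1.33 * x := by positivity
      linarith
    exact (mul_pos_iff_of_pos_left hκ0).1 this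
  have hϱp : 0 < Real.sqrt R2 := Real.sqrt_pos.2 hR2p
  refine ⟨c, Real.sqrt R2, hϱp, hne, ?_, ?_, ?_, ?_⟩
  · exact lt_of_pow_lt_pow_left₀ 2 hϱp.le (by linarith)
  · exact lt_of_pow_lt_pow_left₀ 2 hϱp.le (by linarith)
  · -- the constant
    have hxy : 1 ≤ x / y := by rwa [one_le_div hy0]
    have hmain : Real.sqrt R2 ^ 2 * ‖ξ - w‖ ^ 2 /
        ((Real.sqrt R2 ^ 2 - ‖ξ - c‖ ^ 2) * (Real.sqrt R2 ^ 2 - ‖w - c‖ ^ 2)) ≤
        6.4 * (x / y) := by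
      rw [div_le_iff₀ (mul_pos pξ pw)]
      have hκ2 : 0 < κ ^ 2 := by positivity
      apply le_of_mul_le_mul_left _ hκ2
      rw [hϱ, ← hD]
      have h1 : κ ^ 2 * (R2 * D ^ 2) ≤ 0.2605 * (4.001 * x) ^ 2 := by
        calc κ ^ 2 * (R2 * D ^ 2) = (κ ^ 2 * R2) * D ^ 2 := by ring
          _ ≤ 0.2605 * (4.001 * x) ^ 2 := by
              apply mul_le_mul hκR (pow_le_pow_left₀ hDp.le hD1 2) (sq_nonneg _) (by norm_num)
      rw [hϱ] at qw qξ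
      have h2 : 1.33 * x * (y / 2) ≤ (κ * (R2 - ‖ξ - c‖ ^ 2)) * (κ * (R2 - ‖w - c‖ ^ 2)) := by
        apply mul_le_mul qξ qw (by linarith)
        have : 0 < 1.33 * x := by positivity
        linarith
      have h3 : κ ^ 2 * (6.4 * (x / y) * ((R2 - ‖ξ - c‖ ^ 2) * (R2 - ‖w - c‖ ^ 2))) =
          6.4 * (x / y) * ((κ * (R2 - ‖ξ - c‖ ^ 2)) * (κ * (R2 - ‖w - c‖ ^ 2))) := by ring
      rw [h3]
      have h4 : 6.4 * (x / y) * (1.33 * x * (y / 2)) ≤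
          6.4 * (x / y) * ((κ * (R2 - ‖ξ - c‖ ^ 2)) * (κ * (R2 - ‖w - c‖ ^ 2))) :=
        mul_le_mul_of_nonneg_left h2 (by positivity)
      have h5 : 6.4 * (x / y) * (1.33 * x * (y / 2)) = 4.256 * x ^ 2 := by
        field_simp
        norm_num
      rw [h5] at h4
      refine h1.trans (le_trans ?_ h4)
      have : 0.2605 * (4.001 * x) ^ 2 = 4.1700842605 * x ^ 2 := by ring
      rw [this]
      apply mul_le_mul_of_nonneg_right _ (sq_nonneg _)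
      norm_num
    norm_num at hmain ⊢
    linarith
  · intro ω hω
    rw [mem_ball, dist_eq_norm] at hω
    have hq : 0 < κ * (Real.sqrt R2 ^ 2 - ‖ω - c‖ ^ 2) := by
      apply mul_pos hκ0
      have := pow_lt_pow_left₀ hω (norm_nonneg _) (two_ne_zero)
      linarith
    rw [key ω] at hq
    set U : ℝ := ‖ω - w‖ with hU
    have hU0 : 0 ≤ U := norm_nonneg _
    have hre : ω.re ≤ x + U := by
      have h1 : ω.re = w.re + (ω - w).re := by simp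
      have h2 : w.re ≤ x := by
        rw [hx]
        exact Complex.re_le_norm w
      have h3 : (ω - w).re ≤ U := Complex.re_le_norm _
      linarith
    have hβ0 : 0 ≤ ‖β + (ω - w) • B‖ ^ 2 := sq_nonneg _
    have hUx : U ≤ 101 * x := by
      by_contra hcon
      push Not at hcon
      have h1 : 1 / (100 * x) * U ^ 2 < x + U := by linarith
      have h2 : 1 / (100 * x) * (101 * x) * U ≤ 1 / (100 * x) * U ^ 2 := by
        have : 1 / (100 * x) * U ^ 2 = 1 / (100 * x) * U * U := by ring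
        rw [this]
        apply mul_le_mul_of_nonneg_right _ hU0
        exact mul_le_mul_of_nonneg_left hcon.le (by positivity)
      have h3 : 1 / (100 * x) * (101 * x) * U = 101 / 100 * U := by
        field_simp
      rw [h3] at h2
      have h4 : 101 / 100 * U < x + U := lt_of_le_of_lt h2 h1
      linarith
    refine ⟨?_, ?_, ?_⟩
    · have h1 : ω = w + (ω - w) := by ring
      have h2 : ‖ω‖ ≤ ‖w‖ + U := by
        conv_lhs => rw [h1]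
        exact norm_add_le _ _
      rw [← hx] at h2
      linarith
    · have : 0 ≤ 1 / (100 * x) * U ^ 2 := by positivity
      linarith
    · have h1 : ‖β + (ω - w) • B‖ ≤ N1 + U * b := by
        refine (norm_add_le _ _).trans ?_
        rw [norm_smul]
      have h2 : U * b ≤ 51 * (N0 + N1) := by
        have h3 : U * b ≤ 101 * x * b := mul_le_mul_of_nonneg_right hUx hb0
        have h4 : 101 * x * b = (101 / 1.99) * (b * (1.99 * x)) := by ring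
        have h5 : (101 / 1.99) * (b * (1.99 * x)) ≤ (101 / 1.99) * (N0 + N1) :=
          mul_le_mul_of_nonneg_left hbx (by norm_num)
        have h6 : (101 / 1.99 : ℝ) * (N0 + N1) ≤ 51 * (N0 + N1) := by
          apply mul_le_mul_of_nonneg_right _ (by positivity)
          norm_num
        linarith
      have h3 : ‖β + (ω - w) • B‖ ≤ 52 * (N0 + N1) := by linarith
      have h4 : ‖β + (ω - w) • B‖ ^ 2 ≤ (52 * (N0 + N1)) ^ 2 :=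
        pow_le_pow_left₀ (norm_nonneg _) h3 2
      have h5 : (52 * (N0 + N1)) ^ 2 = 2704 * (N0 + N1) ^ 2 := by ring
      rw [h5] at h4
      have h6 : 0 ≤ (N0 + N1) ^ 2 := sq_nonneg _
      linarith

end Pool.Agent.CRT
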