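import Pool.Agent.CRT.G2
import Pool.Agent.CRT.KL
import Pool.Agent.CRT.G5x

/-!
# [G5y] The estimate on the disc

Notation: `w = ww p z`, `β = z'/(1-z₁)`, `x = |w|`, `y = t/T² = Re w - |β|²`.  Assumptions:
`x ≥ 10⁴(1+|β₀|²)`, `|β|² ≤ x/10⁴`, `|ξ-|β₀|²| = 3x`, `Re ξ-|β₀|² ≥ (3/2)x`.
-/

set_option autoImplicit false

namespace Pool.Agent.CRT

open Metric

/-- orthogonality of the second coordinate along the disc -/
theorem G5y_perp {d : ℕ} {p β β₀ : E d} (h1 : br β p = 0) (h2 : br β₀ p = 0) (u v : ℂ) :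
    br (β + u • (v • (β₀ - β))) p = 0 := by
  unfold br at *
  rw [inner_add_right, inner_smul_right, inner_smul_right, inner_sub_right, h1, h2]
  simp

/-- The estimate: `|h(z)| ≤ Q exp((30x/y)(9xε + aσ))`, `σ = 3000(|β₀|+|β|)²`, `Q = e^a (2700x²/η)^n`,
`η = min(1,y/2)`.

Proof.  `Z(ω) = Zm p (β(ω)) ω`, holomorphic on `ball c ϱ` with values in the ball (`G2b`); `Z(w) = z` (`G2c`),
`Z(ξ) = Zm p β₀ ξ`.  `P(Z(ω)) = Re ω - |β(ω)|² > η` and `T(Z(ω)) = 2/|ω+1| ≥ 2/(103x)`, so `1/T² ≤ 2700x²`.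
`b(ω) = m(Z(ω))e^{a(ω-σ)}`: `|b| ≤ e^{a(-P+Re ω-σ)} = e^{a(|β(ω)|²-σ)} ≤ 1`.
`k(ω) = h(Z(ω))/Q`: by `G2`, `|kb| ≤ Q^{-1} e^{aη}(ηT²)^{-n}e^{-aP}e^{a(Re ω-σ)} ≤ Q^{-1}e^a(2700x²/η)^n = 1`.
`|b(ξ)| ≥ exp(-a(Re ξ-|β₀|²)-9xε+a Re ξ-aσ) ≥ exp(-9xε-aσ)`, `log(1/|b(ξ)|) ≤ 9xε+aσ` (and it is `≥ 0`).
`KL4` with `z₀ = ξ`, `z₁ = w`, and `G5g`. -/
theorem G5 {d : ℕ} {m h : E d → ℂ} {p : E d} (hp : ‖p‖ = 1)
    (hm : DifferentiableOn ℂ m (ball 0 1)) (hh : DifferentiableOn ℂ h (ball 0 1)) {a : ℝ}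
    (ha : 0 ≤ a) (hma : ∀ z : E d, ‖z‖ < 1 → ‖m z‖ ≤ Real.exp (-(a * (tt z / TT p z ^ 2))))
    {n : ℕ} (hmh : ∀ z : E d, ‖z‖ < 1 → ‖m z * h z‖ ≤ (1 / tt z) ^ n) {Bh : ℝ}
    (hB : ∀ z : E d, ‖z‖ < 1 → ‖h z‖ ≤ Bh) {ε : ℝ} (hε : 0 < ε) {β₀ : E d}
    (hβ₀ : br β₀ p = 0) {z : E d} (hz : ‖z‖ < 1)
    (hx1 : 10 ^ 4 * (1 + ‖β₀‖ ^ 2) ≤ ‖ww p z‖)
    (hβ : (‖pr p z‖ / TT p z) ^ 2 ≤ ‖ww p z‖ / 10 ^ 4) {ξ : ℂ}
    (hξ : ‖ξ - ((‖β₀‖ ^ 2 : ℝ) : ℂ)‖ = 3 * ‖ww p z‖)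
    (hξ2 : 3 / 2 * ‖ww p z‖ ≤ ξ.re - ‖β₀‖ ^ 2)
    (hξ3 : Real.exp (-(a * (ξ.re - ‖β₀‖ ^ 2)) - 9 * ‖ww p z‖ * ε) ≤ ‖m (Zm p β₀ ξ)‖) :
    ‖h z‖ ≤ Real.exp a *
      (2700 * ‖ww p z‖ ^ 2 / min 1 (tt z / TT p z ^ 2 / 2)) ^ n *
      Real.exp (30 * (‖ww p z‖ / (tt z / TT p z ^ 2)) *
        (9 * ‖ww p z‖ * ε + a * (3000 * (‖β₀‖ + ‖pr p z‖ / TT p z) ^ 2))) := by
  obtain ⟨hβp, hZw, hβn, hP⟩ := G2c hp hz
  set β : E d := (1 / lam p z) • pr p z with hβdef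
  set w : ℂ := ww p z with hw
  set x : ℝ := ‖w‖ with hx
  set y : ℝ := tt z / TT p z ^ 2 with hy
  rw [← hβn] at hβ ⊢
  obtain ⟨-, -, -, hT0, -, ht0, -⟩ := F1b hp hz
  have hy0 : 0 < y := by positivity
  set η : ℝ := min 1 (y / 2) with hη
  have hη0 : 0 < η := lt_min one_pos (by positivity)
  have hη1 : η ≤ 1 := min_le_left _ _
  have hη2 : η ≤ y / 2 := min_le_right _ _
  have hx0 : 1 ≤ x := by
    have : 0 ≤ ‖β₀‖ ^ 2 := sq_nonneg _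
    norm_num at hx1
    linarith
  have hxp : 0 < x := by linarith
  obtain ⟨c, ϱ, hϱ, hne, hξc, hwc, hconst, hdisc⟩ :=
    G5g (β := β) (β₀ := β₀) (w := w) (ξ := ξ) (x := x) (y := y) (η := η) rfl hP.symm hy0 hx1 hβ
      hξ hξ2 hη0 hη1 hη2
  have hne' : ξ - w ≠ 0 := sub_ne_zero.2 hne
  set B : E d := (ξ - w)⁻¹ • (β₀ - β) with hBdef
  set σ : ℝ := 3000 * (‖β₀‖ + ‖β‖) ^ 2 with hσ
  have hσ0 : 0 ≤ σ := by positivity
  set Q : ℝ := Real.exp a * (2700 * x ^ 2 / η) ^ n with hQ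
  have hQ0 : 0 < Q := by positivity
  -- the disc in the ball
  have hperp : ∀ ω : ℂ, br (β + (ω - w) • B) p = 0 := fun ω => G5y_perp hβp hβ₀ _ _
  have hball : ∀ ω ∈ ball c ϱ, ‖Zm p (β + (ω - w) • B) ω‖ < 1 ∧ ω + 1 ≠ 0 := by
    intro ω hω
    exact G2b hp (hperp ω) (by linarith [(hdisc ω hω).2.1])
  have hZd : DifferentiableOn ℂ (fun ω : ℂ => Zm p (β + (ω - w) • B) ω) (ball c ϱ) := by
    intro ω hω
    apply DifferentiableAt.differentiableWithinAt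
    have h1 := (hball ω hω).2
    have hd : DifferentiableAt ℂ (fun ω : ℂ => 2 / (ω + 1)) ω :=
      (differentiableAt_const _).div (differentiableAt_id.add_const _) h1
    have hd2 : DifferentiableAt ℂ (fun ω : ℂ => β + (ω - w) • B - p) ω := by fun_prop
    exact (differentiableAt_const p).add (hd.smul hd2)
  have hmaps : Set.MapsTo (fun ω : ℂ => Zm p (β + (ω - w) • B) ω) (ball c ϱ) (ball 0 1) := by
    intro ω hω
    rw [mem_ball_zero_iff]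
    exact (hball ω hω).1
  have hmZ : DifferentiableOn ℂ (fun ω : ℂ => m (Zm p (β + (ω - w) • B) ω)) (ball c ϱ) :=
    hm.comp hZd hmaps
  have hhZ : DifferentiableOn ℂ (fun ω : ℂ => h (Zm p (β + (ω - w) • B) ω)) (ball c ϱ) :=
    hh.comp hZd hmaps
  set bb : ℂ → ℂ := fun ω => m (Zm p (β + (ω - w) • B) ω) *
    Complex.exp ((a : ℂ) * (ω - (σ : ℂ))) with hbb
  set kk : ℂ → ℂ := fun ω => h (Zm p (β + (ω - w) • B) ω) / (Q : ℂ) with hkk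
  have hbd : DifferentiableOn ℂ bb (ball c ϱ) := by
    apply hmZ.mul
    have : Differentiable ℂ (fun ω : ℂ => Complex.exp ((a : ℂ) * (ω - (σ : ℂ)))) := by fun_prop
    exact this.differentiableOn
  have hkd : DifferentiableOn ℂ kk (ball c ϱ) := hhZ.div_const _
  have hexp : ∀ ω : ℂ, ‖Complex.exp ((a : ℂ) * (ω - (σ : ℂ)))‖ = Real.exp (a * (ω.re - σ)) := by
    intro ω
    rw [Complex.norm_exp]
    congr 1
    simp
  have hPZ : ∀ ω ∈ ball c ϱ, tt (Zm p (β + (ω - w) • B) ω) /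
      TT p (Zm p (β + (ω - w) • B) ω) ^ 2 = ω.re - ‖β + (ω - w) • B‖ ^ 2 := fun ω hω =>
    (G2z hp (hperp ω) (hball ω hω).2).2.2.2.2.1
  have hle : ∀ ω ∈ ball c ϱ, a * ‖β + (ω - w) • B‖ ^ 2 ≤ a * σ := fun ω hω =>
    mul_le_mul_of_nonneg_left (hdisc ω hω).2.2 ha
  have hb1 : ∀ ω ∈ ball c ϱ, ‖bb ω‖ ≤ 1 := by
    intro ω hω
    have h1 := hma _ (hball ω hω).1
    rw [hPZ ω hω] at h1
    calc ‖bb ω‖ = ‖m (Zm p (β + (ω - w) • B) ω)‖ * Real.exp (a * (ω.re - σ)) := by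
          rw [hbb]
          simp only
          rw [norm_mul, hexp]
      _ ≤ Real.exp (-(a * (ω.re - ‖β + (ω - w) • B‖ ^ 2))) * Real.exp (a * (ω.re - σ)) :=
          mul_le_mul_of_nonneg_right h1 (Real.exp_pos _).le
      _ = Real.exp (a * ‖β + (ω - w) • B‖ ^ 2 - a * σ) := by
          rw [← Real.exp_add]
          congr 1
          ring
      _ ≤ 1 := by
          rw [Real.exp_le_one_iff]
          linarith [hle ω hω]
  have hb2 : ∀ ω ∈ ball c ϱ, ‖kk ω * bb ω‖ ≤ 1 := by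
    intro ω hω
    obtain ⟨hb, hω1⟩ := hball ω hω
    obtain ⟨hd1, hd2, hd3⟩ := hdisc ω hω
    have h1 := G2 hp hm hh ha hma hmh hB hη0 hb (by rw [hPZ ω hω]; exact hd2.le)
    rw [hPZ ω hω] at h1
    have hTZ : TT p (Zm p (β + (ω - w) • B) ω) = 2 / ‖ω + 1‖ :=
      (G2z hp (hperp ω) hω1).2.2.1
    have hn : 0 < ‖ω + 1‖ := norm_pos_iff.2 hω1
    have hn2 : ‖ω + 1‖ ≤ 103 * x := by
      have := norm_add_le ω 1
      rw [norm_one] at this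
      linarith
    have h2 : 1 / (η * TT p (Zm p (β + (ω - w) • B) ω) ^ 2) ≤ 2700 * x ^ 2 / η := by
      rw [hTZ]
      have e1 : 1 / (η * (2 / ‖ω + 1‖) ^ 2) = ‖ω + 1‖ ^ 2 / 4 / η := by
        field_simp
        norm_num
      rw [e1]
      apply div_le_div_of_nonneg_right _ hη0.le
      have : ‖ω + 1‖ ^ 2 ≤ (103 * x) ^ 2 := pow_le_pow_left₀ hn.le hn2 2
      have e2 : (103 * x) ^ 2 = 10609 * x ^ 2 := by ring
      rw [e2] at this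
      have e3 : 0 ≤ x ^ 2 := sq_nonneg _
      linarith
    have h2' : 0 ≤ 1 / (η * TT p (Zm p (β + (ω - w) • B) ω) ^ 2) := by positivity
    have h3 : (1 / (η * TT p (Zm p (β + (ω - w) • B) ω) ^ 2)) ^ n ≤ (2700 * x ^ 2 / η) ^ n :=
      pow_le_pow_left₀ h2' h2 n
    have h4 : Real.exp (a * η) ≤ Real.exp a := by
      apply Real.exp_le_exp.2
      exact mul_le_of_le_one_right ha hη1
    have h5 : Real.exp (a * η) * (1 / (η * TT p (Zm p (β + (ω - w) • B) ω) ^ 2)) ^ n ≤ Q :=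
      mul_le_mul h4 h3 (pow_nonneg h2' n) (Real.exp_pos _).le
    have h6 : ‖m (Zm p (β + (ω - w) • B) ω) * h (Zm p (β + (ω - w) • B) ω)‖ ≤
        Q * Real.exp (-(a * (ω.re - ‖β + (ω - w) • B‖ ^ 2))) :=
      h1.trans (mul_le_mul_of_nonneg_right h5 (Real.exp_pos _).le)
    have e5 : kk ω * bb ω = (m (Zm p (β + (ω - w) • B) ω) * h (Zm p (β + (ω - w) • B) ω)) *
        Complex.exp ((a : ℂ) * (ω - (σ : ℂ))) / (Q : ℂ) := by
      rw [hkk, hbb]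
      simp only
      ring
    rw [e5, norm_div, norm_mul, hexp, Complex.norm_real, Real.norm_of_nonneg hQ0.le,
      div_le_one hQ0]
    calc ‖m (Zm p (β + (ω - w) • B) ω) * h (Zm p (β + (ω - w) • B) ω)‖ *
          Real.exp (a * (ω.re - σ)) ≤
          (Q * Real.exp (-(a * (ω.re - ‖β + (ω - w) • B‖ ^ 2)))) * Real.exp (a * (ω.re - σ)) :=
          mul_le_mul_of_nonneg_right h6 (Real.exp_pos _).le
      _ = Q * Real.exp (a * ‖β + (ω - w) • B‖ ^ 2 - a * σ) := by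
          rw [mul_assoc, ← Real.exp_add]
          congr 2
          ring
      _ ≤ Q * 1 := by
          apply mul_le_mul_of_nonneg_left _ hQ0.le
          rw [Real.exp_le_one_iff]
          linarith [hle ω hω]
      _ = Q := mul_one _
  -- the value at `ξ`
  have hξball : ξ ∈ ball c ϱ := by
    rw [mem_ball, dist_eq_norm]
    exact hξc
  have hβξ : β + (ξ - w) • B = β₀ := by
    rw [hBdef, smul_smul, mul_inv_cancel₀ hne', one_smul]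
    abel
  have hbξ : Real.exp (-(9 * x * ε + a * σ)) ≤ ‖bb ξ‖ := by
    have e1 : ‖bb ξ‖ = ‖m (Zm p β₀ ξ)‖ * Real.exp (a * (ξ.re - σ)) := by
      rw [hbb]
      simp only
      rw [norm_mul, hexp, hβξ]
    rw [e1]
    calc Real.exp (-(9 * x * ε + a * σ)) ≤
          Real.exp (-(a * (ξ.re - ‖β₀‖ ^ 2)) - 9 * x * ε) * Real.exp (a * (ξ.re - σ)) := by
          rw [← Real.exp_add]
          apply Real.exp_le_exp.2
          have : 0 ≤ a * ‖β₀‖ ^ 2 := by positivity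
          linarith
      _ ≤ _ := mul_le_mul_of_nonneg_right hξ3 (Real.exp_pos _).le
  have hbξ0 : 0 < ‖bb ξ‖ := lt_of_lt_of_le (Real.exp_pos _) hbξ
  have hKL := KL4 hϱ hbd hkd hb1 hb2 hξc hwc (norm_pos_iff.1 hbξ0)
  have hlog0 : 0 ≤ Real.log (1 / ‖bb ξ‖) := by
    apply Real.log_nonneg
    rw [one_le_div hbξ0]
    exact hb1 ξ hξball
  have hlog1 : Real.log (1 / ‖bb ξ‖) ≤ 9 * x * ε + a * σ := by
    rw [one_div, Real.log_inv]
    have := Real.log_le_log (Real.exp_pos _) hbξ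
    rw [Real.log_exp] at this
    linarith
  have hkw : ‖kk w‖ = ‖h z‖ / Q := by
    rw [hkk]
    simp only
    rw [sub_self, zero_smul, add_zero, hZw, norm_div, Complex.norm_real,
      Real.norm_of_nonneg hQ0.le]
  rw [hkw, div_le_iff₀ hQ0] at hKL
  refine hKL.trans ?_
  rw [mul_comm]
  apply mul_le_mul_of_nonneg_left _ hQ0.le
  apply Real.exp_le_exp.2
  exact mul_le_mul hconst hlog1 hlog0 (by positivity)

end Pool.Agent.CRT
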