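import Pool.Agent.CRT.G4
import Pool.Agent.CRT.G5

/-!
# [G6] The fine growth bound `|h| ≤ e^{ε/t}` near `p` for `|z'|² ≤ δT`
-/

set_option autoImplicit false

namespace Pool.Agent.CRT

open Metric

/-- Proof.  Let `a` be given by `G4`.  Put `ε' = ε/2400` and let `β₀, X₀` be given by `G4` for `ε'`.  Let
`T = T_p(z) < δ ≤ 1/2`, `|z'|² ≤ δT`, `x = |ww p z|`, `y = t/T²`, `β = |z'|/T`.  By `F2a` `x ≥ (2-T)/T ≥ 1/T ≥ 1/δ` and
`x ≤ 2/T`.  Take `δ` so small that `1/δ ≥ max(10⁴(1+|β₀|²), X₀)`, `δ ≤ 10^{-4}`; then `β² ≤ δ/T ≤ δx ≤ x/10⁴`.  Let `ξ` be given by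
`G4` for `X = 3x`.  `G5` applies:
`|h(z)| ≤ e^a (2700x²/min(1,y/2))^n exp(30(x/y)(9xε' + 3000a(|β₀|+β)²))`.
`3000a(|β₀|+β)² ≤ 6000a(|β₀|²+δx) ≤ ε'x` if `6000a|β₀|² ≤ ε'/(2δ) (≤ ε'x/2)` and `6000aδ ≤ ε'/2`: true for
small `δ`.  So the exponential is `≤ exp(300ε'x²/y)`, and `x²/y ≤ (4/T²)(T²/t) = 4/t`: `≤ exp(1200ε'/t) = exp(ε/(2t))`.
`x²/min(1,y/2) ≤ max(x², 2x²/y) ≤ max(4/T², 8/t) ≤ 16/t²` (`t ≤ 2T`, `t ≤ 1`), so the first factors are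
`≤ e^a(43200/t²)^n ≤ e^{ε/(2t)}` for `t ≤ 2δ` small. -/
theorem G6 {d : ℕ} {m : E d → ℂ} {p : E d} (hp : ‖p‖ = 1)
    (hm : DifferentiableOn ℂ m (ball 0 1)) (hm1 : ∀ z : E d, ‖z‖ < 1 → ‖m z‖ ≤ 1)
    (hm0 : ∃ z : E d, ‖z‖ < 1 ∧ m z ≠ 0) (n : ℕ) {ε : ℝ} (hε : 0 < ε) :
    ∃ δ : ℝ, 0 < δ ∧ ∀ h : E d → ℂ, DifferentiableOn ℂ h (ball 0 1) →
      (∀ z : E d, ‖z‖ < 1 → ‖m z * h z‖ ≤ (1 / tt z) ^ n) →
      (∃ Bh : ℝ, ∀ z : E d, ‖z‖ < 1 → ‖h z‖ ≤ Bh) →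
      ∀ z : E d, ‖z‖ < 1 → TT p z < δ → ‖pr p z‖ ^ 2 ≤ δ * TT p z →
        ‖h z‖ ≤ Real.exp (ε / tt z) := by
  obtain ⟨a, ha, hma, hG⟩ := G4 hp hm hm1 hm0
  have hε' : (0 : ℝ) < ε / 2400 := by positivity
  obtain ⟨β₀, X₀, hβ₀, hX₀, hX⟩ := hG (ε / 2400) hε'
  -- the threshold for the polynomial factor
  have hpoly : ∃ S : ℝ, 0 < S ∧ ∀ s : ℝ, S ≤ s →
      Real.exp a * (43200 * s ^ 2) ^ n ≤ Real.exp (ε / 2 * s) := by
    have h1 := isLittleO_pow_exp_pos_mul_atTop (2 * n) (b := ε / 2) (by positivity)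
    have hc : (0 : ℝ) < (Real.exp a * 43200 ^ n)⁻¹ := by positivity
    have h2 := h1.bound hc
    obtain ⟨S, hS⟩ := Filter.eventually_atTop.1 h2
    refine ⟨max S 1, by positivity, fun s hs => ?_⟩
    have h3 := hS s ((le_max_left _ _).trans hs)
    have hs0 : 0 < s := lt_of_lt_of_le (by norm_num) ((le_max_right _ _).trans hs)
    rw [Real.norm_of_nonneg (by positivity), Real.norm_of_nonneg (by positivity)] at h3
    have h4 := mul_le_mul_of_nonneg_left h3 (by positivity : (0:ℝ) ≤ Real.exp a * 43200 ^ n)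
    rw [← mul_assoc, mul_inv_cancel₀ (by positivity), one_mul] at h4
    calc Real.exp a * (43200 * s ^ 2) ^ n = Real.exp a * 43200 ^ n * s ^ (2 * n) := by
          rw [mul_pow, ← pow_mul]; ring
      _ ≤ _ := h4
  obtain ⟨S, hS0, hS⟩ := hpoly
  obtain ⟨b, hb⟩ : ∃ b : ℝ, b = ‖β₀‖ ^ 2 := ⟨_, rfl⟩
  have hb0 : 0 ≤ b := by rw [hb]; positivity
  obtain ⟨D, hD⟩ : ∃ D : ℝ, D = 10 ^ 4 * (1 + b) + X₀ +
    12000 * a * b / (ε / 2400) + 12000 * a / (ε / 2400) + 2 * S := ⟨_, rfl⟩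
  have hq1 : 0 ≤ 12000 * a * b / (ε / 2400) := by positivity
  have hq2 : 0 ≤ 12000 * a / (ε / 2400) := by positivity
  have hD1 : 10 ^ 4 * (1 + b) ≤ D := by linarith
  have hD1' : 10 ^ 4 ≤ D := by linarith
  have hD2 : X₀ ≤ D := by linarith
  have hD3 : 12000 * a * b ≤ ε / 2400 * D := by
    have : 12000 * a * b / (ε / 2400) ≤ D := by linarith
    rw [div_le_iff₀ hε'] at this
    linarith
  have hD4 : 12000 * a ≤ ε / 2400 * D := by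
    have : 12000 * a / (ε / 2400) ≤ D := by linarith
    rw [div_le_iff₀ hε'] at this
    linarith
  have hD5 : 2 * S ≤ D := by linarith
  have hD0 : 0 < D := by linarith
  refine ⟨1 / D, by positivity, fun h hh hmh hBh z hz hT hpr => ?_⟩
  obtain ⟨Bh, hBh⟩ := hBh
  obtain ⟨-, -, -, hT0, -, ht0, ht1⟩ := F1b hp hz
  obtain ⟨-, htT⟩ := F1c hp hz
  obtain ⟨-, hx2, hx1, -, -, -⟩ := F2a hp hz
  have hG5 := fun (ξ : ℂ) (hx1 : 10 ^ 4 * (1 + ‖β₀‖ ^ 2) ≤ ‖ww p z‖)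
    (hβ : (‖pr p z‖ / TT p z) ^ 2 ≤ ‖ww p z‖ / 10 ^ 4)
    (hξ : ‖ξ - ((‖β₀‖ ^ 2 : ℝ) : ℂ)‖ = 3 * ‖ww p z‖)
    (hξ2 : 3 / 2 * ‖ww p z‖ ≤ ξ.re - ‖β₀‖ ^ 2)
    (hξ3 : Real.exp (-(a * (ξ.re - ‖β₀‖ ^ 2)) - 9 * ‖ww p z‖ * (ε / 2400)) ≤
      ‖m (Zm p β₀ ξ)‖) =>
    G5 hp hm hh ha hma hmh hBh hε' hβ₀ hz hx1 hβ hξ hξ2 hξ3
  obtain ⟨T, hTd⟩ : ∃ T : ℝ, T = TT p z := ⟨_, rfl⟩
  obtain ⟨t, htd⟩ : ∃ t : ℝ, t = tt z := ⟨_, rfl⟩
  obtain ⟨x, hxd⟩ : ∃ x : ℝ, x = ‖ww p z‖ := ⟨_, rfl⟩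
  obtain ⟨q, hqd⟩ : ∃ q : ℝ, q = ‖pr p z‖ := ⟨_, rfl⟩
  obtain ⟨c, hcd⟩ : ∃ c : ℝ, c = ‖β₀‖ := ⟨_, rfl⟩
  rw [← hTd] at hT hpr hT0 htT hx1 hx2
  rw [← htd] at ht0 ht1 htT
  rw [← hxd] at hx1 hx2
  rw [← hqd] at hpr
  rw [← hTd, ← htd, ← hxd, ← hqd, ← hcd] at hG5
  rw [← hcd] at hb hX
  rw [← htd]
  -- `1/T ≤ x`
  have hTD : D * T < 1 := by
    have := (lt_div_iff₀ hD0).1 hT
    linarith
  have hT1 : T < 1 := by
    have := mul_le_mul_of_nonneg_right (show (1 : ℝ) ≤ D by linarith) hT0.le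
    linarith
  have hx3 : 1 / T ≤ x := by
    refine le_trans ?_ hx1
    gcongr
    linarith
  have hDx : D ≤ x := by
    refine le_trans ?_ hx3
    rw [le_div_iff₀ hT0]
    linarith
  have hx0 : 0 < x := by linarith
  -- `β² ≤ δ x`
  have hβ : (q / T) ^ 2 ≤ x / D := by
    rw [div_pow, div_le_iff₀ (by positivity)]
    have h1 : 1 ≤ x * T := by
      rwa [div_le_iff₀ hT0] at hx3
    calc q ^ 2 ≤ 1 / D * T := hpr
      _ ≤ 1 / D * T * (x * T) := le_mul_of_one_le_right (by positivity) h1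
      _ = x / D * T ^ 2 := by ring
  have hβ' : (q / T) ^ 2 ≤ x / 10 ^ 4 := by
    refine hβ.trans ?_
    gcongr
  obtain ⟨ξ, hξ1, hξ2, hξ3⟩ := hX (3 * x) (by linarith)
  have hxb : 10 ^ 4 * (1 + c ^ 2) ≤ x := by rw [← hb]; linarith
  have hm9 : Real.exp (-(a * (ξ.re - c ^ 2)) - 9 * x * (ε / 2400)) ≤ ‖m (Zm p β₀ ξ)‖ := by
    refine le_trans (le_of_eq ?_) hξ3
    ring_nf
  have key := hG5 ξ hxb hβ' hξ1 (by linarith) hm9
  refine key.trans ?_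
  -- first bound
  have hxsq : x ^ 2 ≤ 4 / T ^ 2 := by
    calc x ^ 2 ≤ (2 / T) ^ 2 := by gcongr
      _ = 4 / T ^ 2 := by ring
  have h1 : 2700 * x ^ 2 / min 1 (t / T ^ 2 / 2) ≤ 43200 * (1 / t) ^ 2 := by
    have hmin : 0 < min 1 (t / T ^ 2 / 2) := lt_min (by norm_num) (by positivity)
    rw [div_le_iff₀ hmin]
    rcases min_choice (1 : ℝ) (t / T ^ 2 / 2) with h | h
    · rw [h, mul_one]
      have h2 : 1 / T ^ 2 ≤ 4 * (1 / t) ^ 2 := by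
        rw [div_le_iff₀ (by positivity)]
        have : 4 * (1 / t) ^ 2 * T ^ 2 = (2 * T / t) ^ 2 := by ring
        rw [this]
        have h3 : 1 ≤ 2 * T / t := by rw [le_div_iff₀ ht0]; linarith
        exact one_le_pow₀ h3
      calc 2700 * x ^ 2 ≤ 2700 * (4 / T ^ 2) := by gcongr
        _ = 10800 * (1 / T ^ 2) := by ring
        _ ≤ 10800 * (4 * (1 / t) ^ 2) := by gcongr
        _ = _ := by ring
    · rw [h]
      have h2 : 1 ≤ 1 / t := by rw [le_div_iff₀ ht0]; linarith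
      calc 2700 * x ^ 2 ≤ 2700 * (4 / T ^ 2) := by gcongr
        _ = 10800 / T ^ 2 * 1 := by ring
        _ ≤ 10800 / T ^ 2 * (2 * (1 / t)) := by gcongr; linarith
        _ = 21600 / T ^ 2 * (1 / t) := by ring
        _ = 43200 * (1 / t) ^ 2 * (t / T ^ 2 / 2) := by
            field_simp
            ring
  have h1' : Real.exp a * (2700 * x ^ 2 / min 1 (t / T ^ 2 / 2)) ^ n ≤
      Real.exp (ε / 2 * (1 / t)) := by
    have hmin : 0 < min 1 (t / T ^ 2 / 2) := lt_min (by norm_num) (by positivity)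
    refine le_trans ?_ (hS (1 / t) ?_)
    · gcongr
    · rw [le_div_iff₀ ht0]
      calc S * t ≤ S * (2 * T) := by gcongr
        _ = 2 * S * T := by ring
        _ ≤ D * T := by gcongr
        _ ≤ 1 := hTD.le
  -- second bound
  have h2 : a * (3000 * (c + q / T) ^ 2) ≤ ε / 2400 * x := by
    have h3 : (c + q / T) ^ 2 ≤ 2 * (c ^ 2 + (q / T) ^ 2) := by
      linarith [sq_nonneg (c - q / T)]
    have h4 : a * (3000 * (c + q / T) ^ 2) ≤ a * (3000 * (2 * (c ^ 2 + (q / T) ^ 2))) := by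
      gcongr
    have h5 : a * (q / T) ^ 2 ≤ a * (x / D) := by gcongr
    have h6 : 12000 * a * (x / D) ≤ ε / 2400 * x := by
      rw [← mul_div_assoc, div_le_iff₀ hD0]
      have := mul_le_mul_of_nonneg_right hD4 hx0.le
      linarith
    have h7 : 12000 * a * b ≤ ε / 2400 * x := by
      refine hD3.trans ?_
      gcongr
    rw [← hb] at h4
    linarith
  have h3 : 30 * (x / (t / T ^ 2)) * (9 * x * (ε / 2400) + a * (3000 * (c + q / T) ^ 2)) ≤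
      ε / 2 * (1 / t) := by
    calc 30 * (x / (t / T ^ 2)) * (9 * x * (ε / 2400) + a * (3000 * (c + q / T) ^ 2))
        ≤ 30 * (x / (t / T ^ 2)) * (9 * x * (ε / 2400) + ε / 2400 * x) := by gcongr
      _ = 300 * (ε / 2400) * (x ^ 2 * (T ^ 2 / t)) := by
          field_simp
          ring
      _ ≤ 300 * (ε / 2400) * (4 / T ^ 2 * (T ^ 2 / t)) := by gcongr
      _ = ε / 2 * (1 / t) := by
          field_simp
          ring
  calc Real.exp a * (2700 * x ^ 2 / min 1 (t / T ^ 2 / 2)) ^ n *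
        Real.exp (30 * (x / (t / T ^ 2)) * (9 * x * (ε / 2400) +
          a * (3000 * (c + q / T) ^ 2)))
      ≤ Real.exp (ε / 2 * (1 / t)) * Real.exp (ε / 2 * (1 / t)) := by gcongr
    _ = Real.exp (ε / t) := by
        rw [← Real.exp_add]
        congr 1
        ring

end Pool.Agent.CRT
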