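import Pool.Agent.CRT.G1
import Pool.Agent.CRT.G6
import Pool.Agent.CRT.P2

/-!
# [G7x] Power series are holomorphic
-/

set_option autoImplicit false

namespace Pool.Agent.CRT

open Metric

/-- monomials are holomorphic -/
theorem G7x_mono {d : ℕ} (α : MI d) : Differentiable ℂ (fun z : E d => mono z α) := by
  unfold mono
  fun_prop

/-- a point with larger coordinates -/
theorem G7x_point {d : ℕ} {z₀ : E d} (hz₀ : ‖z₀‖ < 1) : ∃ ε : ℝ, 0 < ε ∧
    ∃ w : E d, ‖w‖ < 1 ∧ (∀ z : E d, ‖z - z₀‖ < 2 * ε → ‖z‖ < 1) ∧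
      ∀ z : E d, ‖z - z₀‖ < 2 * ε → ∀ i, ‖z i‖ ≤ ‖w i‖ := by
  set u : ℝ → E d := fun t => WithLp.toLp 2 (fun i => ((‖z₀ i‖ + t : ℝ) : ℂ)) with hu
  have hcont : Continuous u := by
    rw [hu]
    refine (PiLp.continuous_toLp 2 _).comp ?_
    exact continuous_pi fun i => Complex.continuous_ofReal.comp (continuous_const.add continuous_id)
  have h0 : ‖u 0‖ < 1 := by
    have : ‖u 0‖ = ‖z₀‖ := by
      rw [EuclideanSpace.norm_eq, EuclideanSpace.norm_eq]
      congr 1
      apply Finset.sum_congr rfl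
      intro i _
      simp [hu]
    rw [this]
    exact hz₀
  have hev : ∀ᶠ t in nhds (0:ℝ), ‖u t‖ < 1 :=
    (hcont.norm.tendsto 0).eventually (gt_mem_nhds h0)
  have hev2 : ∀ᶠ t in nhds (0:ℝ), t < 1 - ‖z₀‖ := gt_mem_nhds (by linarith)
  obtain ⟨t, ⟨ht1, ht2⟩, ht0⟩ := (((hev.and hev2).filter_mono nhdsWithin_le_nhds).and
    (self_mem_nhdsWithin (s := Set.Ioi (0:ℝ)))).exists
  have ht0' : (0:ℝ) < t := ht0
  refine ⟨t / 2, by linarith, u t, ht1, ?_, ?_⟩
  · intro z hz
    have h1 : z = z₀ + (z - z₀) := by abel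
    have h2 : ‖z‖ ≤ ‖z₀‖ + ‖z - z₀‖ := by
      conv_lhs => rw [h1]
      exact norm_add_le _ _
    linarith
  · intro z hz i
    have h1 : z i = z₀ i + (z - z₀) i := by simp
    have h2 : ‖z i‖ ≤ ‖z₀ i‖ + ‖(z - z₀) i‖ := by
      conv_lhs => rw [h1]
      exact norm_add_le _ _
    have h3 : ‖(z - z₀) i‖ ≤ ‖z - z₀‖ := PiLp.norm_apply_le _ i
    have h4 : ‖(u t) i‖ = ‖z₀ i‖ + t := by
      rw [hu]
      simp only
      rw [Complex.norm_real, Real.norm_of_nonneg]
      positivity
    rw [h4]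
    linarith

/-- Functions given by power series are holomorphic on the ball: `F = ∑_k hp f k`, locally uniformly
(for `‖z‖ ≤ r < r' < 1`: `|hp f k z| ≤ (r/r')^k sup_{‖x‖ = r'}(∑_{|α|=k} |f_α x^α|)`; an easier way: on the
ball of radius `r` every `z` satisfies `|hp f k z| ≤ √(nk wH f k) √c_k r^k`, and
`nk wH f k ≤ C²r'^{-2k}` by `P2h`, `S2c`; or differentiate the multivariate series `∑_α` directly). -/
theorem TS_diff {d : ℕ} (hd : 1 ≤ d) {F : E d → ℂ} {f : PS d} (h : IsTS F f) :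
    DifferentiableOn ℂ F (ball 0 1) := by
  intro z₀ hz₀
  rw [mem_ball_zero_iff] at hz₀
  apply DifferentiableAt.differentiableWithinAt
  obtain ⟨ε, hε, w, hw, hball, hle⟩ := G7x_point hz₀
  -- the dominating series
  set u : MI d → ℝ := fun α => ‖MvPowerSeries.coeff α f * mono w α‖ with hu
  have hus : Summable u := (h w hw).summable.norm
  have hdom : ∀ (α : MI d) (z : E d), ‖z - z₀‖ < 2 * ε →
      ‖MvPowerSeries.coeff α f * mono z α‖ ≤ u α := by
    intro α z hz
    rw [hu]
    simp only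
    rw [norm_mul, norm_mul]
    apply mul_le_mul_of_nonneg_left _ (norm_nonneg _)
    unfold mono
    rw [norm_prod, norm_prod]
    apply Finset.prod_le_prod
    · intro i _
      exact norm_nonneg _
    · intro i _
      rw [norm_pow, norm_pow]
      exact pow_le_pow_left₀ (norm_nonneg _) (hle z hz i) _
  set g : MI d → E d → ℂ := fun α z => MvPowerSeries.coeff α f * mono z α with hg
  have hgd : ∀ α, Differentiable ℂ (g α) := fun α => (G7x_mono α).const_mul _
  have hder : ∀ (α : MI d) (z : E d), z ∈ ball z₀ ε → ‖fderiv ℂ (g α) z‖ ≤ 2 * u α / ε := by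
    intro α z hz
    rw [mem_ball, dist_eq_norm] at hz
    refine Complex.norm_fderiv_le_div_of_mapsTo_ball (hgd α).differentiableOn ?_ hε
    intro x hx
    rw [mem_ball, dist_eq_norm] at hx
    rw [mem_closedBall, dist_eq_norm]
    have h1 : ‖g α x‖ ≤ u α := by
      apply hdom
      have e : x - z₀ = (x - z) + (z - z₀) := by abel
      rw [e]
      refine lt_of_le_of_lt (norm_add_le _ _) (by linarith)
    have h2 : ‖g α z‖ ≤ u α := hdom α z (by linarith)
    refine (norm_sub_le _ _).trans (by linarith)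
  have hus' : Summable fun α => 2 * u α / ε := (hus.mul_left 2).div_const ε
  have hz₀b : z₀ ∈ ball z₀ ε := mem_ball_self hε
  have key := hasFDerivAt_tsum_of_isPreconnected (𝕜 := ℂ) hus' isOpen_ball
    (convex_ball z₀ ε).isPreconnected (f := g) (f' := fun α z => fderiv ℂ (g α) z)
    (fun α z _ => (hgd α z).hasFDerivAt) hder hz₀b (h z₀ hz₀).summable hz₀b
  refine (key.differentiableAt).congr_of_eventuallyEq ?_
  filter_upwards [isOpen_ball.mem_nhds hz₀b] with z hz
  rw [mem_ball, dist_eq_norm] at hz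
  exact ((h z (hball z (by linarith))).tsum_eq).symm

end Pool.Agent.CRT
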