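import Pool.Agent.CRT.G1
import Pool.Agent.CRT.G6
import Pool.Agent.CRT.P2
import Pool.Agent.CRT.G7x

/-!
# [G7y] The family of h with |mh| bounded by a power of 1/t is tame
-/

set_option autoImplicit false

namespace Pool.Agent.CRT

open Metric

/-- Proof.  `ev m` is holomorphic on the ball (`TS_diff`, `P2e`), not identically zero (`P2a`: `m ≠ 0`), and
`h` a polynomial is entire and bounded on the ball.  `G1` and `G6`. -/
theorem G7 {d : ℕ} (hd : 1 ≤ d) {m : PS d} (hm : m ∈ Hinf d) (hm0 : m ≠ 0)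
    (hm1 : ∀ z : E d, ‖z‖ < 1 → ‖ev m z‖ ≤ 1) (n : ℕ) :
    Tame {h : PS d | IsPoly h ∧ ∀ z : E d, ‖z‖ < 1 → ‖ev m z * ev h z‖ ≤ (1 / tt z) ^ n} := by
  have hmTS : IsTS (ev m) m := P2e hm.1
  have hmd : DifferentiableOn ℂ (ev m) (ball 0 1) := TS_diff hd hmTS
  have hne : ∃ z : E d, ‖z‖ < 1 ∧ ev m z ≠ 0 := by
    by_contra hcon
    push Not at hcon
    apply hm0
    have h0 : IsTS (ev m) (0 : PS d) := by
      intro z hz
      rw [hcon z hz]
      have : (fun α : MI d => MvPowerSeries.coeff α (0 : PS d) * mono z α) = fun _ => (0 : ℂ) := by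
        ext α
        rw [map_zero, zero_mul]
      rw [this]
      exact hasSum_zero
    exact P2a hmTS h0
  have hpol : ∀ h : PS d, IsPoly h → Differentiable ℂ (ev h) ∧
      ∃ Bh : ℝ, ∀ z : E d, ‖z‖ < 1 → ‖ev h z‖ ≤ Bh := by
    rintro h ⟨K, hK⟩
    obtain ⟨-, -, hc, hdf⟩ := P2p hK
    refine ⟨hdf, ?_⟩
    obtain ⟨C, hC⟩ := (isCompact_closedBall (0 : E d) 1).exists_bound_of_continuousOn
      hc.continuousOn
    exact ⟨C, fun z hz => hC z (mem_closedBall_zero_iff.2 hz.le)⟩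
  constructor
  · intro h hh
    exact hh.1
  · obtain ⟨a, ha, hma⟩ := hne
    obtain ⟨C, hC⟩ := G1 hmd hm1 ha hma n
    exact ⟨C, fun h hh => hC (ev h) (hpol h hh.1).1.differentiableOn hh.2⟩
  · intro p hp ε hε
    obtain ⟨δ, hδ, H⟩ := G6 hp hmd hm1 hne n hε
    exact ⟨δ, hδ, fun h hh => H (ev h) (hpol h hh.1).1.differentiableOn hh.2 (hpol h hh.1).2⟩

end Pool.Agent.CRT
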