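import Pool.Agent.CRT.P4

/-!
# The reproducing kernels of the two weighted spaces

`∑_α z^α conj(ζ^α)/wD(α) = 1/(1-<z,ζ>)` and `∑_α z^α conj(ζ^α)/wH(α) = 1/(1-<z,ζ>)^d`: the spaces with the
weights `wD`, `wH` are the Drury–Arveson space and the Hardy space of the ball.
-/

set_option autoImplicit false

namespace Pool.Agent.CRT

open Finset MvPowerSeries

theorem kern_TS {d : ℕ} {φ : ℕ → ℂ} {g : ℂ → ℂ}
    (hg : ∀ x : ℂ, ‖x‖ < 1 → HasSum (fun k => φ k * x ^ k) (g x)) {ζ : E d} (hζ : ‖ζ‖ < 1) :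
    IsTS (fun z => g (br z ζ)) (P4x_e φ ζ) := by
  intro z hz
  have hs : Summable fun α => ‖coeff α (P4x_e φ ζ) * mono z α‖ := by
    rw [A0a_summable_iff fun α => norm_nonneg _]
    have hr : ‖ζ‖ * ‖z‖ < 1 := by
      have h1 : ‖ζ‖ * ‖z‖ ≤ 1 * ‖z‖ := mul_le_mul_of_nonneg_right hζ.le (norm_nonneg _)
      linarith
    refine Summable.of_nonneg_of_le (fun k => Finset.sum_nonneg fun α _ => norm_nonneg _)
      (fun k => ?_) (P4x_summable hg (by positivity) hr)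
    have h2 := A2a (P4x_e φ ζ) k z
    rw [P4x_nk] at h2
    have h3 : (‖φ k‖ * ‖ζ‖ ^ k) ^ 2 * ‖z‖ ^ (2 * k) = (‖φ k‖ * (‖ζ‖ * ‖z‖) ^ k) ^ 2 := by
      rw [mul_pow (‖ζ‖) (‖z‖) k]
      ring
    rw [h3] at h2
    exact le_of_sq_le_sq h2 (by positivity)
  have h1 := hs.of_norm.hasSum
  have h2 := P2x_group h1
  simp only [P4x_hp] at h2
  have hb : ‖br z ζ‖ < 1 := by
    have h3 : ‖br z ζ‖ ≤ ‖ζ‖ * ‖z‖ := norm_inner_le_norm _ _
    have h4 : ‖ζ‖ * ‖z‖ ≤ 1 * ‖z‖ := mul_le_mul_of_nonneg_right hζ.le (norm_nonneg _)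
    linarith
  rw [h2.unique (hg _ hb)] at h1
  exact h1

/-- the reproducing kernel of the space with the weights `wD` -/
theorem kernel_DA {d : ℕ} {z ζ : E d} (hz : ‖z‖ < 1) (hζ : ‖ζ‖ < 1) :
    HasSum (fun α : MI d => mono z α * (starRingEnd ℂ) (mono ζ α) / (wD α : ℂ))
      (1 / (1 - br z ζ)) := by
  have hg : ∀ x : ℂ, ‖x‖ < 1 → HasSum (fun k : ℕ => (fun _ : ℕ => (1 : ℂ)) k * x ^ k) (1 / (1 - x)) := by
    intro x hx
    simpa using hasSum_geometric_of_norm_lt_one hx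
  have h := kern_TS hg hζ z hz
  refine h.congr_fun ?_ |> fun h' => h'
  intro α
  rw [P4x_coeff]
  ring

/-- the reproducing kernel of the space with the weights `wH` -/
theorem kernel_H {d : ℕ} (hd : 1 ≤ d) {z ζ : E d} (hz : ‖z‖ < 1) (hζ : ‖ζ‖ < 1) :
    HasSum (fun α : MI d => mono z α * (starRingEnd ℂ) (mono ζ α) / (wH α : ℂ))
      (1 / (1 - br z ζ) ^ d) := by
  have hg : ∀ x : ℂ, ‖x‖ < 1 → HasSum (fun k : ℕ => (cf d k : ℂ) * x ^ k) (1 / (1 - x) ^ d) :=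
    fun x hx => cf_hasSum hd hx
  have h := kern_TS hg hζ z hz
  refine h.congr_fun ?_ |> fun h' => h'
  intro α
  rw [P4x_coeff, wD_eq hd α]
  have h1 : cf d α.degree = ck d α.degree := by
    unfold cf ck
    rw [show d + α.degree - 1 = α.degree + d - 1 by omega,
      ← Nat.choose_symm_of_eq_add (show α.degree + d - 1 = α.degree + (d - 1) by omega)]
  have h2 : (ck d α.degree : ℂ) ≠ 0 := by
    have := one_le_ck (d := d) α.degree
    exact_mod_cast (by linarith : (0 : ℝ) < ck d α.degree).ne'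
  have h3 : (wH α : ℂ) ≠ 0 := by exact_mod_cast (wH_pos α).ne'
  rw [h1]
  push_cast
  field_simp

end Pool.Agent.CRT
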