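import Pool.Agent.CRT.F4
import Pool.Agent.CRT.P2

/-!
# [L2x] N+j preserves tame families
-/

set_option autoImplicit false

namespace Pool.Agent.CRT

open Metric Finset MvPowerSeries

/-- the operator `N + j`: multiplies the homogeneous part of degree `k` by `k+j` -/
noncomputable def Nj {d : ℕ} (j : ℕ) (f : PS d) : PS d :=
  mkP fun α => ((α.degree : ℂ) + j) * coeff α f

theorem L2x_coeff {d : ℕ} (j : ℕ) (f : PS d) (α : MI d) :
    coeff α (Nj j f) = ((α.degree : ℂ) + j) * coeff α f := rfl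

theorem L2x_hp {d : ℕ} (j : ℕ) (f : PS d) (k : ℕ) (z : E d) :
    hp (Nj j f) k z = (k : ℂ) ^ 1 * hp f k z + (j : ℂ) * hp f k z := by
  unfold hp
  rw [Finset.mul_sum, Finset.mul_sum, ← Finset.sum_add_distrib]
  apply Finset.sum_congr rfl
  intro α hα
  rw [mem_A] at hα
  rw [L2x_coeff, hα]
  ring

theorem L2x_poly {d : ℕ} (j : ℕ) {f : PS d} (hf : IsPoly f) : IsPoly (Nj j f) := by
  obtain ⟨K, hK⟩ := hf
  refine ⟨K, fun α hα => ?_⟩
  rw [L2x_coeff, hK α hα, mul_zero]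

theorem L2x_ev {d : ℕ} (j : ℕ) {h : PS d} (hh : IsPoly h) {z : E d} (hz : ‖z‖ < 1) :
    ev (Nj j h) z = Nd 1 (ev h) z + (j : ℂ) * ev h z := by
  obtain ⟨K, hK⟩ := hh
  obtain ⟨K', hK'⟩ := L2x_poly j ⟨K, hK⟩
  have h1 := (P2p hK).2.1
  have h2 := (P2p hK').2.1
  have h3 := (P2c h2 hz).1
  have h4 := P2n h1 1 hz
  have h5 := ((P2c h1 hz).1).mul_left (j : ℂ)
  have h6 := h4.add h5
  refine h3.unique (h6.congr_fun ?_)
  intro k
  exact L2x_hp j h k z

/-- Cauchy's estimate for `N + j` -/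
theorem L2x_cauchy {d : ℕ} (j : ℕ) {h : PS d} (hh : IsPoly h) {z : E d} (hz : ‖z‖ < 1) {B : ℝ}
    (hB : ∀ τ : ℂ, ‖τ‖ ≤ tt z / 8 → ‖ev h (Complex.exp τ • z)‖ ≤ B) (ht : 0 < tt z) :
    ‖ev (Nj j h) z‖ ≤ (8 / tt z + j) * B := by
  rw [L2x_ev j hh hz]
  obtain ⟨K, hK⟩ := hh
  have hdiff := (P2p hK).2.2.2
  have hg : Differentiable ℂ (fun τ : ℂ => ev h (Complex.exp τ • z)) :=
    hdiff.comp (Complex.differentiable_exp.smul_const z)
  have h1 : ‖deriv (fun τ : ℂ => ev h (Complex.exp τ • z)) 0‖ ≤ B / (tt z / 8) := by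
    apply Complex.norm_deriv_le_of_forall_mem_sphere_norm_le (by positivity)
    · exact hg.diffContOnCl
    · intro τ hτ
      rw [mem_sphere_iff_norm, sub_zero] at hτ
      exact hB τ hτ.le
  have h2 : Nd 1 (ev h) z = deriv (fun τ : ℂ => ev h (Complex.exp τ • z)) 0 := by
    unfold Nd
    rw [iteratedDeriv_one]
  have h3 : ‖ev h z‖ ≤ B := by
    have := hB 0 (by rw [norm_zero]; positivity)
    rwa [Complex.exp_zero, one_smul] at this
  rw [h2]
  calc ‖deriv (fun τ : ℂ => ev h (Complex.exp τ • z)) 0 + (j : ℂ) * ev h z‖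
      ≤ ‖deriv (fun τ : ℂ => ev h (Complex.exp τ • z)) 0‖ + ‖(j : ℂ) * ev h z‖ := norm_add_le _ _
    _ ≤ B / (tt z / 8) + (j : ℝ) * B := by
        rw [norm_mul, Complex.norm_natCast]
        have := mul_le_mul_of_nonneg_left h3 (Nat.cast_nonneg (α := ℝ) j)
        linarith
    _ = (8 / tt z + j) * B := by
        field_simp

/-- the points `e^τ z`, `|τ| ≤ t/8`, are in the ball and `t(e^τ z) ≥ t/2` -/
theorem L2x_geo {d : ℕ} {z : E d} (hz : ‖z‖ < 1) {τ : ℂ} (hτ : ‖τ‖ ≤ tt z / 8) :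
    ‖Complex.exp τ • z‖ < 1 ∧ tt z / 2 ≤ tt (Complex.exp τ • z) := by
  have ht0 : 0 < tt z := by
    unfold tt
    nlinarith [norm_nonneg z]
  have ht1 : tt z ≤ 1 := by
    unfold tt
    nlinarith [norm_nonneg z]
  set t := tt z with ht
  have hn : ‖z‖ ^ 2 = 1 - t := by
    rw [ht]
    unfold tt
    ring
  have h1 : ‖Complex.exp τ‖ ≤ Real.exp (t / 8) := by
    rw [Complex.norm_exp]
    apply Real.exp_le_exp.2
    exact (Complex.re_le_norm τ).trans hτ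
  have h2 : ‖Complex.exp τ‖ ^ 2 ≤ Real.exp (t / 4) := by
    calc ‖Complex.exp τ‖ ^ 2 ≤ Real.exp (t / 8) ^ 2 := pow_le_pow_left₀ (norm_nonneg _) h1 2
      _ = Real.exp (t / 4) := by
          rw [← Real.exp_nat_mul]
          congr 1
          push_cast
          ring
  have h3 : Real.exp (t / 4) ≤ 1 + t / 3 := by
    have h4 : |t / 4| ≤ 1 := by
      rw [abs_of_nonneg (by positivity)]
      linarith
    have h5 := Real.abs_exp_sub_one_sub_id_le h4
    have h6 := (abs_le.1 h5).2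
    nlinarith
  have h4 : ‖Complex.exp τ • z‖ ^ 2 ≤ 1 - t / 2 := by
    rw [norm_smul, mul_pow, hn]
    have h5 : ‖Complex.exp τ‖ ^ 2 * (1 - t) ≤ (1 + t / 3) * (1 - t) :=
      mul_le_mul_of_nonneg_right (h2.trans h3) (by linarith)
    nlinarith
  constructor
  · by_contra hc
    push Not at hc
    nlinarith
  · show t / 2 ≤ 1 - ‖Complex.exp τ • z‖ ^ 2
    linarith

theorem L2x_exp {C s t : ℝ} (ht : 0 < t) (hs : t / 2 ≤ s) (hC : 0 ≤ C) :
    Real.exp (C / s) ≤ Real.exp (2 * C / t) := by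
  apply Real.exp_le_exp.2
  have hs0 : 0 < s := by linarith
  rw [div_le_div_iff₀ hs0 ht]
  nlinarith

/-- for `x` large `8x + j ≤ e^{cx}` -/
theorem L2x_large (c : ℝ) (hc : 0 < c) (j : ℕ) : ∃ X : ℝ, 1 ≤ X ∧ ∀ x : ℝ, X ≤ x →
    8 * x + j ≤ Real.exp (c * x) := by
  refine ⟨1 + (8 + j) * 2 / c ^ 2, by
    have : 0 ≤ (8 + (j : ℝ)) * 2 / c ^ 2 := by positivity
    linarith, ?_⟩
  intro x hx
  have h0 : 0 ≤ (8 + (j : ℝ)) * 2 / c ^ 2 := by positivity
  have hx1 : 1 ≤ x := by linarith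
  have h1 := Real.quadratic_le_exp_of_nonneg (show 0 ≤ c * x by positivity)
  have h2 : (8 + (j : ℝ)) * 2 / c ^ 2 ≤ x := by linarith
  rw [div_le_iff₀ (by positivity)] at h2
  have h3 : (8 + (j : ℝ)) * x ≤ (c * x) ^ 2 / 2 := by
    have h4 : (8 + (j : ℝ)) * 2 * x ≤ x * c ^ 2 * x := mul_le_mul_of_nonneg_right h2 (by linarith)
    nlinarith
  have h4 : 8 * x + j ≤ (8 + (j : ℝ)) * x := by
    have : (j : ℝ) ≤ j * x := le_mul_of_one_le_right (Nat.cast_nonneg _) hx1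
    linarith
  have h5 : 0 ≤ c * x := by positivity
  linarith

/-- `(N+j)` preserves tame families.

Proof.  For a polynomial `h`, `ev (Nj j h) z = (d/dτ) h(e^τz)|_{τ=0} + j h(z)`.  Let `t = t(z)` and
`|τ| ≤ t/8`, `y = e^τz`.  `|y|² ≤ e^{t/4}|z|² ≤ (1+t/3)(1-t)`, so `t(y) ≥ t/2` (`≥ 2t/3`).  Cauchy:
`|(d/dτ)h(e^τz)| ≤ (8/t) sup|h(y)|`.
(al): `≤ (8/t)e^{2|C|/t} ≤ e^{(8+2|C|)/t}` (`x ≤ e^x`), and `+ j e^{|C|/t}`; the sum is `≤ e^{C'/t}` with
`C' = 8+2|C|+j+1` (`t ≤ 1`).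
(be): given `p`, `ε`; let `δ` be given by `hH.be p (ε/8)`.  Let `δ' ≤ δ/2` be small, `T_p(z) < δ'`, `|z'|² ≤ δ'T_p(z)`.
`|e^τ-1| ≤ (13/10)|τ| ≤ (13/80)t ≤ (13/40)T_p(z)` (`F7a`, `F1c`), `|y₁-z₁| ≤ |e^τ-1|`, so `T_p(y) ∈ [0.6T_p(z), 1.4T_p(z)]`, `T_p(y) < δ`;
`|y'|² = |e^τ|²|z'|² ≤ 1.3·δ'T_p(z) ≤ 2.2δ'T_p(y) ≤ δT_p(y)` if `δ' ≤ δ/3` (note `|e^τ|² ≤ e^{t/4} ≤ 1.3`).  So `|h(y)| ≤ e^{(ε/8)/t(y)} ≤ e^{(ε/4)/t}`, and
`|ev (Nj j h) z| ≤ (8/t+j)e^{(ε/4)/t} ≤ e^{ε/t}` for `t ≤ 2δ'` small. -/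
theorem L2a {d : ℕ} (j : ℕ) {H : Set (PS d)} (hH : Tame H) : Tame (Nj j '' H) := by
  have htpos : ∀ z : E d, ‖z‖ < 1 → 0 < tt z ∧ tt z ≤ 1 := by
    intro z hz
    unfold tt
    constructor <;> nlinarith [norm_nonneg z]
  refine ⟨?_, ?_, ?_⟩
  · rintro _ ⟨h, hh, rfl⟩
    exact L2x_poly j (hH.poly h hh)
  · obtain ⟨C, hC⟩ := hH.al
    refine ⟨8 + j + 2 * |C|, ?_⟩
    rintro _ ⟨h, hh, rfl⟩ z hz
    obtain ⟨ht0, ht1⟩ := htpos z hz
    have h1 : ∀ τ : ℂ, ‖τ‖ ≤ tt z / 8 →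
        ‖ev h (Complex.exp τ • z)‖ ≤ Real.exp (2 * |C| / tt z) := by
      intro τ hτ
      obtain ⟨hy1, hy2⟩ := L2x_geo hz hτ
      have hs0 : 0 < tt (Complex.exp τ • z) := by linarith
      refine (hC h hh _ hy1).trans ?_
      refine le_trans ?_ (L2x_exp ht0 hy2 (abs_nonneg C))
      apply Real.exp_le_exp.2
      exact div_le_div_of_nonneg_right (le_abs_self C) hs0.le
    have h2 := L2x_cauchy j (hH.poly h hh) hz h1 ht0
    refine h2.trans ?_
    have h3 : 8 / tt z + j ≤ Real.exp ((8 + j) / tt z) := by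
      have h4 : (j : ℝ) ≤ j / tt z := by
        rw [le_div_iff₀ ht0]
        have := mul_le_mul_of_nonneg_left ht1 (Nat.cast_nonneg (α := ℝ) j)
        linarith
      have h5 := Real.add_one_le_exp ((8 + (j : ℝ)) / tt z)
      have h6 : (8 + (j : ℝ)) / tt z = 8 / tt z + j / tt z := by ring
      linarith
    calc (8 / tt z + j) * Real.exp (2 * |C| / tt z)
        ≤ Real.exp ((8 + j) / tt z) * Real.exp (2 * |C| / tt z) :=
          mul_le_mul_of_nonneg_right h3 (Real.exp_pos _).le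
      _ = Real.exp ((8 + j + 2 * |C|) / tt z) := by
          rw [← Real.exp_add]
          congr 1
          ring
  · intro p hp ε hε
    obtain ⟨δ, hδ, hbe⟩ := hH.be p hp (ε / 8) (by positivity)
    obtain ⟨X, hX1, hX⟩ := L2x_large (3 * ε / 4) (by positivity) j
    refine ⟨min (δ / 4) (1 / (2 * X)), lt_min (by positivity) (by positivity), ?_⟩
    rintro _ ⟨h, hh, rfl⟩ z hz hT hpr
    obtain ⟨ht0, ht1⟩ := htpos z hz
    set δ' := min (δ / 4) (1 / (2 * X)) with hδ'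
    have hδ'1 : δ' ≤ δ / 4 := min_le_left _ _
    have hδ'2 : δ' ≤ 1 / (2 * X) := min_le_right _ _
    have ht2 := (F1c (p := p) hp hz).2
    have hz1 := (F1b (p := p) hp hz).1
    have hT0 := (F1b (p := p) hp hz).2.2.2.1
    have h1 : ∀ τ : ℂ, ‖τ‖ ≤ tt z / 8 →
        ‖ev h (Complex.exp τ • z)‖ ≤ Real.exp (2 * (ε / 8) / tt z) := by
      intro τ hτ
      obtain ⟨hy1, hy2⟩ := L2x_geo hz hτ
      have hτ4 : ‖τ‖ ≤ 1 / 4 := by linarith
      obtain ⟨he1, he2⟩ := F7a hτ4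
      have hdiffT : |TT p (Complex.exp τ • z) - TT p z| ≤ 13 / 40 * TT p z := by
        have h2 : lam p (Complex.exp τ • z) - lam p z = (1 - Complex.exp τ) * br z p := by
          unfold lam
          rw [br_smul]
          ring
        calc |TT p (Complex.exp τ • z) - TT p z| ≤ ‖lam p (Complex.exp τ • z) - lam p z‖ :=
              abs_norm_sub_norm_le _ _
          _ = ‖Complex.exp τ - 1‖ * ‖br z p‖ := by
              rw [h2, norm_mul, norm_sub_rev]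
          _ ≤ (13 / 10 * ‖τ‖) * 1 := by
              apply mul_le_mul he1 hz1.le (norm_nonneg _) (by positivity)
          _ ≤ 13 / 40 * TT p z := by linarith
      obtain ⟨hd1, hd2⟩ := abs_le.1 hdiffT
      have hTy : TT p (Complex.exp τ • z) < δ := by linarith
      have hpry : ‖pr p (Complex.exp τ • z)‖ ^ 2 ≤ δ * TT p (Complex.exp τ • z) := by
        have h2 : pr p (Complex.exp τ • z) = Complex.exp τ • pr p z := by
          unfold pr
          rw [br_smul, smul_sub, smul_smul]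
        rw [h2, norm_smul, mul_pow]
        have h3 : ‖Complex.exp τ‖ ^ 2 ≤ (13 / 10) ^ 2 := pow_le_pow_left₀ (norm_nonneg _) he2 2
        have h4 : ‖Complex.exp τ‖ ^ 2 * ‖pr p z‖ ^ 2 ≤ (13 / 10) ^ 2 * (δ' * TT p z) :=
          mul_le_mul h3 hpr (sq_nonneg _) (by positivity)
        have h5 : δ' * TT p z ≤ δ / 4 * TT p z := mul_le_mul_of_nonneg_right hδ'1 hT0.le
        have h6 : δ * (27 / 40 * TT p z) ≤ δ * TT p (Complex.exp τ • z) :=
          mul_le_mul_of_nonneg_left (by linarith) hδ.le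
        have h7 : 0 < δ * TT p z := by positivity
        nlinarith
      exact (hbe h hh _ hy1 hTy hpry).trans (L2x_exp ht0 hy2 (by positivity))
    have h2 := L2x_cauchy j (hH.poly h hh) hz h1 ht0
    refine h2.trans ?_
    have h3 : X ≤ 1 / tt z := by
      rw [le_div_iff₀ ht0]
      have h4 : tt z ≤ 2 * (1 / (2 * X)) := by linarith
      have h5 : 2 * (1 / (2 * X)) = 1 / X := by
        field_simp
      rw [h5, le_div_iff₀ (by linarith)] at h4
      linarith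
    have h4 := hX _ h3
    have h5 : 8 / tt z + j = 8 * (1 / tt z) + j := by ring
    rw [h5]
    calc (8 * (1 / tt z) + j) * Real.exp (2 * (ε / 8) / tt z)
        ≤ Real.exp (3 * ε / 4 * (1 / tt z)) * Real.exp (2 * (ε / 8) / tt z) :=
          mul_le_mul_of_nonneg_right h4 (Real.exp_pos _).le
      _ = Real.exp (ε / tt z) := by
          rw [← Real.exp_add]
          congr 1
          ring

end Pool.Agent.CRT
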