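import Pool.Agent.CRT.F4
import Pool.Agent.CRT.P2
import Pool.Agent.CRT.L2x

/-!
# [L2y] Lambda preserves tame families
-/

set_option autoImplicit false

namespace Pool.Agent.CRT

open Metric Finset MvPowerSeries

theorem L2y_ev {d : ℕ} (c : ℂ) (h : PS d) (z : E d) : ev (c • h) z = c * ev h z := by
  unfold ev
  rw [← tsum_mul_left]
  congr 1
  funext α
  rw [MvPowerSeries.coeff_smul]
  ring

/-- the product `∏_{i<n}(N+i+1)` -/
noncomputable def L2yP {d : ℕ} (n : ℕ) (f : PS d) : PS d :=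
  mkP fun α => (∏ i ∈ range n, ((α.degree : ℂ) + ((i + 1 : ℕ) : ℂ))) * coeff α f

theorem L2yP_zero {d : ℕ} (f : PS d) : L2yP 0 f = f := by
  ext α
  unfold L2yP
  rw [coeff_mkP]
  simp

theorem L2yP_succ {d : ℕ} (n : ℕ) (f : PS d) : L2yP (n + 1) f = Nj (n + 1) (L2yP n f) := by
  ext α
  unfold L2yP Nj
  rw [coeff_mkP, coeff_mkP, coeff_mkP, Finset.prod_range_succ]
  ring

theorem L2yP_tame {d : ℕ} (n : ℕ) {H : Set (PS d)} (hH : Tame H) : Tame (L2yP n '' H) := by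
  induction n with
  | zero =>
    have : L2yP 0 '' H = H := by
      ext f
      simp [L2yP_zero]
    rw [this]
    exact hH
  | succ n ih =>
    have : L2yP (n + 1) '' H = Nj (n + 1) '' (L2yP n '' H) := by
      rw [Set.image_image]
      apply Set.image_congr
      intro f _
      exact L2yP_succ n f
    rw [this]
    exact L2a (n + 1) ih

theorem L2y_ck {d : ℕ} (hd : 1 ≤ d) (k : ℕ) : (ck d k : ℂ) =
    ((1 / ((d - 1).factorial : ℝ) : ℝ) : ℂ) *
      ∏ i ∈ range (d - 1), ((k : ℂ) + ((i + 1 : ℕ) : ℂ)) := by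
  have h1 := Nat.ascFactorial_eq_factorial_mul_choose k (d - 1)
  have h2 := Nat.ascFactorial_eq_prod_range (k + 1) (d - 1)
  have h3 : k + (d - 1) = k + d - 1 := by omega
  rw [h3] at h1
  have h4 : ((d - 1).factorial : ℂ) * ((k + d - 1).choose (d - 1) : ℂ)
      = ∏ i ∈ range (d - 1), ((k : ℂ) + ((i + 1 : ℕ) : ℂ)) := by
    have h5 : (d - 1).factorial * (k + d - 1).choose (d - 1) = ∏ i ∈ range (d - 1), (k + 1 + i) := by
      rw [← h1, h2]
    have h6 : (((d - 1).factorial * (k + d - 1).choose (d - 1) : ℕ) : ℂ) =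
        ((∏ i ∈ range (d - 1), (k + 1 + i) : ℕ) : ℂ) := by rw [h5]
    rw [Nat.cast_mul, Nat.cast_prod] at h6
    rw [h6]
    apply Finset.prod_congr rfl
    intro i _
    push_cast
    ring
  have h7 : ((d - 1).factorial : ℂ) ≠ 0 := by
    exact_mod_cast (Nat.factorial_ne_zero (d - 1))
  rw [← h4]
  unfold ck
  push_cast
  field_simp

/-- scaling by a real constant `0 < c ≤ 1` preserves tameness -/
theorem L2s {d : ℕ} {c : ℝ} (hc : 0 < c) (hc1 : c ≤ 1) {H : Set (PS d)} (hH : Tame H) :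
    Tame ((fun h => (c : ℂ) • h) '' H) := by
  have hle : ∀ (h : PS d) (z : E d), ‖ev ((c : ℂ) • h) z‖ ≤ ‖ev h z‖ := by
    intro h z
    rw [L2y_ev, norm_mul, Complex.norm_real, Real.norm_of_nonneg hc.le]
    have := norm_nonneg (ev h z)
    nlinarith
  refine ⟨?_, ?_, ?_⟩
  · rintro _ ⟨h, hh, rfl⟩
    obtain ⟨K, hK⟩ := hH.poly h hh
    refine ⟨K, fun α hα => ?_⟩
    rw [MvPowerSeries.coeff_smul, hK α hα, mul_zero]
  · obtain ⟨C, hC⟩ := hH.al
    refine ⟨C, ?_⟩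
    rintro _ ⟨h, hh, rfl⟩ z hz
    exact (hle h z).trans (hC h hh z hz)
  · intro p hp ε hε
    obtain ⟨δ, hδ, hb⟩ := hH.be p hp ε hε
    refine ⟨δ, hδ, ?_⟩
    rintro _ ⟨h, hh, rfl⟩ z hz h1 h2
    exact (hle h z).trans (hb h hh z hz h1 h2)

/-- `c_k = ∏_{j=1}^{d-1}(k+j)/(d-1)!`, so `Λ = (1/(d-1)!) ∏_{j=1}^{d-1}(N+j)`: iterate `L2a`, then `L2s` -/
theorem L2 {d : ℕ} (hd : 1 ≤ d) {H : Set (PS d)} (hH : Tame H) : Tame (Lm '' H) := by
  have h1 := L2yP_tame (d - 1) hH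
  have hf : (1 : ℝ) ≤ ((d - 1).factorial : ℝ) := by
    exact_mod_cast Nat.one_le_iff_ne_zero.2 (Nat.factorial_ne_zero (d - 1))
  have h2 := L2s (c := 1 / ((d - 1).factorial : ℝ)) (by positivity)
    (by rw [div_le_one (by positivity)]; exact hf) h1
  have h3 : Lm '' H = (fun h : PS d => ((1 / ((d - 1).factorial : ℝ) : ℝ) : ℂ) • h) ''
      (L2yP (d - 1) '' H) := by
    rw [Set.image_image]
    apply Set.image_congr
    intro f _
    ext α
    rw [MvPowerSeries.coeff_smul]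
    unfold Lm L2yP
    rw [coeff_mkP, coeff_mkP, L2y_ck hd]
    ring
  rw [h3]
  exact h2

end Pool.Agent.CRT
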