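import Pool.Agent.CRT.F4

/-!
# [M1x] Near and far indices

Notation: `T_i = TT p (ζ i)`, `λ_i = lam (ζ i)`, `T = TT p z`.  The index `i` is *near* for `z` if
`|λ_i(z)| < T_i/400`.
-/

set_option autoImplicit false

namespace Pool.Agent.CRT

open Finset

/-- `0 < T_i ≤ 8^{-(i+1)}`, `T_i ≤ 1/8`, and `T_j ≤ T_i/8` for `i < j` -/
theorem M1s {d : ℕ} {p : E d} {ζ : ℕ → E d} (h : Seq8 p ζ) (i : ℕ) :
    0 < TT p (ζ i) ∧ TT p (ζ i) ≤ (1 / 8) ^ (i + 1) ∧ TT p (ζ i) ≤ 1 / 8 ∧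
      ∀ j, i < j → TT p (ζ j) ≤ TT p (ζ i) / 8 := by
  have hpos : ∀ j, 0 < TT p (ζ j) := fun j => (F1b h.hp (h.hB j)).2.2.2.1
  have hpow : ∀ j, TT p (ζ j) ≤ (1 / 8) ^ (j + 1) := by
    intro j
    induction j with
    | zero => simpa using h.h0
    | succ j ih =>
      have := h.h8 j
      rw [pow_succ]
      linarith
  refine ⟨hpos i, hpow i, ?_, ?_⟩
  · refine (hpow i).trans ?_
    have := pow_le_pow_of_le_one (a := (1 / 8 : ℝ)) (by norm_num) (by norm_num)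
      (Nat.le_add_left 1 i)
    simpa using this
  · intro j hij
    induction j, hij using Nat.le_induction with
    | base => exact h.h8 i
    | succ j hj ih =>
      have h1 := h.h8 j
      have h2 := hpos j
      linarith

/-- near points: `|T(z)-T(ζ)| ≤ |z₁-ζ₁| ≤ (4/25) T(ζ)` if `|λ_ζ(z)| < T(ζ)/400`, `T(ζ) ≤ 1/8`.

Proof.  By `F5` with `Re λ ≤ |λ|`: `|z₁-ζ₁| ≤ 6|λ| + 4√(|λ|T(ζ)) ≤ (6/400 + 4/20) T(ζ)`.
This gives `0.215`; to get the constant `4/25` use instead of `F5` the following: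
`|λ| ≥ |1-z₁conj ζ₁| - |z'||ζ'| ≥ |1-z₁ conj ζ₁| - √((1-|z₁|²)(1-|ζ₁|²))`, and by `F6a`
`|1-z₁ conj ζ₁|² - (1-|z₁|²)(1-|ζ₁|²) = |z₁-ζ₁|²`, so with `D = |1-z₁ conj ζ₁|`
`|z₁-ζ₁|² = (D-√…)(D+√…) ≤ |λ| · 2D` and `D ≤ (1-|ζ₁|²) + |z₁-ζ₁| ≤ 2T(ζ)+|z₁-ζ₁|`.  With
`x = |z₁-ζ₁|`: `x² ≤ 4|λ|T(ζ) + 2|λ|x`, so `x ≤ 2|λ| + 2√(|λ|T(ζ)) ≤ (2/400+2/20) T(ζ) ≤ (4/25)T(ζ)`. -/
theorem M1n {d : ℕ} {p z ζ : E d} (hp : ‖p‖ = 1) (hz : ‖z‖ < 1) (hζ : ‖ζ‖ < 1)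
    (h : ‖lam ζ z‖ < TT p ζ / 400) :
    ‖br z p - br ζ p‖ ≤ 4 / 25 * TT p ζ ∧ 21 / 25 * TT p ζ ≤ TT p z ∧
      TT p z ≤ 29 / 25 * TT p ζ := by
  have hT := (F1b hp hζ).2.2.2.1
  obtain ⟨hz1, hz2, -, -, -, hz3, -⟩ := F1b hp hz
  obtain ⟨hζ1, hζ2, hζ4, -, -, hζ3, -⟩ := F1b hp hζ
  have hA : 0 ≤ 1 - ‖br z p‖ ^ 2 := by nlinarith [norm_nonneg (br z p)]
  have hB : 0 ≤ 1 - ‖br ζ p‖ ^ 2 := by nlinarith [norm_nonneg (br ζ p)]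
  have hS : ‖br z (pr p ζ)‖ ^ 2 ≤ (1 - ‖br z p‖ ^ 2) * (1 - ‖br ζ p‖ ^ 2) := by
    have h1 : ‖br z (pr p ζ)‖ ^ 2 ≤ ‖pr p z‖ ^ 2 * ‖pr p ζ‖ ^ 2 := by
      rw [br_pr hp, ← mul_pow]
      exact pow_le_pow_left₀ (norm_nonneg _) (br_le _ _) 2
    refine h1.trans ?_
    refine mul_le_mul ?_ ?_ (by positivity) hA
    · linarith
    · linarith
  set D := ‖1 - br z p * (starRingEnd ℂ) (br ζ p)‖ with hD
  have hD0 : 0 ≤ D := norm_nonneg _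
  have hD2 : D ^ 2 = (1 - ‖br z p‖ ^ 2) * (1 - ‖br ζ p‖ ^ 2) + ‖br z p - br ζ p‖ ^ 2 :=
    F6a _ _
  set x := ‖br z p - br ζ p‖ with hx
  have hx0 : 0 ≤ x := norm_nonneg _
  have hlam : D ≤ ‖lam ζ z‖ + ‖br z (pr p ζ)‖ := by
    have e : 1 - br z p * (starRingEnd ℂ) (br ζ p) = lam ζ z + br z (pr p ζ) := by
      unfold lam
      rw [br_split hp z ζ]
      ring
    rw [hD, e]
    exact norm_add_le _ _
  set S := Real.sqrt ((1 - ‖br z p‖ ^ 2) * (1 - ‖br ζ p‖ ^ 2)) with hSd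
  have hS0 : 0 ≤ S := Real.sqrt_nonneg _
  have hSsq : S ^ 2 = (1 - ‖br z p‖ ^ 2) * (1 - ‖br ζ p‖ ^ 2) :=
    Real.sq_sqrt (mul_nonneg hA hB)
  have hbS : ‖br z (pr p ζ)‖ ≤ S := Real.le_sqrt_of_sq_le hS
  have hSD : S ≤ D := by
    refine le_of_sq_le_sq ?_ hD0
    rw [hSsq, hD2]
    have : 0 ≤ x ^ 2 := by positivity
    linarith
  have hDx : D ≤ 2 * TT p ζ + x := by
    have e : 1 - br z p * (starRingEnd ℂ) (br ζ p)
        = ((1 - ‖br ζ p‖ ^ 2 : ℝ) : ℂ) + (br ζ p - br z p) * (starRingEnd ℂ) (br ζ p) := by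
      have := Complex.mul_conj (br ζ p)
      rw [Complex.normSq_eq_norm_sq] at this
      push_cast at this ⊢
      rw [← this]
      ring
    rw [hD, e]
    refine (norm_add_le _ _).trans ?_
    rw [Complex.norm_real, Real.norm_of_nonneg hB, norm_mul, RCLike.norm_conj, norm_sub_rev,
      ← hx]
    have : x * ‖br ζ p‖ ≤ x * 1 := mul_le_mul_of_nonneg_left hζ1.le hx0
    linarith
  have hl0 : 0 ≤ ‖lam ζ z‖ := norm_nonneg _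
  have hquad : x ^ 2 ≤ 2 * ‖lam ζ z‖ * (2 * TT p ζ + x) := by
    have h1 : x ^ 2 = (D - S) * (D + S) := by
      have : (D - S) * (D + S) = D ^ 2 - S ^ 2 := by ring
      rw [this, hD2, hSsq]
      ring
    have h2 : D - S ≤ ‖lam ζ z‖ := by linarith
    have h3 : D + S ≤ 2 * (2 * TT p ζ + x) := by linarith
    rw [h1]
    have h4 : (D - S) * (D + S) ≤ ‖lam ζ z‖ * (2 * (2 * TT p ζ + x)) :=
      mul_le_mul h2 h3 (by linarith) hl0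
    linarith
  have hxT : x ≤ 4 / 25 * TT p ζ := by
    by_contra hc
    push Not at hc
    have h1 : 2 * ‖lam ζ z‖ * (2 * TT p ζ + x) ≤ TT p ζ / 200 * (2 * TT p ζ + x) := by
      refine mul_le_mul_of_nonneg_right ?_ (by positivity)
      linarith
    have h2 : 0 < TT p ζ * (x - 4 / 25 * TT p ζ) := mul_pos hT (by linarith)
    have h3 : 0 < (x - 4 / 25 * TT p ζ) * (x - 4 / 25 * TT p ζ) := mul_pos (by linarith) (by linarith)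
    nlinarith [mul_pos hT hT]
  have hdiff : |TT p z - TT p ζ| ≤ x := by
    unfold TT
    refine (abs_norm_sub_norm_le _ _).trans (le_of_eq ?_)
    rw [hx, ← norm_neg]
    congr 1
    unfold lam
    ring
  obtain ⟨hd1, hd2⟩ := abs_le.mp hdiff
  exact ⟨hxT, by linarith, by linarith⟩

/-- at most one index is near: by `M1n` `T(z) ∈ [0.84 T_i, 1.16 T_i]`, and for `i<j`, `T_j ≤ T_i/8` -/
theorem M1a {d : ℕ} {p : E d} {ζ : ℕ → E d} (h : Seq8 p ζ) {z : E d} (hz : ‖z‖ < 1) {i j : ℕ}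
    (hi : ‖lam (ζ i) z‖ < TT p (ζ i) / 400) (hj : ‖lam (ζ j) z‖ < TT p (ζ j) / 400) : i = j := by
  obtain ⟨-, hi1, hi2⟩ := M1n h.hp hz (h.hB i) hi
  obtain ⟨-, hj1, hj2⟩ := M1n h.hp hz (h.hB j) hj
  rcases lt_trichotomy i j with hij | hij | hij
  · exfalso
    have h1 := (M1s h i).2.2.2 j hij
    have h2 := (M1s h i).1
    linarith
  · exact hij
  · exfalso
    have h1 := (M1s h j).2.2.2 i hij
    have h2 := (M1s h j).1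
    linarith

/-- far indices: `T(z) ≤ 2|λ| + 6T(ζ) ≤ 2402 |λ|` -/
theorem M1b {d : ℕ} {p z ζ : E d} (hp : ‖p‖ = 1) (hz : ‖z‖ < 1) (hζ : ‖ζ‖ < 1)
    (h : TT p ζ / 400 ≤ ‖lam ζ z‖) : TT p z ≤ 2402 * ‖lam ζ z‖ := by
  have := F4a hp hz hζ
  linarith

end Pool.Agent.CRT
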