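import Pool.Agent.CRT.F4
import Pool.Agent.CRT.M1x

/-!
# [M1y] Geometric sums and r_N

Notation: `T_i = TT p (ζ i)`, `λ_i = lam (ζ i)`, `T = TT p z`.  The index `i` is *near* for `z` if
`|λ_i(z)| < T_i/400`.
-/

set_option autoImplicit false

namespace Pool.Agent.CRT

open Finset

theorem M1y_step {t : ℕ → ℝ} (ht : ∀ i, 0 < t i) (h8 : ∀ i, t (i + 1) ≤ t i / 8) {T : ℝ}
    (hT : 0 < T) (N : ℕ) :
    ∑ i ∈ range (N + 1), min (T / t i) (t i / T)
      ≤ 8 / 7 * min (T / t N) 1 + 8 / 7 * (1 - min (t (N + 1)) T / T) := by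
  have h2 : ∀ k, 0 ≤ 1 - min (t k) T / T := by
    intro k
    rw [sub_nonneg, div_le_one hT]
    exact min_le_right _ _
  have hm : ∀ k, 0 ≤ min (T / t k) 1 := fun k =>
    le_min (div_nonneg hT.le (ht k).le) zero_le_one
  induction N with
  | zero =>
    rw [zero_add, Finset.sum_range_one]
    have h1 : min (T / t 0) (t 0 / T) ≤ min (T / t 0) 1 := by
      refine le_min (min_le_left _ _) ?_
      rcases le_total (t 0) T with hc | hc
      · exact (min_le_right _ _).trans ((div_le_one hT).mpr hc)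
      · exact (min_le_left _ _).trans ((div_le_one (ht 0)).mpr hc)
    have := h2 1
    have := hm 0
    linarith
  | succ N ih =>
    rw [Finset.sum_range_succ]
    have h80 := h8 N
    have h81 := h8 (N + 1)
    have ht1 := ht (N + 1)
    have ht2 := ht (N + 2)
    have ht0 := ht N
    rcases le_or_gt (t (N + 1)) T with hc | hc
    · have e1 : min (T / t (N + 1)) 1 = 1 := min_eq_right ((one_le_div ht1).mpr hc)
      have e2 : min (t (N + 1 + 1)) T = t (N + 2) := min_eq_left (by linarith)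
      have e3 : min (t (N + 1)) T = t (N + 1) := min_eq_left hc
      rw [e3] at ih
      rw [e1, e2]
      have h3 : min (T / t (N + 1)) (t (N + 1) / T) ≤ t (N + 1) / T := min_le_right _ _
      have h4 : min (T / t N) 1 ≤ 1 := min_le_right _ _
      have h5 : t (N + 2) / T ≤ t (N + 1) / T / 8 := by
        rw [div_div, div_le_div_iff₀ hT (by positivity)]
        nlinarith
      linarith
    · have e1 : min (T / t (N + 1)) 1 = T / t (N + 1) :=
        min_eq_left ((div_le_one ht1).mpr hc.le)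
      have e3 : min (t (N + 1)) T = T := min_eq_right hc.le
      rw [e3, div_self hT.ne'] at ih
      rw [e1]
      have h3 : min (T / t (N + 1)) (t (N + 1) / T) ≤ T / t (N + 1) := min_le_left _ _
      have h4 : min (T / t N) 1 ≤ T / t N := min_le_left _ _
      have h5 : T / t N ≤ T / t (N + 1) / 8 := by
        rw [div_div, div_le_div_iff₀ ht0 (by positivity)]
        nlinarith
      have h6 := h2 (N + 1 + 1)
      linarith

/-- `∑_{i<N} min(T/T_i, T_i/T) ≤ 3` for every `T > 0`.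

Proof.  Split the indices into `T_i ≤ T` and `T_i > T`.  On the first set (an end segment
`i ≥ i₀`), `T_i/T ≤ 8^{-(i-i₀)}`; on the second (`i < i₀`), `T/T_i ≤ 8^{-(i₀-1-i)}`; both geometric
sums are `≤ 8/7`. -/
theorem M1g {d : ℕ} {p : E d} {ζ : ℕ → E d} (h : Seq8 p ζ) {T : ℝ} (hT : 0 < T) (N : ℕ) :
    ∑ i ∈ range N, min (T / TT p (ζ i)) (TT p (ζ i) / T) ≤ 3 := by
  rcases N with _ | N
  · simp
  · have ht : ∀ i, 0 < TT p (ζ i) := fun i => (F1b h.hp (h.hB i)).2.2.2.1
    have h1 := M1y_step ht h.h8 hT N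
    have h2 : min (T / TT p (ζ N)) 1 ≤ 1 := min_le_right _ _
    have h3 : 0 ≤ min (TT p (ζ (N + 1))) T / T :=
      div_nonneg (le_min (ht _).le hT.le) hT.le
    linarith

/-- `rN`: positivity, `r_N ≤ T`, `r_N ≤ |λ_i|` for `i<N`, and the minimum is attained -/
theorem M1r {d : ℕ} {p : E d} {ζ : ℕ → E d} (h : Seq8 p ζ) {z : E d} (hz : ‖z‖ < 1) (N : ℕ) :
    0 < rN p ζ N z ∧ rN p ζ N z ≤ TT p z ∧ (∀ i < N, rN p ζ N z ≤ ‖lam (ζ i) z‖) ∧
      (rN p ζ N z = TT p z ∨ ∃ i < N, rN p ζ N z = ‖lam (ζ i) z‖) := by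
  induction N with
  | zero =>
    have h1 : rN p ζ 0 z = TT p z := rfl
    rw [h1]
    exact ⟨(F1b h.hp hz).2.2.2.1, le_rfl, fun i hi => absurd hi (Nat.not_lt_zero i), Or.inl rfl⟩
  | succ N ih =>
    obtain ⟨h1, h2, h3, h4⟩ := ih
    have e : rN p ζ (N + 1) z = min (rN p ζ N z) ‖lam (ζ N) z‖ := rfl
    have hl : 0 < ‖lam (ζ N) z‖ := (F3b hz (h.hB N).le).2.2.2.2.2.1
    rw [e]
    refine ⟨lt_min h1 hl, (min_le_left _ _).trans h2, ?_, ?_⟩
    · intro i hi
      rcases Nat.lt_succ_iff_lt_or_eq.mp hi with hi | hi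
      · exact (min_le_left _ _).trans (h3 i hi)
      · rw [hi]
        exact min_le_right _ _
    · rcases le_total (rN p ζ N z) ‖lam (ζ N) z‖ with hc | hc
      · rw [min_eq_left hc]
        rcases h4 with h4 | ⟨i, hi, h4⟩
        · exact Or.inl h4
        · exact Or.inr ⟨i, Nat.lt_succ_of_lt hi, h4⟩
      · rw [min_eq_right hc]
        exact Or.inr ⟨N, Nat.lt_succ_self N, rfl⟩

end Pool.Agent.CRT
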