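import Pool.Agent.CRT.M1

/-!
# [M2x] Differentiability of G_N and the value at 0
-/

set_option autoImplicit false

namespace Pool.Agent.CRT

open Finset

theorem M2x_lam_diff {d : ℕ} (ζ z : E d) :
    Differentiable ℂ (fun τ : ℂ => lam ζ (Complex.exp τ • z)) := by
  have e : (fun τ : ℂ => lam ζ (Complex.exp τ • z)) = fun τ : ℂ => 1 - Complex.exp τ * br z ζ := by
    funext τ
    unfold lam
    rw [br_smul]
  rw [e]
  exact (differentiable_const _).sub (Complex.differentiable_exp.mul_const _)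

theorem M2x_lam_an {d : ℕ} (ζ z : E d) : AnalyticAt ℂ (fun x : E d => lam ζ x) z := by
  unfold lam br
  exact analyticAt_const.sub ((innerSL ℂ ζ).analyticAt z)

theorem M2x_lam_zero {d : ℕ} (ζ : E d) : lam ζ 0 = 1 := by
  unfold lam br
  rw [inner_zero_right, sub_zero]

/-- the denominators do not vanish (`F7c`) and `G_N` is differentiable along `τ ↦ e^τ z` -/
theorem M2d {d : ℕ} {p : E d} {ζ : ℕ → E d} (h : Seq8 p ζ) (s N : ℕ) {z : E d} (hz : ‖z‖ < 1) :
    DifferentiableOn ℂ (fun τ : ℂ => Gf p ζ s N (Complex.exp τ • z))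
      (Metric.ball 0 (rN p ζ N z / 8)) := by
  obtain ⟨hr0, hrT, hrl, -⟩ := M1r h hz N
  unfold Gf
  refine DifferentiableOn.mul ?_ ?_
  · exact ((M2x_lam_diff p z).pow _).differentiableOn
  · refine DifferentiableOn.fun_finsetProd ?_
    intro i hi
    refine DifferentiableOn.pow ?_ _
    refine DifferentiableOn.div (M2x_lam_diff _ z).differentiableOn
      ((M2x_lam_diff _ z).differentiableOn.add (differentiableOn_const _)) ?_
    intro τ hτ
    have hτ1 : ‖τ‖ < rN p ζ N z / 8 := by simpa using hτ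
    have hl := hrl i (Finset.mem_range.mp hi)
    have hT := (M1s h i).1
    have h1 := (F7c hz (h.hB i).le (τ := τ) (by linarith) (a := (TT p (ζ i)) ^ 3)
      (by positivity)).1
    have h2 : 0 < ‖lam (ζ i) z‖ := (F3b hz (h.hB i).le).2.2.2.2.2.1
    exact norm_pos_iff.mp (by linarith)

/-- `G_N` is analytic on the ball (`Re(λ_i(z) + T_i³) > 0`) -/
theorem M2a {d : ℕ} {p : E d} {ζ : ℕ → E d} (h : Seq8 p ζ) (s N : ℕ) :
    AnalyticOnNhd ℂ (Gf p ζ s N) (Metric.ball 0 1) := by
  intro z hz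
  have hz1 : ‖z‖ < 1 := by simpa using hz
  unfold Gf
  refine AnalyticAt.mul ((M2x_lam_an p z).pow _) ?_
  refine Finset.analyticAt_fun_prod _ ?_
  intro i _
  refine AnalyticAt.pow ?_ _
  refine AnalyticAt.div (M2x_lam_an _ z) ((M2x_lam_an _ z).add analyticAt_const) ?_
  have hre := (F3b hz1 (h.hB i).le).1
  have hT := (M1s h i).1
  intro h0
  have h1 := congrArg Complex.re h0
  rw [Complex.add_re, Complex.ofReal_re, Complex.zero_re] at h1
  have : 0 < TT p (ζ i) ^ 3 := by positivity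
  linarith

/-- `|G_N(0)| = ∏_{i<N} (1+T_i³)^{-2s} ≥ κ > 0`, `κ` depending only on `s`
(`∏ (1+T_i³) ≤ exp(∑ T_i³) ≤ e`) -/
theorem M2z {d : ℕ} {p : E d} {ζ : ℕ → E d} (h : Seq8 p ζ) (s N : ℕ) :
    Real.exp (-(2 * s : ℝ)) ≤ ‖Gf p ζ s N 0‖ := by
  have hT : ∀ i, 0 < TT p (ζ i) := fun i => (M1s h i).1
  have hn : ‖Gf p ζ s N 0‖ = (∏ i ∈ range N, 1 / (1 + (TT p (ζ i)) ^ 3)) ^ (2 * s) := by
    unfold Gf
    rw [M2x_lam_zero, one_pow, one_mul, norm_prod, ← Finset.prod_pow]
    refine Finset.prod_congr rfl fun i _ => ?_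
    rw [M2x_lam_zero, norm_pow, norm_div, norm_one]
    congr 2
    have e : (1 : ℂ) + ((TT p (ζ i) ^ 3 : ℝ) : ℂ) = ((1 + TT p (ζ i) ^ 3 : ℝ) : ℂ) := by
      push_cast
      ring
    rw [e, Complex.norm_real, Real.norm_of_nonneg]
    have := hT i
    positivity
  rw [hn]
  have h1 : Real.exp (-1) ≤ ∏ i ∈ range N, 1 / (1 + (TT p (ζ i)) ^ 3) := by
    calc Real.exp (-1) ≤ Real.exp (∑ i ∈ range N, -(TT p (ζ i)) ^ 3) := by
          refine Real.exp_le_exp.mpr ?_
          rw [Finset.sum_neg_distrib, neg_le_neg_iff]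
          calc ∑ i ∈ range N, (TT p (ζ i)) ^ 3 ≤ ∑ i ∈ range N, (1 / 2 : ℝ) * (1 / 2) ^ i := by
                refine Finset.sum_le_sum fun i _ => ?_
                have h2 := (M1s h i).2.1
                have h3 : TT p (ζ i) ^ 3 ≤ ((1 / 8 : ℝ) ^ (i + 1)) ^ 3 :=
                  pow_le_pow_left₀ (hT i).le h2 3
                refine h3.trans ?_
                have h4 : ((1 / 8 : ℝ) ^ (i + 1)) ^ 3 = (1 / 512 : ℝ) ^ (i + 1) := by
                  rw [← pow_mul, mul_comm (i + 1) 3, pow_mul]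
                  norm_num
                have h5 : (1 / 2 : ℝ) * (1 / 2) ^ i = (1 / 2 : ℝ) ^ (i + 1) := by
                  rw [pow_succ]
                  ring
                rw [h4, h5]
                exact pow_le_pow_left₀ (by norm_num) (by norm_num) _
            _ ≤ 1 := by
                have h2 : HasSum (fun i : ℕ => (1 / 2 : ℝ) * (1 / 2) ^ i)
                    (1 / 2 * (1 - 1 / 2)⁻¹) :=
                  (hasSum_geometric_of_lt_one (by norm_num) (by norm_num)).mul_left _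
                have h3 := sum_le_hasSum (range N) (fun i _ => by positivity) h2
                refine h3.trans ?_
                norm_num
      _ = ∏ i ∈ range N, Real.exp (-(TT p (ζ i)) ^ 3) := Real.exp_sum _ _
      _ ≤ ∏ i ∈ range N, 1 / (1 + (TT p (ζ i)) ^ 3) := by
          refine Finset.prod_le_prod (fun i _ => (Real.exp_pos _).le) fun i _ => ?_
          have h2 := hT i
          have h3 := Real.add_one_le_exp ((TT p (ζ i)) ^ 3)
          rw [Real.exp_neg, ← one_div]
          exact one_div_le_one_div_of_le (by positivity) (by linarith)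
  have h2 : Real.exp (-(2 * s : ℝ)) = Real.exp (-1) ^ (2 * s) := by
    rw [← Real.exp_nat_mul]
    congr 1
    push_cast
    ring
  rw [h2]
  exact pow_le_pow_left₀ (Real.exp_pos _).le h1 _

end Pool.Agent.CRT
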