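import Pool.Agent.CRT.M1
import Pool.Agent.CRT.M2x

/-!
# [M2y] The main bound for G_N
-/

set_option autoImplicit false

namespace Pool.Agent.CRT

open Finset

/-- the factor of the product -/
noncomputable def M2y_q {d : ℕ} (p ζ : E d) (z : E d) : ℝ :=
  ‖lam ζ z / (lam ζ z + ((TT p ζ) ^ 3 : ℝ))‖

theorem M2y_q_nonneg {d : ℕ} (p ζ z : E d) : 0 ≤ M2y_q p ζ z := norm_nonneg _

theorem M2y_norm {d : ℕ} (p : E d) (ζ : ℕ → E d) (s N : ℕ) (z : E d) :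
    ‖Gf p ζ s N z‖ = (‖lam p z‖ ^ 3 * ∏ i ∈ range N, M2y_q p (ζ i) z) ^ (2 * s) := by
  unfold Gf M2y_q
  rw [norm_mul, norm_pow, norm_prod, mul_pow, ← pow_mul, ← Finset.prod_pow]
  congr 1
  · congr 1
    ring
  · apply Finset.prod_congr rfl
    intro i _
    rw [norm_pow]

/-- the three bounds for a factor -/
theorem M2y_three {d : ℕ} {p ζ z : E d} (hz : ‖z‖ < 1) (hζ : ‖ζ‖ < 1) (hT : 0 < TT p ζ)
    {τ : ℂ} (hτ : ‖τ‖ ≤ ‖lam ζ z‖ / 8) :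
    M2y_q p ζ (Complex.exp τ • z) ≤ 1 + 5 / 4 * (TT p ζ) ^ 3 / ‖lam ζ z‖ ∧
    M2y_q p ζ (Complex.exp τ • z) ≤ 3 / 2 ∧
    M2y_q p ζ (Complex.exp τ • z) ≤ 3 / 2 * ‖lam ζ z‖ / (TT p ζ) ^ 3 := by
  have hl : 0 < ‖lam ζ z‖ := (F3b hz hζ.le).2.2.2.2.2.1
  have ha : 0 < (TT p ζ) ^ 3 := by positivity
  obtain ⟨-, -, -, h4⟩ := F7b hz hζ.le hτ
  obtain ⟨h5, h6⟩ := F7c hz hζ.le hτ ha.le
  have hden : 0 < ‖lam ζ (Complex.exp τ • z) + (((TT p ζ) ^ 3 : ℝ) : ℂ)‖ := by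
    have : 0 < 4 / 5 * ‖lam ζ z‖ := by positivity
    linarith
  unfold M2y_q
  refine ⟨?_, ?_, ?_⟩
  · have hne : lam ζ (Complex.exp τ • z) + (((TT p ζ) ^ 3 : ℝ) : ℂ) ≠ 0 := norm_pos_iff.mp hden
    have e : lam ζ (Complex.exp τ • z) / (lam ζ (Complex.exp τ • z) + (((TT p ζ) ^ 3 : ℝ) : ℂ))
        = 1 - (((TT p ζ) ^ 3 : ℝ) : ℂ) / (lam ζ (Complex.exp τ • z) + (((TT p ζ) ^ 3 : ℝ) : ℂ)) := by
      rw [eq_sub_iff_add_eq, ← add_div, div_self hne]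
    rw [e]
    refine (norm_sub_le _ _).trans ?_
    rw [norm_one, norm_div, Complex.norm_real, Real.norm_of_nonneg ha.le]
    have : (TT p ζ) ^ 3 / ‖lam ζ (Complex.exp τ • z) + (((TT p ζ) ^ 3 : ℝ) : ℂ)‖
        ≤ 5 / 4 * (TT p ζ) ^ 3 / ‖lam ζ z‖ := by
      rw [div_le_div_iff₀ hden hl]
      nlinarith
    linarith
  · rw [norm_div, div_le_iff₀ hden]
    linarith
  · rw [norm_div, div_le_div_iff₀ hden ha]
    nlinarith

/-- a factor with a far index -/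
theorem M2y_far {d : ℕ} {p : E d} {ζ : ℕ → E d} (h : Seq8 p ζ) {z : E d} (hz : ‖z‖ < 1)
    {i : ℕ} {τ : ℂ} (hτ : ‖τ‖ ≤ ‖lam (ζ i) z‖ / 8) (hf : TT p (ζ i) / 400 ≤ ‖lam (ζ i) z‖) :
    M2y_q p (ζ i) (Complex.exp τ • z) ≤ Real.exp (500 * (1 / 64) ^ (i + 1)) := by
  obtain ⟨hT, hT2, -, -⟩ := M1s h i
  have hl : 0 < ‖lam (ζ i) z‖ := (F3b hz (h.hB i).le).2.2.2.2.2.1
  have h1 := (M2y_three (p := p) hz (h.hB i) hT hτ).1
  have h2 : 5 / 4 * (TT p (ζ i)) ^ 3 / ‖lam (ζ i) z‖ ≤ 500 * (TT p (ζ i)) ^ 2 := by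
    rw [div_le_iff₀ hl]
    have : 500 * (TT p (ζ i)) ^ 2 * (TT p (ζ i) / 400) ≤ 500 * (TT p (ζ i)) ^ 2 * ‖lam (ζ i) z‖ :=
      mul_le_mul_of_nonneg_left hf (by positivity)
    nlinarith
  have h3 : (TT p (ζ i)) ^ 2 ≤ (1 / 64) ^ (i + 1) := by
    have : (TT p (ζ i)) ^ 2 ≤ ((1 / 8 : ℝ) ^ (i + 1)) ^ 2 := pow_le_pow_left₀ hT.le hT2 2
    refine this.trans (le_of_eq ?_)
    rw [← pow_mul, mul_comm, pow_mul]
    norm_num
  have h4 := Real.add_one_le_exp (500 * (1 / 64 : ℝ) ^ (i + 1))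
  linarith

theorem M2y_sum (S : Finset ℕ) : ∑ i ∈ S, 500 * (1 / 64 : ℝ) ^ (i + 1) ≤ 8 := by
  have h1 : HasSum (fun i : ℕ => (1 / 64 : ℝ) ^ i) (1 - 1 / 64)⁻¹ :=
    hasSum_geometric_of_lt_one (by norm_num) (by norm_num)
  have h2 : HasSum (fun i : ℕ => 500 * (1 / 64 : ℝ) ^ (i + 1)) (500 / 64 * (1 - 1 / 64)⁻¹) := by
    have := h1.mul_left (500 / 64 : ℝ)
    have e : (fun i : ℕ => 500 * (1 / 64 : ℝ) ^ (i + 1))
        = fun i : ℕ => (500 / 64 : ℝ) * (1 / 64) ^ i := by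
      funext i
      rw [pow_succ]
      ring
    rw [e]
    exact this
  have h3 := sum_le_hasSum S (fun i _ => by positivity) h2
  refine h3.trans ?_
  norm_num

theorem M2y_prod {d : ℕ} {p : E d} {ζ : ℕ → E d} (h : Seq8 p ζ) {z : E d} (hz : ‖z‖ < 1)
    {τ : ℂ} (S : Finset ℕ) (hτ : ∀ i ∈ S, ‖τ‖ ≤ ‖lam (ζ i) z‖ / 8)
    (hf : ∀ i ∈ S, TT p (ζ i) / 400 ≤ ‖lam (ζ i) z‖) :
    ∏ i ∈ S, M2y_q p (ζ i) (Complex.exp τ • z) ≤ Real.exp 8 := by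
  calc ∏ i ∈ S, M2y_q p (ζ i) (Complex.exp τ • z)
      ≤ ∏ i ∈ S, Real.exp (500 * (1 / 64) ^ (i + 1)) :=
        Finset.prod_le_prod (fun i _ => M2y_q_nonneg _ _ _)
          (fun i hi => M2y_far h hz (hτ i hi) (hf i hi))
    _ = Real.exp (∑ i ∈ S, 500 * (1 / 64) ^ (i + 1)) := (Real.exp_sum _ _).symm
    _ ≤ Real.exp 8 := Real.exp_le_exp.mpr (M2y_sum S)

/-- the bound for the base of the power -/
theorem M2y_base {d : ℕ} {p : E d} {ζ : ℕ → E d} (h : Seq8 p ζ) (N : ℕ) {z : E d} (hz : ‖z‖ < 1)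
    {τ : ℂ} (hτ : ‖τ‖ ≤ rN p ζ N z / 8) :
    ‖lam p (Complex.exp τ • z)‖ ^ 3 * ∏ i ∈ range N, M2y_q p (ζ i) (Complex.exp τ • z)
      ≤ 2402 * (20 * Real.exp 8) * rN p ζ N z := by
  obtain ⟨hr0, hrT, hrl, hr⟩ := M1r h hz N
  have hE : 0 < Real.exp 8 := Real.exp_pos 8
  obtain ⟨-, -, -, hT0, hT2, -, -⟩ := F1b h.hp hz
  have hTl : TT p z = ‖lam p z‖ := rfl
  have hp1 : ‖p‖ ≤ 1 := h.hp.le
  have hτT : ‖τ‖ ≤ ‖lam p z‖ / 8 := by rw [← hTl]; linarith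
  obtain ⟨-, -, -, hT65⟩ := F7b hz hp1 hτT
  rw [← hTl] at hT65
  have hcube : ‖lam p (Complex.exp τ • z)‖ ^ 3 ≤ (6 / 5 * TT p z) ^ 3 :=
    pow_le_pow_left₀ (norm_nonneg _) hT65 3
  have hτl : ∀ i < N, ‖τ‖ ≤ ‖lam (ζ i) z‖ / 8 := fun i hi => by
    have := hrl i hi
    linarith
  have hT3 : TT p z ^ 3 ≤ 4 * TT p z := by
    have : TT p z ^ 2 ≤ 4 := by nlinarith
    nlinarith
  have hc0 : 0 ≤ ‖lam p (Complex.exp τ • z)‖ ^ 3 := by positivity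
  by_cases hn : ∃ i < N, ‖lam (ζ i) z‖ < TT p (ζ i) / 400
  · obtain ⟨i, hi, hin⟩ := hn
    have hfar : ∀ j < N, j ≠ i → TT p (ζ j) / 400 ≤ ‖lam (ζ j) z‖ := by
      intro j hj hji
      by_contra hc
      exact hji (M1a h hz (not_le.mp hc) hin)
    have hprod : ∏ j ∈ range N, M2y_q p (ζ j) (Complex.exp τ • z)
        ≤ M2y_q p (ζ i) (Complex.exp τ • z) * Real.exp 8 := by
      rw [← Finset.mul_prod_erase (range N) _ (Finset.mem_range.mpr hi)]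
      refine mul_le_mul_of_nonneg_left ?_ (M2y_q_nonneg _ _ _)
      refine M2y_prod h hz _ (fun j hj => ?_) (fun j hj => ?_)
      · exact hτl j (Finset.mem_range.mp (Finset.mem_of_mem_erase hj))
      · exact hfar j (Finset.mem_range.mp (Finset.mem_of_mem_erase hj)) (Finset.ne_of_mem_erase hj)
    obtain ⟨hTi, -, -, -⟩ := M1s h i
    obtain ⟨-, hq2, hq3⟩ := M2y_three (p := p) hz (h.hB i) hTi (hτl i hi)
    have hli : 0 < ‖lam (ζ i) z‖ := (F3b hz (h.hB i).le).2.2.2.2.2.1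
    have bound1 : ‖lam p (Complex.exp τ • z)‖ ^ 3
        * ∏ j ∈ range N, M2y_q p (ζ j) (Complex.exp τ • z) ≤ 20 * Real.exp 8 * TT p z := by
      calc ‖lam p (Complex.exp τ • z)‖ ^ 3
            * ∏ j ∈ range N, M2y_q p (ζ j) (Complex.exp τ • z)
          ≤ (6 / 5 * TT p z) ^ 3 * (3 / 2 * Real.exp 8) := by
            refine mul_le_mul hcube (hprod.trans ?_) ?_ (by positivity)
            · exact mul_le_mul_of_nonneg_right hq2 hE.le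
            · exact Finset.prod_nonneg fun j _ => M2y_q_nonneg _ _ _
        _ = (216 / 125 * (3 / 2)) * Real.exp 8 * TT p z ^ 3 := by ring
        _ ≤ (216 / 125 * (3 / 2)) * Real.exp 8 * (4 * TT p z) :=
            mul_le_mul_of_nonneg_left hT3 (by positivity)
        _ ≤ 20 * Real.exp 8 * TT p z := by
            have : 0 < Real.exp 8 * TT p z := by positivity
            nlinarith
    have bound2 : ‖lam p (Complex.exp τ • z)‖ ^ 3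
        * ∏ j ∈ range N, M2y_q p (ζ j) (Complex.exp τ • z) ≤ 20 * Real.exp 8 * ‖lam (ζ i) z‖ := by
      have hTn := (M1n h.hp hz (h.hB i) hin).2.2
      have hcube2 : (6 / 5 * TT p z) ^ 3 ≤ (6 / 5 * (29 / 25 * TT p (ζ i))) ^ 3 := by
        refine pow_le_pow_left₀ (by positivity) ?_ 3
        linarith
      calc ‖lam p (Complex.exp τ • z)‖ ^ 3
            * ∏ j ∈ range N, M2y_q p (ζ j) (Complex.exp τ • z)
          ≤ (6 / 5 * (29 / 25 * TT p (ζ i))) ^ 3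
              * ((3 / 2 * ‖lam (ζ i) z‖ / (TT p (ζ i)) ^ 3) * Real.exp 8) := by
            refine mul_le_mul (hcube.trans hcube2) (hprod.trans ?_) ?_ (by positivity)
            · exact mul_le_mul_of_nonneg_right hq3 hE.le
            · exact Finset.prod_nonneg fun j _ => M2y_q_nonneg _ _ _
        _ = (174 / 125) ^ 3 * (3 / 2) * Real.exp 8 * ‖lam (ζ i) z‖ := by
            have := hTi.ne'
            field_simp
            ring
        _ ≤ 20 * Real.exp 8 * ‖lam (ζ i) z‖ := by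
            have : 0 < Real.exp 8 * ‖lam (ζ i) z‖ := by positivity
            nlinarith
    rcases hr with hr | ⟨j, hj, hr⟩
    · rw [hr]
      refine bound1.trans ?_
      have : 0 < 20 * Real.exp 8 * TT p z := by positivity
      nlinarith
    · by_cases hji : j = i
      · subst hji
        rw [hr]
        refine bound2.trans ?_
        have : 0 < 20 * Real.exp 8 * ‖lam (ζ j) z‖ := by positivity
        nlinarith
      · have hTj := M1b h.hp hz (h.hB j) (hfar j hj hji)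
        rw [← hr] at hTj
        refine bound1.trans ?_
        have : 20 * Real.exp 8 * TT p z ≤ 20 * Real.exp 8 * (2402 * rN p ζ N z) :=
          mul_le_mul_of_nonneg_left hTj (by positivity)
        linarith
  · push Not at hn
    have hprod := M2y_prod h hz (range N) (τ := τ) (fun i hi => hτl i (Finset.mem_range.mp hi))
      (fun i hi => hn i (Finset.mem_range.mp hi))
    have bound : ‖lam p (Complex.exp τ • z)‖ ^ 3
        * ∏ j ∈ range N, M2y_q p (ζ j) (Complex.exp τ • z) ≤ 20 * Real.exp 8 * TT p z := by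
      calc ‖lam p (Complex.exp τ • z)‖ ^ 3
            * ∏ j ∈ range N, M2y_q p (ζ j) (Complex.exp τ • z)
          ≤ (6 / 5 * TT p z) ^ 3 * Real.exp 8 := by
            refine mul_le_mul hcube hprod ?_ (by positivity)
            exact Finset.prod_nonneg fun j _ => M2y_q_nonneg _ _ _
        _ = (216 / 125) * Real.exp 8 * TT p z ^ 3 := by ring
        _ ≤ (216 / 125) * Real.exp 8 * (4 * TT p z) :=
            mul_le_mul_of_nonneg_left hT3 (by positivity)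
        _ ≤ 20 * Real.exp 8 * TT p z := by
            have : 0 < Real.exp 8 * TT p z := by positivity
            nlinarith
    refine bound.trans ?_
    rcases hr with hr | ⟨j, hj, hr⟩
    · rw [hr]
      have : 0 < 20 * Real.exp 8 * TT p z := by positivity
      nlinarith
    · have hTj := M1b h.hp hz (h.hB j) (hn j hj)
      rw [← hr] at hTj
      have : 20 * Real.exp 8 * TT p z ≤ 20 * Real.exp 8 * (2402 * rN p ζ N z) :=
        mul_le_mul_of_nonneg_left hTj (by positivity)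
      linarith

/-- the main bound.

Proof.  Let `z` be in the ball, `r = r_N(z)`, `|τ| ≤ r/8`, `z̃ = e^τ z`, `a_i = T_i³`.
By `F7b` (for `p` and for `ζ_i`, `i<N`): `T(z̃) ≤ (6/5)T`, `|λ_i(z̃)| ≤ (6/5)|λ_i(z)|`, and by `F7c`
`|λ_i(z̃)+a_i| ≥ (4/5) max(|λ_i(z)|, a_i)`.  Hence the factor
`q_i = |λ_i(z̃)/(λ_i(z̃)+a_i)|` satisfies  (1) `q_i ≤ 1 + a_i/|λ_i(z̃)+a_i| ≤ 1 + (5/4) a_i/|λ_i(z)|`;
(2) `q_i ≤ 3/2`;  (3) `q_i ≤ (3/2)|λ_i(z)|/a_i`.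
If `i` is far (`|λ_i(z)| ≥ T_i/400`): `q_i ≤ 1 + 500 T_i² ≤ exp(500·64^{-(i+1)})`, so the product of the `q_i` over
any set of far indices is `≤ e^{8}`.
At most one index `i₀ < N` is near (`M1a`).
Case A: no near index `< N`.  Then `|λ_i(z)| ≥ T/2402` for all `i<N` (`M1b`), so `r ≥ T/2402`, and
`|G_N(z̃)| ≤ ((6/5)T)^{6s} e^{16 s} ≤ C T^{2s} ≤ C' r^{2s}` (using `T ≤ 2`).
Case B: `i₀` is near.  By `M1n` `T ≤ (29/25)T_{i₀}`; `r ≥ min(|λ_{i₀}(z)|, T/2402)`.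
With (2): `|G_N(z̃)| ≤ ((6/5)T)^{6s}(3/2)^{2s}e^{16s} ≤ C T^{2s}`; with (3):
`|G_N(z̃)| ≤ ((6/5)(29/25)T_{i₀})^{6s} ((3/2)|λ_{i₀}(z)|/T_{i₀}³)^{2s} e^{16s} ≤ C |λ_{i₀}(z)|^{2s}`.
So `|G_N(z̃)| ≤ C min(T,|λ_{i₀}(z)|)^{2s} ≤ C' r^{2s}`. -/
theorem M2 {d : ℕ} (s : ℕ) : ∃ C : ℝ, 0 < C ∧ ∀ (p : E d) (ζ : ℕ → E d), Seq8 p ζ →
    ∀ (N : ℕ) (z : E d), ‖z‖ < 1 → ∀ τ : ℂ, ‖τ‖ ≤ rN p ζ N z / 8 →
      ‖Gf p ζ s N (Complex.exp τ • z)‖ ≤ C * (rN p ζ N z) ^ (2 * s) := by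
  refine ⟨(2402 * (20 * Real.exp 8)) ^ (2 * s), by positivity, ?_⟩
  intro p ζ h N z hz τ hτ
  rw [M2y_norm, ← mul_pow]
  refine pow_le_pow_left₀ ?_ (M2y_base h N hz hτ) _
  exact mul_nonneg (by positivity) (Finset.prod_nonneg fun j _ => M2y_q_nonneg _ _ _)

end Pool.Agent.CRT
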