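import Pool.Agent.CRT.M1

/-!
# [M5] Estimates for `u = a² b e/λ_ζ`

`a = <z,ζ'>/|ζ'|²`, `b = (1-ζ₁)/(1-z₁)`, `e = (1-|ζ₁|²)/(1-z₁ conj ζ₁)`, with `|ζ'|² ≥ κ² T(ζ)`, `0 < κ ≤ 1`,
`T(ζ) ≤ 1/8`.  Notation `T = T_p(z)`, `T_i = T_p(ζ)`, `λ = λ_ζ(z)`, `D = 1 - z₁ conj ζ₁`.
-/

set_option autoImplicit false

namespace Pool.Agent.CRT

open Finset

/-- bounds for `e`: `|e| ≤ 2`, and `|e| ≤ 4T_i/T` if `T ≥ 2T_i`.

Proof.  `1-|ζ₁|² ≤ 2(1-|ζ₁|) ≤ 2|D|`; `1-|ζ₁|² ≤ 2T_i` and `|D| ≥ T - T_i ≥ T/2` (`F6b`). -/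
theorem M5e {d : ℕ} {p z ζ : E d} (hp : ‖p‖ = 1) (hz : ‖z‖ < 1) (hζ : ‖ζ‖ < 1) :
    ‖((1 - ‖br ζ p‖ ^ 2 : ℝ) : ℂ) / (1 - br z p * (starRingEnd ℂ) (br ζ p))‖ ≤ 2 ∧
    (2 * TT p ζ ≤ TT p z →
      ‖((1 - ‖br ζ p‖ ^ 2 : ℝ) : ℂ) / (1 - br z p * (starRingEnd ℂ) (br ζ p))‖
        ≤ 4 * TT p ζ / TT p z) := by
  obtain ⟨h1, -, h3, -, -, -, -⟩ := F1b hp hζ
  obtain ⟨-, -, h6, h7, -⟩ := F6b hp hz hζ
  have hn : 0 < 1 - ‖br ζ p‖ ^ 2 := by nlinarith [norm_nonneg (br ζ p)]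
  have hD : 0 < ‖1 - br z p * (starRingEnd ℂ) (br ζ p)‖ := by linarith
  have hT := (F1b hp hz).2.2.2.1
  rw [norm_div, Complex.norm_real, Real.norm_of_nonneg hn.le]
  constructor
  · rw [div_le_iff₀ hD]
    linarith
  · intro h8
    rw [div_le_div_iff₀ hD hT]
    have h9 : TT p z / 2 ≤ ‖1 - br z p * (starRingEnd ℂ) (br ζ p)‖ := by linarith
    have hTi := (F1b hp hζ).2.2.2.1
    nlinarith

/-- the general bound `|u| ≤ κ^{-2} Re w · T |e|/|λ|`.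

Proof.  `|a| = |<z',ζ'>|/|ζ'|² ≤ |z'|/|ζ'|`, so `|a|² ≤ |z'|²/(κ²T_i)`, and `|z'|² ≤ T² Re w` (`F2a`);
`|b| = T_i/T`. -/
theorem M5a {d : ℕ} {p z ζ : E d} (hp : ‖p‖ = 1) (hz : ‖z‖ < 1) (hζ : ‖ζ‖ < 1) {κ : ℝ}
    (hκ : 0 < κ) (hκζ : κ ^ 2 * TT p ζ ≤ ‖pr p ζ‖ ^ 2) :
    ‖uu p ζ z‖ ≤ (1 / κ) ^ 2 * (ww p z).re * TT p z *
      ‖((1 - ‖br ζ p‖ ^ 2 : ℝ) : ℂ) / (1 - br z p * (starRingEnd ℂ) (br ζ p))‖ / ‖lam ζ z‖ := by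
  have hT := (F1b hp hz).2.2.2.1
  have hTi := (F1b hp hζ).2.2.2.1
  have hl : 0 < ‖lam ζ z‖ := (F3b hz hζ.le).2.2.2.2.2.1
  obtain ⟨hw, -, -, hw0, -, -⟩ := F2a hp hz
  have ht := (F1b hp hz).2.2.2.2.2.1
  have hζ' : 0 < ‖pr p ζ‖ ^ 2 := by
    have : 0 < κ ^ 2 * TT p ζ := by positivity
    linarith
  have hz' : ‖pr p z‖ ^ 2 ≤ (ww p z).re * TT p z ^ 2 := by
    rw [hw, div_mul_cancel₀ _ (by positivity)]
    linarith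
  have ha : ‖br z (pr p ζ)‖ ^ 2 ≤ ‖pr p z‖ ^ 2 * ‖pr p ζ‖ ^ 2 := by
    rw [br_pr hp, ← mul_pow]
    exact pow_le_pow_left₀ (norm_nonneg _) (br_le _ _) 2
  set E := ‖((1 - ‖br ζ p‖ ^ 2 : ℝ) : ℂ) / (1 - br z p * (starRingEnd ℂ) (br ζ p))‖ with hE
  have hE0 : 0 ≤ E := norm_nonneg _
  have e1 : ‖uu p ζ z‖ = (‖br z (pr p ζ)‖ / ‖pr p ζ‖ ^ 2) ^ 2 * (TT p ζ / TT p z) * E
      / ‖lam ζ z‖ := by
    unfold uu TT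
    rw [norm_div, norm_mul, norm_mul, norm_pow, norm_div, norm_div (lam p ζ), Complex.norm_real,
      Real.norm_of_nonneg hζ'.le]
  rw [e1]
  refine div_le_div_of_nonneg_right ?_ hl.le
  refine mul_le_mul_of_nonneg_right ?_ hE0
  have h1 : (‖br z (pr p ζ)‖ / ‖pr p ζ‖ ^ 2) ^ 2 ≤ ‖pr p z‖ ^ 2 / ‖pr p ζ‖ ^ 2 := by
    rw [div_pow, div_le_div_iff₀ (by positivity) hζ']
    nlinarith
  have h2 : ‖pr p z‖ ^ 2 / ‖pr p ζ‖ ^ 2 ≤ (ww p z).re * TT p z ^ 2 / (κ ^ 2 * TT p ζ) := by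
    refine div_le_div₀ (by positivity) hz' (by positivity) hκζ
  calc (‖br z (pr p ζ)‖ / ‖pr p ζ‖ ^ 2) ^ 2 * (TT p ζ / TT p z)
      ≤ ((ww p z).re * TT p z ^ 2 / (κ ^ 2 * TT p ζ)) * (TT p ζ / TT p z) :=
        mul_le_mul_of_nonneg_right (h1.trans h2) (by positivity)
    _ = (1 / κ) ^ 2 * (ww p z).re * TT p z := by
        field_simp

/-- far: if `T_i/400 ≤ |λ|` then `|u| ≤ 10⁴ κ^{-2} Re w · min(T/T_i, T_i/T)`.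

Proof.  By `M5a`.  If `T ≥ 2T_i`: `|e| ≤ 4T_i/T`, `T/|λ| ≤ 2402` (`M1b`), product `≤ 9608 T_i/T` and
`min = T_i/T`.  If `T < 2T_i`: `|e| ≤ 2`, `T/|λ| ≤ 400 T/T_i`, product `≤ 800 T/T_i ≤ 3200 min(T/T_i,T_i/T)`
(if `T ≤ T_i` the minimum is `T/T_i`; if `T_i < T < 2T_i`, `T_i/T ≥ 1/2 ≥ (1/4) T/T_i`). -/
theorem M5f {d : ℕ} {p z ζ : E d} (hp : ‖p‖ = 1) (hz : ‖z‖ < 1) (hζ : ‖ζ‖ < 1) {κ : ℝ}
    (hκ : 0 < κ) (hκζ : κ ^ 2 * TT p ζ ≤ ‖pr p ζ‖ ^ 2) (hfar : TT p ζ / 400 ≤ ‖lam ζ z‖) :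
    ‖uu p ζ z‖ ≤ 10000 * (1 / κ) ^ 2 * (ww p z).re * min (TT p z / TT p ζ) (TT p ζ / TT p z) := by
  have hT := (F1b hp hz).2.2.2.1
  have hTi := (F1b hp hζ).2.2.2.1
  have hl : 0 < ‖lam ζ z‖ := (F3b hz hζ.le).2.2.2.2.2.1
  have hw0 := (F2a hp hz).2.2.2.1
  have hb := M1b hp hz hζ hfar
  obtain ⟨he1, he2⟩ := M5e hp hz hζ
  refine (M5a hp hz hζ hκ hκζ).trans ?_
  set E := ‖((1 - ‖br ζ p‖ ^ 2 : ℝ) : ℂ) / (1 - br z p * (starRingEnd ℂ) (br ζ p))‖ with hE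
  have hE0 : 0 ≤ E := norm_nonneg _
  have key : TT p z * E / ‖lam ζ z‖ ≤ 10000 * min (TT p z / TT p ζ) (TT p ζ / TT p z) := by
    rcases le_or_gt (2 * TT p ζ) (TT p z) with hc | hc
    · have hmin : min (TT p z / TT p ζ) (TT p ζ / TT p z) = TT p ζ / TT p z := by
        refine min_eq_right ?_
        rw [div_le_div_iff₀ hT hTi]
        nlinarith
      rw [hmin]
      have h1 : TT p z / ‖lam ζ z‖ ≤ 2402 := by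
        rw [div_le_iff₀ hl]
        exact hb
      have h2 := he2 hc
      have e : TT p z * E / ‖lam ζ z‖ = (TT p z / ‖lam ζ z‖) * E := by ring
      rw [e]
      have h3 : (TT p z / ‖lam ζ z‖) * E ≤ 2402 * (4 * TT p ζ / TT p z) :=
        mul_le_mul h1 h2 hE0 (by norm_num)
      refine h3.trans ?_
      have h4 : 0 < TT p ζ / TT p z := by positivity
      have e2 : 2402 * (4 * TT p ζ / TT p z) = 9608 * (TT p ζ / TT p z) := by ring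
      rw [e2]
      nlinarith
    · have h1 : TT p z / ‖lam ζ z‖ ≤ 400 * (TT p z / TT p ζ) := by
        rw [mul_div_assoc', div_le_div_iff₀ hl hTi]
        nlinarith
      have e : TT p z * E / ‖lam ζ z‖ = (TT p z / ‖lam ζ z‖) * E := by ring
      rw [e]
      have h3 : (TT p z / ‖lam ζ z‖) * E ≤ 400 * (TT p z / TT p ζ) * 2 :=
        mul_le_mul h1 he1 hE0 (by positivity)
      refine h3.trans ?_
      have h5 : 1 / 4 * (TT p z / TT p ζ) ≤ min (TT p z / TT p ζ) (TT p ζ / TT p z) := by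
        refine le_min ?_ ?_
        · have : 0 < TT p z / TT p ζ := by positivity
          linarith
        · rw [mul_div_assoc', div_le_div_iff₀ hTi hT]
          nlinarith
      have : 0 < TT p z / TT p ζ := by positivity
      linarith
  have e : (1 / κ) ^ 2 * (ww p z).re * TT p z * E / ‖lam ζ z‖
      = ((1 / κ) ^ 2 * (ww p z).re) * (TT p z * E / ‖lam ζ z‖) := by ring
  rw [e]
  have h7 : ((1 / κ) ^ 2 * (ww p z).re) * (TT p z * E / ‖lam ζ z‖)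
      ≤ ((1 / κ) ^ 2 * (ww p z).re) * (10000 * min (TT p z / TT p ζ) (TT p ζ / TT p z)) :=
    mul_le_mul_of_nonneg_left key (by positivity)
  refine h7.trans (le_of_eq ?_)
  ring

/-- middle: if `i` is near and `(κ⁴/400) T_i ≤ |λ|` then `|u| ≤ 1000 κ^{-6} Re w`.

Proof.  `M5a`, `|e| ≤ 2`, `T ≤ (29/25) T_i` (`M1n`): `T|e|/|λ| ≤ (58/25)·400 κ^{-4} = 928 κ^{-4}`. -/
theorem M5m {d : ℕ} {p z ζ : E d} (hp : ‖p‖ = 1) (hz : ‖z‖ < 1) (hζ : ‖ζ‖ < 1) {κ : ℝ}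
    (hκ : 0 < κ) (hκζ : κ ^ 2 * TT p ζ ≤ ‖pr p ζ‖ ^ 2)
    (hnear : ‖lam ζ z‖ < TT p ζ / 400) (hmid : κ ^ 4 / 400 * TT p ζ ≤ ‖lam ζ z‖) :
    ‖uu p ζ z‖ ≤ 1000 * (1 / κ) ^ 6 * (ww p z).re := by
  have hT := (F1b hp hz).2.2.2.1
  have hTi := (F1b hp hζ).2.2.2.1
  have hl : 0 < ‖lam ζ z‖ := (F3b hz hζ.le).2.2.2.2.2.1
  have hw0 := (F2a hp hz).2.2.2.1
  obtain ⟨he1, -⟩ := M5e hp hz hζ
  have hn := (M1n hp hz hζ hnear).2.2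
  refine (M5a hp hz hζ hκ hκζ).trans ?_
  set E := ‖((1 - ‖br ζ p‖ ^ 2 : ℝ) : ℂ) / (1 - br z p * (starRingEnd ℂ) (br ζ p))‖ with hE
  have hE0 : 0 ≤ E := norm_nonneg _
  have key : TT p z * E / ‖lam ζ z‖ ≤ 1000 * (1 / κ) ^ 4 := by
    rw [div_le_iff₀ hl]
    have h1 : TT p z * E ≤ (29 / 25 * TT p ζ) * 2 := mul_le_mul hn he1 hE0 (by positivity)
    have h2 : 1000 * (1 / κ) ^ 4 * (κ ^ 4 / 400 * TT p ζ) ≤ 1000 * (1 / κ) ^ 4 * ‖lam ζ z‖ :=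
      mul_le_mul_of_nonneg_left hmid (by positivity)
    have e : 1000 * (1 / κ) ^ 4 * (κ ^ 4 / 400 * TT p ζ) = 5 / 2 * TT p ζ := by
      field_simp
      norm_num
    rw [e] at h2
    linarith
  have e : (1 / κ) ^ 2 * (ww p z).re * TT p z * E / ‖lam ζ z‖
      = ((1 / κ) ^ 2 * (ww p z).re) * (TT p z * E / ‖lam ζ z‖) := by ring
  rw [e]
  have h7 : ((1 / κ) ^ 2 * (ww p z).re) * (TT p z * E / ‖lam ζ z‖)
      ≤ ((1 / κ) ^ 2 * (ww p z).re) * (1000 * (1 / κ) ^ 4) :=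
    mul_le_mul_of_nonneg_left key (by positivity)
  refine h7.trans (le_of_eq ?_)
  ring

end Pool.Agent.CRT
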