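import Pool.Agent.CRT.M5

/-!
# [M5n] The near estimate: `Re u ≥ (1/2) Re(1/λ) - C Re w`
-/

set_option autoImplicit false

namespace Pool.Agent.CRT

open Finset

/-- perturbation of the product -/
theorem M5n_prod {a b e : ℂ} {α β η : ℝ} (ha : ‖a - 1‖ ≤ α) (hα : α ≤ 1 / 2) (hb : ‖b - 1‖ ≤ β)
    (hβ : β ≤ 1 / 2) (he : ‖e - 1‖ ≤ η) (he2 : ‖e‖ ≤ 2) :
    ‖a ^ 2 * b * e - 1‖ ≤ 15 / 2 * α + 2 * β + η := by
  have hα0 : 0 ≤ α := (norm_nonneg _).trans ha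
  have hβ0 : 0 ≤ β := (norm_nonneg _).trans hb
  have e1 : a ^ 2 * b * e - 1 = (a - 1) * (a + 1) * b * e + (b - 1) * e + (e - 1) := by ring
  have h1 : ‖a + 1‖ ≤ 5 / 2 := by
    have : a + 1 = (a - 1) + 2 := by ring
    rw [this]
    refine (norm_add_le _ _).trans ?_
    have : ‖(2 : ℂ)‖ = 2 := by simp
    rw [this]
    linarith
  have h2 : ‖b‖ ≤ 3 / 2 := by
    have : b = (b - 1) + 1 := by ring
    rw [this]
    refine (norm_add_le _ _).trans ?_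
    rw [norm_one]
    linarith
  have h3 : ‖(a - 1) * (a + 1) * b * e‖ ≤ α * (5 / 2) * (3 / 2) * 2 := by
    rw [norm_mul, norm_mul, norm_mul]
    gcongr
  have h4 : ‖(b - 1) * e‖ ≤ β * 2 := by
    rw [norm_mul]
    gcongr
  rw [e1]
  refine (norm_add_le _ _).trans ?_
  have h5 := norm_add_le ((a - 1) * (a + 1) * b * e) ((b - 1) * e)
  linarith

/-- `Re(c/λ) ≥ Re λ/|λ|² - |c-1|/|λ|` -/
theorem M5n_re {c l : ℂ} {ε : ℝ} (hc : ‖c - 1‖ ≤ ε) (hl : 0 < ‖l‖) :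
    l.re / ‖l‖ ^ 2 - ε / ‖l‖ ≤ (c / l).re := by
  have e1 : c / l = 1 / l + (c - 1) / l := by ring
  have e2 : (1 / l).re = l.re / ‖l‖ ^ 2 := by
    rw [one_div, Complex.inv_re, Complex.normSq_eq_norm_sq]
  have e3 : |((c - 1) / l).re| ≤ ε / ‖l‖ := by
    refine (Complex.abs_re_le_norm _).trans ?_
    rw [norm_div]
    gcongr
  rw [e1, Complex.add_re, e2]
  have := (abs_le.1 e3).1
  linarith

/-- the real arithmetic: `r = √T`, `s = √X` -/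
theorem M5n_real {κ r s L ε W : ℝ} (hκ : 0 < κ) (hr : 0 < r) (hs : 0 ≤ s)
    (hL : 0 < L) (hε : ε ≤ 50 / κ ^ 2 * (L / r ^ 2 + s / r)) (hW : 1 / r ^ 2 ≤ 6 / κ ^ 2 * W)
    (hκ1 : κ ≤ 1) :
    1 / 2 * (s ^ 2 / L ^ 2) - 10000 * (1 / κ) ^ 6 * W ≤ s ^ 2 / L ^ 2 - ε / L := by
  have h1 : ε / L ≤ 50 / κ ^ 2 * (1 / r ^ 2) + 50 / κ ^ 2 * (s / L) * (1 / r) := by
    calc ε / L ≤ (50 / κ ^ 2 * (L / r ^ 2 + s / r)) / L := by gcongr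
      _ = _ := by field_simp
  have h2 : 50 / κ ^ 2 * (s / L) * (1 / r) ≤ 1 / 2 * (s / L) ^ 2 + 1 / 2 * (50 / κ ^ 2 * (1 / r)) ^ 2 := by
    nlinarith [sq_nonneg (s / L - 50 / κ ^ 2 * (1 / r))]
  have hk : 1 ≤ 1 / κ ^ 2 := by
    rw [le_div_iff₀ (by positivity)]
    nlinarith
  have h3 : 50 / κ ^ 2 * (1 / r ^ 2) + 1 / 2 * (50 / κ ^ 2 * (1 / r)) ^ 2 ≤
      1300 * (1 / κ) ^ 4 * (1 / r ^ 2) := by
    have e1 : 50 / κ ^ 2 * (1 / r ^ 2) + 1 / 2 * (50 / κ ^ 2 * (1 / r)) ^ 2 =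
        (50 * (1 / κ ^ 2) + 1250 * (1 / κ ^ 2) ^ 2) * (1 / r ^ 2) := by
      field_simp
      ring
    have e2 : (1 / κ) ^ 4 = (1 / κ ^ 2) ^ 2 := by field_simp
    rw [e1, e2]
    have : 0 ≤ 1 / r ^ 2 := by positivity
    refine mul_le_mul_of_nonneg_right ?_ this
    nlinarith
  have h4 : 1300 * (1 / κ) ^ 4 * (1 / r ^ 2) ≤ 7800 * (1 / κ) ^ 6 * W := by
    calc 1300 * (1 / κ) ^ 4 * (1 / r ^ 2) ≤ 1300 * (1 / κ) ^ 4 * (6 / κ ^ 2 * W) := by gcongr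
      _ = _ := by
        field_simp
        ring
  have hW0 : 0 ≤ W := by
    have h5 : 0 < 6 / κ ^ 2 * W := lt_of_lt_of_le (by positivity) hW
    have h6 : 0 < 6 / κ ^ 2 := by positivity
    exact ((mul_pos_iff_of_pos_left h6).1 h5).le
  have h7 : 7800 * (1 / κ) ^ 6 * W ≤ 10000 * (1 / κ) ^ 6 * W := by
    have : 0 ≤ (1 / κ) ^ 6 * W := by positivity
    nlinarith
  have h8 : (s / L) ^ 2 = s ^ 2 / L ^ 2 := by rw [div_pow]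
  rw [h8] at h2
  linarith

/-- the orthogonal projection is a contraction -/
theorem M5n_pr {d : ℕ} {p : E d} (hp : ‖p‖ = 1) (z ζ : E d) :
    ‖pr p z - pr p ζ‖ ≤ ‖z - ζ‖ := by
  have e1 : pr p z - pr p ζ = pr p (z - ζ) := by
    unfold pr br
    rw [inner_sub_right, sub_smul]
    abel
  have h1 := F1a (p := p) (z := z - ζ) hp
  rw [e1]
  have h2 : ‖pr p (z - ζ)‖ ^ 2 ≤ ‖z - ζ‖ ^ 2 := by
    rw [h1]
    nlinarith [sq_nonneg ‖br (z - ζ) p‖]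
  exact le_of_sq_le_sq h2 (norm_nonneg _)

/-- Let `c₂ = κ⁴/400`, `0<κ≤1`, `|ζ'|² ≥ κ²T_i`, `T_i ≤ 1/8`, `|λ| < c₂ T_i`.  Then
`Re u ≥ (1/2) Re λ/|λ|² - C κ^{-6} Re w`, `C` absolute (say `10⁶`).

Proof.  Put `X = Re λ > 0`, `L = |λ| ≥ X`, `x = |z₁-ζ₁|`.
(a) `|z-ζ|² ≤ 2X ≤ 2c₂T_i ≤ κ²T_i/4` (`F3b`), so `|z'-ζ'| ≤ κ√T_i/2`, `|z'| ≥ κ√T_i/2`, and with
`T ≤ (29/25)T_i` (`M1n`): `Re w ≥ |z'|²/T² ≥ κ²/(6T_i)`, i.e.  `1/T_i ≤ 6κ^{-2} Re w`.        (1)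
(b) `a-1 = <z'-ζ',ζ'>/|ζ'|²`: `α := |a-1| ≤ |z-ζ|/|ζ'| ≤ √(2X)/(κ√T_i) ≤ 1/2`.                 (2)
(c) `F5` (`T_i ≤ 1/8`): `x ≤ 6L + 4√(X T_i)`, and `T ≥ (21/25)T_i`, so
`β := |b-1| = |z₁-ζ₁|/T ≤ 8L/T_i + 5√(X/T_i) ≤ 1/2` (as `L/T_i, X/T_i ≤ 1/400`).                (3)
(d) `e - 1 = ((1-|ζ₁|²) - D)/D = (z₁-ζ₁)conj ζ₁/D`.  `|D| ≥ (1-|ζ₁|²) - x ≥ κ²T_i - x` (`1-|ζ₁|² ≥ |ζ'|²`),
and `x ≤ 6L+4√(XT_i) ≤ (6c₂+4√c₂)T_i ≤ 10 (κ²/20) T_i = κ²T_i/2` because `√c₂ = κ²/20`; so `|D| ≥ κ²T_i/2`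
and  `η := |e-1| ≤ 2x/(κ²T_i) ≤ κ^{-2}(12L/T_i + 8√(X/T_i))`, and also `|e| ≤ 2`.               (4)
(e) `a²be - 1 = (a²-1)be + (b-1)e + (e-1)`, `|a²-1| ≤ α(2+α) ≤ 2.5α`, `|be| ≤ 3`, so
`ε := |a²be-1| ≤ 7.5α + 2β + η ≤ C₁ κ^{-2}(L/T_i + √(X/T_i))` with `C₁ = 50`
(`7.5√2/κ + 10 + 8κ^{-2} ≤ 29κ^{-2}`, `16+12κ^{-2} ≤ 28κ^{-2}`).
(f) `Re u ≥ Re(1/λ) - ε/L = X/L² - ε/L`, and
`ε/L ≤ C₁κ^{-2}/T_i + C₁κ^{-2}√X/(L√T_i) ≤ C₁κ^{-2}/T_i + X/(2L²) + C₁²κ^{-4}/(2T_i)`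
(`uv ≤ u²/2+v²/2` with `u = √X/L`, `v = C₁κ^{-2}/√T_i`).  With (1):
`Re u ≥ X/(2L²) - (C₁+C₁²/2)κ^{-4}·6κ^{-2} Re w`, and `6(50+1250) = 7800 ≤ 10⁴`. -/
theorem M5n {d : ℕ} {p z ζ : E d} (hp : ‖p‖ = 1) (hz : ‖z‖ < 1) (hζ : ‖ζ‖ < 1) {κ : ℝ}
    (hκ : 0 < κ) (hκ1 : κ ≤ 1) (hκζ : κ ^ 2 * TT p ζ ≤ ‖pr p ζ‖ ^ 2) (hT : TT p ζ ≤ 1 / 8)
    (h : ‖lam ζ z‖ < κ ^ 4 / 400 * TT p ζ) :
    1 / 2 * ((lam ζ z).re / ‖lam ζ z‖ ^ 2) - 10000 * (1 / κ) ^ 6 * (ww p z).re ≤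
      (uu p ζ z).re := by
  set T := TT p ζ with hTdef
  set L := ‖lam ζ z‖ with hLdef
  set X := (lam ζ z).re with hXdef
  obtain ⟨hX0, -, -, hzζ, hXL, hL0, -⟩ := F3b hz hζ.le
  rw [← hXdef] at hX0 hzζ hXL
  rw [← hLdef] at hXL hL0
  obtain ⟨hζ1, hζ2, hζ3, hT0, -, htζ, -⟩ := F1b hp hζ
  rw [← hTdef] at hζ3 hT0
  obtain ⟨hw1, -, -, -, -, -⟩ := F2a hp hz
  obtain ⟨-, -, -, hTz0, -, htz, -⟩ := F1b hp hz
  have hκ4 : κ ^ 4 ≤ 1 := pow_le_one₀ hκ.le hκ1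
  have hκ2 : κ ^ 2 ≤ 1 := pow_le_one₀ hκ.le hκ1
  have hLT : L < T / 400 := by
    refine h.trans_le ?_
    have := mul_le_mul_of_nonneg_right hκ4 hT0.le
    linarith
  obtain ⟨hn1, hn2, hn3⟩ := M1n hp hz hζ hLT
  rw [← hTdef] at hn1 hn2 hn3
  set r := Real.sqrt T with hr
  have hr0 : 0 < r := Real.sqrt_pos.2 hT0
  have hr2 : r ^ 2 = T := Real.sq_sqrt hT0.le
  set s := Real.sqrt X with hs
  have hs0 : 0 < s := Real.sqrt_pos.2 hX0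
  have hs2 : s ^ 2 = X := Real.sq_sqrt hX0.le
  have hsr : s ≤ κ ^ 2 / 20 * r := by
    refine le_of_sq_le_sq ?_ (by positivity)
    rw [hs2, mul_pow, hr2]
    have : (κ ^ 2 / 20) ^ 2 = κ ^ 4 / 400 := by ring
    rw [this]
    linarith
  set S := ‖pr p ζ‖ with hS
  have hSr : κ * r ≤ S := by
    refine le_of_sq_le_sq ?_ (norm_nonneg _)
    rw [mul_pow, hr2]
    exact hκζ
  have hS0 : 0 < S := lt_of_lt_of_le (by positivity) hSr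
  -- the distance
  have hd1 : ‖pr p z - pr p ζ‖ ≤ 3 / 2 * s := by
    refine (M5n_pr hp z ζ).trans ?_
    refine le_of_sq_le_sq ?_ (by positivity)
    rw [mul_pow, hs2]
    linarith
  have hκr : κ ^ 2 * r ≤ κ * r := by
    rw [sq, mul_assoc]
    exact mul_le_of_le_one_left (by positivity) hκ1
  have hd2 : 3 / 2 * s ≤ κ * r / 2 := by
    have : 0 < κ * r := by positivity
    linarith
  -- (1)
  have hW : 1 / r ^ 2 ≤ 6 / κ ^ 2 * (ww p z).re := by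
    have h1 : κ * r / 2 ≤ ‖pr p z‖ := by
      have h2 : ‖pr p ζ‖ ≤ ‖pr p z‖ + ‖pr p z - pr p ζ‖ := by
        have := norm_sub_norm_le (pr p ζ) (pr p z)
        rw [norm_sub_rev] at this
        linarith
      linarith
    have h3 : (κ * r / 2) ^ 2 ≤ ‖pr p z‖ ^ 2 := by gcongr
    rw [hw1, hr2]
    have h4 : TT p z ^ 2 ≤ (29 / 25 * T) ^ 2 := by gcongr
    have h5 : (κ * r / 2) ^ 2 = κ ^ 2 * T / 4 := by
      rw [div_pow, mul_pow, hr2]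
      norm_num
    rw [h5] at h3
    have h6 : κ ^ 2 / (6 * T) ≤ (tt z + ‖pr p z‖ ^ 2) / TT p z ^ 2 := by
      rw [div_le_div_iff₀ (by positivity) (by positivity)]
      calc κ ^ 2 * TT p z ^ 2 ≤ κ ^ 2 * (29 / 25 * T) ^ 2 := by gcongr
        _ = 841 / 625 * (κ ^ 2 * T ^ 2) := by ring
        _ ≤ 3 / 2 * (κ ^ 2 * T ^ 2) :=
          mul_le_mul_of_nonneg_right (by norm_num) (by positivity)
        _ = (κ ^ 2 * T / 4) * (6 * T) := by ring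
        _ ≤ (tt z + ‖pr p z‖ ^ 2) * (6 * T) := by
          gcongr
          linarith
    calc 1 / T = 6 / κ ^ 2 * (κ ^ 2 / (6 * T)) := by
          field_simp
      _ ≤ _ := by gcongr
  -- (2)
  set a : ℂ := br z (pr p ζ) / ((S ^ 2 : ℝ) : ℂ) with ha
  have hSC : ((S ^ 2 : ℝ) : ℂ) ≠ 0 := by
    rw [Ne, Complex.ofReal_eq_zero]
    positivity
  have ha1 : ‖a - 1‖ ≤ 3 / 2 * (s / (κ * r)) := by
    have e1 : a - 1 = br (pr p z - pr p ζ) (pr p ζ) / ((S ^ 2 : ℝ) : ℂ) := by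
      have e2 : br (pr p z - pr p ζ) (pr p ζ) = br z (pr p ζ) - ((S ^ 2 : ℝ) : ℂ) := by
        rw [br_pr hp z ζ]
        unfold br
        rw [inner_sub_right, inner_self_eq_norm_sq_to_K]
        push_cast
        rfl
      rw [e2, sub_div, div_self hSC]
    rw [e1, norm_div, Complex.norm_real, Real.norm_of_nonneg (by positivity)]
    calc ‖br (pr p z - pr p ζ) (pr p ζ)‖ / S ^ 2 ≤ (3 / 2 * s * S) / S ^ 2 := by
          gcongr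
          refine (br_le _ _).trans ?_
          rw [← hS]
          gcongr
      _ = 3 / 2 * (s / S) := by
          field_simp
      _ ≤ 3 / 2 * (s / (κ * r)) := by gcongr
  have hsκ : s / (κ * r) ≤ 1 / 20 := by
    rw [div_le_iff₀ (by positivity)]
    linarith
  -- (3)
  have hx : ‖br z p - br ζ p‖ ≤ 6 * L + 4 * (s * r) := by
    have h1 := F5 hp hz hζ (hT.trans (by norm_num))
    rw [← hXdef, ← hLdef, ← hTdef, Real.sqrt_mul hX0.le] at h1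
    linarith
  have hsr2 : s / r ≤ κ ^ 2 / 20 := by
    rw [div_le_iff₀ hr0]
    exact hsr
  have hLr2 : L / r ^ 2 ≤ κ ^ 4 / 400 := by
    rw [div_le_iff₀ (by positivity), hr2]
    exact h.le
  set b : ℂ := lam p ζ / lam p z with hb
  have hlz : lam p z ≠ 0 := by
    rw [← norm_pos_iff]
    exact hTz0
  have hb1 : ‖b - 1‖ ≤ 8 * (L / r ^ 2) + 5 * (s / r) := by
    have e1 : b - 1 = (br z p - br ζ p) / lam p z := by
      rw [hb, div_sub_one hlz]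
      unfold lam
      congr 1
      ring
    rw [e1, norm_div]
    have h2 : (21 : ℝ) / 25 * r ^ 2 ≤ ‖lam p z‖ := by
      rw [hr2]
      exact hn2
    calc ‖br z p - br ζ p‖ / ‖lam p z‖ ≤ (6 * L + 4 * (s * r)) / (21 / 25 * r ^ 2) := by
          gcongr
      _ = 150 / 21 * (L / r ^ 2) + 100 / 21 * (s / r) := by
          field_simp
          ring
      _ ≤ _ := by
          have h3 : 0 ≤ L / r ^ 2 := by positivity
          have h4 : 0 ≤ s / r := by positivity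
          linarith
  -- (4)
  set D : ℂ := 1 - br z p * (starRingEnd ℂ) (br ζ p) with hD
  set e : ℂ := ((1 - ‖br ζ p‖ ^ 2 : ℝ) : ℂ) / D with he
  have hDl : κ ^ 2 * r ^ 2 / 2 ≤ ‖D‖ := by
    have e1 : D = ((1 - ‖br ζ p‖ ^ 2 : ℝ) : ℂ) - (br z p - br ζ p) * (starRingEnd ℂ) (br ζ p) := by
      rw [hD]
      have : ((‖br ζ p‖ ^ 2 : ℝ) : ℂ) = br ζ p * (starRingEnd ℂ) (br ζ p) := by
        rw [Complex.mul_conj, Complex.normSq_eq_norm_sq]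
      push_cast at this ⊢
      rw [this]
      ring
    have h1 : ‖((1 - ‖br ζ p‖ ^ 2 : ℝ) : ℂ)‖ = 1 - ‖br ζ p‖ ^ 2 := by
      rw [Complex.norm_real, Real.norm_of_nonneg]
      have h0 : ‖br ζ p‖ ^ 2 ≤ 1 := pow_le_one₀ (norm_nonneg _) hζ1.le
      linarith
    have h2 : ‖(br z p - br ζ p) * (starRingEnd ℂ) (br ζ p)‖ ≤ 6 * L + 4 * (s * r) := by
      rw [norm_mul, RCLike.norm_conj]
      calc ‖br z p - br ζ p‖ * ‖br ζ p‖ ≤ (6 * L + 4 * (s * r)) * 1 := by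
            gcongr
        _ = _ := mul_one _
    have h3 := norm_sub_norm_le ((1 - ‖br ζ p‖ ^ 2 : ℝ) : ℂ)
      ((br z p - br ζ p) * (starRingEnd ℂ) (br ζ p))
    rw [← e1, h1] at h3
    have h4 : κ ^ 2 * r ^ 2 ≤ 1 - ‖br ζ p‖ ^ 2 := by
      rw [hr2]
      linarith
    have h5 : 6 * L + 4 * (s * r) ≤ κ ^ 2 * r ^ 2 / 2 := by
      have h6 : L ≤ κ ^ 4 / 400 * r ^ 2 := by
        rw [hr2]
        exact h.le
      have h7 : s * r ≤ κ ^ 2 / 20 * r ^ 2 := by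
        calc s * r ≤ (κ ^ 2 / 20 * r) * r := by gcongr
          _ = _ := by ring
      have h8 : κ ^ 4 * r ^ 2 ≤ κ ^ 2 * r ^ 2 := by
        have : κ ^ 4 = κ ^ 2 * κ ^ 2 := by ring
        rw [this, mul_assoc]
        exact mul_le_of_le_one_left (by positivity) hκ2
      have h9 : 0 < κ ^ 2 * r ^ 2 := by positivity
      linarith
    linarith
  have hD0 : 0 < ‖D‖ := lt_of_lt_of_le (by positivity) hDl
  have hDne : D ≠ 0 := norm_pos_iff.1 hD0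
  have he1 : ‖e - 1‖ ≤ 1 / κ ^ 2 * (12 * (L / r ^ 2) + 8 * (s / r)) := by
    have e1 : e - 1 = (br z p - br ζ p) * (starRingEnd ℂ) (br ζ p) / D := by
      rw [he, div_sub_one hDne]
      congr 1
      rw [hD]
      have : ((‖br ζ p‖ ^ 2 : ℝ) : ℂ) = br ζ p * (starRingEnd ℂ) (br ζ p) := by
        rw [Complex.mul_conj, Complex.normSq_eq_norm_sq]
      push_cast at this ⊢
      rw [this]
      ring
    rw [e1, norm_div, norm_mul, RCLike.norm_conj]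
    calc ‖br z p - br ζ p‖ * ‖br ζ p‖ / ‖D‖ ≤ (6 * L + 4 * (s * r)) * 1 / (κ ^ 2 * r ^ 2 / 2) := by
          gcongr
      _ = _ := by
          field_simp
          ring
  have he2 : ‖e‖ ≤ 2 := (M5e hp hz hζ).1
  -- (5)
  have hLr0 : 0 ≤ L / r ^ 2 := by positivity
  have hsr0 : 0 ≤ s / r := by positivity
  have hprod := M5n_prod ha1 (by linarith) hb1 (by linarith) he1 he2
  have hu : uu p ζ z = a ^ 2 * b * e / lam ζ z := by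
    rw [ha, hb, he, hD]
    unfold uu
    rfl
  rw [hu]
  refine le_trans ?_ (M5n_re hprod hL0)
  rw [← hXdef, ← hLdef, ← hs2]
  refine M5n_real hκ hr0 hs0.le hL0 ?_ hW hκ1
  have hk : 1 ≤ 1 / κ ^ 2 := by
    rw [le_div_iff₀ (by positivity)]
    linarith
  have hk1 : 1 / κ ≤ 1 / κ ^ 2 := by
    have : κ ^ 2 ≤ κ := pow_le_of_le_one hκ.le hκ1 two_ne_zero
    gcongr
  have e3 : s / (κ * r) = 1 / κ * (s / r) := by field_simp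
  rw [e3]
  have h9 : 1 / κ * (s / r) ≤ 1 / κ ^ 2 * (s / r) := by gcongr
  have h10 : s / r ≤ 1 / κ ^ 2 * (s / r) := le_mul_of_one_le_left hsr0 hk
  have h11 : L / r ^ 2 ≤ 1 / κ ^ 2 * (L / r ^ 2) := le_mul_of_one_le_left hLr0 hk
  have e4 : 50 / κ ^ 2 * (L / r ^ 2 + s / r) =
      50 * (1 / κ ^ 2 * (L / r ^ 2)) + 50 * (1 / κ ^ 2 * (s / r)) := by
    field_simp
  rw [e4]
  have h12 : 0 ≤ 1 / κ ^ 2 * (L / r ^ 2) := by positivity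
  have h13 : 0 ≤ 1 / κ ^ 2 * (s / r) := by positivity
  linarith

end Pool.Agent.CRT
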