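import Pool.Agent.CRT.M5n

/-!
# [M6x] The exponent U_N: lower bounds for the real part, value at 0
-/

set_option autoImplicit false

namespace Pool.Agent.CRT

open Finset

/-- `U_N(z) = A (a₀ w(z) + ∑_{i<N} u_i(z))` -/
noncomputable def UU {d : ℕ} (A a₀ : ℝ) (p : E d) (ζ : ℕ → E d) (N : ℕ) (z : E d) : ℂ :=
  (A : ℂ) * ((a₀ : ℂ) * ww p z + ∑ i ∈ range N, uu p (ζ i) z)

/-- the lower bounds for `Re U_N`, `a₀ = 1 + 50000 κ^{-6}`.

Proof.  Far indices (`|λ_i| ≥ T_i/400`): `∑ |u_i| ≤ 10⁴κ^{-2} Re w ∑ min(T/T_i,T_i/T) ≤ 3·10⁴ κ^{-6} Re w`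
(`M5f`, `M1g`, `κ ≤ 1`).  At most one index is near (`M1a`); if it satisfies `|λ_i| ≥ (κ⁴/400)T_i` then
`|u_i| ≤ 10³κ^{-6} Re w` (`M5m`); if not, `Re u_i ≥ (1/2)Re λ_i/|λ_i|² - 10⁴κ^{-6}Re w` (`M5n`).  In all cases
`Re ∑ u_i ≥ -(3·10⁴+10⁴)κ^{-6} Re w (+ (1/2) Re λ_i/|λ_i|²)`. -/
theorem M6a {d : ℕ} {p : E d} {ζ : ℕ → E d} (h : Seq8 p ζ) {κ : ℝ} (hκ : 0 < κ) (hκ1 : κ ≤ 1)
    (hκζ : ∀ i, κ ^ 2 * TT p (ζ i) ≤ ‖pr p (ζ i)‖ ^ 2) {A : ℝ} (hA : 0 ≤ A) (N : ℕ) {z : E d}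
    (hz : ‖z‖ < 1) :
    0 ≤ (UU A (1 + 50000 * (1 / κ) ^ 6) p ζ N z).re ∧
    ∀ i < N, ‖lam (ζ i) z‖ < κ ^ 4 / 400 * TT p (ζ i) →
      A * (1 / 2 * ((lam (ζ i) z).re / ‖lam (ζ i) z‖ ^ 2)) ≤
        (UU A (1 + 50000 * (1 / κ) ^ 6) p ζ N z).re := by
  classical
  have hp := h.hp
  obtain ⟨-, -, -, hT0, -, -, -⟩ := F1b hp hz
  have hW : 0 < (ww p z).re := (F2a hp hz).2.2.2.1
  set W : ℝ := (ww p z).re with hWd
  set K6 : ℝ := (1 / κ) ^ 6 with hK6
  have hκi : 1 ≤ 1 / κ := by rwa [one_le_div hκ]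
  have hK60 : 0 < K6 := by positivity
  have hK26 : (1 / κ) ^ 2 ≤ K6 := pow_le_pow_right₀ hκi (by norm_num)
  set e : ℕ → ℝ := fun i => min (TT p z / TT p (ζ i)) (TT p (ζ i) / TT p z) with he
  have he0 : ∀ i, 0 ≤ e i := by
    intro i
    have := (M1s h i).1
    rw [he]
    simp only
    exact le_min (by positivity) (by positivity)
  have hes : ∑ i ∈ range N, e i ≤ 3 := M1g h hT0 N
  set v : ℕ → ℝ := fun i => 1 / 2 * ((lam (ζ i) z).re / ‖lam (ζ i) z‖ ^ 2) with hv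
  have hv0 : ∀ i, 0 ≤ v i := by
    intro i
    have := (F3b hz (h.hB i).le).1
    rw [hv]
    simp only
    positivity
  have key : ∀ i, -(10000 * K6 * W) * e i -
      (if ‖lam (ζ i) z‖ < TT p (ζ i) / 400 then 10000 * K6 * W else 0) +
      (if ‖lam (ζ i) z‖ < κ ^ 4 / 400 * TT p (ζ i) then v i else 0) ≤ (uu p (ζ i) z).re := by
    intro i
    obtain ⟨hTi, -, hTi8, -⟩ := M1s h i
    have hiB := h.hB i
    have hre : -‖uu p (ζ i) z‖ ≤ (uu p (ζ i) z).re :=
      neg_le_of_abs_le (Complex.abs_re_le_norm _)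
    have hKW : 0 < 10000 * K6 * W := by positivity
    have hκ4 : κ ^ 4 ≤ 1 := pow_le_one₀ hκ.le hκ1
    have hcmp : κ ^ 4 / 400 * TT p (ζ i) ≤ TT p (ζ i) / 400 := by
      have : κ ^ 4 * TT p (ζ i) ≤ 1 * TT p (ζ i) := mul_le_mul_of_nonneg_right hκ4 hTi.le
      linarith
    by_cases h1 : ‖lam (ζ i) z‖ < TT p (ζ i) / 400
    · rw [if_pos h1]
      have hee : 0 ≤ 10000 * K6 * W * e i := mul_nonneg hKW.le (he0 i)
      by_cases h2 : ‖lam (ζ i) z‖ < κ ^ 4 / 400 * TT p (ζ i)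
      · rw [if_pos h2]
        have h3 := M5n hp hz hiB hκ hκ1 (hκζ i) hTi8 h2
        have h4 : v i - 10000 * K6 * W ≤ (uu p (ζ i) z).re := h3
        linarith
      · rw [if_neg h2]
        push Not at h2
        have h3 := M5m hp hz hiB hκ (hκζ i) h1 h2
        have h4 : ‖uu p (ζ i) z‖ ≤ 1000 * K6 * W := h3
        have h5 : 0 < K6 * W := by positivity
        linarith
    · rw [if_neg h1]
      push Not at h1
      have h2 : ¬ ‖lam (ζ i) z‖ < κ ^ 4 / 400 * TT p (ζ i) := by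
        push Not
        linarith
      rw [if_neg h2]
      have h3 := M5f hp hz hiB hκ (hκζ i) h1
      have h4 : ‖uu p (ζ i) z‖ ≤ 10000 * (1 / κ) ^ 2 * W * e i := h3
      have h5 : 10000 * (1 / κ) ^ 2 * W * e i ≤ 10000 * K6 * W * e i := by
        apply mul_le_mul_of_nonneg_right _ (he0 i)
        apply mul_le_mul_of_nonneg_right _ hW.le
        linarith
      linarith
  have hsum := Finset.sum_le_sum (s := range N) fun i _ => key i
  rw [Finset.sum_add_distrib, Finset.sum_sub_distrib, ← Finset.mul_sum, ← Finset.sum_filter,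
    ← Finset.sum_filter, Finset.sum_const] at hsum
  have hcard : ((range N).filter fun i => ‖lam (ζ i) z‖ < TT p (ζ i) / 400).card ≤ 1 := by
    rw [Finset.card_le_one]
    intro i hi j hj
    rw [Finset.mem_filter] at hi hj
    exact M1a h hz hi.2 hj.2
  have hcard' : ((range N).filter fun i => ‖lam (ζ i) z‖ < TT p (ζ i) / 400).card •
      (10000 * K6 * W) ≤ 10000 * K6 * W := by
    rw [nsmul_eq_mul]
    have h1 : (((range N).filter fun i => ‖lam (ζ i) z‖ < TT p (ζ i) / 400).card : ℝ) ≤ 1 := by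
      exact_mod_cast hcard
    calc _ ≤ 1 * (10000 * K6 * W) := mul_le_mul_of_nonneg_right h1 (by positivity)
      _ = _ := one_mul _
  have hes' : -(30000 * K6 * W) ≤ -(10000 * K6 * W) * ∑ i ∈ range N, e i := by
    have : (10000 * K6 * W) * ∑ i ∈ range N, e i ≤ (10000 * K6 * W) * 3 :=
      mul_le_mul_of_nonneg_left hes (by positivity)
    linarith
  have hUU : (UU A (1 + 50000 * K6) p ζ N z).re =
      A * ((1 + 50000 * K6) * W + ∑ i ∈ range N, (uu p (ζ i) z).re) := by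
    unfold UU
    rw [Complex.re_ofReal_mul, Complex.add_re, Complex.re_ofReal_mul, Complex.re_sum]
  have hKW : 0 < K6 * W := by positivity
  rw [hUU]
  constructor
  · apply mul_nonneg hA
    have h0 : 0 ≤ ∑ i ∈ (range N).filter fun i => ‖lam (ζ i) z‖ < κ ^ 4 / 400 * TT p (ζ i), v i :=
      Finset.sum_nonneg fun i _ => hv0 i
    linarith
  · intro i hi hiv
    apply mul_le_mul_of_nonneg_left _ hA
    have h0 : v i ≤ ∑ i ∈ (range N).filter fun i => ‖lam (ζ i) z‖ < κ ^ 4 / 400 * TT p (ζ i), v i :=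
      Finset.single_le_sum (f := v) (fun i _ => hv0 i)
        (Finset.mem_filter.2 ⟨Finset.mem_range.2 hi, hiv⟩)
    have h1 : 1 / 2 * ((lam (ζ i) z).re / ‖lam (ζ i) z‖ ^ 2) = v i := rfl
    rw [h1]
    linarith

/-- `<z,q>` is an analytic function of `z` -/
theorem M6x_br {d : ℕ} (q z : E d) : AnalyticAt ℂ (fun z : E d => br z q) z :=
  (innerSL ℂ q).analyticAt z

theorem M6x_br0 {d : ℕ} (q : E d) : br (0 : E d) q = 0 := by
  unfold br
  rw [inner_zero_right]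

/-- analyticity on the ball and the value at `0`: `w(0) = 1`, `u_i(0) = 0` -/
theorem M6z {d : ℕ} {p : E d} {ζ : ℕ → E d} (h : Seq8 p ζ) (A a₀ : ℝ) (N : ℕ) :
    AnalyticOnNhd ℂ (UU A a₀ p ζ N) (Metric.ball 0 1) ∧ UU A a₀ p ζ N 0 = (A * a₀ : ℝ) := by
  have hp := h.hp
  constructor
  · intro z hz
    rw [mem_ball_zero_iff] at hz
    have hlam : ∀ q : E d, AnalyticAt ℂ (fun z : E d => 1 - br z q) z := fun q =>
      analyticAt_const.sub (M6x_br q z)
    have hne : ∀ q : E d, ‖q‖ ≤ 1 → (1 : ℂ) - br z q ≠ 0 := fun q hq =>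
      norm_pos_iff.1 (F3b hz hq).2.2.2.2.2.1
    have hww : AnalyticAt ℂ (fun z : E d => ww p z) z :=
      (analyticAt_const.add (M6x_br p z)).div (hlam p) (hne p hp.le)
    have huu : ∀ i, AnalyticAt ℂ (fun z : E d => uu p (ζ i) z) z := by
      intro i
      have hi := h.hB i
      have h1 : (1 : ℂ) - br z p * (starRingEnd ℂ) (br (ζ i) p) ≠ 0 := by
        have h2 := (F6b hp hz hi).2.2.1
        have h3 := (F1b hp hi).1
        apply norm_pos_iff.1
        have h4 : ‖br (ζ i) p‖ ^ 2 < 1 := by nlinarith [norm_nonneg (br (ζ i) p)]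
        linarith
      have e1 : AnalyticAt ℂ (fun z : E d => br z (pr p (ζ i)) / ((‖pr p (ζ i)‖ ^ 2 : ℝ) : ℂ)) z := by
        have := (M6x_br (pr p (ζ i)) z).mul (analyticAt_const (v := (((‖pr p (ζ i)‖ ^ 2 : ℝ) : ℂ))⁻¹))
        exact this
      have e2 : AnalyticAt ℂ (fun z : E d => lam p (ζ i) / lam p z) z :=
        analyticAt_const.div (hlam p) (hne p hp.le)
      have e3 : AnalyticAt ℂ (fun z : E d => ((1 - ‖br (ζ i) p‖ ^ 2 : ℝ) : ℂ) /
          (1 - br z p * (starRingEnd ℂ) (br (ζ i) p))) z :=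
        analyticAt_const.div (analyticAt_const.sub ((M6x_br p z).mul analyticAt_const)) h1
      exact (((e1.pow 2).mul e2).mul e3).div (hlam (ζ i)) (hne (ζ i) hi.le)
    have hsum : AnalyticAt ℂ (fun z : E d => ∑ i ∈ range N, uu p (ζ i) z) z :=
      Finset.analyticAt_fun_sum _ fun i _ => huu i
    exact analyticAt_const.mul ((analyticAt_const.mul hww).add hsum)
  · unfold UU
    have h1 : ww p (0 : E d) = 1 := by
      unfold ww
      rw [M6x_br0]
      simp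
    have h2 : ∑ i ∈ range N, uu p (ζ i) (0 : E d) = 0 := by
      apply Finset.sum_eq_zero
      intro i _
      unfold uu
      rw [M6x_br0]
      simp
    rw [h1, h2]
    push_cast
    ring

end Pool.Agent.CRT
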