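import Pool.Agent.CRT.M5n
import Pool.Agent.CRT.M6x

/-!
# [M6y] The exponent U_N: variation along the radial flow
-/

set_option autoImplicit false

namespace Pool.Agent.CRT

open Finset

/-- Cauchy estimate: variation of a bounded holomorphic function -/
theorem M6y_cauchy {G : ℂ → ℂ} {r M : ℝ} (hr : 0 < r)
    (hG : DifferentiableOn ℂ G (Metric.ball 0 (r / 8))) (hM : ∀ τ : ℂ, ‖τ‖ < r / 8 → ‖G τ‖ ≤ M)
    {τ : ℂ} (hτ : ‖τ‖ ≤ r / 32) : ‖G τ - G 0‖ ≤ 16 * M / r * ‖τ‖ := by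
  have h1 : ∀ x ∈ Metric.closedBall (0 : ℂ) (r / 32), DifferentiableAt ℂ G x := by
    intro x hx
    rw [mem_closedBall_zero_iff] at hx
    refine hG.differentiableAt (Metric.isOpen_ball.mem_nhds ?_)
    rw [mem_ball_zero_iff]
    linarith
  have h2 : ∀ x ∈ Metric.closedBall (0 : ℂ) (r / 32), ‖deriv G x‖ ≤ 16 * M / r := by
    intro x hx
    rw [mem_closedBall_zero_iff] at hx
    have h3 : ∀ y ∈ Metric.closedBall x (r / 16), ‖y‖ < r / 8 := by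
      intro y hy
      rw [mem_closedBall_iff_norm] at hy
      have : y = (y - x) + x := by ring
      rw [this]
      refine (norm_add_le _ _).trans_lt ?_
      linarith
    have h4 : ‖deriv G x‖ ≤ M / (r / 16) := by
      refine Complex.norm_deriv_le_of_forall_mem_sphere_norm_le (by positivity) ?_ ?_
      · refine DifferentiableOn.diffContOnCl ?_
        refine hG.mono ?_
        intro y hy
        have hy' := h3 y (Metric.closure_ball_subset_closedBall hy)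
        rw [mem_ball_zero_iff]
        exact hy'
      · intro y hy
        exact hM y (h3 y (Metric.sphere_subset_closedBall hy))
    refine h4.trans (le_of_eq ?_)
    field_simp
  have h5 := (convex_closedBall (0 : ℂ) (r / 32)).norm_image_sub_le_of_norm_deriv_le h1 h2
    (Metric.mem_closedBall_self (by positivity))
    (show τ ∈ Metric.closedBall (0 : ℂ) (r / 32) by rwa [mem_closedBall_zero_iff])
  rwa [sub_zero] at h5

/-- the denominator `D` along the flow -/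
theorem M6y_D {d : ℕ} {p z ζ : E d} (hp : ‖p‖ = 1) (hz : ‖z‖ < 1) (hζ : ‖ζ‖ < 1) {r : ℝ}
    (hr : 0 < r) (hr2 : r ≤ ‖lam ζ z‖) {τ : ℂ} (hτ : ‖τ‖ ≤ r / 8) :
    0 < ‖1 - br z p * (starRingEnd ℂ) (br ζ p)‖ ∧
    ‖1 - br z p * (starRingEnd ℂ) (br ζ p)‖ / 2 ≤
      ‖1 - br (Complex.exp τ • z) p * (starRingEnd ℂ) (br ζ p)‖ := by
  obtain ⟨-, h2, -, -, -⟩ := F6b hp hz hζ
  obtain ⟨-, -, -, -, -, -, hl2⟩ := F3b hz hζ.le
  obtain ⟨hz1, -, -, -, -, -, -⟩ := F1b hp hz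
  obtain ⟨hζ1, -, -, -, -, -, -⟩ := F1b hp hζ
  obtain ⟨h7, -⟩ := F7a (τ := τ) (by linarith)
  have h0 : 0 < ‖1 - br z p * (starRingEnd ℂ) (br ζ p)‖ := by linarith
  refine ⟨h0, ?_⟩
  have e1 : 1 - br (Complex.exp τ • z) p * (starRingEnd ℂ) (br ζ p) =
      (1 - br z p * (starRingEnd ℂ) (br ζ p)) -
        (Complex.exp τ - 1) * (br z p * (starRingEnd ℂ) (br ζ p)) := by
    rw [br_smul]
    ring
  have h3 : ‖(Complex.exp τ - 1) * (br z p * (starRingEnd ℂ) (br ζ p))‖ ≤ 13 / 10 * ‖τ‖ := by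
    rw [norm_mul, norm_mul, RCLike.norm_conj]
    calc ‖Complex.exp τ - 1‖ * (‖br z p‖ * ‖br ζ p‖) ≤ (13 / 10 * ‖τ‖) * (1 * 1) := by
          gcongr
      _ = _ := by ring
  have h4 := norm_sub_norm_le (1 - br z p * (starRingEnd ℂ) (br ζ p))
    ((Complex.exp τ - 1) * (br z p * (starRingEnd ℂ) (br ζ p)))
  rw [← e1] at h4
  linarith

/-- one index along the flow -/
theorem M6y_u {d : ℕ} {p z ζ : E d} (hp : ‖p‖ = 1) (hz : ‖z‖ < 1) (hζ : ‖ζ‖ < 1) {κ r : ℝ}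
    (hκ : 0 < κ) (hκζ : κ ^ 2 * TT p ζ ≤ ‖pr p ζ‖ ^ 2)
    (hr : 0 < r) (hr1 : r ≤ TT p z) (hr2 : r ≤ ‖lam ζ z‖) {τ : ℂ} (hτ : ‖τ‖ ≤ r / 8) :
    ‖uu p ζ (Complex.exp τ • z)‖ ≤ 11 * (1 / κ) ^ 2 *
      (‖((1 - ‖br ζ p‖ ^ 2 : ℝ) : ℂ) / (1 - br z p * (starRingEnd ℂ) (br ζ p))‖ /
        ‖lam ζ z‖) := by
  obtain ⟨hD0, hD⟩ := M6y_D hp hz hζ hr hr2 hτ
  obtain ⟨-, -, -, hT0, hT2, -, -⟩ := F1b hp hz
  obtain ⟨-, -, -, hTi0, -, -, -⟩ := F1b hp hζ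
  obtain ⟨hpz, -⟩ := F1c hp hz
  obtain ⟨-, -, -, -, -, hl0, hl2⟩ := F3b hz hζ.le
  obtain ⟨-, h7⟩ := F7a (τ := τ) (by linarith)
  obtain ⟨-, -, hT, -⟩ := F7b (ζ := p) hz hp.le (τ := τ) (by
    show ‖τ‖ ≤ TT p z / 8
    linarith)
  obtain ⟨-, -, hl, -⟩ := F7b hz hζ.le (τ := τ) (by linarith)
  set S := ‖pr p ζ‖ with hS
  have hS0 : 0 < S ^ 2 := lt_of_lt_of_le (by positivity) hκζ
  have ha : ‖br (Complex.exp τ • z) (pr p ζ) / ((S ^ 2 : ℝ) : ℂ)‖ ^ 2 ≤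
      169 / 50 * (TT p z / (κ ^ 2 * TT p ζ)) := by
    rw [br_smul, br_pr hp, norm_div, norm_mul, Complex.norm_real, Real.norm_of_nonneg hS0.le,
      div_pow, mul_pow]
    have h1 : ‖br (pr p z) (pr p ζ)‖ ^ 2 ≤ (2 * TT p z) * S ^ 2 := by
      calc ‖br (pr p z) (pr p ζ)‖ ^ 2 ≤ (‖pr p z‖ * ‖pr p ζ‖) ^ 2 := by
            gcongr
            exact br_le _ _
        _ = ‖pr p z‖ ^ 2 * S ^ 2 := by rw [mul_pow]
        _ ≤ _ := by gcongr
    calc ‖Complex.exp τ‖ ^ 2 * ‖br (pr p z) (pr p ζ)‖ ^ 2 / (S ^ 2) ^ 2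
        ≤ (13 / 10) ^ 2 * ((2 * TT p z) * S ^ 2) / (S ^ 2) ^ 2 := by gcongr
      _ = 169 / 50 * (TT p z / S ^ 2) := by
          field_simp
          norm_num
      _ ≤ _ := by gcongr
  have hlz0 : 0 < ‖lam p z‖ := hT0
  have hb : ‖lam p ζ / lam p (Complex.exp τ • z)‖ ≤ 5 / 4 * (TT p ζ / TT p z) := by
    rw [norm_div]
    have h1 : 4 / 5 * TT p z ≤ ‖lam p (Complex.exp τ • z)‖ := hT
    calc ‖lam p ζ‖ / ‖lam p (Complex.exp τ • z)‖ ≤ TT p ζ / (4 / 5 * TT p z) := by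
          have h2 : ‖lam p ζ‖ = TT p ζ := rfl
          rw [h2]
          gcongr
      _ = _ := by field_simp
  have he : ‖((1 - ‖br ζ p‖ ^ 2 : ℝ) : ℂ) /
        (1 - br (Complex.exp τ • z) p * (starRingEnd ℂ) (br ζ p))‖ ≤
      2 * ‖((1 - ‖br ζ p‖ ^ 2 : ℝ) : ℂ) / (1 - br z p * (starRingEnd ℂ) (br ζ p))‖ := by
    rw [norm_div, norm_div]
    calc ‖((1 - ‖br ζ p‖ ^ 2 : ℝ) : ℂ)‖ /
          ‖1 - br (Complex.exp τ • z) p * (starRingEnd ℂ) (br ζ p)‖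
        ≤ ‖((1 - ‖br ζ p‖ ^ 2 : ℝ) : ℂ)‖ / (‖1 - br z p * (starRingEnd ℂ) (br ζ p)‖ / 2) := by
          gcongr
      _ = _ := by field_simp
  have hl' : 4 / 5 * ‖lam ζ z‖ ≤ ‖lam ζ (Complex.exp τ • z)‖ := hl
  set ee := ‖((1 - ‖br ζ p‖ ^ 2 : ℝ) : ℂ) / (1 - br z p * (starRingEnd ℂ) (br ζ p))‖ with hee
  have hee0 : 0 ≤ ee := norm_nonneg _
  unfold uu
  rw [norm_div, norm_mul, norm_mul, norm_pow]
  calc ‖br (Complex.exp τ • z) (pr p ζ) / ((‖pr p ζ‖ ^ 2 : ℝ) : ℂ)‖ ^ 2 *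
        ‖lam p ζ / lam p (Complex.exp τ • z)‖ *
        ‖((1 - ‖br ζ p‖ ^ 2 : ℝ) : ℂ) /
          (1 - br (Complex.exp τ • z) p * (starRingEnd ℂ) (br ζ p))‖ /
        ‖lam ζ (Complex.exp τ • z)‖
      ≤ (169 / 50 * (TT p z / (κ ^ 2 * TT p ζ))) * (5 / 4 * (TT p ζ / TT p z)) * (2 * ee) /
        (4 / 5 * ‖lam ζ z‖) := by
        gcongr
    _ = 169 / 16 * (1 / κ) ^ 2 * (ee / ‖lam ζ z‖) := by
        field_simp
        ring
    _ ≤ 11 * (1 / κ) ^ 2 * (ee / ‖lam ζ z‖) := by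
        have : 0 ≤ (1 / κ) ^ 2 * (ee / ‖lam ζ z‖) := by positivity
        nlinarith

/-- far indices -/
theorem M6y_far {d : ℕ} {p z ζ : E d} (hp : ‖p‖ = 1) (hz : ‖z‖ < 1) (hζ : ‖ζ‖ < 1)
    (hfar : TT p ζ / 400 ≤ ‖lam ζ z‖) :
    ‖((1 - ‖br ζ p‖ ^ 2 : ℝ) : ℂ) / (1 - br z p * (starRingEnd ℂ) (br ζ p))‖ / ‖lam ζ z‖ ≤
      10000 / TT p z * min (TT p z / TT p ζ) (TT p ζ / TT p z) := by
  obtain ⟨he1, he2⟩ := M5e hp hz hζ
  obtain ⟨-, -, -, hT0, hT2, -, -⟩ := F1b hp hz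
  obtain ⟨-, -, -, hTi0, -, -, -⟩ := F1b hp hζ
  obtain ⟨-, -, -, -, -, hl0, hl2⟩ := F3b hz hζ.le
  have hb := M1b hp hz hζ hfar
  set ee := ‖((1 - ‖br ζ p‖ ^ 2 : ℝ) : ℂ) / (1 - br z p * (starRingEnd ℂ) (br ζ p))‖ with hee
  set T := TT p z with hT
  set Ti := TT p ζ with hTi
  set L := ‖lam ζ z‖ with hL
  rcases le_or_gt (2 * Ti) T with h | h
  · have h1 := he2 h
    have hmin : min (T / Ti) (Ti / T) = Ti / T := by
      apply min_eq_right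
      rw [div_le_div_iff₀ hT0 hTi0]
      nlinarith
    rw [hmin]
    calc ee / L ≤ (4 * Ti / T) / (T / 2402) := by
          gcongr
          linarith
      _ = 9608 / T * (Ti / T) := by
          field_simp
          norm_num
      _ ≤ _ := by
          gcongr
          norm_num
  · have hmin : 1 / 4 * (T / Ti) ≤ min (T / Ti) (Ti / T) := by
      apply le_min
      · have : 0 ≤ T / Ti := by positivity
        linarith
      · rw [one_div_mul_eq_div, div_div, div_le_div_iff₀ (by positivity) hT0]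
        nlinarith
    calc ee / L ≤ 2 / (Ti / 400) := by
          gcongr
      _ = 3200 / T * (1 / 4 * (T / Ti)) := by
          field_simp
          norm_num
      _ ≤ 10000 / T * min (T / Ti) (Ti / T) := by
          gcongr
          norm_num

/-- the sum over all the indices -/
theorem M6y_sum {d : ℕ} {p : E d} {ζ : ℕ → E d} (h : Seq8 p ζ) {N : ℕ} {z : E d} (hz : ‖z‖ < 1) :
    ∑ i ∈ range N, ‖((1 - ‖br (ζ i) p‖ ^ 2 : ℝ) : ℂ) /
        (1 - br z p * (starRingEnd ℂ) (br (ζ i) p))‖ / ‖lam (ζ i) z‖ ≤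
      30002 / rN p ζ N z := by
  classical
  obtain ⟨hr0, hrT, hrl, -⟩ := M1r h hz N
  obtain ⟨-, -, -, hT0, hT2, -, -⟩ := F1b h.hp hz
  set r := rN p ζ N z with hr
  have h1 : ∀ i ∈ range N, ‖((1 - ‖br (ζ i) p‖ ^ 2 : ℝ) : ℂ) /
        (1 - br z p * (starRingEnd ℂ) (br (ζ i) p))‖ / ‖lam (ζ i) z‖ ≤
      10000 / TT p z * min (TT p z / TT p (ζ i)) (TT p (ζ i) / TT p z) +
        (if ‖lam (ζ i) z‖ < TT p (ζ i) / 400 then 2 / r else 0) := by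
    intro i hi
    have hi' := Finset.mem_range.1 hi
    obtain ⟨-, -, -, hTi0, -, -, -⟩ := F1b h.hp (h.hB i)
    have hm : 0 ≤ 10000 / TT p z * min (TT p z / TT p (ζ i)) (TT p (ζ i) / TT p z) := by
      have : 0 ≤ min (TT p z / TT p (ζ i)) (TT p (ζ i) / TT p z) := by
        apply le_min <;> positivity
      positivity
    split_ifs with hc
    · have h2 : ‖((1 - ‖br (ζ i) p‖ ^ 2 : ℝ) : ℂ) /
          (1 - br z p * (starRingEnd ℂ) (br (ζ i) p))‖ / ‖lam (ζ i) z‖ ≤ 2 / r := by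
        have := (M5e h.hp hz (h.hB i)).1
        have h3 := hrl i hi'
        gcongr
      linarith
    · rw [add_zero]
      exact M6y_far h.hp hz (h.hB i) (not_lt.1 hc)
  refine (Finset.sum_le_sum h1).trans ?_
  rw [Finset.sum_add_distrib, ← Finset.mul_sum]
  have h2 := M1g h hT0 N
  have h3 : ∑ i ∈ range N, (if ‖lam (ζ i) z‖ < TT p (ζ i) / 400 then 2 / r else 0) ≤ 2 / r := by
    rw [← Finset.sum_filter, Finset.sum_const, nsmul_eq_mul]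
    have h4 : ((range N).filter fun i => ‖lam (ζ i) z‖ < TT p (ζ i) / 400).card ≤ 1 := by
      rw [Finset.card_le_one]
      intro i hi j hj
      exact M1a h hz (Finset.mem_filter.1 hi).2 (Finset.mem_filter.1 hj).2
    have h5 : (((range N).filter fun i => ‖lam (ζ i) z‖ < TT p (ζ i) / 400).card : ℝ) ≤ 1 := by
      exact_mod_cast h4
    calc _ ≤ 1 * (2 / r) := by gcongr
      _ = _ := one_mul _
  have h6 : 10000 / TT p z * ∑ i ∈ range N, min (TT p z / TT p (ζ i)) (TT p (ζ i) / TT p z) ≤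
      30000 / r := by
    calc _ ≤ 10000 / TT p z * 3 := by gcongr
      _ = 30000 / TT p z := by ring
      _ ≤ _ := by gcongr
  have h7 : 30002 / r = 30000 / r + 2 / r := by ring
  linarith

/-- `w` along the flow -/
theorem M6y_w {d : ℕ} {p z : E d} (hp : ‖p‖ = 1) (hz : ‖z‖ < 1) {r : ℝ}
    (hr : 0 < r) (hr1 : r ≤ TT p z) {τ : ℂ} (hτ : ‖τ‖ ≤ r / 8) :
    ‖ww p (Complex.exp τ • z)‖ ≤ 5 / r := by
  obtain ⟨-, -, -, hT0, hT2, -, -⟩ := F1b hp hz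
  obtain ⟨-, -, hT, -⟩ := F7b (ζ := p) hz hp.le (τ := τ) (by
    show ‖τ‖ ≤ TT p z / 8
    linarith)
  have hT' : 4 / 5 * TT p z ≤ ‖lam p (Complex.exp τ • z)‖ := hT
  have hne : lam p (Complex.exp τ • z) ≠ 0 := by
    rw [← norm_pos_iff]
    exact lt_of_lt_of_le (by positivity) hT'
  have e1 : ww p (Complex.exp τ • z) = 2 / lam p (Complex.exp τ • z) - 1 := by
    have hl : lam p (Complex.exp τ • z) = 1 - br (Complex.exp τ • z) p := rfl
    unfold ww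
    rw [← hl, eq_sub_iff_add_eq, div_add_one hne, hl]
    congr 1
    ring
  rw [e1]
  refine (norm_sub_le _ _).trans ?_
  rw [norm_one, norm_div]
  have h2 : ‖(2 : ℂ)‖ = 2 := by simp
  rw [h2]
  have h3 : 2 / ‖lam p (Complex.exp τ • z)‖ ≤ 2 / (4 / 5 * r) := by
    gcongr
    linarith
  have h4 : (1 : ℝ) ≤ 2 / r := by
    rw [le_div_iff₀ hr]
    linarith
  have h5 : 2 / (4 / 5 * r) = 5 / 2 / r := by
    field_simp
    norm_num
  have h6 : 5 / r = 5 / 2 / r + 2 / r + 1 / 2 / r := by ring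
  have h7 : 0 ≤ 1 / 2 / r := by positivity
  linarith

/-- differentiability along the flow -/
theorem M6y_diff {d : ℕ} {p : E d} {ζ : ℕ → E d} (h : Seq8 p ζ) (A a₀ : ℝ) {N : ℕ} {z : E d}
    (hz : ‖z‖ < 1) :
    DifferentiableOn ℂ (fun τ : ℂ => UU A a₀ p ζ N (Complex.exp τ • z))
      (Metric.ball 0 (rN p ζ N z / 8)) := by
  obtain ⟨hr0, hrT, hrl, -⟩ := M1r h hz N
  set r := rN p ζ N z with hr
  have hexp : ∀ (c : ℂ), DifferentiableOn ℂ (fun τ : ℂ => Complex.exp τ * c)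
      (Metric.ball 0 (r / 8)) := fun c =>
    (Complex.differentiable_exp.mul_const c).differentiableOn
  have hbr : ∀ v : E d, DifferentiableOn ℂ (fun τ : ℂ => br (Complex.exp τ • z) v)
      (Metric.ball 0 (r / 8)) := by
    intro v
    have : (fun τ : ℂ => br (Complex.exp τ • z) v) = fun τ : ℂ => Complex.exp τ * br z v := by
      funext τ
      rw [br_smul]
    rw [this]
    exact hexp _
  have hlam : ∀ v : E d, DifferentiableOn ℂ (fun τ : ℂ => lam v (Complex.exp τ • z))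
      (Metric.ball 0 (r / 8)) := by
    intro v
    unfold lam
    exact (differentiableOn_const _).sub (hbr v)
  have hlp : ∀ τ ∈ Metric.ball (0 : ℂ) (r / 8), lam p (Complex.exp τ • z) ≠ 0 := by
    intro τ hτ
    rw [mem_ball_zero_iff] at hτ
    obtain ⟨-, -, -, hT0, hT2, -, -⟩ := F1b h.hp hz
    obtain ⟨-, -, hT, -⟩ := F7b (ζ := p) hz h.hp.le (τ := τ) (by
      show ‖τ‖ ≤ TT p z / 8
      linarith)
    have hT' : 4 / 5 * TT p z ≤ ‖lam p (Complex.exp τ • z)‖ := hT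
    rw [← norm_pos_iff]
    exact lt_of_lt_of_le (by positivity) hT'
  unfold UU
  refine (differentiableOn_const _).mul (((differentiableOn_const _).mul ?_).add ?_)
  · unfold ww
    exact ((differentiableOn_const _).add (hbr p)).div
      ((differentiableOn_const _).sub (hbr p)) hlp
  · refine DifferentiableOn.fun_sum ?_
    intro i hi
    have hi' := Finset.mem_range.1 hi
    have hr2 := hrl i hi'
    unfold uu
    refine (((((hbr _).div_const _).pow 2).mul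
      ((differentiableOn_const _).div (hlam p) hlp)).mul
      ((differentiableOn_const _).div
        ((differentiableOn_const _).sub ((hbr p).mul_const _)) ?_)).div (hlam _) ?_
    · intro τ hτ
      rw [mem_ball_zero_iff] at hτ
      obtain ⟨h0, h1⟩ := M6y_D h.hp hz (h.hB i) hr0 hr2 hτ.le
      rw [← norm_pos_iff]
      exact lt_of_lt_of_le (by positivity) h1
    · intro τ hτ
      rw [mem_ball_zero_iff] at hτ
      obtain ⟨-, -, -, -, -, hl0, hl2⟩ := F3b hz (h.hB i).le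
      obtain ⟨-, -, hl, -⟩ := F7b hz (h.hB i).le (τ := τ) (by linarith)
      rw [← norm_pos_iff]
      exact lt_of_lt_of_le (by positivity) hl

/-- the variation of `U_N`.

Proof.  Let `r = r_N(z)`, `|τ| ≤ r/8`, `z̃ = e^τ z`.  We show `|∑_{i<N} u_i(z̃)| ≤ C κ^{-2}/r`.
`|a_i(z̃)| = |e^τ||a_i(z)| ≤ (13/10)|z'|/|ζ_i'|`, so `|a_i(z̃)|² ≤ 1.69 · 2T/(κ²T_i)` (`F1c`);
`|b_i(z̃)| = T_i/T(z̃) ≤ (5/4)T_i/T` (`F7b`); `|1 - z̃₁ conj ζ_{i1}| ≥ |D_i| - (13/10)|τ| ≥ |D_i|/2` because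
`|D_i| ≥ |λ_i|/2 ≥ r/2` (`F6b`) and `(13/10) r/8 ≤ r/4`; so `|e_i(z̃)| ≤ 2|e_i(z)|`; `|λ_i(z̃)| ≥ (4/5)|λ_i(z)|`
(`F7b`).  Together  `|u_i(z̃)| ≤ 1.69·2·(5/4)·2·(5/4) κ^{-2} |e_i(z)|/|λ_i(z)| ≤ 11 κ^{-2}|e_i(z)|/|λ_i(z)|`.
Far `i`: if `T ≥ 2T_i`, `|e_i| ≤ 4T_i/T`, `1/|λ_i| ≤ 2402/T`; if `T < 2T_i`, `|e_i| ≤ 2`, `1/|λ_i| ≤ 400/T_i
= (400/T)(T/T_i)`; so `|e_i|/|λ_i| ≤ (10⁴/T) min(T/T_i, T_i/T)` (as in `M5f`), sum `≤ 3·10⁴/T ≤ 3·10⁴/r`
(`M1g`).  The near index (at most one): `|e_i|/|λ_i| ≤ 2/r`.  Hence the claim, `C = 11(3·10⁴+2)`.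
Also `w = 2/(1-z₁) - 1`: `|w(z̃)| ≤ 1 + 2·(5/4)/T ≤ 5/r`.
So `g(τ) = a₀ w(z̃) + ∑ u_i(z̃)` is differentiable on the disc `|τ| < r/8` and bounded there by
`B/r`, `B = 5|a₀| + Cκ^{-2}`.  For `|τ| ≤ r/32`: by Cauchy's estimate `|g'| ≤ (B/r)/(r/16)` on
`|τ| ≤ r/32` (discs of radius `r/16`), so `|g(τ)-g(0)| ≤ 16 B |τ|/r²`.  Multiply by `A`.
Differentiability: none of `1-z̃₁`, `1 - z̃₁ conj ζ_{i1}`, `λ_i(z̃)` vanishes. -/
theorem M6v {d : ℕ} (A a₀ κ : ℝ) (hκ : 0 < κ) : ∃ CU : ℝ, 0 ≤ CU ∧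
    ∀ (p : E d) (ζ : ℕ → E d), Seq8 p ζ → (∀ i, κ ^ 2 * TT p (ζ i) ≤ ‖pr p (ζ i)‖ ^ 2) →
    ∀ (N : ℕ) (z : E d), ‖z‖ < 1 →
    (∀ τ : ℂ, ‖τ‖ ≤ rN p ζ N z / 32 →
      ‖UU A a₀ p ζ N (Complex.exp τ • z) - UU A a₀ p ζ N z‖ ≤ CU * ‖τ‖ / (rN p ζ N z) ^ 2) ∧
    DifferentiableOn ℂ (fun τ : ℂ => UU A a₀ p ζ N (Complex.exp τ • z))
      (Metric.ball 0 (rN p ζ N z / 32)) := by
  refine ⟨16 * (|A| * (5 * |a₀| + 11 * (1 / κ) ^ 2 * 30002)), by positivity, ?_⟩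
  intro p ζ h hκζ N z hz
  obtain ⟨hr0, hrT, hrl, -⟩ := M1r h hz N
  have hdiff := M6y_diff h A a₀ (N := N) hz
  have hsum := M6y_sum h (N := N) hz
  set r := rN p ζ N z with hr
  have hbd : ∀ τ : ℂ, ‖τ‖ < r / 8 → ‖UU A a₀ p ζ N (Complex.exp τ • z)‖ ≤
      |A| * (5 * |a₀| + 11 * (1 / κ) ^ 2 * 30002) / r := by
    intro τ hτ
    unfold UU
    rw [norm_mul, Complex.norm_real, Real.norm_eq_abs]
    have h1 : ‖(a₀ : ℂ) * ww p (Complex.exp τ • z)‖ ≤ |a₀| * (5 / r) := by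
      rw [norm_mul, Complex.norm_real, Real.norm_eq_abs]
      gcongr
      exact M6y_w h.hp hz hr0 hrT hτ.le
    have h2 : ‖∑ i ∈ range N, uu p (ζ i) (Complex.exp τ • z)‖ ≤
        11 * (1 / κ) ^ 2 * (30002 / r) := by
      refine (norm_sum_le _ _).trans ?_
      refine (Finset.sum_le_sum fun i hi => M6y_u h.hp hz (h.hB i) hκ (hκζ i) hr0 hrT
        (hrl i (Finset.mem_range.1 hi)) hτ.le).trans ?_
      rw [← Finset.mul_sum]
      gcongr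
    have h3 := norm_add_le ((a₀ : ℂ) * ww p (Complex.exp τ • z))
      (∑ i ∈ range N, uu p (ζ i) (Complex.exp τ • z))
    calc |A| * ‖(a₀ : ℂ) * ww p (Complex.exp τ • z) +
          ∑ i ∈ range N, uu p (ζ i) (Complex.exp τ • z)‖
        ≤ |A| * (|a₀| * (5 / r) + 11 * (1 / κ) ^ 2 * (30002 / r)) := by
          gcongr
          linarith
      _ = _ := by
          field_simp
  constructor
  · intro τ hτ
    have h1 := M6y_cauchy hr0 hdiff hbd hτ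
    have e0 : UU A a₀ p ζ N (Complex.exp 0 • z) = UU A a₀ p ζ N z := by
      rw [Complex.exp_zero, one_smul]
    rw [e0] at h1
    refine h1.trans (le_of_eq ?_)
    field_simp
  · refine hdiff.mono (Metric.ball_subset_ball ?_)
    linarith

end Pool.Agent.CRT
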