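import Pool.Agent.CRT.F4
import Pool.Agent.CRT.P4

/-!
# [M7ax] Elementary bounds and perturbation of the test function

Notation: `D = 1 - z₁ conj y₁`, `t = t(y)`, `T_p(y) ≤ Σ t` (`Σ = Sg ≥ 1`).
-/

set_option autoImplicit false

namespace Pool.Agent.CRT

open Finset

theorem M7ax_pow {n : ℕ} (hn : 1 ≤ n) : 5 / 6 ≤ (1 - 13 / (80 * (n : ℝ))) ^ n := by
  have hn0 : (1 : ℝ) ≤ (n : ℝ) := by exact_mod_cast hn
  have h1 : (-2 : ℝ) ≤ -(13 / (80 * (n : ℝ))) := by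
    have h2 : 13 / (80 * (n : ℝ)) ≤ 1 := by
      rw [div_le_one (by positivity)]
      linarith
    linarith
  have h3 := one_add_mul_le_pow h1 n
  have h4 : 1 + (n : ℝ) * -(13 / (80 * (n : ℝ))) = 67 / 80 := by
    field_simp
    norm_num
  rw [h4] at h3
  rw [sub_eq_add_neg]
  linarith

/-- (1) `|<z,y'>| ≤ √(1-1/(2Σ)) |D|`; (2) `|<z,y'>|² ≤ 2Σ(1+2Σ)² t Re w(z) |D|²`; (3) `|D| ≥ t/2`.

Proof.  Let `τ = 1-|y₁|²`; `|y'|² = τ - t` and `τ ≤ 2T_p(y) ≤ 2Σt` (`F1b`), so `|y'|² ≤ τ(1-1/(2Σ))`.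
`|<z,y'>| ≤ |z'||y'|`, `|z'|² ≤ 1-|z₁|²` and `(1-|z₁|²)τ ≤ |D|²` (`F6a`): (1).
(2): `|z'|² ≤ T(z)² Re w(z)` (`F2a`), `|y'|² ≤ τ ≤ 2Σt`, and `T(z) ≤ |D| + T_p(y) ≤ |D| + Σt ≤ (1+2Σ)|D|`
because `t ≤ τ ≤ 2|D|` (`F6b`).  (3): `t/2 ≤ τ/2 ≤ |D|`. -/
theorem M7a1 {d : ℕ} {p y z : E d} (hp : ‖p‖ = 1) (hy : ‖y‖ < 1) (hz : ‖z‖ < 1) {Sg : ℝ}
    (hS : 1 ≤ Sg) (hT : TT p y ≤ Sg * tt y) :
    ‖br z (pr p y)‖ ≤ Real.sqrt (1 - 1 / (2 * Sg)) *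
      ‖1 - br z p * (starRingEnd ℂ) (br y p)‖ ∧
    ‖br z (pr p y)‖ ^ 2 ≤ 2 * Sg * (1 + 2 * Sg) ^ 2 * tt y * (ww p z).re *
      ‖1 - br z p * (starRingEnd ℂ) (br y p)‖ ^ 2 ∧
    tt y / 2 ≤ ‖1 - br z p * (starRingEnd ℂ) (br y p)‖ := by
  obtain ⟨hy1, hy2, hy3, hy4, hy5, hy6, hy7⟩ := F1b hp hy
  obtain ⟨hz1, hz2, hz3, hz4, hz5, hz6, hz7⟩ := F1b hp hz
  obtain ⟨h61, h62, h63, h64, h65⟩ := F6b hp hz hy
  obtain ⟨hw1, hw2, hw3, hw4, hw5, hw6⟩ := F2a hp hz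
  have h6a := F6a (br z p) (br y p)
  have hcs : ‖br z (pr p y)‖ ≤ ‖pr p z‖ * ‖pr p y‖ := by
    rw [br_pr hp]
    exact br_le _ _
  obtain ⟨D, hD⟩ : ∃ D, D = ‖1 - br z p * (starRingEnd ℂ) (br y p)‖ := ⟨_, rfl⟩
  rw [← hD] at h6a h61 h62 h63 h64 h65 ⊢
  have hD0 : 0 ≤ D := by rw [hD]; exact norm_nonneg _
  obtain ⟨σ, hσ⟩ : ∃ σ, σ = 1 - ‖br z p‖ ^ 2 := ⟨_, rfl⟩
  obtain ⟨τ, hτ⟩ : ∃ τ, τ = 1 - ‖br y p‖ ^ 2 := ⟨_, rfl⟩
  rw [← hσ] at hz2 hz3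
  rw [← hτ] at hy2 hy3 h63
  rw [← hσ, ← hτ] at h6a
  have hcs2 : ‖br z (pr p y)‖ ^ 2 ≤ ‖pr p z‖ ^ 2 * ‖pr p y‖ ^ 2 := by
    rw [← mul_pow]
    exact pow_le_pow_left₀ (norm_nonneg _) hcs 2
  have hpz0 : 0 ≤ ‖pr p z‖ ^ 2 := sq_nonneg _
  have hpy0 : 0 ≤ ‖pr p y‖ ^ 2 := sq_nonneg _
  have hτS : τ ≤ 2 * Sg * tt y := by linarith
  have hσ0 : 0 ≤ σ := by linarith
  have hτ0 : 0 ≤ τ := by linarith
  refine ⟨?_, ?_, ?_⟩
  · have hS2 : 0 < 2 * Sg := by linarith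
    have h1 : ‖pr p y‖ ^ 2 ≤ τ * (1 - 1 / (2 * Sg)) := by
      have h2 : τ / (2 * Sg) ≤ tt y := by
        rw [div_le_iff₀ hS2]
        linarith
      have h3 : τ * (1 - 1 / (2 * Sg)) = τ - τ / (2 * Sg) := by ring
      rw [h3]
      linarith
    have ha : 0 ≤ 1 - 1 / (2 * Sg) := by
      have : 1 / (2 * Sg) ≤ 1 := by
        rw [div_le_one hS2]
        linarith
      linarith
    have h4 : ‖br z (pr p y)‖ ^ 2 ≤ (1 - 1 / (2 * Sg)) * D ^ 2 := by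
      refine hcs2.trans ?_
      calc ‖pr p z‖ ^ 2 * ‖pr p y‖ ^ 2 ≤ σ * (τ * (1 - 1 / (2 * Sg))) :=
            mul_le_mul (by linarith) h1 hpy0 hσ0
        _ = (1 - 1 / (2 * Sg)) * (σ * τ) := by ring
        _ ≤ (1 - 1 / (2 * Sg)) * D ^ 2 := by
            refine mul_le_mul_of_nonneg_left ?_ ha
            rw [h6a]
            have := sq_nonneg ‖br z p - br y p‖
            linarith
    have h5 := Real.sqrt_le_sqrt h4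
    rw [Real.sqrt_sq (norm_nonneg _), Real.sqrt_mul ha, Real.sqrt_sq hD0] at h5
    exact h5
  · have hTz : TT p z ≤ (1 + 2 * Sg) * D := by
      have h1 : Sg * tt y ≤ Sg * (2 * D) := by
        refine mul_le_mul_of_nonneg_left ?_ (by linarith)
        linarith
      linarith
    have h2 : ‖pr p z‖ ^ 2 ≤ TT p z ^ 2 * (ww p z).re := by
      rw [hw1, mul_div_cancel₀ _ (pow_ne_zero 2 hz4.ne')]
      linarith
    have h3 : TT p z ^ 2 ≤ ((1 + 2 * Sg) * D) ^ 2 := pow_le_pow_left₀ hz4.le hTz 2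
    calc ‖br z (pr p y)‖ ^ 2 ≤ ‖pr p z‖ ^ 2 * ‖pr p y‖ ^ 2 := hcs2
      _ ≤ (((1 + 2 * Sg) * D) ^ 2 * (ww p z).re) * (2 * Sg * tt y) := by
          refine mul_le_mul (h2.trans (mul_le_mul_of_nonneg_right h3 hw4.le)) (by linarith) hpy0 ?_
          exact mul_nonneg (sq_nonneg _) hw4.le
      _ = 2 * Sg * (1 + 2 * Sg) ^ 2 * tt y * (ww p z).re * D ^ 2 := by ring
  · linarith

/-- perturbation of the test function: for `|τ| ≤ t(y)/(16(M+j))`, `M ≥ 1`: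
`|E_y^{(j)}(e^τz)| ≤ e |E_y^{(j)}(z)|`, and `τ ↦ E_y^{(j)}(e^τ z)` is differentiable on this disc.

Proof.  `E^{(j)}(e^τz) = e^{jτ} cf M j <z,y'>^j (1-e^τ z₁ȳ₁)^{-M-j}`,
`|1-e^τz₁ȳ₁| ≥ |D| - (13/10)|τ| = |D|(1-x)`, `x = (13/10)|τ|/|D| ≤ (13/5)|τ|/t ≤ 1/(6(M+j))`, so
`(1-x)^{-(M+j)} ≤ e^{2x(M+j)} ≤ e^{1/3}`, `|e^{jτ}| ≤ e^{1/16}`. -/
theorem M7t {d : ℕ} {p y z : E d} (hp : ‖p‖ = 1) (hy : ‖y‖ < 1) (hz : ‖z‖ < 1) {M j : ℕ}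
    (hM : 1 ≤ M) :
    (∀ τ : ℂ, ‖τ‖ ≤ tt y / (16 * (M + j)) →
      ‖Ej p M j y (Complex.exp τ • z)‖ ≤ Real.exp 1 * ‖Ej p M j y z‖) ∧
    DifferentiableOn ℂ (fun τ : ℂ => Ej p M j y (Complex.exp τ • z))
      (Metric.ball 0 (tt y / (16 * (M + j)))) := by
  obtain ⟨hy1, hy2, hy3, hy4, hy5, hy6, hy7⟩ := F1b hp hy
  obtain ⟨hz1, hz2, hz3, hz4, hz5, hz6, hz7⟩ := F1b hp hz
  obtain ⟨h61, h62, h63, h64, h65⟩ := F6b hp hz hy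
  obtain ⟨n, hn⟩ : ∃ n, n = M + j := ⟨_, rfl⟩
  have hn1 : 1 ≤ n := by omega
  have hn1' : (1 : ℝ) ≤ (n : ℝ) := by exact_mod_cast hn1
  have hMj : (M : ℝ) + (j : ℝ) = (n : ℝ) := by rw [hn]; push_cast; ring
  rw [hMj]
  obtain ⟨a, ha⟩ : ∃ a, a = br z p * (starRingEnd ℂ) (br y p) := ⟨_, rfl⟩
  obtain ⟨b, hb⟩ : ∃ b, b = br z (pr p y) := ⟨_, rfl⟩
  have hE : ∀ τ : ℂ, Ej p M j y (Complex.exp τ • z) =
      (cf M j : ℂ) * (Complex.exp τ * b) ^ j / (1 - Complex.exp τ * a) ^ n := by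
    intro τ
    unfold Ej
    rw [br_smul, br_smul, ← hb, ← hn, mul_assoc (Complex.exp τ) (br z p), ← ha]
  have hE0 : Ej p M j y z = (cf M j : ℂ) * b ^ j / (1 - a) ^ n := by
    unfold Ej
    rw [← hb, ← hn, ← ha]
  rw [← ha] at h63
  have hD : tt y / 2 ≤ ‖1 - a‖ := by linarith [sq_nonneg ‖pr p y‖]
  have hD0 : 0 < ‖1 - a‖ := by linarith
  have ha1 : ‖a‖ ≤ 1 := by
    rw [ha, norm_mul, RCLike.norm_conj]
    exact mul_le_one₀ hz1.le (norm_nonneg _) hy1.le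
  have hlow : ∀ τ : ℂ, ‖τ‖ ≤ tt y / (16 * n) →
      ‖1 - a‖ * (1 - 13 / (80 * (n : ℝ))) ≤ ‖1 - Complex.exp τ * a‖ := by
    intro τ hτ
    have h16 : tt y / (16 * n) ≤ 1 / 4 := by
      rw [div_le_iff₀ (by positivity)]
      linarith
    have h7 := (F7a (hτ.trans h16)).1
    have h8 : ‖1 - a‖ ≤ ‖1 - Complex.exp τ * a‖ + ‖Complex.exp τ - 1‖ * ‖a‖ := by
      rw [← norm_mul]
      have h9 : 1 - a = (1 - Complex.exp τ * a) + (Complex.exp τ - 1) * a := by ring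
      calc ‖1 - a‖ = ‖(1 - Complex.exp τ * a) + (Complex.exp τ - 1) * a‖ := by rw [← h9]
        _ ≤ _ := norm_add_le _ _
    have h10 : ‖Complex.exp τ - 1‖ * ‖a‖ ≤ 13 / 10 * ‖τ‖ := by
      calc ‖Complex.exp τ - 1‖ * ‖a‖ ≤ ‖Complex.exp τ - 1‖ * 1 :=
            mul_le_mul_of_nonneg_left ha1 (norm_nonneg _)
        _ ≤ 13 / 10 * ‖τ‖ := by rw [mul_one]; exact h7
    have h11 : 13 / 10 * ‖τ‖ ≤ ‖1 - a‖ * (13 / (80 * (n : ℝ))) := by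
      have h12 : ‖τ‖ ≤ 2 * ‖1 - a‖ / (16 * n) := by
        refine hτ.trans ?_
        gcongr
        linarith
      calc 13 / 10 * ‖τ‖ ≤ 13 / 10 * (2 * ‖1 - a‖ / (16 * n)) := by linarith
        _ = ‖1 - a‖ * (13 / (80 * (n : ℝ))) := by
            field_simp
            ring
    have h13 : ‖1 - a‖ * (1 - 13 / (80 * (n : ℝ))) = ‖1 - a‖ - ‖1 - a‖ * (13 / (80 * (n : ℝ))) := by
      ring
    rw [h13]
    linarith
  have hfac : 0 < 1 - 13 / (80 * (n : ℝ)) := by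
    have : 13 / (80 * (n : ℝ)) ≤ 13 / 80 := by
      gcongr
      linarith
    linarith
  refine ⟨?_, ?_⟩
  · intro τ hτ
    rw [hE, hE0, norm_div, norm_mul, norm_pow, norm_pow, norm_mul, norm_div, norm_mul, norm_pow,
      norm_pow]
    have h1 := hlow τ hτ
    have h2 : 5 / 6 * ‖1 - a‖ ^ n ≤ ‖1 - Complex.exp τ * a‖ ^ n := by
      calc 5 / 6 * ‖1 - a‖ ^ n ≤ (1 - 13 / (80 * (n : ℝ))) ^ n * ‖1 - a‖ ^ n :=
            mul_le_mul_of_nonneg_right (M7ax_pow hn1) (by positivity)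
        _ = (‖1 - a‖ * (1 - 13 / (80 * (n : ℝ)))) ^ n := by rw [mul_pow, mul_comm]
        _ ≤ _ := pow_le_pow_left₀ (mul_nonneg hD0.le hfac.le) h1 n
    have h3 : ‖Complex.exp τ‖ ^ j ≤ Real.exp (1 / 16) := by
      rw [Complex.norm_exp, ← Real.exp_nat_mul]
      apply Real.exp_le_exp.2
      have h4 : τ.re ≤ tt y / (16 * n) := (Complex.re_le_norm τ).trans hτ
      have h5 : (j : ℝ) ≤ (n : ℝ) := by rw [← hMj]; linarith [(Nat.cast_nonneg M : (0 : ℝ) ≤ M)]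
      have h6 : tt y / (16 * n) ≤ 1 / (16 * n) := by gcongr
      calc (j : ℝ) * τ.re ≤ (j : ℝ) * (1 / (16 * n)) :=
            mul_le_mul_of_nonneg_left (h4.trans h6) (Nat.cast_nonneg j)
        _ ≤ (n : ℝ) * (1 / (16 * n)) := mul_le_mul_of_nonneg_right h5 (by positivity)
        _ = 1 / 16 := by field_simp
    have hP : 0 < ‖1 - a‖ ^ n := pow_pos hD0 n
    rw [mul_pow]
    have h5 : ‖(cf M j : ℂ)‖ * (‖Complex.exp τ‖ ^ j * ‖b‖ ^ j) / ‖1 - Complex.exp τ * a‖ ^ n ≤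
        ‖(cf M j : ℂ)‖ * (Real.exp (1 / 16) * ‖b‖ ^ j) / (5 / 6 * ‖1 - a‖ ^ n) := by
      gcongr
    refine h5.trans ?_
    have h6 : ‖(cf M j : ℂ)‖ * (Real.exp (1 / 16) * ‖b‖ ^ j) / (5 / 6 * ‖1 - a‖ ^ n) =
        (6 / 5 * Real.exp (1 / 16)) * (‖(cf M j : ℂ)‖ * ‖b‖ ^ j / ‖1 - a‖ ^ n) := by
      field_simp
    rw [h6]
    refine mul_le_mul_of_nonneg_right ?_ (by positivity)
    have h7 : Real.exp 1 = Real.exp (15 / 16) * Real.exp (1 / 16) := by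
      rw [← Real.exp_add]
      norm_num
    rw [h7]
    refine mul_le_mul_of_nonneg_right ?_ (Real.exp_pos _).le
    have := Real.add_one_le_exp (15 / 16 : ℝ)
    linarith
  · have h1 : (fun τ : ℂ => Ej p M j y (Complex.exp τ • z)) =
        fun τ : ℂ => (cf M j : ℂ) * (Complex.exp τ * b) ^ j / (1 - Complex.exp τ * a) ^ n :=
      funext hE
    rw [h1]
    refine DifferentiableOn.div ?_ ?_ ?_
    · exact ((((Complex.differentiable_exp.mul_const b).pow j).const_mul _)).differentiableOn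
    · exact (((Complex.differentiable_exp.mul_const a).const_sub 1).pow n).differentiableOn
    · intro τ hτ
      rw [Metric.mem_ball, dist_zero_right] at hτ
      have h2 := hlow τ hτ.le
      have h3 : 0 < ‖1 - Complex.exp τ * a‖ := lt_of_lt_of_le (mul_pos hD0 hfac) h2
      exact pow_ne_zero n (norm_pos_iff.1 h3)

end Pool.Agent.CRT
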