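import Pool.Agent.CRT.F4
import Pool.Agent.CRT.P4
import Pool.Agent.CRT.M7ax

/-!
# [M7ay] The bound for the test function

Notation: `D = 1 - z₁ conj y₁`, `t = t(y)`, `T_p(y) ≤ Σ t` (`Σ = Sg ≥ 1`).
-/

set_option autoImplicit false

namespace Pool.Agent.CRT

open Finset

/-- `cf M j x^j ≤ (1-x)^{-M}` -/
theorem M7ay_cf {M : ℕ} (hM : 1 ≤ M) (j : ℕ) {x : ℝ} (hx0 : 0 ≤ x) (hx : x < 1) :
    cf M j * x ^ j ≤ (1 / (1 - x)) ^ M := by
  have h1 := cf_hasSum hM (x := (x : ℂ)) (by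
    rw [Complex.norm_real, Real.norm_of_nonneg hx0]
    exact hx)
  have h2 : HasSum (fun k => cf M k * x ^ k) ((1 / (1 - x)) ^ M) := by
    have h3 : (fun k => (cf M k : ℂ) * (x : ℂ) ^ k) = fun k => ((cf M k * x ^ k : ℝ) : ℂ) := by
      funext k
      push_cast
      ring
    have h4 : (1 : ℂ) / (1 - (x : ℂ)) ^ M = (((1 / (1 - x)) ^ M : ℝ) : ℂ) := by
      push_cast
      rw [div_pow, one_pow]
    rw [h3, h4] at h1
    exact_mod_cast h1
  refine le_hasSum h2 j (fun k _ => ?_)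
  unfold cf
  positivity

theorem M7ay_cf2 (M j : ℕ) : cf M j ≤ 2 ^ (M + j) := by
  unfold cf
  have h1 : (M + j - 1).choose j ≤ 2 ^ (M + j) :=
    (Nat.choose_le_two_pow _ _).trans (Nat.pow_le_pow_right (by norm_num) (by omega))
  exact_mod_cast h1

/-- `b^M ≤ b e^{(log b) L/t}` for `b ≥ 1`, `M ≤ L/t + 1` -/
theorem M7ay_pow {b u : ℝ} (hb : 1 ≤ b) {M : ℕ} (hM : (M : ℝ) ≤ u + 1) :
    b ^ M ≤ b * Real.exp (u * Real.log b) := by
  have hb0 : 0 < b := by linarith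
  have h1 : b ^ M = Real.exp (M * Real.log b) := by
    rw [Real.exp_nat_mul, Real.exp_log hb0]
  have h2 : b * Real.exp (u * Real.log b) = Real.exp ((u + 1) * Real.log b) := by
    rw [add_mul, one_mul, Real.exp_add, Real.exp_log hb0]
    ring
  rw [h1, h2]
  apply Real.exp_le_exp.2
  exact mul_le_mul_of_nonneg_right hM (Real.log_nonneg hb)

/-- `t^M |E_y^{(j)}(z)| ≤ 2^M cf M j σ^j` if `|<z,y'>| ≤ σ|D|` -/
theorem M7ay_E {d : ℕ} {p y z : E d} {M j : ℕ} {t σ : ℝ} (ht : 0 < t) (_hσ : 0 ≤ σ)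
    (h1 : ‖br z (pr p y)‖ ≤ σ * ‖1 - br z p * (starRingEnd ℂ) (br y p)‖)
    (h2 : t / 2 ≤ ‖1 - br z p * (starRingEnd ℂ) (br y p)‖) :
    t ^ M * ‖Ej p M j y z‖ ≤ 2 ^ M * (cf M j * σ ^ j) := by
  have hcf : 0 ≤ cf M j := by
    unfold cf
    positivity
  unfold Ej
  rw [norm_div, norm_mul, norm_pow, norm_pow, Complex.norm_real, Real.norm_of_nonneg hcf]
  set D := ‖1 - br z p * (starRingEnd ℂ) (br y p)‖ with hD
  have hD0 : 0 < D := by linarith
  have h3 : ‖br z (pr p y)‖ ^ j ≤ σ ^ j * D ^ j := by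
    rw [← mul_pow]
    exact pow_le_pow_left₀ (norm_nonneg _) h1 j
  have h4 : t ^ M ≤ 2 ^ M * D ^ M := by
    rw [← mul_pow]
    exact pow_le_pow_left₀ ht.le (by linarith) M
  have hDM : 0 < D ^ (M + j) := by positivity
  rw [mul_div_assoc', div_le_iff₀ hDM]
  calc t ^ M * (cf M j * ‖br z (pr p y)‖ ^ j)
      ≤ (2 ^ M * D ^ M) * (cf M j * (σ ^ j * D ^ j)) := by gcongr
    _ = 2 ^ M * (cf M j * σ ^ j) * D ^ (M + j) := by
        rw [pow_add]
        ring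

/-- The bound `t^M e^{-A' Re w(z)} |E_y^{(j)}(z)| ≤ C e^{-K/t} ϑ^j` for `j ≥ γ/t`.

Proof.  `|E^{(j)}| = cf M j · ρ^j |D|^{-M} ≤ cf M j · ρ^j (2/t)^M` with `ρ = |<z,y'>|/|D| ≤ q := √(1-1/(2Σ)) < 1`,
`q > 0`; put `ϑ = √q ∈ (q,1)`.  `cf M j = binom(M+j-1,j) ≤ 2^{M+j}`.
Let `η > 0` with `√(2Σ(1+2Σ)²η) ≤ (ϑ/2) e^{-(K+L log 4)/γ}`.
Case I: `Re w(z) ≤ η/t`.  By `M7a1` (2) `ρ² ≤ 2Σ(1+2Σ)²η`, so `2ρ/ϑ ≤ e^{-(K+L log 4)/γ}`, and
`t^M|E^{(j)}| ≤ 2^M 2^{M+j} ρ^j = 4^M (2ρ/ϑ)^j ϑ^j ≤ 4 · 4^{L/t} e^{-(K+L log 4) j/γ} ϑ^j ≤ 4 e^{-K/t} ϑ^j`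
as `j/γ ≥ 1/t`.
Case II: `Re w(z) > η/t`.  With `B = 2/(1-q/ϑ) > 1` and `cf M j x^j ≤ ∑_j cf M j x^j = (1-x)^{-M}` for
`x = q/ϑ` (`cf_hasSum`): `t^M|E^{(j)}| ≤ 2^M cf M j q^j ≤ B^M ϑ^j ≤ B e^{(L log B)/t} ϑ^j`, and
`e^{-A' Re w} ≤ e^{-A'η/t}` with `A' = (K + L log B)/η`. -/
theorem M7a2 {Sg K L γ : ℝ} (hS : 1 ≤ Sg) (hK : 0 < K) (hL : 0 < L) (hγ : 0 < γ) :
    ∃ A' C ϑ : ℝ, 0 ≤ A' ∧ 0 < C ∧ 0 < ϑ ∧ ϑ < 1 ∧
    ∀ (d : ℕ) (p : E d), ‖p‖ = 1 → ∀ (M j : ℕ) (y z : E d), ‖y‖ < 1 → ‖z‖ < 1 →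
      L / tt y ≤ M → (M : ℝ) ≤ L / tt y + 1 → TT p y ≤ Sg * tt y → γ / tt y ≤ j →
      tt y ^ M * (Real.exp (-(A' * (ww p z).re)) * ‖Ej p M j y z‖) ≤
        C * Real.exp (-(K / tt y)) * ϑ ^ j := by
  have hSg0 : 0 < Sg := by linarith
  set q : ℝ := Real.sqrt (1 - 1 / (2 * Sg)) with hq
  have h1S : 1 / (2 * Sg) ≤ 1 / 2 := by
    apply one_div_le_one_div_of_le (by norm_num)
    linarith
  have h1S0 : 0 < 1 / (2 * Sg) := by positivity
  have hq0 : 0 < q := Real.sqrt_pos.2 (by linarith)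
  have hq1 : q < 1 := by
    rw [hq, Real.sqrt_lt' one_pos]
    linarith
  set ϑ : ℝ := Real.sqrt q with hϑ
  have hϑ0 : 0 < ϑ := Real.sqrt_pos.2 hq0
  have hϑ1 : ϑ < 1 := by
    rw [hϑ, Real.sqrt_lt' one_pos]
    linarith
  have hϑq : ϑ * ϑ = q := Real.mul_self_sqrt hq0.le
  set B : ℝ := 2 / (1 - ϑ) with hB
  have hB1 : 1 ≤ B := by
    rw [hB, le_div_iff₀ (by linarith)]
    linarith
  set G : ℝ := 2 * Sg * (1 + 2 * Sg) ^ 2 with hG
  have hG0 : 0 < G := by positivity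
  set σ : ℝ := ϑ / 2 * Real.exp (-((K + L * Real.log 4) / γ)) with hσ
  have hσ0 : 0 < σ := by positivity
  set η : ℝ := σ ^ 2 / G with hη
  have hη0 : 0 < η := by positivity
  have hlogB : 0 ≤ Real.log B := Real.log_nonneg hB1
  have hlog4 : 0 ≤ Real.log 4 := Real.log_nonneg (by norm_num)
  set A' : ℝ := (K + L * Real.log B) / η with hA'
  have hA0 : 0 ≤ A' := by positivity
  refine ⟨A', 4 + B, ϑ, hA0, by linarith, hϑ0, hϑ1, ?_⟩
  intro d p hp M j y z hy hz hM1 hM2 hT hj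
  obtain ⟨-, -, -, -, -, ht0, ht1⟩ := F1b (p := p) hp hy
  obtain ⟨hE1, hE2, hE3⟩ := M7a1 hp hy hz hS hT
  have hw := (F2a hp hz).2.2.2.1
  set t := tt y with htdef
  set w := (ww p z).re with hwdef
  have hMpos : 0 < (M : ℝ) := lt_of_lt_of_le (by positivity) hM1
  have hM : 1 ≤ M := by
    have : 0 < M := by exact_mod_cast hMpos
    omega
  have hcf : 0 ≤ cf M j := by
    unfold cf
    positivity
  have hϑj : 0 < ϑ ^ j := by positivity
  have hexpK : 0 < Real.exp (-(K / t)) := Real.exp_pos _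
  by_cases hc : w ≤ η / t
  · -- case I
    have h1 : ‖br z (pr p y)‖ ≤ σ * ‖1 - br z p * (starRingEnd ℂ) (br y p)‖ := by
      apply le_of_sq_le_sq _ (by positivity)
      refine hE2.trans ?_
      rw [mul_pow]
      apply mul_le_mul_of_nonneg_right _ (sq_nonneg _)
      calc 2 * Sg * (1 + 2 * Sg) ^ 2 * t * w = G * (t * w) := by rw [hG]; ring
        _ ≤ G * (t * (η / t)) := by gcongr
        _ = σ ^ 2 := by
            rw [hη]
            field_simp
    have h2 := M7ay_E (M := M) (j := j) ht0 hσ0.le h1 hE3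
    have h3 : 2 ^ M * (cf M j * σ ^ j) ≤ 4 * Real.exp (-(K / t)) * ϑ ^ j := by
      have h4 : (2 : ℝ) ^ M * (cf M j * σ ^ j) ≤ 2 ^ M * (2 ^ (M + j) * σ ^ j) := by
        have := M7ay_cf2 M j
        gcongr
      have h5 : (2 : ℝ) ^ M * (2 ^ (M + j) * σ ^ j) = 4 ^ M * (ϑ ^ j *
          Real.exp (-((K + L * Real.log 4) / γ) * j)) := by
        have h6 : Real.exp (-((K + L * Real.log 4) / γ) * j)
            = Real.exp (-((K + L * Real.log 4) / γ)) ^ j := by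
          rw [mul_comm, Real.exp_nat_mul]
        rw [h6, ← mul_pow ϑ, hσ, pow_add]
        have h7 : (4 : ℝ) ^ M = 2 ^ M * 2 ^ M := by
          rw [← mul_pow]
          norm_num
        rw [h7]
        have h8 : (ϑ * Real.exp (-((K + L * Real.log 4) / γ))) ^ j = 2 ^ j *
            (ϑ / 2 * Real.exp (-((K + L * Real.log 4) / γ))) ^ j := by
          rw [← mul_pow]
          congr 1
          ring
        rw [h8]
        ring
      have h6 : (4 : ℝ) ^ M ≤ 4 * Real.exp (L / t * Real.log 4) :=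
        M7ay_pow (by norm_num) hM2
      have h7 : Real.exp (-((K + L * Real.log 4) / γ) * j) ≤
          Real.exp (-(K / t)) * Real.exp (-(L / t * Real.log 4)) := by
        rw [← Real.exp_add]
        apply Real.exp_le_exp.2
        have h8 : 1 / t ≤ j / γ := by
          rw [div_le_div_iff₀ ht0 hγ]
          rw [div_le_iff₀ ht0] at hj
          linarith
        have h9 : (K + L * Real.log 4) * (1 / t) ≤ (K + L * Real.log 4) * (j / γ) := by
          apply mul_le_mul_of_nonneg_left h8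
          positivity
        have h10 : (K + L * Real.log 4) * (1 / t) = K / t + L / t * Real.log 4 := by ring
        have h11 : -((K + L * Real.log 4) / γ) * j = -((K + L * Real.log 4) * (j / γ)) := by ring
        rw [h11]
        linarith
      calc (2 : ℝ) ^ M * (cf M j * σ ^ j) ≤ 4 ^ M * (ϑ ^ j *
          Real.exp (-((K + L * Real.log 4) / γ) * j)) := by rw [← h5]; exact h4
        _ ≤ (4 * Real.exp (L / t * Real.log 4)) * (ϑ ^ j *
            (Real.exp (-(K / t)) * Real.exp (-(L / t * Real.log 4)))) := by gcongr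
        _ = 4 * Real.exp (-(K / t)) * ϑ ^ j * (Real.exp (L / t * Real.log 4) *
            Real.exp (-(L / t * Real.log 4))) := by ring
        _ = 4 * Real.exp (-(K / t)) * ϑ ^ j := by
            rw [← Real.exp_add, add_neg_cancel, Real.exp_zero, mul_one]
    have h4 : Real.exp (-(A' * w)) ≤ 1 := by
      rw [Real.exp_le_one_iff]
      have : 0 ≤ A' * w := by positivity
      linarith
    calc t ^ M * (Real.exp (-(A' * w)) * ‖Ej p M j y z‖)
        ≤ t ^ M * (1 * ‖Ej p M j y z‖) := by gcongr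
      _ = t ^ M * ‖Ej p M j y z‖ := by ring
      _ ≤ 4 * Real.exp (-(K / t)) * ϑ ^ j := h2.trans h3
      _ ≤ (4 + B) * Real.exp (-(K / t)) * ϑ ^ j := by
          gcongr
          linarith
  · -- case II
    push Not at hc
    have h2 := M7ay_E (M := M) (j := j) ht0 hq0.le hE1 hE3
    have h3 : 2 ^ M * (cf M j * q ^ j) ≤ B * Real.exp (L / t * Real.log B) * ϑ ^ j := by
      have h4 := M7ay_cf hM j hϑ0.le hϑ1
      have h5 : q ^ j = ϑ ^ j * ϑ ^ j := by rw [← mul_pow, hϑq]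
      calc (2 : ℝ) ^ M * (cf M j * q ^ j) = 2 ^ M * (cf M j * ϑ ^ j) * ϑ ^ j := by
            rw [h5]
            ring
        _ ≤ 2 ^ M * (1 / (1 - ϑ)) ^ M * ϑ ^ j := by gcongr
        _ = B ^ M * ϑ ^ j := by
            rw [← mul_pow, hB]
            congr 2
            ring
        _ ≤ B * Real.exp (L / t * Real.log B) * ϑ ^ j := by
            have := M7ay_pow hB1 hM2
            gcongr
    have h4 : Real.exp (-(A' * w)) ≤ Real.exp (-(K / t)) * Real.exp (-(L / t * Real.log B)) := by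
      rw [← Real.exp_add]
      apply Real.exp_le_exp.2
      have h5 : A' * (η / t) ≤ A' * w := mul_le_mul_of_nonneg_left hc.le hA0
      have h6 : A' * (η / t) = K / t + L / t * Real.log B := by
        rw [hA']
        field_simp
      linarith
    calc t ^ M * (Real.exp (-(A' * w)) * ‖Ej p M j y z‖)
        = Real.exp (-(A' * w)) * (t ^ M * ‖Ej p M j y z‖) := by ring
      _ ≤ (Real.exp (-(K / t)) * Real.exp (-(L / t * Real.log B))) *
          (B * Real.exp (L / t * Real.log B) * ϑ ^ j) := by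
          apply mul_le_mul h4 (h2.trans h3) (by positivity) (by positivity)
      _ = B * Real.exp (-(K / t)) * ϑ ^ j * (Real.exp (L / t * Real.log B) *
          Real.exp (-(L / t * Real.log B))) := by ring
      _ = B * Real.exp (-(K / t)) * ϑ ^ j := by
          rw [← Real.exp_add, add_neg_cancel, Real.exp_zero, mul_one]
      _ ≤ (4 + B) * Real.exp (-(K / t)) * ϑ ^ j := by
          gcongr
          linarith

end Pool.Agent.CRT
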