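import Pool.Agent.CRT.P2
import Pool.Agent.CRT.S2
import Pool.Agent.CRT.S1

/-!
# [P1x] Homogeneous expansion of an analytic function
-/

set_option autoImplicit false

namespace Pool.Agent.CRT

open Finset MvPowerSeries MeasureTheory

/-- the multi-index counting the values of a function -/
noncomputable def P1x_cnt {d k : ℕ} (i : Fin k → Fin d) : MI d :=
  Finsupp.equivFunOnFinite.symm fun m => (univ.filter fun l => i l = m).card

theorem P1x_cnt_apply {d k : ℕ} (i : Fin k → Fin d) (m : Fin d) :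
    P1x_cnt i m = (univ.filter fun l => i l = m).card := rfl

theorem P1x_cnt_mem {d k : ℕ} (i : Fin k → Fin d) : P1x_cnt i ∈ A d k := by
  rw [mem_A, Finsupp.degree_eq_sum]
  simp only [P1x_cnt_apply]
  have h := Finset.card_eq_sum_card_fiberwise (f := i) (s := (univ : Finset (Fin k)))
    (t := (univ : Finset (Fin d))) (fun x _ => by simp)
  rw [← h, Finset.card_univ, Fintype.card_fin]

theorem P1x_mono {d k : ℕ} (z : E d) (i : Fin k → Fin d) :
    ∏ l, z (i l) = mono z (P1x_cnt i) := by
  unfold mono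
  rw [← Finset.prod_fiberwise_of_maps_to' (g := i) (t := (univ : Finset (Fin d))) (fun x _ => by simp)
    (fun m => z m)]
  refine Finset.prod_congr rfl fun m _ => ?_
  rw [Finset.prod_const, P1x_cnt_apply]

/-- the coefficients of the homogeneous polynomial of a multilinear map -/
noncomputable def P1x_c {d : ℕ} (p : FormalMultilinearSeries ℂ (E d) ℂ) : PS d :=
  mkP fun α => ∑ i ∈ (univ : Finset (Fin α.degree → Fin d)).filter (fun i => P1x_cnt i = α),
    p α.degree (fun l => EuclideanSpace.single (i l) (1 : ℂ))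

theorem P1x_hp {d : ℕ} (p : FormalMultilinearSeries ℂ (E d) ℂ) (k : ℕ) (z : E d) :
    hp (P1x_c p) k z = p k (fun _ => z) := by
  classical
  have e1 : z = ∑ m, z m • EuclideanSpace.single m (1 : ℂ) := by
    ext j
    simp [Pi.single_apply]
  have e2 : p k (fun _ => z) =
      ∑ i : Fin k → Fin d, mono z (P1x_cnt i) * p k (fun l => EuclideanSpace.single (i l) (1 : ℂ)) := by
    have : (fun _ : Fin k => z) =
        fun _ : Fin k => ∑ m, z m • EuclideanSpace.single m (1 : ℂ) := by
      funext l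
      exact e1
    rw [this, ContinuousMultilinearMap.map_sum]
    refine Finset.sum_congr rfl fun i _ => ?_
    rw [ContinuousMultilinearMap.map_smul_univ, P1x_mono, smul_eq_mul]
  rw [e2, ← Finset.sum_fiberwise_of_maps_to (g := P1x_cnt) (t := A d k) (fun i _ => P1x_cnt_mem i)]
  unfold hp
  refine Finset.sum_congr rfl fun α hα => ?_
  have hk := mem_A.1 hα
  subst hk
  unfold P1x_c
  rw [coeff_mkP, Finset.sum_mul]
  refine Finset.sum_congr rfl fun i hi => ?_
  rw [(Finset.mem_filter.1 hi).2, mul_comm]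

/-- Step 1: homogeneous expansion.

Proof.  `F` is analytic at `0`: `F(z) = ∑_k p_k(z,…,z)` for `|z| < ρ` (`HasFPowerSeriesOnBall`), `p_k`
continuous `k`-linear maps.  Expanding in the basis `z = ∑ z_i e_i`,
`p_k(z,…,z) = ∑_{i : Fin k → Fin d} (∏_l z_{i_l}) p_k(e_{i_1},…,e_{i_k})`, so
`p_k(z,…,z) = ∑_{|α|=k} f_α z^α` where `f_α` is the sum of `p_k(e_{i_1},…,e_{i_k})` over the `i`
with `#{l : i_l = m} = α_m`.  This defines `f` and `hp f k z = p_k(z,…,z)` for all `z`.
Now let `0 < |z| < 1`, and `g(μ) = F(μz)`, analytic on `|μ| < 1/|z|`.  Near `0`,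
`g(μ) = ∑_k hp f k z μ^k`, so these are the Taylor coefficients of `g` at `0`, and since `g` is
analytic (differentiable) on the disc of radius `1/|z| > 1`, `g(1) = ∑_k hp f k z`
(`DifferentiableOn.hasFPowerSeriesOnBall`, uniqueness of the one-dimensional power series). -/
theorem P1a {d : ℕ} {F : E d → ℂ} (hF : AnalyticOnNhd ℂ F (Metric.ball 0 1)) :
    ∃ f : PS d, ∀ z : E d, ‖z‖ < 1 → HasSum (fun k => hp f k z) (F z) := by
  obtain ⟨p, hp0⟩ := hF 0 (by simp)
  refine ⟨P1x_c p, fun z hz => ?_⟩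
  simp only [P1x_hp]
  -- the slice
  let u : ℂ →L[ℂ] E d := (ContinuousLinearMap.id ℂ ℂ).smulRight z
  have hu : ∀ μ : ℂ, u μ = μ • z := fun μ => by simp [u]
  have h1 : HasFPowerSeriesAt (F ∘ u) (p.compContinuousLinearMap u) 0 := by
    have h0 : u 0 = 0 := map_zero u
    have : HasFPowerSeriesAt F p (u 0) := by rw [h0]; exact hp0
    exact this.compContinuousLinearMap
  obtain ⟨R, hR1, hRz⟩ : ∃ R : ℝ, 1 < R ∧ R * ‖z‖ < 1 := by
    have h2 : 0 < 1 + ‖z‖ := by positivity
    refine ⟨2 / (1 + ‖z‖), ?_, ?_⟩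
    · rw [lt_div_iff₀ h2]
      linarith
    · rw [div_mul_eq_mul_div, div_lt_one h2]
      linarith
  have hR0 : 0 < R := by linarith
  lift R to NNReal using hR0.le
  have hd : DifferentiableOn ℂ (F ∘ u) (Metric.closedBall 0 R) := by
    intro μ hμ
    have hμ' : ‖μ‖ ≤ R := by simpa using hμ
    have hz' : u μ ∈ Metric.ball (0 : E d) 1 := by
      rw [mem_ball_zero_iff, hu, norm_smul]
      calc ‖μ‖ * ‖z‖ ≤ R * ‖z‖ := by gcongr
        _ < 1 := hRz
    exact ((hF (u μ) hz').differentiableAt.comp μ u.differentiableAt).differentiableWithinAt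
  have h2 := hd.hasFPowerSeriesOnBall (by exact_mod_cast hR0)
  have h3 := h1.eq_formalMultilinearSeries h2.hasFPowerSeriesAt
  have h4 : (1 : ℂ) ∈ Metric.eball (0 : ℂ) R := by
    rw [Metric.mem_eball, edist_zero_right]
    have : ‖(1 : ℂ)‖ₑ = 1 := by simp
    rw [this]
    exact_mod_cast hR1
  have h5 := h2.hasSum h4
  rw [← h3, zero_add] at h5
  have h6 : (F ∘ u) 1 = F z := by
    show F (u 1) = F z
    rw [hu, one_smul]
  rw [h6] at h5
  have h7 : (fun n => (p.compContinuousLinearMap u n) fun _ => 1) = fun k => p k (fun _ => z) := by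
    funext k
    rw [FormalMultilinearSeries.compContinuousLinearMap_apply]
    congr 1
    funext l
    show u 1 = z
    rw [hu, one_smul]
  rw [h7] at h5
  exact h5

end Pool.Agent.CRT
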