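import Pool.Agent.CRT.P2
import Pool.Agent.CRT.S2
import Pool.Agent.CRT.S1
import Pool.Agent.CRT.P1x

/-!
# [P1y] Absolute convergence
-/

set_option autoImplicit false

namespace Pool.Agent.CRT

open Finset MvPowerSeries MeasureTheory

/-- Cauchy's estimate for a power series in one variable -/
theorem P1y_cauchy {a : ℕ → ℂ} {g : ℂ → ℂ}
    (h : ∀ μ : ℂ, ‖μ‖ < 1 → HasSum (fun k => a k * μ ^ k) (g μ)) {R C : ℝ} (hR0 : 0 < R)
    (hR : R < 1) (hC : ∀ μ : ℂ, ‖μ‖ = R → ‖g μ‖ ≤ C) (k : ℕ) : ‖a k‖ ≤ C / R ^ k := by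
  let p : FormalMultilinearSeries ℂ ℂ ℂ := FormalMultilinearSeries.ofScalars ℂ a
  have hp : HasFPowerSeriesOnBall g p 0 1 :=
    { r_le := by
        refine ENNReal.le_of_forall_nnreal_lt fun r hr => ?_
        have hr1 : (r : ℝ) < 1 := by exact_mod_cast hr
        have hs := (h ((r : ℝ) : ℂ) (by
          rw [Complex.norm_real, Real.norm_eq_abs, abs_of_nonneg (NNReal.coe_nonneg r)]
          exact hr1)).summable.norm
        apply p.le_radius_of_summable
        refine hs.congr fun n => ?_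
        show ‖a n * ((r : ℝ) : ℂ) ^ n‖ = ‖FormalMultilinearSeries.ofScalars ℂ a n‖ * (r : ℝ) ^ n
        rw [FormalMultilinearSeries.ofScalars_norm, norm_mul, norm_pow, Complex.norm_real,
          Real.norm_eq_abs, abs_of_nonneg (NNReal.coe_nonneg r)]
      r_pos := one_pos
      hasSum := fun {y} hy => by
        have hy' : ‖y‖ < 1 := by
          rw [Metric.mem_eball, edist_zero_right] at hy
          rw [enorm_eq_nnnorm, ENNReal.coe_lt_one_iff] at hy
          exact_mod_cast hy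
        rw [zero_add]
        have h1 := h y hy'
        refine h1.congr_fun fun x => ?_
        show FormalMultilinearSeries.ofScalars ℂ a x (fun _ => y) = a x * y ^ x
        rw [FormalMultilinearSeries.ofScalars_apply_eq, smul_eq_mul] }
  have hd : DifferentiableOn ℂ g (Metric.ball 0 1) := by
    have h1 := hp.differentiableOn
    refine h1.mono fun y hy => ?_
    rw [mem_ball_zero_iff] at hy
    rw [Metric.mem_eball, edist_zero_right, enorm_eq_nnnorm, ENNReal.coe_lt_one_iff]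
    exact_mod_cast hy
  have hcl : DiffContOnCl ℂ g (Metric.ball 0 R) := by
    refine DifferentiableOn.diffContOnCl (hd.mono ?_)
    rw [closure_ball _ hR0.ne']
    exact Metric.closedBall_subset_ball hR
  have h2 := Complex.norm_iteratedDeriv_le_of_forall_mem_sphere_norm_le k hR0 hcl
    (fun z hz => hC z (by simpa using hz))
  have h3 := hp.factorial_smul 1 k
  have h4 : p k (fun _ => (1 : ℂ)) = a k := by
    show FormalMultilinearSeries.ofScalars ℂ a k (fun _ => (1 : ℂ)) = a k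
    rw [FormalMultilinearSeries.ofScalars_apply_eq, smul_eq_mul, one_pow, mul_one]
  rw [h4, ← iteratedDeriv_eq_iteratedFDeriv] at h3
  rw [← h3, nsmul_eq_mul, norm_mul, Complex.norm_natCast, mul_div_assoc] at h2
  exact le_of_mul_le_mul_left h2 (by positivity)

/-- summability by degrees -/
theorem P1y_sum {d : ℕ} {a : MI d → ℝ} (ha : ∀ α, 0 ≤ a α) {b : ℕ → ℝ} (hb : Summable b)
    (h : ∀ k, ∑ α ∈ A d k, a α ≤ b k) : Summable a := by
  classical
  have hb0 : ∀ k, 0 ≤ b k := fun k => (Finset.sum_nonneg fun α _ => ha α).trans (h k)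
  refine summable_of_sum_le ha (c := ∑' k, b k) fun u => ?_
  calc ∑ α ∈ u, a α ≤ ∑ k ∈ u.image (fun α => α.degree), ∑ α ∈ A d k, a α := by
        rw [← Finset.sum_fiberwise_of_maps_to (g := fun α : MI d => α.degree)
          (t := u.image (fun α => α.degree)) (fun α hα => Finset.mem_image_of_mem _ hα)]
        refine Finset.sum_le_sum fun k _ => Finset.sum_le_sum_of_subset_of_nonneg
          (fun α hα => mem_A.2 (Finset.mem_filter.1 hα).2) (fun _ _ _ => ha _)
    _ ≤ ∑ k ∈ u.image (fun α => α.degree), b k := Finset.sum_le_sum fun k _ => h k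
    _ ≤ ∑' k, b k := hb.sum_le_tsum _ (fun k _ => hb0 k)

theorem P1y_pow (n k : ℕ) : ((k : ℝ) + 1) ^ n ≤ 2 ^ n * ((k : ℝ) ^ n + 1) := by
  rcases Nat.eq_zero_or_pos k with h | h
  · subst h
    have h1 : (1 : ℝ) ≤ 2 ^ n := one_le_pow₀ (by norm_num)
    have h2 : (0 : ℝ) ≤ ((0 : ℕ) : ℝ) ^ n := by positivity
    simp only [Nat.cast_zero, zero_add, one_pow] at h2 ⊢
    nlinarith
  · have h1 : (1 : ℝ) ≤ k := by exact_mod_cast h
    calc ((k : ℝ) + 1) ^ n ≤ (2 * (k : ℝ)) ^ n := by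
          gcongr
          linarith
      _ = 2 ^ n * (k : ℝ) ^ n := mul_pow _ _ _
      _ ≤ 2 ^ n * ((k : ℝ) ^ n + 1) := by
          gcongr
          linarith

theorem P1y_summable (n : ℕ) {q C : ℝ} (h0 : 0 ≤ q) (h1 : q < 1) :
    Summable fun k : ℕ => ((k : ℝ) + 1) ^ n * C * q ^ k := by
  have hq : ‖q‖ < 1 := by rwa [Real.norm_eq_abs, abs_of_nonneg h0]
  have k1 := summable_pow_mul_geometric_of_norm_lt_one n hq
  have k2 := summable_pow_mul_geometric_of_norm_lt_one 0 hq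
  have k3 := (k1.add k2).mul_left (2 ^ n * |C|)
  refine Summable.of_norm_bounded k3 fun k => ?_
  rw [norm_mul, norm_mul, Real.norm_eq_abs, Real.norm_eq_abs, Real.norm_eq_abs,
    abs_of_nonneg (by positivity), abs_of_nonneg (pow_nonneg h0 k), pow_zero, one_mul]
  have k4 := P1y_pow n k
  calc ((k : ℝ) + 1) ^ n * |C| * q ^ k ≤ (2 ^ n * ((k : ℝ) ^ n + 1)) * |C| * q ^ k := by gcongr
    _ = 2 ^ n * |C| * ((k : ℝ) ^ n * q ^ k + q ^ k) := by ring

/-- Step 2: absolute convergence.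

Proof.  Let `‖z‖ < R < 1` and `C = sup_{‖x‖ ≤ R} |F(x)|` (compactness).  For `ζ ∈ S`,
`μ ↦ F(μζ)` has Taylor coefficients `hp f k ζ`, so `|hp f k ζ| ≤ C R^{-k}` (Cauchy), hence
`nk wH f k ≤ (C R^{-k})²` by `S2c` (the measure `σ` exists by `S1`), and by `A2b`
`∑_{|α|=k} |f_α z^α| ≤ √c_k C (|z|/R)^k`.  As `c_k ≤ (k+1)^{d-1}` (`ck_le`) this is summable over
`k`.  So `∑_α |f_α z^α| < ∞`, and summing by degree gives `F(z)`. -/
theorem P1b {d : ℕ} (hd : 1 ≤ d) {F : E d → ℂ} (hF : ContinuousOn F (Metric.ball 0 1))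
    {f : PS d} (hf : ∀ z : E d, ‖z‖ < 1 → HasSum (fun k => hp f k z) (F z)) : IsTS F f := by
  have hF' : ∀ z : E d, ‖z‖ < 1 → Summable fun α => ‖coeff α f * mono z α‖ := by
    intro z hz
    obtain ⟨R, hR1, hR2⟩ := exists_between hz
    have hR0 : 0 < R := lt_of_le_of_lt (norm_nonneg z) hR1
    obtain ⟨C, hC⟩ := (isCompact_closedBall (0 : E d) R).exists_bound_of_continuousOn
      (hF.mono (Metric.closedBall_subset_ball hR2))
    have hC' : ∀ x : E d, ‖x‖ ≤ R → ‖F x‖ ≤ C := fun x hx => hC x (by simpa using hx)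
    have hC0 : 0 ≤ C := (norm_nonneg _).trans (hC' 0 (by simpa using hR0.le))
    have hcau : ∀ (k : ℕ) (ζ : E d), ‖ζ‖ = 1 → ‖hp f k ζ‖ ≤ C / R ^ k := by
      intro k ζ hζ
      refine P1y_cauchy (a := fun k => hp f k ζ) (g := fun μ : ℂ => F (μ • ζ)) (fun μ hμ => ?_)
        hR0 hR2 (fun μ hμ => ?_) k
      · have h1 := hf (μ • ζ) (by rw [norm_smul, hζ, mul_one]; exact hμ)
        refine h1.congr_fun fun j => ?_
        rw [hp_smul, mul_comm]
      · exact hC' _ (by rw [norm_smul, hζ, mul_one, hμ])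
    obtain ⟨σ, hσ⟩ := S1 hd
    have hq : ‖z‖ / R < 1 := by rwa [div_lt_one hR0]
    refine P1y_sum (fun α => norm_nonneg _)
      (P1y_summable (d - 1) (C := C) (q := ‖z‖ / R) (by positivity) hq) fun k => ?_
    have h1 := S2c hσ f k (C := C / R ^ k) (hcau k)
    have h2 := A2b hd f k z
    have h3 := ck_le hd k
    have h4 : 1 ≤ ck d k := one_le_ck k
    have h5 : (∑ α ∈ A d k, ‖coeff α f * mono z α‖) ^ 2 ≤
        (((k : ℝ) + 1) ^ (d - 1) * C * (‖z‖ / R) ^ k) ^ 2 := by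
      calc (∑ α ∈ A d k, ‖coeff α f * mono z α‖) ^ 2 ≤ ck d k * nk wH f k * ‖z‖ ^ (2 * k) := h2
        _ ≤ (ck d k * ck d k) * (C / R ^ k) ^ 2 * ‖z‖ ^ (2 * k) := by
            have : 0 ≤ nk wH f k := nk_nonneg wH_pos f k
            have : ck d k ≤ ck d k * ck d k := by nlinarith
            gcongr
        _ = (ck d k * C * (‖z‖ / R) ^ k) ^ 2 := by
            rw [div_pow, mul_pow, mul_pow, div_pow, div_pow, ← pow_mul, ← pow_mul, mul_comm k 2]
            ring
        _ ≤ (((k : ℝ) + 1) ^ (d - 1) * C * (‖z‖ / R) ^ k) ^ 2 := by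
            have : 0 ≤ ck d k := by linarith
            gcongr
    exact (sq_le_sq₀ (Finset.sum_nonneg fun _ _ => norm_nonneg _) (by positivity)).1 h5
  have hts := P2e hF'
  intro z hz
  have h1 := (P2c hts hz).1
  have h2 : ev f z = F z := h1.unique (hf z hz)
  rw [← h2]
  exact hts z hz

theorem P1 {d : ℕ} (hd : 1 ≤ d) {F : E d → ℂ} (hF : AnalyticOnNhd ℂ F (Metric.ball 0 1)) :
    ∃ f : PS d, IsTS F f := by
  obtain ⟨f, hf⟩ := P1a hF
  exact ⟨f, P1b hd hF.continuousOn hf⟩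

end Pool.Agent.CRT
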