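import Pool.Agent.CRT.M4
import Pool.Agent.CRT.A6

/-!
# [Z0] `Λ f ∈ H²_d` for `f ∈ R_DA`
-/

set_option autoImplicit false

namespace Pool.Agent.CRT

open MvPowerSeries

theorem Z0_summable (m : ℕ) {b : ℝ} (hb : 0 < b) :
    Summable fun k : ℕ => ((k : ℝ) + 1) ^ m * Real.exp (-(b * Real.sqrt k)) := by
  rw [← summable_nat_add_iff 1]
  have h1 : Summable fun k : ℕ => (2 ^ m * ((2 * (m + 2)).factorial : ℝ) / b ^ (2 * (m + 2))) *
      (1 / ((k + 1 : ℕ) : ℝ) ^ 2) :=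
    (((summable_nat_add_iff 1).2 (Real.summable_one_div_nat_pow.2 (by norm_num : 1 < 2)))).mul_left _
  refine Summable.of_nonneg_of_le (fun k => by positivity) (fun k => ?_) h1
  set n : ℝ := ((k + 1 : ℕ) : ℝ) with hn
  have hn1 : 1 ≤ n := by
    rw [hn]
    push_cast
    linarith [(Nat.cast_nonneg k : (0 : ℝ) ≤ k)]
  have hn0 : 0 < n := by linarith
  have hs : Real.sqrt n ^ (2 * (m + 2)) = n ^ (m + 2) := by
    rw [pow_mul, Real.sq_sqrt hn0.le]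
  have hexp := Real.pow_div_factorial_le_exp (b * Real.sqrt n) (by positivity) (2 * (m + 2))
  rw [mul_pow, hs] at hexp
  have hpos : 0 < b ^ (2 * (m + 2)) * n ^ (m + 2) / ((2 * (m + 2)).factorial : ℝ) := by positivity
  have h2 : Real.exp (-(b * Real.sqrt n)) ≤
      ((2 * (m + 2)).factorial : ℝ) / (b ^ (2 * (m + 2)) * n ^ (m + 2)) := by
    rw [Real.exp_neg]
    calc (Real.exp (b * Real.sqrt n))⁻¹
        ≤ (b ^ (2 * (m + 2)) * n ^ (m + 2) / ((2 * (m + 2)).factorial : ℝ))⁻¹ :=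
          inv_anti₀ hpos hexp
      _ = _ := by rw [inv_div]
  have h3 : (n + 1) ^ m ≤ 2 ^ m * n ^ m := by
    rw [← mul_pow]
    exact pow_le_pow_left₀ (by linarith) (by linarith) m
  calc (n + 1) ^ m * Real.exp (-(b * Real.sqrt n))
      ≤ (2 ^ m * n ^ m) * (((2 * (m + 2)).factorial : ℝ) / (b ^ (2 * (m + 2)) * n ^ (m + 2))) :=
        mul_le_mul h3 h2 (Real.exp_pos _).le (by positivity)
    _ = _ := by
        rw [pow_add n m 2]
        field_simp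

theorem Z0_nk {d : ℕ} (f : PS d) (k : ℕ) : nk wD (Lm f) k = ck d k ^ 2 * nk wD f k := by
  unfold nk
  rw [Finset.mul_sum]
  refine Finset.sum_congr rfl fun α hα => ?_
  have hk : α.degree = k := mem_A.1 hα
  have h1 : coeff α (Lm f) = (ck d k : ℂ) * coeff α f := by
    unfold Lm
    rw [coeff_mkP, hk]
  rw [h1, norm_mul, mul_pow, Complex.norm_real, Real.norm_eq_abs, sq_abs]
  ring

/-- If `f ∈ R_DA` then `Λ f ∈ Sp wD`.

Proof.  `nk wD (Lm f) k = c_k² nk wD f k = c_k³ nk wH f k` (`nkD_eq`) `≤ c_k³ C² e^{-2c√k}` by `M4` and `S2c`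
(`σ` from `S1`), `c_k ≤ (k+1)^{d-1}` (`ck_le`); this is summable over `k`.  `Sp_iff_nk`. -/
theorem Lm_Sp {d : ℕ} (hd : 1 ≤ d) {f : PS d} (hf : f ∈ RD d) : Lm f ∈ Sp (wD (d := d)) := by
  obtain ⟨σ, hσ⟩ := S1 hd
  obtain ⟨C, c, hC, hc, h4⟩ := M4 hd hf
  rw [Sp_iff_nk wD_pos]
  have hs := (Z0_summable (3 * (d - 1)) (b := 2 * c) (by positivity)).mul_left (C ^ 2)
  refine Summable.of_nonneg_of_le (fun k => nk_nonneg wD_pos _ k) (fun k => ?_) hs
  have h1 : nk wH f k ≤ (C * Real.exp (-(c * Real.sqrt k))) ^ 2 := S2c hσ f k (h4 k)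
  have h2 : ck d k ≤ ((k : ℝ) + 1) ^ (d - 1) := ck_le hd k
  have h3 : 1 ≤ ck d k := one_le_ck k
  have h0 : 0 ≤ nk wH f k := nk_nonneg wH_pos f k
  rw [Z0_nk, nkD_eq hd]
  have e1 : ck d k ^ 2 * (ck d k * nk wH f k) = ck d k ^ 3 * nk wH f k := by ring
  have e2 : (C * Real.exp (-(c * Real.sqrt k))) ^ 2 = C ^ 2 * Real.exp (-(2 * c * Real.sqrt k)) := by
    rw [mul_pow, ← Real.exp_nat_mul]
    congr 2
    push_cast
    ring
  have e3 : ck d k ^ 3 ≤ ((k : ℝ) + 1) ^ (3 * (d - 1)) := by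
    rw [mul_comm 3 (d - 1), pow_mul]
    exact pow_le_pow_left₀ (by linarith) h2 3
  rw [e1]
  calc ck d k ^ 3 * nk wH f k
      ≤ ((k : ℝ) + 1) ^ (3 * (d - 1)) * (C ^ 2 * Real.exp (-(2 * c * Real.sqrt k))) := by
        rw [← e2]
        exact mul_le_mul e3 h1 h0 (by positivity)
    _ = _ := by ring

end Pool.Agent.CRT
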