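import Pool.Agent.CRT.B5
import Pool.Agent.CRT.G7
import Pool.Agent.CRT.L2
import Pool.Agent.CRT.A6

/-!
# [Z1] The two inclusions
-/

set_option autoImplicit false

namespace Pool.Agent.CRT

open MvPowerSeries

theorem ns_nonneg {d : ℕ} {w : MI d → ℝ} (hw : ∀ α, 0 < w α) (f : PS d) : 0 ≤ ns w f :=
  tsum_nonneg fun α => mul_nonneg (by positivity) (hw α).le

theorem ns_smul {d : ℕ} {w : MI d → ℝ} (c : ℂ) (f : PS d) : ns w (c • f) = ‖c‖ ^ 2 * ns w f := by
  unfold ns
  rw [← tsum_mul_left]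
  congr 1
  ext α
  simp only [map_smul, smul_eq_mul, norm_mul]
  ring

/-- a linear functional bounded on `{h polynomial : ‖mh‖ ≤ 1}` is bounded by `C‖mh‖` -/
theorem scale_bound {d : ℕ} {w : MI d → ℝ} (hw : ∀ α, 0 < w α) {m f : PS d} {C : ℝ}
    (hC : ∀ h : PS d, IsPoly h → ns w (m * h) ≤ 1 → ‖ip w h f‖ ≤ C) (h : PS d) (hh : IsPoly h) :
    ‖ip w h f‖ ≤ |C| * Real.sqrt (ns w (m * h)) := by
  have hn := ns_nonneg hw (m * h)
  rcases hn.eq_or_lt with h0 | h0
  · -- all multiples
    rw [← h0]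
    have key : ∀ t : ℝ, 0 < t → t * ‖ip w h f‖ ≤ C := by
      intro t ht
      have := hC ((t : ℂ) • h) (poly_smul _ hh) (by
        rw [show m * ((t : ℂ) • h) = (t : ℂ) • (m * h) by
          rw [Algebra.mul_smul_comm], ns_smul, ← h0]
        simp)
      rw [ip_smul, norm_mul, Complex.norm_real, Real.norm_of_nonneg ht.le] at this
      exact this
    have h1 : ‖ip w h f‖ ≤ 0 := by
      by_contra hcon
      push Not at hcon
      have := key ((|C| + 1) / ‖ip w h f‖) (by positivity)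
      rw [div_mul_cancel₀ _ hcon.ne'] at this
      have := le_abs_self C
      linarith
    simpa using h1
  · set s := Real.sqrt (ns w (m * h)) with hs
    have hs0 : 0 < s := Real.sqrt_pos.2 h0
    have hs2 : s ^ 2 = ns w (m * h) := Real.sq_sqrt hn
    have := hC (((s⁻¹ : ℝ) : ℂ) • h) (poly_smul _ hh) (by
      rw [show m * (((s⁻¹ : ℝ) : ℂ) • h) = ((s⁻¹ : ℝ) : ℂ) • (m * h) by
        rw [Algebra.mul_smul_comm], ns_smul, ← hs2, Complex.norm_real,
        Real.norm_of_nonneg (by positivity)]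
      field_simp
      exact le_refl _)
    rw [ip_smul, norm_mul, Complex.norm_real, Real.norm_of_nonneg (by positivity)] at this
    have h3 : ‖ip w h f‖ ≤ C * s := by
      rw [inv_mul_le_iff₀ hs0] at this
      linarith
    calc ‖ip w h f‖ ≤ C * s := h3
      _ ≤ |C| * s := mul_le_mul_of_nonneg_right (le_abs_self C) hs0.le

end Pool.Agent.CRT
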