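import Pool.Agent.CRT.Z1
import Pool.Agent.CRT.Z0

/-!
# [Z2] `R_DA = R_H`
-/

set_option autoImplicit false

namespace Pool.Agent.CRT

open MvPowerSeries

theorem tt_pos {d : ℕ} {z : E d} (hz : ‖z‖ < 1) : 0 < tt z := by
  have h0 : 0 ≤ ‖z‖ := norm_nonneg z
  unfold tt
  nlinarith

theorem tt_le_one {d : ℕ} (z : E d) : tt z ≤ 1 := by
  unfold tt
  nlinarith [sq_nonneg ‖z‖]

/-- `mono` at a scalar multiple of a power series -/
theorem ev_smul {d : ℕ} (c : ℂ) (f : PS d) (z : E d) : ev (c • f) z = c * ev f z := by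
  unfold ev
  rw [← tsum_mul_left]
  congr 1
  ext α
  simp only [map_smul, smul_eq_mul]
  ring

theorem Hinf_smul {d : ℕ} {m : PS d} (hm : m ∈ Hinf d) (c : ℂ) : c • m ∈ Hinf d := by
  obtain ⟨h1, C, hC⟩ := hm
  refine ⟨fun z hz => ?_, ‖c‖ * C, fun z hz => ?_⟩
  · have := (h1 z hz).mul_left ‖c‖
    refine this.congr fun α => ?_
    simp only [map_smul, smul_eq_mul, norm_mul]
    ring
  · rw [ev_smul, norm_mul]
    exact mul_le_mul_of_nonneg_left (hC z hz) (norm_nonneg c)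

/-- the range of the adjoint does not change if the symbol is multiplied by a nonzero constant -/
theorem ranAdj_smul {d : ℕ} {w : MI d → ℝ} {m f : PS d} {c : ℂ} (hc : c ≠ 0)
    (h : f ∈ ranAdj w (c • m)) : f ∈ ranAdj w m := by
  obtain ⟨hf, g, hg, H⟩ := h
  refine ⟨hf, (starRingEnd ℂ) c • g, Sp_smul _ hg, fun h hh => ?_⟩
  obtain ⟨h1, h2⟩ := H h hh
  have e1 : (c • m) * h = c • (m * h) := by rw [Algebra.smul_mul_assoc]
  rw [e1] at h1 h2
  refine ⟨?_, ?_⟩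
  · have := Sp_smul c⁻¹ h1
    rwa [smul_smul, inv_mul_cancel₀ hc, one_smul] at this
  · rw [← h2, ip_smul]
    unfold ip
    rw [← tsum_mul_left]
    congr 1
    ext α
    simp only [map_smul, smul_eq_mul, map_mul, Complex.conj_conj]
    ring

/-- a bounded function has a positive bound -/
theorem Hinf_bound {d : ℕ} {m : PS d} (hm : m ∈ Hinf d) :
    ∃ C : ℝ, 0 < C ∧ ∀ z : E d, ‖z‖ < 1 → ‖ev m z‖ ≤ C := by
  obtain ⟨_, C, hC⟩ := hm
  exact ⟨|C| + 1, by positivity, fun z hz => (hC z hz).trans (by linarith [le_abs_self C])⟩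

/-- (i) `R_DA ⊆ R_H` -/
theorem RD_sub_RH {d : ℕ} (hd : 1 ≤ d) : RD d ⊆ RH d := by
  intro f hf m hm hm0
  obtain ⟨C₁, hC₁, hb⟩ := Hinf_bound hm
  -- normalise
  have hc : ((C₁⁻¹ : ℝ) : ℂ) ≠ 0 := by
    simp [hC₁.ne']
  apply ranAdj_smul hc
  set m' : PS d := ((C₁⁻¹ : ℝ) : ℂ) • m with hm'
  have hm'1 : m' ∈ Hinf d := Hinf_smul hm _
  have hm'0 : m' ≠ 0 := smul_ne_zero hc hm0
  have hm'b : ∀ z : E d, ‖z‖ < 1 → ‖ev m' z‖ ≤ 1 := by
    intro z hz
    rw [hm', ev_smul, norm_mul, Complex.norm_real, Real.norm_of_nonneg (by positivity),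
      inv_mul_le_iff₀ hC₁, mul_one]
    exact hb z hz
  have hT := G7 hd hm'1 hm'0 hm'b d
  obtain ⟨C, hC⟩ := B5 hd hf hT
  have hfS : f ∈ Sp (wH (d := d)) := (SpD_SpH hd (RD_Sp hf)).1
  have hw := wH_pos (d := d)
  refine A8 hw hfS (fun h hh => (A7 hd hm'1 hm'b hh).1) (C := |C|) ?_
  refine scale_bound hw ?_
  intro h hh hn
  refine hC h ⟨hh, fun z hz => ?_⟩
  have hhS : h ∈ Sp (wH (d := d)) := poly_Sp _ hh
  have hmh := (A7 hd hm'1 hm'b hhS).1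
  have h9 := (A9 hd hmh hz).2
  have hTS1 : IsTS (ev m') m' := P2e hm'1.1
  have hTS2 : IsTS (ev h) h := P2e fun z hz => (A9 hd hhS hz).1
  have hprod := P2f (P2b hTS1 hTS2) hz
  rw [hprod]
  refine h9.trans ?_
  have h1 : Real.sqrt (ns wH (m' * h)) ≤ 1 := by
    exact Real.sqrt_le_iff.2 ⟨zero_le_one, by simpa using hn⟩
  have h2 : 0 ≤ (1 / tt z) ^ d := by
    have := tt_pos hz
    positivity
  calc Real.sqrt (ns wH (m' * h)) * (1 / tt z) ^ d ≤ 1 * (1 / tt z) ^ d :=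
        mul_le_mul_of_nonneg_right h1 h2
    _ = _ := one_mul _

/-- (ii) `R_H ⊆ R_DA` -/
theorem RH_sub_RD {d : ℕ} (hd : 1 ≤ d) : RH d ⊆ RD d := by
  intro f hf
  have hf' := A10 hd hf
  set f' := Li f with hf'def
  have hff' : Lm f' = f := Lm_Li f
  intro m hm hm0
  have hmH := A6 hm
  obtain ⟨C₁, hC₁, hb⟩ := Hinf_bound hmH
  have hc : ((C₁⁻¹ : ℝ) : ℂ) ≠ 0 := by
    simp [hC₁.ne']
  apply ranAdj_smul hc
  set m' : PS d := ((C₁⁻¹ : ℝ) : ℂ) • m with hm'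
  have hm'1 : m' ∈ Hinf d := Hinf_smul hmH _
  have hm'0 : m' ≠ 0 := smul_ne_zero hc hm0
  have hm'b : ∀ z : E d, ‖z‖ < 1 → ‖ev m' z‖ ≤ 1 := by
    intro z hz
    rw [hm', ev_smul, norm_mul, Complex.norm_real, Real.norm_of_nonneg (by positivity),
      inv_mul_le_iff₀ hC₁, mul_one]
    exact hb z hz
  have hm'D : ∀ h ∈ Sp (wD (d := d)), m' * h ∈ Sp (wD (d := d)) := by
    intro h hh
    rw [hm', Algebra.smul_mul_assoc]
    exact Sp_smul _ (hm h hh)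
  have hT := L2 hd (L2 hd (G7 hd hm'1 hm'0 hm'b d))
  obtain ⟨C, hC⟩ := B5 hd hf' hT
  have hfS : f ∈ Sp (wD (d := d)) := hff' ▸ Lm_Sp hd hf'
  have hw := wD_pos (d := d)
  refine A8 hw hfS hm'D (C := |C|) ?_
  refine scale_bound hw ?_
  intro h hh hn
  have hhS : h ∈ Sp (wD (d := d)) := poly_Sp _ hh
  have hmem : h ∈ {h : PS d | IsPoly h ∧
      ∀ z : E d, ‖z‖ < 1 → ‖ev m' z * ev h z‖ ≤ (1 / tt z) ^ d} := by
    refine ⟨hh, fun z hz => ?_⟩
    have hmh := SpD_SpH hd (hm'D h hhS)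
    have h9 := (A9 hd hmh.1 hz).2
    have hTS1 : IsTS (ev m') m' := P2e hm'1.1
    have hTS2 : IsTS (ev h) h := P2e fun z hz => (A9 hd (SpD_SpH hd hhS).1 hz).1
    have hprod := P2f (P2b hTS1 hTS2) hz
    rw [hprod]
    refine h9.trans ?_
    have h1 : Real.sqrt (ns wH (m' * h)) ≤ 1 := by
      exact Real.sqrt_le_iff.2 ⟨zero_le_one, by simpa using hmh.2.trans hn⟩
    have h2 : 0 ≤ (1 / tt z) ^ d := by
      have := tt_pos hz
      positivity
    calc Real.sqrt (ns wH (m' * h)) * (1 / tt z) ^ d ≤ 1 * (1 / tt z) ^ d :=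
          mul_le_mul_of_nonneg_right h1 h2
      _ = _ := one_mul _
  have h3 : ip wD h f = ip wH (Lm (Lm h)) f' := by
    have e1 := (ipD_eq hd h f).2
    have e2 : ip wH (Lm h) f = ip wD (Lm h) f' := by
      rw [(ipD_eq hd (Lm h) f').1, hff']
    rw [e1, e2, (ipD_eq hd (Lm h) f').2]
  rw [h3]
  exact hC _ ⟨Lm h, ⟨h, hmem, rfl⟩, rfl⟩

/-- The common ranges of the co-analytic Toeplitz operators on the Drury–Arveson space and on the Hardy
space of the ball are equal. -/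
theorem RD_eq_RH {d : ℕ} (hd : 1 ≤ d) : RD d = RH d :=
  Set.Subset.antisymm (RD_sub_RH hd) (RH_sub_RD hd)

end Pool.Agent.CRT
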